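import Mathlib

/-!
# Normal projective surfaces as function fields over the plane

A surface is a field `F` over `k` with two algebraically independent elements `x`, `y` such that
`F` is finite separable over `k(x, y)`; it stands for the normalisation of the projective plane in
`F`. Charts, prime divisors, orders, spaces of sections.
-/

set_option autoImplicit false

noncomputable section

namespace Pool.Agent.SRF

section

variable (k : Type) {F : Type} [Field k] [Field F] [Algebra k F] (x y : F)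

/-- The projective coordinates `1, x, y`. -/
def z : Fin 3 → F := ![1, x, y]

/-- The coordinate ring of the chart `z i ≠ 0` of the plane. -/
def base (i : Fin 3) : Subalgebra k F :=
  Algebra.adjoin k (Set.range fun j => z x y j / z x y i)

/-- The chart `z i ≠ 0` of the normalisation of the plane in `F`. -/
def chart (i : Fin 3) : Subring F :=
  (integralClosure (base k x y i) F).toSubring

/-- `F` is the function field of a surface over `k`, finite separable over `k(x, y)`. -/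
structure IsSurf : Prop where
  indep : AlgebraicIndependent k ![x, y]
  fin : FiniteDimensional (IntermediateField.adjoin k {x, y}) F
  sep : Algebra.IsSeparable (IntermediateField.adjoin k {x, y}) F

end

section

variable {F : Type} [Field F]

/-- `v` is the order function of the discrete valuation ring `O`. -/
structure IsOrd (O : ValuationSubring F) (v : F → ℤ) : Prop where
  mul : ∀ f g, f ≠ 0 → g ≠ 0 → v (f * g) = v f + v g
  mem : ∀ f, f ≠ 0 → (f ∈ O ↔ 0 ≤ v f)
  unif : ∃ f, f ≠ 0 ∧ v f = 1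
  zero : v 0 = 0

/-- The order function of a discrete valuation ring (`0` if there is none). -/
def ord (O : ValuationSubring F) : F → ℤ :=
  open scoped Classical in if h : ∃ v, IsOrd O v then h.choose else 0

/-- Discrete valuation rings have an order function. -/
theorem exists_ord (O : ValuationSubring F) (h : IsDiscreteValuationRing O) : ∃ v, IsOrd O v := by
  classical
  obtain ⟨ϖ, hϖ⟩ := IsDiscreteValuationRing.exists_irreducible O
  have hϖ0 : (ϖ : F) ≠ 0 := by
    intro h0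
    exact hϖ.ne_zero (Subtype.ext h0)
  have hnot : (ϖ : F)⁻¹ ∉ O := by
    intro hmem
    apply hϖ.not_isUnit
    exact IsUnit.of_mul_eq_one (⟨(ϖ : F)⁻¹, hmem⟩ : O) (Subtype.ext (by simp [hϖ0]))
  have hex0 : ∀ f : F, f ≠ 0 → f ∈ O → ∃ n : ℤ, 0 ≤ n ∧ f * (ϖ : F) ^ (-n) ∈ O ∧
      (f * (ϖ : F) ^ (-n))⁻¹ ∈ O := by
    intro f hf hfO
    obtain ⟨n, u, hu⟩ := IsDiscreteValuationRing.eq_unit_mul_pow_irreducible
      (x := (⟨f, hfO⟩ : O)) (fun h0 => hf (congrArg Subtype.val h0)) hϖ
    have hu' : f = (u : O) * (ϖ : F) ^ n := by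
      have := congrArg Subtype.val hu
      simpa using this
    have hu1 : f * (ϖ : F) ^ (-(n : ℤ)) = ((u : O) : F) := by
      rw [hu', zpow_neg, zpow_natCast]
      field_simp
    refine ⟨n, by positivity, ?_, ?_⟩
    · rw [hu1]; exact (u : O).2
    · rw [hu1]
      have h1 : ((u : O) : F) * (((u⁻¹ : Oˣ) : O) : F) = 1 := by
        have h0 : (u : O) * ((u⁻¹ : Oˣ) : O) = 1 := Units.mul_inv u
        exact_mod_cast congrArg Subtype.val h0
      have h2 : (((u : O) : F))⁻¹ = (((u⁻¹ : Oˣ) : O) : F) :=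
        inv_eq_of_mul_eq_one_right h1
      rw [h2]
      exact ((u⁻¹ : Oˣ) : O).2
  have hex : ∀ f : F, f ≠ 0 → ∃ n : ℤ, f * (ϖ : F) ^ (-n) ∈ O ∧ (f * (ϖ : F) ^ (-n))⁻¹ ∈ O := by
    intro f hf
    rcases O.mem_or_inv_mem f with h1 | h1
    · obtain ⟨n, -, h2⟩ := hex0 f hf h1
      exact ⟨n, h2⟩
    · obtain ⟨n, -, h2, h3⟩ := hex0 f⁻¹ (inv_ne_zero hf) h1
      refine ⟨-n, ?_, ?_⟩
      · have : f * (ϖ : F) ^ (- -n) = (f⁻¹ * (ϖ : F) ^ (-n))⁻¹ := by
          rw [mul_inv, inv_inv, ← zpow_neg]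
        rw [this]; exact h3
      · have : (f * (ϖ : F) ^ (- -n))⁻¹ = f⁻¹ * (ϖ : F) ^ (-n) := by
          rw [mul_inv, ← zpow_neg, neg_neg]
        rw [this]; exact h2
  -- powers of the uniformiser
  have hpow : ∀ m : ℤ, (ϖ : F) ^ m ∈ O → 0 ≤ m := by
    intro m hm
    by_contra hneg
    push Not at hneg
    obtain ⟨j, rfl⟩ : ∃ j : ℕ, m = -((j : ℤ) + 1) := ⟨(-m - 1).toNat, by omega⟩
    apply hnot
    have : (ϖ : F)⁻¹ = (ϖ : F) ^ (-((j : ℤ) + 1)) * (ϖ : F) ^ j := by
      rw [← zpow_natCast, ← zpow_add₀ hϖ0]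
      ring_nf
      rw [zpow_neg_one]
    rw [this]
    exact mul_mem hm (pow_mem ϖ.2 j)
  have huniq : ∀ f : F, f ≠ 0 → ∀ n m : ℤ, f * (ϖ : F) ^ (-n) ∈ O →
      (f * (ϖ : F) ^ (-m))⁻¹ ∈ O → n ≤ m := by
    intro f hf n m h1 h2
    have h3 := mul_mem h1 h2
    have h4 : f * (ϖ : F) ^ (-n) * (f * (ϖ : F) ^ (-m))⁻¹ = (ϖ : F) ^ (m - n) := by
      rw [mul_inv, ← zpow_neg, neg_neg, zpow_sub₀ hϖ0, zpow_neg]
      field_simp
    rw [h4] at h3
    have := hpow _ h3
    linarith
  choose! v hv using hex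
  have hv1 : ∀ f, f ≠ 0 → ∀ n : ℤ, f * (ϖ : F) ^ (-n) ∈ O → (f * (ϖ : F) ^ (-n))⁻¹ ∈ O →
      v f = n := fun f hf n h1 h2 =>
    le_antisymm (huniq f hf _ _ (hv f hf).1 h2) (huniq f hf _ _ h1 (hv f hf).2)
  refine ⟨fun f => if f = 0 then 0 else v f, ?_, ?_, ?_, ?_⟩
  · intro f g hf hg
    simp only [hf, hg, mul_eq_zero, or_self, if_false]
    apply hv1 _ (mul_ne_zero hf hg)
    · have := mul_mem (hv f hf).1 (hv g hg).1
      have h5 : f * g * (ϖ : F) ^ (-(v f + v g)) = f * (ϖ : F) ^ (-v f) * (g * (ϖ : F) ^ (-v g)) := by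
        rw [neg_add, zpow_add₀ hϖ0]; ring
      rw [h5]; exact this
    · have := mul_mem (hv f hf).2 (hv g hg).2
      have h5 : (f * g * (ϖ : F) ^ (-(v f + v g)))⁻¹ =
          (f * (ϖ : F) ^ (-v f))⁻¹ * (g * (ϖ : F) ^ (-v g))⁻¹ := by
        rw [neg_add, zpow_add₀ hϖ0, ← mul_inv]; congr 1; ring
      rw [h5]; exact this
  · intro f hf
    simp only [hf, if_false]
    constructor
    · intro h1
      obtain ⟨n, hn, h2, h3⟩ := hex0 f hf h1
      rw [hv1 f hf n h2 h3]; exact hn
    · intro h1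
      have h2 := (hv f hf).1
      have h3 : f = f * (ϖ : F) ^ (-v f) * (ϖ : F) ^ ((v f).toNat) := by
        rw [← zpow_natCast, Int.toNat_of_nonneg h1, mul_assoc, ← zpow_add₀ hϖ0]
        simp
      rw [h3]
      exact mul_mem h2 (pow_mem ϖ.2 _)
  · refine ⟨ϖ, hϖ0, ?_⟩
    simp only [hϖ0, if_false]
    apply hv1 _ hϖ0
    · rw [zpow_neg_one, mul_inv_cancel₀ hϖ0]; exact one_mem _
    · rw [zpow_neg_one, mul_inv_cancel₀ hϖ0, inv_one]; exact one_mem _
  · simp

theorem isOrd_ord {O : ValuationSubring F} (h : IsDiscreteValuationRing O) : IsOrd O (ord O) := by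
  have h1 := exists_ord O h
  unfold ord
  rw [dif_pos h1]
  exact h1.choose_spec

theorem IsOrd.one {O : ValuationSubring F} {v : F → ℤ} (h : IsOrd O v) : v 1 = 0 := by
  have := h.mul 1 1 one_ne_zero one_ne_zero
  rw [mul_one] at this
  linarith

theorem IsOrd.inv {O : ValuationSubring F} {v : F → ℤ} (h : IsOrd O v) {f : F} (hf : f ≠ 0) :
    v f⁻¹ = - v f := by
  have := h.mul f f⁻¹ hf (inv_ne_zero hf)
  rw [mul_inv_cancel₀ hf, h.one] at this
  linarith

theorem IsOrd.pow {O : ValuationSubring F} {v : F → ℤ} (h : IsOrd O v) {f : F} (hf : f ≠ 0)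
    (n : ℕ) : v (f ^ n) = n * v f := by
  induction n with
  | zero => simp [h.one]
  | succ n ih =>
    rw [pow_succ, h.mul _ _ (pow_ne_zero n hf) hf, ih]
    push_cast; ring

theorem IsOrd.add {O : ValuationSubring F} {v : F → ℤ} (h : IsOrd O v) {f g : F} (hf : f ≠ 0)
    (hg : g ≠ 0) (hfg : f + g ≠ 0) : min (v f) (v g) ≤ v (f + g) := by
  have key : ∀ f g : F, f ≠ 0 → g ≠ 0 → f + g ≠ 0 → v f ≤ v g → v f ≤ v (f + g) := by
    intro f g hf hg hfg hle
    have h1 : g * f⁻¹ ∈ O := by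
      rw [h.mem _ (mul_ne_zero hg (inv_ne_zero hf)), h.mul _ _ hg (inv_ne_zero hf), h.inv hf]
      linarith
    have h2 : (f + g) * f⁻¹ ∈ O := by
      rw [add_mul, mul_inv_cancel₀ hf]
      exact add_mem (one_mem _) h1
    rw [h.mem _ (mul_ne_zero hfg (inv_ne_zero hf)), h.mul _ _ hfg (inv_ne_zero hf),
      h.inv hf] at h2
    linarith
  rcases le_total (v f) (v g) with h1 | h1
  · rw [min_eq_left h1]; exact key f g hf hg hfg h1
  · rw [min_eq_right h1, add_comm]
    exact key g f hg hf (by rw [add_comm]; exact hfg) h1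

/-- The order is determined by its three properties. -/
theorem IsOrd.unique {O : ValuationSubring F} {v w : F → ℤ} (hv : IsOrd O v) (hw : IsOrd O w) :
    v = w := by
  obtain ⟨π, hπ0, hπ⟩ := hv.unif
  obtain ⟨τ, hτ0, hτ⟩ := hw.unif
  have hzpow : ∀ (u : F → ℤ) (_ : IsOrd O u) (f : F) (_ : f ≠ 0) (n : ℤ),
      u (f ^ n) = n * u f := by
    intro u hu f hf n
    obtain ⟨n, rfl | rfl⟩ := n.eq_nat_or_neg
    · rw [zpow_natCast, hu.pow hf]
    · rw [zpow_neg, zpow_natCast, hu.inv (pow_ne_zero n hf), hu.pow hf]; ring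
  have hle : ∀ f : F, f ≠ 0 → (0 ≤ v f ↔ 0 ≤ w f) := fun f hf => by
    rw [← hv.mem f hf, hw.mem f hf]
  have hzero : ∀ f : F, f ≠ 0 → (v f = 0 ↔ w f = 0) := by
    intro f hf
    have h1 := hle f hf
    have h2 := hle f⁻¹ (inv_ne_zero hf)
    rw [hv.inv hf, hw.inv hf] at h2
    omega
  -- w is a multiple of v
  have hmul : ∀ f : F, f ≠ 0 → w f = v f * w π := by
    intro f hf
    have h1 : v (f * (π ^ (v f))⁻¹) = 0 := by
      rw [hv.mul _ _ hf (inv_ne_zero (zpow_ne_zero _ hπ0)), hv.inv (zpow_ne_zero _ hπ0),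
        hzpow v hv π hπ0, hπ]
      ring
    rw [hzero _ (mul_ne_zero hf (inv_ne_zero (zpow_ne_zero _ hπ0))),
      hw.mul _ _ hf (inv_ne_zero (zpow_ne_zero _ hπ0)), hw.inv (zpow_ne_zero _ hπ0),
      hzpow w hw π hπ0] at h1
    linarith
  have h1 := hmul τ hτ0
  rw [hτ] at h1
  have h2 : 0 ≤ w π := by
    rw [← hle π hπ0, hπ]; norm_num
  have h3 : w π = 1 := by
    rcases Int.isUnit_iff.mp (IsUnit.of_mul_eq_one (v τ) (by rw [mul_comm]; exact h1.symm)) with h | h
    · exact h
    · omega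
  funext f
  by_cases hf : f = 0
  · rw [hf, hv.zero, hw.zero]
  · rw [hmul f hf, h3, mul_one]

end

section

variable (k : Type) {F : Type} [Field k] [Field F] [Algebra k F] (x y : F)

/-- Prime divisors: discrete valuation rings which are localisations of a chart. -/
def IsPD (O : ValuationSubring F) : Prop :=
  IsDiscreteValuationRing O ∧ ∃ i, chart k x y i ≤ O.toSubring ∧
    ∀ f ∈ O, ∃ a ∈ chart k x y i, ∃ b ∈ chart k x y i, b ≠ 0 ∧ b⁻¹ ∈ O ∧ f = a / b

/-- The type of prime divisors. -/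
abbrev PP : Type := {O : ValuationSubring F // IsPD k x y O}

/-- `f` is `0` or has order at least `- D` at every prime divisor. -/
def InL (D : PP k x y → ℤ) (f : F) : Prop := f = 0 ∨ ∀ O : PP k x y, - D O ≤ ord O.1 f

variable {k x y} in
theorem PP.isOrd (O : PP k x y) : IsOrd O.1 (ord O.1) := isOrd_ord O.2.1

/-- The field of constants is contained in the prime divisors. -/
theorem IsPD.const_mem {O : ValuationSubring F} (h : IsPD k x y O) (c : k) :
    algebraMap k F c ∈ O := by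
  obtain ⟨-, i, hi, -⟩ := h
  apply hi
  change IsIntegral (base k x y i) (algebraMap k F c)
  exact isIntegral_algebraMap (R := base k x y i) (A := F)
    (x := ⟨algebraMap k F c, (base k x y i).algebraMap_mem c⟩)

theorem ord_const (O : PP k x y) (c : k) (hc : c ≠ 0) : ord O.1 (algebraMap k F c) = 0 := by
  have h0 : algebraMap k F c ≠ 0 := by
    rw [Ne, map_eq_zero]; exact hc
  have h1 := (O.isOrd.mem _ h0).mp (O.2.const_mem k x y c)
  have h2 := O.2.const_mem k x y c⁻¹
  rw [map_inv₀] at h2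
  have h3 := (O.isOrd.mem _ (inv_ne_zero h0)).mp h2
  rw [O.isOrd.inv h0] at h3
  omega

/-- The space of sections of the divisor `D`. -/
def L (D : PP k x y → ℤ) : Submodule k F where
  carrier := {f | InL k x y D f}
  zero_mem' := Or.inl rfl
  add_mem' := by
    intro f g hf hg
    by_cases h0 : f = 0
    · rw [h0, zero_add]; exact hg
    by_cases h1 : g = 0
    · rw [h1, add_zero]; exact hf
    by_cases h2 : f + g = 0
    · exact Or.inl h2
    right
    intro O
    have h3 := hf.resolve_left h0 O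
    have h4 := hg.resolve_left h1 O
    exact le_trans (le_min h3 h4) (O.isOrd.add h0 h1 h2)
  smul_mem' := by
    intro c f hf
    by_cases h0 : f = 0
    · left; rw [h0, smul_zero]
    by_cases hc : c = 0
    · left; rw [hc, zero_smul]
    right
    intro O
    rw [Algebra.smul_def, O.isOrd.mul _ _ (by rw [Ne, map_eq_zero]; exact hc) h0,
      ord_const k x y O c hc, zero_add]
    exact hf.resolve_left h0 O

theorem mem_L {D : PP k x y → ℤ} {f : F} :
    f ∈ L k x y D ↔ f = 0 ∨ ∀ O : PP k x y, - D O ≤ ord O.1 f := Iff.rfl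

/-- The divisor of the line at infinity. -/
def H (O : PP k x y) : ℤ := max 0 (max (- ord O.1 x) (- ord O.1 y))

/-- The prime divisor `O` passes through the centre of the valuation ring `V`. -/
def thr (O V : ValuationSubring F) : Prop :=
  ∃ i, chart k x y i ≤ V.toSubring ∧ chart k x y i ≤ O.toSubring ∧
    ∀ a ∈ chart k x y i, a ≠ 0 → a⁻¹ ∉ O → a⁻¹ ∉ V

end

/-- Subrings of `K` over which `K` and the ring are finite over their `p`-th powers (the same as
in `Pool.Agent.H83.Ue`). -/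
structure IsFChart {K : Type} [Field K] (p : ℕ) (R : Subring K) : Prop where
  frac : ∀ x : K, ∃ a ∈ R, ∃ b ∈ R, b ≠ 0 ∧ x = a / b
  fin : ∃ Y : Finset K, (∀ y ∈ Y, y ∈ R) ∧
    ∀ r ∈ R, ∃ s : K → K, (∀ y ∈ Y, s y ∈ R) ∧ r = ∑ y ∈ Y, s y ^ p * y

end Pool.Agent.SRF
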