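import Pool.Agent.SRF.Stmts

/-!
# Squad SRF, module AX2
-/

set_option autoImplicit false

noncomputable section

namespace Pool.Agent.SRF

namespace AX2_

variable {F : Type} [Field F]

theorem isUnit_iff {V : ValuationSubring F} (v : V) (hv : (v : F) ≠ 0) :
    IsUnit v ↔ ((v : F))⁻¹ ∈ V := by
  constructor
  · rintro ⟨u, rfl⟩
    have h1 : ((u : V) : F) * (((u⁻¹ : Vˣ) : V) : F) = 1 := by
      have h0 : (u : V) * ((u⁻¹ : Vˣ) : V) = 1 := Units.mul_inv u
      exact_mod_cast congrArg Subtype.val h0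
    rw [inv_eq_of_mul_eq_one_right h1]
    exact ((u⁻¹ : Vˣ) : V).2
  · intro h
    exact IsUnit.of_mul_eq_one (⟨((v : F))⁻¹, h⟩ : V) (Subtype.ext (by simp [hv]))

end AX2_

open AX2_

theorem AX2_proof (hCEN : Stmt_CEN) (hREG : Stmt_REG) (hTHC : Stmt_THC) : Stmt_AX2 := by
  intro k F _ _ _ x y hS V hV f hf0 hf O hO hfO hfV
  obtain ⟨i, hi⟩ := (hCEN k F x y hS V hV).1
  let φ : chart k x y i →+* V := Subring.inclusion hi
  have hφ : ∀ a : chart k x y i, ((φ a : V) : F) = a := fun a => rfl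
  have hprime : ((IsLocalRing.maximalIdeal V).comap φ).IsPrime := inferInstance
  obtain ⟨a, b, hb, hab⟩ := hREG k F x y hS i ((IsLocalRing.maximalIdeal V).comap φ) hprime f (by
    intro O' hO' h1
    apply hf
    refine ⟨i, hi, hO', ?_⟩
    intro a ha ha0 haO haV
    have h2 := h1 ⟨a, ha⟩ (fun h => ha0 (congrArg Subtype.val h)) haO
    rw [Ideal.mem_comap, IsLocalRing.mem_maximalIdeal, mem_nonunits_iff] at h2
    apply h2
    exact (isUnit_iff (φ ⟨a, ha⟩) ha0).2 haV)
  have hb0 : (b : F) ≠ 0 := by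
    intro h
    apply hb
    have : b = 0 := Subtype.ext h
    rw [this]
    exact Ideal.zero_mem _
  have hbV : ((b : F))⁻¹ ∈ V := by
    rw [Ideal.mem_comap, IsLocalRing.mem_maximalIdeal, mem_nonunits_iff, not_not] at hb
    exact (isUnit_iff (φ b) hb0).1 hb
  have ha0 : (a : F) ≠ 0 := by
    intro h
    apply hf0
    rw [hab, h, zero_div]
  obtain ⟨hiO, htr⟩ := hTHC k F x y hS O V hV hO i hi
  have haO : ((a : F))⁻¹ ∉ O.1 := by
    intro h
    apply hfO
    rw [hab, inv_div, div_eq_mul_inv]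
    exact mul_mem (hiO b.2) h
  have haV := htr a a.2 ha0 haO
  apply haV
  have h3 : ((a : F))⁻¹ = f⁻¹ * ((b : F))⁻¹ := by
    rw [hab]
    field_simp
  rw [h3]
  exact mul_mem hfV hbV

end Pool.Agent.SRF
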