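import Pool.Agent.SRF.Stmts

/-!
# AX3
-/

set_option autoImplicit false

noncomputable section

namespace Pool.Agent.SRF

theorem AX3_proof (hCEN : Stmt_CEN) : Stmt_AX3 := by
  intro k F _ _ _ x y h V hV O hVO
  obtain ⟨⟨i, hi⟩, -⟩ := hCEN k F x y h V hV
  exact ⟨i, hi, fun a ha => hVO (hi ha), fun a _ _ haO haV => haO (hVO haV)⟩

end Pool.Agent.SRF
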