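import Pool.Agent.SRF.Stmts

/-!
# SRF, module BAS: the charts of the plane are polynomial rings with fraction field `k(x, y)`
-/

set_option autoImplicit false

noncomputable section

namespace Pool.Agent.SRF

namespace BAS_

variable {k F : Type} [Field k] [Field F] [Algebra k F] {x y : F}

theorem x_ne (h : IsSurf k x y) : x ≠ 0 := by
  have := h.indep.ne_zero 0
  simpa using this

theorem y_ne (h : IsSurf k x y) : y ≠ 0 := by
  have := h.indep.ne_zero 1
  simpa using this

theorem z_ne (h : IsSurf k x y) (i : Fin 3) : z x y i ≠ 0 := by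
  fin_cases i
  · exact one_ne_zero
  · exact x_ne h
  · exact y_ne h

theorem z_mem (j : Fin 3) : z x y j ∈ IntermediateField.adjoin k {x, y} := by
  fin_cases j
  · exact one_mem _
  · exact IntermediateField.mem_adjoin_pair_left k x y
  · exact IntermediateField.mem_adjoin_pair_right k x y

theorem adjoin_eq (h : IsSurf k x y) (i : Fin 3) :
    IntermediateField.adjoin k (Set.range fun j => z x y j / z x y i) =
      IntermediateField.adjoin k {x, y} := by
  apply le_antisymm
  · rw [IntermediateField.adjoin_le_iff]
    rintro _ ⟨j, rfl⟩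
    exact div_mem (z_mem j) (z_mem i)
  · have hj : ∀ j, z x y j / z x y i ∈
        IntermediateField.adjoin k (Set.range fun j => z x y j / z x y i) := fun j =>
      IntermediateField.subset_adjoin _ _ ⟨j, rfl⟩
    have hk : ∀ j, z x y j ∈
        IntermediateField.adjoin k (Set.range fun j => z x y j / z x y i) := fun j => by
      have h1 := div_mem (hj j) (hj 0)
      have h2 : z x y j / z x y i / (z x y 0 / z x y i) = z x y j := by
        have h3 : z x y 0 = 1 := rfl
        have h4 := z_ne h i
        rw [h3]
        field_simp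
      rwa [h2] at h1
    rw [IntermediateField.adjoin_le_iff]
    rintro w (rfl | hw)
    · exact hk 1
    · rw [Set.mem_singleton_iff] at hw
      rw [hw]
      exact hk 2

/-- the two generators of the base -/
def gen (x y : F) (i : Fin 3) (j : Fin 2) : F := z x y (i.succAbove j) / z x y i

theorem base_eq (h : IsSurf k x y) (i : Fin 3) :
    base k x y i = Algebra.adjoin k (Set.range (gen x y i)) := by
  apply le_antisymm
  · unfold base
    rw [Algebra.adjoin_le_iff]
    rintro _ ⟨j, rfl⟩
    rcases Fin.eq_self_or_eq_succAbove i j with rfl | ⟨l, rfl⟩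
    · change z x y j / z x y j ∈ _
      rw [div_self (z_ne h j)]
      exact one_mem _
    · exact Algebra.subset_adjoin ⟨l, rfl⟩
  · unfold base
    apply Algebra.adjoin_mono
    rintro _ ⟨l, rfl⟩
    exact ⟨i.succAbove l, rfl⟩

open scoped IntermediateField.algebraAdjoinAdjoin in
theorem alg_adjoin (S : Set F) (halg : Algebra.IsAlgebraic (IntermediateField.adjoin k S) F) :
    Algebra.IsAlgebraic (Algebra.adjoin k S) F :=
  (IsFractionRing.comap_isAlgebraic_iff (A := Algebra.adjoin k S)
    (K := IntermediateField.adjoin k S) (C := F)).2 halg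

theorem alg_base (h : IsSurf k x y) (i : Fin 3) : Algebra.IsAlgebraic (base k x y i) F := by
  have hfin := h.fin
  have halg : Algebra.IsAlgebraic (IntermediateField.adjoin k {x, y}) F :=
    Algebra.IsAlgebraic.of_finite _ _
  rw [← adjoin_eq h i] at halg
  exact alg_adjoin _ halg

theorem indep (h : IsSurf k x y) (i : Fin 3) : AlgebraicIndependent k (gen x y i) := by
  have halg : Algebra.IsAlgebraic (Algebra.adjoin k (Set.range (gen x y i))) F := by
    rw [← base_eq h i]; exact alg_base h i
  have hle : Cardinal.mk (Fin 2) ≤ Algebra.trdeg k F := h.indep.cardinalMk_le_trdeg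
  exact (Algebra.IsAlgebraic.isTranscendenceBasis_of_le_trdeg_of_finite k (gen x y i) hle).1

end BAS_

open BAS_ in
theorem BAS_proof : Stmt_BAS := by
  intro k F _ _ _ x y h i
  refine ⟨?_, ?_, ?_⟩
  · rw [base_eq h i]
    exact ⟨(indep h i).aevalEquiv⟩
  · intro f hf
    rw [← adjoin_eq h i]
    exact IntermediateField.algebra_adjoin_le_adjoin k _ hf
  · intro f hf
    rw [← adjoin_eq h i, IntermediateField.mem_adjoin_iff_div] at hf
    obtain ⟨a, ha, b, hb, rfl⟩ := hf
    by_cases hb0 : b = 0
    · refine ⟨0, zero_mem _, 1, one_mem _, one_ne_zero, ?_⟩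
      rw [hb0, div_zero, zero_div]
    · exact ⟨a, ha, b, hb, hb0, rfl⟩

end Pool.Agent.SRF
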