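import Pool.Agent.SRF.Stmts

/-!
# CEN: valuation rings which contain the constants contain a chart
-/

set_option autoImplicit false

noncomputable section

namespace Pool.Agent.SRF

namespace CEN_

variable {k F : Type} [Field k] [Field F] [Algebra k F] {x y : F}

theorem z_ne (h : IsSurf k x y) (i : Fin 3) : z x y i ≠ 0 := by
  have h1 := h.indep
  have h2 : Function.Injective ![x, y] := h1.injective
  have hx : x ≠ 0 := by
    have := h1.ne_zero 0
    simpa using this
  have hy : y ≠ 0 := by
    have := h1.ne_zero 1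
    simpa using this
  fin_cases i
  · exact one_ne_zero
  · exact hx
  · exact hy

theorem base_le (V : ValuationSubring F) (hV : ∀ c : k, algebraMap k F c ∈ V) (i : Fin 3)
    (h : ∀ j, z x y j / z x y i ∈ V) : ∀ f ∈ base k x y i, f ∈ V := by
  intro f hf
  unfold base at hf
  induction hf using Algebra.adjoin_induction with
  | mem a ha =>
    obtain ⟨j, rfl⟩ := ha
    exact h j
  | algebraMap r => exact hV r
  | add a b _ _ ha hb => exact add_mem ha hb
  | mul a b _ _ ha hb => exact mul_mem ha hb

theorem integral_mem (V : ValuationSubring F) (B : Subalgebra k F) (hB : ∀ f ∈ B, f ∈ V)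
    (f : F) (hf : IsIntegral B f) : f ∈ V := by
  let φ : B →+* V :=
    { toFun := fun b => ⟨b.1, hB _ b.2⟩
      map_one' := rfl
      map_mul' := fun _ _ => rfl
      map_zero' := rfl
      map_add' := fun _ _ => rfl }
  obtain ⟨p, hp, hpe⟩ := hf
  have h1 : IsIntegral V f := by
    refine ⟨p.map φ, hp.map φ, ?_⟩
    rw [Polynomial.eval₂_map]
    exact hpe
  obtain ⟨v, hv⟩ := IsIntegrallyClosed.isIntegral_iff.1 h1
  rw [← hv]
  exact v.2

theorem chart_le_iff (V : ValuationSubring F) (hV : ∀ c : k, algebraMap k F c ∈ V) (i : Fin 3) :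
    chart k x y i ≤ V.toSubring ↔ ∀ j, z x y j / z x y i ∈ V := by
  constructor
  · intro h j
    apply h
    show IsIntegral (base k x y i) _
    have : z x y j / z x y i ∈ base k x y i := Algebra.subset_adjoin ⟨j, rfl⟩
    exact isIntegral_algebraMap (R := base k x y i) (A := F) (x := ⟨_, this⟩)
  · intro h f hf
    exact integral_mem V _ (base_le V hV i h) f hf

end CEN_

open CEN_ in
theorem CEN_proof : Stmt_CEN := by
  intro k F _ _ _ x y h V hV
  refine ⟨?_, fun i => chart_le_iff V hV i⟩
  obtain ⟨i, -, hi⟩ := Finset.exists_max_image Finset.univ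
    (fun i : Fin 3 => V.valuation (z x y i)) Finset.univ_nonempty
  refine ⟨i, (chart_le_iff V hV i).2 fun j => ?_⟩
  rw [← V.valuation_le_one_iff, map_div₀]
  exact div_le_one_of_le₀ (hi j (Finset.mem_univ j)) zero_le

end Pool.Agent.SRF
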