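import Pool.Agent.SRF.Stmts

/-!
# Associated primes of principal ideals of a chart are traces of prime divisors
-/

set_option autoImplicit false

noncomputable section

namespace Pool.Agent.SRF

namespace DVQ_

open IsLocalRing

/-- A noetherian normal domain in a field, localised at a prime `(b : c)`, is a DVR. -/
theorem main {F : Type} [Field F] (R : Subring F) (hno : IsNoetherianRing R)
    (hint : ∀ f : F, IsIntegral R f → f ∈ R)
    (hfra : ∀ f : F, ∃ a ∈ R, ∃ b ∈ R, b ≠ 0 ∧ f = a / b)
    (Q : Ideal R) (hQ : Q.IsPrime) (b c : R) (hb : b ≠ 0)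
    (hQbc : ∀ r : R, r ∈ Q ↔ ∃ s : R, r * c = s * b) :
    ∃ O : ValuationSubring F, IsDiscreteValuationRing O ∧
      ∀ f : F, f ∈ O ↔ ∃ a s : R, s ∉ Q ∧ f = a / s := by
  have : IsFractionRing R F := IsFractionRing.of_field R F (fun z => by
    obtain ⟨a, ha, d, hd, -, h⟩ := hfra z
    exact ⟨⟨a, ha⟩, ⟨d, hd⟩, h⟩)
  have hS : Q.primeCompl ≤ nonZeroDivisors R := Q.primeCompl_le_nonZeroDivisors
  let A : Subalgebra R F := Localization.subalgebra.ofField F Q.primeCompl hS
  have hA : ∀ f : F, f ∈ A ↔ ∃ a s : R, s ∉ Q ∧ f = a / s := by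
    intro f
    constructor
    · rintro ⟨a, s, hs, h⟩
      exact ⟨a, s, hs, by rw [h, div_eq_mul_inv]; rfl⟩
    · rintro ⟨a, s, hs, h⟩
      exact ⟨a, s, hs, by rw [h, div_eq_mul_inv]; rfl⟩
  have hloc : IsLocalization Q.primeCompl A :=
    Localization.subalgebra.isLocalization_ofField F Q.primeCompl hS
  have hloc2 : IsLocalization.AtPrime A Q := hloc
  have hlocal : IsLocalRing A := IsLocalization.AtPrime.isLocalRing A Q
  have hnoA : IsNoetherianRing A := IsLocalization.isNoetherianRing Q.primeCompl A hno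
  have hne : ∀ s : R, s ∉ Q → (s : F) ≠ 0 := by
    intro s hs h0
    apply hs
    have : s = 0 := Subtype.ext h0
    rw [this]; exact Q.zero_mem
  have hbF : (b : F) ≠ 0 := fun h0 => hb (Subtype.ext h0)
  -- the maximal ideal
  have hmax : ∀ f : A, f ∈ maximalIdeal A ↔ ∃ r s : R, r ∈ Q ∧ s ∉ Q ∧ (f : F) = r / s := by
    intro f
    constructor
    · intro hf
      obtain ⟨r, s, hs, h⟩ := (hA f).mp f.2
      refine ⟨r, s, ?_, hs, h⟩
      by_contra hr
      rw [mem_maximalIdeal, mem_nonunits_iff] at hf
      apply hf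
      have h1 : ((s : F) / r) ∈ A := (hA _).mpr ⟨s, r, hr, rfl⟩
      refine IsUnit.of_mul_eq_one (⟨(s : F) / r, h1⟩ : A) (Subtype.ext ?_)
      change (f : F) * ((s : F) / r) = 1
      rw [h]
      have := hne s hs
      have := hne r hr
      field_simp
    · rintro ⟨r, s, hr, hs, h⟩
      rw [mem_maximalIdeal, mem_nonunits_iff]
      intro hu
      obtain ⟨g, hg⟩ := hu.exists_right_inv
      obtain ⟨r', s', hs', h'⟩ := (hA g).mp g.2
      have h1 : (f : F) * (g : F) = 1 := congrArg Subtype.val hg
      have h2 : (r : F) * r' = s * s' := by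
        rw [h, h'] at h1
        have := hne s hs
        have := hne s' hs'
        field_simp at h1
        exact h1
      have h3 : r * r' = s * s' := Subtype.ext h2
      have h4 : s * s' ∈ Q := by rw [← h3]; exact Q.mul_mem_right _ hr
      rcases hQ.mem_or_mem h4 with h5 | h5
      · exact hs h5
      · exact hs' h5
  -- the function u = c / b
  let u : F := (c : F) / b
  have hum : ∀ f ∈ maximalIdeal A, u * (f : F) ∈ A := by
    intro f hf
    obtain ⟨r, s, hr, hs, h⟩ := (hmax f).mp hf
    obtain ⟨t, ht⟩ := (hQbc r).mp hr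
    have ht' : (r : F) * c = t * b := congrArg Subtype.val ht
    refine (hA _).mpr ⟨t, s, hs, ?_⟩
    change (c : F) / b * (f : F) = t / s
    rw [h]
    have := hne s hs
    field_simp
    linear_combination ht'
  have huA : u ∉ A := by
    intro hu
    obtain ⟨r, s, hs, h⟩ := (hA _).mp hu
    apply hs
    rw [hQbc]
    refine ⟨r, Subtype.ext ?_⟩
    change (s : F) * c = r * b
    have h' : (c : F) / b = r / s := h
    have := hne s hs
    field_simp at h'
    linear_combination h'
  have hbQ : b ∈ Q := (hQbc b).mpr ⟨c, mul_comm _ _⟩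
  have hmne : maximalIdeal A ≠ ⊥ := by
    intro h0
    have h1 : (⟨(b : F), (hA _).mpr ⟨b, 1, fun h => hQ.ne_top ((Ideal.eq_top_iff_one _).mpr h),
        by simp⟩⟩ : A) ∈ maximalIdeal A := (hmax _).mpr ⟨b, 1, hbQ,
        fun h => hQ.ne_top ((Ideal.eq_top_iff_one _).mpr h), by simp⟩
    rw [h0, Ideal.mem_bot] at h1
    exact hbF (congrArg Subtype.val h1)
  -- there is an element x of the maximal ideal with u x a unit
  have hex : ∃ x ∈ maximalIdeal A, ∃ e : A, (e : F) = u * (x : F) ∧ IsUnit e := by
    by_contra hcon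
    push Not at hcon
    have hsub : ∀ f ∈ maximalIdeal A, ∃ g ∈ maximalIdeal A, (g : F) = u * (f : F) := by
      intro f hf
      refine ⟨⟨u * f, hum f hf⟩, ?_, rfl⟩
      rw [mem_maximalIdeal, mem_nonunits_iff]
      exact hcon f hf _ rfl
    let N : Submodule A F := Submodule.map (Algebra.linearMap A F) (maximalIdeal A)
    have hN : N ≠ ⊥ := by
      intro h0
      apply hmne
      rw [eq_bot_iff]
      intro f hf
      have h1 : (f : F) ∈ N := ⟨f, hf, rfl⟩
      rw [h0, Submodule.mem_bot] at h1
      rw [Ideal.mem_bot]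
      exact Subtype.ext h1
    have hfg : N.FG := Submodule.FG.map _ (IsNoetherian.noetherian (maximalIdeal A))
    have hui : IsIntegral A u := by
      refine isIntegral_of_smul_mem_submodule N hN hfg u ?_
      rintro _ ⟨f, hf, rfl⟩
      obtain ⟨g, hg, h⟩ := hsub f hf
      refine ⟨g, hg, ?_⟩
      change (g : F) = u • (f : F)
      rw [h, smul_eq_mul]
    obtain ⟨⟨s, hs⟩, h1⟩ := IsIntegral.exists_multiple_integral_of_isLocalization
      Q.primeCompl u hui
    have h2 : (s : F) * u ∈ R := hint _ h1
    apply huA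
    refine (hA _).mpr ⟨⟨_, h2⟩, s, hs, ?_⟩
    have := hne s hs
    change u = (s : F) * u / s
    field_simp
  obtain ⟨x, hx, e, he, heu⟩ := hex
  obtain ⟨e', he'⟩ := heu.exists_right_inv
  have hee : (e : F) * e' = 1 := congrArg Subtype.val he'
  have hprin : (maximalIdeal A).IsPrincipal := by
    refine ⟨x, le_antisymm ?_ ?_⟩
    · intro f hf
      rw [Ideal.submodule_span_eq, Ideal.mem_span_singleton']
      refine ⟨⟨u * f, hum f hf⟩ * e', Subtype.ext ?_⟩
      change u * (f : F) * e' * x = f
      rw [he] at hee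
      linear_combination (f : F) * hee
    · rw [Ideal.submodule_span_eq, Ideal.span_singleton_le_iff_mem]
      exact hx
  have hnf : ¬ IsField A := by
    rw [isField_iff_maximalIdeal_eq]
    exact hmne
  have hDVR : IsDiscreteValuationRing A :=
    ((IsDiscreteValuationRing.TFAE A hnf).out 0 4).mpr hprin
  have : IsFractionRing A F := Localization.subalgebra.isFractionRing_ofField F _ hS
  let O : ValuationSubring F :=
    { A.toSubring with
      mem_or_inv_mem' := by
        intro f
        obtain ⟨a, ha, d, hd, hd0, h⟩ := hfra f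
        have h1 : (⟨a, ha⟩ : R) = ⟨a, ha⟩ := rfl
        let a' : A := algebraMap R A ⟨a, ha⟩
        let d' : A := algebraMap R A ⟨d, hd⟩
        by_cases ha0 : a = 0
        · left
          rw [h, ha0, zero_div]
          exact A.zero_mem
        rcases ValuationRing.dvd_total a' d' with ⟨g, hg⟩ | ⟨g, hg⟩
        · right
          have h2 : d = a * (g : F) := congrArg Subtype.val hg
          have h3 : f⁻¹ = g := by
            rw [h, h2, inv_div]
            field_simp
          rw [h3]
          exact g.2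
        · left
          have h2 : a = d * (g : F) := congrArg Subtype.val hg
          have h3 : f = g := by
            rw [h, h2]
            field_simp
          rw [h3]
          exact g.2 }
  refine ⟨O, ?_, hA⟩
  let eq : A ≃+* O :=
    { toFun := fun a => ⟨a.1, a.2⟩
      invFun := fun a => ⟨a.1, a.2⟩
      left_inv := fun _ => rfl
      right_inv := fun _ => rfl
      map_mul' := fun _ _ => rfl
      map_add' := fun _ _ => rfl }
  exact IsDiscreteValuationRing.RingEquivClass.isDiscreteValuationRing eq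

end DVQ_

theorem DVQ_proof (hFIN : Stmt_FIN) (hFRA : Stmt_FRA) : Stmt_DVQ := by
  intro k F _ _ _ x y hS i Q hQ b c hb hQbc
  obtain ⟨-, hno, hint⟩ := hFIN k F x y hS i
  have hbase : ∀ f ∈ base k x y i, f ∈ chart k x y i := fun f hf =>
    isIntegral_algebraMap (R := base k x y i) (A := F) (x := ⟨f, hf⟩)
  have hfra : ∀ f : F, ∃ a ∈ chart k x y i, ∃ b ∈ chart k x y i, b ≠ 0 ∧ f = a / b := by
    intro f
    obtain ⟨a, ha, d, hd, hd0, h⟩ := hFRA k F x y hS i f
    exact ⟨a, ha, d, hbase d hd, hd0, h⟩
  obtain ⟨O, hO, hmem⟩ := DVQ_.main (chart k x y i) hno hint hfra Q hQ b c hb hQbc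
  have h1Q : (1 : chart k x y i) ∉ Q := fun h => hQ.ne_top ((Ideal.eq_top_iff_one _).mpr h)
  have hle : chart k x y i ≤ O.toSubring := by
    intro f hf
    exact (hmem f).mpr ⟨⟨f, hf⟩, 1, h1Q, by simp⟩
  have hne : ∀ s : chart k x y i, s ∉ Q → (s : F) ≠ 0 := by
    intro s hs h0
    apply hs
    have : s = 0 := Subtype.ext h0
    rw [this]; exact Q.zero_mem
  have hinv : ∀ a : chart k x y i, a ≠ 0 → (((a : F))⁻¹ ∈ O ↔ a ∉ Q) := by
    intro a ha
    have ha' : (a : F) ≠ 0 := fun h0 => ha (Subtype.ext h0)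
    constructor
    · intro h1 h2
      obtain ⟨r, s, hs, h⟩ := (hmem _).mp h1
      apply hs
      have hs' := hne s hs
      have h3 : (s : F) = r * a := by
        field_simp at h
        linear_combination h
      have h4 : s = r * a := Subtype.ext h3
      rw [h4]
      exact Q.mul_mem_left _ h2
    · intro h1
      exact (hmem _).mpr ⟨1, a, h1, by simp⟩
  refine ⟨⟨O, hO, i, hle, ?_⟩, hle, ?_⟩
  · intro f hf
    obtain ⟨a, s, hs, h⟩ := (hmem f).mp hf
    have hs0 : s ≠ 0 := by
      rintro rfl
      exact hs Q.zero_mem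
    exact ⟨a, a.2, s, s.2, hne s hs, (hinv s hs0).mpr hs, h⟩
  · intro a ha
    rw [not_iff_comm]
    exact (hinv a ha).symm

end Pool.Agent.SRF
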