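import Pool.Agent.SRF.Stmts

/-!
# SRF, module FIN: the charts are finite modules
-/

set_option autoImplicit false

noncomputable section

namespace Pool.Agent.SRF

namespace FIN_

variable {k F : Type} [Field k] [Field F] [Algebra k F] {x y : F}

theorem x_ne (h : IsSurf k x y) : x ≠ 0 := by
  have := h.indep.ne_zero 0
  simpa using this

theorem y_ne (h : IsSurf k x y) : y ≠ 0 := by
  have := h.indep.ne_zero 1
  simpa using this

theorem z_ne (h : IsSurf k x y) (i : Fin 3) : z x y i ≠ 0 := by
  fin_cases i
  · exact one_ne_zero
  · exact x_ne h
  · exact y_ne h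

theorem z_mem (j : Fin 3) : z x y j ∈ IntermediateField.adjoin k {x, y} := by
  fin_cases j
  · exact one_mem _
  · exact IntermediateField.mem_adjoin_pair_left k x y
  · exact IntermediateField.mem_adjoin_pair_right k x y

theorem adjoin_eq (h : IsSurf k x y) (i : Fin 3) :
    IntermediateField.adjoin k (Set.range fun j => z x y j / z x y i) =
      IntermediateField.adjoin k {x, y} := by
  apply le_antisymm
  · rw [IntermediateField.adjoin_le_iff]
    rintro _ ⟨j, rfl⟩
    exact div_mem (z_mem j) (z_mem i)
  · have hj : ∀ j, z x y j / z x y i ∈
        IntermediateField.adjoin k (Set.range fun j => z x y j / z x y i) := fun j =>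
      IntermediateField.subset_adjoin _ _ ⟨j, rfl⟩
    have hk : ∀ j, z x y j ∈
        IntermediateField.adjoin k (Set.range fun j => z x y j / z x y i) := fun j => by
      have h1 := div_mem (hj j) (hj 0)
      have h2 : z x y j / z x y i / (z x y 0 / z x y i) = z x y j := by
        have h3 : z x y 0 = 1 := rfl
        have h4 := z_ne h i
        rw [h3]
        field_simp
      rwa [h2] at h1
    rw [IntermediateField.adjoin_le_iff]
    rintro w (rfl | hw)
    · exact hk 1
    · rw [Set.mem_singleton_iff] at hw
      rw [hw]
      exact hk 2

open scoped IntermediateField.algebraAdjoinAdjoin in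
theorem fin_adjoin (S : Set F) [IsIntegrallyClosed (Algebra.adjoin k S)]
    [IsNoetherianRing (Algebra.adjoin k S)]
    [FiniteDimensional (IntermediateField.adjoin k S) F]
    [Algebra.IsSeparable (IntermediateField.adjoin k S) F] :
    Module.Finite (Algebra.adjoin k S) (integralClosure (Algebra.adjoin k S) F) :=
  IsIntegralClosure.finite (A := Algebra.adjoin k S) (K := IntermediateField.adjoin k S)
    (L := F) (C := integralClosure (Algebra.adjoin k S) F)

end FIN_

open FIN_ in
theorem FIN_proof (hBAS : Stmt_BAS) : Stmt_FIN := by
  intro k F _ _ _ x y h i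
  obtain ⟨⟨e⟩, -, -⟩ := hBAS k F x y h i
  have hN : IsNoetherianRing (base k x y i) := isNoetherianRing_of_ringEquiv _ e.toRingEquiv
  have hU : UniqueFactorizationMonoid (base k x y i) :=
    MulEquiv.uniqueFactorizationMonoid e.toRingEquiv.toMulEquiv inferInstance
  have hI : IsIntegrallyClosed (base k x y i) := inferInstance
  have h1 := h.fin
  have h2 := h.sep
  rw [← adjoin_eq h i] at h1 h2
  have hfin : Module.Finite (base k x y i) (integralClosure (base k x y i) F) := by
    have a1 : IsIntegrallyClosed (Algebra.adjoin k (Set.range fun j => z x y j / z x y i)) := hI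
    have a2 : IsNoetherianRing (Algebra.adjoin k (Set.range fun j => z x y j / z x y i)) := hN
    exact fin_adjoin (Set.range fun j => z x y j / z x y i)
  refine ⟨hfin, ?_, ?_⟩
  · exact IsNoetherianRing.of_finite (base k x y i) (integralClosure (base k x y i) F)
  · intro f hf
    have hf' : IsIntegral (integralClosure (base k x y i) F) f := hf
    exact isIntegral_trans (R := base k x y i) (A := integralClosure (base k x y i) F) f hf'

end Pool.Agent.SRF
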