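import Pool.Agent.SRF.Stmts

/-!
# Library of surfaces: module FRA
-/

set_option autoImplicit false

noncomputable section

namespace Pool.Agent.SRF

namespace FRA_

theorem isAlgebraic_base {F : Type} [Field F] (R : Subring F) (K : Subfield F)
    (h1 : ∀ f ∈ R, f ∈ K) (h2 : ∀ f ∈ K, ∃ a ∈ R, ∃ b ∈ R, b ≠ 0 ∧ f = a / b) (f : F)
    (hf : IsAlgebraic K f) : IsAlgebraic R f := by
  let φ : R →+* K :=
    { toFun := fun x => ⟨x.1, h1 x.1 x.2⟩
      map_one' := rfl
      map_mul' := fun x y => rfl
      map_zero' := rfl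
      map_add' := fun x y => rfl }
  letI : Algebra R K := φ.toAlgebra
  haveI : IsScalarTower R K F := IsScalarTower.of_algebraMap_eq fun x => rfl
  haveI : Algebra.IsAlgebraic R K := by
    refine ⟨fun g => ?_⟩
    obtain ⟨a, ha, b, hb, hb0, hg⟩ := h2 g.1 g.2
    refine ⟨Polynomial.C (⟨b, hb⟩ : R) * Polynomial.X - Polynomial.C (⟨a, ha⟩ : R), ?_, ?_⟩
    · intro h0
      have h3 := congrArg (fun q => Polynomial.coeff q 1) h0
      simp only [Polynomial.coeff_sub, Polynomial.coeff_C_mul, Polynomial.coeff_X_one,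
        Polynomial.coeff_C_succ, Polynomial.coeff_zero, mul_one, sub_zero] at h3
      exact hb0 (congrArg Subtype.val h3)
    · rw [map_sub, map_mul, Polynomial.aeval_C, Polynomial.aeval_C, Polynomial.aeval_X]
      apply Subtype.ext
      show b * g.1 - a = 0
      rw [hg]
      field_simp
      ring
  exact hf.restrictScalars R

end FRA_

open FRA_ in
theorem FRA_proof (hBAS : Stmt_BAS) : Stmt_FRA := by
  intro k F _ _ _ x y hS i f
  obtain ⟨-, h1, h2⟩ := hBAS k F x y hS i
  have hfin := hS.fin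
  have hf : IsAlgebraic (IntermediateField.adjoin k {x, y}) f :=
    Algebra.IsAlgebraic.isAlgebraic f
  have hf' : IsAlgebraic (base k x y i) f :=
    isAlgebraic_base (base k x y i).toSubring (IntermediateField.adjoin k {x, y}).toSubfield
      h1 h2 f hf
  obtain ⟨b, hb0, hb⟩ := hf'.exists_integral_multiple
  refine ⟨b • f, hb, b, b.2, fun h => hb0 (Subtype.ext h), ?_⟩
  have hb0' : (b : F) ≠ 0 := fun h => hb0 (Subtype.ext h)
  have h3 : b • f = (b : F) * f := rfl
  rw [h3]
  field_simp

end Pool.Agent.SRF
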