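import Pool.Agent.SRF.Stmts

/-!
# SRF, module HCH: the order of the line at infinity, computed in the charts
-/

set_option autoImplicit false

noncomputable section

namespace Pool.Agent.SRF

namespace HCH_

variable {k F : Type} [Field k] [Field F] [Algebra k F] {x y : F}

theorem ne_zero (h : IsSurf k x y) : ∀ j, z x y j ≠ 0 := by
  have h0 : (![x, y] : Fin 2 → F) 0 ≠ 0 := h.indep.ne_zero 0
  have h1 : (![x, y] : Fin 2 → F) 1 ≠ 0 := h.indep.ne_zero 1
  intro j
  fin_cases j
  · exact one_ne_zero
  · exact h0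
  · exact h1

theorem H_eq (O : PP k x y) :
    (∀ j, - ord O.1 (z x y j) ≤ H k x y O) ∧ ∃ j, H k x y O = - ord O.1 (z x y j) := by
  have h0 : ord O.1 (z x y 0) = 0 := O.isOrd.one
  have h1 : ord O.1 (z x y 1) = ord O.1 x := rfl
  have h2 : ord O.1 (z x y 2) = ord O.1 y := rfl
  have hH : H k x y O = max 0 (max (- ord O.1 x) (- ord O.1 y)) := rfl
  constructor
  · intro j
    fin_cases j
    · change - ord O.1 (z x y 0) ≤ _
      rw [h0, hH, neg_zero]
      exact le_max_left _ _
    · change - ord O.1 (z x y 1) ≤ _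
      rw [h1, hH]
      exact le_max_of_le_right (le_max_left _ _)
    · change - ord O.1 (z x y 2) ≤ _
      rw [h2, hH]
      exact le_max_of_le_right (le_max_right _ _)
  · rcases max_choice 0 (max (- ord O.1 x) (- ord O.1 y)) with h | h
    · exact ⟨0, by rw [h0, hH, h, neg_zero]⟩
    · rcases max_choice (- ord O.1 x) (- ord O.1 y) with h' | h'
      · exact ⟨1, by rw [h1, hH, h, h']⟩
      · exact ⟨2, by rw [h2, hH, h, h']⟩

end HCH_

open HCH_ in
theorem HCH_proof (hCEN : Stmt_CEN) : Stmt_HCH := by
  intro k F _ _ _ x y hS O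
  obtain ⟨hle, j0, hj0⟩ := H_eq O
  have hz := ne_zero hS
  refine ⟨le_max_left _ _, fun i => ?_, fun i => ?_⟩
  · have := hle i
    linarith
  · rw [(hCEN k F x y hS O.1 (O.2.const_mem k x y)).2 i]
    have hmem : ∀ j, z x y j / z x y i ∈ O.1 ↔ ord O.1 (z x y i) ≤ ord O.1 (z x y j) := by
      intro j
      rw [O.isOrd.mem _ (div_ne_zero (hz j) (hz i)), div_eq_mul_inv,
        O.isOrd.mul _ _ (hz j) (inv_ne_zero (hz i)), O.isOrd.inv (hz i)]
      constructor
      · intro h
        linarith
      · intro h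
        linarith
    constructor
    · intro h
      have h1 := (hmem j0).1 (h j0)
      have h2 := hle i
      omega
    · intro h j
      rw [hmem j]
      have h2 := hle j
      omega

end Pool.Agent.SRF
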