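import Pool.Agent.SRF.Stmts

/-!
Module LIF of squad SRF: change of chart.
-/

set_option autoImplicit false

noncomputable section

namespace Pool.Agent.SRF

namespace LIF_

section
variable {k F : Type} [Field k] [Field F] [Algebra k F] {x y : F}

lemma z_ne (h : IsSurf k x y) (i : Fin 3) : z x y i ≠ 0 := by
  have hx : x ≠ 0 := h.indep.ne_zero 0
  have hy : y ≠ 0 := h.indep.ne_zero 1
  fin_cases i
  · exact one_ne_zero
  · exact hx
  · exact hy

lemma gen_mem (i j : Fin 3) : z x y j / z x y i ∈ base k x y i :=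
  Algebra.subset_adjoin ⟨j, rfl⟩

lemma base_change (h : IsSurf k x y) (i i' : Fin 3) (c : F) (hc : c ∈ base k x y i') :
    ∃ M : ℕ, ∀ m : ℕ, M ≤ m → c * (z x y i' / z x y i) ^ m ∈ base k x y i := by
  have h0 := z_ne h i'
  have ht : z x y i' / z x y i ∈ base k x y i := gen_mem i i'
  unfold base at hc
  induction hc using Algebra.adjoin_induction with
  | mem c hc =>
    obtain ⟨j, rfl⟩ := hc
    refine ⟨1, fun m hm => ?_⟩
    obtain ⟨m, rfl⟩ : ∃ m', m = m' + 1 := ⟨m - 1, by omega⟩
    have h1 : z x y j / z x y i' * (z x y i' / z x y i) ^ (m + 1) =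
        z x y j / z x y i * (z x y i' / z x y i) ^ m := by
      rw [pow_succ]
      field_simp
    show z x y j / z x y i' * (z x y i' / z x y i) ^ (m + 1) ∈ base k x y i
    rw [h1]
    exact mul_mem (gen_mem i j) (pow_mem ht m)
  | algebraMap c =>
    exact ⟨0, fun m _ => mul_mem ((base k x y i).algebraMap_mem c) (pow_mem ht m)⟩
  | add c d _ _ hc hd =>
    obtain ⟨M, hM⟩ := hc
    obtain ⟨N, hN⟩ := hd
    refine ⟨M + N, fun m hm => ?_⟩
    rw [add_mul]
    exact add_mem (hM m (by omega)) (hN m (by omega))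
  | mul c d _ _ hc hd =>
    obtain ⟨M, hM⟩ := hc
    obtain ⟨N, hN⟩ := hd
    refine ⟨M + N, fun m hm => ?_⟩
    obtain ⟨r, rfl⟩ : ∃ r, m = M + r := ⟨m - M, by omega⟩
    have h1 : c * d * (z x y i' / z x y i) ^ (M + r) =
        (c * (z x y i' / z x y i) ^ M) * (d * (z x y i' / z x y i) ^ r) := by
      rw [pow_add]
      ring
    rw [h1]
    exact mul_mem (hM M le_rfl) (hN r (by omega))

end

end LIF_

open LIF_ Polynomial in
theorem LIF_proof : Stmt_LIF := by
  intro k F _ _ _ x y h i i' a ha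
  have ha' : IsIntegral (base k x y i') a := ha
  obtain ⟨p, hpm, hp⟩ := ha'
  have ht : z x y i' / z x y i ∈ base k x y i := gen_mem i i'
  have hco : ∀ c : F, c ∈ base k x y i' → ∃ M : ℕ, ∀ m : ℕ, M ≤ m →
      c * (z x y i' / z x y i) ^ m ∈ base k x y i := base_change h i i'
  choose! N hN using hco
  obtain ⟨M, hM⟩ : ∃ M : ℕ, ∀ l ∈ Finset.range (p.natDegree + 1), N (p.coeff l : F) ≤ M :=
    ⟨∑ l ∈ Finset.range (p.natDegree + 1), N (p.coeff l : F), fun l hl =>
      Finset.single_le_sum (f := fun l => N (p.coeff l : F)) (fun _ _ => Nat.zero_le _) hl⟩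
  refine ⟨M, fun m hm => ?_⟩
  show IsIntegral (base k x y i) (a * (z x y i' / z x y i) ^ m)
  set t := z x y i' / z x y i with ht_def
  set P : F[X] := p.map (algebraMap (base k x y i') F) with hP
  have hPm : P.Monic := hpm.map _
  set Q : F[X] := P.scaleRoots (t ^ m) with hQ
  have hQm : Q.Monic := (Polynomial.monic_scaleRoots_iff _).2 hPm
  have hQ0 : Q.eval (a * t ^ m) = 0 := by
    have h1 : P.eval₂ (RingHom.id F) a = 0 := by
      rw [hP, Polynomial.eval₂_map, RingHom.id_comp]
      exact hp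
    have h2 := Polynomial.scaleRoots_eval₂_eq_zero (RingHom.id F) (s := t ^ m) h1
    rw [RingHom.id_apply, mul_comm] at h2
    exact h2
  have hdeg : P.natDegree = p.natDegree := hpm.natDegree_map _
  have hlift : Q ∈ Polynomial.lifts (algebraMap (base k x y i) F) := by
    rw [Polynomial.lifts_iff_coeff_lifts]
    intro l
    have hmem : Q.coeff l ∈ base k x y i := by
      rw [hQ, Polynomial.coeff_scaleRoots, hdeg, ← pow_mul]
      have h3 : P.coeff l = (p.coeff l : F) := by
        rw [hP, Polynomial.coeff_map]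
        rfl
      rw [h3]
      rcases lt_trichotomy l p.natDegree with h4 | h4 | h4
      · refine hN _ (p.coeff l).2 _ ?_
        refine (hM l (Finset.mem_range.2 (by omega))).trans (hm.trans ?_)
        exact Nat.le_mul_of_pos_right m (by omega)
      · rw [h4, Nat.sub_self, mul_zero, pow_zero, mul_one]
        have h5 : p.coeff p.natDegree = 1 := hpm.coeff_natDegree
        rw [h5]
        exact one_mem _
      · rw [Polynomial.coeff_eq_zero_of_natDegree_lt h4]
        simp
    exact ⟨⟨_, hmem⟩, rfl⟩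
  obtain ⟨q, hq, _, hqm⟩ := Polynomial.lifts_and_natDegree_eq_and_monic hlift hQm
  refine ⟨q, hqm, ?_⟩
  rw [← Polynomial.eval_map, hq]
  exact hQ0

end Pool.Agent.SRF
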