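import Pool.Agent.SRF.Stmts

/-!
# LOC: a prime divisor is a localisation of every chart it contains
-/

set_option autoImplicit false

noncomputable section

namespace Pool.Agent.SRF

namespace LOC_

variable {k F : Type} [Field k] [Field F] [Algebra k F] {x y : F}

theorem z_ne (h : IsSurf k x y) (i : Fin 3) : z x y i ≠ 0 := by
  have h1 := h.indep
  have hx : x ≠ 0 := by
    have := h1.ne_zero 0
    simpa using this
  have hy : y ≠ 0 := by
    have := h1.ne_zero 1
    simpa using this
  fin_cases i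
  · exact one_ne_zero
  · exact hx
  · exact hy

theorem quot_mem (i j : Fin 3) : z x y j / z x y i ∈ chart k x y i := by
  show IsIntegral (base k x y i) _
  have : z x y j / z x y i ∈ base k x y i := Algebra.subset_adjoin ⟨j, rfl⟩
  exact isIntegral_algebraMap (R := base k x y i) (A := F) (x := ⟨_, this⟩)

end LOC_

open LOC_ in
theorem LOC_proof (_hCEN : Stmt_CEN) (hLIF : Stmt_LIF) : Stmt_LOC := by
  intro k F _ _ _ x y h O i hi f hf
  obtain ⟨-, i', hi', hloc⟩ := O.2
  obtain ⟨a, ha, b, hb, hb0, hbO, rfl⟩ := hloc f hf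
  obtain ⟨M1, hM1⟩ := hLIF k F x y h i i' a ha
  obtain ⟨M2, hM2⟩ := hLIF k F x y h i i' b hb
  have hz := z_ne h i
  have hz' := z_ne h i'
  have hq : (z x y i' / z x y i) ^ (max M1 M2) ≠ 0 := pow_ne_zero _ (div_ne_zero hz' hz)
  refine ⟨_, hM1 (max M1 M2) (le_max_left _ _), _, hM2 (max M1 M2) (le_max_right _ _),
    mul_ne_zero hb0 hq, ?_, ?_⟩
  · rw [mul_inv, ← inv_pow, inv_div]
    exact mul_mem hbO (pow_mem (hi' (quot_mem i' i)) _)
  · rw [mul_div_mul_right _ _ hq]

end Pool.Agent.SRF
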