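import Pool.Agent.SRF.Stmts

set_option autoImplicit false
set_option linter.all false

noncomputable section

namespace Pool.Agent.SRF

namespace NAL_

open MvPolynomial

theorem isUnit_iff {F : Type} [Field F] (O : ValuationSubring F) (a : O) :
    IsUnit a ↔ (a : F) ≠ 0 ∧ ((a : F))⁻¹ ∈ O := by
  constructor
  · rintro h
    obtain ⟨b, hb⟩ := h.exists_right_inv
    have h1 : (a : F) * (b : F) = 1 := by exact_mod_cast congrArg Subtype.val hb
    have h0 : (a : F) ≠ 0 := left_ne_zero_of_mul_eq_one h1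
    refine ⟨h0, ?_⟩
    rw [inv_eq_of_mul_eq_one_right h1]
    exact b.2
  · rintro ⟨h0, h1⟩
    exact IsUnit.of_mul_eq_one ⟨_, h1⟩ (Subtype.ext (mul_inv_cancel₀ h0))

/-- no prime element divides nonzero polynomials in each of the variables -/
theorem no_common {k : Type} [Field k] (g : MvPolynomial (Fin 2) k) (hg : Prime g)
    (p : Fin 2 → Polynomial k) (hp : ∀ j, p j ≠ 0)
    (hdvd : ∀ j, g ∣ Polynomial.aeval (X j : MvPolynomial (Fin 2) k) (p j)) : False := by
  have hne : ∀ j, Polynomial.aeval (X j : MvPolynomial (Fin 2) k) (p j) ≠ 0 := by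
    intro j h
    have := (MvPolynomial.transcendental_X k j : Transcendental k (X j : MvPolynomial (Fin 2) k))
    exact hp j ((transcendental_iff.1 this) _ h)
  have hdeg : ∀ j l : Fin 2, l ≠ j →
      degreeOf l (Polynomial.aeval (X j : MvPolynomial (Fin 2) k) (p j)) = 0 := by
    intro j l hl
    rw [Polynomial.aeval_eq_sum_range]
    refine Nat.eq_zero_of_le_zero ?_
    refine (degreeOf_sum_le _ _ _).trans ?_
    refine Finset.sup_le fun n _ => ?_
    rw [MvPolynomial.smul_eq_C_mul]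
    refine (degreeOf_C_mul_le _ _ _).trans ?_
    refine (degreeOf_pow_le _ _ _).trans ?_
    rw [degreeOf_X, if_neg hl, mul_zero]
  have hz : ∀ l, degreeOf l g = 0 := by
    intro l
    obtain ⟨j, hj'⟩ := exists_ne l
    have hj : l ≠ j := hj'.symm
    obtain ⟨c, hc⟩ := hdvd j
    have hc0 : c ≠ 0 := by
      intro h; rw [h, mul_zero] at hc; exact hne j hc
    have := hdeg j l hj
    rw [hc, degreeOf_mul_eq hg.ne_zero hc0] at this
    omega
  have htot : g.totalDegree = 0 := by
    rw [totalDegree_eq_zero_iff]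
    intro m hm s
    have h1 := hz s
    rw [degreeOf_eq_sup] at h1
    have h2 := Finset.le_sup (f := fun m : Fin 2 →₀ ℕ => m s) hm
    rw [h1] at h2
    exact Nat.le_zero.1 h2
  rw [totalDegree_eq_zero_iff_eq_C] at htot
  apply hg.not_unit
  rw [htot]
  refine (IsUnit.mk0 _ ?_).map C
  intro h
  rw [h, map_zero] at htot
  exact hg.ne_zero htot

end NAL_

open NAL_ in
theorem NAL_proof (hBAS : Stmt_BAS) (_hFIN : Stmt_FIN) (hLOC : Stmt_LOC) : Stmt_NAL := by
  classical
  intro k F _ _ _ x y hs O i hO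
  by_contra hcon
  push Not at hcon
  choose q hq0 hq using hcon
  obtain ⟨⟨e⟩, -, -⟩ := hBAS k F x y hs i
  let B := base k x y i
  let S := integralClosure B F
  haveI : UniqueFactorizationMonoid B := e.toMulEquiv.uniqueFactorizationMonoid inferInstance
  let ι : S →+* O.1 :=
    { toFun := fun a => ⟨a.1, hO a.2⟩
      map_one' := rfl
      map_mul' := fun _ _ => rfl
      map_zero' := rfl
      map_add' := fun _ _ => rfl }
  let Q : Ideal S := (IsLocalRing.maximalIdeal O.1).comap ι
  haveI hQp : Q.IsPrime := Ideal.comap_isPrime ι _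
  have hQ : ∀ a : S, a ∈ Q ↔ ((a : F) = 0 ∨ ((a : F))⁻¹ ∉ O.1) := by
    intro a
    change ι a ∈ IsLocalRing.maximalIdeal O.1 ↔ _
    rw [IsLocalRing.mem_maximalIdeal, mem_nonunits_iff, isUnit_iff]
    change ¬ ((a : F) ≠ 0 ∧ _) ↔ _
    tauto
  let p : Ideal B := Q.under B
  haveI hpp : p.IsPrime := inferInstanceAs (Q.under B).IsPrime
  have hp : ∀ b : B, b ∈ p ↔ ((b : F) = 0 ∨ ((b : F))⁻¹ ∉ O.1) := by
    intro b
    change algebraMap B S b ∈ Q ↔ _
    rw [hQ]; rfl
  -- all elements of B are integral modulo p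
  have hint : ∀ b : B, IsIntegral k (Ideal.Quotient.mkₐ k p b) := by
    rintro ⟨b, hb⟩
    refine Algebra.adjoin_induction (p := fun b hb => IsIntegral k
      (Ideal.Quotient.mkₐ k p (⟨b, hb⟩ : B))) ?_ ?_ ?_ ?_ hb
    · rintro _ ⟨j, rfl⟩
      rw [← isAlgebraic_iff_isIntegral]
      refine ⟨q j, hq0 j, ?_⟩
      rw [Polynomial.aeval_algHom_apply]
      change Ideal.Quotient.mk p _ = 0
      rw [Ideal.Quotient.eq_zero_iff_mem, hp]
      have h1 : ((Polynomial.aeval (⟨z x y j / z x y i, Algebra.subset_adjoin ⟨j, rfl⟩⟩ : B) (q j) : B)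
          : F) = Polynomial.aeval (z x y j / z x y i) (q j) := by
        rw [← Subalgebra.coe_val, ← Polynomial.aeval_algHom_apply]
        rfl
      rw [h1]
      by_cases h0 : Polynomial.aeval (z x y j / z x y i) (q j) = 0
      · exact Or.inl h0
      · exact Or.inr (hq j h0)
    · intro r
      have : (Ideal.Quotient.mkₐ k p (⟨algebraMap k F r, Subalgebra.algebraMap_mem _ r⟩ : B)) =
          algebraMap k (B ⧸ p) r := rfl
      rw [this]
      exact isIntegral_algebraMap
    · intro a b ha hb h1 h2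
      have : (Ideal.Quotient.mkₐ k p (⟨a + b, add_mem ha hb⟩ : B)) =
          Ideal.Quotient.mkₐ k p (⟨a, ha⟩ : B) + Ideal.Quotient.mkₐ k p (⟨b, hb⟩ : B) := rfl
      rw [this]; exact h1.add h2
    · intro a b ha hb h1 h2
      have : (Ideal.Quotient.mkₐ k p (⟨a * b, mul_mem ha hb⟩ : B)) =
          Ideal.Quotient.mkₐ k p (⟨a, ha⟩ : B) * Ideal.Quotient.mkₐ k p (⟨b, hb⟩ : B) := rfl
      rw [this]; exact h1.mul h2
  have halg : ∀ j : Fin 2, ∃ r : Polynomial k, r ≠ 0 ∧
      e (Polynomial.aeval (MvPolynomial.X j : MvPolynomial (Fin 2) k) r) ∈ p := by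
    intro j
    have h1 := (isAlgebraic_iff_isIntegral.2 (hint (e (MvPolynomial.X j))))
    obtain ⟨r, hr0, hr⟩ := h1
    refine ⟨r, hr0, ?_⟩
    rw [Polynomial.aeval_algHom_apply] at hr
    have h2 : Ideal.Quotient.mk p (Polynomial.aeval (e (MvPolynomial.X j)) r) = 0 := hr
    rw [Ideal.Quotient.eq_zero_iff_mem] at h2
    have h3 : e (Polynomial.aeval (MvPolynomial.X j : MvPolynomial (Fin 2) k) r) =
        Polynomial.aeval (e (MvPolynomial.X j)) r := by
      have := Polynomial.aeval_algHom_apply (e : MvPolynomial (Fin 2) k →ₐ[k] B)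
        (MvPolynomial.X j : MvPolynomial (Fin 2) k) r
      exact this.symm
    rw [h3]; exact h2
  choose r hr0 hr using halg
  have hpbot : p ≠ ⊥ := by
    intro hbot
    have h1 := hr 0
    rw [hbot, Ideal.mem_bot] at h1
    have h2 : Polynomial.aeval (MvPolynomial.X 0 : MvPolynomial (Fin 2) k) (r 0) = 0 := by
      apply e.injective
      rw [h1, map_zero]
    have := (MvPolynomial.transcendental_X k (0 : Fin 2))
    exact hr0 0 ((transcendental_iff.1 this) _ h2)
  obtain ⟨g, hgp, hg⟩ := hpp.exists_mem_prime_of_ne_bot hpbot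
  haveI hgpr : (Ideal.span {g} : Ideal B).IsPrime :=
    (Ideal.span_singleton_prime hg.ne_zero).2 hg
  have hlt : Ideal.span {g} < Q.under B := by
    refine lt_of_le_of_ne ((Ideal.span_singleton_le_iff_mem _).2 hgp) ?_
    intro heq
    have hg' : Prime (e.symm g) := (MulEquiv.prime_iff e.symm.toMulEquiv).2 hg
    refine no_common (e.symm g) hg' r hr0 fun j => ?_
    have h1 := hr j
    have h2 : e (Polynomial.aeval (MvPolynomial.X j : MvPolynomial (Fin 2) k) (r j)) ∈ Ideal.span {g} := by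
      rw [heq]; exact h1
    rw [Ideal.mem_span_singleton] at h2
    have h3 := map_dvd e.symm h2
    rwa [AlgEquiv.symm_apply_apply] at h3
  haveI : IsIntegrallyClosed B := inferInstance
  haveI : FaithfulSMul B S := by
    rw [faithfulSMul_iff_algebraMap_injective]
    intro a b hab
    have := congrArg Subtype.val hab
    exact Subtype.ext this
  haveI : Algebra.IsIntegral B S := inferInstance
  obtain ⟨Q', hQ'Q, hQ'p, hQ'⟩ :=
    Algebra.HasGoingDown.exists_ideal_le_liesOver_of_lt (R := B) (S := S) Q hlt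
  have hover : Ideal.span {g} = Q'.under B := hQ'.over
  have hne : Q' ≠ Q := by
    intro h
    rw [h] at hover
    exact hlt.ne hover
  obtain ⟨b, hbQ, hbQ'⟩ := SetLike.exists_of_lt (lt_of_le_of_ne hQ'Q hne)
  have hga : algebraMap B S g ∈ Q' := by
    have : g ∈ Q'.under B := by rw [← hover]; exact Ideal.mem_span_singleton_self g
    exact this
  set a : S := algebraMap B S g with ha
  have ha0 : (a : F) ≠ 0 := by
    intro h
    exact hg.ne_zero (Subtype.ext h)
  have hb0 : (b : F) ≠ 0 := by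
    intro h
    apply hbQ'
    have : b = 0 := Subtype.ext h
    rw [this]; exact Q'.zero_mem
  have hv := O.isOrd
  have haO : (a : F) ∈ O.1 := hO a.2
  have hbO : (b : F) ∈ O.1 := hO b.2
  have h1 : 0 ≤ ord O.1 (a : F) := (hv.mem _ ha0).1 haO
  have h2 : 1 ≤ ord O.1 (b : F) := by
    have h3 := ((hQ b).1 hbQ).resolve_left hb0
    rw [hv.mem _ (inv_ne_zero hb0), hv.inv hb0] at h3
    omega
  have hf0 : (b : F) ^ (ord O.1 (a : F)).toNat / a ≠ 0 := div_ne_zero (pow_ne_zero _ hb0) ha0
  have hf : (b : F) ^ (ord O.1 (a : F)).toNat / a ∈ O.1 := by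
    rw [hv.mem _ hf0, div_eq_mul_inv, hv.mul _ _ (pow_ne_zero _ hb0) (inv_ne_zero ha0),
      hv.inv ha0, hv.pow hb0, Int.toNat_of_nonneg h1]
    nlinarith
  obtain ⟨c, hc, d, hd, hd0, hdO, hcd⟩ := hLOC k F x y hs O i hO _ hf
  have hmul : (⟨d, hd⟩ : S) * b ^ (ord O.1 (a : F)).toNat = ⟨c, hc⟩ * a := by
    apply Subtype.ext
    change d * (b : F) ^ (ord O.1 (a : F)).toNat = c * (a : F)
    field_simp at hcd
    linear_combination hcd
  have hmem : (⟨d, hd⟩ : S) * b ^ (ord O.1 (a : F)).toNat ∈ Q' := by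
    rw [hmul]; exact Q'.mul_mem_left _ hga
  rcases hQ'p.mem_or_mem hmem with h3 | h3
  · have h4 := (hQ _).1 (hQ'Q h3)
    rcases h4 with h4 | h4
    · exact hd0 h4
    · exact h4 hdO
  · exact hbQ' (hQ'p.mem_of_pow_mem _ h3)

end Pool.Agent.SRF
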