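import Pool.Agent.SRF.Stmts

/-!
# SRF, module REC: global regularity on a chart
-/

set_option autoImplicit false

noncomputable section

namespace Pool.Agent.SRF

theorem REC_proof (hREG : Stmt_REG) : Stmt_REC := by
  intro k F _ _ _ x y hS i f hf
  -- the ideal of denominators
  let I : Ideal (chart k x y i) :=
    { carrier := {b | (b : F) * f ∈ chart k x y i}
      add_mem' := by
        intro a b ha hb
        change ((a + b : chart k x y i) : F) * f ∈ chart k x y i
        rw [Subring.coe_add, add_mul]
        exact add_mem ha hb
      zero_mem' := by
        change ((0 : chart k x y i) : F) * f ∈ chart k x y i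
        rw [Subring.coe_zero, zero_mul]
        exact zero_mem _
      smul_mem' := by
        intro c b hb
        change ((c * b : chart k x y i) : F) * f ∈ chart k x y i
        rw [Subring.coe_mul, mul_assoc]
        exact mul_mem c.2 hb }
  have hI : ∀ b : chart k x y i, b ∈ I ↔ (b : F) * f ∈ chart k x y i := fun b => Iff.rfl
  by_cases htop : I = ⊤
  · have h1 : (1 : chart k x y i) ∈ I := by
      rw [htop]
      exact Submodule.mem_top
    rw [hI, Subring.coe_one, one_mul] at h1
    exact h1
  · obtain ⟨P, hP, hIP⟩ := Ideal.exists_le_maximal I htop
    obtain ⟨a, b, hb, hab⟩ := hREG k F x y hS i P hP.isPrime f (fun O hO _ => hf O hO)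
    exfalso
    apply hb
    apply hIP
    rw [hI]
    by_cases hb0 : (b : F) = 0
    · rw [hb0, zero_mul]
      exact zero_mem _
    · have h2 : (b : F) * f = a := by
        rw [hab]
        field_simp
      rw [h2]
      exact a.2

end Pool.Agent.SRF
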