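import Pool.Agent.SRF.Stmts

set_option autoImplicit false

noncomputable section

namespace Pool.Agent.SRF

namespace REG_

/-- the ideal `(b : c)` -/
def col {R : Type} [CommRing R] (b c : R) : Ideal R where
  carrier := {r | ∃ t, r * c = t * b}
  add_mem' := by
    rintro r s ⟨t, ht⟩ ⟨t', ht'⟩
    exact ⟨t + t', by rw [add_mul, add_mul, ht, ht']⟩
  zero_mem' := ⟨0, by simp⟩
  smul_mem' := by
    rintro s r ⟨t, ht⟩
    exact ⟨s * t, by rw [smul_eq_mul, mul_assoc, ht, mul_assoc]⟩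

theorem mem_col {R : Type} [CommRing R] {b c r : R} : r ∈ col b c ↔ ∃ t, r * c = t * b := Iff.rfl

/-- among the ideals `(b : s a)` contained in a prime ideal there is a prime ideal -/
theorem exists_prime {R : Type} [CommRing R] [IsNoetherianRing R] (P : Ideal R) (hP : P.IsPrime)
    (a b : R) (h : col b a ≤ P) : ∃ s : R, col b (s * a) ≤ P ∧ (col b (s * a)).IsPrime := by
  have hne : ({J : Ideal R | ∃ s, J = col b (s * a) ∧ J ≤ P}).Nonempty :=
    ⟨col b a, 1, by rw [one_mul], h⟩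
  obtain ⟨Q, ⟨s, hQ, hQP⟩, hmax⟩ := WellFounded.has_min (wellFounded_gt (α := Ideal R)) _ hne
  have key : ∀ u v : R, v ∉ Q → u * v ∈ Q → ∃ w ∉ P, w * u ∈ Q := by
    intro u v hv huv
    have h1 : Q ≤ col b (s * u * a) := by
      intro r hr
      rw [hQ] at hr
      obtain ⟨t, ht⟩ := hr
      exact ⟨u * t, by rw [mul_assoc u, ← ht]; ring⟩
    have h2 : v ∈ col b (s * u * a) := by
      rw [hQ] at huv
      obtain ⟨t, ht⟩ := huv
      exact ⟨t, by rw [← ht]; ring⟩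
    have h3 : Q < col b (s * u * a) := lt_of_le_of_ne h1 fun h0 => hv (h0 ▸ h2)
    have h4 : ¬ col b (s * u * a) ≤ P := fun h5 => hmax _ ⟨s * u, rfl, h5⟩ h3
    obtain ⟨w, hw, hwP⟩ := Set.not_subset.1 h4
    refine ⟨w, hwP, ?_⟩
    rw [hQ]
    obtain ⟨t, ht⟩ := hw
    exact ⟨t, by rw [← ht]; ring⟩
  refine ⟨s, hQ ▸ hQP, ?_⟩
  rw [← hQ]
  refine ⟨fun h0 => hP.ne_top (top_le_iff.1 (h0 ▸ hQP)), ?_⟩
  intro u v huv
  by_contra hcon
  push Not at hcon
  obtain ⟨w, hwP, hw⟩ := key u v hcon.2 huv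
  obtain ⟨w', hw'P, hw'⟩ := key w u hcon.1 hw
  rcases hP.mem_or_mem (hQP hw') with h1 | h1
  · exact hw'P h1
  · exact hwP h1

end REG_

open REG_ in
theorem REG_proof (hFIN : Stmt_FIN) (hFRA : Stmt_FRA) (hLOC : Stmt_LOC) (hDVQ : Stmt_DVQ) :
    Stmt_REG := by
  intro k F _ _ _ x y hS i P hP f hf
  obtain ⟨-, hN, -⟩ := hFIN k F x y hS i
  obtain ⟨a0, ha0, b0, hb0, hb00, hfab⟩ := hFRA k F x y hS i f
  have hb0' : b0 ∈ chart k x y i := by
    change IsIntegral (base k x y i) b0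
    exact isIntegral_algebraMap (R := base k x y i) (A := F) (x := ⟨b0, hb0⟩)
  let a : chart k x y i := ⟨a0, ha0⟩
  let b : chart k x y i := ⟨b0, hb0'⟩
  have hb : b ≠ 0 := fun h => hb00 (congrArg Subtype.val h)
  have hfb : f * b0 = a0 := by rw [hfab, div_mul_cancel₀ _ hb00]
  by_contra hcon
  push Not at hcon
  have h1 : col b a ≤ P := by
    intro r hr
    obtain ⟨t, ht⟩ := hr
    by_contra hrP
    have hr0 : (r : F) ≠ 0 := by
      intro h0
      apply hrP
      have : r = 0 := Subtype.ext h0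
      rw [this]; exact P.zero_mem
    apply hcon t r hrP
    have ht' : (r : F) * a0 = t * b0 := congrArg Subtype.val ht
    rw [eq_div_iff hr0]
    have h2 : (f * r - t) * b0 = 0 := by
      rw [sub_mul, ← ht', ← hfb]; ring
    rcases mul_eq_zero.1 h2 with h3 | h3
    · exact sub_eq_zero.1 h3
    · exact absurd h3 hb00
  obtain ⟨s, hsP, hsprime⟩ := exists_prime P hP a b h1
  obtain ⟨O, hO, htr⟩ := hDVQ k F x y hS i (col b (s * a)) hsprime b (s * a) hb
    (fun r => mem_col)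
  have hfO : f ∈ O.1 := hf O hO fun a' ha' h' => hsP ((htr a' ha').1 h')
  obtain ⟨c', hc', t', ht', ht0, htO, hft⟩ := hLOC k F x y hS O i hO f hfO
  let t1 : chart k x y i := ⟨t', ht'⟩
  let c1 : chart k x y i := ⟨c', hc'⟩
  have ht1 : t1 ≠ 0 := fun h => ht0 (congrArg Subtype.val h)
  have h3 : t1 ∉ col b (s * a) := fun h => (htr t1 ht1).2 h htO
  apply h3
  refine ⟨s * c1, ?_⟩
  apply Subtype.ext
  change t' * ((s : F) * a0) = (s : F) * c' * b0
  have h4 : f * t' = c' := by rw [hft, div_mul_cancel₀ _ ht0]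
  rw [← hfb, ← h4]
  ring

end Pool.Agent.SRF
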