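import Pool.Agent.SRF.Stmts

/-!
# SRF: any integral equation of the right shape gives a section
-/

set_option autoImplicit false

noncomputable section

namespace Pool.Agent.SRF

namespace SCI_

variable {k F : Type} [Field k] [Field F] [Algebra k F] {x y : F}

theorem z_ne_zero (hS : IsSurf k x y) (i : Fin 3) : z x y i ≠ 0 := by
  have h0 : ∀ j : Fin 2, (![x, y] : Fin 2 → F) j ≠ 0 := fun j => hS.indep.ne_zero j
  fin_cases i
  · simp [z]
  · simpa [z] using h0 0
  · simpa [z] using h0 1

/-- A polynomial of degree at most `D`, divided by `z i ^ D`, is in the coordinate ring. -/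
theorem div_mem_base (hS : IsSurf k x y) (i : Fin 3) (q : MvPolynomial (Fin 2) k) (D : ℕ)
    (hq : q.totalDegree ≤ D) :
    MvPolynomial.aeval ![x, y] q / z x y i ^ D ∈ base k x y i := by
  have hz := z_ne_zero hS i
  have hgen : ∀ j, z x y j / z x y i ∈ base k x y i := fun j =>
    Algebra.subset_adjoin ⟨j, rfl⟩
  rw [MvPolynomial.aeval_def, MvPolynomial.eval₂_eq', Finset.sum_div]
  refine Subalgebra.sum_mem _ fun d hd => ?_
  have hdeg : d 0 + d 1 ≤ D := by
    have h1 := MvPolynomial.le_totalDegree hd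
    have h2 : (d.sum fun _ e => e) = d 0 + d 1 := by
      rw [Finsupp.sum_fintype _ _ (fun _ => rfl), Fin.sum_univ_two]
    omega
  have h3 : algebraMap k F (q.coeff d) * (∏ j, (![x, y] : Fin 2 → F) j ^ d j) / z x y i ^ D =
      algebraMap k F (q.coeff d) *
        ((z x y 0 / z x y i) ^ (D - (d 0 + d 1)) * (z x y 1 / z x y i) ^ d 0 *
          (z x y 2 / z x y i) ^ d 1) := by
    have e0 : z x y 0 = 1 := rfl
    have e1 : z x y 1 = x := rfl
    have e2 : z x y 2 = y := rfl
    have e3 : z x y i ^ D = z x y i ^ (D - (d 0 + d 1)) * z x y i ^ d 0 * z x y i ^ d 1 := by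
      rw [← pow_add, ← pow_add]
      congr 1
      omega
    rw [Fin.prod_univ_two]
    simp only [Matrix.cons_val_zero, Matrix.cons_val_one]
    rw [e0, e1, e2, e3, div_pow, div_pow, div_pow, one_pow]
    have n1 := pow_ne_zero (D - (d 0 + d 1)) hz
    have n2 := pow_ne_zero (d 0) hz
    have n3 := pow_ne_zero (d 1) hz
    generalize z x y i ^ (D - (d 0 + d 1)) = u1 at *
    generalize z x y i ^ d 0 = u2 at *
    generalize z x y i ^ d 1 = u3 at *
    field_simp
  rw [h3]
  exact mul_mem (Subalgebra.algebraMap_mem _ _)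
    (mul_mem (mul_mem (pow_mem (hgen 0) _) (pow_mem (hgen 1) _)) (pow_mem (hgen 2) _))

end SCI_

open SCI_ Polynomial in
theorem SCI_proof (hSEC : Stmt_SEC) : Stmt_SCI := by
  intro k F _ _ _ x y hS a n f c hc heq
  rw [hSEC k F x y hS a f]
  intro i
  have hz := z_ne_zero hS i
  change IsIntegral (base k x y i) (f / z x y i ^ a)
  let C' : ℕ → base k x y i := fun j =>
    ⟨MvPolynomial.aeval ![x, y] (c j) / z x y i ^ (a * j), div_mem_base hS i (c j) (a * j) (hc j)⟩
  let p : (base k x y i)[X] := ∑ j ∈ Finset.Icc 1 n, C (C' j) * X ^ (n - j)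
  have hp : p.degree < n := by
    by_cases hn : n = 0
    · subst hn
      have : p = 0 := by simp [p]
      rw [this, degree_zero]
      exact WithBot.bot_lt_coe _
    refine lt_of_le_of_lt (Polynomial.degree_sum_le _ _) ?_
    rw [Finset.sup_lt_iff (WithBot.bot_lt_coe _)]
    intro j hj
    refine lt_of_le_of_lt (degree_C_mul_X_pow_le _ _) ?_
    rw [Finset.mem_Icc] at hj
    have : n - j < n := by omega
    exact_mod_cast this
  refine ⟨X ^ n + p, monic_X_pow_add hp, ?_⟩
  rw [eval₂_add, eval₂_X_pow]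
  have h1 : eval₂ (algebraMap (base k x y i) F) (f / z x y i ^ a) p =
      ∑ j ∈ Finset.Icc 1 n, (MvPolynomial.aeval ![x, y] (c j) / z x y i ^ (a * j)) *
        (f / z x y i ^ a) ^ (n - j) := by
    simp only [p]
    rw [eval₂_finsetSum]
    refine Finset.sum_congr rfl fun j _ => ?_
    rw [eval₂_mul, eval₂_C, eval₂_X_pow]
    rfl
  have h2 : ∀ j ∈ Finset.Icc 1 n, (MvPolynomial.aeval ![x, y] (c j) / z x y i ^ (a * j)) *
        (f / z x y i ^ a) ^ (n - j) =
      (MvPolynomial.aeval ![x, y] (c j) * f ^ (n - j)) * (z x y i ^ (a * n))⁻¹ := by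
    intro j hj
    rw [Finset.mem_Icc] at hj
    have e3 : z x y i ^ (a * n) = z x y i ^ (a * j) * z x y i ^ (a * (n - j)) := by
      rw [← pow_add, ← mul_add]
      congr 2
      omega
    rw [e3, div_pow, ← pow_mul]
    field_simp
  rw [h1, Finset.sum_congr rfl h2, ← Finset.sum_mul, div_pow, ← pow_mul, div_eq_mul_inv,
    ← add_mul, heq, zero_mul]

end Pool.Agent.SRF
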