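import Pool.Agent.SRF.Stmts

/-!
# SRF / SCP: sections of multiples of the line at infinity, by integral equations
-/

set_option autoImplicit false

noncomputable section

namespace Pool.Agent.SRF

namespace SCP_

open Polynomial in
/-- the coefficients of the minimal polynomial of an element integral over a chart of the plane -/
lemma coeff_mem (hBAS : Stmt_BAS) {k F : Type} [Field k] [Field F] [Algebra k F] {x y : F}
    (hS : IsSurf k x y) (i : Fin 3) {g : F} (hg : IsIntegral (base k x y i) g) (j : ℕ) :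
    (((minpoly (IntermediateField.adjoin k {x, y}) g).coeff j : IntermediateField.adjoin k {x, y})
      : F) ∈ base k x y i := by
  obtain ⟨⟨e⟩, h1, h2⟩ := hBAS k F x y hS i
  let K' := IntermediateField.adjoin k {x, y}
  have hle : base k x y i ≤ K'.toSubalgebra := fun f hf => h1 f hf
  let _ : Algebra (base k x y i) K' := (Subalgebra.inclusion hle).toRingHom.toAlgebra
  have _ : IsScalarTower (base k x y i) K' F := IsScalarTower.of_algebraMap_eq (fun _ => rfl)
  have hinj : Function.Injective (algebraMap (base k x y i) K') := by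
    intro a b hab
    apply Subtype.ext
    exact congrArg (fun z : K' => (z : F)) hab
  have _ : FaithfulSMul (base k x y i) K' :=
    (faithfulSMul_iff_algebraMap_injective _ _).2 hinj
  have _ : IsFractionRing (base k x y i) K' := by
    refine IsFractionRing.of_field (base k x y i) K' (fun z => ?_)
    obtain ⟨a, ha, b, hb, hb0, hz⟩ := h2 (z : F) z.2
    refine ⟨⟨a, ha⟩, ⟨b, hb⟩, ?_⟩
    apply Subtype.ext
    exact hz
  have _ : IsIntegrallyClosed (base k x y i) := IsIntegrallyClosed.of_equiv e.toRingEquiv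
  have h3 := minpoly.isIntegrallyClosed_eq_field_fractions' K' hg
  change (((minpoly K' g).coeff j : K') : F) ∈ base k x y i
  rw [h3, coeff_map]
  exact ((minpoly (base k x y i) g).coeff j).2

lemma base_zero {k F : Type} [Field k] [Field F] [Algebra k F] {x y : F} {e : F}
    (he : e ∈ base k x y 0) : ∃ c : MvPolynomial (Fin 2) k, MvPolynomial.aeval ![x, y] c = e := by
  unfold base at he
  rw [Algebra.adjoin_range_eq_range_aeval] at he
  obtain ⟨Q, rfl⟩ := he
  refine ⟨MvPolynomial.aeval ![1, MvPolynomial.X 0, MvPolynomial.X 1] Q, ?_⟩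
  rw [← AlgHom.comp_apply, MvPolynomial.comp_aeval]
  congr 1
  apply congrArg
  funext j
  fin_cases j <;> simp [z]

/-- an element of the chart `x ≠ 0`, multiplied by a power of `x` -/
lemma base_one {k F : Type} [Field k] [Field F] [Algebra k F] {x y : F} (hx : x ≠ 0) {e : F}
    (he : e ∈ base k x y 1) : ∃ (D : ℕ) (G : MvPolynomial (Fin 2) k), G.totalDegree ≤ D ∧
      x ^ D * e = MvPolynomial.aeval ![x, y] G := by
  classical
  unfold base at he
  induction he using Algebra.adjoin_induction with
  | mem e he =>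
    obtain ⟨j, rfl⟩ := he
    fin_cases j
    · refine ⟨1, 1, by simp, ?_⟩
      simp [z, hx]
    · refine ⟨1, MvPolynomial.X 0, (MvPolynomial.totalDegree_X _).le, ?_⟩
      simp [z, hx]
    · refine ⟨1, MvPolynomial.X 1, (MvPolynomial.totalDegree_X _).le, ?_⟩
      simp only [z, MvPolynomial.aeval_X, pow_one]
      change x * (y / x) = y
      field_simp
  | algebraMap r =>
    refine ⟨0, MvPolynomial.C r, by simp, ?_⟩
    simp
  | add e e' _ _ h h' =>
    obtain ⟨D, G, hG, hG'⟩ := h
    obtain ⟨D', G', hG1, hG1'⟩ := h'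
    refine ⟨D + D', MvPolynomial.X 0 ^ D' * G + MvPolynomial.X 0 ^ D * G', ?_, ?_⟩
    · refine (MvPolynomial.totalDegree_add _ _).trans (max_le ?_ ?_)
      · refine (MvPolynomial.totalDegree_mul _ _).trans ?_
        rw [MvPolynomial.totalDegree_X_pow]; omega
      · refine (MvPolynomial.totalDegree_mul _ _).trans ?_
        rw [MvPolynomial.totalDegree_X_pow]; omega
    · rw [map_add, map_mul, map_mul, map_pow, map_pow, MvPolynomial.aeval_X, ← hG', ← hG1']
      change x ^ (D + D') * (e + e') = x ^ D' * (x ^ D * e) + x ^ D * (x ^ D' * e')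
      ring
  | mul e e' _ _ h h' =>
    obtain ⟨D, G, hG, hG'⟩ := h
    obtain ⟨D', G', hG1, hG1'⟩ := h'
    refine ⟨D + D', G * G', (MvPolynomial.totalDegree_mul _ _).trans (by omega), ?_⟩
    rw [map_mul, ← hG', ← hG1']
    ring

/-- the degree bound -/
lemma deg_le {k F : Type} [Field k] [Field F] [Algebra k F] {x y : F}
    (hi : AlgebraicIndependent k ![x, y]) {c : MvPolynomial (Fin 2) k} {N : ℕ}
    (he : MvPolynomial.aeval ![x, y] c / x ^ N ∈ base k x y 1) : c.totalDegree ≤ N := by
  by_cases hc : c = 0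
  · rw [hc]; simp
  have hx : x ≠ 0 := hi.ne_zero 0
  obtain ⟨D, G, hG, hG'⟩ := base_one hx he
  have h1 : MvPolynomial.aeval ![x, y] (MvPolynomial.X 0 ^ D * c : MvPolynomial (Fin 2) k) =
      MvPolynomial.aeval ![x, y] (MvPolynomial.X 0 ^ N * G : MvPolynomial (Fin 2) k) := by
    rw [map_mul, map_mul, map_pow, map_pow, MvPolynomial.aeval_X, ← hG']
    change x ^ D * MvPolynomial.aeval ![x, y] c = x ^ N * (x ^ D * _)
    field_simp
  have h2 := hi h1
  have hX : ∀ n : ℕ, (MvPolynomial.X 0 ^ n : MvPolynomial (Fin 2) k) ≠ 0 := fun n =>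
    pow_ne_zero n (MvPolynomial.X_ne_zero 0)
  have hG0 : G ≠ 0 := by
    intro h
    rw [h, mul_zero] at h2
    exact mul_ne_zero (hX D) hc h2
  have h3 := congrArg MvPolynomial.totalDegree h2
  rw [MvPolynomial.totalDegree_mul_of_isDomain (hX D) hc,
    MvPolynomial.totalDegree_mul_of_isDomain (hX N) hG0, MvPolynomial.totalDegree_X_pow,
    MvPolynomial.totalDegree_X_pow] at h3
  omega

end SCP_

open SCP_ in
theorem SCP_proof (hBAS : Stmt_BAS) (_hFIN : Stmt_FIN) (hSEC : Stmt_SEC) (hSCI : Stmt_SCI) :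
    Stmt_SCP := by
  classical
  intro k F _ _ _ x y hS a f
  constructor
  swap
  · rintro ⟨c, hc, hf⟩
    exact hSCI k F x y hS a _ f c hc hf
  intro hf
  have hch := (hSEC k F x y hS a f).1 hf
  have := hS.fin
  let K' := IntermediateField.adjoin k {x, y}
  have hx : x ≠ 0 := hS.indep.ne_zero 0
  have hy : y ≠ 0 := hS.indep.ne_zero 1
  have hfi : IsIntegral K' f := Algebra.IsIntegral.isIntegral f
  let d := (minpoly K' f).natDegree
  let n := Module.finrank K' F
  have hdn : d ≤ n := minpoly.natDegree_le f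
  have hzK : ∀ i, z x y i ∈ K' := by
    intro i
    fin_cases i
    · exact one_mem K'
    · exact IntermediateField.subset_adjoin k {x, y} (Or.inl rfl)
    · exact IntermediateField.subset_adjoin k {x, y} (Or.inr rfl)
  have hz0 : ∀ i, z x y i ≠ 0 := by
    intro i
    fin_cases i
    · exact one_ne_zero
    · exact hx
    · exact hy
  -- coefficients in the charts
  have hcoef : ∀ (i : Fin 3) (j : ℕ), j ≤ d →
      (((minpoly K' f).coeff (d - j) : K') : F) / z x y i ^ (a * j) ∈ base k x y i := by
    intro i j hj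
    let r : K' := ⟨(z x y i ^ a)⁻¹, K'.inv_mem (pow_mem (hzK i) a)⟩
    have hr : r ≠ 0 := by
      intro h
      have := congrArg (fun w : K' => (w : F)) h
      exact inv_ne_zero (pow_ne_zero a (hz0 i)) this
    have hrf : r • f = f / z x y i ^ a := by
      rw [div_eq_inv_mul]; rfl
    have h1 : IsIntegral (base k x y i) (r • f) := by rw [hrf]; exact hch i
    have h2 := coeff_mem hBAS hS i h1 (d - j)
    have h3 : minpoly K' (r • f) = (minpoly K' f).scaleRoots r :=
      IsIntegrallyClosed.minpoly_smul hr hfi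
    have h4 : (((minpoly K' (r • f)).coeff (d - j) : K') : F) =
        (((minpoly K' f).coeff (d - j) : K') : F) / z x y i ^ (a * j) := by
      rw [h3, Polynomial.coeff_scaleRoots]
      have h5 : (minpoly K' f).natDegree - (d - j) = j := by
        change d - (d - j) = j; omega
      rw [h5]
      change (((minpoly K' f).coeff (d - j) : K') : F) * ((z x y i ^ a)⁻¹) ^ j = _
      rw [inv_pow, ← pow_mul, div_eq_mul_inv]
    rw [← h4]; exact h2
  have hpol : ∀ j : ℕ, ∃ c : MvPolynomial (Fin 2) k, c.totalDegree ≤ a * j ∧ (j ≤ d →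
      MvPolynomial.aeval ![x, y] c = (((minpoly K' f).coeff (d - j) : K') : F)) ∧
      (d < j → c = 0) := by
    intro j
    by_cases hj : j ≤ d
    · have h0 := hcoef 0 j hj
      have hz : z x y 0 = 1 := rfl
      rw [hz, one_pow, div_one] at h0
      obtain ⟨c, hc⟩ := base_zero h0
      refine ⟨c, ?_, fun _ => hc, fun h => by omega⟩
      have h1 := hcoef 1 j hj
      have hz1 : z x y 1 = x := rfl
      rw [hz1, ← hc] at h1
      exact deg_le hS.indep h1
    · exact ⟨0, by simp, fun h => absurd h hj, fun _ => rfl⟩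
  choose c hc1 hc2 hc3 using hpol
  refine ⟨c, hc1, ?_⟩
  change f ^ n + ∑ j ∈ Finset.Icc 1 n, MvPolynomial.aeval ![x, y] (c j) * f ^ (n - j) = 0
  -- the minimal equation
  have hmin : f ^ d + ∑ j ∈ Finset.Icc 1 d,
      (((minpoly K' f).coeff (d - j) : K') : F) * f ^ (d - j) = 0 := by
    have h1 := minpoly.aeval K' f
    rw [Polynomial.aeval_eq_sum_range, Finset.sum_range_succ] at h1
    have h2 : (minpoly K' f).coeff (minpoly K' f).natDegree = 1 := minpoly.monic hfi
    rw [h2, one_smul] at h1
    rw [add_comm]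
    rw [← h1]
    congr 1
    change _ = ∑ i ∈ Finset.range d, (minpoly K' f).coeff i • f ^ i
    refine Finset.sum_bij' (fun j _ => d - j) (fun i _ => d - i) ?_ ?_ ?_ ?_ ?_
    · intro j hj; rw [Finset.mem_Icc] at hj; rw [Finset.mem_range]; omega
    · intro i hi; rw [Finset.mem_range] at hi; rw [Finset.mem_Icc]; omega
    · intro j hj; rw [Finset.mem_Icc] at hj; omega
    · intro i hi; rw [Finset.mem_range] at hi; omega
    · intro j hj; rfl
  have hsub : ∑ j ∈ Finset.Icc 1 n, MvPolynomial.aeval ![x, y] (c j) * f ^ (n - j) =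
      ∑ j ∈ Finset.Icc 1 d, MvPolynomial.aeval ![x, y] (c j) * f ^ (n - j) := by
    symm
    refine Finset.sum_subset (Finset.Icc_subset_Icc_right hdn) ?_
    intro j hj hj'
    rw [Finset.mem_Icc] at hj hj'
    rw [hc3 j (by omega), map_zero, zero_mul]
  rw [hsub]
  have hfac : f ^ n + ∑ j ∈ Finset.Icc 1 d, MvPolynomial.aeval ![x, y] (c j) * f ^ (n - j) =
      f ^ (n - d) * (f ^ d + ∑ j ∈ Finset.Icc 1 d,
        (((minpoly K' f).coeff (d - j) : K') : F) * f ^ (d - j)) := by
    rw [mul_add, ← pow_add, Nat.sub_add_cancel hdn, Finset.mul_sum]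
    congr 1
    refine Finset.sum_congr rfl (fun j hj => ?_)
    rw [Finset.mem_Icc] at hj
    rw [hc2 j hj.2, mul_left_comm, ← pow_add]
    congr 2
    omega
  rw [hfac, hmin, mul_zero]

end Pool.Agent.SRF
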