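import Pool.Agent.SRF.Stmts

/-!
# SRF, module SEC: sections of multiples of the line at infinity, by charts
-/

set_option autoImplicit false

noncomputable section

namespace Pool.Agent.SRF

namespace SEC_

variable {k F : Type} [Field k] [Field F] [Algebra k F] {x y : F}

theorem ne_zero (h : IsSurf k x y) : ∀ j, z x y j ≠ 0 := by
  have h0 : (![x, y] : Fin 2 → F) 0 ≠ 0 := h.indep.ne_zero 0
  have h1 : (![x, y] : Fin 2 → F) 1 ≠ 0 := h.indep.ne_zero 1
  intro j
  fin_cases j
  · exact one_ne_zero
  · exact h0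
  · exact h1

theorem ord_div (O : PP k x y) {f g : F} (hf : f ≠ 0) (hg : g ≠ 0) (a : ℕ) :
    ord O.1 (f / g ^ a) = ord O.1 f - a * ord O.1 g := by
  rw [div_eq_mul_inv, O.isOrd.mul _ _ hf (inv_ne_zero (pow_ne_zero a hg)),
    O.isOrd.inv (pow_ne_zero a hg), O.isOrd.pow hg]
  ring

end SEC_

open SEC_ in
theorem SEC_proof (hREC : Stmt_REC) (hHCH : Stmt_HCH) : Stmt_SEC := by
  intro k F _ _ _ x y hS a f
  have hz := ne_zero hS
  by_cases hf : f = 0
  · subst hf
    constructor
    · intro _ i
      rw [zero_div]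
      exact zero_mem _
    · intro _
      exact zero_mem _
  · rw [mem_L]
    constructor
    · intro h i
      have h1 := h.resolve_left hf
      refine hREC k F x y hS i _ fun O hO => ?_
      have h2 := ((hHCH k F x y hS O).2.2 i).1 hO
      rw [O.isOrd.mem _ (div_ne_zero hf (pow_ne_zero a (hz i))), ord_div O hf (hz i)]
      have h3 := h1 O
      rw [h2] at h3
      linarith
    · intro h
      right
      intro O
      obtain ⟨-, i, hO, -⟩ := O.2
      have h2 := ((hHCH k F x y hS O).2.2 i).1 hO
      have h3 : f / z x y i ^ a ∈ O.1 := hO (h i)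
      rw [O.isOrd.mem _ (div_ne_zero hf (pow_ne_zero a (hz i))), ord_div O hf (hz i)] at h3
      rw [h2]
      linarith

end Pool.Agent.SRF
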