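import Pool.Agent.SRF.Stmts

/-!
# SRF: the relation `thr` does not depend on the chart
-/

set_option autoImplicit false

noncomputable section

namespace Pool.Agent.SRF

namespace THC_

variable {k F : Type} [Field k] [Field F] [Algebra k F] {x y : F}

theorem z_ne_zero (hS : IsSurf k x y) (i : Fin 3) : z x y i ≠ 0 := by
  have h0 : ∀ j : Fin 2, (![x, y] : Fin 2 → F) j ≠ 0 := fun j => hS.indep.ne_zero j
  fin_cases i
  · simp [z]
  · simpa [z] using h0 0
  · simpa [z] using h0 1

theorem div_mem_chart (i j : Fin 3) : z x y j / z x y i ∈ chart k x y i := by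
  change IsIntegral (base k x y i) (z x y j / z x y i)
  exact isIntegral_algebraMap (R := base k x y i) (A := F)
    (x := ⟨z x y j / z x y i, Algebra.subset_adjoin ⟨j, rfl⟩⟩)

end THC_

open THC_ in
theorem THC_proof (hCEN : Stmt_CEN) (hLIF : Stmt_LIF) : Stmt_THC := by
  intro k F _ _ _ x y hS O V hV hthr i hiV
  obtain ⟨i', hV', hO', htr⟩ := hthr
  have hz := z_ne_zero hS i
  have hz' := z_ne_zero hS i'
  have hne : z x y i / z x y i' ≠ 0 := div_ne_zero hz hz'
  have h1 : z x y i / z x y i' ∈ O.1 := hO' (div_mem_chart i' i)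
  have h2 : (z x y i / z x y i')⁻¹ ∈ V := by
    rw [inv_div]
    exact hiV (div_mem_chart i i')
  have h3 : (z x y i / z x y i')⁻¹ ∈ O.1 := by
    by_contra h
    exact htr _ (div_mem_chart i' i) hne h h2
  have hiO : chart k x y i ≤ O.1.toSubring := by
    rw [(hCEN k F x y hS O.1 (fun c => O.2.const_mem k x y c)).2 i]
    intro j
    have e1 : z x y j / z x y i = z x y j / z x y i' * (z x y i / z x y i')⁻¹ := by
      field_simp
    rw [e1]
    exact mul_mem (hO' (div_mem_chart i' j)) h3
  refine ⟨hiO, ?_⟩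
  intro a ha ha0 haO haV
  obtain ⟨M, hM⟩ := hLIF k F x y hS i' i a ha
  have hb := hM M le_rfl
  have hb0 : a * (z x y i / z x y i') ^ M ≠ 0 := mul_ne_zero ha0 (pow_ne_zero _ hne)
  refine htr _ hb hb0 ?_ ?_
  · intro h4
    apply haO
    have e2 : a⁻¹ = (a * (z x y i / z x y i') ^ M)⁻¹ * (z x y i / z x y i') ^ M := by
      field_simp
    rw [e2]
    exact mul_mem h4 (pow_mem h1 _)
  · rw [mul_inv, ← inv_pow]
    exact mul_mem haV (pow_mem h2 _)

end Pool.Agent.SRF
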