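import Pool.Agent.SRF.Stmts

/-!
# SRF / ZER: a section of positive degree has a zero on every curve
-/

set_option autoImplicit false

noncomputable section

namespace Pool.Agent.SRF

namespace ZER_

open IsLocalRing

variable {F : Type} [Field F]

lemma residue_zero {O : ValuationSubring F} {f : F} (hf : f ∈ O) (hinv : f⁻¹ ∉ O) :
    residue O (⟨f, hf⟩ : O) = 0 := by
  rw [residue_eq_zero_iff, mem_maximalIdeal, mem_nonunits_iff]
  intro h
  obtain ⟨u, hu⟩ := h
  apply hinv
  have h1 : (((u : O) : F)) * (((u⁻¹ : Oˣ) : O) : F) = 1 := by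
    have h0 : (u : O) * ((u⁻¹ : Oˣ) : O) = 1 := Units.mul_inv u
    exact_mod_cast congrArg Subtype.val h0
  have h2 : ((u : O) : F) = f := congrArg Subtype.val hu
  rw [h2] at h1
  rw [inv_eq_of_mul_eq_one_right h1]
  exact ((u⁻¹ : Oˣ) : O).2

/-- the composite of a valuation ring with a valuation ring of its residue field -/
def comp (O : ValuationSubring F) (W : ValuationSubring (ResidueField O)) : ValuationSubring F where
  toSubring := (W.toSubring.comap (residue O)).map O.subtype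
  mem_or_inv_mem' := by
    intro f
    by_cases hf : f ∈ O
    · by_cases hf' : f⁻¹ ∈ O
      · rcases W.mem_or_inv_mem (residue O ⟨f, hf⟩) with h | h
        · exact Or.inl ⟨⟨f, hf⟩, h, rfl⟩
        · right
          refine ⟨⟨f⁻¹, hf'⟩, ?_, rfl⟩
          have h0 : f ≠ 0 ∨ f = 0 := (em (f = 0)).symm
          rcases h0 with h0 | h0
          · have h1 : residue O ⟨f, hf⟩ * residue O ⟨f⁻¹, hf'⟩ = 1 := by
              rw [← map_mul]
              have : (⟨f, hf⟩ * ⟨f⁻¹, hf'⟩ : O) = 1 := Subtype.ext (mul_inv_cancel₀ h0)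
              rw [this, map_one]
            change residue O ⟨f⁻¹, hf'⟩ ∈ W
            rw [← inv_eq_of_mul_eq_one_right h1]; exact h
          · subst h0
            have : (⟨(0 : F)⁻¹, hf'⟩ : O) = 0 := Subtype.ext inv_zero
            change residue O ⟨(0 : F)⁻¹, hf'⟩ ∈ W
            rw [this, map_zero]; exact zero_mem W
      · left
        refine ⟨⟨f, hf⟩, ?_, rfl⟩
        change residue O ⟨f, hf⟩ ∈ W
        rw [residue_zero hf hf']; exact zero_mem W
    · right
      have hf' : f⁻¹ ∈ O := (O.mem_or_inv_mem f).resolve_left hf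
      refine ⟨⟨f⁻¹, hf'⟩, ?_, rfl⟩
      change residue O ⟨f⁻¹, hf'⟩ ∈ W
      rw [residue_zero hf' (by rwa [inv_inv])]; exact zero_mem W

lemma mem_comp {O : ValuationSubring F} {W : ValuationSubring (ResidueField O)} {f : F} :
    f ∈ comp O W ↔ ∃ h : f ∈ O, residue O ⟨f, h⟩ ∈ W := by
  constructor
  · rintro ⟨⟨g, hg⟩, h, rfl⟩
    exact ⟨hg, h⟩
  · rintro ⟨h, h'⟩
    exact ⟨⟨f, h⟩, h', rfl⟩

end ZER_

open ZER_ IsLocalRing in
theorem ZER_proof (hCEN : Stmt_CEN) (hHCH : Stmt_HCH) (_hSEC : Stmt_SEC) (hNAL : Stmt_NAL) :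
    Stmt_ZER := by
  classical
  intro k F _ _ _ x y hS O d hd θ hθ
  by_cases hθ0 : θ = 0
  · exact ⟨O.1, O.2.const_mem k x y, le_rfl, fun i _ h => absurd hθ0 h⟩
  obtain ⟨hH0, hH1, hH2⟩ := hHCH k F x y hS O
  have hLO : - ((d : ℤ) * H k x y O) ≤ ord O.1 θ := hθ.resolve_left hθ0 O
  have hx : x ≠ 0 := hS.indep.ne_zero 0
  have hy : y ≠ 0 := hS.indep.ne_zero 1
  have hz0 : ∀ i, z x y i ≠ 0 := by
    intro i
    fin_cases i
    · exact one_ne_zero
    · exact hx
    · exact hy
  have hordq : ∀ i, ord O.1 (θ / z x y i ^ d) = ord O.1 θ - d * ord O.1 (z x y i) := by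
    intro i
    rw [div_eq_mul_inv, O.isOrd.mul _ _ hθ0 (inv_ne_zero (pow_ne_zero d (hz0 i))),
      O.isOrd.inv (pow_ne_zero d (hz0 i)), O.isOrd.pow (hz0 i)]
    ring
  have hq0 : ∀ i, θ / z x y i ^ d ≠ 0 := fun i => div_ne_zero hθ0 (pow_ne_zero d (hz0 i))
  rcases hLO.lt_or_eq with hlt | heq
  · refine ⟨O.1, O.2.const_mem k x y, le_rfl, fun i hi _ hmem => ?_⟩
    have h1 := (hH2 i).1 hi
    have h2 := (O.isOrd.mem _ (inv_ne_zero (hq0 i))).1 hmem
    rw [O.isOrd.inv (hq0 i), hordq i] at h2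
    rw [h1] at hlt
    have : (d : ℤ) * -ord O.1 (z x y i) = - ((d : ℤ) * ord O.1 (z x y i)) := by ring
    rw [this] at hlt
    linarith
  obtain ⟨i0, hi0, -⟩ := O.2.2
  obtain ⟨j, hj⟩ := hNAL k F x y hS O i0 hi0
  have hzO : ∀ j, z x y j / z x y i0 ∈ O.1 :=
    ((hCEN k F x y hS O.1 (O.2.const_mem k x y)).2 i0).1 hi0
  let g := θ / z x y i0 ^ d
  have hg0 : ord O.1 g = 0 := by
    have h1 := (hH2 i0).1 hi0
    change ord O.1 (θ / z x y i0 ^ d) = 0
    rw [hordq i0, ← heq, h1]; ring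
  have hgi : g⁻¹ ∈ O.1 := by
    rw [O.isOrd.mem _ (inv_ne_zero (hq0 i0)), O.isOrd.inv (hq0 i0)]
    change 0 ≤ - ord O.1 g
    rw [hg0]; simp
  have hgO : g ∈ O.1 := by
    rw [O.isOrd.mem _ (hq0 i0)]
    change 0 ≤ ord O.1 g
    rw [hg0]
  -- the residue field as an algebra over the constants
  let φ : k →+* O.1 := (algebraMap k F).codRestrict O.1.toSubring (O.2.const_mem k x y)
  let _ : Algebra k O.1 := φ.toAlgebra
  have _ : IsScalarTower k O.1 F := IsScalarTower.of_algebraMap_eq (fun _ => rfl)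
  let t : Fin 3 → O.1 := fun j => ⟨z x y j / z x y i0, hzO j⟩
  let g' : O.1 := ⟨g⁻¹, hgi⟩
  by_contra hcon
  push Not at hcon
  have hall : ∀ (j' : Fin 3) (W : ValuationSubring (ResidueField O.1)),
      (∀ c : k, algebraMap k (ResidueField O.1) c ∈ W) →
      residue O.1 (t j') ^ d * residue O.1 g' ∈ W := by
    intro j' W hW
    have hcon' := hcon (comp O.1 W) (fun c => mem_comp.2 ⟨O.2.const_mem k x y c, hW c⟩)
      (fun f hf => (mem_comp.1 hf).1)
    obtain ⟨i, hi, -, hmem⟩ := hcon'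
    have h1 := ((hCEN k F x y hS (comp O.1 W)
      (fun c => mem_comp.2 ⟨O.2.const_mem k x y c, hW c⟩)).2 i).1 hi j'
    have h2 := mul_mem (pow_mem h1 d) hmem
    have h3 : (z x y j' / z x y i) ^ d * (θ / z x y i ^ d)⁻¹ =
        (z x y j' / z x y i0) ^ d * g⁻¹ := by
      change _ = (z x y j' / z x y i0) ^ d * (θ / z x y i0 ^ d)⁻¹
      rw [div_pow, div_pow, inv_div, inv_div, div_mul_div_cancel₀ (pow_ne_zero d (hz0 i)),
        div_mul_div_cancel₀ (pow_ne_zero d (hz0 i0))]
    rw [h3] at h2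
    obtain ⟨h4, h5⟩ := mem_comp.1 h2
    have h6 : (⟨(z x y j' / z x y i0) ^ d * g⁻¹, h4⟩ : O.1) = t j' ^ d * g' := rfl
    rw [h6, map_mul, map_pow] at h5
    exact h5
  have hint : ∀ j', IsIntegral k (residue O.1 (t j') ^ d * residue O.1 g') := by
    intro j'
    by_contra hni
    let R : Subring (ResidueField O.1) := (integralClosure k (ResidueField O.1)).toSubring
    have hR : residue O.1 (t j') ^ d * residue O.1 g' ∉ R := hni
    have _ : IsIntegrallyClosedIn R (ResidueField O.1) :=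
      inferInstanceAs (IsIntegrallyClosedIn (integralClosure k (ResidueField O.1))
        (ResidueField O.1))
    obtain ⟨W, hW, hW'⟩ := Subring.exists_le_valuationSubring_of_isIntegrallyClosedIn hR
    exact hW' (hall j' W (fun c => hW (isIntegral_algebraMap (R := k) (x := c))))
  have hti0 : t i0 = 1 := Subtype.ext (div_self (hz0 i0))
  have h1 := hint i0
  rw [hti0, map_one, one_pow, one_mul] at h1
  have hg'0 : residue O.1 g' ≠ 0 := by
    intro h
    have h2 : residue O.1 (⟨g, hgO⟩ : O.1) * residue O.1 g' = 1 := by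
      rw [← map_mul]
      have : (⟨g, hgO⟩ * g' : O.1) = 1 := Subtype.ext (mul_inv_cancel₀ (hq0 i0))
      rw [this, map_one]
    rw [h, mul_zero] at h2
    exact zero_ne_one h2
  have h2 : IsIntegral k (residue O.1 (t j) ^ d) := by
    have h3 := (hint j).mul h1.inv
    rwa [mul_assoc, mul_inv_cancel₀ hg'0, mul_one] at h3
  have h3 : IsIntegral k (residue O.1 (t j)) := IsIntegral.of_pow hd h2
  -- contradiction with NAL
  have h4 := minpoly.aeval k (residue O.1 (t j))
  obtain ⟨h5, h6⟩ := hj (minpoly k (residue O.1 (t j))) (minpoly.ne_zero h3)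
  have h7 : Polynomial.aeval (z x y j / z x y i0) (minpoly k (residue O.1 (t j))) =
      ((Polynomial.aeval (t j) (minpoly k (residue O.1 (t j))) : O.1) : F) :=
    Polynomial.aeval_algebraMap_apply F (t j) (minpoly k (residue O.1 (t j)))
  have h8 : Polynomial.aeval (residue O.1 (t j)) (minpoly k (residue O.1 (t j))) =
      residue O.1 (Polynomial.aeval (t j) (minpoly k (residue O.1 (t j)))) :=
    Polynomial.aeval_algebraMap_apply (ResidueField O.1) (t j) (minpoly k (residue O.1 (t j)))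
  rw [h4] at h8
  rw [h7] at h5 h6
  set w := Polynomial.aeval (t j) (minpoly k (residue O.1 (t j))) with hw
  have h9 : w * ⟨(w : F)⁻¹, h6⟩ = 1 := Subtype.ext (mul_inv_cancel₀ h5)
  have h10 := congrArg (residue O.1) h9
  rw [map_mul, ← h8, zero_mul, map_one] at h10
  exact zero_ne_one h10

end Pool.Agent.SRF
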