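import Pool.Agent.SRF.Defs

/-!
# Statements of the library of surfaces
-/

set_option autoImplicit false

noncomputable section

namespace Pool.Agent.SRF

/-- The coordinate rings of the charts of the plane are polynomial rings in two variables with
fraction field `k(x, y)`. -/
def Stmt_BAS : Prop :=
  ∀ (k F : Type) [Field k] [Field F] [Algebra k F] (x y : F), IsSurf k x y →
    ∀ i, Nonempty (MvPolynomial (Fin 2) k ≃ₐ[k] base k x y i) ∧
      (∀ f ∈ base k x y i, f ∈ IntermediateField.adjoin k {x, y}) ∧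
      ∀ f ∈ IntermediateField.adjoin k {x, y},
        ∃ a ∈ base k x y i, ∃ b ∈ base k x y i, b ≠ 0 ∧ f = a / b

/-- The charts are finite modules. -/
def Stmt_FIN : Prop :=
  ∀ (k F : Type) [Field k] [Field F] [Algebra k F] (x y : F), IsSurf k x y →
    ∀ i, Module.Finite (base k x y i) (integralClosure (base k x y i) F) ∧
      IsNoetherianRing (chart k x y i) ∧
      ∀ f : F, IsIntegral (chart k x y i) f → f ∈ chart k x y i

/-- Every function is a quotient of an element of the chart and one of the base. -/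
def Stmt_FRA : Prop :=
  ∀ (k F : Type) [Field k] [Field F] [Algebra k F] (x y : F), IsSurf k x y →
    ∀ i, ∀ f : F, ∃ a ∈ chart k x y i, ∃ b ∈ base k x y i, b ≠ 0 ∧ f = a / b

/-- Valuation rings which contain the constants contain a chart; which ones. -/
def Stmt_CEN : Prop :=
  ∀ (k F : Type) [Field k] [Field F] [Algebra k F] (x y : F), IsSurf k x y →
    ∀ V : ValuationSubring F, (∀ c : k, algebraMap k F c ∈ V) →
      (∃ i, chart k x y i ≤ V.toSubring) ∧
      ∀ i, (chart k x y i ≤ V.toSubring ↔ ∀ j, z x y j / z x y i ∈ V)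

/-- Change of chart. -/
def Stmt_LIF : Prop :=
  ∀ (k F : Type) [Field k] [Field F] [Algebra k F] (x y : F), IsSurf k x y →
    ∀ i i', ∀ a ∈ chart k x y i', ∃ M : ℕ, ∀ m : ℕ, M ≤ m →
      a * (z x y i' / z x y i) ^ m ∈ chart k x y i

/-- A prime divisor is a localisation of every chart it contains. -/
def Stmt_LOC : Prop :=
  ∀ (k F : Type) [Field k] [Field F] [Algebra k F] (x y : F), IsSurf k x y →
    ∀ O : PP k x y, ∀ i, chart k x y i ≤ O.1.toSubring →
      ∀ f ∈ O.1, ∃ a ∈ chart k x y i, ∃ b ∈ chart k x y i, b ≠ 0 ∧ b⁻¹ ∈ O.1 ∧ f = a / b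

/-- Associated primes of principal ideals of a chart are traces of prime divisors. -/
def Stmt_DVQ : Prop :=
  ∀ (k F : Type) [Field k] [Field F] [Algebra k F] (x y : F), IsSurf k x y →
    ∀ i, ∀ Q : Ideal (chart k x y i), Q.IsPrime → ∀ b c : chart k x y i, b ≠ 0 →
      (∀ r : chart k x y i, r ∈ Q ↔ ∃ s : chart k x y i, r * c = s * b) →
      ∃ O : PP k x y, chart k x y i ≤ O.1.toSubring ∧
        ∀ a : chart k x y i, a ≠ 0 → (((a : F))⁻¹ ∉ O.1 ↔ a ∈ Q)

/-- Localisations at primes of height one: every nonzero prime ideal of a chart contains the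
trace of a prime divisor which contains a given nonzero element of the prime. -/
def Stmt_HTO : Prop :=
  ∀ (k F : Type) [Field k] [Field F] [Algebra k F] (x y : F), IsSurf k x y →
    ∀ i, ∀ P : Ideal (chart k x y i), P.IsPrime → ∀ f ∈ P, f ≠ 0 →
      ∃ O : PP k x y, chart k x y i ≤ O.1.toSubring ∧ ((f : F))⁻¹ ∉ O.1 ∧
        ∀ a : chart k x y i, a ≠ 0 → ((a : F))⁻¹ ∉ O.1 → a ∈ P

/-- Local regularity: a function which belongs to all prime divisors whose traces on the chart
are contained in the prime `P` belongs to the localisation at `P`. -/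
def Stmt_REG : Prop :=
  ∀ (k F : Type) [Field k] [Field F] [Algebra k F] (x y : F), IsSurf k x y →
    ∀ i, ∀ P : Ideal (chart k x y i), P.IsPrime → ∀ f : F,
      (∀ O : PP k x y, chart k x y i ≤ O.1.toSubring →
        (∀ a : chart k x y i, a ≠ 0 → ((a : F))⁻¹ ∉ O.1 → a ∈ P) → f ∈ O.1) →
      ∃ a b : chart k x y i, b ∉ P ∧ f = a / b

/-- Global regularity on a chart. -/
def Stmt_REC : Prop :=
  ∀ (k F : Type) [Field k] [Field F] [Algebra k F] (x y : F), IsSurf k x y →
    ∀ i, ∀ f : F, (∀ O : PP k x y, chart k x y i ≤ O.1.toSubring → f ∈ O.1) →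
      f ∈ chart k x y i

/-- There are no inclusions between the traces of prime divisors. -/
def Stmt_INC : Prop :=
  ∀ (k F : Type) [Field k] [Field F] [Algebra k F] (x y : F), IsSurf k x y →
    ∀ O O' : PP k x y, (O.1 ≤ O'.1 → O = O') ∧
      ∀ i, chart k x y i ≤ O.1.toSubring → chart k x y i ≤ O'.1.toSubring →
        (∀ a ∈ chart k x y i, a ≠ 0 → a⁻¹ ∉ O'.1 → a⁻¹ ∉ O.1) → O = O'

/-- A nonzero function has a nonzero order at finitely many prime divisors only. -/
def Stmt_SUP : Prop :=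
  ∀ (k F : Type) [Field k] [Field F] [Algebra k F] (x y : F), IsSurf k x y →
    ∀ f : F, f ≠ 0 → {O : PP k x y | ord O.1 f ≠ 0}.Finite

/-- The order of the line at infinity, computed in the charts. -/
def Stmt_HCH : Prop :=
  ∀ (k F : Type) [Field k] [Field F] [Algebra k F] (x y : F), IsSurf k x y →
    ∀ O : PP k x y, 0 ≤ H k x y O ∧
      (∀ i, 0 ≤ ord O.1 (z x y i) + H k x y O) ∧
      ∀ i, (chart k x y i ≤ O.1.toSubring ↔ H k x y O = - ord O.1 (z x y i))

/-- Sections of multiples of the line at infinity, by charts. -/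
def Stmt_SEC : Prop :=
  ∀ (k F : Type) [Field k] [Field F] [Algebra k F] (x y : F), IsSurf k x y →
    ∀ (a : ℕ) (f : F), f ∈ L k x y (fun O => a * H k x y O) ↔
      ∀ i, f / z x y i ^ a ∈ chart k x y i

/-- Elements of charts as sections. -/
def Stmt_LIH : Prop :=
  ∀ (k F : Type) [Field k] [Field F] [Algebra k F] (x y : F), IsSurf k x y →
    ∀ i, ∀ a ∈ chart k x y i, ∃ M : ℕ, ∀ m : ℕ, M ≤ m →
      a * z x y i ^ m ∈ L k x y (fun O => m * H k x y O)

/-- The minimal polynomial of a section of a multiple of the line at infinity. -/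
def Stmt_SCQ : Prop :=
  ∀ (k F : Type) [Field k] [Field F] [Algebra k F] (x y : F), IsSurf k x y →
    ∀ (a : ℕ), ∀ f ∈ L k x y (fun O => a * H k x y O),
      ∃ c : ℕ → MvPolynomial (Fin 2) k, (∀ j, (c j).totalDegree ≤ a * j) ∧
        ∀ j ≤ (minpoly (IntermediateField.adjoin k {x, y}) f).natDegree,
          (((minpoly (IntermediateField.adjoin k {x, y}) f).coeff
            ((minpoly (IntermediateField.adjoin k {x, y}) f).natDegree - j) :
              IntermediateField.adjoin k {x, y}) : F) = MvPolynomial.aeval ![x, y] (c j)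

/-- Sections of multiples of the line at infinity, by integral equations. -/
def Stmt_SCP : Prop :=
  ∀ (k F : Type) [Field k] [Field F] [Algebra k F] (x y : F), IsSurf k x y →
    ∀ (a : ℕ) (f : F), f ∈ L k x y (fun O => a * H k x y O) ↔
      ∃ c : ℕ → MvPolynomial (Fin 2) k, (∀ j, (c j).totalDegree ≤ a * j) ∧
        f ^ (Module.finrank (IntermediateField.adjoin k {x, y}) F) +
          ∑ j ∈ Finset.Icc 1 (Module.finrank (IntermediateField.adjoin k {x, y}) F),
            MvPolynomial.aeval ![x, y] (c j) *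
              f ^ (Module.finrank (IntermediateField.adjoin k {x, y}) F - j) = 0

/-- Any integral equation of the right shape gives a section. -/
def Stmt_SCI : Prop :=
  ∀ (k F : Type) [Field k] [Field F] [Algebra k F] (x y : F), IsSurf k x y →
    ∀ (a n : ℕ) (f : F) (c : ℕ → MvPolynomial (Fin 2) k), (∀ j, (c j).totalDegree ≤ a * j) →
      f ^ n + ∑ j ∈ Finset.Icc 1 n, MvPolynomial.aeval ![x, y] (c j) * f ^ (n - j) = 0 →
      f ∈ L k x y (fun O => a * H k x y O)

/-- Spaces of sections are finite dimensional. -/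
def Stmt_FDL : Prop :=
  ∀ (k F : Type) [Field k] [Field F] [Algebra k F] (x y : F), IsSurf k x y →
    ∀ D : PP k x y → ℤ, {O | D O ≠ 0}.Finite → FiniteDimensional k (L k x y D)

/-- Ax1: the intersection of the prime divisors through the centre of `V` is contained in `V`. -/
def Stmt_AX1 : Prop :=
  ∀ (k F : Type) [Field k] [Field F] [Algebra k F] (x y : F), IsSurf k x y →
    ∀ V : ValuationSubring F, (∀ c : k, algebraMap k F c ∈ V) →
      ∀ f : F, (∀ O : PP k x y, thr k x y O.1 V → f ∈ O.1) → f ∈ V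

/-- Ax2. -/
def Stmt_AX2 : Prop :=
  ∀ (k F : Type) [Field k] [Field F] [Algebra k F] (x y : F), IsSurf k x y →
    ∀ V : ValuationSubring F, (∀ c : k, algebraMap k F c ∈ V) →
      ∀ f : F, f ≠ 0 → (∀ O : PP k x y, thr k x y O.1 V → f ∈ O.1) →
      ∀ O : PP k x y, thr k x y O.1 V → f⁻¹ ∉ O.1 → f⁻¹ ∉ V

/-- Ax3. -/
def Stmt_AX3 : Prop :=
  ∀ (k F : Type) [Field k] [Field F] [Algebra k F] (x y : F), IsSurf k x y →
    ∀ V : ValuationSubring F, (∀ c : k, algebraMap k F c ∈ V) →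
      ∀ O : PP k x y, V ≤ O.1 → thr k x y O.1 V

/-- The relation `thr` does not depend on the chart. -/
def Stmt_THC : Prop :=
  ∀ (k F : Type) [Field k] [Field F] [Algebra k F] (x y : F), IsSurf k x y →
    ∀ (O : PP k x y) (V : ValuationSubring F), (∀ c : k, algebraMap k F c ∈ V) →
      thr k x y O.1 V → ∀ i, chart k x y i ≤ V.toSubring →
      chart k x y i ≤ O.1.toSubring ∧
        ∀ a ∈ chart k x y i, a ≠ 0 → a⁻¹ ∉ O.1 → a⁻¹ ∉ V

/-- The residue field of a prime divisor is not algebraic over the constants. -/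
def Stmt_NAL : Prop :=
  ∀ (k F : Type) [Field k] [Field F] [Algebra k F] (x y : F), IsSurf k x y →
    ∀ (O : PP k x y) (i), chart k x y i ≤ O.1.toSubring →
      ∃ j, ∀ q : Polynomial k, q ≠ 0 →
        Polynomial.aeval (z x y j / z x y i) q ≠ 0 ∧
        (Polynomial.aeval (z x y j / z x y i) q)⁻¹ ∈ O.1

/-- The charts have dimension two. -/
def Stmt_DIM : Prop :=
  ∀ (k F : Type) [Field k] [Field F] [Algebra k F] (x y : F), IsSurf k x y →
    ∀ i, ∀ P : Fin 4 → Ideal (chart k x y i), (∀ j, (P j).IsPrime) → ¬ StrictMono P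

/-- A section of positive degree has a zero on every curve. -/
def Stmt_ZER : Prop :=
  ∀ (k F : Type) [Field k] [Field F] [Algebra k F] (x y : F), IsSurf k x y →
    ∀ (O : PP k x y) (d : ℕ), 0 < d → ∀ θ ∈ L k x y (fun O => d * H k x y O),
      ∃ V : ValuationSubring F, (∀ c : k, algebraMap k F c ∈ V) ∧ V ≤ O.1 ∧
        ∀ i, chart k x y i ≤ V.toSubring → θ ≠ 0 → (θ / z x y i ^ d)⁻¹ ∉ V

/-- The charts are finite over their `p`-th powers. -/
def Stmt_FCH : Prop :=
  ∀ (p : ℕ) [Fact p.Prime] (k F : Type) [Field k] [Field F] [Algebra k F] [CharP k p]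
    (x y : F), (∀ c : k, ∃ b : k, b ^ p = c) → IsSurf k x y → ∀ i, IsFChart p (chart k x y i)

/-- Sections with prescribed exact orders at finitely many prime divisors. -/
def Stmt_AVD : Prop :=
  ∀ (k F : Type) [Field k] [Field F] [Algebra k F] [Infinite k] (x y : F), IsSurf k x y →
    ∀ D : PP k x y → ℤ, {O | D O ≠ 0}.Finite → ∀ T : Set (PP k x y), T.Finite →
      ∃ a₀ : ℕ, ∀ a : ℕ, a₀ ≤ a → ∃ f : F, f ≠ 0 ∧
        f ∈ L k x y (fun O => a * H k x y O - D O) ∧
        ∀ O ∈ T, ord O.1 f = D O - a * H k x y O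

/-- Two sections without common component have with a suitable third section no common zero. -/
def Stmt_CPT : Prop :=
  ∀ (k F : Type) [Field k] [Field F] [Algebra k F] [Infinite k] (x y : F), IsSurf k x y →
    ∀ (d : ℕ) (f g : F), 0 < d → f ≠ 0 → g ≠ 0 → f ∈ L k x y (fun O => d * H k x y O) →
      g ∈ L k x y (fun O => d * H k x y O) →
      (∀ O : PP k x y, ord O.1 f = - d * H k x y O ∨ ord O.1 g = - d * H k x y O) →
      ∃ θ : F, θ ≠ 0 ∧ θ ∈ L k x y (fun O => d * H k x y O) ∧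
        ∃ (M : ℕ) (α : Fin 3 → Fin 3 → F), (∀ l j, α l j ∈ L k x y (fun O => M * H k x y O)) ∧
          ∀ l, z x y l ^ (M + d) = α l 0 * f + α l 1 * g + α l 2 * θ

/-- Every prime divisor has local equations: two pairs `(u, π)`, such that the `u` have together
with one more section no common zero. -/
def Stmt_CRT : Prop :=
  ∀ (k F : Type) [Field k] [Field F] [Algebra k F] [Infinite k] (x y : F), IsSurf k x y →
    ∀ O : PP k x y, ∃ (a b : Fin 2 → ℕ) (π u : Fin 2 → F) (θ : F), (∀ j, 0 < b j) ∧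
      (∀ j, π j ∈ L k x y (fun O => a j * H k x y O)) ∧
      (∀ j, u j ∈ L k x y (fun O => b j * H k x y O)) ∧
      θ ∈ L k x y (fun O => ((b 0 * b 1 : ℕ) : ℤ) * H k x y O) ∧
      (∀ j, π j ≠ 0) ∧ (∀ j, u j ≠ 0) ∧ θ ≠ 0 ∧
      (∀ j, ord O.1 (π j) = 1 - a j * H k x y O) ∧ (∀ j, ord O.1 (u j) = - b j * H k x y O) ∧
      (∀ j, ∀ O' : PP k x y, O' ≠ O →
        ord O'.1 (π j) + a j * H k x y O' ≤ ord O'.1 (u j) + b j * H k x y O') ∧
      ∃ (M : ℕ) (α : Fin 3 → Fin 3 → F), (∀ l j, α l j ∈ L k x y (fun O => M * H k x y O)) ∧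
        ∀ l, z x y l ^ (M + b 0 * b 1) =
          α l 0 * u 0 ^ b 1 + α l 1 * u 1 ^ b 0 + α l 2 * θ

/-- Two different prime divisors: a certificate for the finiteness of their intersection. -/
def Stmt_NCC : Prop :=
  ∀ (k F : Type) [Field k] [Field F] [Algebra k F] [Infinite k] (x y : F), IsSurf k x y →
    ∀ O O' : PP k x y, O ≠ O' → ∃ (d : ℕ) (f g θ : F), 0 < d ∧ f ≠ 0 ∧ g ≠ 0 ∧ θ ≠ 0 ∧
      f ∈ L k x y (fun O => d * H k x y O) ∧ g ∈ L k x y (fun O => d * H k x y O) ∧
      θ ∈ L k x y (fun O => d * H k x y O) ∧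
      1 - d * H k x y O ≤ ord O.1 f ∧ 1 - d * H k x y O' ≤ ord O'.1 g ∧
      ∃ (M : ℕ) (α : Fin 3 → Fin 3 → F), (∀ l j, α l j ∈ L k x y (fun O => M * H k x y O)) ∧
        ∀ l, z x y l ^ (M + d) = α l 0 * f + α l 1 * g + α l 2 * θ

/-- A bound for the orders of the zeros of a section. -/
def Stmt_BND : Prop :=
  ∀ (k F : Type) [Field k] [Field F] [Algebra k F] (x y : F), IsSurf k x y →
    ∀ (a : ℕ), ∀ f ∈ L k x y (fun O => a * H k x y O), f ≠ 0 → ∀ O : PP k x y,
      ord O.1 f + a * H k x y O ≤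
        a * Module.finrank (IntermediateField.adjoin k {x, y}) F ^ 2

/-- Sections without poles are constants. -/
def Stmt_CON : Prop :=
  ∀ (k F : Type) [Field k] [IsAlgClosed k] [Field F] [Algebra k F] (x y : F), IsSurf k x y →
    ∀ f ∈ L k x y 0, ∃ c : k, f = algebraMap k F c

/-- Disjoint prime divisors: a certificate. -/
def Stmt_DIS : Prop :=
  ∀ (k F : Type) [Field k] [Field F] [Algebra k F] (x y : F), IsSurf k x y →
    ∀ O O' : PP k x y, (∀ V : ValuationSubring F, (∀ c : k, algebraMap k F c ∈ V) →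
        ¬ (thr k x y O.1 V ∧ thr k x y O'.1 V)) →
      ∃ (M : ℕ) (α β : Fin 3 → F), (∀ l, α l ∈ L k x y (fun O => M * H k x y O)) ∧
        (∀ l, β l ∈ L k x y (fun O => M * H k x y O)) ∧
        (∀ l, α l = 0 ∨ 1 ≤ ord O.1 (α l) + M * H k x y O) ∧
        (∀ l, β l = 0 ∨ 1 ≤ ord O'.1 (β l) + M * H k x y O') ∧
        ∀ l, z x y l ^ M = α l + β l

/-- Coefficient Frobenius automorphisms. -/
def Stmt_FRO : Prop :=
  ∀ (p : ℕ) [Fact p.Prime] (k F : Type) [Field k] [Field F] [Algebra k F] [CharP k p]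
    (x y : F), (∀ c : k, ∃ n : ℕ, 0 < n ∧ c ^ p ^ n = c) → IsSurf k x y →
    ∀ S : Finset F, ∃ n : ℕ, 0 < n ∧ ∃ σ : F ≃+* F,
      (∀ c : k, σ (algebraMap k F c) = algebraMap k F (c ^ p ^ n)) ∧ σ x = x ∧ σ y = y ∧
      (∀ s ∈ S, σ s = s) ∧ ∀ f : F, ∃ m : ℕ, 0 < m ∧ (σ ^ m) f = f

/-- Rational sections over a finite field. -/
def Stmt_FQ : Prop :=
  ∀ (p : ℕ) [Fact p.Prime] (k F : Type) [Field k] [Field F] [Algebra k F] [CharP k p]
    [IsAlgClosed k] (x y : F), (∀ c : k, ∃ n : ℕ, 0 < n ∧ c ^ p ^ n = c) → IsSurf k x y →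
    ∀ T : Set (PP k x y), T.Finite → ∃ K₀ : Subfield F,
      (∀ D : PP k x y → ℤ, (∀ O, D O ≠ 0 → O ∈ T) → ∀ f ∈ L k x y D, f ≠ 0 →
        ∃ g ∈ L k x y D, g ≠ 0 ∧ g ∈ K₀) ∧
      ∀ D : PP k x y → ℤ, {O | D O ≠ 0}.Finite → {f : F | f ∈ L k x y D ∧ f ∈ K₀}.Finite

end Pool.Agent.SRF
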