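import Pool.Agent.SRF.Stmts

set_option autoImplicit false

noncomputable section

namespace Pool.Agent.SRF

namespace AVD_

section

variable {F : Type} [Field F] {O : ValuationSubring F} {v : F → ℤ}

lemma ord_zpow (h : IsOrd O v) {f : F} (hf : f ≠ 0) (n : ℤ) : v (f ^ n) = n * v f := by
  obtain ⟨n, rfl | rfl⟩ := n.eq_nat_or_neg
  · rw [zpow_natCast, h.pow hf]
  · rw [zpow_neg, zpow_natCast, h.inv (pow_ne_zero n hf), h.pow hf]
    ring

lemma ord_prod (h : IsOrd O v) {ι : Type*} (s : Finset ι) (f : ι → F) (hf : ∀ i, f i ≠ 0) :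
    v (∏ i ∈ s, f i) = ∑ i ∈ s, v (f i) := by
  classical
  induction s using Finset.induction_on with
  | empty => simp [h.one]
  | insert a s ha ih =>
    rw [Finset.prod_insert ha, Finset.sum_insert ha,
      h.mul _ _ (hf a) (Finset.prod_ne_zero_iff.2 fun i _ => hf i), ih]

end

section

variable {k F : Type} [Field k] [Field F] [Algebra k F] {x y : F}

lemma z_ne (h : IsSurf k x y) (i : Fin 3) : z x y i ≠ 0 := by
  have h0 := h.indep.ne_zero 0
  have h1 := h.indep.ne_zero 1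
  simp only [Matrix.cons_val_zero, Matrix.cons_val_one] at h0 h1
  fin_cases i
  · simp [z]
  · simpa [z] using h0
  · simpa [z] using h1

lemma stepA (hINC : Stmt_INC) (hSUP : Stmt_SUP) (hHCH : Stmt_HCH) (hS : IsSurf k x y)
    (D : PP k x y → ℤ) (hD : {O | D O ≠ 0}.Finite) (O : PP k x y) :
    ∃ a₀ : ℕ, ∀ a : ℕ, a₀ ≤ a → ∃ g : F, g ≠ 0 ∧
      g ∈ L k x y (fun O => a * H k x y O - D O) ∧ ord O.1 g = D O - a * H k x y O := by
  classical
  obtain ⟨i, hi, -⟩ := O.2.2
  obtain ⟨π, hπ0, hπ⟩ := O.isOrd.unif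
  set f0 : F := π ^ (D O) with hf0
  have hf00 : f0 ≠ 0 := zpow_ne_zero _ hπ0
  have hf0O : ord O.1 f0 = D O := by
    rw [hf0, ord_zpow O.isOrd hπ0, hπ, mul_one]
  -- bad divisors
  have hBf : ({O' : PP k x y | ord O'.1 f0 ≠ 0} ∪ {O' | D O' ≠ 0}).Finite :=
    (hSUP k F x y hS f0 hf00).union hD
  set B : Finset (PP k x y) := hBf.toFinset.filter
    (fun O' => chart k x y i ≤ O'.1.toSubring ∧ ord O'.1 f0 < D O') with hB
  have hb : ∀ O' : PP k x y, ∃ b : F, b ≠ 0 ∧ b ∈ chart k x y i ∧ b⁻¹ ∈ O.1 ∧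
      (O' ∈ B → b⁻¹ ∉ O'.1) := by
    intro O'
    by_cases hO' : O' ∈ B
    · rw [hB, Finset.mem_filter] at hO'
      have hne : O ≠ O' := by
        rintro rfl
        exact absurd hO'.2.2 (by rw [hf0O]; exact lt_irrefl _)
      have h1 := (hINC k F x y hS O O').2 i hi hO'.2.1
      by_contra hcon
      push Not at hcon
      apply hne
      apply h1
      intro a ha ha0 ha1 ha2
      obtain ⟨-, h3⟩ := hcon a ha0 ha ha2
      exact ha1 h3
    · exact ⟨1, one_ne_zero, one_mem _, by rw [inv_one]; exact one_mem _, fun h => absurd h hO'⟩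
  choose b hb0 hbR hbO hbB using hb
  set N : PP k x y → ℕ := fun O' => (D O' - ord O'.1 f0).toNat with hN
  set f1 : F := f0 * ∏ O' ∈ B, b O' ^ N O' with hf1
  have hp0 : ∏ O' ∈ B, b O' ^ N O' ≠ 0 :=
    Finset.prod_ne_zero_iff.2 fun O' _ => pow_ne_zero _ (hb0 O')
  have hf10 : f1 ≠ 0 := mul_ne_zero hf00 hp0
  have hf1o : ∀ O'' : PP k x y, ord O''.1 f1 =
      ord O''.1 f0 + ∑ O' ∈ B, (N O' : ℤ) * ord O''.1 (b O') := by
    intro O''
    rw [hf1, O''.isOrd.mul _ _ hf00 hp0, ord_prod O''.isOrd _ _ fun O' => pow_ne_zero _ (hb0 O')]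
    congr 1
    apply Finset.sum_congr rfl
    intro O' _
    rw [O''.isOrd.pow (hb0 O')]
  have hbnn : ∀ O'' : PP k x y, chart k x y i ≤ O''.1.toSubring → ∀ O', 0 ≤ ord O''.1 (b O') := by
    intro O'' h O'
    exact (O''.isOrd.mem _ (hb0 O')).1 (h (hbR O'))
  have hf1O : ord O.1 f1 = D O := by
    rw [hf1o, hf0O]
    have : ∑ O' ∈ B, (N O' : ℤ) * ord O.1 (b O') = 0 := by
      apply Finset.sum_eq_zero
      intro O' _
      have h1 := hbnn O hi O'
      have h2 := (O.isOrd.mem _ (inv_ne_zero (hb0 O'))).1 (hbO O')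
      rw [O.isOrd.inv (hb0 O')] at h2
      have : ord O.1 (b O') = 0 := by omega
      rw [this, mul_zero]
    rw [this, add_zero]
  have hf1R : ∀ O'' : PP k x y, chart k x y i ≤ O''.1.toSubring → D O'' ≤ ord O''.1 f1 := by
    intro O'' h
    rw [hf1o]
    have hnn : ∀ O' ∈ B, 0 ≤ (N O' : ℤ) * ord O''.1 (b O') := fun O' _ =>
      mul_nonneg (by positivity) (hbnn O'' h O')
    by_cases hO'' : O'' ∈ B
    · have h1 := Finset.single_le_sum hnn hO''
      have h2 : 1 ≤ ord O''.1 (b O'') := by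
        have h3 := hbnn O'' h O''
        have h4 : ¬ 0 ≤ ord O''.1 (b O'')⁻¹ := fun h5 =>
          hbB O'' hO'' ((O''.isOrd.mem _ (inv_ne_zero (hb0 O''))).2 h5)
        rw [O''.isOrd.inv (hb0 O'')] at h4
        omega
      have h3 : D O'' - ord O''.1 f0 ≤ (N O'' : ℤ) := Int.self_le_toNat _
      have h4 : (N O'' : ℤ) ≤ (N O'' : ℤ) * ord O''.1 (b O'') := by nlinarith
      linarith
    · have h1 := Finset.sum_nonneg hnn
      have h2 : D O'' ≤ ord O''.1 f0 := by
        by_contra h3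
        rw [not_le] at h3
        apply hO''
        rw [hB, Finset.mem_filter]
        refine ⟨?_, h, h3⟩
        rw [Set.Finite.mem_toFinset]
        by_contra h4
        simp only [Set.mem_union, Set.mem_ofPred_eq, not_or, not_not] at h4
        omega
      linarith
  -- the bound
  have hSf : ({O' : PP k x y | ord O'.1 f1 ≠ 0} ∪ {O' | D O' ≠ 0}).Finite :=
    (hSUP k F x y hS f1 hf10).union hD
  have hbd : ∃ a₀ : ℕ, ∀ O' : PP k x y, D O' - ord O'.1 f1 ≤ a₀ := by
    refine ⟨∑ O' ∈ hSf.toFinset, (D O' - ord O'.1 f1).toNat, fun O' => ?_⟩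
    by_cases h : O' ∈ hSf.toFinset
    · have h1 := Finset.single_le_sum (f := fun O' : PP k x y => (D O' - ord O'.1 f1).toNat)
        (fun _ _ => Nat.zero_le _) h
      have h2 : D O' - ord O'.1 f1 ≤ ((D O' - ord O'.1 f1).toNat : ℤ) := Int.self_le_toNat _
      have h3 : ((D O' - ord O'.1 f1).toNat : ℤ) ≤
          ((∑ O' ∈ hSf.toFinset, (D O' - ord O'.1 f1).toNat : ℕ) : ℤ) := by exact_mod_cast h1
      linarith
    · rw [Set.Finite.mem_toFinset] at h
      simp only [Set.mem_union, Set.mem_ofPred_eq, not_or, not_not] at h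
      rw [h.1, h.2]
      positivity
  obtain ⟨a₀, ha₀⟩ := hbd
  have hz := z_ne hS i
  refine ⟨a₀, fun a ha => ⟨f1 * z x y i ^ a, mul_ne_zero hf10 (pow_ne_zero _ hz), ?_, ?_⟩⟩
  · rw [mem_L]
    right
    intro O'
    rw [O'.isOrd.mul _ _ hf10 (pow_ne_zero _ hz), O'.isOrd.pow hz]
    obtain ⟨-, h1, h2⟩ := hHCH k F x y hS O'
    by_cases h : chart k x y i ≤ O'.1.toSubring
    · have h3 := (h2 i).1 h
      have h4 := hf1R O' h
      rw [h3]
      linarith
    · have h3 := h1 i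
      have h4 : H k x y O' ≠ - ord O'.1 (z x y i) := fun h5 => h ((h2 i).2 h5)
      have h5 : 1 ≤ ord O'.1 (z x y i) + H k x y O' := by omega
      have h6 := ha₀ O'
      have h7 : (a₀ : ℤ) ≤ a := by exact_mod_cast ha
      nlinarith
  · rw [O.isOrd.mul _ _ hf10 (pow_ne_zero _ hz), O.isOrd.pow hz, hf1O,
      ((hHCH k F x y hS O).2.2 i).1 hi]
    ring

end

end AVD_

open AVD_ in
theorem AVD_proof (_hCEN : Stmt_CEN) (_hLOC : Stmt_LOC) (hINC : Stmt_INC) (hSUP : Stmt_SUP)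
    (hHCH : Stmt_HCH) (_hSEC : Stmt_SEC) (_hLIH : Stmt_LIH) : Stmt_AVD := by
  classical
  intro k F _ _ _ _ x y hS D hD T hT
  by_cases hE : IsEmpty (PP k x y)
  · refine ⟨0, fun a _ => ⟨1, one_ne_zero, ?_, fun O => (hE.false O).elim⟩⟩
    rw [mem_L]
    right
    intro O
    exact (hE.false O).elim
  rw [not_isEmpty_iff] at hE
  obtain ⟨O₀⟩ := hE
  choose a₀ ha₀ using stepA hINC hSUP hHCH hS D hD
  have hT' : (insert O₀ T).Finite := hT.insert O₀
  refine ⟨∑ O ∈ hT'.toFinset, a₀ O, fun a ha => ?_⟩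
  have hg : ∀ O ∈ insert O₀ T, ∃ g : F, g ≠ 0 ∧
      g ∈ L k x y (fun O => a * H k x y O - D O) ∧ ord O.1 g = D O - a * H k x y O := by
    intro O hO
    apply ha₀ O a
    refine le_trans ?_ ha
    exact Finset.single_le_sum (f := a₀) (fun _ _ => Nat.zero_le _) (hT'.mem_toFinset.2 hO)
  -- subspaces
  let W := L k x y (fun O => a * H k x y O - D O)
  let p : ↥(insert O₀ T) → Submodule k W := fun O =>
    (L k x y (fun O' => a * H k x y O' - D O' - if O' = O.1 then 1 else 0)).comap W.subtype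
  haveI : Finite ↥(insert O₀ T) := hT'
  have hne : ¬ (⋃ O, (p O : Set W) = Set.univ) := by
    intro h
    obtain ⟨O, hO⟩ := Subspace.exists_eq_top_of_iUnion_eq_univ h
    obtain ⟨g, hg0, hgL, hgO⟩ := hg O.1 O.2
    have h1 : (⟨g, hgL⟩ : W) ∈ p O := by
      rw [hO]
      exact Submodule.mem_top
    have h2 : g ∈ L k x y (fun O' => a * H k x y O' - D O' - if O' = O.1 then 1 else 0) := h1
    rw [mem_L] at h2
    have h3 := h2.resolve_left hg0 O.1
    rw [if_pos rfl, hgO] at h3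
    omega
  obtain ⟨f, hf⟩ := (Set.ne_univ_iff_exists_notMem _).1 hne
  have hf' : ∀ O : ↥(insert O₀ T), (f : F) ∉
      L k x y (fun O' => a * H k x y O' - D O' - if O' = O.1 then 1 else 0) := by
    intro O h
    exact hf (Set.mem_iUnion.2 ⟨O, h⟩)
  have hf0 : (f : F) ≠ 0 := by
    intro h
    apply hf' ⟨O₀, Set.mem_insert _ _⟩
    rw [h]
    exact Submodule.zero_mem _
  refine ⟨f, hf0, f.2, fun O hO => ?_⟩
  have h1 := hf' ⟨O, Set.mem_insert_of_mem _ hO⟩
  have h2 : ∀ O' : PP k x y, -(a * H k x y O' - D O') ≤ ord O'.1 f :=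
    ((mem_L k x y).1 f.2).resolve_left hf0
  by_contra h3
  apply h1
  rw [mem_L]
  right
  intro O'
  by_cases h4 : O' = O
  · rw [if_pos h4, h4]
    have := h2 O
    omega
  · rw [if_neg h4, sub_zero]
    exact h2 O'

end Pool.Agent.SRF
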