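import Pool.Agent.SRF.Stmts

/-!
# SRF.AX1: the intersection of the prime divisors through the centre of `V` is contained in `V`
-/

set_option autoImplicit false

noncomputable section

namespace Pool.Agent.SRF

namespace AX1_

theorem unit_iff {F : Type} [Field F] (V : ValuationSubring F) (a : V) :
    IsUnit a ↔ (a : F) ≠ 0 ∧ ((a : F))⁻¹ ∈ V := by
  constructor
  · rintro ⟨u, rfl⟩
    have h1 : ((u : V) : F) * (((u⁻¹ : Vˣ) : V) : F) = 1 := by
      have h0 : (u : V) * ((u⁻¹ : Vˣ) : V) = 1 := Units.mul_inv u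
      exact_mod_cast congrArg Subtype.val h0
    refine ⟨left_ne_zero_of_mul_eq_one h1, ?_⟩
    have h2 : (((u : V) : F))⁻¹ = (((u⁻¹ : Vˣ) : V) : F) := inv_eq_of_mul_eq_one_right h1
    rw [h2]
    exact ((u⁻¹ : Vˣ) : V).2
  · rintro ⟨h0, h1⟩
    refine IsUnit.of_mul_eq_one (⟨(a : F)⁻¹, h1⟩ : V) (Subtype.ext ?_)
    show (a : F) * (a : F)⁻¹ = 1
    exact mul_inv_cancel₀ h0

end AX1_

theorem AX1_proof (hCEN : Stmt_CEN) (hREG : Stmt_REG) : Stmt_AX1 := by
  intro k F _ _ _ x y hS V hV f hf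
  obtain ⟨⟨i, hi⟩, -⟩ := hCEN k F x y hS V hV
  let φ : chart k x y i →+* V := Subring.inclusion hi
  have hφ : ∀ a : chart k x y i, ((φ a : V) : F) = (a : F) := fun a => rfl
  let P : Ideal (chart k x y i) := (IsLocalRing.maximalIdeal V).comap φ
  have hP : P.IsPrime := Ideal.comap_isPrime _ _
  have hmem : ∀ a : chart k x y i, a ∈ P ↔ ¬ ((a : F) ≠ 0 ∧ ((a : F))⁻¹ ∈ V) := by
    intro a
    show φ a ∈ IsLocalRing.maximalIdeal V ↔ _
    rw [IsLocalRing.mem_maximalIdeal, mem_nonunits_iff, AX1_.unit_iff, hφ]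
  obtain ⟨a, b, hb, hab⟩ := hREG k F x y hS i P hP f (by
    intro O hO hOP
    apply hf O
    refine ⟨i, hi, hO, ?_⟩
    intro a ha ha0 haO haV
    have h1 := hOP ⟨a, ha⟩ (fun h => ha0 (congrArg Subtype.val h)) haO
    rw [hmem] at h1
    exact h1 ⟨ha0, haV⟩)
  rw [hmem, not_not] at hb
  rw [hab, div_eq_mul_inv]
  exact mul_mem (hi a.2) hb.2

end Pool.Agent.SRF
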