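import Pool.Agent.SRF.Stmts

set_option autoImplicit false

noncomputable section

namespace Pool.Agent.SRF

namespace FDL_

open MvPolynomial

variable {k F : Type} [Field k] [Field F] [Algebra k F] {x y : F}

lemma x_ne (hS : IsSurf k x y) : x ≠ 0 := by
  have := hS.indep.ne_zero (0 : Fin 2)
  simpa using this

lemma y_ne (hS : IsSurf k x y) : y ≠ 0 := by
  have := hS.indep.ne_zero (1 : Fin 2)
  simpa using this

lemma z_ne (hS : IsSurf k x y) (i : Fin 3) : z x y i ≠ 0 := by
  have h1 := x_ne hS
  have h2 := y_ne hS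
  fin_cases i
  · exact one_ne_zero
  · exact h1
  · exact h2

/-- the polynomial of `z i` -/
def Z (k : Type) [Field k] (i : Fin 3) : MvPolynomial (Fin 2) k := ![1, X 0, X 1] i

lemma aeval_Z (i : Fin 3) : aeval ![x, y] (Z k i) = z x y i := by
  fin_cases i <;> simp [Z, z]

lemma deg_Z (i : Fin 3) : (Z k i).totalDegree ≤ 1 := by
  fin_cases i
  · simp [Z]
  · simp [Z]
  · simp [Z]

lemma deg_Z_pow (i : Fin 3) (n : ℕ) : (Z k i ^ n).totalDegree ≤ n := by
  calc (Z k i ^ n).totalDegree ≤ n * (Z k i).totalDegree := totalDegree_pow _ _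
    _ ≤ n * 1 := Nat.mul_le_mul_left _ (deg_Z i)
    _ = n := mul_one n

lemma base_poly (hS : IsSurf k x y) (i : Fin 3) (s : F) (hs : s ∈ base k x y i) :
    ∃ (N : ℕ) (Q : MvPolynomial (Fin 2) k), z x y i ^ N * s = aeval ![x, y] Q ∧
      Q.totalDegree ≤ N := by
  unfold base at hs
  induction hs using Algebra.adjoin_induction with
  | mem s hs =>
    obtain ⟨j, rfl⟩ := hs
    refine ⟨1, Z k j, ?_, deg_Z j⟩
    rw [aeval_Z, pow_one, mul_div_cancel₀ _ (z_ne hS i)]
  | algebraMap r =>
    refine ⟨0, C r, ?_, ?_⟩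
    · simp
    · simp
  | add s t _ _ hs ht =>
    obtain ⟨N, Q, h1, h2⟩ := hs
    obtain ⟨M, R, h3, h4⟩ := ht
    refine ⟨N + M, Z k i ^ M * Q + Z k i ^ N * R, ?_, ?_⟩
    · rw [map_add, map_mul, map_mul, map_pow, map_pow, aeval_Z, ← h1, ← h3]
      ring
    · refine (totalDegree_add _ _).trans (max_le ?_ ?_)
      · refine (totalDegree_mul _ _).trans ?_
        have := deg_Z_pow (k := k) i M
        omega
      · refine (totalDegree_mul _ _).trans ?_
        have := deg_Z_pow (k := k) i N
        omega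
  | mul s t _ _ hs ht =>
    obtain ⟨N, Q, h1, h2⟩ := hs
    obtain ⟨M, R, h3, h4⟩ := ht
    refine ⟨N + M, Q * R, ?_, ?_⟩
    · rw [map_mul, ← h1, ← h3]
      ring
    · refine (totalDegree_mul _ _).trans ?_
      omega

lemma poly_of_charts (hS : IsSurf k x y) (c : ℕ) (T : F)
    (hT : ∀ i, T / z x y i ^ c ∈ base k x y i) :
    ∃ P : MvPolynomial (Fin 2) k, aeval ![x, y] P = T ∧ P.totalDegree ≤ c := by
  have hi : Function.Injective (aeval (R := k) ![x, y]) := hS.indep
  obtain ⟨N0, P, hP, -⟩ := base_poly hS 0 _ (hT 0)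
  have hz0 : z x y 0 = 1 := rfl
  rw [hz0, one_pow, one_pow, one_mul, div_one] at hP
  obtain ⟨N, Q, hQ, hQd⟩ := base_poly hS 1 _ (hT 1)
  refine ⟨P, hP.symm, ?_⟩
  by_cases hP0 : P = 0
  · rw [hP0]; simp
  have h1 : Z k 1 ^ N * P = Z k 1 ^ c * Q := by
    apply hi
    rw [map_mul, map_mul, map_pow, map_pow, aeval_Z, ← hP, ← hQ]
    have := z_ne hS 1
    field_simp
  have hZ : Z k 1 = X 0 := rfl
  have hX : (X 0 : MvPolynomial (Fin 2) k) ^ N ≠ 0 := pow_ne_zero _ (X_ne_zero 0)
  have h2 : (Z k 1 ^ N * P).totalDegree = N + P.totalDegree := by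
    rw [hZ, totalDegree_mul_of_isDomain hX hP0, totalDegree_X_pow]
  have h3 : (Z k 1 ^ c * Q).totalDegree ≤ c + N := by
    refine (totalDegree_mul _ _).trans ?_
    have := deg_Z_pow (k := k) 1 c
    omega
  rw [h1] at h2
  omega

lemma intTrace (hBAS : Stmt_BAS) (hS : IsSurf k x y) (i : Fin 3) (g : F)
    (hg : g ∈ chart k x y i) :
    (haveI := hS.fin
     ((Algebra.trace (IntermediateField.adjoin k {x, y}) F g : _) : F)) ∈ base k x y i := by
  haveI := hS.fin
  obtain ⟨⟨e⟩, h1, h2⟩ := hBAS k F x y hS i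
  set K' := IntermediateField.adjoin k ({x, y} : Set F) with hK'
  let φ : base k x y i →+* K' :=
    { toFun := fun f => ⟨f, h1 f f.2⟩
      map_one' := rfl
      map_mul' := fun _ _ => rfl
      map_zero' := rfl
      map_add' := fun _ _ => rfl }
  letI : Algebra (base k x y i) K' := φ.toAlgebra
  haveI : IsScalarTower (base k x y i) K' F := IsScalarTower.of_algebraMap_eq (fun _ => rfl)
  haveI : IsIntegrallyClosed (base k x y i) := IsIntegrallyClosed.of_equiv e.toRingEquiv
  haveI : FaithfulSMul (base k x y i) K' := by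
    rw [faithfulSMul_iff_algebraMap_injective]
    intro a b hab
    apply Subtype.ext
    exact congrArg (fun t : K' => (t : F)) hab
  haveI : IsFractionRing (base k x y i) K' := by
    apply IsFractionRing.of_field
    intro t
    obtain ⟨a, ha, b, hb, -, h⟩ := h2 t t.2
    refine ⟨⟨a, ha⟩, ⟨b, hb⟩, ?_⟩
    apply Subtype.ext
    rw [h]
    rfl
  have h3 : IsIntegral (base k x y i) g := hg
  have h4 := Algebra.isIntegral_trace (R := base k x y i) (L := K') (F := F) h3
  obtain ⟨b, hb⟩ := IsIntegrallyClosed.isIntegral_iff.1 h4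
  have : ((Algebra.trace K' F g : K') : F) = b := by
    rw [← hb]
    rfl
  rw [this]
  exact b.2

lemma mem_LH (c : ℤ) (f : F) : f ∈ L k x y (fun O => c * H k x y O) ↔
    f = 0 ∨ ∀ O : PP k x y, - (c * H k x y O) ≤ ord O.1 f := Iff.rfl

lemma mul_LH (a b : ℤ) (f g : F) (hf : f ∈ L k x y (fun O => a * H k x y O))
    (hg : g ∈ L k x y (fun O => b * H k x y O)) :
    f * g ∈ L k x y (fun O => (a + b) * H k x y O) := by
  by_cases h0 : f = 0
  · rw [h0, zero_mul]; exact Submodule.zero_mem _
  by_cases h1 : g = 0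
  · rw [h1, mul_zero]; exact Submodule.zero_mem _
  right
  intro O
  have h3 := hf.resolve_left h0 O
  have h4 := hg.resolve_left h1 O
  rw [O.isOrd.mul _ _ h0 h1]
  have : -((a + b) * H k x y O) = -(a * H k x y O) + -(b * H k x y O) := by ring
  rw [this]
  exact add_le_add h3 h4

/-- finite dimensionality for multiples of the line at infinity -/
lemma fin_H (hBAS : Stmt_BAS) (hFRA : Stmt_FRA) (hSEC : Stmt_SEC) (hLIH : Stmt_LIH)
    (hS : IsSurf k x y) (a : ℕ) :
    FiniteDimensional k (L k x y (fun O => (a : ℤ) * H k x y O)) := by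
  classical
  haveI := hS.fin
  haveI := hS.sep
  set K' := IntermediateField.adjoin k ({x, y} : Set F) with hK'
  -- a basis of F over K'
  set n := Module.finrank K' F with hn
  set w := Module.finBasis K' F with hw
  have h1 : ∀ j, ∃ b : K', b ≠ 0 ∧ (b : F) * w j ∈ chart k x y 0 := by
    intro j
    obtain ⟨u, hu, b, hb, hb0, h⟩ := hFRA k F x y hS 0 (w j)
    have hbK : b ∈ K' := (hBAS k F x y hS 0).2.1 b hb
    refine ⟨⟨b, hbK⟩, ?_, ?_⟩
    · intro h'
      exact hb0 (congrArg Subtype.val h')
    · rw [h]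
      show b * (u / b) ∈ _
      rw [mul_div_cancel₀ _ hb0]
      exact hu
  choose b hb0 hbw using h1
  have h2 : ∀ j, ∃ M : ℕ, ∀ m : ℕ, M ≤ m → (b j : F) * w j ∈ L k x y (fun O => m * H k x y O) := by
    intro j
    obtain ⟨M, hM⟩ := hLIH k F x y hS 0 _ (hbw j)
    refine ⟨M, fun m hm => ?_⟩
    have := hM m hm
    have hz0 : z x y 0 = 1 := rfl
    rwa [hz0, one_pow, mul_one] at this
  choose M hM using h2
  obtain ⟨B, hB⟩ : ∃ B : ℕ, ∀ j, M j ≤ B := by
    obtain ⟨B, hB⟩ := (Set.finite_range M).bddAbove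
    exact ⟨B, fun j => hB ⟨j, rfl⟩⟩
  -- the traces
  have h3 : ∀ f ∈ L k x y (fun O => (a : ℤ) * H k x y O), ∀ j,
      ((Algebra.trace K' F (f * ((b j : F) * w j)) : K') : F) ∈
        (restrictTotalDegree (Fin 2) k (a + B)).map
          (aeval (R := k) ![x, y]).toLinearMap := by
    intro f hf j
    have h4 : f * ((b j : F) * w j) ∈ L k x y (fun O => ((a + B : ℕ) : ℤ) * H k x y O) := by
      have := mul_LH (k := k) (x := x) (y := y) (a : ℤ) (B : ℤ) f _ hf (hM j B (hB j))
      push_cast
      exact this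
    have h5 := (hSEC k F x y hS (a + B) _).1 h4
    obtain ⟨P, hP, hPd⟩ := poly_of_charts hS (a + B)
      (((Algebra.trace K' F (f * ((b j : F) * w j)) : K') : F)) (by
        intro i
        have h6 := intTrace hBAS hS i _ (h5 i)
        have hzK : z x y i ^ (a + B) ∈ K' := by
          apply pow_mem
          have hx : x ∈ K' := IntermediateField.subset_adjoin _ _ (by simp)
          have hy : y ∈ K' := IntermediateField.subset_adjoin _ _ (by simp)
          fin_cases i
          · exact one_mem _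
          · exact hx
          · exact hy
        have h7 : f * ((b j : F) * w j) / z x y i ^ (a + B) =
            (⟨z x y i ^ (a + B), hzK⟩ : K')⁻¹ • (f * ((b j : F) * w j)) := by
          rw [Algebra.smul_def, div_eq_inv_mul]
          rfl
        rw [h7, map_smul] at h6
        have h8 : (((⟨z x y i ^ (a + B), hzK⟩ : K')⁻¹ •
            Algebra.trace K' F (f * ((b j : F) * w j)) : K') : F) =
            ((Algebra.trace K' F (f * ((b j : F) * w j)) : K') : F) / z x y i ^ (a + B) := by
          rw [smul_eq_mul, div_eq_inv_mul]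
          rfl
        rw [h8] at h6
        exact h6)
    exact ⟨P, (mem_restrictTotalDegree _ _ _).2 hPd, hP⟩
  -- the linear map
  let Tr : F →ₗ[k] (Fin n → F) :=
    { toFun := fun f j => ((Algebra.trace K' F (f * ((b j : F) * w j)) : K') : F)
      map_add' := by
        intro f g
        funext j
        simp only [add_mul, map_add, Pi.add_apply]
        rfl
      map_smul' := by
        intro c f
        funext j
        simp only [RingHom.id_apply, Pi.smul_apply]
        have e1 : c • f * ((b j : F) * w j) = (algebraMap k K' c) • (f * ((b j : F) * w j)) := by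
          rw [algebraMap_smul, smul_mul_assoc]
        rw [e1, map_smul, smul_eq_mul, Algebra.smul_def]
        rfl }
  have hTri : Function.Injective Tr := by
    rw [injective_iff_map_eq_zero]
    intro f hf
    have h4 : ∀ j, Algebra.trace K' F (f * w j) = 0 := by
      intro j
      have h5 := congrFun hf j
      have h6 : Algebra.trace K' F (f * ((b j : F) * w j)) = 0 := Subtype.ext h5
      have h7 : f * ((b j : F) * w j) = (b j) • (f * w j) := by
        rw [Algebra.smul_def]
        show _ = (b j : F) * _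
        ring
      rw [h7, map_smul, smul_eq_mul] at h6
      exact (mul_eq_zero.1 h6).resolve_left (hb0 j)
    have h5 : ∀ g, Algebra.traceForm K' F f g = 0 := by
      intro g
      have : Algebra.traceForm K' F f = 0 := by
        apply w.ext
        intro j
        rw [Algebra.traceForm_apply, h4]
        rfl
      rw [this]
      rfl
    exact (traceForm_nondegenerate K' F).1 f h5
  set U : Submodule k F := (restrictTotalDegree (Fin 2) k (a + B)).map
          (aeval (R := k) ![x, y]).toLinearMap with hU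
  haveI : FiniteDimensional k U := by
    rw [hU]; infer_instance
  let Tr' : L k x y (fun O => (a : ℤ) * H k x y O) →ₗ[k] (Fin n → U) :=
    LinearMap.pi (fun j => LinearMap.codRestrict U
      ((LinearMap.proj j).comp (Tr.comp (Submodule.subtype _))) (fun f => h3 f.1 f.2 j))
  have hTr'i : Function.Injective Tr' := by
    rw [injective_iff_map_eq_zero]
    intro f hf
    apply Subtype.ext
    apply (injective_iff_map_eq_zero Tr).1 hTri
    funext j
    have := congrArg Subtype.val (congrFun hf j)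
    exact this
  exact FiniteDimensional.of_injective Tr' hTr'i

end FDL_

open FDL_

theorem FDL_proof (hBAS : Stmt_BAS) (_hFIN : Stmt_FIN) (hSEC : Stmt_SEC) (hLIH : Stmt_LIH)
    (hLOC : Stmt_LOC) (hHCH : Stmt_HCH) (hFRA : Stmt_FRA) : Stmt_FDL := by
  classical
  intro k F _ _ _ x y hS D hD
  have hone : ∀ O : PP k x y, ∃ (m : ℕ) (θ : F), θ ≠ 0 ∧
      (∀ O' : PP k x y, - (m * H k x y O') ≤ ord O'.1 θ) ∧ 1 - m * H k x y O ≤ ord O.1 θ := by
    intro O
    obtain ⟨i, hi, -⟩ := O.2.2
    obtain ⟨π, hπ0, hπ⟩ := O.isOrd.unif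
    have hπO : π ∈ O.1 := (O.isOrd.mem _ hπ0).2 (by rw [hπ]; norm_num)
    obtain ⟨a, ha, b, hb, hb0, hbO, h⟩ := hLOC k F x y hS O i hi π hπO
    have ha0 : a ≠ 0 := by
      intro h'
      rw [h', zero_div] at h
      exact hπ0 h
    have hordb : 0 ≤ ord O.1 b := (O.isOrd.mem _ hb0).1 (hi hb)
    have horda : ord O.1 a = 1 + ord O.1 b := by
      have h1 : a = π * b := by rw [h, div_mul_cancel₀ _ hb0]
      rw [h1, O.isOrd.mul _ _ hπ0 hb0, hπ]
    obtain ⟨M, hM⟩ := hLIH k F x y hS i a ha
    have hz := z_ne hS i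
    have hθ0 : a * z x y i ^ M ≠ 0 := mul_ne_zero ha0 (pow_ne_zero _ hz)
    refine ⟨M, a * z x y i ^ M, hθ0, fun O' => (hM M le_rfl).resolve_left hθ0 O', ?_⟩
    have hH : H k x y O = - ord O.1 (z x y i) := ((hHCH k F x y hS O).2.2 i).1 hi
    rw [O.isOrd.mul _ _ ha0 (pow_ne_zero _ hz), O.isOrd.pow hz, horda, hH]
    have : (1 : ℤ) - (M : ℤ) * - ord O.1 (z x y i) = 1 + (M : ℤ) * ord O.1 (z x y i) := by ring
    rw [this]
    linarith
  choose m θ hθ0 hθ1 hθ2 using hone
  set S : Finset (PP k x y) := hD.toFinset with hSdef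
  set Θ : F := ∏ O ∈ S, θ O ^ (D O).toNat with hΘ
  set B : ℕ := ∑ O ∈ S, m O * (D O).toNat with hB
  have hΘ0 : Θ ≠ 0 := Finset.prod_ne_zero_iff.2 fun O _ => pow_ne_zero _ (hθ0 O)
  have hordprod : ∀ (O' : PP k x y) (T : Finset (PP k x y)),
      ord O'.1 (∏ O ∈ T, θ O ^ (D O).toNat) = ∑ O ∈ T, ((D O).toNat : ℤ) * ord O'.1 (θ O) := by
    intro O' T
    induction T using Finset.induction_on with
    | empty => simp [O'.isOrd.one]
    | insert O T hO ih =>
      rw [Finset.prod_insert hO, Finset.sum_insert hO, O'.isOrd.mul _ _ (pow_ne_zero _ (hθ0 O))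
        (Finset.prod_ne_zero_iff.2 fun O _ => pow_ne_zero _ (hθ0 O)), O'.isOrd.pow (hθ0 O), ih]
  have hkey : ∀ O' : PP k x y, D O' - B * H k x y O' ≤ ord O'.1 Θ := by
    intro O'
    rw [hΘ, hordprod]
    have hB' : (B : ℤ) * H k x y O' = ∑ O ∈ S, ((D O).toNat : ℤ) * (m O * H k x y O') := by
      rw [hB]
      push_cast
      rw [Finset.sum_mul]
      apply Finset.sum_congr rfl
      intro O _
      ring
    have hle : ∀ O ∈ S, (if O = O' then ((D O).toNat : ℤ) else 0) +
        -(((D O).toNat : ℤ) * (m O * H k x y O')) ≤ ((D O).toNat : ℤ) * ord O'.1 (θ O) := by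
      intro O _
      by_cases h : O = O'
      · subst h
        rw [if_pos rfl]
        have := mul_le_mul_of_nonneg_left (hθ2 O) (Int.natCast_nonneg (D O).toNat)
        linarith
      · rw [if_neg h]
        have := mul_le_mul_of_nonneg_left (hθ1 O O') (Int.natCast_nonneg (D O).toNat)
        linarith
    have hsum := Finset.sum_le_sum hle
    rw [Finset.sum_add_distrib, Finset.sum_neg_distrib, ← hB'] at hsum
    have hDle : D O' ≤ ∑ O ∈ S, (if O = O' then ((D O).toNat : ℤ) else 0) := by
      rw [Finset.sum_ite_eq' S O']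
      by_cases h : O' ∈ S
      · rw [if_pos h]
        exact Int.self_le_toNat _
      · rw [if_neg h]
        have : D O' = 0 := by
          by_contra h'
          exact h (hD.mem_toFinset.2 h')
        rw [this]
    linarith
  haveI := fin_H hBAS hFRA hSEC hLIH hS B
  let ψ : L k x y D →ₗ[k] L k x y (fun O => (B : ℤ) * H k x y O) :=
    LinearMap.codRestrict _ ((LinearMap.mulLeft k Θ).comp (Submodule.subtype _)) (by
      intro f
      show Θ * (f : F) ∈ _
      by_cases h0 : (f : F) = 0
      · rw [h0, mul_zero]; exact Submodule.zero_mem _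
      right
      intro O
      have h1 := f.2.resolve_left h0 O
      have h2 := hkey O
      rw [O.isOrd.mul _ _ hΘ0 h0]
      linarith)
  have hψ : Function.Injective ψ := by
    intro f g hfg
    apply Subtype.ext
    have := congrArg Subtype.val hfg
    exact mul_left_cancel₀ hΘ0 this
  exact FiniteDimensional.of_injective ψ hψ

end Pool.Agent.SRF
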