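import Pool.Agent.SRF.Stmts

set_option autoImplicit false

namespace Pool.Agent.SRF

theorem INC_proof (hLOC : Stmt_LOC) : Stmt_INC := by
  intro k F _ _ _ x y hS O O'
  have h1 : O.1 ≤ O'.1 → O = O' := by
    intro hle
    apply Subtype.ext
    apply le_antisymm hle
    intro f hf
    by_contra hfO
    have hf0 : f ≠ 0 := by
      rintro rfl
      exact hfO O.1.zero_mem
    have hv := O.isOrd
    have hv' := O'.isOrd
    obtain ⟨π, hπ0, hπ⟩ := hv'.unif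
    have h2 : ord O.1 f < 0 := by
      by_contra hcon
      push Not at hcon
      exact hfO ((hv.mem f hf0).2 hcon)
    have h3 : π⁻¹ ∉ O'.1 := by
      rw [hv'.mem _ (inv_ne_zero hπ0), hv'.inv hπ0, hπ]
      norm_num
    apply h3
    obtain ⟨n, hn⟩ : ∃ n : ℕ, 0 ≤ ord O.1 π⁻¹ + n * (- ord O.1 f) := by
      refine ⟨(- ord O.1 π⁻¹).toNat, ?_⟩
      have h4 := Int.self_le_toNat (- ord O.1 π⁻¹)
      have h5 : (0 : ℤ) ≤ ((- ord O.1 π⁻¹).toNat : ℤ) := Int.natCast_nonneg _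
      nlinarith
    have h4 : π⁻¹ * (f⁻¹) ^ n ∈ O.1 := by
      rw [hv.mem _ (mul_ne_zero (inv_ne_zero hπ0) (pow_ne_zero n (inv_ne_zero hf0))),
        hv.mul _ _ (inv_ne_zero hπ0) (pow_ne_zero n (inv_ne_zero hf0)),
        hv.pow (inv_ne_zero hf0), hv.inv hf0]
      exact hn
    have h5 : π⁻¹ = π⁻¹ * (f⁻¹) ^ n * f ^ n := by
      rw [mul_assoc, ← mul_pow, inv_mul_cancel₀ hf0, one_pow, mul_one]
    rw [h5]
    exact mul_mem (hle h4) (pow_mem hf n)
  refine ⟨h1, fun i hi hi' h => h1 ?_⟩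
  intro f hf
  obtain ⟨a, ha, b, hb, hb0, hbO, rfl⟩ := hLOC k F x y hS O i hi f hf
  have h2 : b⁻¹ ∈ O'.1 := by
    by_contra hcon
    exact h b hb hb0 hcon hbO
  rw [div_eq_mul_inv]
  exact mul_mem (hi' ha) h2

end Pool.Agent.SRF
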