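import Pool.Agent.SRF.Stmts

/-!
# Library of surfaces: module LIH
-/

set_option autoImplicit false

noncomputable section

namespace Pool.Agent.SRF

theorem LIH_proof (hLIF : Stmt_LIF) (hSEC : Stmt_SEC) : Stmt_LIH := by
  intro k F _ _ _ x y hS i a ha
  choose M hM using fun i' => hLIF k F x y hS i' i a ha
  refine ⟨∑ i', M i', fun m hm => ?_⟩
  rw [hSEC k F x y hS m]
  intro i'
  have h1 := hM i' m ((Finset.single_le_sum (fun _ _ => Nat.zero_le _)
    (Finset.mem_univ i')).trans hm)
  rwa [div_pow, ← mul_div_assoc] at h1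

end Pool.Agent.SRF
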