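import Pool.Agent.SRF.Stmts

set_option autoImplicit false

noncomputable section

namespace Pool.Agent.SRF

namespace SUP_

variable {F : Type} [Field F]

theorem mem_iff {O : ValuationSubring F} {v : F → ℤ} (hv : IsOrd O v) {f : F} (hf : f ≠ 0) :
    f⁻¹ ∉ O ↔ 0 < v f := by
  rw [hv.mem _ (inv_ne_zero hf), hv.inv hf]
  omega

/-- the trace of a discrete valuation ring on a subring -/
def tr {O : ValuationSubring F} {v : F → ℤ} (hv : IsOrd O v) {R : Subring F}
    (hR : R ≤ O.toSubring) : Ideal R where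
  carrier := {r | (r : F) = 0 ∨ 0 < v r}
  add_mem' := by
    intro r s hr hs
    rcases hr with hr | hr
    · have : ((r + s : R) : F) = s := by
        change (r : F) + s = s
        rw [hr, zero_add]
      rw [Set.mem_ofPred_eq, this]; exact hs
    rcases hs with hs | hs
    · have : ((r + s : R) : F) = r := by
        change (r : F) + s = r
        rw [hs, add_zero]
      rw [Set.mem_ofPred_eq, this]; exact Or.inr hr
    by_cases h0 : ((r + s : R) : F) = 0
    · exact Or.inl h0
    · right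
      have hr0 : (r : F) ≠ 0 := by intro h; rw [h, hv.zero] at hr; exact lt_irrefl _ hr
      have hs0 : (s : F) ≠ 0 := by intro h; rw [h, hv.zero] at hs; exact lt_irrefl _ hs
      exact lt_of_lt_of_le (lt_min hr hs) (hv.add hr0 hs0 h0)
  zero_mem' := Or.inl rfl
  smul_mem' := by
    intro c r hr
    rcases hr with hr | hr
    · left
      change (c : F) * r = 0
      rw [hr, mul_zero]
    · by_cases hc : (c : F) = 0
      · left
        change (c : F) * r = 0
        rw [hc, zero_mul]
      · right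
        have hr0 : (r : F) ≠ 0 := by intro h; rw [h, hv.zero] at hr; exact lt_irrefl _ hr
        change 0 < v ((c : F) * r)
        rw [hv.mul _ _ hc hr0]
        have := (hv.mem _ hc).1 (hR c.2)
        linarith

theorem mem_tr {O : ValuationSubring F} {v : F → ℤ} (hv : IsOrd O v) {R : Subring F}
    (hR : R ≤ O.toSubring) {r : R} : r ∈ tr hv hR ↔ (r : F) = 0 ∨ 0 < v r := Iff.rfl

theorem prime {O : ValuationSubring F} {v : F → ℤ} (hv : IsOrd O v) {R : Subring F}
    (hR : R ≤ O.toSubring) : (tr hv hR).IsPrime := by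
  constructor
  · intro h
    have h1 : (1 : R) ∈ tr hv hR := by rw [h]; trivial
    rcases h1 with h1 | h1
    · exact one_ne_zero h1
    · have h2 : v 1 = 0 := hv.one
      have h3 : 0 < v 1 := h1
      omega
  · intro r s h
    rw [mem_tr, mem_tr]
    rcases h with h | h
    · have h' : (r : F) * s = 0 := h
      rcases mul_eq_zero.1 h' with h1 | h1
      · exact Or.inl (Or.inl h1)
      · exact Or.inr (Or.inl h1)
    · by_cases hr : (r : F) = 0
      · exact Or.inl (Or.inl hr)
      by_cases hs : (s : F) = 0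
      · exact Or.inr (Or.inl hs)
      have h1 : 0 < v ((r : F) * s) := h
      rw [hv.mul _ _ hr hs] at h1
      have h2 := (hv.mem _ hr).1 (hR r.2)
      have h3 := (hv.mem _ hs).1 (hR s.2)
      rcases h2.lt_or_eq with h4 | h4
      · exact Or.inl (Or.inr h4)
      · exact Or.inr (Or.inr (by omega))

theorem fin_chart (hFIN : Stmt_FIN) (hLOC : Stmt_LOC) (hINC : Stmt_INC) (k : Type) [Field k]
    [Algebra k F] (x y : F) (hS : IsSurf k x y) (i : Fin 3) (a : F) (ha : a ∈ chart k x y i)
    (ha0 : a ≠ 0) : {O : PP k x y | chart k x y i ≤ O.1.toSubring ∧ ord O.1 a ≠ 0}.Finite := by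
  obtain ⟨-, hN, -⟩ := hFIN k F x y hS i
  let a' : chart k x y i := ⟨a, ha⟩
  have hmin : ((Ideal.span {a'}).minimalPrimes).Finite := Ideal.finite_minimalPrimes_of_isNoetherianRing _ _
  refine Set.Finite.of_injOn (f := fun O : PP k x y =>
    {r : chart k x y i | (r : F) = 0 ∨ 0 < ord O.1 r})
    (t := (fun P : Ideal (chart k x y i) => (P : Set (chart k x y i))) ''
      (Ideal.span {a'}).minimalPrimes) ?_ ?_ (hmin.image _)
  · rintro O ⟨hO, hOa⟩
    have haO : 0 < ord O.1 a := by
      have := (O.isOrd.mem _ ha0).1 (hO ha)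
      omega
    refine ⟨tr O.isOrd hO, ⟨⟨prime O.isOrd hO, ?_⟩, ?_⟩, rfl⟩
    · rw [Ideal.span_singleton_le_iff_mem]
      exact Or.inr haO
    · rintro P ⟨hP, hPa⟩ hPle r hr
      rw [Ideal.span_singleton_le_iff_mem] at hPa
      rcases hr with hr | hr
      · have : r = 0 := Subtype.ext hr
        rw [this]; exact P.zero_mem
      have hr0 : (r : F) ≠ 0 := by
        intro h; rw [h, O.isOrd.zero] at hr; exact lt_irrefl _ hr
      have hq : (r : F) ^ (ord O.1 a).toNat / a ∈ O.1 := by
        have h0 : (r : F) ^ (ord O.1 a).toNat / a ≠ 0 := div_ne_zero (pow_ne_zero _ hr0) ha0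
        rw [O.isOrd.mem _ h0, div_eq_mul_inv, O.isOrd.mul _ _ (pow_ne_zero _ hr0)
          (inv_ne_zero ha0), O.isOrd.inv ha0, O.isOrd.pow hr0, Int.toNat_of_nonneg haO.le]
        nlinarith
      obtain ⟨c, hc, d, hd, hd0, hdO, hcd⟩ := hLOC k F x y hS O i hO _ hq
      have h1 : (r : F) ^ (ord O.1 a).toNat * d = c * a := by
        rw [div_eq_div_iff ha0 hd0] at hcd
        exact hcd
      have h2 : r ^ (ord O.1 a).toNat * (⟨d, hd⟩ : chart k x y i) = ⟨c, hc⟩ * a' :=
        Subtype.ext h1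
      have h3 : r ^ (ord O.1 a).toNat * (⟨d, hd⟩ : chart k x y i) ∈ P := by
        rw [h2]; exact P.mul_mem_left _ hPa
      rcases hP.mem_or_mem h3 with h4 | h4
      · exact hP.mem_of_pow_mem _ h4
      · exfalso
        rcases hPle h4 with h5 | h5
        · exact hd0 h5
        · exact (mem_iff O.isOrd hd0).2 h5 hdO
  · rintro O ⟨hO, -⟩ O' ⟨hO', -⟩ heq
    apply (hINC k F x y hS O O').2 i hO hO'
    intro b hb hb0 hbO'
    rw [mem_iff O'.isOrd hb0] at hbO'
    rw [mem_iff O.isOrd hb0]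
    have h1 : (⟨b, hb⟩ : chart k x y i) ∈ {r : chart k x y i | (r : F) = 0 ∨ 0 < ord O'.1 r} :=
      Or.inr hbO'
    have h2 : {r : chart k x y i | (r : F) = 0 ∨ 0 < ord O.1 r} =
      {r : chart k x y i | (r : F) = 0 ∨ 0 < ord O'.1 r} := heq
    rw [← h2] at h1
    exact h1.resolve_left hb0

end SUP_

open SUP_ in
theorem SUP_proof (hFIN : Stmt_FIN) (hFRA : Stmt_FRA) (hLOC : Stmt_LOC) (hINC : Stmt_INC) :
    Stmt_SUP := by
  intro k F _ _ _ x y hS f hf
  choose a ha b hb hb0 hfab using fun i => hFRA k F x y hS i f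
  have hb' : ∀ i, b i ∈ chart k x y i := by
    intro i
    change IsIntegral (base k x y i) (b i)
    exact isIntegral_algebraMap (R := base k x y i) (A := F) (x := ⟨b i, hb i⟩)
  have ha0 : ∀ i, a i ≠ 0 := by
    intro i h0
    apply hf
    rw [hfab i, h0, zero_div]
  have hfin : (⋃ i, ({O : PP k x y | chart k x y i ≤ O.1.toSubring ∧ ord O.1 (a i) ≠ 0} ∪
      {O : PP k x y | chart k x y i ≤ O.1.toSubring ∧ ord O.1 (b i) ≠ 0})).Finite :=
    Set.finite_iUnion fun i =>
      (fin_chart hFIN hLOC hINC k x y hS i _ (ha i) (ha0 i)).union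
        (fin_chart hFIN hLOC hINC k x y hS i _ (hb' i) (hb0 i))
  refine hfin.subset ?_
  intro O hO
  obtain ⟨-, i, hi, -⟩ := O.2
  rw [Set.mem_iUnion]
  refine ⟨i, ?_⟩
  by_contra hcon
  rw [Set.mem_union] at hcon
  push Not at hcon
  obtain ⟨h1, h2⟩ := hcon
  have h3 : ord O.1 (a i) = 0 := by
    by_contra h4; exact h1 ⟨hi, h4⟩
  have h4 : ord O.1 (b i) = 0 := by
    by_contra h5; exact h2 ⟨hi, h5⟩
  apply hO
  change ord O.1 f = 0
  rw [hfab i, div_eq_mul_inv, O.isOrd.mul _ _ (ha0 i) (inv_ne_zero (hb0 i)), O.isOrd.inv (hb0 i),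
    h3, h4]
  ring

end Pool.Agent.SRF
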