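import Pool.Agent.SRF.Stmts

/-!
# SRF / BND: a bound for the orders of the zeros of a section
-/

set_option autoImplicit false

noncomputable section

namespace Pool.Agent.SRF

namespace BND_

open Polynomial

section oneVar
variable {F : Type} [Field F] {O : ValuationSubring F} {v : F → ℤ}

lemma nonunits_iff (h : IsOrd O v) (x : F) : x ∈ O.nonunits ↔ x = 0 ∨ 0 < v x := by
  rw [ValuationSubring.mem_nonunits_iff_or]
  by_cases hx : x = 0
  · simp [hx]
  · rw [h.mem _ (inv_ne_zero hx), h.inv hx]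
    constructor
    · rintro (h1 | h1)
      · exact absurd h1 hx
      · right; omega
    · rintro (h1 | h1)
      · exact absurd h1 hx
      · right; omega

lemma mul_nonunits {r a : F} (hr : r ∈ O) (ha : a ∈ O.nonunits) : r * a ∈ O.nonunits := by
  have h1 : O.valuation r ≤ 1 := (O.valuation_le_one_iff _).2 hr
  have h2 : O.valuation a < 1 := ha
  show O.valuation (r * a) < 1
  rw [map_mul]
  exact lt_of_le_of_lt (mul_le_of_le_one_left' h1) h2

lemma one_notMem : (1 : F) ∉ O.nonunits := by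
  intro h
  have h2 : O.valuation (1 : F) < 1 := h
  rw [map_one] at h2
  exact lt_irrefl _ h2

variable {E : Type} [Field E] [Algebra E F]

lemma coeff_O (h : IsOrd O v) (hE : ∀ c : E, c ≠ 0 → v (algebraMap E F c) = 0) (c : E) :
    algebraMap E F c ∈ O := by
  by_cases hc : c = 0
  · rw [hc, map_zero]
    exact O.zero_mem
  · rw [h.mem _ (by rwa [Ne, map_eq_zero]), hE c hc]

lemma aeval_O (h : IsOrd O v) (hE : ∀ c : E, c ≠ 0 → v (algebraMap E F c) = 0) {t : F}
    (ht : t ∈ O) (P : E[X]) : aeval t P ∈ O := by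
  rw [aeval_eq_sum_range]
  refine sum_mem fun j _ => ?_
  rw [Algebra.smul_def]
  exact mul_mem (coeff_O h hE _) (pow_mem ht j)

lemma cop (h : IsOrd O v) (hE : ∀ c : E, c ≠ 0 → v (algebraMap E F c) = 0) {t : F}
    (ht : t ∈ O) {P A : E[X]} (hc : IsCoprime P A) (hP : aeval t P ∈ O.nonunits) :
    aeval t A ≠ 0 ∧ v (aeval t A) = 0 := by
  have h1 : aeval t A ∉ O.nonunits := by
    intro hA
    obtain ⟨a, b, hab⟩ := hc
    have h2 : aeval t a * aeval t P + aeval t b * aeval t A = 1 := by
      rw [← map_mul, ← map_mul, ← map_add, hab, map_one]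
    have h3 := O.nonunits.add_mem (mul_nonunits (aeval_O h hE ht a) hP)
      (mul_nonunits (aeval_O h hE ht b) hA)
    rw [h2] at h3
    exact one_notMem h3
  have h2 : aeval t A ≠ 0 := by
    intro h0
    exact h1 ((nonunits_iff h _).2 (Or.inl h0))
  refine ⟨h2, ?_⟩
  have h3 := (h.mem _ h2).1 (aeval_O h hE ht A)
  have h4 : ¬ 0 < v (aeval t A) := fun h4 => h1 ((nonunits_iff h _).2 (Or.inr h4))
  omega

lemma factor (h : IsOrd O v) (hE : ∀ c : E, c ≠ 0 → v (algebraMap E F c) = 0) {t : F}
    (ht : t ∈ O) {p : E[X]} (hp : Irreducible p) (hp0 : aeval t p ≠ 0)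
    (hpv : 0 < v (aeval t p)) (A : E[X]) (hA : aeval t A ≠ 0) :
    ∃ r : ℕ, r ≤ A.natDegree ∧ v (aeval t A) = r * v (aeval t p) := by
  have hA0 : A ≠ 0 := by
    rintro rfl
    exact hA (map_zero _)
  obtain ⟨B, hAB, hB⟩ := (FiniteMultiplicity.of_not_isUnit hp.not_isUnit hA0).exists_eq_pow_mul_and_not_dvd
  generalize multiplicity p A = r at hAB
  have hcop : IsCoprime p B := hp.coprime_iff_not_dvd.2 hB
  obtain ⟨h1, h2⟩ := cop h hE ht hcop ((nonunits_iff h _).2 (Or.inr hpv))
  have hB0 : B ≠ 0 := by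
    rintro rfl
    exact hB (dvd_zero p)
  refine ⟨r, ?_, ?_⟩
  · rw [hAB, natDegree_mul (pow_ne_zero r hp.ne_zero) hB0, natDegree_pow]
    have := hp.natDegree_pos
    calc r = r * 1 := (mul_one r).symm
      _ ≤ r * p.natDegree := Nat.mul_le_mul_left r this
      _ ≤ _ := Nat.le_add_right _ _
  · rw [hAB, map_mul, map_pow, h.mul _ _ (pow_ne_zero r hp0) h1, h.pow hp0, h2, add_zero]

lemma exists_irr (h : IsOrd O v) (hE : ∀ c : E, c ≠ 0 → v (algebraMap E F c) = 0) {t : F}
    (ht : t ∈ O) (A : E[X]) : aeval t A ≠ 0 → 0 < v (aeval t A) →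
    ∃ p : E[X], Irreducible p ∧ aeval t p ≠ 0 ∧ 0 < v (aeval t p) := by
  induction A using UniqueFactorizationMonoid.induction_on_prime with
  | h₁ => intro h1; exact absurd (map_zero _) h1
  | h₂ A hA =>
    intro h1 h2
    obtain ⟨c, hc, rfl⟩ := Polynomial.isUnit_iff.1 hA
    rw [aeval_C, hE c hc.ne_zero] at h2
    exact absurd h2 (lt_irrefl _)
  | h₃ A p hA hp ih =>
    intro h1 h2
    rw [map_mul] at h1 h2
    have h3 : aeval t p ≠ 0 := left_ne_zero_of_mul h1
    have h4 : aeval t A ≠ 0 := right_ne_zero_of_mul h1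
    rw [h.mul _ _ h3 h4] at h2
    by_cases h5 : 0 < v (aeval t p)
    · exact ⟨p, hp.irreducible, h3, h5⟩
    · exact ih h4 (by omega)

lemma ram {L : Type} [Field L] [Algebra L F] [FiniteDimensional L F] (h : IsOrd O v) (e : ℕ)
    (he : 0 < e) (hL : ∀ c : L, c ≠ 0 → (e : ℤ) ∣ v (algebraMap L F c)) :
    e ≤ Module.finrank L F := by
  classical
  obtain ⟨π, hπ, hπv⟩ := h.unif
  have hli : LinearIndependent L (fun j : Fin e => π ^ (j : ℕ)) := by
    rw [Fintype.linearIndependent_iff]
    intro g hg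
    by_contra hne
    push Not at hne
    obtain ⟨j₁, hj₁⟩ := hne
    let S := Finset.univ.filter fun j => g j ≠ 0
    have hS : S.Nonempty := ⟨j₁, by simp [S, hj₁]⟩
    obtain ⟨j₀, hj₀S, hmin⟩ := Finset.exists_min_image S (fun j => v (g j • π ^ (j : ℕ))) hS
    have hx : ∀ j ∈ S, g j • π ^ (j : ℕ) ≠ 0 := by
      intro j hj
      exact smul_ne_zero (Finset.mem_filter.1 hj).2 (pow_ne_zero _ hπ)
    have hv : ∀ j ∈ S, v (g j • π ^ (j : ℕ)) = v (algebraMap L F (g j)) + (j : ℕ) := by
      intro j hj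
      have hgj : algebraMap L F (g j) ≠ 0 := by
        rw [Ne, map_eq_zero]
        exact (Finset.mem_filter.1 hj).2
      rw [Algebra.smul_def, h.mul _ _ hgj (pow_ne_zero _ hπ), h.pow hπ, hπv, mul_one]
    have hlt : ∀ j ∈ S.erase j₀, v (g j₀ • π ^ (j₀ : ℕ)) < v (g j • π ^ (j : ℕ)) := by
      intro j hj
      obtain ⟨hjj, hjS⟩ := Finset.mem_erase.1 hj
      refine lt_of_le_of_ne (hmin j hjS) ?_
      intro heq
      rw [hv j hjS, hv j₀ hj₀S] at heq
      obtain ⟨a, ha⟩ := hL (g j) (Finset.mem_filter.1 hjS).2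
      obtain ⟨b, hb⟩ := hL (g j₀) (Finset.mem_filter.1 hj₀S).2
      rw [ha, hb] at heq
      have h1 : ((j : ℕ) : ℤ) - (j₀ : ℕ) = e * (b - a) := by linarith
      have h2 : ((j : ℕ) : ℤ) < e := by exact_mod_cast j.2
      have h3 : ((j₀ : ℕ) : ℤ) < e := by exact_mod_cast j₀.2
      have h4 : (0 : ℤ) ≤ (j : ℕ) := by positivity
      have h5 : (0 : ℤ) ≤ (j₀ : ℕ) := by positivity
      have h6 : (0 : ℤ) < e := by exact_mod_cast he
      have h7 : b - a = 0 := by
        by_contra hba
        rcases lt_or_gt_of_ne hba with h8 | h8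
        · have : (e : ℤ) * (b - a) ≤ e * (-1) := mul_le_mul_of_nonneg_left (by omega) h6.le
          linarith
        · have : (e : ℤ) * 1 ≤ e * (b - a) := mul_le_mul_of_nonneg_left (by omega) h6.le
          linarith
      rw [h7, mul_zero] at h1
      apply hjj
      apply Fin.ext
      omega
    have hsum : ∑ j ∈ S, g j • π ^ (j : ℕ) = 0 := by
      rw [← hg]
      refine Finset.sum_subset (Finset.subset_univ _) ?_
      intro j _ hj
      have : g j = 0 := by
        by_contra h0
        exact hj (by simp [S, h0])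
      rw [this, zero_smul]
    rw [← Finset.add_sum_erase _ _ hj₀S] at hsum
    have h0 := hx j₀ hj₀S
    have hone : (1 : F) = -∑ j ∈ S.erase j₀, (g j • π ^ (j : ℕ)) * (g j₀ • π ^ (j₀ : ℕ))⁻¹ := by
      rw [← Finset.sum_mul, ← neg_mul, ← eq_neg_of_add_eq_zero_left hsum, mul_inv_cancel₀ h0]
    have hmem : (1 : F) ∈ O.nonunits := by
      rw [hone]
      refine neg_mem (sum_mem fun j hj => ?_)
      rw [nonunits_iff h]
      right
      rw [h.mul _ _ (hx j (Finset.mem_of_mem_erase hj)) (inv_ne_zero h0), h.inv h0]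
      have := hlt j hj
      omega
    exact one_notMem hmem
  have := hli.fintype_card_le_finrank
  rwa [Fintype.card_fin] at this

end oneVar


/-- the coefficients of the minimal polynomial of an element integral over a chart of the plane -/
lemma coeff_mem (hBAS : Stmt_BAS) {k F : Type} [Field k] [Field F] [Algebra k F] {x y : F}
    (hS : IsSurf k x y) (i : Fin 3) {g : F} (hg : IsIntegral (base k x y i) g) (j : ℕ) :
    (((minpoly (IntermediateField.adjoin k {x, y}) g).coeff j : IntermediateField.adjoin k {x, y})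
      : F) ∈ base k x y i := by
  obtain ⟨⟨e⟩, h1, h2⟩ := hBAS k F x y hS i
  let K' := IntermediateField.adjoin k {x, y}
  have hle : base k x y i ≤ K'.toSubalgebra := fun f hf => h1 f hf
  let _ : Algebra (base k x y i) K' := (Subalgebra.inclusion hle).toRingHom.toAlgebra
  have _ : IsScalarTower (base k x y i) K' F := IsScalarTower.of_algebraMap_eq (fun _ => rfl)
  have hinj : Function.Injective (algebraMap (base k x y i) K') := by
    intro a b hab
    apply Subtype.ext
    exact congrArg (fun z : K' => (z : F)) hab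
  have _ : FaithfulSMul (base k x y i) K' :=
    (faithfulSMul_iff_algebraMap_injective _ _).2 hinj
  have _ : IsFractionRing (base k x y i) K' := by
    refine IsFractionRing.of_field (base k x y i) K' (fun z => ?_)
    obtain ⟨a, ha, b, hb, hb0, hz⟩ := h2 (z : F) z.2
    refine ⟨⟨a, ha⟩, ⟨b, hb⟩, ?_⟩
    apply Subtype.ext
    exact hz
  have _ : IsIntegrallyClosed (base k x y i) := IsIntegrallyClosed.of_equiv e.toRingEquiv
  have h3 := minpoly.isIntegrallyClosed_eq_field_fractions' K' hg
  change (((minpoly K' g).coeff j : K') : F) ∈ base k x y i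
  rw [h3, coeff_map]
  exact ((minpoly (base k x y i) g).coeff j).2

section
variable {k F : Type} [Field k] [Field F] [Algebra k F] {x y : F}

lemma z_ne (h : IsSurf k x y) (i : Fin 3) : z x y i ≠ 0 := by
  have hx : x ≠ 0 := h.indep.ne_zero 0
  have hy : y ≠ 0 := h.indep.ne_zero 1
  fin_cases i
  · exact one_ne_zero
  · exact hx
  · exact hy

lemma univ3 : ∀ i j l : Fin 3, i ≠ j → i ≠ l → j ≠ l →
    (Finset.univ : Finset (Fin 3)) = {i, j, l} := by decide

lemma third : ∀ i j : Fin 3, ∃ l, i ≠ l ∧ j ≠ l := by decide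

lemma cover : ∀ i j l b : Fin 3, i ≠ j → i ≠ l → j ≠ l → b = i ∨ b = j ∨ b = l := by decide

/-- the exponents of a homogenised monomial -/
def wt (D : ℕ) (m : Fin 2 →₀ ℕ) : Fin 3 → ℕ := ![D - m 0 - m 1, m 0, m 1]

lemma wt_le (D : ℕ) (m : Fin 2 →₀ ℕ) (hm : m 0 + m 1 ≤ D) (l : Fin 3) : wt D m l ≤ D := by
  fin_cases l
  · show D - m 0 - m 1 ≤ D
    omega
  · show m 0 ≤ D
    omega
  · show m 1 ≤ D
    omega

lemma prod_three (u : Fin 3 → F) (w : Fin 3 → ℕ) (i j l : Fin 3) (hij : i ≠ j) (hil : i ≠ l)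
    (hjl : j ≠ l) (hi : u i = 1) : ∏ a, u a ^ w a = u j ^ w j * u l ^ w l := by
  rw [univ3 i j l hij hil hjl, Finset.prod_insert (by simp [hij, hil]), Finset.prod_insert (by simp [hjl]),
    Finset.prod_singleton, hi, one_pow, one_mul]

lemma monom_eq (h : IsSurf k x y) (i : Fin 3) (D : ℕ) (m : Fin 2 →₀ ℕ) (hm : m 0 + m 1 ≤ D) :
    x ^ m 0 * y ^ m 1 / z x y i ^ D = ∏ a, (z x y a / z x y i) ^ wt D m a := by
  have hz := z_ne h i
  rw [Fin.prod_univ_three]
  show _ = (1 / z x y i) ^ (D - m 0 - m 1) * (x / z x y i) ^ m 0 * (y / z x y i) ^ m 1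
  have hD : D = (D - m 0 - m 1) + m 0 + m 1 := by omega
  rw [div_pow, div_pow, div_pow, one_pow]
  conv_lhs => rw [hD, pow_add, pow_add]
  field_simp

end

end BND_

open BND_ Polynomial in
theorem BND_proof (hBAS : Stmt_BAS) (_hFIN : Stmt_FIN) (_hLOC : Stmt_LOC) (hHCH : Stmt_HCH)
    (hSEC : Stmt_SEC) (_hCEN : Stmt_CEN) (hNAL : Stmt_NAL) (hSCQ : Stmt_SCQ) : Stmt_BND := by
  classical
  intro k F _ _ _ x y hS a f hf hf0 O
  have hfin := hS.fin
  set K' := IntermediateField.adjoin k {x, y} with hK'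
  set n := Module.finrank K' F with hn
  obtain ⟨i, hi, -⟩ := O.2.2
  have hzi := z_ne hS i
  have hO := O.isOrd
  set v := ord O.1 with hv
  -- the local section
  set g := f / z x y i ^ a with hg
  have hg0 : g ≠ 0 := div_ne_zero hf0 (pow_ne_zero a hzi)
  have hgc : g ∈ chart k x y i := (hSEC k F x y hS a f).1 hf i
  have hgO : g ∈ O.1 := hi hgc
  have hH : H k x y O = - v (z x y i) := ((hHCH k F x y hS O).2.2 i).1 hi
  have hgv : v f + a * H k x y O = v g := by
    rw [hg, div_eq_mul_inv, hO.mul _ _ hf0 (inv_ne_zero (pow_ne_zero a hzi)),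
      hO.inv (pow_ne_zero a hzi), hO.pow hzi, hH]
    ring
  rw [hgv]
  have hbO : ∀ c ∈ base k x y i, c ∈ O.1 := by
    intro c hc
    apply hi
    show IsIntegral (base k x y i) c
    exact isIntegral_algebraMap (R := base k x y i) (A := F) (x := ⟨c, hc⟩)
  -- the constant coefficient of the minimal polynomial
  have hfi : IsIntegral K' f := Algebra.IsIntegral.isIntegral f
  have hgi : IsIntegral K' g := Algebra.IsIntegral.isIntegral g
  set d := (minpoly K' f).natDegree with hd
  have hdn : d ≤ n := minpoly.natDegree_le f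
  set N : F := (((minpoly K' g).coeff 0 : K') : F) with hN
  have hN0 : N ≠ 0 := by
    have h1 := minpoly.coeff_zero_ne_zero hgi hg0
    intro h2
    exact h1 (Subtype.ext h2)
  have hNs : ∃ s ∈ O.1, N = g * s := by
    have h1 := minpoly.aeval K' g
    rw [← Polynomial.divX_mul_X_add (minpoly K' g), map_add, map_mul, aeval_X, aeval_C] at h1
    refine ⟨-aeval g (minpoly K' g).divX, ?_, ?_⟩
    · refine neg_mem ?_
      rw [aeval_eq_sum_range]
      refine sum_mem fun j _ => ?_
      rw [Algebra.smul_def]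
      refine mul_mem ?_ (pow_mem hgO j)
      rw [Polynomial.coeff_divX]
      exact hbO _ (coeff_mem hBAS hS i hgc (j + 1))
    · have h2 : N = -(aeval g (minpoly K' g).divX * g) := eq_neg_of_add_eq_zero_right h1
      rw [h2]
      ring
  obtain ⟨s, hsO, hNgs⟩ := hNs
  have hs0 : s ≠ 0 := by
    rintro rfl
    exact hN0 (by rw [hNgs, mul_zero])
  have hvle : v g ≤ v N := by
    rw [hNgs, hO.mul _ _ hg0 hs0]
    have := (hO.mem _ hs0).1 hsO
    linarith
  refine hvle.trans ?_
  -- the formula for `N`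
  obtain ⟨c, hcd, hc⟩ := hSCQ k F x y hS a f hf
  have hNf : N = MvPolynomial.aeval ![x, y] (c d) / z x y i ^ (a * d) := by
    have hzK : z x y i ∈ K' := by
      fin_cases i
      · exact one_mem K'
      · exact IntermediateField.subset_adjoin k {x, y} (Or.inl rfl)
      · exact IntermediateField.subset_adjoin k {x, y} (Or.inr rfl)
    let r : K' := ⟨(z x y i ^ a)⁻¹, K'.inv_mem (pow_mem hzK a)⟩
    have hr : r ≠ 0 := by
      intro h
      have := congrArg (fun w : K' => (w : F)) h
      exact inv_ne_zero (pow_ne_zero a hzi) this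
    have hrf : r • f = g := by
      rw [hg, div_eq_inv_mul]; rfl
    have h3 : minpoly K' (r • f) = (minpoly K' f).scaleRoots r :=
      IsIntegrallyClosed.minpoly_smul hr hfi
    rw [hN, ← hrf, h3, Polynomial.coeff_scaleRoots]
    have h4 := hc d le_rfl
    rw [Nat.sub_self] at h4
    rw [← h4]
    change (((minpoly K' f).coeff 0 : K') : F) * ((z x y i ^ a)⁻¹) ^ (d - 0) = _
    rw [Nat.sub_zero, inv_pow, ← pow_mul, div_eq_mul_inv]
  by_cases hNv : v N ≤ 0
  · refine hNv.trans ?_
    positivity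
  push Not at hNv
  -- the two coordinates
  obtain ⟨j, hj⟩ := hNAL k F x y hS O i hi
  set u : Fin 3 → F := fun b => z x y b / z x y i with hu
  have hui : u i = 1 := div_self hzi
  have huO : ∀ b, u b ∈ O.1 := fun b => hbO _ (Algebra.subset_adjoin ⟨b, rfl⟩)
  have hij : i ≠ j := by
    intro h
    have h1 := (hj (X - C 1) (X_sub_C_ne_zero 1)).1
    rw [← h, div_self hzi] at h1
    simp at h1
  obtain ⟨l, hil, hjl⟩ := third i j
  set E := IntermediateField.adjoin k {u j} with hE
  have htr : ∀ q : k[X], q ≠ 0 → aeval (u j) q ≠ 0 ∧ v (aeval (u j) q) = 0 := by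
    intro q hq
    obtain ⟨h1, h2⟩ := hj q hq
    refine ⟨h1, ?_⟩
    have h3 := (hO.mem _ (inv_ne_zero h1)).1 h2
    rw [hO.inv h1] at h3
    have h4 : aeval (u j) q ∈ O.1 := by
      rw [aeval_eq_sum_range]
      refine sum_mem fun b _ => ?_
      rw [Algebra.smul_def]
      exact mul_mem (O.2.const_mem k x y _) (pow_mem (huO j) b)
    have h5 := (hO.mem _ h1).1 h4
    have h6 : v (aeval (z x y j / z x y i) q) = v (aeval (u j) q) := rfl
    omega
  have hEv : ∀ c : E, c ≠ 0 → v (algebraMap E F c) = 0 := by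
    intro c hc0
    obtain ⟨A, B, hAB⟩ := (IntermediateField.mem_adjoin_simple_iff k (c : F)).1 c.2
    have hc1 : (c : F) ≠ 0 := fun h => hc0 (Subtype.ext h)
    have hA : A ≠ 0 := by
      rintro rfl
      exact hc1 (by rw [hAB, map_zero, zero_div])
    have hB : B ≠ 0 := by
      rintro rfl
      exact hc1 (by rw [hAB, map_zero, div_zero])
    show v (c : F) = 0
    rw [hAB, div_eq_mul_inv, hO.mul _ _ (htr A hA).1 (inv_ne_zero (htr B hB).1),
      hO.inv (htr B hB).1, (htr A hA).2, (htr B hB).2]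
    rfl
  have huE : u j ∈ E := IntermediateField.mem_adjoin_simple_self k (u j)
  -- `N` as a polynomial
  have hPN : ∃ P : E[X], P.natDegree ≤ a * d ∧ aeval (u l) P = N := by
    refine ⟨∑ m ∈ (c d).support, C ((⟨algebraMap k F ((c d).coeff m), E.algebraMap_mem _⟩ : E) *
      ⟨u j, huE⟩ ^ wt (a * d) m j) * X ^ wt (a * d) m l, ?_, ?_⟩
    · refine natDegree_sum_le_of_forall_le _ _ fun m hm => ?_
      refine (natDegree_C_mul_X_pow_le _ _).trans (wt_le _ _ ?_ _)
      have h1 := MvPolynomial.le_totalDegree hm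
      have h2 : (m.sum fun _ e => e) = m 0 + m 1 := by
        rw [Finsupp.sum_fintype _ _ (fun _ => rfl), Fin.sum_univ_two]
      rw [h2] at h1
      exact h1.trans (hcd d)
    · rw [hNf, map_sum]
      have h1 : MvPolynomial.aeval ![x, y] (c d) = ∑ m ∈ (c d).support,
          algebraMap k F ((c d).coeff m) * (x ^ m 0 * y ^ m 1) := by
        rw [MvPolynomial.aeval_def, MvPolynomial.eval₂_eq']
        refine Finset.sum_congr rfl fun m _ => ?_
        rw [Fin.prod_univ_two]
        rfl
      rw [h1, Finset.sum_div]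
      refine Finset.sum_congr rfl fun m hm => ?_
      have h3 := MvPolynomial.le_totalDegree hm
      have h2 : (m.sum fun _ e => e) = m 0 + m 1 := by
        rw [Finsupp.sum_fintype _ _ (fun _ => rfl), Fin.sum_univ_two]
      rw [h2] at h3
      rw [mul_div_assoc, monom_eq hS i (a * d) m (h3.trans (hcd d))]
      have h4 := prod_three u (wt (a * d) m) i j l hij hil hjl hui
      rw [h4, map_mul, aeval_C, map_pow, aeval_X]
      show (algebraMap k F ((c d).coeff m) * u j ^ wt (a * d) m j) * u l ^ wt (a * d) m l = _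
      ring
  obtain ⟨P, hPd, hPN⟩ := hPN
  obtain ⟨p, hp, hp0, hpv⟩ := exists_irr hO hEv (huO l) P (by rw [hPN]; exact hN0)
    (by rw [hPN]; exact hNv)
  -- the ramification index
  set e := (v (aeval (u l) p)).toNat with he
  have hev : (e : ℤ) = v (aeval (u l) p) := Int.toNat_of_nonneg hpv.le
  have hram : e ≤ n := by
    refine ram hO e (by omega) fun b hb => ?_
    have hM : K' ≤ (IntermediateField.adjoin E {u l}).restrictScalars k := by
      rw [hK', IntermediateField.adjoin_le_iff]
      have hmem : ∀ b, u b ∈ IntermediateField.adjoin E {u l} := by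
        intro b
        have h1 := cover i j l b hij hil hjl
        rcases h1 with h1 | h1 | h1
        · rw [h1, hui]
          exact one_mem _
        · rw [h1]
          exact (IntermediateField.adjoin E {u l}).algebraMap_mem ⟨u j, huE⟩
        · rw [h1]
          exact IntermediateField.mem_adjoin_simple_self E (u l)
      have hxu : x = u 1 / u 0 := by
        show x = (x / z x y i) / (1 / z x y i)
        field_simp
      have hyu : y = u 2 / u 0 := by
        show y = (y / z x y i) / (1 / z x y i)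
        field_simp
      intro b hb
      rcases hb with hb | hb
      · rw [hb]
        show x ∈ IntermediateField.adjoin E {u l}
        rw [hxu]
        exact div_mem (hmem 1) (hmem 0)
      · rw [Set.mem_singleton_iff.1 hb]
        show y ∈ IntermediateField.adjoin E {u l}
        rw [hyu]
        exact div_mem (hmem 2) (hmem 0)
    have hbM : (b : F) ∈ IntermediateField.adjoin E {u l} := hM b.2
    obtain ⟨A, B, hAB⟩ := (IntermediateField.mem_adjoin_simple_iff E (b : F)).1 hbM
    have hb1 : (b : F) ≠ 0 := fun h => hb (Subtype.ext h)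
    have hA : aeval (u l) A ≠ 0 := by
      intro h
      exact hb1 (by rw [hAB, h, zero_div])
    have hB : aeval (u l) B ≠ 0 := by
      intro h
      exact hb1 (by rw [hAB, h, div_zero])
    obtain ⟨r, _, hr⟩ := factor hO hEv (huO l) hp hp0 hpv A hA
    obtain ⟨r', _, hr'⟩ := factor hO hEv (huO l) hp hp0 hpv B hB
    show (e : ℤ) ∣ v (b : F)
    rw [hAB, div_eq_mul_inv, hO.mul _ _ hA (inv_ne_zero hB), hO.inv hB, hr, hr', hev]
    exact ⟨r - r', by ring⟩
  obtain ⟨r, hr, hrv⟩ := factor hO hEv (huO l) hp hp0 hpv P (by rw [hPN]; exact hN0)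
  rw [← hPN, hrv, ← hev]
  have h1 : r * e ≤ a * n ^ 2 := by
    calc r * e ≤ (a * n) * n := Nat.mul_le_mul ((hr.trans hPd).trans (Nat.mul_le_mul_left a hdn)) hram
      _ = a * n ^ 2 := by ring
  exact_mod_cast h1

end Pool.Agent.SRF
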