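import Pool.Agent.SRF.Stmts

/-!
# SRF / CON: sections without poles are constants
-/

set_option autoImplicit false

noncomputable section

namespace Pool.Agent.SRF

theorem CON_proof (hSCP : Stmt_SCP) : Stmt_CON := by
  intro k F _ _ _ _ x y hS f hf
  have h0 : (fun O : PP k x y => ((0 : ℕ) : ℤ) * H k x y O) = 0 := by
    funext O
    simp
  rw [← h0] at hf
  obtain ⟨c, hc, heq⟩ := (hSCP k F x y hS 0 f).mp hf
  have hc' : ∀ j, c j = MvPolynomial.C (MvPolynomial.coeff 0 (c j)) := by
    intro j
    apply MvPolynomial.totalDegree_eq_zero_iff_eq_C.mp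
    have := hc j
    omega
  generalize Module.finrank (IntermediateField.adjoin k {x, y}) F = n at heq
  have hint : IsIntegral k f := by
    refine ⟨Polynomial.X ^ n + ∑ j ∈ Finset.Icc 1 n,
      Polynomial.C (MvPolynomial.coeff 0 (c j)) * Polynomial.X ^ (n - j), ?_, ?_⟩
    · apply Polynomial.monic_X_pow_add
      refine lt_of_le_of_lt (Polynomial.degree_sum_le _ _) ?_
      refine (Finset.sup_lt_iff (WithBot.bot_lt_coe n)).mpr ?_
      intro j hj
      rw [Finset.mem_Icc] at hj
      refine lt_of_le_of_lt (Polynomial.degree_C_mul_X_pow_le _ _) ?_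
      exact Nat.cast_lt.mpr (show n - j < n by omega)
    · rw [Polynomial.eval₂_add, Polynomial.eval₂_X_pow, Polynomial.eval₂_finsetSum]
      rw [← heq]
      congr 1
      refine Finset.sum_congr rfl fun j _ => ?_
      rw [Polynomial.eval₂_mul, Polynomial.eval₂_C, Polynomial.eval₂_X_pow]
      congr 1
      conv_rhs => rw [hc' j]
      rw [MvPolynomial.aeval_C]
  have hdeg : (minpoly k f).degree = 1 :=
    IsAlgClosed.degree_eq_one_of_irreducible k (minpoly.irreducible hint)
  obtain ⟨c, hc⟩ := minpoly.mem_range_of_degree_eq_one k f hdeg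
  exact ⟨c, hc.symm⟩

end Pool.Agent.SRF
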