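import Pool.Agent.SRF.Stmts

set_option autoImplicit false

noncomputable section

namespace Pool.Agent.SRF

namespace CPT_

section

variable {F : Type} [Field F]

/-- the trace of a valuation ring on a subring -/
def tr (O : ValuationSubring F) (R : Subring F) (h : R ≤ O.toSubring) : Ideal R :=
  (IsLocalRing.maximalIdeal O).comap (R.subtype.codRestrict O (fun a => h a.2))

lemma tr_prime (O : ValuationSubring F) (R : Subring F) (h : R ≤ O.toSubring) :
    (tr O R h).IsPrime := by
  unfold tr
  exact Ideal.comap_isPrime _ _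

lemma mem_tr (O : ValuationSubring F) (R : Subring F) (h : R ≤ O.toSubring) (a : R)
    (ha : (a : F) ≠ 0) : a ∈ tr O R h ↔ (a : F)⁻¹ ∉ O := by
  unfold tr
  rw [Ideal.mem_comap, IsLocalRing.mem_maximalIdeal, mem_nonunits_iff, not_iff_not]
  constructor
  · intro hu
    obtain ⟨b, hb⟩ := hu.exists_right_inv
    have h1 : (a : F) * (b : F) = 1 := congrArg Subtype.val hb
    rw [inv_eq_of_mul_eq_one_right h1]
    exact b.2
  · intro hi
    apply IsUnit.of_mul_eq_one (⟨(a : F)⁻¹, hi⟩ : O)
    apply Subtype.ext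
    change (a : F) * (a : F)⁻¹ = 1
    exact mul_inv_cancel₀ ha

end

section

variable {k F : Type} [Field k] [Field F] [Algebra k F] {x y : F}

lemma z_ne (h : IsSurf k x y) (i : Fin 3) : z x y i ≠ 0 := by
  have h0 := h.indep.ne_zero 0
  have h1 := h.indep.ne_zero 1
  simp only [Matrix.cons_val_zero, Matrix.cons_val_one] at h0 h1
  fin_cases i
  · simp [z]
  · simpa [z] using h0
  · simpa [z] using h1

lemma base_le {i : Fin 3} {a : F} (h : a ∈ base k x y i) : a ∈ chart k x y i := by
  change IsIntegral (base k x y i) a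
  exact isIntegral_algebraMap (R := base k x y i) (A := F) (x := ⟨a, h⟩)

lemma const_chart (i : Fin 3) (c : k) : algebraMap k F c ∈ chart k x y i :=
  base_le ((base k x y i).algebraMap_mem c)

lemma zz_chart (i j : Fin 3) : z x y j / z x y i ∈ chart k x y i :=
  base_le (Algebra.subset_adjoin ⟨j, rfl⟩)

/-- an ideal of a chart as a subspace -/
def PF {i : Fin 3} (P : Ideal (chart k x y i)) : Submodule k F where
  carrier := {a | ∃ h : a ∈ chart k x y i, (⟨a, h⟩ : chart k x y i) ∈ P}
  zero_mem' := ⟨zero_mem _, P.zero_mem⟩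
  add_mem' := by
    rintro a b ⟨ha, ha'⟩ ⟨hb, hb'⟩
    exact ⟨add_mem ha hb, P.add_mem ha' hb'⟩
  smul_mem' := by
    rintro c a ⟨ha, ha'⟩
    rw [Algebra.smul_def]
    exact ⟨mul_mem (const_chart i c) ha, P.mul_mem_left ⟨_, const_chart i c⟩ ha'⟩

lemma mem_PF {i : Fin 3} {P : Ideal (chart k x y i)} {a : F} :
    a ∈ PF P ↔ ∃ h : a ∈ chart k x y i, (⟨a, h⟩ : chart k x y i) ∈ P := Iff.rfl

/-- a prime of a chart over `f, g` which is minimal is maximal -/
lemma key (hHTO : Stmt_HTO) (hHCH : Stmt_HCH) (hDIM : Stmt_DIM) (hS : IsSurf k x y)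
    (d : ℕ) (f g : F) (hf : f ≠ 0) (hg : g ≠ 0)
    (hfg : ∀ O : PP k x y, ord O.1 f = - d * H k x y O ∨ ord O.1 g = - d * H k x y O)
    (i : Fin 3) (fi gi : chart k x y i) (hfi : (fi : F) = f / z x y i ^ d)
    (hgi : (gi : F) = g / z x y i ^ d) (P P' : Ideal (chart k x y i)) (hP : P.IsPrime)
    (hP' : P'.IsPrime) (h1 : fi ∈ P) (h2 : gi ∈ P) (h3 : P < P') : False := by
  have hz := z_ne hS i
  have hzd : z x y i ^ d ≠ 0 := pow_ne_zero _ hz
  have hfi0 : (fi : F) ≠ 0 := by
    rw [hfi]
    exact div_ne_zero hf hzd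
  have hgi0 : (gi : F) ≠ 0 := by
    rw [hgi]
    exact div_ne_zero hg hzd
  obtain ⟨O, hO, hO1, hO2⟩ := hHTO k F x y hS i P hP fi h1 (fun h => hfi0 (by rw [h]; rfl))
  have hH := ((hHCH k F x y hS O).2.2 i).1 hO
  have ordi : ∀ u : F, u ≠ 0 → ord O.1 (u / z x y i ^ d) = ord O.1 u + d * H k x y O := by
    intro u hu
    rw [div_eq_mul_inv, O.isOrd.mul _ _ hu (inv_ne_zero hzd), O.isOrd.inv hzd, O.isOrd.pow hz, hH]
    ring
  have hgq : gi ∉ tr O.1 _ hO := by
    rw [mem_tr _ _ _ _ hgi0, not_not, O.isOrd.mem _ (inv_ne_zero hgi0), O.isOrd.inv hgi0, hgi,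
      ordi g hg]
    rw [O.isOrd.mem _ (inv_ne_zero hfi0), O.isOrd.inv hfi0, hfi, ordi f hf] at hO1
    rcases hfg O with h | h
    · rw [h] at hO1
      exfalso
      apply hO1
      linarith
    · rw [h]
      linarith
  have hq : tr O.1 _ hO < P := by
    refine lt_of_le_of_ne ?_ ?_
    · intro a ha
      by_cases ha0 : a = 0
      · rw [ha0]
        exact P.zero_mem
      · have ha0' : (a : F) ≠ 0 := fun h => ha0 (Subtype.ext h)
        exact hO2 a ha0 ((mem_tr _ _ _ _ ha0').1 ha)
    · intro h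
      rw [h] at hgq
      exact hgq h2
  have hb : (⊥ : Ideal (chart k x y i)) < tr O.1 _ hO := by
    refine lt_of_le_of_ne bot_le ?_
    intro h
    have h4 : fi ∈ tr O.1 _ hO := (mem_tr _ _ _ _ hfi0).2 hO1
    rw [← h, Ideal.mem_bot] at h4
    exact hfi0 (by rw [h4]; rfl)
  apply hDIM k F x y hS i ![⊥, tr O.1 _ hO, P, P']
  · intro j
    fin_cases j
    · exact Ideal.isPrime_bot
    · exact tr_prime _ _ hO
    · exact hP
    · exact hP'
  · rw [Fin.strictMono_iff_lt_succ]
    intro j
    fin_cases j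
    · exact hb
    · exact hq
    · exact h3

end

end CPT_

open CPT_ in
theorem CPT_proof (hFIN : Stmt_FIN) (hHTO : Stmt_HTO) (hHCH : Stmt_HCH) (hSEC : Stmt_SEC)
    (hLIH : Stmt_LIH) (hDIM : Stmt_DIM) : Stmt_CPT := by
  classical
  intro k F _ _ _ _ x y hS d f g hd hf hg hfL hgL hfg
  have hz := z_ne hS
  have hfc := (hSEC k F x y hS d f).1 hfL
  have hgc := (hSEC k F x y hS d g).1 hgL
  let fi : ∀ i, chart k x y i := fun i => ⟨_, hfc i⟩
  let gi : ∀ i, chart k x y i := fun i => ⟨_, hgc i⟩
  let I : ∀ i, Ideal (chart k x y i) := fun i => Ideal.span {fi i, gi i}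
  have hnoe : ∀ i, IsNoetherianRing (chart k x y i) := fun i => (hFIN k F x y hS i).2.1
  have hfin : ∀ i, Finite ↥(I i).minimalPrimes := by
    intro i
    have := hnoe i
    exact (Ideal.finite_minimalPrimes_of_isNoetherianRing _ (I i)).to_subtype
  -- the subspaces
  let lc : Fin 3 → (Fin 3 → k) →ₗ[k] F := fun i =>
    Fintype.linearCombination k (fun j => z x y j / z x y i)
  let p : Option (Σ i, ↥(I i).minimalPrimes) → Submodule k (Fin 3 → k) := fun t =>
    match t with
    | none => LinearMap.ker (Fintype.linearCombination k (z x y))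
    | some t => (PF t.2.1).comap (lc t.1)
  have hne : ¬ (⋃ t, (p t : Set (Fin 3 → k)) = Set.univ) := by
    intro h
    obtain ⟨t, ht⟩ := Subspace.exists_eq_top_of_iUnion_eq_univ h
    match t, ht with
    | none, ht =>
      have h1 : (Pi.single 0 1 : Fin 3 → k) ∈ p none := by
        rw [ht]
        exact Submodule.mem_top
      have h2 : Fintype.linearCombination k (z x y) (Pi.single 0 1) = 0 := h1
      rw [Fintype.linearCombination_apply_single, one_smul] at h2
      exact hz 0 h2
    | some ⟨i, P⟩, ht =>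
      have h1 : (Pi.single i 1 : Fin 3 → k) ∈ p (some ⟨i, P⟩) := by
        rw [ht]
        exact Submodule.mem_top
      have h2 : lc i (Pi.single i 1) ∈ PF P.1 := h1
      change Fintype.linearCombination k (fun j => z x y j / z x y i) (Pi.single i 1) ∈ PF P.1 at h2
      rw [Fintype.linearCombination_apply_single, one_smul, div_self (hz i), mem_PF] at h2
      obtain ⟨h3, h4⟩ := h2
      exact P.2.1.1.ne_top ((Ideal.eq_top_iff_one _).2 h4)
  obtain ⟨c, hc⟩ := (Set.ne_univ_iff_exists_notMem _).1 hne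
  set l : F := Fintype.linearCombination k (z x y) c with hl
  have hl0 : l ≠ 0 := by
    intro h
    exact hc (Set.mem_iUnion.2 ⟨none, h⟩)
  have hlz : ∀ i, l / z x y i = lc i c := by
    intro i
    change Fintype.linearCombination k (z x y) c / z x y i =
      Fintype.linearCombination k (fun j => z x y j / z x y i) c
    rw [Fintype.linearCombination_apply, Fintype.linearCombination_apply, Finset.sum_div]
    exact Finset.sum_congr rfl fun j _ => smul_div_assoc _ _ _
  have hlc : ∀ i, l / z x y i ∈ chart k x y i := by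
    intro i
    rw [hlz]
    change Fintype.linearCombination k (fun j => z x y j / z x y i) c ∈ chart k x y i
    rw [Fintype.linearCombination_apply]
    apply sum_mem
    intro j _
    rw [Algebra.smul_def]
    exact mul_mem (const_chart i _) (zz_chart i j)
  have hlP : ∀ i, ∀ P ∈ (I i).minimalPrimes, (⟨_, hlc i⟩ : chart k x y i) ∉ P := by
    intro i P hP h
    apply hc
    refine Set.mem_iUnion.2 ⟨some ⟨i, ⟨P, hP⟩⟩, ?_⟩
    change lc i c ∈ PF P
    rw [← hlz]
    exact ⟨hlc i, h⟩
  have hθc : ∀ i, l ^ d / z x y i ^ d = (l / z x y i) ^ d := fun i => (div_pow _ _ _).symm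
  have hθ : l ^ d ∈ L k x y (fun O => d * H k x y O) := by
    rw [hSEC k F x y hS]
    intro i
    rw [hθc]
    exact pow_mem (hlc i) d
  -- the comaximality
  have hone : ∀ i, ∃ a b e : F, a ∈ chart k x y i ∧ b ∈ chart k x y i ∧ e ∈ chart k x y i ∧
      1 = a * (f / z x y i ^ d) + b * (g / z x y i ^ d) + e * (l ^ d / z x y i ^ d) := by
    intro i
    let li : chart k x y i := ⟨_, hlc i⟩
    have htop : Ideal.span ({fi i, gi i, li ^ d} : Set (chart k x y i)) = ⊤ := by
      by_contra hcon
      obtain ⟨P', hP', hle⟩ := Ideal.exists_le_maximal _ hcon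
      have hle2 : I i ≤ P' := by
        refine le_trans (Ideal.span_mono ?_) hle
        intro t ht
        simp only [Set.mem_insert_iff, Set.mem_singleton_iff] at ht ⊢
        tauto
      have := hP'.isPrime
      obtain ⟨P, hP, hPP'⟩ := Ideal.exists_minimalPrimes_le hle2
      have hlt : P < P' := by
        refine lt_of_le_of_ne hPP' ?_
        rintro rfl
        have h1 : li ^ d ∈ P := hle (Ideal.subset_span (by simp))
        exact hlP i P hP (hP.1.1.mem_of_pow_mem _ h1)
      have hPI : I i ≤ P := hP.1.2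
      exact key hHTO hHCH hDIM hS d f g hf hg hfg i (fi i) (gi i) rfl rfl P P' hP.1.1 this
        (hPI (Ideal.subset_span (by simp))) (hPI (Ideal.subset_span (by simp))) hlt
    have h1 : (1 : chart k x y i) ∈ Ideal.span ({fi i, gi i, li ^ d} : Set (chart k x y i)) := by
      rw [htop]
      exact Submodule.mem_top
    rw [Ideal.mem_span_insert] at h1
    obtain ⟨a, u, hu, h1⟩ := h1
    rw [Ideal.mem_span_insert] at hu
    obtain ⟨b, v, hv, rfl⟩ := hu
    rw [Ideal.mem_span_singleton'] at hv
    obtain ⟨e, rfl⟩ := hv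
    refine ⟨a, b, e, a.2, b.2, e.2, ?_⟩
    have h2 := congrArg Subtype.val h1
    rw [hθc]
    rw [add_assoc]
    exact h2
  choose a b e ha hb he hone using hone
  -- the exponent
  let α : Fin 3 → Fin 3 → F := fun i j => ![a i, b i, e i] j
  have hα : ∀ i j, α i j ∈ chart k x y i := by
    intro i j
    fin_cases j
    · exact ha i
    · exact hb i
    · exact he i
  choose M hM using fun i j => hLIH k F x y hS i (α i j) (hα i j)
  set N : ℕ := ∑ i, ∑ j, M i j with hN
  have hMN : ∀ i j, M i j ≤ N := by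
    intro i j
    refine le_trans (Finset.single_le_sum (f := fun j => M i j) (fun _ _ => Nat.zero_le _)
      (Finset.mem_univ j)) ?_
    exact Finset.single_le_sum (f := fun i => ∑ j, M i j) (fun _ _ => Nat.zero_le _)
      (Finset.mem_univ i)
  refine ⟨l ^ d, pow_ne_zero _ hl0, hθ, N, fun i j => α i j * z x y i ^ N,
    fun i j => hM i j N (hMN i j), fun i => ?_⟩
  change z x y i ^ (N + d) = a i * z x y i ^ N * f + b i * z x y i ^ N * g + e i * z x y i ^ N * l ^ d
  have h1 := hone i
  have h2 : z x y i ^ d ≠ 0 := pow_ne_zero _ (hz i)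
  have h3 : z x y i ^ d = a i * f + b i * g + e i * l ^ d := by
    field_simp at h1
    linear_combination h1
  rw [pow_add, h3]
  ring

end Pool.Agent.SRF
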