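import Pool.Agent.SRF.Stmts

set_option autoImplicit false
set_option linter.all false

noncomputable section

namespace Pool.Agent.SRF

namespace CRT_

variable (k : Type) {F : Type} [Field k] [Field F] [Algebra k F] (x y : F)

theorem H_nonneg (O : PP k x y) : 0 ≤ H k x y O := le_max_left _ _

theorem x_ne (hs : IsSurf k x y) : x ≠ 0 := by
  have := hs.indep.ne_zero (0 : Fin 2)
  simpa using this

theorem y_ne (hs : IsSurf k x y) : y ≠ 0 := by
  have := hs.indep.ne_zero (1 : Fin 2)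
  simpa using this

theorem finite_H (hSUP : Stmt_SUP) (hs : IsSurf k x y) : {O : PP k x y | H k x y O ≠ 0}.Finite := by
  have h1 := hSUP k F x y hs x (x_ne k x y hs)
  have h2 := hSUP k F x y hs y (y_ne k x y hs)
  refine (h1.union h2).subset ?_
  intro O hO
  by_contra hcon
  simp only [Set.mem_union, Set.mem_setOf_eq, not_or, not_not] at hcon
  apply hO
  simp [H, hcon.1, hcon.2]

theorem finite_sec (hSUP : Stmt_SUP) (hs : IsSurf k x y) (f : F) (hf : f ≠ 0) (a : ℤ) :
    {O : PP k x y | ord O.1 f + a * H k x y O ≠ 0}.Finite := by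
  have h1 := hSUP k F x y hs f hf
  have h2 := finite_H k x y hSUP hs
  refine (h1.union h2).subset ?_
  intro O hO
  by_contra hcon
  simp only [Set.mem_union, Set.mem_setOf_eq, not_or, not_not] at hcon
  apply hO
  simp [hcon.1, hcon.2]

end CRT_

open CRT_ in
theorem CRT_proof (hSUP : Stmt_SUP) (hHCH : Stmt_HCH) (hAVD : Stmt_AVD) (hCPT : Stmt_CPT) :
    Stmt_CRT := by
  classical
  intro k F _ _ _ _ x y hs O
  let δ : PP k x y → ℤ := fun O' => if O' = O then 1 else 0
  have hδ : {O' | δ O' ≠ 0}.Finite := by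
    refine (Set.finite_singleton O).subset ?_
    intro O' h
    by_contra hc
    exact h (if_neg hc)
  have hδ0 : ∀ O', 0 ≤ δ O' := fun O' => by
    by_cases h : O' = O <;> simp [δ, h]
  have hδO : δ O = 1 := if_pos rfl
  have hδn : ∀ O', O' ≠ O → δ O' = 0 := fun O' h => if_neg h
  have Hn : ∀ O', 0 ≤ H k x y O' := H_nonneg k x y
  -- one step
  have step : ∀ T : Set (PP k x y), T.Finite →
      ∃ (a b : ℕ) (π u : F), 0 < b ∧ π ∈ L k x y (fun O => a * H k x y O) ∧
        u ∈ L k x y (fun O => b * H k x y O) ∧ π ≠ 0 ∧ u ≠ 0 ∧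
        ord O.1 π = 1 - a * H k x y O ∧ ord O.1 u = - b * H k x y O ∧
        (∀ O' : PP k x y, O' ≠ O →
          ord O'.1 π + a * H k x y O' ≤ ord O'.1 u + b * H k x y O') ∧
        ∀ O' ∈ T, ord O'.1 u = - b * H k x y O' := by
    intro T hT
    obtain ⟨a, ha⟩ := hAVD k F x y hs δ hδ (insert O T) (hT.insert O)
    obtain ⟨π, hπ0, hπL, hπT⟩ := ha a le_rfl
    have hπL' : ∀ O', - ((a : ℤ) * H k x y O' - δ O') ≤ ord O'.1 π := fun O' =>
      hπL.resolve_left hπ0 O'
    let D : PP k x y → ℤ := fun O' => if O' = O then 0 else ord O'.1 π + a * H k x y O'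
    have hDO : D O = 0 := if_pos rfl
    have hDn : ∀ O', O' ≠ O → D O' = ord O'.1 π + a * H k x y O' := fun O' h => if_neg h
    have hD0 : ∀ O', 0 ≤ D O' := by
      intro O'
      by_cases h : O' = O
      · rw [h, hDO]
      · rw [hDn O' h]
        have := hπL' O'
        rw [hδn O' h] at this
        linarith
    have hDfin : {O' | D O' ≠ 0}.Finite := by
      refine (finite_sec k x y hSUP hs π hπ0 a).subset ?_
      intro O' h
      by_cases h1 : O' = O
      · rw [h1] at h; exact absurd hDO h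
      · intro h2
        exact h ((hDn O' h1).trans h2)
    obtain ⟨b, hb⟩ := hAVD k F x y hs D hDfin (insert O T) (hT.insert O)
    obtain ⟨u, hu0, huL, huT⟩ := hb (b + 1) (Nat.le_succ b)
    have huL' : ∀ O', - (((b + 1 : ℕ) : ℤ) * H k x y O' - D O') ≤ ord O'.1 u := fun O' =>
      huL.resolve_left hu0 O'
    refine ⟨a, b + 1, π, u, Nat.succ_pos b, Or.inr fun O' => ?_, Or.inr fun O' => ?_, hπ0, hu0,
      ?_, ?_, ?_, ?_⟩
    · have h1 := hπL' O'
      have h2 := hδ0 O'
      linarith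
    · have h1 := huL' O'
      have h2 := hD0 O'
      linarith
    · rw [hπT O (Set.mem_insert _ _), hδO]
    · rw [huT O (Set.mem_insert _ _), hDO]; ring
    · intro O' hO'
      have h1 := huL' O'
      rw [hDn O' hO'] at h1
      linarith
    · intro O' hO'
      by_cases h : O' = O
      · rw [h, huT O (Set.mem_insert _ _), hDO]; ring
      · have h1 := huT O' (Set.mem_insert_of_mem _ hO')
        have h2 := hπT O' (Set.mem_insert_of_mem _ hO')
        rw [hδn O' h] at h2
        rw [h1, hDn O' h, h2]; ring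
  obtain ⟨a₀, b₀, π₀, u₀, hb₀, hπ₀L, hu₀L, hπ₀0, hu₀0, hπ₀O, hu₀O, hle₀, -⟩ :=
    step ∅ Set.finite_empty
  obtain ⟨a₁, b₁, π₁, u₁, hb₁, hπ₁L, hu₁L, hπ₁0, hu₁0, hπ₁O, hu₁O, hle₁, hT₁⟩ :=
    step _ (finite_sec k x y hSUP hs u₀ hu₀0 b₀)
  have hpow : ∀ (u : F) (b c : ℕ), u ≠ 0 → u ∈ L k x y (fun O => b * H k x y O) →
      u ^ c ∈ L k x y (fun O => ((b * c : ℕ) : ℤ) * H k x y O) := by
    intro u b c hu hL
    refine Or.inr fun O' => ?_
    rw [O'.isOrd.pow hu]
    have h1 := hL.resolve_left hu O'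
    have h2 : (c : ℤ) * (-(b * H k x y O')) ≤ c * ord O'.1 u :=
      mul_le_mul_of_nonneg_left h1 (by positivity)
    push_cast
    linarith
  obtain ⟨θ, hθ0, hθL, M, α, hα, hz⟩ := hCPT k F x y hs (b₀ * b₁) (u₀ ^ b₁) (u₁ ^ b₀)
    (Nat.mul_pos hb₀ hb₁) (pow_ne_zero _ hu₀0) (pow_ne_zero _ hu₁0)
    (hpow u₀ b₀ b₁ hu₀0 hu₀L)
    (by
      have := hpow u₁ b₁ b₀ hu₁0 hu₁L
      rw [mul_comm b₁ b₀] at this
      exact this)
    (by
      intro O'
      by_cases h : ord O'.1 u₀ + b₀ * H k x y O' = 0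
      · left
        rw [O'.isOrd.pow hu₀0]
        have : ord O'.1 u₀ = - (b₀ * H k x y O') := by linarith
        rw [this]; push_cast; ring
      · right
        have h1 := hT₁ O' h
        rw [O'.isOrd.pow hu₁0, h1]; push_cast; ring)
  refine ⟨![a₀, a₁], ![b₀, b₁], ![π₀, π₁], ![u₀, u₁], θ, ?_, ?_, ?_, hθL, ?_, ?_, hθ0, ?_, ?_, ?_,
    M, α, hα, hz⟩
  · intro j; fin_cases j
    · exact hb₀
    · exact hb₁
  · intro j; fin_cases j
    · exact hπ₀L
    · exact hπ₁L
  · intro j; fin_cases j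
    · exact hu₀L
    · exact hu₁L
  · intro j; fin_cases j
    · exact hπ₀0
    · exact hπ₁0
  · intro j; fin_cases j
    · exact hu₀0
    · exact hu₁0
  · intro j; fin_cases j
    · exact hπ₀O
    · exact hπ₁O
  · intro j; fin_cases j
    · exact hu₀O
    · exact hu₁O
  · intro j; fin_cases j
    · exact hle₀
    · exact hle₁

end Pool.Agent.SRF
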