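import Pool.Agent.SRF.Stmts

/-!
# SRF.DIM: the charts have dimension two
-/

set_option autoImplicit false

noncomputable section

namespace Pool.Agent.SRF

namespace DIM_

theorem poly (k : Type) [Field k] (P : Fin 4 → PrimeSpectrum (MvPolynomial (Fin 2) k)) :
    ¬ StrictMono P := by
  intro h
  have h1 : ringKrullDim (MvPolynomial (Fin 2) k) = 2 := by
    rw [MvPolynomial.ringKrullDim_of_isNoetherianRing, ringKrullDim_eq_zero_of_field]
    simp
  have h2 := Order.LTSeries.length_le_krullDim (LTSeries.mk 3 P h)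
  have h3 : ((3 : ℕ) : WithBot ℕ∞) ≤ 2 := by
    rw [← h1]; exact h2
  have h4 : ((3 : ℕ) : WithBot ℕ∞) ≤ ((2 : ℕ) : WithBot ℕ∞) := h3
  rw [Nat.cast_le] at h4
  omega

section

variable (k : Type) {F : Type} [Field k] [Field F] [Algebra k F] (x y : F)

/-- The inclusion of the base in the chart. -/
def inc (i : Fin 3) : base k x y i →+* chart k x y i :=
  (algebraMap (base k x y i) F).codRestrict (chart k x y i) fun b => by
    change IsIntegral (base k x y i) (algebraMap (base k x y i) F b)
    exact isIntegral_algebraMap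

theorem inc_isIntegral (i : Fin 3) : (inc k x y i).IsIntegral := by
  rintro ⟨a, ha⟩
  have ha' : IsIntegral (base k x y i) a := ha
  obtain ⟨p, hp, hpa⟩ := ha'
  refine ⟨p, hp, ?_⟩
  apply Subtype.coe_injective
  have h := Polynomial.hom_eval₂ p (inc k x y i) (chart k x y i).subtype ⟨a, ha⟩
  have h' : (chart k x y i).subtype (Polynomial.eval₂ (inc k x y i) ⟨a, ha⟩ p) = 0 := by
    rw [h]
    exact hpa
  exact h'

end

end DIM_

theorem DIM_proof (hBAS : Stmt_BAS) (_hFIN : Stmt_FIN) : Stmt_DIM := by
  intro k F _ _ _ x y hS i P hP hmono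
  obtain ⟨⟨e⟩, -⟩ := hBAS k F x y hS i
  let _ : Algebra (base k x y i) (chart k x y i) := (DIM_.inc k x y i).toAlgebra
  have : Algebra.IsIntegral (base k x y i) (chart k x y i) := ⟨DIM_.inc_isIntegral k x y i⟩
  let Q : Fin 4 → PrimeSpectrum (MvPolynomial (Fin 2) k) := fun j =>
    ⟨((P j).comap (algebraMap (base k x y i) (chart k x y i))).comap e.toRingHom, by
      have := hP j
      have h1 : ((P j).comap (algebraMap (base k x y i) (chart k x y i))).IsPrime :=
        Ideal.comap_isPrime _ _
      exact Ideal.comap_isPrime _ _⟩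
  apply DIM_.poly k Q
  intro a b hab
  have h1 := hmono hab
  have := hP a
  have h2 := Ideal.IsIntegral.comap_lt_comap (R := base k x y i) h1
  show (Q a).asIdeal < (Q b).asIdeal
  refine lt_of_le_of_ne (Ideal.comap_mono h2.le) ?_
  intro h3
  apply h2.ne
  apply le_antisymm h2.le
  intro f hf
  have h4 : e.symm f ∈ (Q b).asIdeal := by
    show e (e.symm f) ∈ (P b).comap (algebraMap (base k x y i) (chart k x y i))
    rw [AlgEquiv.apply_symm_apply]
    exact hf
  rw [← h3] at h4
  have h5 : e (e.symm f) ∈ (P a).comap (algebraMap (base k x y i) (chart k x y i)) := h4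
  rwa [AlgEquiv.apply_symm_apply] at h5

end Pool.Agent.SRF
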