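import Pool.Agent.SRF.Stmts

/-!
Module DIS of squad SRF: disjoint prime divisors, a certificate.
-/

set_option autoImplicit false

noncomputable section

namespace Pool.Agent.SRF

namespace DIS_

section
variable {k F : Type} [Field k] [Field F] [Algebra k F] {x y : F}

lemma z_ne (h : IsSurf k x y) (i : Fin 3) : z x y i ≠ 0 := by
  have hx : x ≠ 0 := h.indep.ne_zero 0
  have hy : y ≠ 0 := h.indep.ne_zero 1
  fin_cases i
  · exact one_ne_zero
  · exact hx
  · exact hy

lemma const_mem_chart (i : Fin 3) (c : k) : algebraMap k F c ∈ chart k x y i := by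
  change IsIntegral (base k x y i) (algebraMap k F c)
  exact isIntegral_algebraMap (R := base k x y i) (A := F)
    (x := ⟨algebraMap k F c, (base k x y i).algebraMap_mem c⟩)

/-- the trace of a valuation ring on a subring -/
def tr (R : Subring F) (O : ValuationSubring F) (h : R ≤ O.toSubring) : Ideal R where
  carrier := {a | (a : F) ∈ O.nonunits}
  add_mem' := fun {a b} ha hb => O.nonunits.add_mem ha hb
  zero_mem' := O.nonunits.zero_mem
  smul_mem' := by
    intro r a ha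
    have h1 : O.valuation (r : F) ≤ 1 := (O.valuation_le_one_iff _).2 (h r.2)
    have h2 : O.valuation (a : F) < 1 := ha
    show O.valuation ((r : F) * (a : F)) < 1
    rw [map_mul]
    exact lt_of_le_of_lt (mul_le_of_le_one_left' h1) h2

lemma mem_tr {R : Subring F} {O : ValuationSubring F} {h : R ≤ O.toSubring} {a : R} :
    a ∈ tr R O h ↔ (a : F) ∈ O.nonunits := Iff.rfl

lemma z_pow_mem (hHCH : Stmt_HCH) (h : IsSurf k x y) (i : Fin 3) (m : ℕ) :
    z x y i ^ m ∈ L k x y (fun O => m * H k x y O) := by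
  rw [mem_L]
  right
  intro O
  rw [O.isOrd.pow (z_ne h i)]
  have h1 := (hHCH k F x y h O).2.1 i
  have h2 : 0 ≤ (m : ℤ) * (ord O.1 (z x y i) + H k x y O) := mul_nonneg (by positivity) h1
  linarith

lemma z_pow_ord (hHCH : Stmt_HCH) (h : IsSurf k x y) (i : Fin 3) (m : ℕ) (hm : 1 ≤ m)
    (O : PP k x y) (hO : ¬ chart k x y i ≤ O.1.toSubring) :
    1 ≤ ord O.1 (z x y i ^ m) + m * H k x y O := by
  rw [O.isOrd.pow (z_ne h i)]
  have h1 := (hHCH k F x y h O).2.1 i
  have h2 := (hHCH k F x y h O).2.2 i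
  have h3 : ord O.1 (z x y i) + H k x y O ≠ 0 := by
    intro h3
    exact hO (h2.2 (by linarith))
  have h4 : 1 ≤ ord O.1 (z x y i) + H k x y O := by omega
  have h5 : (1 : ℤ) ≤ m := by exact_mod_cast hm
  have h6 : 0 ≤ ((m : ℤ) - 1) * (ord O.1 (z x y i) + H k x y O) :=
    mul_nonneg (by linarith) h1
  have h7 : (m : ℤ) * ord O.1 (z x y i) + m * H k x y O =
      ((m : ℤ) - 1) * (ord O.1 (z x y i) + H k x y O) + (ord O.1 (z x y i) + H k x y O) := by ring
  rw [h7]
  linarith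

lemma tr_ord (hHCH : Stmt_HCH) (h : IsSurf k x y) (i : Fin 3) (m : ℕ)
    (O : PP k x y) (hO : chart k x y i ≤ O.1.toSubring) (a : F) (ha : a ∈ O.1.nonunits) :
    a * z x y i ^ m = 0 ∨ 1 ≤ ord O.1 (a * z x y i ^ m) + m * H k x y O := by
  by_cases ha0 : a = 0
  · left
    rw [ha0, zero_mul]
  right
  have h1 := (O.1.mem_nonunits_iff_or.1 ha).resolve_left ha0
  rw [O.isOrd.mem _ (inv_ne_zero ha0), O.isOrd.inv ha0] at h1
  rw [O.isOrd.mul _ _ ha0 (pow_ne_zero m (z_ne h i)), O.isOrd.pow (z_ne h i)]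
  have h2 := ((hHCH k F x y h O).2.2 i).1 hO
  rw [h2]
  have h3 : ord O.1 a + (m : ℤ) * ord O.1 (z x y i) + m * -ord O.1 (z x y i) = ord O.1 a := by ring
  rw [h3]
  omega

end

end DIS_

open DIS_ in
theorem DIS_proof (_hCEN : Stmt_CEN) (_hLOC : Stmt_LOC) (hHCH : Stmt_HCH) (hLIH : Stmt_LIH) :
    Stmt_DIS := by
  intro k F _ _ _ x y h O O' hV
  have key : ∀ l : Fin 3, ∃ M : ℕ, ∀ m : ℕ, M ≤ m → ∃ α β : F,
      α ∈ L k x y (fun O => m * H k x y O) ∧ β ∈ L k x y (fun O => m * H k x y O) ∧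
      (α = 0 ∨ 1 ≤ ord O.1 α + m * H k x y O) ∧ (β = 0 ∨ 1 ≤ ord O'.1 β + m * H k x y O') ∧
      z x y l ^ m = α + β := by
    intro l
    by_cases hO : chart k x y l ≤ O.1.toSubring
    · by_cases hO' : chart k x y l ≤ O'.1.toSubring
      · -- both contain the chart
        have htop : tr (chart k x y l) O.1 hO ⊔ tr (chart k x y l) O'.1 hO' = ⊤ := by
          by_contra hne
          obtain ⟨V, hRV, hIV⟩ := Ideal.image_subset_nonunits_valuationSubring _ hne
          refine hV V (fun c => hRV (const_mem_chart l c)) ⟨⟨l, hRV, hO, ?_⟩, ⟨l, hRV, hO', ?_⟩⟩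
          · intro a ha ha0 hinv
            have h1 : (⟨a, ha⟩ : chart k x y l) ∈ tr (chart k x y l) O.1 hO :=
              O.1.mem_nonunits_iff_or.2 (Or.inr hinv)
            have h2 : a ∈ V.nonunits := hIV ⟨⟨a, ha⟩, Ideal.mem_sup_left h1, rfl⟩
            exact (V.mem_nonunits_iff_or.1 h2).resolve_left ha0
          · intro a ha ha0 hinv
            have h1 : (⟨a, ha⟩ : chart k x y l) ∈ tr (chart k x y l) O'.1 hO' :=
              O'.1.mem_nonunits_iff_or.2 (Or.inr hinv)
            have h2 : a ∈ V.nonunits := hIV ⟨⟨a, ha⟩, Ideal.mem_sup_right h1, rfl⟩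
            exact (V.mem_nonunits_iff_or.1 h2).resolve_left ha0
        have h1 : (1 : chart k x y l) ∈ tr (chart k x y l) O.1 hO ⊔ tr (chart k x y l) O'.1 hO' := by
          rw [htop]
          exact Submodule.mem_top
        obtain ⟨a, ha, b, hb, hab⟩ := Submodule.mem_sup.1 h1
        have hab' : (a : F) + (b : F) = 1 := congrArg Subtype.val hab
        obtain ⟨M1, hM1⟩ := hLIH k F x y h l a a.2
        obtain ⟨M2, hM2⟩ := hLIH k F x y h l b b.2
        refine ⟨M1 + M2, fun m hm => ⟨a * z x y l ^ m, b * z x y l ^ m, hM1 m (by omega),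
          hM2 m (by omega), tr_ord hHCH h l m O hO a ha, tr_ord hHCH h l m O' hO' b hb, ?_⟩⟩
        rw [← add_mul, hab', one_mul]
      · refine ⟨1, fun m hm => ⟨0, z x y l ^ m, Submodule.zero_mem _, z_pow_mem hHCH h l m, Or.inl rfl,
          Or.inr (z_pow_ord hHCH h l m hm O' hO'), by rw [zero_add]⟩⟩
    · refine ⟨1, fun m hm => ⟨z x y l ^ m, 0, z_pow_mem hHCH h l m, Submodule.zero_mem _,
        Or.inr (z_pow_ord hHCH h l m hm O hO), Or.inl rfl, by rw [add_zero]⟩⟩
  choose M hM using key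
  obtain ⟨N, hN⟩ : ∃ N : ℕ, ∀ l, M l ≤ N := ⟨∑ l, M l, fun l =>
    Finset.single_le_sum (f := M) (fun _ _ => Nat.zero_le _) (Finset.mem_univ l)⟩
  choose α β h1 h2 h3 h4 h5 using fun l => hM l N (hN l)
  exact ⟨N, α, β, h1, h2, h3, h4, h5⟩

end Pool.Agent.SRF
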