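import Pool.Agent.SRF.Stmts

/-!
# SRF, module FCH: the charts are finite over their `p`-th powers
-/

set_option autoImplicit false

noncomputable section

namespace Pool.Agent.SRF

namespace FCH_

/-- a ring of characteristic `p` which is a finite module over an algebra of finite type over a
perfect field is finite over its `p`-th powers -/
theorem finite_pow {p : ℕ} [Fact p.Prime] {R : Type} [CommRing R] [CharP R p] (T : Finset R)
    (hT : Algebra.adjoin (frobenius R p).range (T : Set R) = ⊤) :
    ∃ Y : Finset R, ∀ r : R, ∃ s : R → R, r = ∑ y ∈ Y, s y ^ p * y := by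
  have h1 : Algebra.FiniteType (frobenius R p).range R := ⟨⟨T, hT⟩⟩
  have h2 : Algebra.IsIntegral (frobenius R p).range R := by
    constructor
    intro r
    refine IsIntegral.of_pow (n := p) (Fact.out : p.Prime).pos ?_
    exact isIntegral_algebraMap (R := (frobenius R p).range) (A := R) (x := ⟨r ^ p, ⟨r, rfl⟩⟩)
  have h3 : Module.Finite (frobenius R p).range R := Algebra.IsIntegral.finite
  obtain ⟨Y, hY⟩ := Module.Finite.fg_top (R := (frobenius R p).range) (M := R)
  refine ⟨Y, fun r => ?_⟩
  have h4 : r ∈ Submodule.span (frobenius R p).range (Y : Set R) := by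
    rw [hY]
    trivial
  obtain ⟨c, -, hc⟩ := Submodule.mem_span_finset.1 h4
  have h5 : ∀ y, ∃ t : R, t ^ p = (c y : R) := fun y => (c y).2
  choose t ht using h5
  refine ⟨t, ?_⟩
  rw [← hc]
  refine Finset.sum_congr rfl fun y _ => ?_
  rw [ht]
  rfl

end FCH_

open FCH_

theorem FCH_proof (_hBAS : Stmt_BAS) (hFIN : Stmt_FIN) (hFRA : Stmt_FRA) : Stmt_FCH := by
  classical
  intro p _ k F _ _ _ _ x y hk hS i
  have hbc : ∀ b ∈ base k x y i, b ∈ chart k x y i := fun b hb =>
    isIntegral_algebraMap (R := base k x y i) (A := F) (x := ⟨b, hb⟩)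
  refine ⟨fun f => ?_, ?_⟩
  · obtain ⟨a, ha, b, hb, hb0, h⟩ := hFRA k F x y hS i f
    exact ⟨a, ha, b, hbc b hb, hb0, h⟩
  obtain ⟨hfin, -, -⟩ := hFIN k F x y hS i
  have hcF : CharP F p := charP_of_injective_algebraMap (algebraMap k F).injective p
  have hcR : CharP (chart k x y i) p :=
    (chart k x y i).subtype.charP Subtype.val_injective p
  obtain ⟨W, hW⟩ := Module.Finite.fg_top (R := base k x y i) (M := integralClosure (base k x y i) F)
  let T : Finset (chart k x y i) :=
    (Finset.univ.image fun j : Fin 3 => (⟨z x y j / z x y i,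
      hbc _ (Algebra.subset_adjoin ⟨j, rfl⟩)⟩ : chart k x y i)) ∪
    W.image fun w => (⟨w.1, w.2⟩ : chart k x y i)
  let S := Algebra.adjoin (frobenius (chart k x y i) p).range (T : Set (chart k x y i))
  have hB : ∀ b ∈ base k x y i, ∀ hb : b ∈ chart k x y i, (⟨b, hb⟩ : chart k x y i) ∈ S := by
    intro b hb
    induction hb using Algebra.adjoin_induction with
    | mem b h =>
      intro hb
      obtain ⟨j, rfl⟩ := h
      refine Algebra.subset_adjoin ?_
      rw [Finset.mem_coe]
      exact Finset.mem_union_left _ (Finset.mem_image.2 ⟨j, Finset.mem_univ j, rfl⟩)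
    | algebraMap c =>
      intro hb
      obtain ⟨c', rfl⟩ := hk c
      have h1 : (⟨algebraMap k F (c' ^ p), hb⟩ : chart k x y i) =
          (⟨algebraMap k F c', hbc _ ((base k x y i).algebraMap_mem c')⟩ : chart k x y i) ^ p := by
        apply Subtype.ext
        show algebraMap k F (c' ^ p) = (algebraMap k F c') ^ p
        rw [map_pow]
      rw [h1]
      exact S.algebraMap_mem (⟨_, ⟨_, rfl⟩⟩ : (frobenius (chart k x y i) p).range)
    | add a b ha hb iha ihb =>
      intro hab
      exact S.add_mem (iha (hbc a ha)) (ihb (hbc b hb))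
    | mul a b ha hb iha ihb =>
      intro hab
      exact S.mul_mem (iha (hbc a ha)) (ihb (hbc b hb))
  have hT : S = ⊤ := by
    rw [eq_top_iff]
    rintro ⟨r, hr⟩ -
    have h4 : (⟨r, hr⟩ : integralClosure (base k x y i) F) ∈
        Submodule.span (base k x y i) (W : Set (integralClosure (base k x y i) F)) := by
      rw [hW]
      trivial
    obtain ⟨c, -, hc⟩ := Submodule.mem_span_finset.1 h4
    have h5 : (⟨r, hr⟩ : chart k x y i) = ∑ w ∈ W,
        (⟨(c w : F), hbc _ (c w).2⟩ : chart k x y i) * (⟨w.1, w.2⟩ : chart k x y i) := by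
      apply Subtype.ext
      have h6 := congrArg Subtype.val hc
      rw [AddSubmonoidClass.coe_finsetSum] at h6
      rw [AddSubmonoidClass.coe_finsetSum]
      exact h6.symm
    rw [h5]
    refine S.sum_mem fun w hw => S.mul_mem (hB _ (c w).2 _) (Algebra.subset_adjoin ?_)
    rw [Finset.mem_coe]
    exact Finset.mem_union_right _ (Finset.mem_image.2 ⟨w, hw, rfl⟩)
  obtain ⟨Y, hY⟩ := finite_pow T hT
  refine ⟨Y.image Subtype.val, ?_, ?_⟩
  · intro f hf
    obtain ⟨g, -, rfl⟩ := Finset.mem_image.1 hf
    exact g.2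
  · intro r hr
    obtain ⟨s, hs⟩ := hY ⟨r, hr⟩
    refine ⟨fun f => if h : f ∈ chart k x y i then (s ⟨f, h⟩ : F) else 0, ?_, ?_⟩
    · intro f hf
      dsimp only
      split_ifs with h
      · exact (s ⟨f, h⟩).2
      · exact zero_mem _
    · rw [Finset.sum_image (fun a _ b _ h => Subtype.ext h)]
      have h6 := congrArg Subtype.val hs
      rw [AddSubmonoidClass.coe_finsetSum] at h6
      refine Eq.trans h6 (Finset.sum_congr rfl fun y _ => ?_)
      have h7 : (fun f => if h : f ∈ chart k x _ i then (s ⟨f, h⟩ : F) else 0) (y : F) =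
          (s y : F) := dif_pos y.2
      rw [h7]
      rfl

end Pool.Agent.SRF
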