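import Pool.Agent.SRF.Stmts

/-!
# Rational sections over a finite field
-/

set_option autoImplicit false

noncomputable section

namespace Pool.Agent.SRF

namespace FQ_

section

variable {F : Type} [Field F]

theorem pow_succ_apply (σ : F ≃+* F) (j : ℕ) (f : F) : (σ ^ (j + 1)) f = σ ((σ ^ j) f) := by
  rw [pow_succ']; rfl

theorem pow_succ_apply' (σ : F ≃+* F) (j : ℕ) (f : F) : (σ ^ (j + 1)) f = (σ ^ j) (σ f) := by
  rw [pow_succ]; rfl

theorem pow_zero_apply (σ : F ≃+* F) (f : F) : (σ ^ 0) f = f := rfl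

theorem pow_mem' (σ : F ≃+* F) (X : Set F) (hX : ∀ f ∈ X, σ f ∈ X) :
    ∀ (j : ℕ), ∀ f ∈ X, (σ ^ j) f ∈ X := by
  intro j
  induction j with
  | zero => intro f hf; exact hf
  | succ j ih => intro f hf; rw [pow_succ_apply]; exact hX _ (ih f hf)

/-- A set mapped into itself by an automorphism of locally finite order. -/
theorem mem_iff (σ : F ≃+* F) (hfin : ∀ f : F, ∃ m : ℕ, 0 < m ∧ (σ ^ m) f = f) (X : Set F)
    (hX : ∀ f ∈ X, σ f ∈ X) (f : F) : σ f ∈ X ↔ f ∈ X := by
  refine ⟨?_, hX f⟩
  intro hf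
  obtain ⟨m, hm, h⟩ := hfin f
  obtain ⟨j, rfl⟩ : ∃ j, m = j + 1 := ⟨m - 1, by omega⟩
  rw [pow_succ_apply'] at h
  rw [← h]
  exact pow_mem' σ X hX j _ hf

end

section

variable {k F : Type} [Field k] [Field F] [Algebra k F]

theorem chart_mem (x y : F) (σ : F ≃+* F) (e : k → k)
    (hσ : ∀ c : k, σ (algebraMap k F c) = algebraMap k F (e c)) (hx : σ x = x) (hy : σ y = y)
    (i : Fin 3) : ∀ f ∈ chart k x y i, σ f ∈ chart k x y i := by
  have hz : ∀ j, σ (z x y j) = z x y j := by
    intro j
    fin_cases j <;> simp [z, hx, hy]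
  have hb : ∀ f ∈ base k x y i, σ f ∈ base k x y i := by
    intro f hf
    refine Algebra.adjoin_induction (p := fun f _ => σ f ∈ base k x y i) ?_ ?_ ?_ ?_ hf
    · rintro _ ⟨j, rfl⟩
      rw [map_div₀, hz, hz]
      exact Algebra.subset_adjoin ⟨j, rfl⟩
    · intro c
      rw [hσ]
      exact (base k x y i).algebraMap_mem _
    · intro a b _ _ ha hb
      rw [map_add]
      exact add_mem ha hb
    · intro a b _ _ ha hb
      rw [map_mul]
      exact mul_mem ha hb
  intro f hf
  let φ : base k x y i →+* base k x y i :=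
    { toFun := fun a => ⟨σ a, hb a a.2⟩
      map_one' := Subtype.ext (map_one σ)
      map_mul' := fun a b => Subtype.ext (map_mul σ _ _)
      map_zero' := Subtype.ext (map_zero σ)
      map_add' := fun a b => Subtype.ext (map_add σ _ _) }
  exact IsIntegral.map_of_comp_eq φ (σ : F →+* F) (by ext; rfl) hf

theorem mem_comap' (O : ValuationSubring F) (σ : F ≃+* F) (f : F) :
    f ∈ O.comap (σ : F →+* F) ↔ σ f ∈ O := Iff.rfl

theorem isPD_comap (x y : F) (σ : F ≃+* F)
    (hc : ∀ i f, σ f ∈ chart k x y i ↔ f ∈ chart k x y i) (O : ValuationSubring F)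
    (h : IsPD k x y O) : IsPD k x y (O.comap (σ : F →+* F)) := by
  obtain ⟨hO, i, hi, hl⟩ := h
  have hO' := hO
  have hsymm : ∀ f ∈ chart k x y i, σ.symm f ∈ chart k x y i := by
    intro f hf
    rw [← hc i, σ.apply_symm_apply]
    exact hf
  refine ⟨?_, i, ?_, ?_⟩
  · let eq : O ≃+* (O.comap (σ : F →+* F)) :=
      { toFun := fun a => ⟨σ.symm a, (mem_comap' O σ _).mpr (by
          rw [σ.apply_symm_apply]; exact a.2)⟩
        invFun := fun a => ⟨σ a, a.2⟩
        left_inv := fun a => Subtype.ext (σ.apply_symm_apply _)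
        right_inv := fun a => Subtype.ext (σ.symm_apply_apply _)
        map_mul' := fun a b => Subtype.ext (map_mul σ.symm _ _)
        map_add' := fun a b => Subtype.ext (map_add σ.symm _ _) }
    exact IsDiscreteValuationRing.RingEquivClass.isDiscreteValuationRing eq
  · intro f hf
    exact hi ((hc i f).mpr hf)
  · intro f hf
    obtain ⟨a, ha, b, hb, hb0, hb1, h⟩ := hl (σ f) hf
    refine ⟨σ.symm a, hsymm a ha, σ.symm b, hsymm b hb, ?_, ?_, ?_⟩
    · intro h0
      apply hb0
      rw [← σ.apply_symm_apply b, h0, map_zero]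
    · rw [mem_comap', map_inv₀, σ.apply_symm_apply]
      exact hb1
    · apply σ.injective
      rw [map_div₀, σ.apply_symm_apply, σ.apply_symm_apply]
      exact h

theorem ord_comap (x y : F) (σ : F ≃+* F) (O : ValuationSubring F) (h : IsPD k x y O)
    (h' : IsPD k x y (O.comap (σ : F →+* F))) (f : F) :
    ord (O.comap (σ : F →+* F)) f = ord O (σ f) := by
  have h1 : IsOrd (O.comap (σ : F →+* F)) (ord (O.comap (σ : F →+* F))) := isOrd_ord h'.1
  have h0 : IsOrd O (ord O) := isOrd_ord h.1
  have hne : ∀ f : F, f ≠ 0 → σ f ≠ 0 := fun f hf => by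
    rw [Ne, map_eq_zero_iff σ σ.injective]; exact hf
  have h2 : IsOrd (O.comap (σ : F →+* F)) (fun f => ord O (σ f)) := by
    refine ⟨?_, ?_, ?_, ?_⟩
    · intro f g hf hg
      rw [map_mul, h0.mul _ _ (hne f hf) (hne g hg)]
    · intro f hf
      exact h0.mem _ (hne f hf)
    · obtain ⟨f, hf, hf1⟩ := h0.unif
      refine ⟨σ.symm f, ?_, ?_⟩
      · intro h3
        apply hf
        rw [← σ.apply_symm_apply f, h3, map_zero]
      · rw [σ.apply_symm_apply, hf1]
    · rw [map_zero, h0.zero]
  exact congrFun (h1.unique h2) f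

/-- The trace of `O` on the chart, as an ideal. -/
def tr (x y : F) (i : Fin 3) (O : ValuationSubring F) (hi : chart k x y i ≤ O.toSubring) :
    Ideal (chart k x y i) :=
  (IsLocalRing.maximalIdeal O).comap (Subring.inclusion hi)

theorem mem_tr (x y : F) (i : Fin 3) (O : ValuationSubring F) (hi : chart k x y i ≤ O.toSubring)
    (a : chart k x y i) : a ∈ tr x y i O hi ↔ ((a : F) = 0 ∨ ((a : F))⁻¹ ∉ O) := by
  have h0 : a ∈ tr x y i O hi ↔ ¬ IsUnit (⟨a, hi a.2⟩ : O) := Iff.rfl
  rw [h0]
  constructor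
  · intro h
    by_contra hcon
    push Not at hcon
    apply h
    exact IsUnit.of_mul_eq_one (⟨((a : F))⁻¹, hcon.2⟩ : O)
      (Subtype.ext (mul_inv_cancel₀ hcon.1))
  · intro h hu
    obtain ⟨b, hb⟩ := hu.exists_right_inv
    have hb' : (a : F) * (b : F) = 1 := congrArg Subtype.val hb
    rcases h with h | h
    · rw [h, zero_mul] at hb'
      exact zero_ne_one hb'
    · apply h
      rw [inv_eq_of_mul_eq_one_right hb']
      exact b.2

/-- The automorphism preserves the prime divisor if it fixes generators of the trace. -/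
theorem mem_of_gen (x y : F) (σ : F ≃+* F)
    (hfin : ∀ f : F, ∃ m : ℕ, 0 < m ∧ (σ ^ m) f = f)
    (hc : ∀ i f, σ f ∈ chart k x y i ↔ f ∈ chart k x y i) (i : Fin 3) (O : ValuationSubring F)
    (hi : chart k x y i ≤ O.toSubring)
    (hl : ∀ f ∈ O, ∃ a ∈ chart k x y i, ∃ b ∈ chart k x y i, b ≠ 0 ∧ b⁻¹ ∈ O ∧ f = a / b)
    (S : Set (chart k x y i)) (hS : Ideal.span S = tr x y i O hi)
    (hfix : ∀ s ∈ S, σ (s : F) = s) (f : F) : σ f ∈ O ↔ f ∈ O := by
  -- the trace is mapped into itself
  let X : Set F := {f | ∃ hf : f ∈ chart k x y i, (⟨f, hf⟩ : chart k x y i) ∈ tr x y i O hi}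
  have hX : ∀ f ∈ X, σ f ∈ X := by
    rintro f ⟨hf, hf1⟩
    rw [← hS] at hf1
    let g : chart k x y i := ⟨f, hf⟩
    have hg : g ∈ Ideal.span S := hf1
    have key : ∀ g ∈ Ideal.span S, σ (g : F) ∈ X := by
      intro g hg
      refine Submodule.span_induction (p := fun (g : chart k x y i) _ => σ (g : F) ∈ X)
        ?_ ?_ ?_ ?_ hg
      · intro s hs
        rw [hfix s hs]
        refine ⟨s.2, ?_⟩
        rw [← hS]
        exact Ideal.subset_span hs
      · refine ⟨?_, ?_⟩
        · rw [hc]; exact Subring.zero_mem _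
        · rw [mem_tr]; left; simp
      · rintro a b - - ⟨ha, ha'⟩ ⟨hb, hb'⟩
        refine ⟨?_, ?_⟩
        · rw [hc]; exact (a + b).2
        · have h3 := (tr x y i O hi).add_mem ha' hb'
          convert h3 using 1
          exact Subtype.ext (map_add σ _ _)
      · rintro a b - ⟨hb, hb'⟩
        refine ⟨?_, ?_⟩
        · rw [hc]; exact (a • b).2
        · have h3 := (tr x y i O hi).mul_mem_left ⟨σ a, (hc i _).mpr a.2⟩ hb'
          convert h3 using 1
          exact Subtype.ext (map_mul σ _ _)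
    exact key g hg
  have hX' := mem_iff σ hfin X hX
  have hO : ∀ f ∈ (O : Set F), σ f ∈ (O : Set F) := by
    intro f hf
    obtain ⟨a, ha, b, hb, hb0, hb1, h⟩ := hl f hf
    have hσb0 : σ b ≠ 0 := by
      rw [Ne, map_eq_zero_iff σ σ.injective]; exact hb0
    have hσb : (σ b)⁻¹ ∈ O := by
      by_contra hcon
      have h1 : σ b ∈ X := ⟨(hc i b).mpr hb, (mem_tr x y i O hi _).mpr (Or.inr hcon)⟩
      rw [hX'] at h1
      obtain ⟨h2, h3⟩ := h1
      rw [mem_tr] at h3
      rcases h3 with h3 | h3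
      · exact hb0 h3
      · exact h3 hb1
    have h1 : σ f = σ a * (σ b)⁻¹ := by rw [h, map_div₀, div_eq_mul_inv]
    change σ f ∈ O
    rw [h1]
    exact mul_mem (hi ((hc i a).mpr ha)) hσb
  exact mem_iff σ hfin (O : Set F) hO f

end

section

variable {k F : Type} [Field k] [Field F] [Algebra k F]

/-- Nonzero traces. -/
theorem exists_trace (p : ℕ) [Fact p.Prime] [CharP k p] [IsAlgClosed k] (σ : F ≃+* F) (n : ℕ)
    (hn : 0 < n) (hσ : ∀ c : k, σ (algebraMap k F c) = algebraMap k F (c ^ p ^ n)) (f : F)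
    (hf : f ≠ 0) (m : ℕ) (hm : 0 < m) :
    ∃ c : k, c ^ (p ^ n) ^ m = c ∧
      ∑ j ∈ Finset.range m, (σ ^ j) (algebraMap k F c * f) ≠ 0 := by
  classical
  by_contra hcon
  push Not at hcon
  have hp : 1 < p := (Fact.out : p.Prime).one_lt
  set q := p ^ n with hq
  have hq1 : 1 < q := Nat.one_lt_pow hn.ne' hp
  -- powers of sigma on constants
  have hσj : ∀ (j : ℕ) (c : k), (σ ^ j) (algebraMap k F c) = algebraMap k F (c ^ q ^ j) := by
    intro j
    induction j with
    | zero => intro c; rw [pow_zero_apply, pow_zero, pow_one]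
    | succ j ih =>
      intro c
      rw [pow_succ_apply, ih, hσ, ← pow_mul, ← pow_succ]
  let P : Polynomial F := ∑ j ∈ Finset.range m, Polynomial.C ((σ ^ j) f) * Polynomial.X ^ (q ^ j)
  have hP : ∀ c : k, c ^ q ^ m = c → P.eval (algebraMap k F c) = 0 := by
    intro c hc
    have h1 := hcon c hc
    rw [← h1]
    simp only [P, Polynomial.eval_finsetSum, Polynomial.eval_mul, Polynomial.eval_C,
      Polynomial.eval_pow, Polynomial.eval_X]
    refine Finset.sum_congr rfl fun j _ => ?_
    rw [map_mul, hσj, map_pow, mul_comm]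
  have hcoef : P.coeff 1 = f := by
    simp only [P, Polynomial.finsetSum_coeff, Polynomial.coeff_C_mul, Polynomial.coeff_X_pow]
    rw [Finset.sum_eq_single 0]
    · simp
    · intro j _ hj
      rw [if_neg, mul_zero]
      intro h1
      have : 1 < q ^ j := Nat.one_lt_pow hj hq1
      omega
    · intro h
      exact absurd (Finset.mem_range.mpr hm) h
  have hP0 : P ≠ 0 := by
    intro h0
    rw [h0, Polynomial.coeff_zero] at hcoef
    exact hf hcoef.symm
  have hdeg : P.natDegree < q ^ m := by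
    have h1 : P.natDegree ≤ q ^ (m - 1) := by
      refine Polynomial.natDegree_sum_le_of_forall_le _ _ fun j hj => ?_
      refine (Polynomial.natDegree_C_mul_X_pow_le _ _).trans ?_
      exact Nat.pow_le_pow_right (by omega) (by have := Finset.mem_range.mp hj; omega)
    have h2 : q ^ (m - 1) < q ^ m := Nat.pow_lt_pow_right hq1 (by omega)
    omega
  -- the roots
  have hpd : p ∣ q ^ m := (dvd_pow_self p hn.ne').trans (dvd_pow_self q hm.ne')
  have hsep : (Polynomial.X ^ q ^ m - Polynomial.X : Polynomial k).Separable :=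
    galois_poly_separable p (q ^ m) hpd
  have hqm1 : 1 < q ^ m := Nat.one_lt_pow hm.ne' hq1
  have hG0 : (Polynomial.X ^ q ^ m - Polynomial.X : Polynomial k) ≠ 0 :=
    FiniteField.X_pow_card_sub_X_ne_zero k hqm1
  have hGd : (Polynomial.X ^ q ^ m - Polynomial.X : Polynomial k).natDegree = q ^ m :=
    FiniteField.X_pow_card_sub_X_natDegree_eq k hqm1
  have hcard := Polynomial.card_rootSet_eq_natDegree (K := k) hsep
    (IsAlgClosed.splits _)
  rw [hGd] at hcard
  let R : Finset k := (Polynomial.X ^ q ^ m - Polynomial.X : Polynomial k).roots.toFinset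
  have hR : R.card = q ^ m := by
    rw [← hcard]
    have h5 : (Polynomial.X ^ q ^ m - Polynomial.X : Polynomial k).rootSet k = (R : Set k) := by
      rw [Polynomial.rootSet_def]
      simp [R, Polynomial.aroots_def]
    simp only [Fintype.card_eq_nat_card]
    rw [h5]
    simp
  have hRP : (R.map ⟨algebraMap k F, (algebraMap k F).injective⟩) ⊆ P.roots.toFinset := by
    intro r hr
    obtain ⟨c, hc, rfl⟩ := Finset.mem_map.mp hr
    rw [Multiset.mem_toFinset, Polynomial.mem_roots hP0]
    have hc' : c ^ q ^ m = c := by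
      have h5 := (Multiset.mem_toFinset.mp hc)
      rw [Polynomial.mem_roots hG0] at h5
      have h6 : c ^ q ^ m - c = 0 := by simpa using h5
      exact sub_eq_zero.mp h6
    exact hP c hc'
  have h7 := Finset.card_le_card hRP
  rw [Finset.card_map, hR] at h7
  have h8 := P.roots.toFinset_card_le
  have h9 := P.card_roots'
  omega

/-- Finiteness of the rational sections. -/
theorem finite_fix (σ : F ≃+* F) (q : ℕ) (hq : 1 < q)
    (hσ : ∀ c : k, σ (algebraMap k F c) = algebraMap k F (c ^ q)) (V : Submodule k F)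
    (hV : FiniteDimensional k V) : {f : F | f ∈ V ∧ σ f = f}.Finite := by
  classical
  let t : Set V := {v | σ (v : F) = v}
  obtain ⟨b, hbt, hspan, hli⟩ := exists_linearIndependent k t
  have hbfin : b.Finite := LinearIndependent.setFinite hli
  let s : Finset V := hbfin.toFinset
  have hs : (s : Set V) = b := hbfin.coe_toFinset
  have hli' : LinearIndepOn k id (s : Set V) := by rw [hs]; exact hli
  -- the finite field
  have hk0 : {c : k | c ^ q = c}.Finite := by
    have hG0 : (Polynomial.X ^ q - Polynomial.X : Polynomial k) ≠ 0 :=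
      FiniteField.X_pow_card_sub_X_ne_zero k hq
    refine ((Polynomial.X ^ q - Polynomial.X : Polynomial k).roots.toFinset.finite_toSet).subset ?_
    intro c hc
    have hc' : c ^ q = c := hc
    simp [Polynomial.mem_roots hG0, hc']
  have : Finite {c : k | c ^ q = c} := hk0
  let Φ : ({v // v ∈ s} → {c : k | c ^ q = c}) → F := fun g =>
    ∑ v : {v // v ∈ s}, ((g v : k)) • ((v : V) : F)
  refine (Set.finite_range Φ).subset ?_
  rintro f ⟨hf, hσf⟩
  have h1 : (⟨f, hf⟩ : V) ∈ Submodule.span k (s : Set V) := by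
    rw [hs, hspan]
    exact Submodule.subset_span hσf
  obtain ⟨g, -, hg⟩ := Submodule.mem_span_finset.mp h1
  have hgF : ∑ v ∈ s, g v • (v : F) = f := by
    have h2 := congrArg (fun w : V => (w : F)) hg
    simpa using h2
  have hσs : ∀ v ∈ s, σ (v : F) = v := fun v hv => hbt (by rw [← hs]; exact hv)
  have hgσ : ∑ v ∈ s, (g v ^ q) • (v : F) = f := by
    rw [← hσf, ← hgF, map_sum]
    refine Finset.sum_congr rfl fun v hv => ?_
    rw [Algebra.smul_def, Algebra.smul_def, map_mul, hσ, hσs v hv]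
  have hdiff : ∑ v ∈ s, (g v ^ q - g v) • (v : V) = 0 := by
    apply Subtype.ext
    have h3 : ((∑ v ∈ s, (g v ^ q - g v) • (v : V) : V) : F) =
        ∑ v ∈ s, (g v ^ q - g v) • (v : F) := by simp
    rw [h3]
    simp only [sub_smul, Finset.sum_sub_distrib, hgσ, hgF, sub_self]
    rfl
  have hgv : ∀ v ∈ s, g v ^ q = g v := by
    intro v hv
    have h4 := (linearIndepOn_finset_iff.mp hli') (fun v => g v ^ q - g v) hdiff v hv
    exact sub_eq_zero.mp h4
  refine ⟨fun v => ⟨g v, hgv v v.2⟩, ?_⟩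
  change ∑ v : {v // v ∈ s}, (g v) • ((v : V) : F) = f
  rw [← hgF]
  exact Finset.sum_coe_sort s (fun v => g v • (v : F))

end

end FQ_

theorem FQ_proof (hFIN : Stmt_FIN) (hLOC : Stmt_LOC) (_hSUP : Stmt_SUP) (hFDL : Stmt_FDL)
    (hFRO : Stmt_FRO) : Stmt_FQ := by
  classical
  intro p _ k F _ _ _ _ _ x y hk hS T hT
  -- generators of the traces
  have hgen : ∀ O : PP k x y, ∃ (i : Fin 3) (hi : chart k x y i ≤ O.1.toSubring)
      (S : Finset (chart k x y i)), Ideal.span (S : Set (chart k x y i)) =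
        FQ_.tr x y i O.1 hi := by
    intro O
    obtain ⟨-, i, hi, -⟩ := O.2
    obtain ⟨-, hno, -⟩ := hFIN k F x y hS i
    obtain ⟨S, hS⟩ := hno.noetherian (FQ_.tr x y i O.1 hi)
    exact ⟨i, hi, S, hS⟩
  choose I hI G hG using hgen
  let S : Finset F := hT.toFinset.biUnion fun O => (G O).image (fun a : chart k x y (I O) => (a : F))
  obtain ⟨n, hn, σ, hσ, hx, hy, hfix, hfin⟩ := hFRO p k F x y hk hS S
  have hc : ∀ i f, σ f ∈ chart k x y i ↔ f ∈ chart k x y i := fun i f =>
    FQ_.mem_iff σ hfin (chart k x y i : Set F)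
      (FQ_.chart_mem x y σ (fun c => c ^ p ^ n) hσ hx hy i) f
  have hTO : ∀ O ∈ T, ∀ f, σ f ∈ O.1 ↔ f ∈ O.1 := by
    intro O hO f
    refine FQ_.mem_of_gen x y σ hfin hc (I O) O.1 (hI O)
      (hLOC k F x y hS O (I O) (hI O)) (G O : Set (chart k x y (I O))) (hG O) ?_ f
    intro s hs
    apply hfix
    refine Finset.mem_biUnion.mpr ⟨O, hT.mem_toFinset.mpr hO, ?_⟩
    exact Finset.mem_image.mpr ⟨s, hs, rfl⟩
  let sg : PP k x y → PP k x y := fun O =>
    ⟨O.1.comap (σ : F →+* F), FQ_.isPD_comap x y σ hc O.1 O.2⟩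
  have hsgord : ∀ (O : PP k x y) f, ord (sg O).1 f = ord O.1 (σ f) := fun O f =>
    FQ_.ord_comap x y σ O.1 O.2 (sg O).2 f
  have hsgT : ∀ O ∈ T, sg O = O := by
    intro O hO
    apply Subtype.ext
    ext f
    exact hTO O hO f
  have hsginj : ∀ O O' : PP k x y, sg O = sg O' → O = O' := by
    intro O O' h
    apply Subtype.ext
    ext f
    have h1 : ∀ g : F, σ g ∈ O.1 ↔ σ g ∈ O'.1 := by
      intro g
      have h2 : g ∈ (sg O).1 ↔ g ∈ (sg O').1 := by rw [h]
      exact h2
    have h3 := h1 (σ.symm f)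
    rwa [σ.apply_symm_apply] at h3
  have hq1 : 1 < p ^ n := Nat.one_lt_pow hn.ne' (Fact.out : p.Prime).one_lt
  refine ⟨RingHom.eqLocusField (σ : F →+* F) (RingHom.id F), ?_, ?_⟩
  · intro D hD f hf hf0
    have hL : ∀ g ∈ (L k x y D : Set F), σ g ∈ (L k x y D : Set F) := by
      intro g hg
      by_cases hg0 : g = 0
      · rw [hg0, map_zero]
        exact (L k x y D).zero_mem
      have hg' := hg.resolve_left hg0
      right
      intro O
      have hDO : D (sg O) = D O := by
        by_cases hO : O ∈ T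
        · rw [hsgT O hO]
        · have h1 : D O = 0 := by
            by_contra h; exact hO (hD O h)
          have h2 : D (sg O) = 0 := by
            by_contra h
            have h3 := hsgT _ (hD _ h)
            have h4 := hsginj _ _ h3
            exact hO (h4 ▸ hD _ h)
          rw [h1, h2]
      have h5 := hg' (sg O)
      rw [hDO, hsgord] at h5
      exact h5
    obtain ⟨m, hm, hfm⟩ := hfin f
    obtain ⟨c, hc1, hc2⟩ := FQ_.exists_trace p σ n hn hσ f hf0 m hm
    refine ⟨_, ?_, hc2, ?_⟩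
    · refine Submodule.sum_mem _ fun j _ => ?_
      refine FQ_.pow_mem' σ (L k x y D : Set F) hL j _ ?_
      have h6 := (L k x y D).smul_mem c hf
      rw [Algebra.smul_def] at h6
      exact h6
    · rw [RingHom.mem_eqLocusField]
      change σ (∑ j ∈ Finset.range m, (σ ^ j) (algebraMap k F c * f)) =
        ∑ j ∈ Finset.range m, (σ ^ j) (algebraMap k F c * f)
      rw [map_sum]
      have h7 : ∀ j ∈ Finset.range m, σ ((σ ^ j) (algebraMap k F c * f)) =
          (σ ^ (j + 1)) (algebraMap k F c * f) := fun j _ => (FQ_.pow_succ_apply σ j _).symm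
      rw [Finset.sum_congr rfl h7]
      have h8 : (σ ^ m) (algebraMap k F c * f) = algebraMap k F c * f := by
        have hσj : ∀ (j : ℕ) (c : k), (σ ^ j) (algebraMap k F c) =
            algebraMap k F (c ^ (p ^ n) ^ j) := by
          intro j
          induction j with
          | zero => intro c; rw [FQ_.pow_zero_apply, pow_zero, pow_one]
          | succ j ih =>
            intro c
            rw [FQ_.pow_succ_apply, ih, hσ, ← pow_mul, ← pow_succ]
        rw [map_mul, hfm, hσj, hc1]
      have h9 := Finset.sum_range_succ (fun j => (σ ^ j) (algebraMap k F c * f)) m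
      have h10 := Finset.sum_range_succ' (fun j => (σ ^ j) (algebraMap k F c * f)) m
      rw [h9, h8] at h10
      have h11 : (σ ^ 0) (algebraMap k F c * f) = algebraMap k F c * f := rfl
      rw [h11] at h10
      exact (add_right_cancel h10).symm
  · intro D hD
    have hfd := hFDL k F x y hS D hD
    exact FQ_.finite_fix σ (p ^ n) hq1 hσ (L k x y D) hfd

end Pool.Agent.SRF
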