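import Pool.Agent.SRF.Stmts

/-!
# SRF, module FRO: Frobenius automorphisms of a surface over an algebraic extension of `F_p`
-/

set_option autoImplicit false

noncomputable section

namespace Pool.Agent.SRF

namespace FRO_

section Per

variable {L : Type} [Field L] (φ : L →+* L)

theorem iter_mul {f : L} {m : ℕ} (h : φ^[m] f = f) (n : ℕ) : φ^[m * n] f = f := by
  rw [Function.iterate_mul]
  induction n with
  | zero => rfl
  | succ n ih => rw [Function.iterate_succ_apply, h, ih]

/-- the elements with a finite orbit -/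
def Per : Subfield L where
  carrier := {f | ∃ m : ℕ, 0 < m ∧ φ^[m] f = f}
  mul_mem' := by
    rintro f g ⟨m, hm, hf⟩ ⟨n, hn, hg⟩
    refine ⟨m * n, Nat.mul_pos hm hn, ?_⟩
    rw [iterate_map_mul, iter_mul φ hf, mul_comm m n, iter_mul φ hg]
  one_mem' := ⟨1, one_pos, by simp⟩
  add_mem' := by
    rintro f g ⟨m, hm, hf⟩ ⟨n, hn, hg⟩
    refine ⟨m * n, Nat.mul_pos hm hn, ?_⟩
    rw [iterate_map_add, iter_mul φ hf, mul_comm m n, iter_mul φ hg]
  zero_mem' := ⟨1, one_pos, by simp⟩
  neg_mem' := by
    rintro f ⟨m, hm, hf⟩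
    refine ⟨m, hm, ?_⟩
    rw [iterate_map_neg, hf]
  inv_mem' := by
    rintro f ⟨m, hm, hf⟩
    refine ⟨m, hm, ?_⟩
    have h : ∀ n : ℕ, φ^[n] f⁻¹ = (φ^[n] f)⁻¹ := by
      intro n
      induction n with
      | zero => rfl
      | succ n ih =>
        rw [Function.iterate_succ_apply', ih, map_inv₀, Function.iterate_succ_apply']
    rw [h, hf]

theorem mem_Per {f : L} : f ∈ Per φ ↔ ∃ m : ℕ, 0 < m ∧ φ^[m] f = f := Iff.rfl

/-- finitely many elements with finite orbits have a common period -/
theorem common (hall : ∀ f, f ∈ Per φ) (S : Finset L) :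
    ∃ m : ℕ, 0 < m ∧ ∀ f ∈ S, φ^[m] f = f := by
  classical
  induction S using Finset.induction_on with
  | empty => exact ⟨1, one_pos, fun f hf => absurd hf (Finset.notMem_empty f)⟩
  | insert a S _ ih =>
    obtain ⟨m, hm, h⟩ := ih
    obtain ⟨n, hn, h'⟩ := hall a
    refine ⟨m * n, Nat.mul_pos hm hn, fun f hf => ?_⟩
    rcases Finset.mem_insert.1 hf with rfl | hf
    · rw [mul_comm]
      exact iter_mul φ h' m
    · exact iter_mul φ (h f hf) n

end Per

theorem frob_iter {k : Type} [Field k] (p n : ℕ) (c : k) : (fun a : k => a ^ p)^[n] c = c ^ p ^ n := by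
  induction n with
  | zero => simp
  | succ n ih =>
    rw [Function.iterate_succ_apply', ih, ← pow_mul, pow_succ]

/-- The automorphism of `k(x, y)` which is the Frobenius on `k` and fixes `x`, `y`. -/
theorem exists_tau (p : ℕ) [Fact p.Prime] (k F : Type) [Field k] [Field F] [Algebra k F]
    [CharP k p] (x y : F) (hk : ∀ c : k, ∃ n : ℕ, 0 < n ∧ c ^ p ^ n = c)
    (hind : AlgebraicIndependent k ![x, y]) :
    ∃ τ : IntermediateField.adjoin k {x, y} →+* IntermediateField.adjoin k {x, y},
      (∀ c : k, (τ (algebraMap k _ c) : F) = algebraMap k F (c ^ p)) ∧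
      (∀ a : IntermediateField.adjoin k {x, y}, (a : F) = x → (τ a : F) = x) ∧
      (∀ a : IntermediateField.adjoin k {x, y}, (a : F) = y → (τ a : F) = y) := by
  have hset : Set.range ![x, y] = {x, y} := by
    ext a
    simp only [Set.mem_range, Set.mem_insert_iff, Set.mem_singleton_iff, Fin.exists_fin_two,
      Matrix.cons_val_zero, Matrix.cons_val_one]
    constructor
    · rintro (h | h)
      · exact Or.inl h.symm
      · exact Or.inr h.symm
    · rintro (h | h)
      · exact Or.inl h.symm
      · exact Or.inr h.symm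
  rw [← hset]
  have : ExpChar k p := ExpChar.prime Fact.out
  have : PerfectRing k p := by
    refine PerfectRing.ofSurjective k p fun c => ?_
    obtain ⟨n, hn, hc⟩ := hk c
    refine ⟨c ^ p ^ (n - 1), ?_⟩
    rw [frobenius_def, ← pow_mul, ← pow_succ, Nat.sub_add_cancel hn]
    exact hc
  let t : MvPolynomial (Fin 2) k ≃+* MvPolynomial (Fin 2) k :=
    MvPolynomial.mapEquiv (Fin 2) (frobeniusEquiv k p)
  let tK : FractionRing (MvPolynomial (Fin 2) k) ≃+* FractionRing (MvPolynomial (Fin 2) k) :=
    IsFractionRing.ringEquivOfRingEquiv t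
  let e := hind.aevalEquivField
  have hC : ∀ c : k, t (MvPolynomial.C c) = MvPolynomial.C (c ^ p) := by
    intro c
    change MvPolynomial.map _ _ = _
    rw [MvPolynomial.map_C]
    rfl
  have hX : ∀ i, t (MvPolynomial.X i) = MvPolynomial.X i := by
    intro i
    change MvPolynomial.map _ _ = _
    rw [MvPolynomial.map_X]
  have hgen : ∀ q q' : MvPolynomial (Fin 2) k, t q = q' →
      ∀ a : IntermediateField.adjoin k (Set.range ![x, y]), (a : F) = MvPolynomial.aeval ![x, y] q →
      ((e (tK (e.symm a)) : IntermediateField.adjoin k (Set.range ![x, y])) : F) =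
        MvPolynomial.aeval ![x, y] q' := by
    intro q q' hq a ha
    have h1 : e.symm a = algebraMap _ _ q := by
      rw [AlgEquiv.symm_apply_eq]
      apply Subtype.ext
      rw [ha]
      exact (hind.aevalEquivField_algebraMap_apply_coe q).symm
    rw [h1]
    have h2 : tK (algebraMap _ _ q) = algebraMap _ _ q' := by
      rw [← hq]
      exact IsFractionRing.ringEquivOfRingEquiv_algebraMap t q
    rw [h2]
    exact hind.aevalEquivField_algebraMap_apply_coe q'
  refine ⟨(e : FractionRing (MvPolynomial (Fin 2) k) →+* _).comp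
    ((tK : _ →+* _).comp (e.symm : _ →+* FractionRing (MvPolynomial (Fin 2) k))), ?_, ?_, ?_⟩
  · intro c
    have h := hgen (MvPolynomial.C c) (MvPolynomial.C (c ^ p)) (hC c) (algebraMap k _ c) (by
      rw [MvPolynomial.aeval_C]
      rfl)
    rw [MvPolynomial.aeval_C] at h
    exact h
  · intro a ha
    have h := hgen (MvPolynomial.X 0) (MvPolynomial.X 0) (hX 0) a (by
      rw [MvPolynomial.aeval_X]
      exact ha)
    rw [MvPolynomial.aeval_X] at h
    exact h
  · intro a ha
    have h := hgen (MvPolynomial.X 1) (MvPolynomial.X 1) (hX 1) a (by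
      rw [MvPolynomial.aeval_X]
      exact ha)
    rw [MvPolynomial.aeval_X] at h
    exact h

theorem main (p : ℕ) [Fact p.Prime] (k F : Type) [Field k] [Field F] [Algebra k F]
    [CharP k p] (x y : F) (hk : ∀ c : k, ∃ n : ℕ, 0 < n ∧ c ^ p ^ n = c)
    (K : IntermediateField k F) (hK : K = IntermediateField.adjoin k {x, y})
    [FiniteDimensional K F] [Algebra.IsSeparable K F] (τ : K →+* K)
    (hτc : ∀ c : k, (τ (algebraMap k K c) : F) = algebraMap k F (c ^ p))
    (hτx : ∀ a : K, (a : F) = x → (τ a : F) = x) (hτy : ∀ a : K, (a : F) = y → (τ a : F) = y)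
    (S : Finset F) :
    ∃ n : ℕ, 0 < n ∧ ∃ σ : F ≃+* F,
      (∀ c : k, σ (algebraMap k F c) = algebraMap k F (c ^ p ^ n)) ∧ σ x = x ∧ σ y = y ∧
      (∀ s ∈ S, σ s = s) ∧ ∀ f : F, ∃ m : ℕ, 0 < m ∧ (σ ^ m) f = f := by
  classical
  have hxK : x ∈ K := by
    rw [hK]
    exact IntermediateField.subset_adjoin k _ (Set.mem_insert x _)
  have hyK : y ∈ K := by
    rw [hK]
    exact IntermediateField.subset_adjoin k _ (Set.mem_insert_of_mem x rfl)
  have hτc' : ∀ (n : ℕ) (c : k), τ^[n] (algebraMap k K c) = algebraMap k K (c ^ p ^ n) := by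
    intro n
    induction n with
    | zero =>
      intro c
      simp
    | succ n ih =>
      intro c
      have h1 : τ (algebraMap k K c) = algebraMap k K (c ^ p) := Subtype.ext (hτc c)
      rw [Function.iterate_succ_apply, h1, ih, ← pow_mul, ← pow_succ']
  have hτx' : τ ⟨x, hxK⟩ = ⟨x, hxK⟩ := Subtype.ext (hτx _ rfl)
  have hτy' : τ ⟨y, hyK⟩ = ⟨y, hyK⟩ := Subtype.ext (hτy _ rfl)
  -- all elements of `K` have finite orbits
  have hperK : ∀ a, a ∈ Per τ := by
    subst hK
    rintro ⟨a, ha⟩
    induction ha using IntermediateField.adjoin_induction with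
    | mem a ha =>
      rcases ha with rfl | ha
      · exact ⟨1, one_pos, hτx'⟩
      · have ha' : a = y := ha
        subst ha'
        exact ⟨1, one_pos, hτy'⟩
    | algebraMap c =>
      obtain ⟨n, hn, hc⟩ := hk c
      refine ⟨n, hn, ?_⟩
      have := hτc' n c
      rw [hc] at this
      exact this
    | add a b ha hb h1 h2 => exact add_mem h1 h2
    | inv a ha h1 => exact inv_mem h1
    | mul a b ha hb h1 h2 => exact mul_mem h1 h2
  -- primitive element
  obtain ⟨w, hw⟩ := Field.exists_primitive_element K F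
  have hint : IsIntegral K w := IsIntegral.of_finite K w
  obtain ⟨n₀, hn₀, hcoef⟩ := common τ hperK (minpoly K w).coeffs
  -- the ring hom `g = inclusion after τ^n₀`
  let τn : K →+* K := τ ^ n₀
  have hτn : ∀ a, τn a = τ^[n₀] a := fun a => by
    change (τ ^ n₀) a = _
    rw [RingHom.coe_pow]
  have hcoef' : ∀ i, τn ((minpoly K w).coeff i) = (minpoly K w).coeff i := by
    intro i
    rw [hτn]
    by_cases h0 : (minpoly K w).coeff i = 0
    · rw [h0, iterate_map_zero]
    · exact hcoef _ (Polynomial.coeff_mem_coeffs h0)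
  have hroot : Polynomial.eval₂ ((algebraMap K F).comp τn) w (minpoly K w) = 0 := by
    have h1 := minpoly.aeval K w
    rw [Polynomial.aeval_def, Polynomial.eval₂_eq_sum_range] at h1
    rw [Polynomial.eval₂_eq_sum_range]
    rw [← h1]
    refine Finset.sum_congr rfl fun i _ => ?_
    rw [RingHom.comp_apply, hcoef']
  have : Fact (Irreducible (minpoly K w)) := ⟨minpoly.irreducible hint⟩
  let j : AdjoinRoot (minpoly K w) →+* F :=
    AdjoinRoot.lift (algebraMap K F) w (minpoly.aeval K w)
  let l : AdjoinRoot (minpoly K w) →+* F :=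
    AdjoinRoot.lift ((algebraMap K F).comp τn) w hroot
  -- a subfield of `F` containing `K` and `w` is everything
  have htop : ∀ Q : Subfield F, (∀ a : K, (a : F) ∈ Q) → w ∈ Q → ∀ f, f ∈ Q := by
    intro Q hQ hwQ f
    have hf : f ∈ IntermediateField.adjoin K {w} := by
      rw [hw]
      exact IntermediateField.mem_top
    induction hf using IntermediateField.adjoin_induction with
    | mem a ha =>
      have ha' : a = w := ha
      rw [ha']
      exact hwQ
    | algebraMap c => exact hQ c
    | add a b _ _ h1 h2 => exact add_mem h1 h2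
    | inv a _ h1 => exact inv_mem h1
    | mul a b _ _ h1 h2 => exact mul_mem h1 h2
  have hjsurj : Function.Surjective j := by
    intro f
    refine htop j.fieldRange ?_ ?_ f
    · intro a
      exact ⟨AdjoinRoot.of _ a, AdjoinRoot.lift_of _⟩
    · exact ⟨AdjoinRoot.root _, AdjoinRoot.lift_root _⟩
  let E : AdjoinRoot (minpoly K w) ≃+* F := RingEquiv.ofBijective j ⟨j.injective, hjsurj⟩
  let φ : F →+* F := l.comp (E.symm : F →+* AdjoinRoot (minpoly K w))
  have hφK : ∀ a : K, φ (a : F) = (τn a : F) := by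
    intro a
    have h1 : E.symm (a : F) = AdjoinRoot.of _ a := by
      rw [RingEquiv.symm_apply_eq]
      exact (AdjoinRoot.lift_of (minpoly.aeval K w)).symm
    change l (E.symm (a : F)) = _
    rw [h1]
    exact AdjoinRoot.lift_of _
  have hφw : φ w = w := by
    have h1 : E.symm w = AdjoinRoot.root _ := by
      rw [RingEquiv.symm_apply_eq]
      exact (AdjoinRoot.lift_root (minpoly.aeval K w)).symm
    change l (E.symm w) = _
    rw [h1]
    exact AdjoinRoot.lift_root _
  have hφc : ∀ c : k, φ (algebraMap k F c) = algebraMap k F (c ^ p ^ n₀) := by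
    intro c
    have h1 := hφK (algebraMap k K c)
    rw [hτn, hτc'] at h1
    exact h1
  have hfix : ∀ a : K, τ a = a → φ (a : F) = a := by
    intro a ha
    rw [hφK, hτn, Function.iterate_fixed ha]
  have hφx : φ x = x := hfix ⟨x, hxK⟩ hτx'
  have hφy : φ y = y := hfix ⟨y, hyK⟩ hτy'
  -- finite orbits on `F`
  have hperF : ∀ f, f ∈ Per φ := by
    refine htop (Per φ) ?_ ⟨1, one_pos, hφw⟩
    intro a
    obtain ⟨m, hm, ha⟩ := hperK a
    refine ⟨m, hm, ?_⟩
    have h1 : ∀ r : ℕ, φ^[r] (a : F) = ((τ^[n₀ * r] a : K) : F) := by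
      intro r
      induction r with
      | zero => rfl
      | succ r ih =>
        rw [Function.iterate_succ_apply', ih, hφK, hτn, ← Function.iterate_add_apply]
        congr 2
        ring_nf
    rw [h1, mul_comm, iter_mul τ ha]
  have hφbij : Function.Bijective φ := by
    refine ⟨φ.injective, fun f => ?_⟩
    obtain ⟨m, hm, hf⟩ := hperF f
    obtain ⟨m, rfl⟩ := Nat.exists_eq_succ_of_ne_zero (Nat.pos_iff_ne_zero.1 hm)
    refine ⟨φ^[m] f, ?_⟩
    rw [← Function.iterate_succ_apply' φ m f]
    exact hf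
  obtain ⟨M, hM, hMS⟩ := common φ hperF S
  let φe : F ≃+* F := RingEquiv.ofBijective φ hφbij
  have hpow : ∀ (ψ : F ≃+* F) (m : ℕ) (f : F), (ψ ^ m) f = ψ^[m] f := by
    intro ψ m
    induction m with
    | zero =>
      intro f
      rfl
    | succ m ih =>
      intro f
      rw [pow_succ', Function.iterate_succ_apply', ← ih f]
      rfl
  have hφe : ∀ (m : ℕ) (f : F), (φe ^ m) f = φ^[m] f := by
    intro m f
    rw [hpow]
    rfl
  refine ⟨n₀ * M, Nat.mul_pos hn₀ hM, φe ^ M, ?_, ?_, ?_, ?_, ?_⟩
  · intro c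
    rw [hφe]
    have h1 : ∀ (r : ℕ) (c : k), φ^[r] (algebraMap k F c) = algebraMap k F (c ^ p ^ (n₀ * r)) := by
      intro r
      induction r with
      | zero =>
        intro c
        simp
      | succ r ih =>
        intro c
        rw [Function.iterate_succ_apply, hφc, ih, ← pow_mul, ← pow_add]
        congr 3
        ring
    exact h1 M c
  · rw [hφe, Function.iterate_fixed hφx]
  · rw [hφe, Function.iterate_fixed hφy]
  · intro s hs
    rw [hφe]
    exact hMS s hs
  · intro f
    obtain ⟨m, hm, hf⟩ := hperF f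
    refine ⟨m, hm, ?_⟩
    rw [← pow_mul, hφe, mul_comm, iter_mul φ hf]

end FRO_

open FRO_ in
theorem FRO_proof : Stmt_FRO := by
  intro p _ k F _ _ _ _ x y hk hS S
  have := hS.fin
  have := hS.sep
  obtain ⟨τ, hτc, hτx, hτy⟩ := exists_tau p k F x y hk hS.indep
  exact main p k F x y hk _ rfl τ hτc hτx hτy S

end Pool.Agent.SRF
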