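import Pool.Agent.SRF.Stmts

/-!
# Module HTO: primes of a chart contain traces of prime divisors
-/

set_option autoImplicit false

noncomputable section

namespace Pool.Agent.SRF

theorem HTO_proof (hREG : Stmt_REG) : Stmt_HTO := by
  intro k F _ _ _ x y hS i P hP f hf hf0
  by_contra hcon
  push Not at hcon
  have h1 : ∀ O : PP k x y, chart k x y i ≤ O.1.toSubring →
      (∀ a : chart k x y i, a ≠ 0 → ((a : F))⁻¹ ∉ O.1 → a ∈ P) → ((f : F))⁻¹ ∈ O.1 := by
    intro O hO hP'
    by_contra h
    obtain ⟨a, ha0, ha1, ha2⟩ := hcon O hO h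
    exact ha2 (hP' a ha0 ha1)
  obtain ⟨a, b, hb, hab⟩ := hREG k F x y hS i P hP _ h1
  have hfF : (f : F) ≠ 0 := fun h => hf0 (Subtype.ext h)
  have hbF : (b : F) ≠ 0 := by
    intro h
    apply hb
    have : b = 0 := Subtype.ext h
    rw [this]
    exact P.zero_mem
  apply hb
  have h2 : b = a * f := by
    apply Subtype.ext
    change (b : F) = (a : F) * (f : F)
    rw [eq_div_iff hbF] at hab
    rw [← hab, mul_comm ((f : F)⁻¹), mul_assoc, inv_mul_cancel₀ hfF, mul_one]
  rw [h2]
  exact P.mul_mem_left a hf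

end Pool.Agent.SRF
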