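import Pool.Agent.SRF.Stmts

/-!
# Squad SRF, module NCC
-/

set_option autoImplicit false

noncomputable section

namespace Pool.Agent.SRF

namespace NCC_

variable {k F : Type} [Field k] [Field F] [Algebra k F] {x y : F}

theorem x_ne_zero (h : IsSurf k x y) : x ≠ 0 ∧ y ≠ 0 := by
  have h1 := h.indep.ne_zero
  exact ⟨h1 0, h1 1⟩

theorem H_finite (hSUP : Stmt_SUP) (h : IsSurf k x y) : {O : PP k x y | H k x y O ≠ 0}.Finite := by
  obtain ⟨hx, hy⟩ := x_ne_zero h
  refine ((hSUP k F x y h x hx).union (hSUP k F x y h y hy)).subset ?_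
  intro O hO
  by_contra hc
  simp only [Set.mem_union, Set.mem_ofPred_eq, not_or, not_not] at hc
  apply hO
  unfold H
  rw [hc.1, hc.2]
  simp

end NCC_

open NCC_

theorem NCC_proof (hSUP : Stmt_SUP) (_hHCH : Stmt_HCH) (hAVD : Stmt_AVD) (hCPT : Stmt_CPT) :
    Stmt_NCC := by
  classical
  intro k F _ _ _ _ x y hS O O' hOO'
  -- the section `g1`
  obtain ⟨a₀, ha₀⟩ := hAVD k F x y hS (fun Q => if Q = O' then 1 else 0)
    ((Set.finite_singleton O').subset (fun Q hQ => by
      by_contra hc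
      apply hQ
      exact if_neg (show ¬ (Q = O') from fun h => hc h))) {O} (Set.finite_singleton O)
  obtain ⟨g1, hg0, hgL, hgT⟩ := ha₀ (max a₀ 1) (le_max_left _ _)
  set a1 := max a₀ 1 with ha1
  have ha1pos : 1 ≤ a1 := le_max_right _ _
  have hgO : ord O.1 g1 = - a1 * H k x y O := by
    have := hgT O rfl
    rw [if_neg hOO'] at this
    linarith
  have hgL' : ∀ Q : PP k x y, (if Q = O' then (1 : ℤ) else 0) - a1 * H k x y Q ≤ ord Q.1 g1 := by
    intro Q
    rcases (mem_L k x y).1 hgL with h | h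
    · exact absurd h hg0
    · have := h Q
      linarith
  -- the zeros of `g1`
  let T : Set (PP k x y) := {Q | ord Q.1 g1 ≠ - a1 * H k x y Q}
  have hT : T.Finite := by
    refine ((hSUP k F x y hS g1 hg0).union (H_finite hSUP hS)).subset ?_
    intro Q hQ
    by_contra hc
    simp only [Set.mem_union, Set.mem_ofPred_eq, not_or, not_not] at hc
    apply hQ
    rw [hc.1, hc.2, mul_zero]
  obtain ⟨b₀, hb₀⟩ := hAVD k F x y hS (fun Q => if Q = O then 1 else 0)
    ((Set.finite_singleton O).subset (fun Q hQ => by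
      by_contra hc
      apply hQ
      exact if_neg (show ¬ (Q = O) from fun h => hc h))) T hT
  set m := max b₀ 1 with hm
  have hm1 : 1 ≤ m := le_max_right _ _
  have hmb : b₀ ≤ m * a1 := (le_max_left b₀ 1).trans (Nat.le_mul_of_pos_right _ (by omega))
  obtain ⟨f, hf0, hfL, hfT⟩ := hb₀ (m * a1) hmb
  have hfL' : ∀ Q : PP k x y,
      (if Q = O then (1 : ℤ) else 0) - ((m * a1 : ℕ) : ℤ) * H k x y Q ≤ ord Q.1 f := by
    intro Q
    rcases (mem_L k x y).1 hfL with h | h
    · exact absurd h hf0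
    · have := h Q
      linarith
  have hHnn : ∀ Q : PP k x y, 0 ≤ H k x y Q := fun Q => le_max_left _ _
  have hord : ∀ Q : PP k x y, ord Q.1 (g1 ^ m) = m * ord Q.1 g1 := fun Q => Q.isOrd.pow hg0 m
  have hfmem : f ∈ L k x y (fun O => ((m * a1 : ℕ) : ℤ) * H k x y O) := by
    rw [mem_L]
    right
    intro Q
    have h1 := hfL' Q
    have h2 : (0 : ℤ) ≤ if Q = O then (1 : ℤ) else 0 := by split_ifs <;> norm_num
    linarith
  have hgm : ∀ Q : PP k x y, (m : ℤ) * (if Q = O' then (1 : ℤ) else 0) -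
      ((m * a1 : ℕ) : ℤ) * H k x y Q ≤ ord Q.1 (g1 ^ m) := by
    intro Q
    rw [hord]
    have h1 := hgL' Q
    have h2 : (0 : ℤ) ≤ m := by positivity
    have h3 := mul_le_mul_of_nonneg_left h1 h2
    push_cast
    linarith
  have hgmem : g1 ^ m ∈ L k x y (fun O => ((m * a1 : ℕ) : ℤ) * H k x y O) := by
    rw [mem_L]
    right
    intro Q
    have h1 := hgm Q
    have h2 : (0 : ℤ) ≤ (m : ℤ) * (if Q = O' then (1 : ℤ) else 0) := by
      split_ifs <;> simp
    linarith
  have hd : 0 < m * a1 := Nat.mul_pos (by omega) (by omega)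
  obtain ⟨θ, hθ0, hθL, M, α, hα, hz⟩ := hCPT k F x y hS (m * a1) f (g1 ^ m) hd hf0
    (pow_ne_zero _ hg0) hfmem hgmem (by
      intro Q
      by_cases hQ : Q ∈ T
      · left
        have h1 := hfT Q hQ
        have hQO : Q ≠ O := by
          rintro rfl
          exact hQ hgO
        rw [if_neg hQO] at h1
        linarith
      · right
        have h1 : ord Q.1 g1 = - a1 * H k x y Q := by
          by_contra hc
          exact hQ hc
        rw [hord, h1]
        push_cast
        ring)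
  refine ⟨m * a1, f, g1 ^ m, θ, hd, hf0, pow_ne_zero _ hg0, hθ0, hfmem, hgmem, hθL, ?_, ?_,
    M, α, hα, hz⟩
  · have := hfL' O
    rw [if_pos rfl] at this
    exact this
  · have h1 := hgm O'
    rw [if_pos rfl] at h1
    have h2 : (1 : ℤ) ≤ m := by exact_mod_cast hm1
    linarith

end Pool.Agent.SRF
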