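import Pool.Agent.SRF.BAS
import Pool.Agent.SRF.FIN
import Pool.Agent.SRF.FRA
import Pool.Agent.SRF.CEN
import Pool.Agent.SRF.LIF
import Pool.Agent.SRF.LOC
import Pool.Agent.SRF.DVQ
import Pool.Agent.SRF.REG
import Pool.Agent.SRF.HTO
import Pool.Agent.SRF.REC
import Pool.Agent.SRF.INC
import Pool.Agent.SRF.SUP
import Pool.Agent.SRF.HCH
import Pool.Agent.SRF.SEC
import Pool.Agent.SRF.LIH
import Pool.Agent.SRF.SCI
import Pool.Agent.SRF.SCQ
import Pool.Agent.SRF.SCP
import Pool.Agent.SRF.FDL
import Pool.Agent.SRF.AX1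
import Pool.Agent.SRF.AX2
import Pool.Agent.SRF.AX3
import Pool.Agent.SRF.THC
import Pool.Agent.SRF.NAL
import Pool.Agent.SRF.ZER
import Pool.Agent.SRF.DIM
import Pool.Agent.SRF.FCH
import Pool.Agent.SRF.AVD
import Pool.Agent.SRF.CPT
import Pool.Agent.SRF.CRT
import Pool.Agent.SRF.NCC
import Pool.Agent.SRF.BND
import Pool.Agent.SRF.CONS
import Pool.Agent.SRF.DIS
import Pool.Agent.SRF.FRO
import Pool.Agent.SRF.FQ

/-!
# The library of surfaces: all statements proved
-/

set_option autoImplicit false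

namespace Pool.Agent.SRF.All

open Pool.Agent.SRF

theorem bas : Stmt_BAS := BAS_proof
theorem fin : Stmt_FIN := FIN_proof bas
theorem fra : Stmt_FRA := FRA_proof bas
theorem cen : Stmt_CEN := CEN_proof
theorem lif : Stmt_LIF := LIF_proof
theorem loc : Stmt_LOC := LOC_proof cen lif
theorem dvq : Stmt_DVQ := DVQ_proof fin fra
theorem reg : Stmt_REG := REG_proof fin fra loc dvq
theorem hto : Stmt_HTO := HTO_proof reg
theorem rec : Stmt_REC := REC_proof reg
theorem inc : Stmt_INC := INC_proof loc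
theorem sup : Stmt_SUP := SUP_proof fin fra loc inc
theorem hch : Stmt_HCH := HCH_proof cen
theorem sec : Stmt_SEC := SEC_proof rec hch
theorem lih : Stmt_LIH := LIH_proof lif sec
theorem sci : Stmt_SCI := SCI_proof sec
theorem scq : Stmt_SCQ := SCQ_proof bas fin sec
theorem scp : Stmt_SCP := SCP_proof bas fin sec sci
theorem fdl : Stmt_FDL := FDL_proof bas fin sec lih loc hch fra
theorem ax1 : Stmt_AX1 := AX1_proof cen reg
theorem thc : Stmt_THC := THC_proof cen lif
theorem ax2 : Stmt_AX2 := AX2_proof cen reg thc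
theorem ax3 : Stmt_AX3 := AX3_proof cen
theorem nal : Stmt_NAL := NAL_proof bas fin loc
theorem zer : Stmt_ZER := ZER_proof cen hch sec nal
theorem dim : Stmt_DIM := DIM_proof bas fin
theorem fch : Stmt_FCH := FCH_proof bas fin fra
theorem avd : Stmt_AVD := AVD_proof cen loc inc sup hch sec lih
theorem cpt : Stmt_CPT := CPT_proof fin hto hch sec lih dim
theorem crt : Stmt_CRT := CRT_proof sup hch avd cpt
theorem ncc : Stmt_NCC := NCC_proof sup hch avd cpt
theorem bnd : Stmt_BND := BND_proof bas fin loc hch sec cen nal scq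
theorem con : Stmt_CON := CON_proof scp
theorem dis : Stmt_DIS := DIS_proof cen loc hch lih
theorem fro : Stmt_FRO := FRO_proof
theorem fq : Stmt_FQ := FQ_proof fin loc sup fdl fro

end Pool.Agent.SRF.All
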