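import Mathlib

/-!
# SRF CNA: Laurent polynomials in a transcendental element, and semilinear maps
-/

set_option autoImplicit false

namespace Pool.Agent.SRF

open Polynomial

section

variable {A C : Type} [Field A] [Field C] [Algebra A C]

/-- the value of a Laurent polynomial at `s` -/
noncomputable def lc (A : Type) {C : Type} [Field A] [Field C] [Algebra A C] (s : C) :
    (ℤ →₀ A) →ₗ[A] C :=
  Finsupp.linearCombination A (fun i : ℤ => s ^ i)

theorem lc_apply (s : C) (a : ℤ →₀ A) :
    lc A s a = a.sum (fun i c => algebraMap A C c * s ^ i) := by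
  unfold lc
  rw [Finsupp.linearCombination_apply]
  exact Finsupp.sum_congr (fun i _ => Algebra.smul_def _ _)

theorem transc_ne_zero {s : C} (hs : Transcendental A s) : s ≠ 0 := by
  rintro rfl
  exact hs isAlgebraic_zero

/-- the powers of a transcendental element are linearly independent -/
theorem zpow_indep {s : C} (hs : Transcendental A s) :
    LinearIndependent A (fun i : ℤ => s ^ i) := by
  classical
  have hs0 := transc_ne_zero hs
  rw [linearIndependent_iff']
  intro S g hg
  -- shift the exponents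
  obtain ⟨N, hN⟩ : ∃ N : ℕ, ∀ i ∈ S, 0 ≤ i + N := by
    refine ⟨∑ i ∈ S, i.natAbs, fun i hi => ?_⟩
    have h1 : i.natAbs ≤ ∑ i ∈ S, i.natAbs :=
      Finset.single_le_sum (f := fun i : ℤ => i.natAbs) (fun _ _ => Nat.zero_le _) hi
    omega
  have h1 : aeval s (∑ i ∈ S, monomial (i + N).toNat (g i)) = 0 := by
    rw [map_sum]
    have h2 : ∀ i ∈ S, aeval s (monomial (i + N).toNat (g i)) = (g i • s ^ i) * s ^ N := by
      intro i hi
      rw [aeval_monomial, Algebra.smul_def, mul_assoc]
      congr 1
      rw [← zpow_natCast s N, ← zpow_add₀ hs0, ← zpow_natCast s, Int.toNat_of_nonneg (hN i hi)]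
    rw [Finset.sum_congr rfl h2, ← Finset.sum_mul, hg, zero_mul]
  have h2 := (transcendental_iff.1 hs) _ h1
  intro i hi
  have h3 := congrArg (fun p : A[X] => p.coeff (i + N).toNat) h2
  simp only [finsetSum_coeff, coeff_monomial, coeff_zero] at h3
  rw [Finset.sum_eq_single i] at h3
  · simpa using h3
  · intro j hj hji
    rw [if_neg]
    intro h4
    apply hji
    have h5 := hN i hi
    have h6 := hN j hj
    omega
  · intro h
    exact absurd hi h

theorem lc_inj {s : C} (hs : Transcendental A s) : Function.Injective (lc A s) :=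
  zpow_indep hs

/-- the elements of the ring of Laurent polynomials -/
theorem mem_lc {s x : C} (hs0 : s ≠ 0) (hx : x ∈ Algebra.adjoin A {s, s⁻¹}) :
    ∃ a : ℤ →₀ A, x = lc A s a := by
  have h1 : x ∈ Subalgebra.toSubmodule (Algebra.adjoin A {s, s⁻¹}) := hx
  rw [Algebra.adjoin_eq_span] at h1
  have h2 : ((Submonoid.closure {s, s⁻¹} : Submonoid C) : Set C) ⊆
      Set.range (fun i : ℤ => s ^ i) := by
    intro y hy
    induction hy using Submonoid.closure_induction with
    | mem y hy =>
      rcases hy with rfl | hy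
      · exact ⟨1, zpow_one _⟩
      · rw [Set.mem_singleton_iff] at hy
        subst hy
        exact ⟨-1, by simp⟩
    | one => exact ⟨0, zpow_zero _⟩
    | mul y z _ _ hy hz =>
      obtain ⟨i, rfl⟩ := hy
      obtain ⟨j, rfl⟩ := hz
      exact ⟨i + j, zpow_add₀ hs0 i j⟩
  have h3 := Submodule.span_mono h2 h1
  rw [Finsupp.mem_span_range_iff_exists_finsupp] at h3
  obtain ⟨a, ha⟩ := h3
  exact ⟨a, by rw [← ha]; unfold lc; rw [Finsupp.linearCombination_apply]⟩

/-- Laurent polynomials whose coefficients and exponents are in a subring -/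
theorem lc_mem (B : Subring C) (s : C) (a : ℤ →₀ A)
    (h : ∀ i, a i ≠ 0 → algebraMap A C (a i) * s ^ i ∈ B) : lc A s a ∈ B := by
  rw [lc_apply]
  refine Subring.sum_mem _ (fun i hi => h i (Finsupp.mem_support_iff.1 hi))

/-- the coefficients of an element which is fixed by a semilinear map, `s ↦ γ s` -/
theorem fix_one {s : C} (hs : Transcendental A s) (τ : A →+* A) (h : C →+* C)
    (hτ : ∀ a, h (algebraMap A C a) = algebraMap A C (τ a)) {γ : A}
    (hγ : h s = algebraMap A C γ * s) (a : ℤ →₀ A) (hfix : h (lc A s a) = lc A s a) (i : ℤ) :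
    τ (a i) * γ ^ i = a i := by
  classical
  let b : ℤ →₀ A := Finsupp.onFinset a.support (fun i => τ (a i) * γ ^ i) (fun i hi => by
    rw [Finsupp.mem_support_iff]
    intro h0
    rw [h0, map_zero, zero_mul] at hi
    exact hi rfl)
  have h1 : lc A s b = h (lc A s a) := by
    rw [lc_apply, lc_apply, Finsupp.sum, Finsupp.sum, map_sum]
    have hsub : b.support ⊆ a.support := Finsupp.support_onFinset_subset
    rw [Finset.sum_subset hsub (fun i _ hi => by
      rw [Finsupp.notMem_support_iff.1 hi, map_zero, zero_mul])]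
    refine Finset.sum_congr rfl (fun i _ => ?_)
    show algebraMap A C (τ (a i) * γ ^ i) * s ^ i = _
    rw [map_mul, map_mul, map_zpow₀, map_zpow₀, hτ, hγ, mul_zpow]
    ring
  rw [hfix] at h1
  have h2 := lc_inj hs h1
  have h3 := congrArg (fun f : ℤ →₀ A => f i) h2
  exact h3

/-- the coefficients of an element which is fixed by a semilinear map, `s ↦ γ / s` -/
theorem fix_inv {s : C} (hs : Transcendental A s) (τ : A →+* A) (h : C →+* C)
    (hτ : ∀ a, h (algebraMap A C a) = algebraMap A C (τ a)) {γ : A}
    (hγ : h s = algebraMap A C γ * s⁻¹) (a : ℤ →₀ A) (hfix : h (lc A s a) = lc A s a) (i : ℤ) :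
    τ (a i) * γ ^ i = a (-i) := by
  classical
  let b : ℤ →₀ A := Finsupp.onFinset (a.support.image (fun i => -i))
    (fun i => τ (a (-i)) * γ ^ (-i)) (fun i hi => by
    rw [Finset.mem_image]
    refine ⟨-i, ?_, neg_neg i⟩
    rw [Finsupp.mem_support_iff]
    intro h0
    rw [h0, map_zero, zero_mul] at hi
    exact hi rfl)
  have h1 : lc A s b = h (lc A s a) := by
    rw [lc_apply, lc_apply, Finsupp.sum, Finsupp.sum, map_sum]
    have hsub : b.support ⊆ a.support.image (fun i => -i) := Finsupp.support_onFinset_subset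
    rw [Finset.sum_subset hsub (fun i _ hi => by
      rw [Finsupp.notMem_support_iff.1 hi, map_zero, zero_mul])]
    rw [Finset.sum_image (fun x _ y _ hxy => neg_injective hxy)]
    refine Finset.sum_congr rfl (fun i _ => ?_)
    show algebraMap A C (τ (a (- -i)) * γ ^ (- -i)) * s ^ (-i) = _
    rw [neg_neg, map_mul, map_mul, map_zpow₀, map_zpow₀, hτ, hγ, mul_zpow, inv_zpow', ]
    ring
  rw [hfix] at h1
  have h2 := lc_inj hs h1
  have h3 := congrArg (fun f : ℤ →₀ A => f (-i)) h2
  have h4 : b (-i) = τ (a (- -i)) * γ ^ (- -i) := rfl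
  rw [neg_neg] at h4
  rw [← h4]
  exact h3

end

end Pool.Agent.SRF
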