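import Pool.Agent.SRF.CNA

/-!
# SRF CNB: descent, the last step
-/

set_option autoImplicit false

namespace Pool.Agent.SRF

open Polynomial hiding map_ne_zero

section

variable {κ A C : Type} [Field κ] [Field A] [Field C] [Algebra κ A] [Algebra A C] [Algebra κ C]
  [IsScalarTower κ A C]

/-- semilinear maps which fix a set -/
structure Hat (κ A C : Type) [Field κ] [Field A] [Field C] [Algebra κ A] [Algebra A C]
    (E₀ : Set C) where
  hat : (A ≃ₐ[κ] A) → C →+* C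
  hA : ∀ τ a, hat τ (algebraMap A C a) = algebraMap A C (τ a)
  hmul : ∀ σ τ z, hat (σ * τ) z = hat σ (hat τ z)
  hfix : ∀ τ, ∀ x ∈ E₀, hat τ x = x

/-- the conclusion: all elements of `E₀` are polynomials in the coordinates of a point of a conic -/
def OnConic (κ : Type) {C : Type} [Field κ] [Field C] [Algebra κ C] (E₀ : Set C) : Prop :=
  ∃ (x y : C) (c δ : κ), c ≠ 0 ∧ δ ≠ 0 ∧ x ^ 2 - algebraMap κ C δ * y ^ 2 = algebraMap κ C c ∧
    ∀ z ∈ E₀, z ∈ Algebra.adjoin κ {x, y}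

theorem zpow_mem_adjoin (κ : Type) {C : Type} [Field κ] [Field C] [Algebra κ C] (s : C) (i : ℤ) :
    s ^ i ∈ Algebra.adjoin κ {s, s⁻¹} := by
  have h1 : s ∈ Algebra.adjoin κ {s, s⁻¹} := Algebra.subset_adjoin (by simp)
  have h2 : s⁻¹ ∈ Algebra.adjoin κ {s, s⁻¹} := Algebra.subset_adjoin (by simp)
  rcases Int.eq_nat_or_neg i with ⟨n, rfl | rfl⟩
  · rw [zpow_natCast]
    exact Subalgebra.pow_mem _ h1 n
  · rw [zpow_neg, zpow_natCast, ← inv_pow]
    exact Subalgebra.pow_mem _ h2 n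

/-- the split case -/
theorem onConic_split [CharZero κ] {s : C} (hs : s ≠ 0) {E₀ : Set C}
    (h : ∀ z ∈ E₀, z ∈ Algebra.adjoin κ {s, s⁻¹}) : OnConic κ E₀ := by
  have hch : CharZero C := charZero_of_injective_algebraMap (algebraMap κ C).injective
  set x : C := algebraMap κ C (1 / 2) * (s + s⁻¹) with hx
  set y : C := algebraMap κ C (1 / 2) * (s - s⁻¹) with hy
  have h2 : algebraMap κ C (1 / 2) * 2 = 1 := by
    rw [← map_ofNat (algebraMap κ C) 2, ← map_mul]
    norm_num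
  have hsx : s = x + y := by
    rw [hx, hy]
    linear_combination (-s) * h2
  have hsy : s⁻¹ = x - y := by
    rw [hx, hy]
    linear_combination (-s⁻¹) * h2
  refine ⟨x, y, 1, 1, one_ne_zero, one_ne_zero, ?_, ?_⟩
  · rw [map_one, one_mul]
    have h3 : (x + y) * (x - y) = 1 := by
      rw [← hsx, ← hsy, mul_inv_cancel₀ hs]
    linear_combination h3
  · intro z hz
    have h3 : Algebra.adjoin κ {s, s⁻¹} ≤ Algebra.adjoin κ {x, y} := by
      rw [Algebra.adjoin_le_iff]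
      have hxm : x ∈ Algebra.adjoin κ {x, y} := Algebra.subset_adjoin (by simp)
      have hym : y ∈ Algebra.adjoin κ {x, y} := Algebra.subset_adjoin (by simp)
      rintro w (rfl | hw)
      · show w ∈ Algebra.adjoin κ {x, y}
        rw [hsx]
        exact Subalgebra.add_mem _ hxm hym
      · rw [Set.mem_singleton_iff] at hw
        subst hw
        show s⁻¹ ∈ Algebra.adjoin κ {x, y}
        rw [hsy]
        exact Subalgebra.sub_mem _ hxm hym
    exact h3 (h z hz)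

/-- the fixed elements -/
theorem fixed_mem [CharZero κ] [IsGalois κ A] (a : A) (h : ∀ τ : A ≃ₐ[κ] A, τ a = a) :
    ∃ q : κ, algebraMap κ A q = a := by
  have h1 := (InfiniteGalois.mem_bot_iff_fixed (k := κ) a).2 h
  exact IntermediateField.mem_bot.1 h1

theorem lc_mem_kappa (s : C) (a : ℤ →₀ A) (h : ∀ i, ∃ q : κ, algebraMap κ A q = a i) :
    lc A s a ∈ Algebra.adjoin κ {s, s⁻¹} := by
  refine lc_mem (Algebra.adjoin κ {s, s⁻¹}).toSubring s a (fun i _ => ?_)
  obtain ⟨q, hq⟩ := h i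
  rw [← hq, ← IsScalarTower.algebraMap_apply κ A C]
  exact Subalgebra.mul_mem _ (Subalgebra.algebraMap_mem _ q) (zpow_mem_adjoin κ s i)

/-- the last step of the descent -/
theorem conic [CharZero κ] [IsGalois κ A] {E₀ : Set C} (H : Hat κ A C E₀) {s : C}
    (hs : Transcendental A s)
    (h1 : ∀ τ, H.hat τ s = s ∨ ∃ c : A, H.hat τ s = algebraMap A C c * s⁻¹)
    (h2 : ∀ x ∈ E₀, x ∈ Algebra.adjoin A {s, s⁻¹}) : OnConic κ E₀ := by
  classical
  have hs0 := transc_ne_zero hs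
  have hchC : CharZero C := charZero_of_injective_algebraMap (algebraMap κ C).injective
  have hchA : CharZero A := charZero_of_injective_algebraMap (algebraMap κ A).injective
  have hinj : Function.Injective (algebraMap A C) := (algebraMap A C).injective
  -- `s` and `c / s` are different
  have hne : ∀ c : A, algebraMap A C c * s⁻¹ ≠ s := by
    intro c hc
    have h3 : (lc A s) (Finsupp.single 2 1) = (lc A s) (Finsupp.single 0 c) := by
      unfold lc
      rw [Finsupp.linearCombination_single, Finsupp.linearCombination_single, one_smul, zpow_zero,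
        Algebra.smul_def, mul_one]
      have h4 : algebraMap A C c = s * s := by
        calc algebraMap A C c = (algebraMap A C c * s⁻¹) * s := by
              rw [mul_assoc, inv_mul_cancel₀ hs0, mul_one]
          _ = s * s := by rw [hc]
      rw [h4]
      norm_cast
      ring
    have h5 := lc_inj hs h3
    have h6 := congrArg (fun f : ℤ →₀ A => f 2) h5
    simp at h6
  have hc0 : ∀ τ, ∀ c : A, H.hat τ s = algebraMap A C c * s⁻¹ → c ≠ 0 := by
    rintro τ c hc rfl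
    rw [map_zero, zero_mul, map_eq_zero] at hc
    exact hs0 hc
  -- the coefficients
  have hcoef1 : ∀ a : ℤ →₀ A, lc A s a ∈ E₀ → ∀ τ, H.hat τ s = s → ∀ i, τ (a i) = a i := by
    intro a ha τ hτ i
    have h3 := fix_one hs (τ : A →+* A) (H.hat τ) (H.hA τ) (γ := 1)
      (by rw [map_one, one_mul, hτ]) a (H.hfix τ _ ha) i
    rw [one_zpow, mul_one] at h3
    exact h3
  have hcoef2 : ∀ a : ℤ →₀ A, lc A s a ∈ E₀ → ∀ τ (c : A), H.hat τ s = algebraMap A C c * s⁻¹ →
      ∀ i, τ (a i) * c ^ i = a (-i) := by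
    intro a ha τ c hτ i
    exact fix_inv hs (τ : A →+* A) (H.hat τ) (H.hA τ) hτ a (H.hfix τ _ ha) i
  by_cases hall : ∀ τ, H.hat τ s = s
  · apply onConic_split hs0
    intro z hz
    obtain ⟨a, rfl⟩ := mem_lc hs0 (h2 z hz)
    exact lc_mem_kappa s a (fun i => fixed_mem _ (fun τ => hcoef1 a hz τ (hall τ) i))
  push Not at hall
  obtain ⟨τ₀, hτ₀⟩ := hall
  obtain ⟨c₀, hc₀⟩ : ∃ c : A, H.hat τ₀ s = algebraMap A C c * s⁻¹ := by
    rcases h1 τ₀ with h3 | h3
    · exact absurd h3 hτ₀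
    · exact h3
  have hc₀0 := hc0 τ₀ c₀ hc₀
  -- composition of two maps of the second kind
  have hcomp : ∀ σ τ (c c' : A), H.hat σ s = algebraMap A C c * s⁻¹ →
      H.hat τ s = algebraMap A C c' * s⁻¹ → σ c' = c ∧ H.hat (σ * τ) s = s := by
    intro σ τ c c' hσ hτ
    have hcc := hc0 σ c hσ
    have h3 : H.hat (σ * τ) s = algebraMap A C (σ c' * c⁻¹) * s := by
      rw [H.hmul, hτ, map_mul, H.hA, map_inv₀, hσ, mul_inv, inv_inv, map_mul, map_inv₀]
      ring
    have hs' : H.hat (σ * τ) s = s := by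
      rcases h1 (σ * τ) with h4 | ⟨c'', h4⟩
      · exact h4
      · exfalso
        rw [h3] at h4
        have hσc' : σ c' ≠ 0 := (map_ne_zero σ).2 (hc0 τ c' hτ)
        have h5 : algebraMap A C (σ c' * c⁻¹) ≠ 0 :=
          (map_ne_zero _).2 (mul_ne_zero hσc' (inv_ne_zero hcc))
        apply hne ((σ c' * c⁻¹)⁻¹ * c'')
        rw [map_mul, map_inv₀, mul_assoc, ← h4, ← mul_assoc, inv_mul_cancel₀ h5, one_mul]
    refine ⟨?_, hs'⟩
    rw [hs'] at h3
    have h6 : (algebraMap A C (σ c' * c⁻¹) - 1) * s = 0 := by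
      rw [sub_mul, one_mul, ← h3, sub_self]
    rcases mul_eq_zero.1 h6 with h7 | h7
    · have h8 : σ c' * c⁻¹ = 1 := hinj (by rw [map_one]; exact sub_eq_zero.1 h7)
      field_simp at h8
      exact h8
    · exact absurd h7 hs0
  have hτ₀c : τ₀ c₀ = c₀ := (hcomp τ₀ τ₀ c₀ c₀ hc₀ hc₀).1
  -- all maps of the second kind are `s ↦ c₀ / s`
  have hsame : ∀ τ (c : A), H.hat τ s = algebraMap A C c * s⁻¹ → c = c₀ := by
    intro τ c hτ
    have h3 := (hcomp τ₀ τ c₀ c hc₀ hτ).1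
    apply τ₀.injective
    rw [h3, hτ₀c]
  have hdich : ∀ τ, H.hat τ s = s ∨ H.hat τ s = algebraMap A C c₀ * s⁻¹ := by
    intro τ
    rcases h1 τ with h3 | ⟨c, h3⟩
    · exact Or.inl h3
    · right
      rw [h3, hsame τ c h3]
  -- products with `τ₀`
  have hprod1 : ∀ τ, H.hat τ s = s → H.hat (τ * τ₀) s = algebraMap A C c₀ * s⁻¹ ∧ τ c₀ = c₀ := by
    intro τ hτ
    have h3 : H.hat (τ * τ₀) s = algebraMap A C (τ c₀) * s⁻¹ := by
      rw [H.hmul, hc₀, map_mul, H.hA, map_inv₀, hτ]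
    have h4 := hsame _ _ h3
    exact ⟨by rw [h3, h4], h4⟩
  have hprod2 : ∀ τ, H.hat τ s = algebraMap A C c₀ * s⁻¹ → H.hat (τ * τ₀) s = s ∧ τ c₀ = c₀ := by
    intro τ hτ
    obtain ⟨h3, h4⟩ := hcomp τ τ₀ c₀ c₀ hτ hc₀
    exact ⟨h4, h3⟩
  have hc₀fix : ∀ τ : A ≃ₐ[κ] A, τ c₀ = c₀ := by
    intro τ
    rcases hdich τ with h3 | h3
    · exact (hprod1 τ h3).2
    · exact (hprod2 τ h3).2
  obtain ⟨c, hc⟩ := fixed_mem (κ := κ) c₀ hc₀fix
  have hcne : c ≠ 0 := by
    rintro rfl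
    rw [map_zero] at hc
    exact hc₀0 hc.symm
  -- the coefficient field
  let Kp : A → Prop := fun a => (∀ τ, H.hat τ s = s → τ a = a) ∧
    ∀ τ, H.hat τ s = algebraMap A C c₀ * s⁻¹ → τ a = τ₀ a
  have hKa : ∀ a : ℤ →₀ A, lc A s a ∈ E₀ → ∀ i, Kp (a i) := by
    intro a ha i
    refine ⟨fun τ hτ => hcoef1 a ha τ hτ i, fun τ hτ => ?_⟩
    have h3 := hcoef2 a ha τ c₀ hτ i
    have h4 := hcoef2 a ha τ₀ c₀ hc₀ i
    rw [← h4] at h3
    exact mul_right_cancel₀ (zpow_ne_zero i hc₀0) h3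
  have hK1 : ∀ a, Kp a → ∀ τ, H.hat τ s = s → τ (τ₀ a) = τ₀ a := by
    intro a ha τ hτ
    exact ha.2 (τ * τ₀) (hprod1 τ hτ).1
  have hK2 : ∀ a, Kp a → ∀ τ, H.hat τ s = algebraMap A C c₀ * s⁻¹ → τ (τ₀ a) = a := by
    intro a ha τ hτ
    exact ha.1 (τ * τ₀) (hprod2 τ hτ).1
  by_cases hd : ∃ a, Kp a ∧ τ₀ a ≠ a
  swap
  · push Not at hd
    apply onConic_split hs0
    intro z hz
    obtain ⟨a, rfl⟩ := mem_lc hs0 (h2 z hz)
    refine lc_mem_kappa s a (fun i => fixed_mem _ (fun τ => ?_))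
    have h3 := hKa a hz i
    rcases hdich τ with h4 | h4
    · exact h3.1 τ h4
    · rw [h3.2 τ h4]
      exact hd _ h3
  obtain ⟨a₁, ha₁, ha₁ne⟩ := hd
  set d : A := a₁ - τ₀ a₁ with hddef
  have hd0 : d ≠ 0 := sub_ne_zero.2 (Ne.symm ha₁ne)
  have hd1 : ∀ τ, H.hat τ s = s → τ d = d := by
    intro τ hτ
    rw [hddef, map_sub, ha₁.1 τ hτ, hK1 a₁ ha₁ τ hτ]
  have hd2 : ∀ τ, H.hat τ s = algebraMap A C c₀ * s⁻¹ → τ d = -d := by
    intro τ hτ
    rw [hddef, map_sub, ha₁.2 τ hτ, hK2 a₁ ha₁ τ hτ]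
    ring
  obtain ⟨δ, hδ⟩ := fixed_mem (κ := κ) (d ^ 2) (by
    intro τ
    rw [map_pow]
    rcases hdich τ with h3 | h3
    · rw [hd1 τ h3]
    · rw [hd2 τ h3, neg_sq])
  have hδ0 : δ ≠ 0 := by
    rintro rfl
    rw [map_zero] at hδ
    exact pow_ne_zero 2 hd0 hδ.symm
  -- decomposition of the coefficients
  have hdec : ∀ a, Kp a → ∃ u v : κ, a = algebraMap κ A u + algebraMap κ A v * d ∧
      τ₀ a = algebraMap κ A u - algebraMap κ A v * d := by
    intro a ha
    obtain ⟨u, hu⟩ := fixed_mem (κ := κ) ((a + τ₀ a) / 2) (by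
      intro τ
      rw [map_div₀, map_add, map_ofNat]
      rcases hdich τ with h3 | h3
      · rw [ha.1 τ h3, hK1 a ha τ h3]
      · rw [ha.2 τ h3, hK2 a ha τ h3, add_comm])
    obtain ⟨v, hv⟩ := fixed_mem (κ := κ) ((a - τ₀ a) / (2 * d)) (by
      intro τ
      rw [map_div₀, map_sub, map_mul, map_ofNat]
      rcases hdich τ with h3 | h3
      · rw [ha.1 τ h3, hK1 a ha τ h3, hd1 τ h3]
      · rw [ha.2 τ h3, hK2 a ha τ h3, hd2 τ h3]
        rw [mul_neg, div_neg, ← neg_div, neg_sub])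
    refine ⟨u, v, ?_, ?_⟩
    · rw [hu, hv]
      field_simp
      ring
    · rw [hu, hv]
      field_simp
      ring
  -- the conic
  set D : C := algebraMap A C d with hD
  have hD0 : D ≠ 0 := (map_ne_zero _).2 hd0
  set c₁ : C := algebraMap A C c₀ with hc₁
  have hc₁0 : c₁ ≠ 0 := (map_ne_zero _).2 hc₀0
  set x : C := (s + c₁ * s⁻¹) / 2 with hx
  set y : C := (s - c₁ * s⁻¹) / (2 * D) with hy
  have hDδ : D ^ 2 = algebraMap κ C δ := by
    rw [hD, ← map_pow, ← hδ, ← IsScalarTower.algebraMap_apply κ A C]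
  have hcc : c₁ = algebraMap κ C c := by
    rw [hc₁, ← hc, ← IsScalarTower.algebraMap_apply κ A C]
  have hsx : s = x + D * y := by
    rw [hx, hy]
    field_simp
    ring
  have hsy : c₁ * s⁻¹ = x - D * y := by
    rw [hx, hy]
    field_simp
    ring
  have hss : s * (c₁ * s⁻¹) = c₁ := by
    rw [mul_comm c₁, ← mul_assoc, mul_inv_cancel₀ hs0, one_mul]
  refine ⟨x, y, c, δ, hcne, hδ0, ?_, ?_⟩
  · rw [← hDδ, ← hcc]
    calc x ^ 2 - D ^ 2 * y ^ 2 = (x + D * y) * (x - D * y) := by ring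
      _ = c₁ := by rw [← hsx, ← hsy, hss]
  intro z hz
  obtain ⟨a, rfl⟩ := mem_lc hs0 (h2 z hz)
  set W := Algebra.adjoin κ {x, y} with hW
  have hxW : x ∈ W := Algebra.subset_adjoin (by simp)
  have hyW : y ∈ W := Algebra.subset_adjoin (by simp)
  have hDW : D ^ 2 ∈ W := by
    rw [hDδ]
    exact Subalgebra.algebraMap_mem _ δ
  -- conjugate pairs
  let CP : C → C → Prop := fun z z' => ∃ p ∈ W, ∃ q ∈ W, z = p + D * q ∧ z' = p - D * q
  have hCPmul : ∀ z z' w w', CP z z' → CP w w' → CP (z * w) (z' * w') := by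
    rintro z z' w w' ⟨p, hp, q, hq, rfl, rfl⟩ ⟨p', hp', q', hq', rfl, rfl⟩
    refine ⟨p * p' + D ^ 2 * (q * q'), ?_, p * q' + q * p', ?_, by ring, by ring⟩
    · exact W.add_mem (W.mul_mem hp hp') (W.mul_mem hDW (W.mul_mem hq hq'))
    · exact W.add_mem (W.mul_mem hp hq') (W.mul_mem hq hp')
  have hCPone : CP 1 1 := ⟨1, W.one_mem, 0, W.zero_mem, by ring, by ring⟩
  have hCPpow : ∀ z z', CP z z' → ∀ n : ℕ, CP (z ^ n) (z' ^ n) := by
    intro z z' h n
    induction n with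
    | zero => simpa using hCPone
    | succ n ih =>
      rw [pow_succ, pow_succ]
      exact hCPmul _ _ _ _ ih h
  have hCPs : CP s (c₁ * s⁻¹) := ⟨x, hxW, y, hyW, hsx, hsy⟩
  have hCPi : CP s⁻¹ (c₁ * s⁻¹)⁻¹ := by
    have hcW : algebraMap κ C c⁻¹ ∈ W := Subalgebra.algebraMap_mem _ _
    refine ⟨algebraMap κ C c⁻¹ * x, W.mul_mem hcW hxW, -(algebraMap κ C c⁻¹ * y),
      W.neg_mem (W.mul_mem hcW hyW), ?_, ?_⟩
    · have h3 : s⁻¹ = c₁⁻¹ * (c₁ * s⁻¹) := by
        rw [← mul_assoc, inv_mul_cancel₀ hc₁0, one_mul]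
      rw [h3, hsy, hcc, ← map_inv₀]
      ring
    · have h3 : (c₁ * s⁻¹)⁻¹ = c₁⁻¹ * s := by
        rw [mul_inv, inv_inv]
      rw [h3, hcc, ← map_inv₀]
      nth_rewrite 1 [hsx]
      ring
  have hCPz : ∀ i : ℤ, CP (s ^ i) ((c₁ * s⁻¹) ^ i) := by
    intro i
    rcases Int.eq_nat_or_neg i with ⟨n, rfl | rfl⟩
    · rw [zpow_natCast, zpow_natCast]
      exact hCPpow _ _ hCPs n
    · rw [zpow_neg, zpow_neg, zpow_natCast, zpow_natCast, ← inv_pow, ← inv_pow]
      exact hCPpow _ _ hCPi n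
  -- twice the element
  have htwo : lc A s a + lc A s a ∈ W := by
    have h3 : lc A s a + lc A s a = ∑ i ∈ a.support,
        (algebraMap A C (a i) * s ^ i + algebraMap A C (τ₀ (a i)) * (c₁ * s⁻¹) ^ i) := by
      rw [Finset.sum_add_distrib]
      congr 1
      · rw [lc_apply]
        rfl
      · conv_lhs => rw [← H.hfix τ₀ _ hz]
        rw [lc_apply, Finsupp.sum, map_sum]
        refine Finset.sum_congr rfl (fun i _ => ?_)
        rw [map_mul, H.hA, map_zpow₀, hc₀]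
    rw [h3]
    refine Subalgebra.sum_mem _ (fun i _ => ?_)
    obtain ⟨u, v, hu, hv⟩ := hdec _ (hKa a hz i)
    obtain ⟨p, hp, q, hq, e1, e2⟩ := hCPz i
    rw [hv, e2, e1]
    rw [hu]
    rw [map_add, map_sub, map_mul, ← IsScalarTower.algebraMap_apply κ A C,
      ← IsScalarTower.algebraMap_apply κ A C, ← hD]
    have h4 : (algebraMap κ C u + algebraMap κ C v * D) * (p + D * q) +
        (algebraMap κ C u - algebraMap κ C v * D) * (p - D * q) =
        (algebraMap κ C u * p + algebraMap κ C v * (D ^ 2 * q)) +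
        (algebraMap κ C u * p + algebraMap κ C v * (D ^ 2 * q)) := by ring
    rw [h4]
    have h5 : algebraMap κ C u * p + algebraMap κ C v * (D ^ 2 * q) ∈ W :=
      W.add_mem (W.mul_mem (Subalgebra.algebraMap_mem _ u) hp)
        (W.mul_mem (Subalgebra.algebraMap_mem _ v) (W.mul_mem hDW hq))
    exact W.add_mem h5 h5
  have h6 : lc A s a = algebraMap κ C (1 / 2) * (lc A s a + lc A s a) := by
    have h2' : algebraMap κ C (1 / 2) * 2 = 1 := by
      rw [← map_ofNat (algebraMap κ C) 2, ← map_mul]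
      norm_num
    linear_combination (-(lc A s a)) * h2'
  rw [h6]
  exact W.mul_mem (Subalgebra.algebraMap_mem _ _) htwo

end

end Pool.Agent.SRF
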