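import Pool.Agent.SRF.CNB

/-!
# SRF CNC: descent, normalization of the unit
-/

set_option autoImplicit false

namespace Pool.Agent.SRF

open Polynomial hiding map_ne_zero

section

variable {κ A C : Type} [Field κ] [Field A] [Field C] [Algebra κ A] [Algebra A C] [Algebra κ C]
  [IsScalarTower κ A C]

theorem transc_zpow {s : C} (hs : Transcendental A s) {g : ℤ} (hg : g ≠ 0) {a : A} (ha : a ≠ 0) :
    Transcendental A (algebraMap A C a * s ^ g) := by
  intro h
  apply hs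
  have ha' : algebraMap A C a ≠ 0 := (map_ne_zero _).2 ha
  have h1 : IsAlgebraic A (s ^ g) := by
    have h2 := (isAlgebraic_algebraMap (A := C) a).inv.mul h
    rwa [← mul_assoc, inv_mul_cancel₀ ha', one_mul] at h2
  rcases Int.eq_nat_or_neg g with ⟨n, rfl | rfl⟩
  · rw [zpow_natCast] at h1
    exact h1.of_pow (by omega)
  · rw [zpow_neg, zpow_natCast] at h1
    have h3 := h1.inv
    rw [inv_inv] at h3
    exact h3.of_pow (by omega)

/-- exponents which can be normalized -/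
def good {E₀ : Set C} (H : Hat κ A C E₀) {s : C} (hs0 : s ≠ 0) : AddSubgroup ℤ where
  carrier := {n | ∃ a : A, a ≠ 0 ∧ ∀ (τ : A ≃ₐ[κ] A) (γ : A),
    H.hat τ s = algebraMap A C γ * s → τ a * γ ^ n = a}
  zero_mem' := ⟨1, one_ne_zero, fun τ γ _ => by rw [map_one, zpow_zero, one_mul]⟩
  add_mem' := by
    rintro n m ⟨a, ha, h⟩ ⟨b, hb, h'⟩
    refine ⟨a * b, mul_ne_zero ha hb, fun τ γ hγ => ?_⟩
    have hγ0 : γ ≠ 0 := by
      rintro rfl
      rw [map_zero, zero_mul, map_eq_zero] at hγ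
      exact hs0 hγ
    rw [map_mul, zpow_add₀ hγ0, mul_mul_mul_comm, h τ γ hγ, h' τ γ hγ]
  neg_mem' := by
    rintro n ⟨a, ha, h⟩
    refine ⟨a⁻¹, inv_ne_zero ha, fun τ γ hγ => ?_⟩
    rw [map_inv₀, zpow_neg, ← mul_inv, h τ γ hγ]

/-- the descent from a generator with monomial conjugates -/
theorem conic' [CharZero κ] [IsGalois κ A] {E₀ : Set C} (H : Hat κ A C E₀) {s : C}
    (hs : Transcendental A s)
    (h1 : ∀ τ, ∃ c : A, H.hat τ s = algebraMap A C c * s ∨ H.hat τ s = algebraMap A C c * s⁻¹)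
    (h2 : ∀ x ∈ E₀, x ∈ Algebra.adjoin A {s, s⁻¹})
    (h3 : ∃ x ∈ E₀, ∀ a : A, x ≠ algebraMap A C a) : OnConic κ E₀ := by
  classical
  have hs0 := transc_ne_zero hs
  obtain ⟨g, hg⟩ := Int.subgroup_cyclic (good H hs0)
  have hgmem : g ∈ good H hs0 := by
    rw [hg]
    exact AddSubgroup.subset_closure (by simp)
  obtain ⟨a, ha, haτ⟩ := hgmem
  have hexp : ∀ f : ℤ →₀ A, lc A s f ∈ E₀ → ∀ i, f i ≠ 0 → ∃ k : ℤ, i = k * g := by
    intro f hf i hi
    have h4 : i ∈ good H hs0 := by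
      refine ⟨f i, hi, fun τ γ hγ => ?_⟩
      exact fix_one hs (τ : A →+* A) (H.hat τ) (H.hA τ) hγ f (H.hfix τ _ hf) i
    rw [hg, AddSubgroup.mem_closure_singleton] at h4
    obtain ⟨k, hk⟩ := h4
    exact ⟨k, by rw [← hk, smul_eq_mul]⟩
  have ha' : algebraMap A C a ≠ 0 := (map_ne_zero _).2 ha
  have hg0 : g ≠ 0 := by
    rintro rfl
    obtain ⟨x, hx, hxa⟩ := h3
    obtain ⟨f, rfl⟩ := mem_lc hs0 (h2 x hx)
    apply hxa (f 0)
    rw [lc_apply]
    rw [Finsupp.sum, Finset.sum_eq_single 0]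
    · rw [zpow_zero, mul_one]
    · intro i hi hi0
      obtain ⟨k, hk⟩ := hexp f hx i (Finsupp.mem_support_iff.1 hi)
      rw [mul_zero] at hk
      exact absurd hk hi0
    · intro h
      rw [Finsupp.notMem_support_iff.1 h, map_zero, zero_mul]
  refine conic H (transc_zpow hs hg0 ha) ?_ ?_
  · intro τ
    obtain ⟨γ, hγ | hγ⟩ := h1 τ
    · left
      rw [map_mul, map_zpow₀, H.hA, hγ, mul_zpow, ← map_zpow₀, ← mul_assoc, ← map_mul,
        haτ τ γ hγ]
    · right
      refine ⟨τ a * γ ^ g * a, ?_⟩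
      rw [map_mul, map_zpow₀, H.hA, hγ, mul_zpow, mul_inv, map_mul, map_mul, map_zpow₀,
        inv_zpow]
      field_simp
  · intro x hx
    obtain ⟨f, rfl⟩ := mem_lc hs0 (h2 x hx)
    refine lc_mem (Algebra.adjoin A {algebraMap A C a * s ^ g,
      (algebraMap A C a * s ^ g)⁻¹}).toSubring s f (fun i hi => ?_)
    obtain ⟨k, rfl⟩ := hexp f hx i hi
    have h4 : s ^ (k * g) = algebraMap A C (a ^ (-k)) * (algebraMap A C a * s ^ g) ^ k := by
      rw [mul_zpow, map_zpow₀, ← mul_assoc, ← zpow_add₀ ha', neg_add_cancel, zpow_zero, one_mul,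
        ← zpow_mul, mul_comm]
    rw [h4]
    refine Subalgebra.mul_mem _ (Subalgebra.algebraMap_mem _ _)
      (Subalgebra.mul_mem _ (Subalgebra.algebraMap_mem _ _) (zpow_mem_adjoin A _ k))

end

end Pool.Agent.SRF
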