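import Pool.Agent.SRF.CNC

/-!
# SRF CND: the conjugates of the generator
-/

set_option autoImplicit false

namespace Pool.Agent.SRF

open Polynomial hiding map_ne_zero
open IntermediateField

section

variable {A Ω : Type} [Field A] [Field Ω] [Algebra A Ω]

/-- elements of a simple transcendental extension as coprime quotients -/
theorem rep_coprime {s : Ω} (hs : Transcendental A s) (hgen : ∀ w : Ω, w ∈ A⟮s⟯) (w : Ω) :
    ∃ p q : A[X], IsCoprime p q ∧ q ≠ 0 ∧ aeval s q ≠ 0 ∧ w * aeval s q = aeval s p := by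
  let e := RatFunc.algEquivOfTranscendental s hs
  let u : RatFunc A := e.symm ⟨w, hgen w⟩
  have hq0 : aeval s u.denom ≠ 0 := fun h => u.denom_ne_zero ((transcendental_iff.1 hs) _ h)
  refine ⟨u.num, u.denom, u.isCoprime_num_denom, u.denom_ne_zero, hq0, ?_⟩
  have h1 : e u = ⟨w, hgen w⟩ := e.apply_symm_apply _
  have h2 := RatFunc.algEquivOfTranscendental_apply (K := A) s hs u
  rw [show RatFunc.algEquivOfTranscendental s hs = e from rfl, h1] at h2
  have h3 : w = aeval s u.num / aeval s u.denom := h2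
  rw [h3, div_mul_cancel₀ _ hq0]

/-- a polynomial all of whose roots are zero -/
theorem all_zero [IsAlgClosed A] (q : A[X]) (hq : q ≠ 0) (h : ∀ c, q.eval c = 0 → c = 0) :
    ∃ (a : A) (n : ℕ), a ≠ 0 ∧ q = C a * X ^ n := by
  have h1 := (IsAlgClosed.splits q).eq_prod_roots
  have h2 : q.roots = Multiset.replicate (Multiset.card q.roots) 0 :=
    Multiset.eq_replicate_card.2 (fun c hc => h c ((mem_roots hq).1 hc))
  rw [h2, Multiset.map_replicate, Multiset.prod_replicate, map_zero, sub_zero] at h1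
  exact ⟨_, _, leadingCoeff_ne_zero.2 hq, h1⟩

/-- the homogenized identity -/
theorem homog {s : Ω} (hs : Transcendental A s) (τ : A →+* A) (h : Ω →+* Ω)
    (hτ : ∀ a, h (algebraMap A Ω a) = algebraMap A Ω (τ a)) {x : Ω} (hx : h x = x) {m : ℕ}
    {P : A[X]} (hP : x * s ^ m = aeval s P) {p q : A[X]} (hq : aeval s q ≠ 0)
    (hpq : h s * aeval s q = aeval s p) (M : ℕ) (hM : P.natDegree ≤ M) (hm : m ≤ M) :
    P * p ^ m * q ^ (M - m) =
      X ^ m * ∑ i ∈ Finset.range (P.natDegree + 1), C (τ (P.coeff i)) * p ^ i * q ^ (M - i) := by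
  have hinj : Function.Injective (aeval s : A[X] →ₐ[A] Ω) := by
    rw [injective_iff_map_eq_zero]
    exact fun r hr => (transcendental_iff.1 hs) r hr
  apply hinj
  set w : Ω := h s with hw
  have hhP : h (aeval s P) = ∑ i ∈ Finset.range (P.natDegree + 1),
      algebraMap A Ω (τ (P.coeff i)) * w ^ i := by
    rw [aeval_eq_sum_range, map_sum]
    refine Finset.sum_congr rfl (fun i _ => ?_)
    rw [Algebra.smul_def, map_mul, map_pow, hτ]
  have e1 : aeval s (P * p ^ m * q ^ (M - m)) = x * s ^ m * w ^ m * aeval s q ^ M := by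
    rw [map_mul, map_mul, map_pow, map_pow, ← hP, ← hpq, mul_pow]
    have : aeval s q ^ M = aeval s q ^ m * aeval s q ^ (M - m) := by
      rw [← pow_add]
      congr 1
      omega
    rw [this]
    ring
  have e2 : aeval s (X ^ m * ∑ i ∈ Finset.range (P.natDegree + 1),
      C (τ (P.coeff i)) * p ^ i * q ^ (M - i)) = s ^ m * aeval s q ^ M * h (aeval s P) := by
    rw [map_mul, map_pow, aeval_X, map_sum, hhP, mul_assoc]
    congr 1
    rw [Finset.mul_sum]
    refine Finset.sum_congr rfl (fun i hi => ?_)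
    rw [Finset.mem_range] at hi
    rw [map_mul, map_mul, map_pow, map_pow, aeval_C, ← hpq, mul_pow]
    have : aeval s q ^ M = aeval s q ^ i * aeval s q ^ (M - i) := by
      rw [← pow_add]
      congr 1
      omega
    rw [this]
    ring
  rw [e1, e2, ← hP, map_mul, map_pow, hx]
  ring

/-- poles of the conjugate -/
theorem root_q {s : Ω} (hs : Transcendental A s) (τ : A →+* A) (h : Ω →+* Ω)
    (hτ : ∀ a, h (algebraMap A Ω a) = algebraMap A Ω (τ a)) {x : Ω} (hx : h x = x) {m : ℕ}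
    {P : A[X]} (hP : x * s ^ m = aeval s P) {p q : A[X]} (hcop : IsCoprime p q)
    (hq : aeval s q ≠ 0) (hpq : h s * aeval s q = aeval s p) (hm : m < P.natDegree) (c : A)
    (hc : q.eval c = 0) : c ^ m = 0 := by
  have h1 := congrArg (eval c) (homog hs τ h hτ hx hP hq hpq P.natDegree le_rfl hm.le)
  rw [eval_mul, eval_pow, hc, zero_pow (by omega), mul_zero, eval_mul, eval_pow, eval_X,
    eval_finsetSum] at h1
  rw [Finset.sum_eq_single P.natDegree] at h1
  · rw [Nat.sub_self, pow_zero, mul_one, eval_mul, eval_C, eval_pow] at h1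
    have hpc : p.eval c ≠ 0 := by
      intro h0
      obtain ⟨a, b, hab⟩ := hcop
      have := congrArg (eval c) hab
      rw [eval_add, eval_mul, eval_mul, h0, hc] at this
      simp at this
    have hP0 : P ≠ 0 := by
      rintro rfl
      simp at hm
    have hlc : τ (P.coeff P.natDegree) ≠ 0 :=
      (map_ne_zero τ).2 (leadingCoeff_ne_zero.2 hP0)
    rcases mul_eq_zero.1 h1.symm with h2 | h2
    · exact h2
    · exact absurd h2 (mul_ne_zero hlc (pow_ne_zero _ hpc))
  · intro i hi hne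
    rw [Finset.mem_range] at hi
    rw [eval_mul, eval_pow, hc, zero_pow (by omega), mul_zero]
  · intro h2
    exact absurd (Finset.self_mem_range_succ _) h2

/-- zeros of the conjugate -/
theorem root_p {s : Ω} (hs : Transcendental A s) (τ : A →+* A) (h : Ω →+* Ω)
    (hτ : ∀ a, h (algebraMap A Ω a) = algebraMap A Ω (τ a)) {x : Ω} (hx : h x = x) {m : ℕ}
    {P : A[X]} (hP : x * s ^ m = aeval s P) {p q : A[X]} (hcop : IsCoprime p q)
    (hq : aeval s q ≠ 0) (hpq : h s * aeval s q = aeval s p) (hm : 1 ≤ m) (hP0 : P.coeff 0 ≠ 0)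
    (c : A) (hc : p.eval c = 0) : c = 0 := by
  have h1 := congrArg (eval c) (homog hs τ h hτ hx hP hq hpq (P.natDegree + m) (by omega)
    (by omega))
  rw [eval_mul, eval_mul, eval_pow, hc, zero_pow (by omega), mul_zero, zero_mul, eval_mul,
    eval_pow, eval_X, eval_finsetSum] at h1
  rw [Finset.sum_eq_single 0] at h1
  · rw [pow_zero, mul_one, eval_mul, eval_C, eval_pow] at h1
    have hqc : q.eval c ≠ 0 := by
      intro h0
      obtain ⟨a, b, hab⟩ := hcop
      have := congrArg (eval c) hab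
      rw [eval_add, eval_mul, eval_mul, h0, hc] at this
      simp at this
    rcases mul_eq_zero.1 h1.symm with h2 | h2
    · exact pow_eq_zero_iff (by omega) |>.1 h2
    · exact absurd h2 (mul_ne_zero ((map_ne_zero τ).2 hP0) (pow_ne_zero _ hqc))
  · intro i hi hne
    rw [eval_mul, eval_mul, eval_pow, hc, zero_pow hne, mul_zero, zero_mul]
  · intro h2
    exact absurd (Finset.mem_range.2 (by omega)) h2

end

section

variable {κ A Ω : Type} [Field κ] [Field A] [Field Ω] [Algebra κ A] [Algebra A Ω] [Algebra κ Ω]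
  [IsScalarTower κ A Ω]

theorem Hat.one {E₀ : Set Ω} (H : Hat κ A Ω E₀) (z : Ω) : H.hat 1 z = z := by
  apply (H.hat 1).injective
  rw [← H.hmul, mul_one]

/-- two poles -/
theorem descent_two [IsAlgClosed A] [CharZero κ] [IsGalois κ A] {E₀ : Set Ω} (H : Hat κ A Ω E₀)
    {s : Ω} (hs : Transcendental A s) (hgen : ∀ w : Ω, w ∈ A⟮s⟯)
    (h2 : ∀ x ∈ E₀, x ∈ Algebra.adjoin A {s, s⁻¹})
    (h3 : ∃ x ∈ E₀, ∀ a : A, x ≠ algebraMap A Ω a)
    (hi : ∃ x ∈ E₀, ∃ (m : ℕ) (P : A[X]), m < P.natDegree ∧ x * s ^ m = aeval s P)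
    (hii : ∃ x ∈ E₀, ∃ (m : ℕ) (P : A[X]), 1 ≤ m ∧ P.coeff 0 ≠ 0 ∧ x * s ^ m = aeval s P) :
    OnConic κ E₀ := by
  classical
  have hs0 := transc_ne_zero hs
  obtain ⟨x, hx, m, P, hm, hP⟩ := hi
  obtain ⟨x', hx', m', P', hm', hP0', hP'⟩ := hii
  -- all conjugates are monomials
  have hmon : ∀ τ, ∃ (γ : A) (n : ℤ), γ ≠ 0 ∧ H.hat τ s = algebraMap A Ω γ * s ^ n := by
    intro τ
    obtain ⟨p, q, hcop, hq0, hqs, hpq⟩ := rep_coprime hs hgen (H.hat τ s)
    have hq : ∀ c, q.eval c = 0 → c = 0 := by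
      intro c hc
      have h4 := root_q hs (τ : A →+* A) (H.hat τ) (H.hA τ) (H.hfix τ x hx) hP hcop hqs hpq hm c hc
      by_contra hne
      exact pow_ne_zero m hne h4
    have hp : ∀ c, p.eval c = 0 → c = 0 := fun c hc =>
      root_p hs (τ : A →+* A) (H.hat τ) (H.hA τ) (H.hfix τ x' hx') hP' hcop hqs hpq hm' hP0' c hc
    have hp0 : p ≠ 0 := by
      rintro rfl
      rw [map_zero] at hpq
      rcases mul_eq_zero.1 hpq with h4 | h4
      · rw [map_eq_zero] at h4
        exact hs0 h4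
      · exact hqs h4
    obtain ⟨a, k, ha, rfl⟩ := all_zero p hp0 hp
    obtain ⟨b, l, hb, rfl⟩ := all_zero q hq0 hq
    refine ⟨a * b⁻¹, k - l, mul_ne_zero ha (inv_ne_zero hb), ?_⟩
    have hb' : algebraMap A Ω b ≠ 0 := (map_ne_zero _).2 hb
    rw [map_mul, map_mul, aeval_C, aeval_C, map_pow, map_pow, aeval_X] at hpq
    rw [map_mul, map_inv₀, zpow_sub₀ hs0, zpow_natCast, zpow_natCast]
    field_simp
    linear_combination hpq
  refine conic' H hs ?_ h2 h3
  intro τ
  obtain ⟨γ, n, hγ, hn⟩ := hmon τ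
  obtain ⟨γ', n', hγ', hn'⟩ := hmon τ⁻¹
  have h4 : H.hat (τ⁻¹ * τ) s = s := by
    rw [inv_mul_cancel, H.one]
  have h5 : algebraMap A Ω (τ⁻¹ γ * γ' ^ n) * s ^ (n' * n) = s := by
    rw [H.hmul, hn, map_mul, H.hA, map_zpow₀, hn', mul_zpow, ← zpow_mul] at h4
    rw [map_mul, map_zpow₀, mul_assoc]
    exact h4
  have h6 : lc A s (Finsupp.single (n' * n) (τ⁻¹ γ * γ' ^ n)) = lc A s (Finsupp.single 1 1) := by
    unfold lc
    rw [Finsupp.linearCombination_single, Finsupp.linearCombination_single, one_smul, zpow_one,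
      Algebra.smul_def]
    exact h5
  have h7 := lc_inj hs h6
  have h8 : n' * n = 1 := by
    by_contra hne
    have h9 := congrArg (fun f : ℤ →₀ A => f 1) h7
    simp only [Finsupp.single_apply, if_neg hne] at h9
    simp at h9
  have h10 : n = 1 ∨ n = -1 := Int.isUnit_iff.1 (IsUnit.of_mul_eq_one n' (by rw [mul_comm]; exact h8))
  refine ⟨γ, ?_⟩
  rcases h10 with rfl | rfl
  · left
    rw [hn, zpow_one]
  · right
    rw [hn, zpow_neg, zpow_one]

end

end Pool.Agent.SRF
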