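import Pool.Agent.SRF.CND

/-!
# SRF CNE: descent, the case of one pole, and the general case
-/

set_option autoImplicit false

namespace Pool.Agent.SRF

open Polynomial hiding map_ne_zero
open IntermediateField

section

variable {A Ω : Type} [Field A] [Field Ω] [Algebra A Ω]

theorem hom_aeval (τ : A →+* A) (h : Ω →+* Ω)
    (hτ : ∀ a, h (algebraMap A Ω a) = algebraMap A Ω (τ a)) (s : Ω) (P : A[X]) :
    h (aeval s P) = aeval (h s) (P.map τ) := by
  rw [aeval_def, hom_eval₂, aeval_def, eval₂_map]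
  congr 1
  exact RingHom.ext hτ

theorem cen_aux (D P₁ Q₁ f₁ g₁ α β e : A) (hD : D ≠ 0) (hα : α ≠ 0) (he : e ≠ 0) (hg : g₁ ≠ 0)
    (h1 : Q₁ = g₁ * (α * e)) (h2 : P₁ = (f₁ + D * g₁ * β) * e) :
    α * (-P₁ / (D * Q₁)) + β = -f₁ / (D * g₁) := by
  rw [h1, h2]
  field_simp
  ring

/-- the coefficients of a polynomial after a linear substitution -/
theorem coeff_linear (f : A[X]) (D : ℕ) (hD : 1 ≤ D) (hf : f.natDegree = D) (α β : A) :
    (f.comp (C α * X + C β)).coeff D = f.coeff D * α ^ D ∧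
    (f.comp (C α * X + C β)).coeff (D - 1) =
      (f.coeff (D - 1) + D * f.coeff D * β) * α ^ (D - 1) := by
  have h1 : f.comp (C α * X + C β) = (taylor β f).comp (C α * X) := by
    rw [taylor_apply, comp_assoc]
    congr 1
    simp
  rw [h1, comp_C_mul_X_coeff, comp_C_mul_X_coeff]
  constructor
  · congr 1
    rw [← hf]
    exact coeff_taylor_natDegree β f
  · congr 1
    rw [taylor_coeff]
    have h2 : (hasseDeriv (D - 1) f).natDegree ≤ 1 := by
      have := natDegree_hasseDeriv_le f (D - 1)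
      omega
    rw [eq_X_add_C_of_natDegree_le_one h2, hasseDeriv_coeff, hasseDeriv_coeff]
    have e1 : 1 + (D - 1) = D := by omega
    have e2 : 0 + (D - 1) = D - 1 := by omega
    rw [e1, e2, Nat.choose_self]
    have e3 : D.choose (D - 1) = D := by
      obtain ⟨n, rfl⟩ := Nat.exists_eq_add_of_le hD
      rw [show 1 + n - 1 = n by omega, show 1 + n = n + 1 by ring]
      exact Nat.choose_succ_self_right n
    rw [e3]
    simp
    ring

end

section

variable {κ A Ω : Type} [Field κ] [Field A] [Field Ω] [Algebra κ A] [Algebra A Ω] [Algebra κ Ω]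
  [IsScalarTower κ A Ω]

/-- one pole -/
theorem descent_one [IsAlgClosed A] [CharZero κ] [IsGalois κ A] {E₀ : Set Ω} (H : Hat κ A Ω E₀)
    {s : Ω} (hs : Transcendental A s) (hgen : ∀ w : Ω, w ∈ A⟮s⟯)
    (h2 : ∀ x ∈ E₀, ∃ P : A[X], x = aeval s P)
    (h3 : ∃ x ∈ E₀, ∀ a : A, x ≠ algebraMap A Ω a) : OnConic κ E₀ := by
  classical
  have hs0 := transc_ne_zero hs
  have hchA : CharZero A := charZero_of_injective_algebraMap (algebraMap κ A).injective
  have hinj : Function.Injective (aeval s : A[X] →ₐ[A] Ω) := by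
    rw [injective_iff_map_eq_zero]
    exact fun r hr => (transcendental_iff.1 hs) r hr
  obtain ⟨x, hx, hxa⟩ := h3
  obtain ⟨P, hP⟩ := h2 x hx
  set D : ℕ := P.natDegree with hD
  have hD1 : 1 ≤ D := by
    by_contra hlt
    apply hxa (P.coeff 0)
    rw [hP, eq_C_of_natDegree_eq_zero (by omega : P.natDegree = 0), aeval_C, coeff_C_zero]
  have hP0 : P ≠ 0 := by
    rintro rfl
    simp at hD
    omega
  have hPD : P.coeff D ≠ 0 := leadingCoeff_ne_zero.2 hP0
  have hDA : (D : A) ≠ 0 := by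
    have : (D : A) ≠ ((0 : ℕ) : A) := by
      intro h
      have := Nat.cast_injective h
      omega
    simpa using this
  -- the conjugates
  have hlin : ∀ τ, ∃ α β : A, α ≠ 0 ∧
      H.hat τ s = algebraMap A Ω α * s + algebraMap A Ω β ∧
      (P.map (τ : A →+* A)).comp (C α * X + C β) = P := by
    intro τ
    obtain ⟨p, q, hcop, hq0, hqs, hpq⟩ := rep_coprime hs hgen (H.hat τ s)
    have hq : ∀ c, q.eval c ≠ 0 := by
      intro c hc
      have h4 := root_q hs (τ : A →+* A) (H.hat τ) (H.hA τ) (H.hfix τ x hx) (m := 0)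
        (P := P) (by rw [pow_zero, mul_one, hP]) hcop hqs hpq (by omega) c hc
      simp at h4
    have hqd : q.natDegree = 0 := by
      by_contra hne
      obtain ⟨c, hc⟩ := IsAlgClosed.exists_root q (by
        intro h
        apply hne
        exact natDegree_eq_of_degree_eq_some h)
      exact hq c hc
    obtain ⟨b, hb⟩ : ∃ b, q = C b := ⟨_, eq_C_of_natDegree_eq_zero hqd⟩
    have hb0 : b ≠ 0 := by
      rintro rfl
      rw [map_zero] at hb
      exact hq0 hb
    have hb' : algebraMap A Ω b ≠ 0 := (map_ne_zero _).2 hb0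
    set p' : A[X] := C b⁻¹ * p with hp'
    have hw : H.hat τ s = aeval s p' := by
      rw [hp', map_mul, aeval_C, ← hpq, hb, aeval_C, map_inv₀]
      field_simp
    have hcomp : (P.map (τ : A →+* A)).comp p' = P := by
      apply hinj
      rw [aeval_comp, ← hw, ← hom_aeval (τ : A →+* A) (H.hat τ) (H.hA τ), ← hP, H.hfix τ x hx]
    have hdeg : p'.natDegree = 1 := by
      have h4 := congrArg natDegree hcomp
      rw [natDegree_comp, natDegree_map, ← hD] at h4
      exact Nat.eq_of_mul_eq_mul_left (show 0 < D by omega) (by rw [h4, mul_one])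
    have hp'' := eq_X_add_C_of_natDegree_le_one hdeg.le
    refine ⟨p'.coeff 1, p'.coeff 0, ?_, ?_, ?_⟩
    · have h5 : p' ≠ 0 := by
        intro h0
        rw [h0] at hdeg
        simp at hdeg
      have h6 := leadingCoeff_ne_zero.2 h5
      rw [leadingCoeff, hdeg] at h6
      exact h6
    · rw [hw]
      nth_rewrite 1 [hp'']
      rw [map_add, map_mul, aeval_C, aeval_X, aeval_C]
    · rw [← hp'']
      exact hcomp
  -- the center of the roots
  set ρ : A := -(P.coeff (D - 1)) / (D * P.coeff D) with hρ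
  have hcen : ∀ (τ : A ≃ₐ[κ] A) (α β : A), α ≠ 0 →
      (P.map (τ : A →+* A)).comp (C α * X + C β) = P → α * ρ + β = τ ρ := by
    intro τ α β hα hcomp
    have hfD : (P.map (τ : A →+* A)).natDegree = D := by
      rw [natDegree_map]
    obtain ⟨h4, h5⟩ := coeff_linear (P.map (τ : A →+* A)) D hD1 hfD α β
    rw [hcomp] at h4 h5
    rw [coeff_map] at h4
    rw [coeff_map, coeff_map] at h5
    have hτD : τ (P.coeff D) ≠ 0 := (map_ne_zero τ).2 hPD
    have h4' : P.coeff D = τ (P.coeff D) * α ^ D := h4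
    have h5' : P.coeff (D - 1) =
        (τ (P.coeff (D - 1)) + D * τ (P.coeff D) * β) * α ^ (D - 1) := h5
    have hτρ : τ ρ = -(τ (P.coeff (D - 1))) / (D * τ (P.coeff D)) := by
      rw [hρ, map_div₀, map_neg, map_mul, map_natCast]
    have hαD : α ^ D = α * α ^ (D - 1) := by
      rw [← pow_succ']
      congr 1
      omega
    have hα' : α ^ (D - 1) ≠ 0 := pow_ne_zero _ hα
    rw [hαD] at h4'
    rw [hτρ, hρ]
    exact cen_aux _ _ _ _ _ _ _ _ hDA hα hα' hτD h4' h5'
  set s' : Ω := s - algebraMap A Ω ρ with hs'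
  have hs't : Transcendental A s' := by
    intro h
    apply hs
    have h1 := h.add (isAlgebraic_algebraMap (A := Ω) ρ)
    rwa [hs', sub_add_cancel] at h1
  refine conic' H hs't ?_ ?_ ⟨x, hx, hxa⟩
  · intro τ
    obtain ⟨α, β, hα, hτs, hcomp⟩ := hlin τ
    refine ⟨α, Or.inl ?_⟩
    have h4 := hcen τ α β hα hcomp
    rw [hs', map_sub, hτs, H.hA, ← h4, map_add, map_mul]
    ring
  · intro y hy
    obtain ⟨Q, rfl⟩ := h2 y hy
    have h4 : aeval s Q ∈ Algebra.adjoin A {s} := aeval_mem_adjoin_singleton A s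
    have h5 : Algebra.adjoin A {s} ≤ Algebra.adjoin A {s', s'⁻¹} := by
      rw [Algebra.adjoin_le_iff]
      rintro z hz
      rw [Set.mem_singleton_iff] at hz
      subst hz
      have h6 : z = s' + algebraMap A Ω ρ := by
        rw [hs']
        ring
      show z ∈ Algebra.adjoin A {s', s'⁻¹}
      rw [h6]
      exact Subalgebra.add_mem _ (Algebra.subset_adjoin (by simp)) (Subalgebra.algebraMap_mem _ _)
    exact h5 h4

/-- **the descent** -/
theorem descent [IsAlgClosed A] [CharZero κ] [IsGalois κ A] {E₀ : Set Ω} (H : Hat κ A Ω E₀)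
    {s : Ω} (hs : Transcendental A s) (hgen : ∀ w : Ω, w ∈ A⟮s⟯)
    (h2 : ∀ x ∈ E₀, x ∈ Algebra.adjoin A {s, s⁻¹})
    (h3 : ∃ x ∈ E₀, ∀ a : A, x ≠ algebraMap A Ω a) : OnConic κ E₀ := by
  classical
  have hs0 := transc_ne_zero hs
  -- numerators
  have hnum : ∀ x ∈ E₀, ∃ (m : ℕ) (P : A[X]), x * s ^ m = aeval s P := by
    intro x hx
    obtain ⟨a, rfl⟩ := mem_lc hs0 (h2 x hx)
    obtain ⟨N, hN⟩ : ∃ N : ℕ, ∀ i ∈ a.support, 0 ≤ i + N := by
      refine ⟨∑ i ∈ a.support, i.natAbs, fun i hi => ?_⟩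
      have h1 : i.natAbs ≤ ∑ i ∈ a.support, i.natAbs :=
        Finset.single_le_sum (f := fun i : ℤ => i.natAbs) (fun _ _ => Nat.zero_le _) hi
      omega
    refine ⟨N, ∑ i ∈ a.support, monomial (i + N).toNat (a i), ?_⟩
    rw [lc_apply, Finsupp.sum, Finset.sum_mul, map_sum]
    refine Finset.sum_congr rfl (fun i hi => ?_)
    rw [aeval_monomial, mul_assoc]
    congr 1
    rw [← zpow_natCast s N, ← zpow_add₀ hs0, ← zpow_natCast s, Int.toNat_of_nonneg (hN i hi)]
  by_cases hii : ∃ x ∈ E₀, ∃ (m : ℕ) (P : A[X]), 1 ≤ m ∧ P.coeff 0 ≠ 0 ∧ x * s ^ m = aeval s P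
  swap
  · -- no pole at zero
    push Not at hii
    refine descent_one H hs hgen ?_ h3
    intro x hx
    obtain ⟨m, P, hP⟩ := hnum x hx
    have key : ∀ (m : ℕ) (P : A[X]), x * s ^ m = aeval s P → ∃ P : A[X], x = aeval s P := by
      intro m
      induction m with
      | zero =>
        intro P hP
        exact ⟨P, by rw [← hP, pow_zero, mul_one]⟩
      | succ m ih =>
        intro P hP
        have h4 : P.coeff 0 = 0 := by
          by_contra hne
          exact hii x hx (m + 1) P (by omega) hne hP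
        obtain ⟨Q, rfl⟩ := X_dvd_iff.2 h4
        refine ih Q ?_
        rw [map_mul, aeval_X, pow_succ] at hP
        apply mul_left_cancel₀ hs0
        rw [← hP]
        ring
    exact key m P hP
  by_cases hi : ∃ x ∈ E₀, ∃ (m : ℕ) (P : A[X]), m < P.natDegree ∧ x * s ^ m = aeval s P
  · exact descent_two H hs hgen h2 h3 hi hii
  -- no pole at infinity
  push Not at hi
  have hs' : Transcendental A s⁻¹ := by
    intro h
    apply hs
    have := h.inv
    rwa [inv_inv] at this
  refine descent_one H hs' ?_ ?_ h3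
  · intro w
    have h4 : A⟮s⟯ ≤ A⟮s⁻¹⟯ := by
      rw [adjoin_simple_le_iff]
      have h5 : (s⁻¹)⁻¹ ∈ A⟮s⁻¹⟯ := inv_mem (mem_adjoin_simple_self A s⁻¹)
      rwa [inv_inv] at h5
    exact h4 (hgen w)
  · intro x hx
    obtain ⟨m, P, hP⟩ := hnum x hx
    have hdeg : P.natDegree ≤ m := by
      by_contra hlt
      exact hi x hx m P (by omega) hP
    refine ⟨reflect m P, ?_⟩
    let : Invertible s := invertibleOfNonzero hs0
    have h4 := eval₂_reflect_mul_pow (algebraMap A Ω) s m P hdeg
    rw [invOf_eq_inv] at h4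
    apply mul_right_cancel₀ (pow_ne_zero m hs0)
    rw [hP, aeval_def, aeval_def]
    exact h4.symm

end

end Pool.Agent.SRF
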