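import Pool.Agent.SRF.CNE

/-!
# SRF CNF: semilinear maps from linear disjointness
-/

set_option autoImplicit false

namespace Pool.Agent.SRF

open IntermediateField TensorProduct

section

variable {κ A Ω : Type} [Field κ] [Field A] [Field Ω] [Algebra κ A] [Algebra A Ω] [Algebra κ Ω]
  [IsScalarTower κ A Ω]

/-- a linearly disjoint subalgebra defines semilinear maps of the field which it generates -/
theorem exists_hat (Y : Subalgebra κ Ω)
    (hLD : ∀ (ι : Type) (y : ι → Y), LinearIndependent κ y →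
      LinearIndependent A (fun i => ((y i : Y) : Ω)))
    (hgen : adjoin A (Y : Set Ω) = ⊤) : Nonempty (Hat κ A Ω (Y : Set Ω)) := by
  classical
  let θ : (A ⊗[κ] Y) →ₐ[A] Ω := Algebra.TensorProduct.productLeftAlgHom (Algebra.ofId A Ω) Y.val
  have hθ : ∀ (a : A) (y : Y), θ (a ⊗ₜ[κ] y) = algebraMap A Ω a * (y : Ω) := by
    intro a y
    rfl
  have hinj : Function.Injective θ := by
    let bY := Module.Basis.ofVectorSpace κ Y
    let bT := Algebra.TensorProduct.basis A bY
    have h1 := hLD _ bY bY.linearIndependent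
    rw [injective_iff_map_eq_zero]
    intro z hz
    have h2 : Finsupp.linearCombination A (fun i => ((bY i : Y) : Ω)) (bT.repr z) = 0 := by
      rw [← hz]
      conv_rhs => rw [← bT.linearCombination_repr z]
      rw [Finsupp.linearCombination_apply, Finsupp.linearCombination_apply, Finsupp.sum,
        Finsupp.sum, map_sum]
      refine Finset.sum_congr rfl (fun i _ => ?_)
      rw [map_smul, Algebra.TensorProduct.basis_apply, hθ, map_one, one_mul]
    have h3 : bT.repr z = 0 := by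
      apply h1
      rw [h2, map_zero]
    exact bT.repr.map_eq_zero_iff.1 h3
  let : Algebra (A ⊗[κ] Y) Ω := θ.toRingHom.toAlgebra
  have hmapv : ∀ t : A ⊗[κ] Y, algebraMap (A ⊗[κ] Y) Ω t = θ t := fun t => rfl
  have hfaith : FaithfulSMul (A ⊗[κ] Y) Ω := by
    rw [faithfulSMul_iff_algebraMap_injective]
    exact hinj
  have hdom : IsDomain (A ⊗[κ] Y) := hinj.isDomain θ.toRingHom
  -- the image
  have himg : ∀ x ∈ Algebra.adjoin A (Y : Set Ω), ∃ t : A ⊗[κ] Y, θ t = x := by
    intro x hx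
    have h1 : Algebra.adjoin A (Y : Set Ω) ≤ θ.range := by
      rw [Algebra.adjoin_le_iff]
      intro y hy
      exact ⟨(1 : A) ⊗ₜ[κ] (⟨y, hy⟩ : Y), by
        show θ _ = _
        rw [hθ, map_one, one_mul]⟩
    exact h1 hx
  have hfrac : IsFractionRing (A ⊗[κ] Y) Ω := by
    apply IsFractionRing.of_field
    intro z
    have hz : z ∈ adjoin A (Y : Set Ω) := by
      rw [hgen]
      trivial
    obtain ⟨x, hx, y, hy, hxy⟩ := mem_adjoin_iff_div.1 hz
    obtain ⟨t, rfl⟩ := himg x hx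
    obtain ⟨t', rfl⟩ := himg y hy
    exact ⟨t, t', hxy⟩
  let τT : (A ≃ₐ[κ] A) → (A ⊗[κ] Y) ≃ₐ[κ] (A ⊗[κ] Y) := fun τ =>
    Algebra.TensorProduct.congr τ AlgEquiv.refl
  have hτT : ∀ τ (a : A) (y : Y), τT τ (a ⊗ₜ[κ] y) = τ a ⊗ₜ[κ] y := fun τ a y => rfl
  let g : (A ≃ₐ[κ] A) → (A ⊗[κ] Y) →+* Ω := fun τ =>
    θ.toRingHom.comp ((τT τ : (A ⊗[κ] Y) ≃+* (A ⊗[κ] Y)) : (A ⊗[κ] Y) →+* (A ⊗[κ] Y))
  have hg : ∀ τ (a : A) (y : Y), g τ (a ⊗ₜ[κ] y) = algebraMap A Ω (τ a) * (y : Ω) := by
    intro τ a y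
    show θ (τT τ (a ⊗ₜ[κ] y)) = _
    rw [hτT, hθ]
  have hginj : ∀ τ, Function.Injective (g τ) := fun τ => hinj.comp (τT τ).injective
  let hat : (A ≃ₐ[κ] A) → Ω →+* Ω := fun τ => IsFractionRing.lift (hginj τ)
  have hhat : ∀ τ t, hat τ (θ t) = g τ t := by
    intro τ t
    exact IsFractionRing.lift_algebraMap (hginj τ) t
  have hA : ∀ τ a, hat τ (algebraMap A Ω a) = algebraMap A Ω (τ a) := by
    intro τ a
    have h1 : algebraMap A Ω a = θ (a ⊗ₜ[κ] (1 : Y)) := by
      rw [hθ, OneMemClass.coe_one, mul_one]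
    rw [h1, hhat, hg, OneMemClass.coe_one, mul_one]
  have hfix : ∀ τ, ∀ x ∈ (Y : Set Ω), hat τ x = x := by
    intro τ x hx
    have h1 : x = θ ((1 : A) ⊗ₜ[κ] (⟨x, hx⟩ : Y)) := by
      rw [hθ, map_one, one_mul]
    conv_lhs => rw [h1]
    rw [hhat, hg, map_one, map_one, one_mul]
  -- uniqueness
  have huniq : ∀ f f' : Ω →+* Ω, (∀ a : A, f (algebraMap A Ω a) = f' (algebraMap A Ω a)) →
      (∀ y ∈ (Y : Set Ω), f y = f' y) → ∀ z, f z = f' z := by
    intro f f' h1 h2 z
    let EQ : IntermediateField A Ω := Subfield.toIntermediateField (f.eqLocusField f') h1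
    have h3 : adjoin A (Y : Set Ω) ≤ EQ := by
      rw [adjoin_le_iff]
      exact h2
    have h4 : z ∈ adjoin A (Y : Set Ω) := by
      rw [hgen]
      trivial
    exact h3 h4
  refine ⟨⟨hat, hA, ?_, hfix⟩⟩
  intro σ τ z
  refine huniq (hat (σ * τ)) ((hat σ).comp (hat τ)) ?_ ?_ z
  · intro a
    rw [RingHom.comp_apply, hA, hA, hA]
    rfl
  · intro y hy
    rw [RingHom.comp_apply, hfix _ y hy, hfix _ y hy, hfix _ y hy]

/-- the transfer of linear disjointness to an extension of the base field -/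
theorem ldk {b : Set Ω} (hb : LinearIndependent A (fun x : b => (x : Ω))) (ι : Type) (y : ι → Ω)
    (hy : ∀ i, y i ∈ Submodule.span κ b) (hli : LinearIndependent κ y) :
    LinearIndependent A y := by
  classical
  have hspan : ∀ i, ∃ c : b →₀ κ, y i = c.sum (fun j q => algebraMap κ Ω q * (j : Ω)) := by
    intro i
    have h1 := hy i
    have h2 : (b : Set Ω) = Set.range (fun x : b => (x : Ω)) := by simp
    rw [h2, Finsupp.mem_span_range_iff_exists_finsupp] at h1
    obtain ⟨c, hc⟩ := h1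
    refine ⟨c, ?_⟩
    rw [← hc]
    exact Finsupp.sum_congr (fun j _ => Algebra.smul_def _ _)
  choose c hc using hspan
  rw [linearIndependent_iff']
  intro S β hβ
  set J : Finset b := S.biUnion (fun i => (c i).support) with hJ
  have hyJ : ∀ i ∈ S, y i = ∑ j ∈ J, algebraMap κ Ω (c i j) * (j : Ω) := by
    intro i hi
    rw [hc i, Finsupp.sum]
    refine Finset.sum_subset (Finset.subset_biUnion_of_mem (fun i => (c i).support) hi) ?_
    intro j _ hj
    rw [Finsupp.notMem_support_iff.1 hj, map_zero, zero_mul]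
  have h1 : ∑ j ∈ J, (∑ i ∈ S, β i * algebraMap κ A (c i j)) • (j : Ω) = 0 := by
    rw [← hβ]
    have h2 : ∀ i ∈ S, β i • y i = ∑ j ∈ J, (β i * algebraMap κ A (c i j)) • (j : Ω) := by
      intro i hi
      rw [hyJ i hi, Finset.smul_sum]
      refine Finset.sum_congr rfl (fun j _ => ?_)
      rw [Algebra.smul_def, Algebra.smul_def, map_mul, ← IsScalarTower.algebraMap_apply κ A Ω,
        mul_assoc]
    rw [Finset.sum_congr rfl h2, Finset.sum_comm]
    refine Finset.sum_congr rfl (fun j _ => ?_)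
    rw [Finset.sum_smul]
  have h3 : ∀ j ∈ J, ∑ i ∈ S, β i * algebraMap κ A (c i j) = 0 := by
    intro j hj
    exact (linearIndependent_iff'.1 hb) J (fun j => ∑ i ∈ S, β i * algebraMap κ A (c i j)) h1 j hj
  intro i₀ hi₀
  by_contra hne
  obtain ⟨lam, hlam⟩ : ∃ lam : A →ₗ[κ] κ, lam (β i₀) ≠ 0 := by
    by_contra hcon
    push Not at hcon
    exact hne ((Module.forall_dual_apply_eq_zero_iff κ _).1 hcon)
  apply hlam
  refine (linearIndependent_iff'.1 hli) S (fun i => lam (β i)) ?_ i₀ hi₀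
  have h4 : ∀ i ∈ S, lam (β i) • y i = ∑ j ∈ J, (lam (β i) * c i j) • (j : Ω) := by
    intro i hi
    rw [hyJ i hi, Finset.smul_sum]
    refine Finset.sum_congr rfl (fun j _ => ?_)
    rw [Algebra.smul_def, Algebra.smul_def, map_mul, mul_assoc]
  rw [Finset.sum_congr rfl h4, Finset.sum_comm]
  refine Finset.sum_eq_zero (fun j hj => ?_)
  rw [← Finset.sum_smul]
  have h5 : ∑ i ∈ S, lam (β i) * c i j = 0 := by
    have h6 := congrArg lam (h3 j hj)
    rw [map_sum, map_zero] at h6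
    rw [← h6]
    refine Finset.sum_congr rfl (fun i _ => ?_)
    have h7 : β i * algebraMap κ A (c i j) = (c i j) • β i := by
      rw [Algebra.smul_def, mul_comm]
    rw [h7, map_smul, smul_eq_mul, mul_comm]
  rw [h5, zero_smul]

end

end Pool.Agent.SRF
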