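import Pool.Agent.SRF.MOB
import Pool.Agent.SRF.CNF

/-!
# SRF CNG: linear disjointness of the algebraic numbers and the simple numbers, complex version
-/

set_option autoImplicit false

namespace Pool.Agent.SRF

open Pool.Agent.SGL IntermediateField Filter

/-- the simple numbers in all bases, as complex numbers -/
def GC (N Λ : ℕ → ℕ) : Set ℂ := {z | ∃ (b : ℕ) (y : ℝ), 2 ≤ b ∧ Smp N Λ b y ∧ z = y}

theorem alg_re {z : ℂ} (h : IsAlgebraic ℚ z) : IsAlgebraic ℚ z.re := by
  have h1 : IsAlgebraic ℚ ((starRingEnd ℂ) z) := by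
    have := h.algHom (Complex.conjAe.toAlgHom.restrictScalars ℚ)
    exact this
  have h2 : IsAlgebraic ℚ (((z.re : ℝ) : ℂ)) := by
    have h3 : ((z.re : ℝ) : ℂ) = (z + (starRingEnd ℂ) z) * (2 : ℂ)⁻¹ := by
      rw [Complex.add_conj]
      push_cast
      ring
    rw [h3]
    refine (h.add h1).mul ?_
    have h4 := isAlgebraic_algebraMap (A := ℂ) (R := ℚ) (2⁻¹)
    simpa using h4
  exact (isAlgebraic_algebraMap_iff (A := ℂ) (algebraMap ℝ ℂ).injective).1 h2

theorem alg_I : IsAlgebraic ℚ Complex.I := by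
  have h : IsAlgebraic ℚ (Complex.I ^ 2) := by
    rw [Complex.I_sq]
    have h4 := isAlgebraic_algebraMap (A := ℂ) (R := ℚ) (-1)
    simpa using h4
  exact h.of_pow (by norm_num)

theorem alg_im {z : ℂ} (h : IsAlgebraic ℚ z) : IsAlgebraic ℚ z.im := by
  have h1 := alg_re ((alg_I.neg).mul h)
  have h2 : (-Complex.I * z).re = z.im := by
    simp
  rw [h2] at h1
  exact h1

/-- linear disjointness -/
theorem wkfc (N Λ : ℕ → ℕ) (hN : Tendsto N atTop atTop) (hΛ : Tendsto Λ atTop atTop)
    (b : Set ℂ) (hb : b ⊆ Submonoid.closure (GC N Λ))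
    (hli : LinearIndependent ℚ (fun x : b => (x : ℂ))) :
    LinearIndependent QQ (fun x : b => (x : ℂ)) := by
  classical
  set GR : Set ℝ := {y : ℝ | ∃ b : ℕ, 2 ≤ b ∧ Smp N Λ b y} with hGR
  have hreal' : ∀ x ∈ Submonoid.closure (GC N Λ), ∃ r : ℝ, x = r ∧ r ∈ Algebra.adjoin ℚ GR := by
    intro x hx
    induction hx using Submonoid.closure_induction with
    | mem y hy =>
      obtain ⟨b, r, hb2, hr, rfl⟩ := hy
      exact ⟨r, rfl, Algebra.subset_adjoin ⟨b, hb2, hr⟩⟩
    | one => exact ⟨1, by simp, Subalgebra.one_mem _⟩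
    | mul y z hy1 hz1 hy hz =>
      obtain ⟨r, rfl, hr⟩ := hy
      obtain ⟨r', rfl, hr'⟩ := hz
      exact ⟨r * r', by push_cast; rfl, Subalgebra.mul_mem _ hr hr'⟩
  have hreal : ∀ x : b, ∃ r : ℝ, (x : ℂ) = r ∧ r ∈ Algebra.adjoin ℚ GR :=
    fun x => hreal' _ (hb x.2)
  choose r hr hrm using hreal
  have hrli : LinearIndependent ℚ r := by
    have h1 : (fun x : b => (x : ℂ)) =
        ((Algebra.linearMap ℝ ℂ).restrictScalars ℚ) ∘ r := by
      funext x
      exact hr x
    rw [h1] at hli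
    exact LinearIndependent.of_comp _ hli
  rw [linearIndependent_iff']
  intro S β hβ
  have hsum : ∑ x ∈ S, (β x : ℂ) * (r x : ℂ) = 0 := by
    rw [← hβ]
    refine Finset.sum_congr rfl (fun x _ => ?_)
    rw [← hr x]
    rfl
  have hβalg : ∀ x, IsAlgebraic ℚ (β x : ℂ) := fun x => mem_algebraicClosure_iff.1 (β x).2
  have key : ∀ f : ℂ → ℝ, (∀ z, IsAlgebraic ℚ z → IsAlgebraic ℚ (f z)) →
      (∑ x ∈ S, f (β x) * r x = 0) → ∀ x ∈ S, f (β x) = 0 := by
    intro f hf hf0
    let e := S.equivFin.symm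
    have h1 := wkfa N Λ hN hΛ S.card (fun k => r (e k)) (fun k => f (β (e k)))
      (fun k => hrm _) (fun k => hf _ (hβalg _))
      (hrli.comp (fun k => ((e k : S) : b)) (Subtype.val_injective.comp e.injective)) (by
        rw [← hf0, ← Finset.sum_coe_sort S (fun x => f (β x) * r x)]
        exact e.sum_comp (fun x : S => f (β (x : b)) * r (x : b)))
    intro x hx
    have h2 := h1 (S.equivFin ⟨x, hx⟩)
    simpa [e] using h2
  intro x hx
  apply Subtype.ext
  apply Complex.ext
  · refine key Complex.re (fun z hz => alg_re hz) ?_ x hx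
    have h1 := congrArg Complex.re hsum
    rw [Complex.re_sum] at h1
    rw [Complex.zero_re] at h1
    rw [← h1]
    refine Finset.sum_congr rfl (fun x _ => ?_)
    simp
  · refine key Complex.im (fun z hz => alg_im hz) ?_ x hx
    have h1 := congrArg Complex.im hsum
    rw [Complex.im_sum] at h1
    rw [Complex.zero_im] at h1
    rw [← h1]
    refine Finset.sum_congr rfl (fun x _ => ?_)
    simp

end Pool.Agent.SRF
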