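import Pool.Agent.SRF.LAU

/-!
# SRF CNL: Laurent polynomials in a generator
-/

set_option autoImplicit false

namespace Pool.Agent.SRF

open Pool.Agent.SGL IntermediateField

section

variable {F : Type} [Field F] {k : Type} [Field k] [Algebra k F]

/-- a version of `lau` with a generator -/
theorem lau2 [CharZero F] [IsAlgClosed k] (K L M : Subfield F) (hK : IsAlgClosed K) (hKL : K ≤ L)
    (hKM : K ≤ M) (hd : LDj K L M) (hk : ∀ c : k, algebraMap k F c ∈ K) (Φ : RatFunc k →ₐ[k] F)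
    (hxL : ¬ IsAlgebraic L (Φ RatFunc.X)) (hxM : ¬ IsAlgebraic M (Φ RatFunc.X))
    (hΦs : ∀ r, Φ r ∈ L ⊔ M)
    (hnc : ∃ r, Φ r ∈ Rg L M ∧ ∀ c : k, r ≠ algebraMap k (RatFunc k) c) :
    ∃ s : RatFunc k, Transcendental k s ∧ k⟮s⟯ = ⊤ ∧
      ∀ r : RatFunc k, Φ r ∈ Rg L M → r ∈ Algebra.adjoin k {s, s⁻¹} := by
  classical
  have hΦ : Function.Injective Φ := Φ.toRingHom.injective
  have hIC : IC (Rg L M) := nrm LDS_ TWR_ K L M hKL hKM hd
  have hkR : ∀ c : k, algebraMap k F c ∈ Rg L M := fun c => mem_Rg_left (hKL (hk c))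
  have hsup : ∀ x ∈ Rg L M, x ∈ L ⊔ M := fun x hx => TAA_.Rg_le le_sup_left le_sup_right hx
  have hint : ∀ x ∈ L ⊔ M, IsIntegral (Rg L M) x → x ∈ Rg L M := by
    intro x hx hi
    obtain ⟨q, hq, hq0, h⟩ := mem_sup_quot K L M hKL hKM x hx
    exact hIC x (x * q) q h hq hq0 rfl hi
  let FF : IntermediateField k F := Subfield.toIntermediateField (L ⊔ M)
    (fun c => hsup _ (hkR c))
  set E : IntermediateField k (RatFunc k) := FF.comap Φ with hE
  have hmemE : ∀ r, r ∈ E ↔ Φ r ∈ L ⊔ M := fun r => Iff.rfl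
  -- elements of `E` in terms of a generator
  have hrep : ∀ s : RatFunc k, Transcendental k s → ∀ r ∈ k⟮s⟯, ∃ p q : Polynomial k,
      IsCoprime p q ∧ q ≠ 0 ∧ r = Polynomial.aeval s p / Polynomial.aeval s q ∧
      Polynomial.aeval (Φ s) q ≠ 0 ∧
      Polynomial.aeval (Φ s) p = Φ r * Polynomial.aeval (Φ s) q := by
    intro s hs r hr
    obtain ⟨p, q, hpq, hq, h⟩ := mem_adjoin_coprime s hs r hr
    have h1 : Polynomial.aeval s q ≠ 0 := fun h0 => hq ((transcendental_iff.1 hs) q h0)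
    have h2 : Polynomial.aeval (Φ s) q ≠ 0 := by
      rw [Polynomial.aeval_algHom_apply]
      exact (map_ne_zero Φ).2 h1
    refine ⟨p, q, hpq, hq, h, h2, ?_⟩
    rw [Polynomial.aeval_algHom_apply, Polynomial.aeval_algHom_apply, ← map_mul, h,
      div_mul_cancel₀ _ h1]
  have hpole : ∀ s : RatFunc k, Transcendental k s → Φ s ∈ L ⊔ M → ∀ p q : Polynomial k,
      IsCoprime p q → ∀ w ∈ Rg L M, Polynomial.aeval (Φ s) p = w * Polynomial.aeval (Φ s) q →
      (q.natDegree < p.natDegree → Φ s ∈ Rg L M) ∧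
      ∀ c : k, q.eval c = 0 → (Φ s - algebraMap k F c)⁻¹ ∈ Rg L M := by
    intro s hs hsE p q hpq w hw h
    refine ⟨fun hdeg => hint _ hsE (pole_inf _ hkR _ w hw p q h hdeg), fun c hc => ?_⟩
    have hpc : p.eval c ≠ 0 := by
      intro h0
      obtain ⟨a, b, hab⟩ := hpq
      have := congrArg (Polynomial.eval c) hab
      rw [Polynomial.eval_add, Polynomial.eval_mul, Polynomial.eval_mul, h0, hc] at this
      simp at this
    have hne : Φ s - algebraMap k F c ≠ 0 := by
      intro h0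
      apply hs
      have h1 : Φ (s - algebraMap k (RatFunc k) c) = 0 := by
        rw [map_sub, AlgHom.commutes]
        exact h0
      have h2 : s - algebraMap k (RatFunc k) c = 0 := hΦ (by rw [h1, map_zero])
      rw [sub_eq_zero.1 h2]
      exact isAlgebraic_algebraMap c
    refine hint _ ?_ (pole_fin _ hkR _ w hw p q h c hpc hc hne)
    exact (L ⊔ M).inv_mem ((L ⊔ M).sub_mem hsE (hsup _ (hkR c)))
  obtain ⟨r₀, hr₀, hr₀c'⟩ := hnc
  have hr₀c : r₀ ∉ Set.range (algebraMap k (RatFunc k)) := by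
    rintro ⟨c, hc⟩
    exact hr₀c' c hc.symm
  have hEbot : E ≠ ⊥ := by
    intro h
    have h1 : r₀ ∈ E := (hmemE r₀).2 (hsup _ hr₀)
    rw [h] at h1
    exact hr₀c h1
  -- a generator whose value lies in the ring
  obtain ⟨s₁, hs₁t, hs₁E, hs₁R⟩ : ∃ s₁ : RatFunc k, Transcendental k s₁ ∧ E = k⟮s₁⟯ ∧
      Φ s₁ ∈ Rg L M := by
    set s₀ : RatFunc k := RatFunc.Luroth.generator E with hs₀
    have hs₀t : Transcendental k s₀ := RatFunc.Luroth.transcendental_generator hEbot
    have hs₀E : E = k⟮s₀⟯ := RatFunc.Luroth.eq_adjoin_generator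
    have hs₀m : Φ s₀ ∈ L ⊔ M := (hmemE s₀).1 RatFunc.Luroth.generator_mem
    have hr₀E : r₀ ∈ k⟮s₀⟯ := by
      rw [← hs₀E]
      exact (hmemE r₀).2 (hsup _ hr₀)
    obtain ⟨p, q, hpq, hq0, hr, hqy, hrel⟩ := hrep s₀ hs₀t r₀ hr₀E
    have hP := hpole s₀ hs₀t hs₀m p q hpq _ hr₀ hrel
    by_cases hqd : q.natDegree = 0
    · refine ⟨s₀, hs₀t, hs₀E, hP.1 ?_⟩
      rw [hqd]
      by_contra hpd
      apply hr₀c
      have hpd' : p.natDegree = 0 := by omega
      rw [Polynomial.eq_C_of_natDegree_eq_zero hpd', Polynomial.eq_C_of_natDegree_eq_zero hqd,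
        Polynomial.aeval_C, Polynomial.aeval_C, ← map_div₀] at hr
      exact ⟨_, hr.symm⟩
    · obtain ⟨c, hc⟩ := IsAlgClosed.exists_root q (by
        intro h
        apply hqd
        exact Polynomial.natDegree_eq_of_degree_eq_some h)
      refine ⟨(s₀ - algebraMap k (RatFunc k) c)⁻¹, ?_, ?_, ?_⟩
      · intro h
        apply hs₀t
        have h1 := h.inv
        rw [inv_inv] at h1
        have h2 := h1.add (isAlgebraic_algebraMap (A := RatFunc k) c)
        rwa [sub_add_cancel] at h2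
      · rw [hs₀E]
        apply le_antisymm
        · rw [adjoin_simple_le_iff]
          have h1 : (s₀ - algebraMap k (RatFunc k) c)⁻¹ ∈
              k⟮(s₀ - algebraMap k (RatFunc k) c)⁻¹⟯ := mem_adjoin_simple_self k _
          have h2 := inv_mem h1
          rw [inv_inv] at h2
          have h3 := add_mem h2 (IntermediateField.algebraMap_mem
            k⟮(s₀ - algebraMap k (RatFunc k) c)⁻¹⟯ c)
          rwa [sub_add_cancel] at h3
        · rw [adjoin_simple_le_iff]
          exact inv_mem (sub_mem (mem_adjoin_simple_self k s₀)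
            (IntermediateField.algebraMap_mem _ c))
      · rw [map_inv₀, map_sub, AlgHom.commutes]
        exact hP.2 c hc
  -- the generator does not lie in one of the fields
  have hnot : ∀ N : Subfield F, (∀ c : k, algebraMap k F c ∈ N) →
      ¬ IsAlgebraic N (Φ RatFunc.X) → Φ s₁ ∉ N := by
    intro N hkN hN hmem
    apply hN
    have hNc : ¬ ∃ c, s₁ = RatFunc.C c := by
      rintro ⟨c, hc⟩
      apply hs₁t
      rw [hc]
      exact isAlgebraic_algebraMap (A := RatFunc k) c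
    have h1 := RatFunc.isAlgebraic_adjoin_simple_X s₁ hNc
    let NN : IntermediateField k F := Subfield.toIntermediateField N hkN
    have h2 : k⟮s₁⟯ ≤ NN.comap Φ := by
      rw [adjoin_simple_le_iff]
      exact hmem
    let f : k⟮s₁⟯ →+* N := RingHom.codRestrict (Φ.toRingHom.comp (algebraMap k⟮s₁⟯ (RatFunc k))) N
      (fun z => h2 z.2)
    refine IsAlgebraic.ringHom_of_comp_eq (f := f) (g := Φ.toRingHom) h1 f.injective ?_
    apply RingHom.ext
    intro z
    rfl
  have hnL := hnot L (fun c => hKL (hk c)) hxL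
  have hnM := hnot M (fun c => hKM (hk c)) hxM
  have hne : ∀ c : k, Φ s₁ - algebraMap k F c ≠ 0 := by
    intro c h0
    apply hnL
    rw [sub_eq_zero.1 h0]
    exact hKL (hk c)
  have huniq : ∀ c c' : k, (Φ s₁ - algebraMap k F c)⁻¹ ∈ Rg L M →
      (Φ s₁ - algebraMap k F c')⁻¹ ∈ Rg L M → c = c' := by
    intro c c' h1 h2
    by_contra hcc
    have h3 : algebraMap k F c ≠ algebraMap k F c' := fun h => hcc ((algebraMap k F).injective h)
    rcases three K L M hK hKL hKM hd (Φ s₁) hs₁R _ _ (hk c) (hk c') h3 (hne c) (hne c') h1 h2 with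
      h | h
    · exact hnL h
    · exact hnM h
  -- the Laurent polynomials
  have key : ∀ (s : RatFunc k) (c₀ : k), s₁ = s + algebraMap k (RatFunc k) c₀ →
      (∀ c : k, (Φ s₁ - algebraMap k F c)⁻¹ ∈ Rg L M → c = c₀) →
      ∀ r : RatFunc k, Φ r ∈ Rg L M → r ∈ Algebra.adjoin k {s, s⁻¹} := by
    intro s c₀ hs hc₀ r hr
    have hrE : r ∈ k⟮s₁⟯ := by
      rw [← hs₁E]
      exact (hmemE r).2 (hsup _ hr)
    obtain ⟨p, q, hpq, hq0, hrr, hqy, hrel⟩ := hrep s₁ hs₁t r hrE
    have hP := hpole s₁ hs₁t (hsup _ hs₁R) p q hpq _ hr hrel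
    have hroots : ∀ c ∈ q.roots, c = c₀ := by
      intro c hc
      exact hc₀ c (hP.2 c ((Polynomial.mem_roots hq0).1 hc))
    have hsm : s ∈ Algebra.adjoin k {s, s⁻¹} := Algebra.subset_adjoin (by simp)
    have hsm' : s⁻¹ ∈ Algebra.adjoin k {s, s⁻¹} := Algebra.subset_adjoin (by simp)
    have hs₁m : s₁ ∈ Algebra.adjoin k {s, s⁻¹} := by
      rw [hs]
      exact Subalgebra.add_mem _ hsm (Subalgebra.algebraMap_mem _ c₀)
    have hpm : Polynomial.aeval s₁ p ∈ Algebra.adjoin k {s, s⁻¹} := by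
      rw [Polynomial.aeval_eq_sum_range]
      exact Subalgebra.sum_mem _ (fun i _ => Subalgebra.smul_mem _ (Subalgebra.pow_mem _ hs₁m i) _)
    have hqm : (Polynomial.aeval s₁ q)⁻¹ ∈ Algebra.adjoin k {s, s⁻¹} := by
      have h1 := (IsAlgClosed.splits q).eq_prod_roots
      rw [h1, map_mul, Polynomial.aeval_C, mul_inv, ← map_inv₀]
      refine Subalgebra.mul_mem _ (Subalgebra.algebraMap_mem _ _) ?_
      have h2 : q.roots = Multiset.replicate (Multiset.card q.roots) c₀ :=
        Multiset.eq_replicate_card.2 hroots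
      rw [h2, Multiset.map_replicate, Multiset.prod_replicate, map_pow, map_sub,
        Polynomial.aeval_X, Polynomial.aeval_C, hs, add_sub_cancel_right, ← inv_pow]
      exact Subalgebra.pow_mem _ hsm' _
    rw [hrr, div_eq_mul_inv]
    exact Subalgebra.mul_mem _ hpm hqm
  have htop : k⟮s₁⟯ = ⊤ := by
    rw [← hs₁E, eq_top_iff]
    intro r _
    exact hΦs r
  by_cases hex : ∃ c : k, (Φ s₁ - algebraMap k F c)⁻¹ ∈ Rg L M
  · obtain ⟨c₀, hc₀⟩ := hex
    refine ⟨s₁ - algebraMap k (RatFunc k) c₀, ?_, ?_, key _ c₀ (sub_add_cancel _ _).symm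
      (fun c hc => huniq c c₀ hc hc₀)⟩
    · intro h
      apply hs₁t
      have h2 := h.add (isAlgebraic_algebraMap (A := RatFunc k) c₀)
      rwa [sub_add_cancel] at h2
    · rw [eq_top_iff, ← htop, adjoin_simple_le_iff]
      have h3 := add_mem (mem_adjoin_simple_self k (s₁ - algebraMap k (RatFunc k) c₀))
        (IntermediateField.algebraMap_mem k⟮s₁ - algebraMap k (RatFunc k) c₀⟯ c₀)
      rwa [sub_add_cancel] at h3
  · push Not at hex
    exact ⟨s₁, hs₁t, htop, key s₁ 0 (by rw [map_zero, add_zero]) (fun c hc => absurd hc (hex c))⟩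

end

end Pool.Agent.SRF
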