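import Pool.Agent.SRF.CNG
import Pool.Agent.SRF.CNL

/-!
# SRF CNH: the theorem for the digits of `π`, over any field of constants
-/

set_option autoImplicit false

namespace Pool.Agent.SRF

open Pool.Agent.SGL IntermediateField Filter

/-- the algebra over `κ` which is generated by the numbers which are simple in a base which is
dependent on `b` -/
noncomputable def RK (κ : IntermediateField ℚ ℂ) (N Λ : ℕ → ℕ) (b : ℕ) : Subalgebra κ ℂ :=
  Algebra.adjoin κ {z : ℂ | ∃ (b' C : ℕ) (y : ℝ), 2 ≤ b' ∧ Dep b b' ∧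
    (∀ n, SBT.cnt b' y (N n) (Λ n * N n) ≤ C * N n) ∧ z = y}

/-- linear disjointness over `κ` -/
theorem ldY (N Λ : ℕ → ℕ) (hN : Tendsto N atTop atTop) (hΛ : Tendsto Λ atTop atTop)
    (κ : IntermediateField ℚ ℂ) [Algebra κ QQ] [IsScalarTower κ QQ ℂ] (b : ℕ) (ι : Type)
    (y : ι → ℂ) (hy : ∀ i, y i ∈ RK κ N Λ b) (hli : LinearIndependent κ y) :
    LinearIndependent QQ y := by
  classical
  obtain ⟨b₁, hb₁, hspan, hli₁⟩ := exists_linearIndependent ℚ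
    ((Submonoid.closure (GC N Λ) : Submonoid ℂ) : Set ℂ)
  have h1 : LinearIndependent QQ (fun x : b₁ => (x : ℂ)) := wkfc N Λ hN hΛ b₁ hb₁ hli₁
  refine ldk h1 ι y (fun i => ?_) hli
  have h2 : RK κ N Λ b ≤ Algebra.adjoin κ (GC N Λ) := by
    unfold RK
    apply Algebra.adjoin_mono
    rintro z ⟨b', C, y, hb', -, hy, rfl⟩
    exact ⟨b', y, hb', ⟨C, hy⟩, rfl⟩
  have h3 : y i ∈ Subalgebra.toSubmodule (Algebra.adjoin κ (GC N Λ)) := h2 (hy i)
  rw [Algebra.adjoin_eq_span] at h3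
  have h4 : Submodule.span κ ((Submonoid.closure (GC N Λ) : Submonoid ℂ) : Set ℂ) ≤
      Submodule.span κ b₁ := by
    rw [Submodule.span_le]
    intro x hx
    have h5 : x ∈ Submodule.span ℚ b₁ := by
      rw [hspan]
      exact Submodule.subset_span hx
    exact Submodule.span_subset_span ℚ κ b₁ h5
  exact h4 h3

/-- algebraic elements -/
theorem algK (N Λ : ℕ → ℕ) (hN : Tendsto N atTop atTop) (hΛ : Tendsto Λ atTop atTop)
    (κ : IntermediateField ℚ ℂ) [Algebra κ QQ] [IsScalarTower κ QQ ℂ] (b : ℕ) {z : ℂ}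
    (hz : z ∈ RK κ N Λ b) (halg : IsAlgebraic ℚ z) : z ∈ κ := by
  by_contra hne
  have hli : LinearIndependent κ ![(1 : ℂ), z] := by
    rw [LinearIndependent.pair_iff]
    intro s t hst
    have ht : t = 0 := by
      by_contra ht
      apply hne
      have ht' : ((t : κ) : ℂ) ≠ 0 := fun h => ht (Subtype.ext h)
      have h1 : (s : ℂ) * 1 + (t : ℂ) * z = 0 := hst
      have h2 : z = -(s : ℂ) * (t : ℂ)⁻¹ := by
        field_simp
        linear_combination h1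
      rw [h2]
      exact κ.mul_mem (κ.neg_mem s.2) (κ.inv_mem t.2)
    subst ht
    rw [zero_smul, add_zero] at hst
    have h1 : (s : ℂ) * 1 = 0 := hst
    rw [mul_one] at h1
    exact ⟨Subtype.ext h1, rfl⟩
  have h1 := ldY N Λ hN hΛ κ b (Fin 2) ![(1 : ℂ), z] (by
    intro i
    fin_cases i
    · exact Subalgebra.one_mem _
    · exact hz) hli
  rw [LinearIndependent.pair_iff] at h1
  have h2 := h1 ⟨z, mem_algebraicClosure_iff.2 halg⟩ (-1) (by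
    show z * 1 + ((-1 : QQ) : ℂ) * z = 0
    have : ((-1 : QQ) : ℂ) = -1 := by simp
    rw [this]
    ring)
  exact absurd h2.2 (by simp)

/-- the conclusion for one base -/
theorem one_baseK (N Λ : ℕ → ℕ) (hN : Tendsto N atTop atTop) (hΛ : Tendsto Λ atTop atTop)
    (κ : IntermediateField ℚ ℂ) [Algebra κ QQ] [IsScalarTower κ QQ ℂ] (b : ℕ)
    {F : Type} [Field F] [CharZero F] (j : ℂ →+* F) (K L M : Subfield F)
    (hK : IsAlgClosed K) (hKL : K ≤ L) (hKM : K ≤ M)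
    (hd : LDj K L M) (hk : ∀ c : ℂ, IsAlgebraic ℚ c → j c ∈ K)
    (hpL : ¬ IsAlgebraic L (j Real.pi)) (hpM : ¬ IsAlgebraic M (j Real.pi))
    (hR : ∀ x ∈ RK κ N Λ b, j x ∈ Rg L M)
    (E : IntermediateField QQ ℂ) (hfg : E.FG)
    (halg : ∀ x ∈ E, IsAlgebraic ℚ⟮(Real.pi : ℂ)⟯ x) {v : ℂ} (hvE : v ∈ E)
    (hvt : Transcendental ℚ v) (hv : v ∈ RK κ N Λ b) :
    ∃ x ∈ E, ∃ y ∈ E, ∃ c ∈ κ, ∃ δ ∈ κ, c ≠ 0 ∧ δ ≠ 0 ∧ x ^ 2 - δ * y ^ 2 = c ∧
      ∀ z ∈ E, z ∈ RK κ N Λ b → z ∈ Algebra.adjoin κ {x, y} := by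
  classical
  have hQQ := isAlgClosed_QQ
  have hkQ : ∀ c : QQ, j (algebraMap QQ ℂ c) ∈ K := fun c => hk _ (mem_algebraicClosure_iff.1 c.2)
  have hsup : ∀ x ∈ Rg L M, x ∈ L ⊔ M := fun x hx => TAA_.Rg_le le_sup_left le_sup_right hx
  have hκQ : ∀ q : κ, (q : ℂ) ∈ algebraicClosure ℚ ℂ := by
    intro q
    have h1 : algebraMap κ ℂ q = algebraMap QQ ℂ (algebraMap κ QQ q) :=
      IsScalarTower.algebraMap_apply κ QQ ℂ q
    have h2 : (q : ℂ) = ((algebraMap κ QQ q : QQ) : ℂ) := h1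
    rw [h2]
    exact (algebraMap κ QQ q).2
  -- the intersection
  let Y : Subalgebra κ ℂ :=
    { (RK κ N Λ b).toSubring ⊓ E.toSubfield.toSubring with
      algebraMap_mem' := fun q => ⟨Subalgebra.algebraMap_mem _ q,
        E.algebraMap_mem ⟨(q : ℂ), hκQ q⟩⟩ }
  have hY : ∀ z, z ∈ Y ↔ z ∈ RK κ N Λ b ∧ z ∈ E := fun z => Iff.rfl
  let E₁ : IntermediateField QQ ℂ := adjoin QQ (Y : Set ℂ)
  have hE₁E : E₁ ≤ E := by
    rw [adjoin_le_iff]
    exact fun z hz => ((hY z).1 hz).2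
  let LM : IntermediateField QQ ℂ := Subfield.toIntermediateField ((L ⊔ M).comap j)
    (fun c => (le_sup_left : L ≤ L ⊔ M) (hKL (hkQ c)))
  have hE₁LM : E₁ ≤ LM := by
    rw [adjoin_le_iff]
    intro z hz
    exact hsup _ (hR z ((hY z).1 hz).1)
  have hcur : Cur QQ E₁ := cur E hfg halg E₁ hE₁E
  have hYE₁ : ∀ z ∈ Y, z ∈ E₁ := fun z hz => subset_adjoin QQ _ hz
  have hvY : v ∈ Y := (hY v).2 ⟨hv, hvE⟩
  have hv₁ : v ∈ E₁ := hYE₁ v hvY
  have hvt₁ : Transcendental QQ (⟨v, hv₁⟩ : E₁) := by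
    intro h
    apply hvt
    apply alg_of_algQQ
    exact h.algebraMap (A := ℂ)
  let φ : E₁ →+* F := j.comp (algebraMap E₁ ℂ)
  have hφ : ∀ x, φ x ∈ L ⊔ M := fun x => hE₁LM x.2
  have hnt : ∀ (P : Subfield F), ¬ IsAlgebraic P (j Real.pi) → ∀ z ∈ E, Transcendental ℚ z →
      ¬ IsAlgebraic P (j z) := fun P hP z hz hzt h => hP (pi_down j P (halg z hz) hzt h)
  obtain ⟨s₀, hs₀⟩ : ∃ s : E₁, QQ⟮s⟯ = ⊤ := by
    by_contra hcon
    push Not at hcon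
    have h1 := genF F K L M hK hKL hKM hd QQ E₁ φ (fun c => hkQ c) hφ hcur hcon hvt₁ (hR v hv)
    rcases h1 with h1 | h1
    · exact hnt L hpL v hvE hvt (isAlgebraic_algebraMap (⟨_, h1⟩ : L))
    · exact hnt M hpM v hvE hvt (isAlgebraic_algebraMap (⟨_, h1⟩ : M))
  have hs₀t : Transcendental QQ s₀ := by
    intro h
    apply hvt₁
    have h1 : (⟨v, hv₁⟩ : E₁) ∈ QQ⟮s₀⟯ := by
      rw [hs₀]
      trivial
    have h2 : Algebra.IsAlgebraic QQ QQ⟮s₀⟯ := isAlgebraic_adjoin_simple h.isIntegral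
    have h3 := h2.isAlgebraic (⟨_, h1⟩ : QQ⟮s₀⟯)
    exact h3.algebraMap (A := E₁)
  have hs₀t' : Transcendental ℚ (s₀ : ℂ) := by
    intro h
    apply hs₀t
    have h1 : (s₀ : ℂ) ∈ algebraicClosure ℚ ℂ := mem_algebraicClosure_iff.2 h
    have h2 : s₀ = algebraMap QQ E₁ ⟨s₀, h1⟩ := rfl
    rw [h2]
    exact isAlgebraic_algebraMap _
  let : Algebra QQ F := (j.comp (algebraMap QQ ℂ)).toAlgebra
  let ε : RatFunc QQ →ₐ[QQ] E₁ :=
    (QQ⟮s₀⟯.val).comp (RatFunc.algEquivOfTranscendental s₀ hs₀t).toAlgHom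
  have hεX : ε RatFunc.X = s₀ := RatFunc.algEquivOfTranscendental_X s₀ hs₀t
  have hεs : Function.Surjective ε := by
    intro x
    have h1 : x ∈ QQ⟮s₀⟯ := by
      rw [hs₀]
      trivial
    obtain ⟨r, hr⟩ := (RatFunc.algEquivOfTranscendental s₀ hs₀t).surjective ⟨_, h1⟩
    refine ⟨r, ?_⟩
    show ((RatFunc.algEquivOfTranscendental s₀ hs₀t r : QQ⟮s₀⟯) : E₁) = _
    rw [hr]
  let jj : E₁ →ₐ[QQ] F := { φ with commutes' := fun _ => rfl }
  let Φ : RatFunc QQ →ₐ[QQ] F := jj.comp ε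
  have hΦX : Φ RatFunc.X = j (s₀ : ℂ) := by
    show j ((ε RatFunc.X : E₁) : ℂ) = _
    rw [hεX]
  obtain ⟨s, hst, hstop, hs⟩ := lau2 K L M hK hKL hKM hd (fun c => hkQ c) Φ
    (by rw [hΦX]; exact hnt L hpL _ (hE₁E s₀.2) hs₀t')
    (by rw [hΦX]; exact hnt M hpM _ (hE₁E s₀.2) hs₀t')
    (fun r => hφ (ε r))
    (by
      obtain ⟨r, hr⟩ := hεs ⟨v, hv₁⟩
      refine ⟨r, ?_, ?_⟩
      · show j ((ε r : E₁) : ℂ) ∈ _
        rw [hr]
        exact hR v hv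
      · rintro c rfl
        rw [AlgHom.commutes] at hr
        apply hvt₁
        rw [← hr]
        exact isAlgebraic_algebraMap _)
  set s₁ : E₁ := ε s with hs₁
  have hs₁t : Transcendental QQ s₁ := by
    intro h
    apply hst
    exact (isAlgebraic_algHom_iff ε ε.toRingHom.injective).1 h
  have hs₁gen : ∀ w : E₁, w ∈ QQ⟮s₁⟯ := by
    intro w
    obtain ⟨r, rfl⟩ := hεs w
    have h1 : r ∈ QQ⟮s⟯ := by
      rw [hstop]
      trivial
    have h2 : QQ⟮s⟯ ≤ QQ⟮s₁⟯.comap ε := by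
      rw [adjoin_simple_le_iff]
      exact mem_adjoin_simple_self QQ s₁
    exact h2 h1
  have hs₁L : ∀ w : E₁, j (w : ℂ) ∈ Rg L M → w ∈ Algebra.adjoin QQ {s₁, s₁⁻¹} := by
    intro w hw
    obtain ⟨r, rfl⟩ := hεs w
    have h1 := hs r hw
    have h2 : ε r ∈ (Algebra.adjoin QQ {s, s⁻¹}).map ε := ⟨r, h1, rfl⟩
    rw [AlgHom.map_adjoin, Set.image_pair, map_inv₀] at h2
    exact h2
  -- the algebra inside the field
  let : Algebra κ E₁ := ((algebraMap QQ E₁).comp (algebraMap κ QQ)).toAlgebra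
  have htow : IsScalarTower κ QQ E₁ := IsScalarTower.of_algebraMap_eq (fun _ => rfl)
  have htow' : IsScalarTower κ E₁ ℂ := by
    apply IsScalarTower.of_algebraMap_eq
    intro q
    exact IsScalarTower.algebraMap_apply κ QQ ℂ q
  let ιE : E₁ →ₐ[κ] ℂ := IsScalarTower.toAlgHom κ E₁ ℂ
  have hιE : ∀ x : E₁, ιE x = (x : ℂ) := fun x => rfl
  let Y₁ : Subalgebra κ E₁ := Y.comap ιE
  have hY₁ : ∀ z : E₁, z ∈ Y₁ ↔ (z : ℂ) ∈ Y := fun z => Iff.rfl
  have hgen₁ : adjoin QQ (Y₁ : Set E₁) = ⊤ := by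
    rw [eq_top_iff]
    intro z _
    have h1 : (adjoin QQ (Y₁ : Set E₁)).map E₁.val = E₁ := by
      rw [adjoin_map]
      apply le_antisymm
      · rw [adjoin_le_iff]
        rintro w ⟨w', _, rfl⟩
        exact w'.2
      · have h2 : (Y : Set ℂ) ⊆ E₁.val '' (Y₁ : Set E₁) := by
          intro w hw
          exact ⟨⟨w, hYE₁ w hw⟩, hw, rfl⟩
        exact adjoin.mono QQ _ _ h2
    have h3 : (z : ℂ) ∈ (adjoin QQ (Y₁ : Set E₁)).map E₁.val := by
      rw [h1]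
      exact z.2
    obtain ⟨w, hw, hwz⟩ := h3
    have h4 : w = z := Subtype.ext hwz
    rw [← h4]
    exact hw
  have hLD : ∀ (ι : Type) (y : ι → Y₁), LinearIndependent κ y →
      LinearIndependent QQ (fun i => ((y i : Y₁) : E₁)) := by
    intro ι y hy
    have h1 : LinearIndependent κ (fun i => (((y i : Y₁) : E₁) : ℂ)) := by
      have h2 : LinearIndependent κ ((ιE.comp Y₁.val).toLinearMap ∘ y) := by
        apply hy.map'
        rw [LinearMap.ker_eq_bot]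
        intro a b hab
        apply Subtype.ext
        apply Subtype.ext
        exact hab
      exact h2
    have h2 := ldY N Λ hN hΛ κ b ι _ (fun i => ((hY _).1 ((hY₁ _).1 (y i).2)).1) h1
    exact LinearIndependent.of_comp E₁.val.toLinearMap h2
  obtain ⟨H⟩ := exists_hat (A := QQ) Y₁ hLD hgen₁
  have hclo : IsAlgClosure κ QQ := by
    refine ⟨hQQ, ?_⟩
    have h1 : Algebra.IsAlgebraic ℚ QQ := algebraicClosure.isAlgebraic ℚ ℂ
    have h2 : IsScalarTower ℚ κ QQ := by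
      apply IsScalarTower.of_algebraMap_eq
      intro q
      simp
    exact Algebra.IsAlgebraic.tower_top (K := ℚ) κ
  have hgal : IsGalois κ QQ := inferInstance
  obtain ⟨x, y, c, δ, hc, hδ, hrel, hmem⟩ := descent H hs₁t hs₁gen
    (fun z hz => hs₁L z (hR _ ((hY _).1 ((hY₁ z).1 hz)).1))
    ⟨⟨v, hv₁⟩, hvY, fun a ha => hvt₁ (by rw [ha]; exact isAlgebraic_algebraMap _)⟩
  refine ⟨(x : ℂ), hE₁E x.2, (y : ℂ), hE₁E y.2, (c : ℂ), c.2, (δ : ℂ), δ.2,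
    fun h => hc (Subtype.ext h), fun h => hδ (Subtype.ext h), ?_, ?_⟩
  · have h1 := congrArg ιE hrel
    rw [map_sub, map_mul, map_pow, map_pow, AlgHom.commutes, AlgHom.commutes] at h1
    exact h1
  · intro z hzE hzR
    have hzY : z ∈ Y := (hY z).2 ⟨hzR, hzE⟩
    have h1 := hmem ⟨z, hYE₁ z hzY⟩ hzY
    have h2 : ιE ⟨z, hYE₁ z hzY⟩ ∈ (Algebra.adjoin κ {x, y}).map ιE := ⟨_, h1, rfl⟩
    rw [AlgHom.map_adjoin, Set.image_pair] at h2
    exact h2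

/-- **Siegel's theorem for the digits of `π`, over any field of constants** -/
theorem siegelK (N Λ : ℕ → ℕ) (hN : Tendsto N atTop atTop) (hΛ : Tendsto Λ atTop atTop)
    (κ : IntermediateField ℚ ℂ) (hκ : ∀ x ∈ κ, IsAlgebraic ℚ x)
    (E : IntermediateField QQ ℂ) (hfg : E.FG)
    (halg : ∀ x ∈ E, IsAlgebraic ℚ⟮(Real.pi : ℂ)⟯ x) :
    ∃ x ∈ E, ∃ y ∈ E, ∃ c ∈ κ, ∃ δ ∈ κ, c ≠ 0 ∧ δ ≠ 0 ∧ x ^ 2 - δ * y ^ 2 = c ∧
      (∀ b, 2 ≤ b → ∀ z ∈ E, z ∈ RK κ N Λ b → z ∈ Algebra.adjoin κ {x, y}) ∧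
      ∃ b₀ : ℕ, ∀ b, 2 ≤ b → ¬ Dep b₀ b → ∀ z ∈ E, z ∈ RK κ N Λ b → z ∈ κ := by
  classical
  have hκ' : κ ≤ algebraicClosure ℚ ℂ := fun x hx => mem_algebraicClosure_iff.2 (hκ x hx)
  let : Algebra κ QQ := (IntermediateField.inclusion hκ').toRingHom.toAlgebra
  have htow : IsScalarTower κ QQ ℂ := IsScalarTower.of_algebraMap_eq (fun _ => rfl)
  obtain ⟨F, _, _, j, L, K, M, hpL, h⟩ := sit N Λ hN hΛ
  have hRK : ∀ b, 2 ≤ b → ∀ x ∈ RK κ N Λ b, j x ∈ Rg L (M b) := by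
    intro b hb x hx
    obtain ⟨hKc, hMc, hLc, hKL, hKM, hd, hk, hsim, hpM, hdep⟩ := h b hb
    let T : Subalgebra κ ℂ := { (Rg L (M b)).comap j with
      algebraMap_mem' := fun c => mem_Rg_left (hKL (hk _ (hκ c c.2))) }
    have h1 : RK κ N Λ b ≤ T := by
      unfold RK
      rw [Algebra.adjoin_le_iff]
      rintro z ⟨b', C, y, hb', hbb, hy, rfl⟩
      exact hsim b' C y hb' hbb hy
    exact h1 hx
  by_cases hex : ∃ b, 2 ≤ b ∧ ∃ v ∈ E, v ∈ RK κ N Λ b ∧ Transcendental ℚ v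
  · obtain ⟨b₀, hb₀, v, hvE, hvR, hvt⟩ := hex
    obtain ⟨hKc, hMc, hLc, hKL, hKM, hd, hk, hsim, hpM, hdep⟩ := h b₀ hb₀
    obtain ⟨x, hx, y, hy, c, hc, δ, hδ, hc0, hδ0, hrel, hmem⟩ := one_baseK N Λ hN hΛ κ b₀ j (K b₀)
      L (M b₀) hKc hKL hKM hd hk hpL hpM (hRK b₀ hb₀) E hfg halg hvE hvt hvR
    have hind : ∀ b, 2 ≤ b → ¬ Dep b₀ b → ∀ x ∈ E, x ∈ RK κ N Λ b → IsAlgebraic ℚ x := by
      intro b hb hbd x hxE hxR
      by_contra hxt
      have hx1 : j x ∈ L ⊔ M b := TAA_.Rg_le le_sup_left le_sup_right (hRK b hb x hxR)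
      have hv1 : j v ∈ L ⊔ M b₀ := TAA_.Rg_le le_sup_left le_sup_right (hRK b₀ hb₀ v hvR)
      have h1 := pi_down j (L ⊔ M b) (halg x hxE) hxt (isAlgebraic_algebraMap
        (⟨_, hx1⟩ : (L ⊔ M b : Subfield F)))
      have h2 := pi_down j (L ⊔ M b₀) (halg v hvE) hvt (isAlgebraic_algebraMap
        (⟨_, hv1⟩ : (L ⊔ M b₀ : Subfield F)))
      exact hdep b hb hbd h2 h1
    refine ⟨x, hx, y, hy, c, hc, δ, hδ, hc0, hδ0, hrel, ?_, b₀, ?_⟩
    · intro b hb z hzE hzR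
      by_cases hbd : Dep b₀ b
      · have h1 : RK κ N Λ b ≤ RK κ N Λ b₀ := by
          unfold RK
          apply Algebra.adjoin_mono
          rintro z ⟨b', C, y, hb', hbb, hy, rfl⟩
          exact ⟨b', C, y, hb', hbd.trans hbb, hy, rfl⟩
        exact hmem z hzE (h1 hzR)
      · have h1 := algK N Λ hN hΛ κ b hzR (hind b hb hbd z hzE hzR)
        exact (Algebra.adjoin κ {x, y}).algebraMap_mem ⟨z, h1⟩
    · intro b hb hbd z hzE hzR
      exact algK N Λ hN hΛ κ b hzR (hind b hb hbd z hzE hzR)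
  · push Not at hex
    have hall : ∀ b, 2 ≤ b → ∀ z ∈ E, z ∈ RK κ N Λ b → z ∈ κ := by
      intro b hb z hzE hzR
      refine algK N Λ hN hΛ κ b hzR ?_
      have := hex b hb z hzE hzR
      unfold Transcendental at this
      exact not_not.1 this
    refine ⟨1, E.one_mem, 0, E.zero_mem, 1, κ.one_mem, 1, κ.one_mem, one_ne_zero, one_ne_zero,
      by ring, ?_, 0, ?_⟩
    · intro b hb z hzE hzR
      exact (Algebra.adjoin κ {1, 0}).algebraMap_mem ⟨z, hall b hb z hzE hzR⟩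
    · intro b hb _ z hzE hzR
      exact hall b hb z hzE hzR

end Pool.Agent.SRF
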