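import Pool.Agent.SRF.HOA

/-!
# SRF DEG: functions of smaller degree
-/

set_option autoImplicit false

namespace Pool.Agent.SRF

open IntermediateField Polynomial

section

variable {k E : Type} [Field k] [Field E] [Algebra k E]

theorem aeval_of_mem {x a : E} (ha : a ∈ Algebra.adjoin k {x}) : ∃ p : k[X], aeval x p = a := by
  rw [Algebra.adjoin_singleton_eq_range_aeval] at ha
  obtain ⟨p, hp⟩ := ha
  exact ⟨p, hp⟩

open scoped algebraAdjoinAdjoin in
theorem coef_fin {x w : E} (hw : w ∈ Ox k x) (i : ℕ) :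
    ∃ p : k[X], aeval x p = ((minpoly k⟮x⟯ w).coeff i : E) := by
  have hpir : IsPrincipalIdealRing (Algebra.adjoin k {x}) := by
    let f : k[X] →+* Algebra.adjoin k {x} :=
      ((aeval x).codRestrict (Algebra.adjoin k {x}) (by
        intro p
        rw [Algebra.adjoin_singleton_eq_range_aeval]
        exact ⟨p, rfl⟩)).toRingHom
    apply IsPrincipalIdealRing.of_surjective f
    rintro ⟨a, ha⟩
    have ha' := ha
    rw [Algebra.adjoin_singleton_eq_range_aeval] at ha'
    obtain ⟨p, hp⟩ := ha'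
    exact ⟨p, Subtype.ext hp⟩
  have hint : IsIntegral (Algebra.adjoin k {x}) w := int_Ox.2 hw
  have h1 := minpoly.isIntegrallyClosed_eq_field_fractions' k⟮x⟯ hint
  rw [h1, coeff_map]
  have ha : ((algebraMap (Algebra.adjoin k {x}) k⟮x⟯
      ((minpoly (Algebra.adjoin k {x}) w).coeff i) : k⟮x⟯) : E) ∈ Algebra.adjoin k {x} :=
    ((minpoly (Algebra.adjoin k {x}) w).coeff i).2
  exact aeval_of_mem ha

theorem sx_mem_of_B0 {V : ValuationSubring E} (hV : ∀ c : k, algebraMap k E c ∈ V) {x : E}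
    (hx : Transcendental k x) (hxV : 1 < V.valuation x) (halg : ∀ y : E, IsAlgebraic k⟮x⟯ y)
    {y : E} (hy : y ∈ Sx k x) : IsIntegral (B0 k⟮x⟯ V) y := by
  apply int_of_val
  intro W hW
  have hx0 : x ≠ 0 := by
    rintro rfl
    exact hx isAlgebraic_zero
  have hvx : 0 < V.valuation x := zero_lt_one.trans hxV
  have hWc : ∀ c : k, algebraMap k E c ∈ W := fun c =>
    hW (mem_B0.2 ⟨hV c, k⟮x⟯.algebraMap_mem c⟩)
  rcases le_or_gt (W.valuation x) 1 with h1 | h1
  · have h1' : x ∈ W := (W.valuation_le_one_iff _).1 h1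
    have hxi : x⁻¹ ∈ W := by
      apply hW
      refine mem_B0.2 ⟨?_, inv_mem (mem_adjoin_simple_self k x)⟩
      rw [← V.valuation_le_one_iff, map_inv₀]
      exact (inv_lt_one_of_one_lt₀ hxV).le
    have hK : ∀ z ∈ k⟮x⟯, z ∈ W := by
      intro z hz
      by_cases hz0 : z = 0
      · rw [hz0]
        exact W.zero_mem
      obtain ⟨n, hn⟩ := ldeg hx hz hz0
      have h2 : z = (z * x ^ (-n)) * x ^ n := by
        rw [mul_assoc, ← zpow_add₀ hx0, neg_add_cancel, zpow_zero, mul_one]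
      have hzp : ∀ m : ℤ, x ^ m ∈ W := by
        intro m
        rcases Int.eq_nat_or_neg m with ⟨j, rfl | rfl⟩
        · rw [zpow_natCast]
          exact pow_mem h1' j
        · rw [zpow_neg, zpow_natCast, ← inv_pow]
          exact pow_mem hxi j
      rw [h2]
      refine W.mul_mem _ _ (hW (mem_B0.2 ⟨?_, ?_⟩)) (hzp n)
      · rw [← V.valuation_le_one_iff, map_mul, map_zpow₀, hn V hV hxV, ← zpow_add₀ hvx.ne',
          add_neg_cancel, zpow_zero]
      · exact mul_mem hz (zpow_mem (mem_adjoin_simple_self k x) _)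
    apply val_of_int (k⟮x⟯.toSubfield.toSubring) y _ W hK
    exact (halg y).isIntegral
  · exact hy W hWc h1

theorem val_poly_nat {V : ValuationSubring E} (hV : ∀ c : k, algebraMap k E c ∈ V) {x : E}
    (hx : 1 < V.valuation x) (p : k[X]) (hp : p ≠ 0) :
    V.valuation (aeval x p) = V.valuation x ^ p.natDegree := by
  have h1 := val_of_lead (n := p.natDegree) hV hx (leadingCoeff_ne_zero.2 hp)
    (z := aeval x p) (by
      have h2 := val_poly_lead hV hx p hp
      have h3 : x ^ (-(p.natDegree : ℤ)) * aeval x p = aeval x p / x ^ p.natDegree := by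
        rw [zpow_neg, zpow_natCast, inv_mul_eq_div]
      rw [h3]
      exact h2)
  rwa [zpow_natCast] at h1

theorem coef [IsAlgClosed k] (hE : Cur k E) {x w : E} (hx : Transcendental k x)
    (hw : w ∈ Ox k x) (hw2 : x⁻¹ * w ∈ Sx k x) :
    ∃ p : ℕ → k[X], (∀ i ≤ (minpoly k⟮x⟯ w).natDegree,
      aeval x (p i) = ((minpoly k⟮x⟯ w).coeff i : E) ∧
      (p i).natDegree ≤ (minpoly k⟮x⟯ w).natDegree - i) ∧ p (minpoly k⟮x⟯ w).natDegree = 1 := by
  classical
  have hfd := hE x hx
  have hx0 : x ≠ 0 := by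
    rintro rfl
    exact hx isAlgebraic_zero
  have halg : ∀ y : E, IsAlgebraic k⟮x⟯ y := fun y => Algebra.IsAlgebraic.isAlgebraic y
  have hintw : IsIntegral k⟮x⟯ w := (halg w).isIntegral
  have hintxw : IsIntegral k⟮x⟯ (x⁻¹ * w) := (halg _).isIntegral
  choose p hp using fun i => coef_fin hw i
  have hinj : Function.Injective (aeval x : k[X] →ₐ[k] E) := transcendental_iff_injective.1 hx
  have hlast : p (minpoly k⟮x⟯ w).natDegree = 1 := by
    apply hinj
    rw [hp, map_one]
    have : (minpoly k⟮x⟯ w).coeff (minpoly k⟮x⟯ w).natDegree = 1 := minpoly.monic hintw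
    rw [this]
    rfl
  refine ⟨p, fun i hi => ⟨hp i, ?_⟩, hlast⟩
  -- the degree
  obtain ⟨V, hV, hxV⟩ := exists_pole_of_tr hx
  have hvx : 0 < V.valuation x := zero_lt_one.trans hxV
  by_cases hpi : p i = 0
  · rw [hpi, natDegree_zero]
    exact Nat.zero_le _
  set μ := minpoly k⟮x⟯ w with hμ
  set ρ := minpoly k⟮x⟯ (x⁻¹ * w) with hρ
  set g : k⟮x⟯ := ⟨x, mem_adjoin_simple_self k x⟩ with hg
  have hg0 : g ≠ 0 := fun h => hx0 (congrArg Subtype.val h)
  have h1 : aeval w (ρ.scaleRoots g) = 0 := by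
    have h2 := scaleRoots_aeval_eq_zero (r := g) (minpoly.aeval k⟮x⟯ (x⁻¹ * w))
    have h3 : algebraMap k⟮x⟯ E g * (x⁻¹ * w) = w := by
      show x * (x⁻¹ * w) = w
      rw [mul_inv_cancel_left₀ hx0]
    rwa [h3] at h2
  have h2 : aeval (x⁻¹ * w) (μ.scaleRoots g⁻¹) = 0 := by
    have h2 := scaleRoots_aeval_eq_zero (r := g⁻¹) (minpoly.aeval k⟮x⟯ w)
    have h3 : algebraMap k⟮x⟯ E g⁻¹ * w = x⁻¹ * w := by
      rw [map_inv₀]
      rfl
    rwa [h3] at h2
  have hρm : ρ.Monic := minpoly.monic hintxw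
  have hμm : μ.Monic := minpoly.monic hintw
  have h3 : μ ∣ ρ.scaleRoots g := minpoly.dvd _ _ h1
  have h4 : ρ ∣ μ.scaleRoots g⁻¹ := minpoly.dvd _ _ h2
  have h5 : ρ.natDegree ≤ μ.natDegree := by
    have := natDegree_le_of_dvd h4 ((monic_scaleRoots_iff _).2 hμm).ne_zero
    rwa [natDegree_scaleRoots] at this
  have h6 : ρ.scaleRoots g = μ := by
    apply eq_of_monic_of_dvd_of_natDegree_le hμm ((monic_scaleRoots_iff _).2 hρm) h3
    rwa [natDegree_scaleRoots]
  have h7 : ρ.natDegree = μ.natDegree := by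
    rw [← h6, natDegree_scaleRoots]
  have h8 : μ.coeff i = ρ.coeff i * g ^ (μ.natDegree - i) := by
    conv_lhs => rw [← h6]
    rw [coeff_scaleRoots, h7]
  -- the coefficient of `ρ` is integral at `V`
  have h9 : ((ρ.coeff i : k⟮x⟯) : E) ∈ V := by
    let R := V.comap (algebraMap k⟮x⟯ E)
    have hint : IsIntegral R (x⁻¹ * w) := int_B0.2 (sx_mem_of_B0 hV hx hxV halg hw2)
    have h10 := minpoly.isIntegrallyClosed_eq_field_fractions' (R := R) k⟮x⟯ hint
    rw [hρ, h10, coeff_map]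
    exact ((minpoly R (x⁻¹ * w)).coeff i).2
  have h10 : V.valuation x ^ (p i).natDegree ≤ V.valuation x ^ (μ.natDegree - i) := by
    rw [← val_poly_nat hV hxV _ hpi, hp, h8]
    show V.valuation (((ρ.coeff i : k⟮x⟯) : E) * x ^ (μ.natDegree - i)) ≤ _
    rw [map_mul, map_pow]
    calc V.valuation ((ρ.coeff i : k⟮x⟯) : E) * V.valuation x ^ (μ.natDegree - i)
        ≤ 1 * V.valuation x ^ (μ.natDegree - i) :=
          mul_le_mul_left ((V.valuation_le_one_iff _).2 h9) _
      _ = _ := one_mul _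
  exact (pow_le_pow_iff_right₀ hxV).1 h10

/-- equal degrees -/
theorem fin_eq {K₁ K₂ : Type} [Field K₁] [Field K₂] [Algebra K₁ E] [Algebra K₂ E]
    (F₁ : IntermediateField K₁ E) (F₂ : IntermediateField K₂ E)
    (h : F₁.toSubfield = F₂.toSubfield) : Module.finrank F₁ E = Module.finrank F₂ E := by
  have h1 : Module.finrank F₁ E = Module.finrank F₁.toSubfield E := rfl
  have h2 : Module.finrank F₂ E = Module.finrank F₂.toSubfield E := rfl
  rw [h1, h2, h]

/-- **the degree drops** -/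
theorem deg_drop [IsAlgClosed k] (hE : Cur k E) {x e : E} (hx : Transcendental k x)
    (heO : e ∈ Ox k x) (heS : x⁻¹ * e ∈ Sx k x) (hex : e ∉ k⟮x⟯) :
    ∃ h : E, Transcendental k h ∧ Module.finrank k⟮h⟯ E < Module.finrank k⟮x⟯ E := by
  classical
  have hfd := hE x hx
  have hx0 : x ≠ 0 := by
    rintro rfl
    exact hx isAlgebraic_zero
  -- the place over zero
  have hxi : Transcendental k x⁻¹ := by
    intro h
    apply hx
    have := h.inv
    rwa [inv_inv] at this
  obtain ⟨V, hVc, hxV'⟩ := exists_pole_of_tr hxi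
  have hV : Pl k V := by
    refine ⟨hVc, ?_⟩
    rintro rfl
    exact absurd ((ValuationSubring.valuation_le_one_iff _ _).2 (ValuationSubring.mem_top x⁻¹))
      (not_le.2 hxV')
  have hvx0 : 0 < V.valuation x := zero_lt_iff.2 ((_root_.map_ne_zero V.valuation).2 hx0)
  have hxV : V.valuation x < 1 := by
    rw [map_inv₀] at hxV'
    exact (one_lt_inv₀ hvx0).1 hxV'
  have hxVm : x ∈ V := (V.valuation_le_one_iff _).1 hxV.le
  have heV : V.valuation e ≤ 1 := (V.valuation_le_one_iff _).2 (heO V hVc hxVm)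
  obtain ⟨l, hl⟩ := residue hE hV heV
  set w := e - algebraMap k E l with hw
  have hwO : w ∈ Ox k x := (Ox k x).sub_mem heO (Ox_const x l)
  have hwS : x⁻¹ * w ∈ Sx k x := by
    rw [hw, mul_sub]
    refine (Sx k x).sub_mem heS ((Sx k x).mul_mem ?_ (Sx_const x l))
    intro W hW hxW
    rw [← W.valuation_le_one_iff, map_inv₀]
    exact (inv_lt_one_of_one_lt₀ hxW).le
  have hwx : w ∉ k⟮x⟯ := by
    intro h
    apply hex
    have := add_mem h (k⟮x⟯.algebraMap_mem l)
    rwa [hw, sub_add_cancel] at this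
  have hw0 : w ≠ 0 := by
    intro h
    rw [h] at hwx
    exact hwx (zero_mem _)
  set h : E := w / x with hh
  have hhx : h ∉ k⟮x⟯ := by
    intro h1
    apply hwx
    have := mul_mem h1 (mem_adjoin_simple_self k x)
    rwa [hh, div_mul_cancel₀ _ hx0] at this
  have hht : Transcendental k h := by
    intro h1
    obtain ⟨c, hc⟩ := mem_range_of_alg h1
    exact hhx (hc ▸ k⟮x⟯.algebraMap_mem c)
  obtain ⟨p, hp, hplast⟩ := coef hE hx hwO hwS
  set m := (minpoly k⟮x⟯ w).natDegree with hm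
  have hintw : IsIntegral k⟮x⟯ w := (Algebra.IsAlgebraic.isAlgebraic (R := k⟮x⟯) w).isIntegral
  have hm1 : 1 ≤ m := minpoly.natDegree_pos hintw
  -- the relation
  have hrel : ∑ i ∈ Finset.range (m + 1), aeval x (p i) * w ^ i = 0 := by
    have h1 := minpoly.aeval k⟮x⟯ w
    rw [aeval_eq_sum_range, ← hm] at h1
    rw [← h1]
    refine Finset.sum_congr rfl (fun i hi => ?_)
    rw [Finset.mem_range] at hi
    rw [(hp i (by omega)).1, Algebra.smul_def]
    rfl
  -- the constant coefficient vanishes at zero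
  have hp0 : (p 0).coeff 0 = 0 := by
    by_contra hcon
    have h1 : V.valuation (aeval x (p 0)) = 1 := by
      have h2 : aeval x (p 0) = algebraMap k E ((p 0).coeff 0) + x * aeval x (p 0).divX := by
        conv_lhs => rw [← divX_mul_X_add (p 0)]
        rw [map_add, map_mul, aeval_X, aeval_C]
        ring
      rw [h2, Valuation.map_add_eq_of_lt_left, val_const hVc hcon]
      rw [val_const hVc hcon, map_mul]
      calc V.valuation x * V.valuation (aeval x (p 0).divX) ≤ V.valuation x * 1 :=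
            mul_le_mul_right ((V.valuation_le_one_iff _).2 (Ox_aeval x _ V hVc hxVm)) _
        _ < 1 := by rw [mul_one]; exact hxV
    rw [Finset.sum_range_succ', pow_zero, mul_one] at hrel
    have h3 : V.valuation (∑ i ∈ Finset.range m, aeval x (p (i + 1)) * w ^ (i + 1)) < 1 := by
      apply Valuation.map_sum_lt _ one_ne_zero
      intro i _
      rw [map_mul, map_pow]
      calc V.valuation (aeval x (p (i + 1))) * V.valuation w ^ (i + 1)
          ≤ 1 * V.valuation w ^ (i + 1) :=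
            mul_le_mul_left ((V.valuation_le_one_iff _).2 (Ox_aeval x _ V hVc hxVm)) _
        _ < 1 := by rw [one_mul]; exact pow_lt_one₀ zero_le hl (by omega)
    have h4 : aeval x (p 0) = -∑ i ∈ Finset.range m, aeval x (p (i + 1)) * w ^ (i + 1) := by
      linear_combination hrel
    rw [h4, Valuation.map_neg] at h1
    exact absurd h1 h3.ne
  -- the polynomial over `k(h)`
  let q : ℕ → k[X] := fun i => if i = 0 then (p 0).divX else X ^ (i - 1) * p i
  have hqx : ∀ i, x * (aeval x (q i) * h ^ i) = aeval x (p i) * w ^ i := by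
    intro i
    have hwh : w = h * x := by rw [hh, div_mul_cancel₀ _ hx0]
    by_cases hi : i = 0
    · subst hi
      have h2 : aeval x (p 0) = x * aeval x (p 0).divX := by
        conv_lhs => rw [← divX_mul_X_add (p 0)]
        rw [hp0, C_0, add_zero, map_mul, aeval_X, mul_comm]
      have h3 : q 0 = (p 0).divX := if_pos rfl
      rw [h3, h2, pow_zero, pow_zero]
      ring
    · have h3 : q i = X ^ (i - 1) * p i := if_neg hi
      rw [h3, map_mul, map_pow, aeval_X]
      have h4 : w ^ i = h ^ i * (x * x ^ (i - 1)) := by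
        rw [hwh, mul_pow, ← pow_succ']
        congr 2
        omega
      rw [h4]
      ring
  have hqd : ∀ i ≤ m, (q i).natDegree ≤ m - 1 := by
    intro i hi
    by_cases hi0 : i = 0
    · have h3 : q i = (p 0).divX := if_pos hi0
      rw [h3, natDegree_divX_eq_natDegree_tsub_one]
      have := (hp 0 (Nat.zero_le _)).2
      omega
    · have h3 : q i = X ^ (i - 1) * p i := if_neg hi0
      rw [h3]
      refine (natDegree_mul_le).trans ?_
      rw [natDegree_X_pow]
      have := (hp i hi).2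
      omega
  have hqlast : q m = X ^ (m - 1) := by
    have h3 : q m = X ^ (m - 1) * p m := if_neg (by omega)
    rw [h3, hplast, mul_one]
  let H : k⟮h⟯ := ⟨h, mem_adjoin_simple_self k h⟩
  let G : k⟮h⟯[X] := ∑ i ∈ Finset.range (m + 1), C (H ^ i) * (q i).map (algebraMap k k⟮h⟯)
  have hGx : aeval x G = 0 := by
    have h1 : x * aeval x G = 0 := by
      have h2 : aeval x G = ∑ i ∈ Finset.range (m + 1), aeval x (q i) * h ^ i := by
        show aeval x (∑ i ∈ Finset.range (m + 1), C (H ^ i) * (q i).map (algebraMap k k⟮h⟯)) = _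
        rw [map_sum]
        refine Finset.sum_congr rfl (fun i _ => ?_)
        rw [map_mul, aeval_C, aeval_map_algebraMap, mul_comm]
        rfl
      rw [h2, Finset.mul_sum, ← hrel]
      exact Finset.sum_congr rfl (fun i _ => hqx i)
    rcases mul_eq_zero.1 h1 with h2 | h2
    · exact absurd h2 hx0
    · exact h2
  have hGd : G.natDegree ≤ m - 1 := by
    refine natDegree_sum_le_of_forall_le _ _ (fun i hi => ?_)
    rw [Finset.mem_range] at hi
    refine (natDegree_C_mul_le _ _).trans ?_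
    refine (natDegree_map_le).trans ?_
    exact hqd i (by omega)
  have hG0 : G ≠ 0 := by
    intro h0
    have h1 : G.coeff (m - 1) = 0 := by rw [h0, coeff_zero]
    have h2 : ((G.coeff (m - 1) : k⟮h⟯) : E) = aeval h (∑ i ∈ Finset.range (m + 1),
        C ((q i).coeff (m - 1)) * X ^ i) := by
      show (((∑ i ∈ Finset.range (m + 1), C (H ^ i) *
        (q i).map (algebraMap k k⟮h⟯)).coeff (m - 1) : k⟮h⟯) : E) = _
      rw [finsetSum_coeff, AddSubmonoidClass.coe_finsetSum, map_sum]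
      refine Finset.sum_congr rfl (fun i _ => ?_)
      rw [coeff_C_mul, coeff_map, map_mul, aeval_C, map_pow, aeval_X, mul_comm]
      rfl
    rw [h1] at h2
    have h3 := (transcendental_iff.1 hht) _ h2.symm
    have h4 := congrArg (fun P : k[X] => P.coeff m) h3
    simp only [finsetSum_coeff, coeff_C_mul, coeff_X_pow, coeff_zero] at h4
    rw [Finset.sum_eq_single m] at h4
    · rw [if_pos rfl, mul_one, hqlast, coeff_X_pow, if_pos rfl] at h4
      exact one_ne_zero h4
    · intro j _ hj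
      rw [if_neg (Ne.symm hj), mul_zero]
    · intro hcon
      exact absurd (Finset.mem_range.2 (Nat.lt_succ_self m)) hcon
  -- degrees
  have hfdh := hE h hht
  have hintx : IsIntegral k⟮h⟯ x := (Algebra.IsAlgebraic.isAlgebraic (R := k⟮h⟯) x).isIntegral
  have h1 : (minpoly k⟮h⟯ x).natDegree ≤ m - 1 :=
    (natDegree_le_of_dvd (minpoly.dvd _ _ hGx) hG0).trans hGd
  have h2 : Module.finrank k⟮h⟯ k⟮h⟯⟮x⟯ = (minpoly k⟮h⟯ x).natDegree := adjoin.finrank hintx
  have h3 : Module.finrank k⟮x⟯ k⟮x⟯⟮w⟯ = m := adjoin.finrank hintw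
  have h4 : Module.finrank k⟮h⟯ k⟮h⟯⟮x⟯ * Module.finrank k⟮h⟯⟮x⟯ E = Module.finrank k⟮h⟯ E :=
    Module.finrank_mul_finrank _ _ _
  have h5 : Module.finrank k⟮x⟯ k⟮x⟯⟮w⟯ * Module.finrank k⟮x⟯⟮w⟯ E = Module.finrank k⟮x⟯ E :=
    Module.finrank_mul_finrank _ _ _
  have h6 : Module.finrank k⟮h⟯⟮x⟯ E = Module.finrank k⟮x⟯⟮w⟯ E := by
    apply fin_eq
    apply le_antisymm
    · -- `k(h)(x) ≤ k(x)(w)`
      have hx1 : x ∈ (k⟮x⟯⟮w⟯).toSubfield :=
        (k⟮x⟯⟮w⟯).algebraMap_mem ⟨x, mem_adjoin_simple_self k x⟩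
      have hw1 : w ∈ (k⟮x⟯⟮w⟯).toSubfield := mem_adjoin_simple_self k⟮x⟯ w
      have hk1 : ∀ c : k, algebraMap k E c ∈ (k⟮x⟯⟮w⟯).toSubfield := fun c =>
        (k⟮x⟯⟮w⟯).algebraMap_mem ⟨algebraMap k E c, k⟮x⟯.algebraMap_mem c⟩
      have hh1 : h ∈ (k⟮x⟯⟮w⟯).toSubfield := div_mem hw1 hx1
      have hkh : ∀ z : k⟮h⟯, (z : E) ∈ (k⟮x⟯⟮w⟯).toSubfield := by
        intro z
        let T : IntermediateField k E := Subfield.toIntermediateField (k⟮x⟯⟮w⟯).toSubfield hk1
        have : k⟮h⟯ ≤ T := by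
          rw [adjoin_simple_le_iff]
          exact hh1
        exact this z.2
      intro z hz
      let T : IntermediateField k⟮h⟯ E := Subfield.toIntermediateField (k⟮x⟯⟮w⟯).toSubfield hkh
      have : k⟮h⟯⟮x⟯ ≤ T := by
        rw [adjoin_simple_le_iff]
        exact hx1
      exact this hz
    · have hx1 : x ∈ (k⟮h⟯⟮x⟯).toSubfield := mem_adjoin_simple_self k⟮h⟯ x
      have hh1 : h ∈ (k⟮h⟯⟮x⟯).toSubfield :=
        (k⟮h⟯⟮x⟯).algebraMap_mem ⟨h, mem_adjoin_simple_self k h⟩
      have hk1 : ∀ c : k, algebraMap k E c ∈ (k⟮h⟯⟮x⟯).toSubfield := fun c =>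
        (k⟮h⟯⟮x⟯).algebraMap_mem ⟨algebraMap k E c, k⟮h⟯.algebraMap_mem c⟩
      have hw1 : w ∈ (k⟮h⟯⟮x⟯).toSubfield := by
        have := mul_mem hh1 hx1
        rwa [hh, div_mul_cancel₀ _ hx0] at this
      have hkx : ∀ z : k⟮x⟯, (z : E) ∈ (k⟮h⟯⟮x⟯).toSubfield := by
        intro z
        let T : IntermediateField k E := Subfield.toIntermediateField (k⟮h⟯⟮x⟯).toSubfield hk1
        have : k⟮x⟯ ≤ T := by
          rw [adjoin_simple_le_iff]
          exact hx1
        exact this z.2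
      intro z hz
      let T : IntermediateField k⟮x⟯ E := Subfield.toIntermediateField (k⟮h⟯⟮x⟯).toSubfield hkx
      have : k⟮x⟯⟮w⟯ ≤ T := by
        rw [adjoin_simple_le_iff]
        exact hw1
      exact this hz
  refine ⟨h, hht, ?_⟩
  rw [← h4, ← h5, h2, h3, h6]
  have hpos : 0 < Module.finrank k⟮x⟯⟮w⟯ E := by
    have : FiniteDimensional k⟮x⟯⟮w⟯ E := inferInstance
    exact Module.finrank_pos
  calc (minpoly k⟮h⟯ x).natDegree * Module.finrank k⟮x⟯⟮w⟯ E
      ≤ (m - 1) * Module.finrank k⟮x⟯⟮w⟯ E := Nat.mul_le_mul_right _ h1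
    _ < m * Module.finrank k⟮x⟯⟮w⟯ E := Nat.mul_lt_mul_of_pos_right (by omega) hpos

end

end Pool.Agent.SRF
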