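import Pool.Agent.SRF.GEN

/-!
# SRF FAA: derivations of the field of fractions, and regular differentials
-/

set_option autoImplicit false

namespace Pool.Agent.SRF

open IntermediateField Polynomial TensorProduct

section

/-- derivations extend to the field of fractions -/
theorem exists_frac_deriv {K T Q : Type} [CommRing K] [CommRing T] [Field Q] [Algebra K T]
    [Algebra T Q] [Algebra K Q] [IsScalarTower K T Q] [IsFractionRing T Q]
    (D : Derivation K T T) :
    ∃ δ : Derivation K Q Q, ∀ t, δ (algebraMap T Q t) = algebraMap T Q (D t) := by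
  obtain ⟨pr, hfst, hsnd⟩ : ∃ pr : Q → Q → TrivSqZeroExt Q Q,
      (∀ a b, (pr a b).fst = a) ∧ ∀ a b, (pr a b).snd = b := by
    refine ⟨fun a b => TrivSqZeroExt.inl a + TrivSqZeroExt.inr b, fun a b => ?_, fun a b => ?_⟩
    · rw [TrivSqZeroExt.fst_add, TrivSqZeroExt.fst_inl, TrivSqZeroExt.fst_inr, add_zero]
    · rw [TrivSqZeroExt.snd_add, TrivSqZeroExt.snd_inl, TrivSqZeroExt.snd_inr, zero_add]
  let g : T →+* TrivSqZeroExt Q Q :=
    { toFun := fun t => pr (algebraMap T Q t) (algebraMap T Q (D t))
      map_one' := by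
        apply TrivSqZeroExt.ext
        · rw [hfst, map_one, TrivSqZeroExt.fst_one]
        · rw [hsnd, Derivation.map_one_eq_zero, map_zero, TrivSqZeroExt.snd_one]
      map_zero' := by
        apply TrivSqZeroExt.ext
        · rw [hfst, map_zero, TrivSqZeroExt.fst_zero]
        · rw [hsnd, map_zero, map_zero, TrivSqZeroExt.snd_zero]
      map_add' := fun a b => by
        apply TrivSqZeroExt.ext
        · rw [TrivSqZeroExt.fst_add, hfst, hfst, hfst, map_add]
        · rw [TrivSqZeroExt.snd_add, hsnd, hsnd, hsnd, map_add, map_add]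
      map_mul' := fun a b => by
        apply TrivSqZeroExt.ext
        · rw [TrivSqZeroExt.fst_mul, hfst, hfst, hfst, map_mul]
        · rw [TrivSqZeroExt.snd_mul, hsnd, hsnd, hsnd, hfst, hfst, Derivation.leibniz,
            smul_eq_mul, smul_eq_mul, map_add, map_mul, map_mul, smul_eq_mul,
            MulOpposite.smul_eq_mul_unop, MulOpposite.unop_op]
          ring }
  have hgf : ∀ t, (g t).fst = algebraMap T Q t := fun t => hfst _ _
  have hgs : ∀ t, (g t).snd = algebraMap T Q (D t) := fun t => hsnd _ _
  have hnt : Nontrivial T := (algebraMap T Q).domain_nontrivial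
  have hu : ∀ y : nonZeroDivisors T, IsUnit (g y) := by
    intro y
    rw [TrivSqZeroExt.isUnit_iff_isUnit_fst, hgf, isUnit_iff_ne_zero]
    exact IsFractionRing.to_map_ne_zero_of_mem_nonZeroDivisors y.2
  let h : Q →+* TrivSqZeroExt Q Q := IsLocalization.lift (M := nonZeroDivisors T) hu
  have hg : ∀ t, h (algebraMap T Q t) = g t := fun t => IsLocalization.lift_eq hu t
  have hhf : ∀ q, (h q).fst = q := by
    intro q
    have h1 : (TrivSqZeroExt.fstHom ℤ Q Q).toRingHom.comp h = RingHom.id Q := by
      apply IsLocalization.ringHom_ext (nonZeroDivisors T)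
      ext t
      show (h (algebraMap T Q t)).fst = algebraMap T Q t
      rw [hg, hgf]
    exact congrArg (fun f : Q →+* Q => f q) h1
  have hmul : ∀ a b, (h (a * b)).snd = a * (h b).snd + b * (h a).snd := by
    intro a b
    rw [map_mul, TrivSqZeroExt.snd_mul, hhf, hhf, smul_eq_mul,
      MulOpposite.smul_eq_mul_unop, MulOpposite.unop_op, mul_comm b]
  refine ⟨Derivation.mk' { toFun := fun q => (h q).snd, map_add' := ?_, map_smul' := ?_ } ?_, ?_⟩
  · intro a b
    rw [map_add, TrivSqZeroExt.snd_add]
  · intro c a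
    have h1 : (h (algebraMap K Q c)).snd = 0 := by
      rw [IsScalarTower.algebraMap_apply K T Q, hg, hgs, Derivation.map_algebraMap, map_zero]
    rw [Algebra.smul_def, hmul, h1, mul_zero, add_zero, RingHom.id_apply, Algebra.smul_def]
  · intro a b
    show (h (a * b)).snd = a * (h b).snd + b * (h a).snd
    exact hmul a b
  · intro t
    show (h (algebraMap T Q t)).snd = _
    rw [hg, hgs]

end

section

variable {k E : Type} [Field k] [Field E] [Algebra k E]

/-- a differential of a function field is regular if it is regular at all valuation rings which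
contain the constants -/
def Reg (k : Type) {E : Type} [Field k] [Field E] [Algebra k E] (ω : Ω[E⁄k]) : Prop :=
  ∀ V : ValuationSubring E, (∀ c : k, algebraMap k E c ∈ V) →
    ∃ (n : ℕ) (a z : Fin n → E), (∀ i, a i ∈ V) ∧ (∀ i, z i ∈ V) ∧
      ω = ∑ i, a i • KaehlerDifferential.D k E (z i)

/-- the module of differentials is generated by one element -/
theorem omega_span [CharZero k] {f : E} (halg : ∀ y : E, IsAlgebraic k⟮f⟯ y) (ω : Ω[E⁄k]) :
    ∃ h : E, ω = h • KaehlerDifferential.D k E f := by
  have h1 : ∀ y : E, ∃ h : E, KaehlerDifferential.D k E y = h • KaehlerDifferential.D k E f := by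
    intro y
    obtain ⟨n, p, h1, h2⟩ := rel_exists (halg y)
    have h3 := bivar (KaehlerDifferential.D k E) f y n p
    rw [h1, map_zero] at h3
    set a := ∑ i ∈ Finset.range (n + 1), aeval f (derivative (p i)) * y ^ i with ha
    set b := ∑ i ∈ Finset.range (n + 1), aeval f (p i) * (i * y ^ (i - 1)) with hb
    refine ⟨-(b⁻¹ * a), ?_⟩
    have h4 : b • KaehlerDifferential.D k E y = -(a • KaehlerDifferential.D k E f) := by
      rw [eq_neg_iff_add_eq_zero, add_comm]
      exact h3.symm
    calc KaehlerDifferential.D k E y = b⁻¹ • (b • KaehlerDifferential.D k E y) := by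
          rw [smul_smul, inv_mul_cancel₀ h2, one_smul]
      _ = -(b⁻¹ * a) • KaehlerDifferential.D k E f := by
          rw [h4, smul_neg, smul_smul, neg_smul]
  have h2 : ω ∈ Submodule.span E (Set.range (KaehlerDifferential.D k E)) := by
    rw [KaehlerDifferential.span_range_derivation]
    trivial
  induction h2 using Submodule.span_induction with
  | mem x hx =>
    obtain ⟨y, rfl⟩ := hx
    exact h1 y
  | zero => exact ⟨0, by rw [zero_smul]⟩
  | add x y _ _ hx hy =>
    obtain ⟨a, rfl⟩ := hx
    obtain ⟨b, rfl⟩ := hy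
    exact ⟨a + b, by rw [add_smul]⟩
  | smul c x _ hx =>
    obtain ⟨a, rfl⟩ := hx
    exact ⟨c * a, by rw [smul_smul]⟩

/-- exchange -/
theorem exchange {K F : Type} [Field K] [Field F] [Algebra K F] {a u : F}
    (h1 : IsAlgebraic K⟮a⟯ u) (h2 : Transcendental K u) : IsAlgebraic K⟮u⟯ a := by
  have alg_iff : ∀ a u : F, IsAlgebraic K⟮a⟯ u ↔ IsAlgebraic (Algebra.adjoin K {a}) u := by
    intro a u
    open IntermediateField.algebraAdjoinAdjoin in
    exact (IsFractionRing.isAlgebraic_iff (Algebra.adjoin K {a}) K⟮a⟯ F).symm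
  rw [alg_iff] at h1 ⊢
  have e : ∀ (s : Set F) (x : F), x ∈ (AlgebraicIndependent.matroid K F).closure s ↔
      IsAlgebraic (Algebra.adjoin K s) x := by
    intro s x
    rw [AlgebraicIndependent.matroid_closure_eq, SetLike.mem_coe, Subalgebra.mem_algebraicClosure]
  have h3 : u ∉ (AlgebraicIndependent.matroid K F).closure ∅ := by
    rw [e, Algebra.adjoin_empty]
    intro h
    apply h2
    exact Subalgebra.isAlgebraic_of_isAlgebraic_bot h
  have h4 : u ∈ (AlgebraicIndependent.matroid K F).closure (insert a ∅) := by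
    rw [e, insert_empty_eq]
    exact h1
  have h5 := Matroid.mem_closure_insert h3 h4
  rw [e, insert_empty_eq] at h5
  exact h5

/-- algebraic over an algebraic extension -/
theorem alg_trans' {K F : Type} [Field K] [Field F] [Algebra K F] {a u : F}
    (h1 : IsAlgebraic K⟮u⟯ a) {y : F} (h2 : IsAlgebraic K⟮a⟯ y) : IsAlgebraic K⟮u⟯ y := by
  have h3 : ∀ c : K⟮a⟯, ∃ c' : algebraicClosure K⟮u⟯ F,
      algebraMap (algebraicClosure K⟮u⟯ F) F c' = algebraMap K⟮a⟯ F c := by
    rintro ⟨c, hc⟩
    let T : IntermediateField K F := (algebraicClosure K⟮u⟯ F).restrictScalars K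
    have h4 : K⟮a⟯ ≤ T := by
      rw [adjoin_simple_le_iff]
      exact mem_algebraicClosure_iff.2 h1
    exact ⟨⟨c, h4 hc⟩, rfl⟩
  choose g hg using h3
  have hinj : Function.Injective (algebraMap (algebraicClosure K⟮u⟯ F) F) :=
    (algebraMap (algebraicClosure K⟮u⟯ F) F).injective
  let f : K⟮a⟯ →+* algebraicClosure K⟮u⟯ F :=
    { toFun := g
      map_one' := hinj (by rw [hg, map_one, map_one])
      map_mul' := fun a b => hinj (by rw [hg, map_mul, map_mul, hg, hg])
      map_zero' := hinj (by rw [hg, map_zero, map_zero])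
      map_add' := fun a b => hinj (by rw [hg, map_add, map_add, hg, hg]) }
  have h5 : IsAlgebraic (algebraicClosure K⟮u⟯ F) ((RingHom.id F) y) :=
    IsAlgebraic.ringHom_of_comp_eq (f := f) (g := RingHom.id F) h2 f.injective
      (RingHom.ext fun a => (hg a))
  exact (show IsAlgebraic (algebraicClosure K⟮u⟯ F) y from h5).restrictScalars K⟮u⟯

end

end Pool.Agent.SRF
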