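import Pool.Agent.SRF.FAA

/-!
# SRF FAB: derivations preserve the valuation rings over `L ⊗ M` if `L` has transcendence degree 1
-/

set_option autoImplicit false

namespace Pool.Agent.SRF

open IntermediateField Polynomial TensorProduct

section

/-- algebraic elements are mapped to algebraic elements -/
theorem alg_push {A E K₀ C : Type} [Field A] [Field E] [Field K₀] [Field C] [Algebra A E]
    [Algebra K₀ C] (ψ : E →+* C)
    (h : ∀ a : A, ∃ c : K₀, algebraMap K₀ C c = ψ (algebraMap A E a)) {s : E}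
    (hs : IsAlgebraic A s) : IsAlgebraic K₀ (ψ s) := by
  choose g hg using h
  have hinj : Function.Injective (algebraMap K₀ C) := (algebraMap K₀ C).injective
  let f : A →+* K₀ :=
    { toFun := g
      map_one' := hinj (by rw [hg, map_one, map_one, map_one])
      map_mul' := fun a b => hinj (by rw [hg, map_mul, map_mul, map_mul, hg, hg])
      map_zero' := hinj (by rw [hg, map_zero, map_zero, map_zero])
      map_add' := fun a b => hinj (by rw [hg, map_add, map_add, map_add, hg, hg]) }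
  exact IsAlgebraic.ringHom_of_comp_eq (f := f) (g := ψ) hs f.injective
    (RingHom.ext fun a => (hg a))

variable {K L M Q : Type} [Field K] [Field L] [Field M]
  [Algebra K L] [Algebra K M] [Field Q] [Algebra (L ⊗[K] M) Q] [IsFractionRing (L ⊗[K] M) Q]

/-- the elements of the field of fractions are algebraic over `M(w)` -/
theorem algQ [Algebra M Q] (hMQ : ∀ m : M, algebraMap M Q m =
      algebraMap (L ⊗[K] M) Q ((1 : L) ⊗ₜ[K] m)) (w : L)
    (hw : ∀ l : L, IsAlgebraic K⟮w⟯ l) (y : Q) :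
    IsAlgebraic M⟮algebraMap (L ⊗[K] M) Q (w ⊗ₜ[K] (1 : M))⟯ y := by
  set om : Q := algebraMap (L ⊗[K] M) Q (w ⊗ₜ[K] (1 : M)) with hom
  let C : Subfield Q := (algebraicClosure M⟮om⟯ Q).toSubfield
  have hC : ∀ z, z ∈ C ↔ IsAlgebraic M⟮om⟯ z := fun z => mem_algebraicClosure_iff
  let iL : L →+* Q := (algebraMap (L ⊗[K] M) Q).comp
    (Algebra.TensorProduct.includeLeft (R := K) (S := K) (A := L) (B := M)).toRingHom
  have hiL : ∀ l, iL l = algebraMap (L ⊗[K] M) Q (l ⊗ₜ[K] (1 : M)) := fun l => rfl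
  have hL : ∀ l : L, iL l ∈ C := by
    intro l
    rw [hC]
    refine alg_push iL ?_ (hw l)
    -- `K(w)` is mapped to `M(w)`
    let S : IntermediateField K L := Subfield.toIntermediateField
      ((algebraMap M⟮om⟯ Q).fieldRange.comap iL) (fun c => by
        refine ⟨algebraMap M M⟮om⟯ (algebraMap K M c), ?_⟩
        rw [← IsScalarTower.algebraMap_apply, hMQ, hiL]
        congr 1
        rw [Algebra.algebraMap_eq_smul_one, Algebra.algebraMap_eq_smul_one,
          TensorProduct.tmul_smul, TensorProduct.smul_tmul'])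
    have h1 : K⟮w⟯ ≤ S := by
      rw [adjoin_simple_le_iff]
      refine ⟨⟨om, mem_adjoin_simple_self M om⟩, ?_⟩
      rfl
    intro a
    exact h1 a.2
  have hM : ∀ m : M, algebraMap (L ⊗[K] M) Q ((1 : L) ⊗ₜ[K] m) ∈ C := by
    intro m
    rw [hC, ← hMQ]
    have h1 : algebraMap M Q m = algebraMap M⟮om⟯ Q (algebraMap M M⟮om⟯ m) :=
      IsScalarTower.algebraMap_apply _ _ _ _
    rw [h1]
    exact isAlgebraic_algebraMap _
  have hT : ∀ t : L ⊗[K] M, algebraMap (L ⊗[K] M) Q t ∈ C := by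
    intro t
    induction t with
    | zero => rw [map_zero]; exact C.zero_mem
    | tmul l m =>
      have h1 : l ⊗ₜ[K] m = (l ⊗ₜ[K] (1 : M)) * ((1 : L) ⊗ₜ[K] m) := by
        rw [Algebra.TensorProduct.tmul_mul_tmul, mul_one, one_mul]
      rw [h1, map_mul]
      exact C.mul_mem (hL l) (hM m)
    | add a b ha hb => rw [map_add]; exact C.add_mem ha hb
  obtain ⟨a, b, _, rfl⟩ := IsFractionRing.div_surjective (A := L ⊗[K] M) y
  rw [← hC]
  exact C.div_mem (hT a) (hT b)

/-- the derivation maps valuation rings over the tensor product to themselves -/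
theorem fa_int [IsAlgClosed M] [CharZero M] [IsIntegrallyClosed (L ⊗[K] M)] (w : L)
    (hw : ∀ l : L, IsAlgebraic K⟮w⟯ l) (δ : Q → Q)
    (hδ : ∀ a b, δ (a * b) = a * δ b + b * δ a)
    (hδT : ∀ t : L ⊗[K] M, ∃ t' : L ⊗[K] M,
      δ (algebraMap (L ⊗[K] M) Q t) = algebraMap (L ⊗[K] M) Q t')
    (W : ValuationSubring Q) (hW : ∀ t, algebraMap (L ⊗[K] M) Q t ∈ W) {y : Q} (hy : y ∈ W) :
    δ y ∈ W := by
  let iM : M →+* Q := (algebraMap (L ⊗[K] M) Q).comp
    (Algebra.TensorProduct.includeRight (R := K) (A := L) (B := M)).toRingHom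
  let : Algebra M Q := iM.toAlgebra
  have hMQ : ∀ m : M, algebraMap M Q m = algebraMap (L ⊗[K] M) Q ((1 : L) ⊗ₜ[K] m) :=
    fun m => rfl
  have halg := algQ hMQ w hw
  set om : Q := algebraMap (L ⊗[K] M) Q (w ⊗ₜ[K] (1 : M)) with hom
  have hMW : ∀ m : M, algebraMap M Q m ∈ W := fun m => by rw [hMQ]; exact hW _
  have homW : om ∈ W := hW _
  -- the trivial case
  have htop : (∀ z ∈ M⟮om⟯, z ∈ W) → δ y ∈ W := by
    intro h
    refine val_of_int (M⟮om⟯.toSubfield.toSubring) (δ y) ?_ W (fun z hz => h z hz)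
    have h1 := (halg (δ y)).isIntegral
    exact h1
  by_cases homt : IsAlgebraic M om
  · apply htop
    obtain ⟨m, hm⟩ := mem_range_of_alg homt
    intro z hz
    have h1 : M⟮om⟯ = ⊥ := by
      rw [adjoin_simple_eq_bot_iff, mem_bot]
      exact ⟨m, hm⟩
    rw [h1, mem_bot] at hz
    obtain ⟨c, rfl⟩ := hz
    exact hMW c
  by_cases hex : ∃ m : M, W.valuation (om - algebraMap M Q m) < 1
  · obtain ⟨m₀, hm₀⟩ := hex
    obtain ⟨n, a, ha, hexa, h0⟩ := rel_prim hMW homt m₀ hm₀ (halg y)
    have hadj : ∀ z ∈ Algebra.adjoin M {om}, ∃ t : L ⊗[K] M, algebraMap (L ⊗[K] M) Q t = z := by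
      intro z hz
      let S : Subalgebra M Q := { (algebraMap (L ⊗[K] M) Q).range with
        algebraMap_mem' := fun m => ⟨(1 : L) ⊗ₜ[K] m, rfl⟩ }
      have h1 : Algebra.adjoin M {om} ≤ S := by
        rw [Algebra.adjoin_le_iff, Set.singleton_subset_iff]
        exact ⟨_, rfl⟩
      exact h1 hz
    obtain ⟨z, hz, hzy, hz1⟩ := denom (Algebra.adjoin M {om}).toSubring W
      (fun a ha => by
        obtain ⟨t, rfl⟩ := hadj a ha
        exact hW t) y ((W.valuation_le_one_iff _).2 hy) n a (fun i _ => ha i) hexa h0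
    have hint : ∀ u : Q, IsIntegral (Algebra.adjoin M {om}).toSubring u →
        ∃ t : L ⊗[K] M, algebraMap (L ⊗[K] M) Q t = u := by
      intro u hu
      apply T_of_val
      intro W' hW'
      exact val_of_int _ u hu W' (fun a ha => by
        obtain ⟨t, rfl⟩ := hadj a ha
        exact hW' t)
    obtain ⟨zT, hzT⟩ := hint z hz
    obtain ⟨wT, hwT⟩ := hint _ hzy
    obtain ⟨zT', hzT'⟩ := hδT zT
    obtain ⟨wT', hwT'⟩ := hδT wT
    rw [hzT] at hzT'
    rw [hwT] at hwT'
    have hz0 : z ≠ 0 := by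
      intro h
      rw [h, map_zero] at hz1
      exact zero_ne_one hz1
    have hzi : z⁻¹ ∈ W := by
      rw [← W.valuation_le_one_iff, map_inv₀, hz1, inv_one]
    have h3 : δ y = z⁻¹ * (δ (z * y) - y * δ z) := by
      rw [hδ z y]
      field_simp
      ring
    rw [h3, hwT', hzT']
    exact W.mul_mem _ _ hzi (sub_mem (hW _) (W.mul_mem _ _ hy (hW _)))
  · push Not at hex
    apply htop
    intro z hz
    obtain ⟨a, b, hb, hab⟩ := frac_rep hz
    have hb0 : b ≠ 0 := by
      rintro rfl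
      exact hb (map_zero _)
    rw [(eq_div_of_mul_eq hb hab : z = aeval om a / aeval om b)]
    have h1 := root_of_small hMW hex b.natDegree b hb0 rfl
    have h2 : aeval om a ∈ W := Ox_aeval om a W hMW homW
    rw [← W.valuation_le_one_iff, map_div₀]
    rw [← W.valuation_le_one_iff] at h2
    exact (div_le_one₀ (zero_lt_one.trans_le h1)).2 (h2.trans h1)

end

end Pool.Agent.SRF
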