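import Pool.Agent.SRF.FAB

/-!
# SRF FAC: contraction of differentials, and the constants of the derivations
-/

set_option autoImplicit false

namespace Pool.Agent.SRF

open IntermediateField Polynomial TensorProduct Pool.Agent.SGL

section

variable {k E : Type} [Field k] [Field E] [Algebra k E]

/-- contraction with a derivation -/
theorem exists_lam {Q : Type} [Field Q] (ψ : E →+* Q) (δ : Q → Q)
    (hadd : ∀ a b, δ (a + b) = δ a + δ b) (hmul : ∀ a b, δ (a * b) = a * δ b + b * δ a)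
    (hk : ∀ c : k, δ (ψ (algebraMap k E c)) = 0) :
    ∃ lam : Ω[E⁄k] → Q, (∀ a b, lam (a + b) = lam a + lam b) ∧
      (∀ (f : E) (a : Ω[E⁄k]), lam (f • a) = ψ f * lam a) ∧
      ∀ y, lam (KaehlerDifferential.D k E y) = δ (ψ y) := by
  let : Algebra E Q := ψ.toAlgebra
  let : Algebra k Q := (ψ.comp (algebraMap k E)).toAlgebra
  have hst : IsScalarTower k E Q := IsScalarTower.of_algebraMap_eq (fun c => rfl)
  have hsE : ∀ (f : E) (q : Q), f • q = ψ f * q := fun f q => Algebra.smul_def f q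
  have hsk : ∀ (c : k) (q : Q), c • q = ψ (algebraMap k E c) * q := fun f q => Algebra.smul_def f q
  let D₁ : Derivation k E Q := Derivation.mk'
    { toFun := fun y => δ (ψ y)
      map_add' := fun a b => by rw [map_add, hadd]
      map_smul' := fun c a => by
        rw [Algebra.smul_def, map_mul, hmul, hk, mul_zero, add_zero, RingHom.id_apply, hsk] }
    (fun a b => by
      show δ (ψ (a * b)) = a • δ (ψ b) + b • δ (ψ a)
      rw [map_mul, hmul, hsE, hsE])
  refine ⟨D₁.liftKaehlerDifferential, fun a b => map_add _ _ _, fun f a => ?_, fun y => ?_⟩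
  · rw [map_smul, hsE]
  · exact D₁.liftKaehlerDifferential_comp_D y

end

section

variable {K L M Q : Type} [Field K] [IsAlgClosed K] [CharZero K] [Field L] [Field M]
  [Algebra K L] [Algebra K M] [Field Q] [Algebra (L ⊗[K] M) Q] [IsFractionRing (L ⊗[K] M) Q]
  [Algebra K Q] [IsScalarTower K (L ⊗[K] M) Q]

/-- elements of the field of fractions which are killed by all derivations of `M` -/
theorem cst_frac (z : Q) (hz : ∀ (D : Derivation K M M)
    (D' : Derivation K (L ⊗[K] M) (L ⊗[K] M)) (δ : Derivation K Q Q),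
    (∀ l m, D' (l ⊗ₜ[K] m) = l ⊗ₜ[K] D m) →
    (∀ t, δ (algebraMap (L ⊗[K] M) Q t) = algebraMap (L ⊗[K] M) Q (D' t)) → δ z = 0) :
    ∃ l : L, z = algebraMap (L ⊗[K] M) Q (l ⊗ₜ[K] (1 : M)) := by
  classical
  have hdom : IsDomain (L ⊗[K] M) := DMT_ K L M
  have hinj : Function.Injective (algebraMap (L ⊗[K] M) Q) := IsFractionRing.injective _ _
  obtain ⟨e⟩ : Nonempty (Module.Basis (Module.Basis.ofVectorSpaceIndex K L) K L) :=
    ⟨Module.Basis.ofVectorSpace K L⟩
  set Φ := TensorProduct.equivFinsuppOfBasisLeft (N := M) e with hΦ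
  have hΦmul : ∀ (m : M) (t : L ⊗[K] M) i, Φ (((1 : L) ⊗ₜ[K] m) * t) i = m * Φ t i := by
    intro m t i
    induction t with
    | zero => rw [mul_zero, map_zero, Finsupp.zero_apply, mul_zero]
    | tmul l m' =>
      rw [Algebra.TensorProduct.tmul_mul_tmul, one_mul, hΦ,
        equivFinsuppOfBasisLeft_apply_tmul_apply, equivFinsuppOfBasisLeft_apply_tmul_apply,
        mul_smul_comm]
    | add a b ha hb =>
      rw [mul_add, map_add, map_add, Finsupp.add_apply, Finsupp.add_apply, ha, hb, mul_add]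
  -- denominators
  let P : ℕ → Prop := fun n => ∃ t : L ⊗[K] M, t ≠ 0 ∧ (Φ t).support.card = n ∧
    ∃ s : L ⊗[K] M, z * algebraMap (L ⊗[K] M) Q t = algebraMap (L ⊗[K] M) Q s
  have hP : ∃ n, P n := by
    obtain ⟨a, b, hb, hab⟩ := IsFractionRing.div_surjective (A := L ⊗[K] M) z
    have hb0 : b ≠ 0 := nonZeroDivisors.ne_zero hb
    refine ⟨_, b, hb0, rfl, a, ?_⟩
    rw [← hab, div_mul_cancel₀]
    intro h
    apply hb0
    apply hinj
    rw [h, map_zero]
  obtain ⟨t, ht0, htn, s, hs⟩ := Nat.find_spec hP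
  have hΦt : Φ t ≠ 0 := by
    intro h
    apply ht0
    exact Φ.injective (by rw [h, map_zero])
  obtain ⟨i₀, hi₀⟩ := Finsupp.ne_iff.1 hΦt
  rw [Finsupp.zero_apply] at hi₀
  set t' := ((1 : L) ⊗ₜ[K] (Φ t i₀)⁻¹) * t with ht'
  set s' := ((1 : L) ⊗ₜ[K] (Φ t i₀)⁻¹) * s with hs'
  have hzt' : z * algebraMap (L ⊗[K] M) Q t' = algebraMap (L ⊗[K] M) Q s' := by
    rw [ht', hs', map_mul, map_mul, ← hs]
    ring
  have ht'1 : Φ t' i₀ = 1 := by
    rw [ht', hΦmul, inv_mul_cancel₀ hi₀]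
  have ht'0 : t' ≠ 0 := by
    intro h
    rw [h, map_zero, Finsupp.zero_apply] at ht'1
    exact zero_ne_one ht'1
  have hcst : ∀ (D : Derivation K M M) (D' : Derivation K (L ⊗[K] M) (L ⊗[K] M)),
      (∀ l m, D' (l ⊗ₜ[K] m) = l ⊗ₜ[K] D m) → D' t' = 0 := by
    intro D D' hD
    by_contra hne
    obtain ⟨δ, hδ⟩ := exists_frac_deriv (Q := Q) D'
    have hδz := hz D D' δ hD hδ
    have h1 : z * algebraMap (L ⊗[K] M) Q (D' t') = algebraMap (L ⊗[K] M) Q (D' s') := by
      rw [← hδ, ← hδ, ← hzt', Derivation.leibniz, hδz, smul_zero, add_zero, smul_eq_mul]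
    have h2 : (Φ (D' t')).support.card < Nat.find hP := by
      rw [← htn]
      apply Finset.card_lt_card
      rw [Finset.ssubset_iff_of_subset]
      · refine ⟨i₀, by rw [Finsupp.mem_support_iff]; exact hi₀, ?_⟩
        rw [Finsupp.mem_support_iff, not_not, hΦ, CST_.coord e D D' hD, ← hΦ, ht'1,
          Derivation.map_one_eq_zero]
      · intro i hi
        rw [Finsupp.mem_support_iff] at hi ⊢
        intro h
        apply hi
        rw [hΦ, CST_.coord e D D' hD, ← hΦ, ht', hΦmul, h, mul_zero, map_zero]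
    exact Nat.find_min hP h2 ⟨D' t', hne, rfl, D' s', h1⟩
  obtain ⟨l, hl⟩ := CST_ K L M t' hcst
  have hl0 : l ≠ 0 := by
    rintro rfl
    rw [zero_tmul] at hl
    exact ht'0 hl
  have hzs : z = algebraMap (L ⊗[K] M) Q ((l⁻¹ ⊗ₜ[K] (1 : M)) * s') := by
    rw [map_mul, ← hzt', hl, mul_left_comm, ← map_mul, Algebra.TensorProduct.tmul_mul_tmul,
      inv_mul_cancel₀ hl0, mul_one, ← Algebra.TensorProduct.one_def, map_one, mul_one]
  obtain ⟨l', hl'⟩ := CST_ K L M ((l⁻¹ ⊗ₜ[K] (1 : M)) * s') (by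
    intro D D' hD
    obtain ⟨δ, hδ⟩ := exists_frac_deriv (Q := Q) D'
    have hδz := hz D D' δ hD hδ
    apply hinj
    rw [← hδ, ← hzs, hδz, map_zero])
  exact ⟨l', by rw [hzs, hl']⟩

end

end Pool.Agent.SRF
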