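import Pool.Agent.SRF.FAC

/-!
# SRF FAD: two regular differentials, the case of transcendence degree 1
-/

set_option autoImplicit false

namespace Pool.Agent.SRF

open IntermediateField Polynomial TensorProduct Pool.Agent.SGL

section

variable {k E K L M Q : Type} [Field k] [Field E] [Algebra k E] [Field K] [Field L] [Field M]
  [Algebra K L] [Algebra K M] [Field Q] [Algebra (L ⊗[K] M) Q] [IsFractionRing (L ⊗[K] M) Q]

/-- the contraction of a regular differential lies in `M` -/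
theorem lam_mem [IsAlgClosed K] [IsAlgClosed M] [CharZero M] [IsIntegrallyClosed (L ⊗[K] M)]
    (w : L) (hw : ∀ l : L, IsAlgebraic K⟮w⟯ l) (κ : k →+* K) (ψ : E →+* Q)
    (hψ : ∀ c : k, ψ (algebraMap k E c) = algebraMap (L ⊗[K] M) Q (algebraMap K (L ⊗[K] M) (κ c)))
    (D : Derivation K M M) (D' : Derivation K (L ⊗[K] M) (L ⊗[K] M))
    (hD : ∀ l m, D' (l ⊗ₜ[K] m) = l ⊗ₜ[K] D m) (δ : Q → Q)
    (hmul : ∀ a b, δ (a * b) = a * δ b + b * δ a)
    (hδ : ∀ t, δ (algebraMap (L ⊗[K] M) Q t) = algebraMap (L ⊗[K] M) Q (D' t))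
    (lam : Ω[E⁄k] → Q) (h1 : ∀ a b, lam (a + b) = lam a + lam b)
    (h2 : ∀ (f : E) (a : Ω[E⁄k]), lam (f • a) = ψ f * lam a)
    (h3 : ∀ y, lam (KaehlerDifferential.D k E y) = δ (ψ y)) {ω : Ω[E⁄k]} (hω : Reg k ω) :
    ∃ m : M, lam ω = algebraMap (L ⊗[K] M) Q ((1 : L) ⊗ₜ[K] m) := by
  have hlam0 : lam 0 = 0 := by
    have := h1 0 0
    rw [add_zero] at this
    exact left_eq_add.1 this
  -- valuation rings which are preserved by `δ`
  have key : ∀ W : ValuationSubring Q, (∀ c : K, algebraMap (L ⊗[K] M) Q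
      (algebraMap K (L ⊗[K] M) c) ∈ W) → (∀ y ∈ W, δ y ∈ W) → lam ω ∈ W := by
    intro W hKW hW
    have hVc : ∀ c : k, algebraMap k E c ∈ W.comap ψ := by
      intro c
      rw [comap_mem, hψ]
      exact hKW _
    obtain ⟨n, a, z, ha, hz, rfl⟩ := hω (W.comap ψ) hVc
    have hsum : ∀ s : Finset (Fin n), lam (∑ i ∈ s, a i • KaehlerDifferential.D k E (z i)) =
        ∑ i ∈ s, ψ (a i) * δ (ψ (z i)) := by
      intro s
      classical
      induction s using Finset.induction_on with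
      | empty => rw [Finset.sum_empty, Finset.sum_empty, hlam0]
      | insert i s hi ih =>
        rw [Finset.sum_insert hi, Finset.sum_insert hi, h1, ih, h2, h3]
    rw [hsum]
    exact sum_mem (fun i _ => W.mul_mem _ _ (ha i) (hW _ (hz i)))
  obtain ⟨zT, hzT⟩ : ∃ zT : L ⊗[K] M, algebraMap (L ⊗[K] M) Q zT = lam ω := by
    apply T_of_val
    intro W hW
    exact key W (fun c => hW _) (fun y hy => fa_int w hw δ hmul (fun t => ⟨_, hδ t⟩) W hW hy)
  obtain ⟨𝒲, h𝒲1, h𝒲2, h𝒲3⟩ := PLC_ K L M Q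
  obtain ⟨m, hm⟩ := h𝒲2 zT (by
    intro W hW
    rw [hzT]
    apply key W
    · intro c
      by_cases hc : c = 0
      · rw [hc, map_zero, map_zero]
        exact W.zero_mem
      have h4 : algebraMap K (L ⊗[K] M) c = (1 : L) ⊗ₜ[K] algebraMap K M c := by
        rw [Algebra.TensorProduct.algebraMap_apply, Algebra.algebraMap_eq_smul_one,
          Algebra.algebraMap_eq_smul_one, TensorProduct.smul_tmul]
      rw [h4, ← W.valuation_le_one_iff, h𝒲1 W hW _ (by rwa [Ne, map_eq_zero])]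
    · have hb : ∀ z, W.valuation (δ (algebraMap (L ⊗[K] M) Q z)) ≤
          W.valuation (algebraMap (L ⊗[K] M) Q z) := by
        intro z
        rw [hδ]
        exact h𝒲3 D D' hD W hW z
      intro y hy
      obtain ⟨a, b, hb1, hab⟩ := IsFractionRing.div_surjective (A := L ⊗[K] M) y
      have hb0 : algebraMap (L ⊗[K] M) Q b ≠ 0 :=
        IsFractionRing.to_map_ne_zero_of_mem_nonZeroDivisors hb1
      have hvb : 0 < W.valuation (algebraMap (L ⊗[K] M) Q b) :=
        zero_lt_iff.2 ((_root_.map_ne_zero W.valuation).2 hb0)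
      have hyb : y * algebraMap (L ⊗[K] M) Q b = algebraMap (L ⊗[K] M) Q a := by
        rw [← hab, div_mul_cancel₀ _ hb0]
      have h5 : algebraMap (L ⊗[K] M) Q b * δ y =
          δ (algebraMap (L ⊗[K] M) Q a) - y * δ (algebraMap (L ⊗[K] M) Q b) := by
        rw [← hyb, hmul]
        ring
      rw [← W.valuation_le_one_iff] at hy ⊢
      have h6 : W.valuation (algebraMap (L ⊗[K] M) Q b) * W.valuation (δ y) ≤
          W.valuation (algebraMap (L ⊗[K] M) Q b) * 1 := by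
        rw [← map_mul, h5, mul_one]
        apply Valuation.map_sub_le
        · refine (hb a).trans ?_
          rw [← hyb, map_mul]
          exact mul_le_of_le_one_left' hy
        · rw [map_mul]
          exact (mul_le_mul' hy (hb b)).trans (one_mul _).le
      exact le_of_mul_le_mul_left h6 hvb)
  exact ⟨m, by rw [← hzT, hm]⟩

/-- **two regular differentials** -/
theorem fal1 [IsAlgClosed k] [CharZero k] [IsAlgClosed K] [CharZero K] [IsAlgClosed M] [CharZero M]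
    [IsIntegrallyClosed (L ⊗[K] M)]
    (w : L) (hw : ∀ l : L, IsAlgebraic K⟮w⟯ l) (κ : k →+* K) (ψ : E →+* Q)
    (hψ : ∀ c : k, ψ (algebraMap k E c) = algebraMap (L ⊗[K] M) Q (algebraMap K (L ⊗[K] M) (κ c)))
    (hE : Cur k E) {ω₁ ω₂ : Ω[E⁄k]} (h₁ : Reg k ω₁) (h₂ : Reg k ω₂)
    (hind : ∀ a b : k, a • ω₁ + b • ω₂ = 0 → a = 0 ∧ b = 0) :
    (∀ y, ∃ l : L, ψ y = algebraMap (L ⊗[K] M) Q (l ⊗ₜ[K] (1 : M))) ∨
      ∀ y, ∃ m : M, ψ y = algebraMap (L ⊗[K] M) Q ((1 : L) ⊗ₜ[K] m) := by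
  classical
  let : Algebra K Q := ((algebraMap (L ⊗[K] M) Q).comp (algebraMap K (L ⊗[K] M))).toAlgebra
  have hst : IsScalarTower K (L ⊗[K] M) Q := IsScalarTower.of_algebraMap_eq (fun c => rfl)
  let iM : M →+* Q := (algebraMap (L ⊗[K] M) Q).comp
    (Algebra.TensorProduct.includeRight (R := K) (A := L) (B := M)).toRingHom
  let : Algebra M Q := iM.toAlgebra
  have hMQ : ∀ m : M, algebraMap M Q m = algebraMap (L ⊗[K] M) Q ((1 : L) ⊗ₜ[K] m) :=
    fun m => rfl
  have hκL : ∀ c : k, ψ (algebraMap k E c) =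
      algebraMap (L ⊗[K] M) Q (algebraMap K L (κ c) ⊗ₜ[K] (1 : M)) := by
    intro c
    rw [hψ, Algebra.TensorProduct.algebraMap_apply]
  have hκM : ∀ c : k, ψ (algebraMap k E c) =
      algebraMap (L ⊗[K] M) Q ((1 : L) ⊗ₜ[K] algebraMap K M (κ c)) := by
    intro c
    rw [hκL, Algebra.algebraMap_eq_smul_one (A := L), Algebra.algebraMap_eq_smul_one (A := M),
      TensorProduct.smul_tmul]
  -- an element which is not constant
  have hω₁ : ω₁ ≠ 0 := by
    rintro rfl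
    have := (hind 1 0 (by rw [smul_zero, zero_smul, add_zero])).1
    exact one_ne_zero this
  have halgE : ∀ f : E, Transcendental k f → ∀ y : E, IsAlgebraic k⟮f⟯ y := by
    intro f hf y
    have := hE f hf
    exact Algebra.IsAlgebraic.isAlgebraic y
  obtain ⟨f, hf⟩ : ∃ f : E, Transcendental k f := by
    by_contra hcon
    push Not at hcon
    unfold Transcendental at hcon
    push Not at hcon
    apply hω₁
    obtain ⟨h, hh⟩ := omega_span (f := (0 : E))
      (fun y => IsAlgebraic.tower_top (K := k) (A := E) _ (hcon y)) ω₁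
    rw [hh, map_zero, smul_zero]
  obtain ⟨u₁, hu₁⟩ := omega_span (halgE f hf) ω₁
  obtain ⟨u₂, hu₂⟩ := omega_span (halgE f hf) ω₂
  have hu₁0 : u₁ ≠ 0 := by
    rintro rfl
    rw [zero_smul] at hu₁
    exact hω₁ hu₁
  have hg : ω₂ = (u₂ / u₁) • ω₁ := by
    rw [hu₁, hu₂, smul_smul, div_mul_cancel₀ _ hu₁0]
  have hgt : Transcendental k (u₂ / u₁) := by
    intro h
    obtain ⟨c, hc⟩ := mem_range_of_alg h
    rw [← hc, algebraMap_smul] at hg
    have h5 := (hind c (-1) (by rw [hg, neg_one_smul]; exact add_neg_cancel _)).2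
    exact one_ne_zero (neg_eq_zero.1 h5)
  -- the contractions
  have hlam : ∀ (D : Derivation K M M) (D' : Derivation K (L ⊗[K] M) (L ⊗[K] M))
      (δ : Derivation K Q Q), (∀ l m, D' (l ⊗ₜ[K] m) = l ⊗ₜ[K] D m) →
      (∀ t, δ (algebraMap (L ⊗[K] M) Q t) = algebraMap (L ⊗[K] M) Q (D' t)) →
      ∃ lam : Ω[E⁄k] → Q, (∀ (f : E) (a : Ω[E⁄k]), lam (f • a) = ψ f * lam a) ∧
        (∀ y, lam (KaehlerDifferential.D k E y) = δ (ψ y)) ∧
        ∀ ω : Ω[E⁄k], Reg k ω →
          ∃ m : M, lam ω = algebraMap (L ⊗[K] M) Q ((1 : L) ⊗ₜ[K] m) := by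
    intro D D' δ hD hδ
    have hmul : ∀ a b, δ (a * b) = a * δ b + b * δ a := by
      intro a b
      rw [Derivation.leibniz, smul_eq_mul, smul_eq_mul]
    obtain ⟨lam, h1, h2, h3⟩ := exists_lam (k := k) ψ δ (fun a b => map_add δ a b) hmul
      (fun c => by rw [hψ, hδ, Derivation.map_algebraMap, map_zero])
    exact ⟨lam, h2, h3, fun ω hω => lam_mem w hw κ ψ hψ D D' hD δ hmul
      hδ lam h1 h2 h3 hω⟩
  by_cases hbr : ∃ (D : Derivation K M M) (D' : Derivation K (L ⊗[K] M) (L ⊗[K] M))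
      (δ : Derivation K Q Q), (∀ l m, D' (l ⊗ₜ[K] m) = l ⊗ₜ[K] D m) ∧
      (∀ t, δ (algebraMap (L ⊗[K] M) Q t) = algebraMap (L ⊗[K] M) Q (D' t)) ∧ δ (ψ f) ≠ 0
  · right
    obtain ⟨D, D', δ, hD, hδ, hne⟩ := hbr
    obtain ⟨lam, h2, h3, h4⟩ := hlam D D' δ hD hδ
    obtain ⟨m₁, hm₁⟩ := h4 ω₁ h₁
    obtain ⟨m₂, hm₂⟩ := h4 ω₂ h₂
    have hl1 : lam ω₁ ≠ 0 := by
      rw [hu₁, h2, h3]
      exact mul_ne_zero ((_root_.map_ne_zero ψ).2 hu₁0) hne
    have hg' : ψ (u₂ / u₁) = algebraMap M Q (m₂ / m₁) := by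
      rw [map_div₀ (algebraMap M Q), hMQ, hMQ, ← hm₁, ← hm₂, hg, h2, mul_div_cancel_right₀ _ hl1]
    intro y
    have h5 : IsAlgebraic M (ψ y) := by
      refine alg_push ψ ?_ (halgE _ hgt y)
      let S : IntermediateField k E := Subfield.toIntermediateField
        ((algebraMap M Q).fieldRange.comap ψ) (fun c => ⟨algebraMap K M (κ c), (hκM c).symm⟩)
      have h6 : k⟮u₂ / u₁⟯ ≤ S := by
        rw [adjoin_simple_le_iff]
        exact ⟨_, hg'.symm⟩
      intro a
      exact h6 a.2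
    obtain ⟨m, hm⟩ := mem_range_of_alg h5
    exact ⟨m, hm.symm⟩
  · left
    push Not at hbr
    intro y
    apply cst_frac
    intro D D' δ hD hδ
    -- `y` is algebraic over `k(f)`
    have h5 := hbr D D' δ hD hδ
    obtain ⟨lam, h2, h3, h4⟩ := hlam D D' δ hD hδ
    obtain ⟨v, hv⟩ := omega_span (halgE f hf) (KaehlerDifferential.D k E y)
    rw [← h3, hv, h2, h3, h5, mul_zero]

end

end Pool.Agent.SRF
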