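import Pool.Agent.SRF.LAU
import Pool.Agent.SGL.MainB

/-!
# SRF SIT: the field of a scale, extended to the complex numbers
-/

set_option autoImplicit false

namespace Pool.Agent.SRF

open Pool.Agent.SGL Pool.Agent.SBT Filter

/-- `b` and `b'` are multiplicatively dependent -/
def Dep (b b' : ℕ) : Prop := ∃ i j : ℕ, 1 ≤ i ∧ 1 ≤ j ∧ b' ^ i = b ^ j

theorem pow_mem_OO {σ : Sc} (b : ℕ) (m : ℕ → ℕ) (C : ℝ)
    (h : ∀ᶠ n in (σ.U : Filter ℕ), (m n : ℝ) ≤ C * σ.T n) :
    (fun n => (b : ℝ) ^ m n) ∈ OO σ := by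
  refine ⟨C * b, ?_⟩
  filter_upwards [h] with n hn
  have h1 : (b : ℝ) ≤ Real.exp b := by
    have := Real.add_one_le_exp (b : ℝ)
    linarith
  have hb : (0 : ℝ) ≤ b := Nat.cast_nonneg b
  rw [abs_of_nonneg (pow_nonneg hb _)]
  calc (b : ℝ) ^ m n ≤ (Real.exp b) ^ m n := pow_le_pow_left₀ hb h1 _
    _ = Real.exp (m n * b) := by rw [← Real.exp_nat_mul]
    _ ≤ Real.exp (C * b * σ.T n) := by
        apply Real.exp_le_exp.2
        calc (m n : ℝ) * b ≤ (C * σ.T n) * b := mul_le_mul_of_nonneg_right hn hb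
          _ = C * b * σ.T n := by ring

/-- the field for a base depends only on the multiplicative class of the base -/
theorem kfe {σ : Sc} (b b' i j : ℕ) (hi : 1 ≤ i) (h : b' ^ i = b ^ j) :
    Kf σ {b'} ≤ Kf σ {b} := by
  unfold Kf
  rw [Subfield.closure_le]
  rintro _ ⟨c, hc, m, C, hm, rfl⟩
  rw [Finset.mem_singleton] at hc
  subst hc
  -- the residue of the exponent is constant
  obtain ⟨r, hr⟩ : ∃ r : ℕ, ∀ᶠ n in (σ.U : Filter ℕ), m n % i = r := by
    have h1 : (σ.U : Filter ℕ).Tendsto (fun n => m n % i) (σ.U.map (fun n => m n % i)) :=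
      tendsto_map
    have h2 : (Set.Iio i) ∈ σ.U.map (fun n => m n % i) := by
      rw [Ultrafilter.mem_map]
      filter_upwards with n
      exact Nat.mod_lt _ hi
    obtain ⟨r, _, hr⟩ := (Ultrafilter.finite_biUnion_mem_iff (Set.finite_Iio i)
      (s := fun r => {r})).1 (by
        have : (⋃ r ∈ Set.Iio i, ({r} : Set ℕ)) = Set.Iio i := by
          ext x
          simp
        rw [this]
        exact h2)
    refine ⟨r, ?_⟩
    rw [Ultrafilter.mem_map] at hr
    filter_upwards [hr] with n hn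
    exact hn
  have hM : ∀ᶠ n in (σ.U : Filter ℕ), ((j * (m n / i) : ℕ) : ℝ) ≤ (j * C) * σ.T n := by
    filter_upwards [hm] with n hn
    have h3 : ((m n / i : ℕ) : ℝ) ≤ m n := by exact_mod_cast Nat.div_le_self _ _
    push_cast
    calc (j : ℝ) * ((m n / i : ℕ) : ℝ) ≤ j * (C * σ.T n) :=
          mul_le_mul_of_nonneg_left (h3.trans hn) (Nat.cast_nonneg _)
      _ = j * C * σ.T n := by ring
  have hO := pow_mem_OO b (fun n => j * (m n / i)) (j * C) hM
  have h4 : cl σ (fun n => (c : ℝ) ^ m n) =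
      cl σ (fun n => (b : ℝ) ^ (j * (m n / i))) * cst σ ((c : ℝ) ^ r) := by
    rw [cst_apply, ← cl_mul hO (const_mem _)]
    apply cl_congr
    filter_upwards [hr] with n hn
    have h5 : m n = i * (m n / i) + r := by
      rw [← hn]
      exact (Nat.div_add_mod _ _).symm
    have h6 : (c : ℝ) ^ i = (b : ℝ) ^ j := by exact_mod_cast h
    rw [pow_mul, ← h6, ← pow_mul, ← pow_add, ← h5]
  rw [h4]
  refine mul_mem (Subfield.subset_closure ⟨b, Finset.mem_singleton_self b, _, _, hM, rfl⟩) ?_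
  have h7 : cst σ ((c : ℝ) ^ r) = ((c ^ r : ℕ) : Om σ) := by
    rw [← map_natCast (cst σ)]
    congr 1
    push_cast
    rfl
  rw [h7]
  exact natCast_mem _ _

section

variable {F : Type} [Field F]

theorem alg_ac (K : Subfield F) (x : F) (h : IsAlgebraic (ac K ⊤) x) : IsAlgebraic K x := by
  let f : (ac K ⊤ : Subfield F) →+* algebraicClosure K F :=
    (algebraMap (ac K ⊤ : Subfield F) F).codRestrict (algebraicClosure K F)
      (fun y => mem_algebraicClosure_iff.2 (mem_ac.1 y.2).1)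
  have h1 : IsAlgebraic (algebraicClosure K F) ((RingHom.id F) x) :=
    IsAlgebraic.ringHom_of_comp_eq (f := f) (g := RingHom.id F) h f.injective rfl
  exact (show IsAlgebraic (algebraicClosure K F) x from h1).restrictScalars K

theorem alg_mono {K K' : Subfield F} (h : K ≤ K') (x : F) (hx : IsAlgebraic K x) :
    IsAlgebraic K' x := by
  have h1 : IsAlgebraic K' ((RingHom.id F) x) :=
    IsAlgebraic.ringHom_of_comp_eq (f := Subfield.inclusion h) (g := RingHom.id F) hx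
      (Subfield.inclusion h).injective rfl
  exact h1

end

theorem transcendental_pi : Transcendental ℚ Real.pi := by
  unfold Transcendental
  rw [← IsFractionRing.isAlgebraic_iff ℤ ℚ ℝ]
  rintro ⟨P, hP, h0⟩
  obtain ⟨μ, c, hc, h⟩ := SGL.NUP_ P.natDegree
  have h1 := h P (∑ i ∈ Finset.range (P.natDegree + 1), |(P.coeff i : ℝ)|) hP le_rfl (by
    intro i
    by_cases hi : i ∈ Finset.range (P.natDegree + 1)
    · exact Finset.single_le_sum (f := fun i => |(P.coeff i : ℝ)|) (fun _ _ => abs_nonneg _) hi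
    · have h2 : P.coeff i = 0 := by
        apply Polynomial.coeff_eq_zero_of_natDegree_lt
        rw [Finset.mem_range] at hi
        omega
      rw [h2, Int.cast_zero, abs_zero]
      exact Finset.sum_nonneg (fun _ _ => abs_nonneg _))
  rw [h0, abs_zero, zero_mul] at h1
  linarith

theorem dep_of_zpow {b b' : ℕ} (hb : 2 ≤ b) (hb' : 2 ≤ b') (e f : ℤ)
    (h : (b : ℚ) ^ e = (b' : ℚ) ^ f) (hne : (b : ℚ) ^ e ≠ 1) : Dep b b' := by
  have hb1 : (1 : ℚ) < b := by exact_mod_cast (by omega : 1 < b)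
  have hb1' : (1 : ℚ) < b' := by exact_mod_cast (by omega : 1 < b')
  have key : ∀ e f : ℤ, 0 < e → (b : ℚ) ^ e = (b' : ℚ) ^ f → Dep b b' := by
    intro e f he h
    have hf : 0 < f := by
      by_contra hf
      push Not at hf
      have h1 : (1 : ℚ) < (b : ℚ) ^ e := one_lt_zpow₀ hb1 he
      have h2 : (b' : ℚ) ^ f ≤ 1 := zpow_le_one_of_nonpos₀ hb1'.le hf
      rw [h] at h1
      linarith
    obtain ⟨m, rfl⟩ := Int.eq_ofNat_of_zero_le he.le
    obtain ⟨n, rfl⟩ := Int.eq_ofNat_of_zero_le hf.le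
    refine ⟨n, m, by omega, by omega, ?_⟩
    rw [zpow_natCast, zpow_natCast] at h
    exact_mod_cast h.symm
  rcases lt_trichotomy e 0 with he | he | he
  · refine key (-e) (-f) (by omega) ?_
    rw [zpow_neg, zpow_neg, h]
  · rw [he, zpow_zero] at hne
    exact absurd rfl hne
  · exact key e f he h

theorem sit (N Λ : ℕ → ℕ) (hN : Tendsto N atTop atTop) (hΛ : Tendsto Λ atTop atTop) :
    ∃ (F : Type) (_ : Field F) (_ : CharZero F) (j : ℂ →+* F) (L : Subfield F)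
      (K M : ℕ → Subfield F), ¬ IsAlgebraic L (j Real.pi) ∧ ∀ b : ℕ, 2 ≤ b →
      IsAlgClosed (K b) ∧ IsAlgClosed (M b) ∧ IsAlgClosed L ∧
      K b ≤ L ∧ K b ≤ M b ∧ LDj (K b) L (M b) ∧
      (∀ c : ℂ, IsAlgebraic ℚ c → j c ∈ K b) ∧
      (∀ (b' C : ℕ) (y : ℝ), 2 ≤ b' → Dep b b' →
        (∀ n, cnt b' y (N n) (Λ n * N n) ≤ C * N n) → j y ∈ Rg L (M b)) ∧
      ¬ IsAlgebraic (M b) (j Real.pi) ∧
      ∀ b' : ℕ, 2 ≤ b' → ¬ Dep b b' → IsAlgebraic (L ⊔ M b : Subfield F) (j Real.pi) →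
        ¬ IsAlgebraic (L ⊔ M b' : Subfield F) (j Real.pi) := by
  classical
  have hU : ((hyperfilter ℕ : Ultrafilter ℕ) : Filter ℕ) ≤ atTop := Nat.hyperfilter_le_atTop
  let σ : Sc := ⟨hyperfilter ℕ, fun n => (N n : ℝ),
    (tendsto_natCast_atTop_atTop.comp hN).mono_left hU⟩
  let F := AlgebraicClosure (Om σ)
  let ι : Om σ →+* F := algebraMap (Om σ) F
  have hchar : CharZero F := charZero_of_injective_algebraMap (algebraMap (Om σ) F).injective
  let instA : Algebra ℝ F := (ι.comp (cst σ)).toAlgebra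
  have halg : Algebra.IsAlgebraic ℝ ℂ := Algebra.IsAlgebraic.of_finite ℝ ℂ
  let j : ℂ →ₐ[ℝ] F := IsAlgClosed.lift
  have hj : ∀ y : ℝ, j (y : ℂ) = ι (cst σ y) := fun y => j.commutes y
  have hB : ∀ b : ℕ, 2 ≤ b → ∀ c ∈ ({b} : Finset ℕ), 2 ≤ c := by
    intro b hb c hc
    rw [Finset.mem_singleton] at hc
    omega
  refine ⟨F, inferInstance, hchar, j.toRingHom, ac ((Lf σ).map ι) ⊤,
    fun b => ac ((Kf σ {b}).map ι) ⊤, fun b => ac ((clo (Kf σ {b})).map ι) ⊤, ?_, ?_⟩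
  · intro h
    have h1 := alg_ac _ _ h
    have h2 : IsAlgebraic ((Lf σ).map ι) (ι (cst σ Real.pi)) := by
      rw [← hj]
      exact h1
    exact TRL_ σ Real.pi NUP_ (SGA_.alg_down _ _ ι _ _ h2)
  intro b hb
  have hKL : Kf σ {b} ≤ Lf σ := (KWD_ σ {b} (hB b hb)).1
  have hKL' : (Kf σ {b}).map ι ≤ (Lf σ).map ι := (Subfield.gc_map_comap ι).monotone_l hKL
  have hKM' : (Kf σ {b}).map ι ≤ (clo (Kf σ {b})).map ι :=
    (Subfield.gc_map_comap ι).monotone_l (le_clo _)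
  refine ⟨SGA_.isAlgClosed_ac F _, SGA_.isAlgClosed_ac F _, SGA_.isAlgClosed_ac F _,
    SGA_.ac_mono F _ _ hKL', SGA_.ac_mono F _ _ hKM',
    LDC_ F _ _ _ hKL' hKM' (SGA_.ldj_map _ _ ι _ _ _ (LDK_ σ {b} (hB b hb))), ?_, ?_, ?_, ?_⟩
  · intro c hc
    refine mem_ac.2 ⟨?_, Subfield.mem_top _⟩
    exact IsAlgebraic.ringHom_of_comp_eq (f := algebraMap ℚ ((Kf σ {b}).map ι))
      (g := j.toRingHom) hc (algebraMap ℚ _).injective (Subsingleton.elim _ _)
  · intro b' C y hb' hdep hy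
    obtain ⟨i, k, hi, hk, hik⟩ := hdep
    have h1 := MEM_ σ N Λ b' C y hb' (fun _ => rfl) (hΛ.mono_left hU)
      (Eventually.of_forall hy)
    have h2 : cst σ y ∈ Rg (Lf σ) (clo (Kf σ {b})) :=
      Rg_mono le_rfl (TAA_.clo_mono (kfe b b' i k hi hik)) h1
    show j (y : ℂ) ∈ _
    rw [hj]
    have h3 : Rg (Lf σ) (clo (Kf σ {b})) ≤
        (Rg (ac ((Lf σ).map ι) ⊤) (ac ((clo (Kf σ {b})).map ι) ⊤)).comap ι := by
      conv_lhs => unfold Rg
      rw [Subring.closure_le]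
      rintro s (hs | hs)
      · exact mem_Rg_left (SGA_.le_ac F _ ⟨s, hs, rfl⟩)
      · exact mem_Rg_right (SGA_.le_ac F _ ⟨s, hs, rfl⟩)
    exact h3 h2
  · intro h
    have h1 := alg_ac _ _ h
    have h2 : IsAlgebraic ((clo (Kf σ {b})).map ι) (ι (cst σ Real.pi)) := by
      rw [← hj]
      exact h1
    exact TRK_ σ b hb Real.pi
      transcendental_pi (SGA_.alg_down _ _ ι _ _ h2)
  · intro b' hb' hdep h1 h2
    have hdown : ∀ c : ℕ, IsAlgebraic (ac ((Lf σ).map ι) ⊤ ⊔ ac ((clo (Kf σ {c})).map ι) ⊤ :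
        Subfield F) (j.toRingHom Real.pi) →
        IsAlgebraic (Lf σ ⊔ clo (Kf σ {c}) : Subfield (Om σ)) (cst σ Real.pi) := by
      intro c hc
      have h3 : ac ((Lf σ).map ι) ⊤ ⊔ ac ((clo (Kf σ {c})).map ι) ⊤ ≤
          ac ((Lf σ ⊔ clo (Kf σ {c})).map ι) ⊤ := by
        rw [sup_le_iff]
        exact ⟨SGA_.ac_mono F _ _ ((Subfield.gc_map_comap ι).monotone_l le_sup_left),
          SGA_.ac_mono F _ _ ((Subfield.gc_map_comap ι).monotone_l le_sup_right)⟩
      have h4 := alg_ac _ _ (alg_mono h3 _ hc)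
      have h5 : IsAlgebraic ((Lf σ ⊔ clo (Kf σ {c})).map ι) (ι (cst σ Real.pi)) := by
        rw [← hj]
        exact h4
      exact SGA_.alg_down _ _ ι _ _ h5
    have hTI : TI {b} {b'} := by
      intro e f hef
      simp only [Finset.prod_singleton] at hef ⊢
      by_contra hne
      exact hdep (dep_of_zpow hb hb' (e b) (f b') hef hne)
    exact TRL_ σ Real.pi NUP_ (FRE_ (Om σ) (Lf σ) (Lf σ ⊔ clo (Kf σ {b}))
      (Lf σ ⊔ clo (Kf σ {b'})) le_sup_left le_sup_left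
      (LDE_ σ {b} {b'} (hB b hb) (hB b' hb') hTI) (cst σ Real.pi) (hdown b h1) (hdown b' h2))

end Pool.Agent.SRF
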