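import Pool.Agent.SRF.GENF
import Pool.Agent.SRF.SIT

/-!
# SRF FIN: the theorem for the digits of `π`
-/

set_option autoImplicit false

namespace Pool.Agent.SRF

open Pool.Agent.SGL IntermediateField Polynomial Filter

/-- algebraic elements over a subfield of the image -/
theorem alg_range {A K₀ C : Type} [Field A] [Field K₀] [Field C] [Algebra A C] [Algebra K₀ C]
    (h : ∀ a : A, ∃ c : K₀, algebraMap K₀ C c = algebraMap A C a) {s : C}
    (hs : IsAlgebraic A s) : IsAlgebraic K₀ s := by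
  choose g hg using h
  have hinj : Function.Injective (algebraMap K₀ C) := (algebraMap K₀ C).injective
  let f : A →+* K₀ :=
    { toFun := g
      map_one' := hinj (by rw [hg, map_one, map_one])
      map_mul' := fun a b => hinj (by rw [hg, map_mul, map_mul, hg, hg])
      map_zero' := hinj (by rw [hg, map_zero, map_zero])
      map_add' := fun a b => hinj (by rw [hg, map_add, map_add, hg, hg]) }
  have h1 : IsAlgebraic K₀ ((RingHom.id C) s) :=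
    IsAlgebraic.ringHom_of_comp_eq (f := f) (g := RingHom.id C) hs f.injective
      (RingHom.ext fun a => (hg a))
  exact h1

/-- the field of algebraic numbers -/
abbrev QQ : Type := algebraicClosure ℚ ℂ

theorem isAlgClosed_QQ : IsAlgClosed QQ := (algebraicClosure.isAlgClosure ℚ ℂ).isAlgClosed

/-- elements which are algebraic over the algebraic numbers -/
theorem alg_of_algQQ {z : ℂ} (h : IsAlgebraic QQ z) : IsAlgebraic ℚ z := by
  have : Algebra.IsAlgebraic ℚ QQ := algebraicClosure.isAlgebraic ℚ ℂ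
  exact h.restrictScalars ℚ

/-- `π` is algebraic over every transcendental element -/
theorem pi_alg {z : ℂ} (hz : IsAlgebraic ℚ⟮(Real.pi : ℂ)⟯ z) (ht : Transcendental ℚ z) :
    IsAlgebraic ℚ⟮z⟯ (Real.pi : ℂ) :=
  EXC_ ℂ (Real.pi : ℂ) z hz ht

/-- the elements of `ℚ(z)` are mapped to a subfield -/
theorem map_adjoin {F : Type} [Field F] (j : ℂ →+* F) (L : Subfield F) {z : ℂ} (hz : j z ∈ L)
    (a : ℂ) (ha : a ∈ ℚ⟮z⟯) : j a ∈ L := by
  let T : IntermediateField ℚ ℂ := Subfield.toIntermediateField (L.comap j) (fun c => by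
    have : algebraMap ℚ ℂ c = ((c : ℚ) : ℂ) := by simp
    rw [this]
    exact SubfieldClass.ratCast_mem _ c)
  have h1 : ℚ⟮z⟯ ≤ T := by
    rw [adjoin_simple_le_iff]
    exact hz
  exact h1 ha

/-- transcendence of `π` and of `z` over a subfield -/
theorem pi_down {F : Type} [Field F] (j : ℂ →+* F) (L : Subfield F) {z : ℂ}
    (hz : IsAlgebraic ℚ⟮(Real.pi : ℂ)⟯ z) (ht : Transcendental ℚ z) (h : IsAlgebraic L (j z)) :
    IsAlgebraic L (j Real.pi) := by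
  have h1 := pi_alg hz ht
  have hz' : j z ∈ ac L ⊤ := mem_ac.2 ⟨h, Subfield.mem_top _⟩
  let f : ℚ⟮z⟯ →+* (ac L ⊤ : Subfield F) :=
    (j.comp (algebraMap ℚ⟮z⟯ ℂ)).codRestrict (ac L ⊤) (fun a => map_adjoin j _ hz' a a.2)
  have h2 : IsAlgebraic (ac L ⊤ : Subfield F) (j Real.pi) :=
    IsAlgebraic.ringHom_of_comp_eq (f := f) (g := j) h1 f.injective rfl
  exact alg_ac L _ h2

/-- the field of a finitely generated extension is a function field of one variable -/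
theorem cur (E : IntermediateField QQ ℂ) (hfg : E.FG)
    (halg : ∀ x ∈ E, IsAlgebraic ℚ⟮(Real.pi : ℂ)⟯ x) (E₁ : IntermediateField QQ ℂ) (hE : E₁ ≤ E) :
    Cur QQ E₁ := by
  intro x hx
  obtain ⟨S, hS⟩ := hfg
  have hxt : Transcendental ℚ (x : ℂ) := by
    intro h
    apply hx
    have h1 : (x : ℂ) ∈ algebraicClosure ℚ ℂ := mem_algebraicClosure_iff.2 h
    have h2 : x = algebraMap QQ E₁ ⟨x, h1⟩ := rfl
    rw [h2]
    exact isAlgebraic_algebraMap _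
  have hxE : (x : ℂ) ∈ E := hE x.2
  have hpi := pi_alg (halg _ hxE) hxt
  -- the elements of `S` are algebraic over `QQ(x)`
  have hmem : ∀ a : ℚ⟮(x : ℂ)⟯, ∃ c : QQ⟮x⟯, algebraMap QQ⟮x⟯ ℂ c = algebraMap ℚ⟮(x : ℂ)⟯ ℂ a := by
    rintro ⟨a, ha⟩
    let T : Subfield ℂ := (algebraMap QQ⟮x⟯ ℂ).fieldRange
    have h1 := map_adjoin (RingHom.id ℂ) T (z := (x : ℂ))
      ⟨⟨x, mem_adjoin_simple_self QQ x⟩, rfl⟩ a ha
    exact h1
  have hpi' : IsAlgebraic QQ⟮x⟯ (Real.pi : ℂ) := alg_range hmem hpi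
  have hSalg : ∀ s ∈ S, IsAlgebraic QQ⟮x⟯ s := by
    intro s hs
    have hsE : s ∈ E := by
      rw [← hS]
      exact subset_adjoin QQ _ hs
    have h1 := halg s hsE
    -- `s` is algebraic over `ℚ(π)` and `π` over `QQ(x)`
    have h2 : ∀ a : ℚ⟮(Real.pi : ℂ)⟯, ∃ c : algebraicClosure QQ⟮x⟯ ℂ,
        algebraMap (algebraicClosure QQ⟮x⟯ ℂ) ℂ c = algebraMap ℚ⟮(Real.pi : ℂ)⟯ ℂ a := by
      rintro ⟨a, ha⟩
      have h3 := map_adjoin (RingHom.id ℂ) (algebraicClosure QQ⟮x⟯ ℂ).toSubfield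
        (z := (Real.pi : ℂ)) (mem_algebraicClosure_iff.2 hpi') a ha
      exact ⟨⟨a, h3⟩, rfl⟩
    have h4 := alg_range h2 h1
    exact h4.restrictScalars QQ⟮x⟯
  have hfin : FiniteDimensional QQ⟮x⟯ (adjoin QQ⟮x⟯ (S : Set ℂ)) :=
    finiteDimensional_adjoin (fun s hs => (hSalg s hs).isIntegral)
  have hincl : ∀ y : E₁, (y : ℂ) ∈ adjoin QQ⟮x⟯ (S : Set ℂ) := by
    intro y
    let T : IntermediateField QQ ℂ := Subfield.toIntermediateField
      (adjoin QQ⟮x⟯ (S : Set ℂ)).toSubfield (fun c =>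
        (adjoin QQ⟮x⟯ (S : Set ℂ)).algebraMap_mem (algebraMap QQ QQ⟮x⟯ c))
    have h1 : adjoin QQ (S : Set ℂ) ≤ T := by
      rw [adjoin_le_iff]
      exact subset_adjoin QQ⟮x⟯ _
    have h2 : (y : ℂ) ∈ adjoin QQ (S : Set ℂ) := by
      rw [hS]
      exact hE y.2
    exact h1 h2
  let g : E₁ →ₗ[QQ⟮x⟯] adjoin QQ⟮x⟯ (S : Set ℂ) :=
    { toFun := fun y => ⟨y, hincl y⟩
      map_add' := fun _ _ => rfl
      map_smul' := fun _ _ => rfl }
  exact FiniteDimensional.of_injective g (fun a b hab => Subtype.ext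
    (congrArg (fun w : adjoin QQ⟮x⟯ (S : Set ℂ) => (w : ℂ)) hab))

/-- the case of one base -/
theorem one_base {F : Type} [Field F] [CharZero F] (j : ℂ →+* F) (K L M : Subfield F)
    (hK : IsAlgClosed K) (hKL : K ≤ L) (hKM : K ≤ M)
    (hd : LDj K L M) (hk : ∀ c : ℂ, IsAlgebraic ℚ c → j c ∈ K)
    (hpL : ¬ IsAlgebraic L (j Real.pi)) (hpM : ¬ IsAlgebraic M (j Real.pi))
    (E : IntermediateField QQ ℂ) (hfg : E.FG)
    (halg : ∀ x ∈ E, IsAlgebraic ℚ⟮(Real.pi : ℂ)⟯ x) {v : ℂ} (hvE : v ∈ E)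
    (hvt : Transcendental ℚ v) (hv : j v ∈ Rg L M) :
    ∃ s ∈ E, ∀ x ∈ E, j x ∈ Rg L M → x ∈ Algebra.adjoin QQ {s, s⁻¹} := by
  classical
  have hQQ := isAlgClosed_QQ
  have hkQ : ∀ c : QQ, j (algebraMap QQ ℂ c) ∈ K := fun c => hk _ (mem_algebraicClosure_iff.1 c.2)
  have hsup : ∀ x ∈ Rg L M, x ∈ L ⊔ M := fun x hx => TAA_.Rg_le le_sup_left le_sup_right hx
  let E₁ : IntermediateField QQ ℂ := E ⊓ Subfield.toIntermediateField ((L ⊔ M).comap j)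
    (fun c => (le_sup_left : L ≤ L ⊔ M) (hKL (hkQ c)))
  have hE₁ : ∀ x, x ∈ E₁ ↔ x ∈ E ∧ j x ∈ L ⊔ M := fun x => Iff.rfl
  have hcur : Cur QQ E₁ := cur E hfg halg E₁ inf_le_left
  have hv₁ : v ∈ E₁ := (hE₁ v).2 ⟨hvE, hsup _ hv⟩
  have hvt₁ : Transcendental QQ (⟨v, hv₁⟩ : E₁) := by
    intro h
    apply hvt
    apply alg_of_algQQ
    have := h.algebraMap (A := ℂ)
    exact this
  let φ : E₁ →+* F := j.comp (algebraMap E₁ ℂ)
  -- nonconstant elements of `E` are transcendental over `L` and `M`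
  have hnt : ∀ (N : Subfield F), ¬ IsAlgebraic N (j Real.pi) → ∀ z ∈ E, Transcendental ℚ z →
      ¬ IsAlgebraic N (j z) := fun N hN z hz hzt h => hN (pi_down j N (halg z hz) hzt h)
  obtain ⟨s₀, hs₀⟩ : ∃ s : E₁, QQ⟮s⟯ = ⊤ := by
    by_contra hcon
    push Not at hcon
    have h1 := genF F K L M hK hKL hKM hd QQ E₁ φ (fun c => hkQ c)
      (fun x => ((hE₁ x).1 x.2).2) hcur hcon hvt₁ hv
    rcases h1 with h1 | h1
    · exact hnt L hpL v hvE hvt (isAlgebraic_algebraMap (⟨_, h1⟩ : L))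
    · exact hnt M hpM v hvE hvt (isAlgebraic_algebraMap (⟨_, h1⟩ : M))
  have hs₀t : Transcendental QQ s₀ := by
    intro h
    apply hvt₁
    have h1 : (⟨v, hv₁⟩ : E₁) ∈ QQ⟮s₀⟯ := by
      rw [hs₀]
      trivial
    have h2 : Algebra.IsAlgebraic QQ QQ⟮s₀⟯ := isAlgebraic_adjoin_simple h.isIntegral
    have h3 := h2.isAlgebraic (⟨_, h1⟩ : QQ⟮s₀⟯)
    exact h3.algebraMap (A := E₁)
  have hs₀t' : Transcendental ℚ (s₀ : ℂ) := by
    intro h
    apply hs₀t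
    have h1 : (s₀ : ℂ) ∈ algebraicClosure ℚ ℂ := mem_algebraicClosure_iff.2 h
    have h2 : s₀ = algebraMap QQ E₁ ⟨s₀, h1⟩ := rfl
    rw [h2]
    exact isAlgebraic_algebraMap _
  let : Algebra QQ F := (j.comp (algebraMap QQ ℂ)).toAlgebra
  let ε : RatFunc QQ →ₐ[QQ] E₁ :=
    (QQ⟮s₀⟯.val).comp (RatFunc.algEquivOfTranscendental s₀ hs₀t).toAlgHom
  have hεX : ε RatFunc.X = s₀ := RatFunc.algEquivOfTranscendental_X s₀ hs₀t
  let jj : E₁ →ₐ[QQ] F := { φ with commutes' := fun _ => rfl }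
  let Φ : RatFunc QQ →ₐ[QQ] F := jj.comp ε
  have hΦX : Φ RatFunc.X = j (s₀ : ℂ) := by
    show j ((ε RatFunc.X : E₁) : ℂ) = _
    rw [hεX]
  obtain ⟨s, hs⟩ := lau K L M hK hKL hKM hd (fun c => hkQ c) Φ
    (by rw [hΦX]; exact hnt L hpL _ ((hE₁ _).1 s₀.2).1 hs₀t')
    (by rw [hΦX]; exact hnt M hpM _ ((hE₁ _).1 s₀.2).1 hs₀t')
  refine ⟨(ε s : ℂ), ((hE₁ _).1 (ε s).2).1, ?_⟩
  intro x hxE hx
  have hx₁ : x ∈ E₁ := (hE₁ x).2 ⟨hxE, hsup _ hx⟩
  obtain ⟨r, hr⟩ : ∃ r : RatFunc QQ, ε r = ⟨x, hx₁⟩ := by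
    have h1 : (⟨x, hx₁⟩ : E₁) ∈ QQ⟮s₀⟯ := by
      rw [hs₀]
      trivial
    obtain ⟨r, hr⟩ := (RatFunc.algEquivOfTranscendental s₀ hs₀t).surjective ⟨_, h1⟩
    refine ⟨r, ?_⟩
    show ((RatFunc.algEquivOfTranscendental s₀ hs₀t r : QQ⟮s₀⟯) : E₁) = _
    rw [hr]
  have h1 := hs r (by
    show j ((ε r : E₁) : ℂ) ∈ _
    rw [hr]
    exact hx)
  let ε' : RatFunc QQ →ₐ[QQ] ℂ := (E₁.val).comp ε
  have h2 : ε' r ∈ (Algebra.adjoin QQ {s, s⁻¹}).map ε' := ⟨r, h1, rfl⟩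
  rw [AlgHom.map_adjoin, Set.image_pair, map_inv₀] at h2
  have h3 : ε' r = x := by
    show ((ε r : E₁) : ℂ) = x
    rw [hr]
  rw [h3] at h2
  exact h2

/-- the elements which are simple in a base which is dependent on `b`, and the algebraic numbers -/
noncomputable def Rb (N Λ : ℕ → ℕ) (b : ℕ) : Subalgebra QQ ℂ :=
  Algebra.adjoin QQ {z : ℂ | ∃ (b' C : ℕ) (y : ℝ), 2 ≤ b' ∧ Dep b b' ∧
    (∀ n, SBT.cnt b' y (N n) (Λ n * N n) ≤ C * N n) ∧ z = y}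

theorem Dep.symm {b b' : ℕ} (h : Dep b b') : Dep b' b := by
  obtain ⟨i, j, hi, hj, h⟩ := h
  exact ⟨j, i, hj, hi, h.symm⟩

theorem Dep.trans {b b' b'' : ℕ} (h : Dep b b') (h' : Dep b' b'') : Dep b b'' := by
  obtain ⟨i, j, hi, hj, h⟩ := h
  obtain ⟨i', j', hi', hj', h'⟩ := h'
  refine ⟨i' * i, j * j', Nat.mul_pos hi' hi, Nat.mul_pos hj hj', ?_⟩
  rw [pow_mul, h', ← pow_mul, mul_comm j' i, pow_mul, h, ← pow_mul]

/-- **Siegel's theorem for the digits of `π`** -/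
theorem siegel (N Λ : ℕ → ℕ) (hN : Tendsto N atTop atTop) (hΛ : Tendsto Λ atTop atTop)
    (E : IntermediateField QQ ℂ) (hfg : E.FG)
    (halg : ∀ x ∈ E, IsAlgebraic ℚ⟮(Real.pi : ℂ)⟯ x) :
    ∃ s ∈ E, ∃ b₀ : ℕ, (∀ b, 2 ≤ b → ∀ x ∈ E, x ∈ Rb N Λ b → x ∈ Algebra.adjoin QQ {s, s⁻¹}) ∧
      ∀ b, 2 ≤ b → ¬ Dep b₀ b → ∀ x ∈ E, x ∈ Rb N Λ b → IsAlgebraic ℚ x := by
  classical
  obtain ⟨F, _, _, j, L, K, M, hpL, h⟩ := sit N Λ hN hΛ
  have hRb : ∀ b, 2 ≤ b → ∀ x ∈ Rb N Λ b, j x ∈ Rg L (M b) := by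
    intro b hb x hx
    obtain ⟨hKc, hMc, hLc, hKL, hKM, hd, hk, hsim, hpM, hdep⟩ := h b hb
    let T : Subalgebra QQ ℂ := { (Rg L (M b)).comap j with
      algebraMap_mem' := fun c => mem_Rg_left (hKL (hk _ (mem_algebraicClosure_iff.1 c.2))) }
    have h1 : Rb N Λ b ≤ T := by
      unfold Rb
      rw [Algebra.adjoin_le_iff]
      rintro z ⟨b', C, y, hb', hbb, hy, rfl⟩
      exact hsim b' C y hb' hbb hy
    exact h1 hx
  by_cases hex : ∃ b, 2 ≤ b ∧ ∃ v ∈ E, v ∈ Rb N Λ b ∧ Transcendental ℚ v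
  · obtain ⟨b₀, hb₀, v, hvE, hvR, hvt⟩ := hex
    obtain ⟨hKc, hMc, hLc, hKL, hKM, hd, hk, hsim, hpM, hdep⟩ := h b₀ hb₀
    obtain ⟨s, hsE, hs⟩ := one_base j (K b₀) L (M b₀) hKc hKL hKM hd hk hpL hpM E hfg halg
      hvE hvt (hRb b₀ hb₀ v hvR)
    have hind : ∀ b, 2 ≤ b → ¬ Dep b₀ b → ∀ x ∈ E, x ∈ Rb N Λ b → IsAlgebraic ℚ x := by
      intro b hb hbd x hxE hxR
      by_contra hxt
      have hx1 : j x ∈ L ⊔ M b := TAA_.Rg_le le_sup_left le_sup_right (hRb b hb x hxR)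
      have hv1 : j v ∈ L ⊔ M b₀ := TAA_.Rg_le le_sup_left le_sup_right (hRb b₀ hb₀ v hvR)
      have h1 := pi_down j (L ⊔ M b) (halg x hxE) hxt (isAlgebraic_algebraMap
        (⟨_, hx1⟩ : (L ⊔ M b : Subfield F)))
      have h2 := pi_down j (L ⊔ M b₀) (halg v hvE) hvt (isAlgebraic_algebraMap
        (⟨_, hv1⟩ : (L ⊔ M b₀ : Subfield F)))
      exact hdep b hb hbd h2 h1
    refine ⟨s, hsE, b₀, ?_, hind⟩
    intro b hb x hxE hxR
    by_cases hbd : Dep b₀ b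
    · -- the two rings are equal
      have h1 : Rb N Λ b ≤ Rb N Λ b₀ := by
        unfold Rb
        apply Algebra.adjoin_mono
        rintro z ⟨b', C, y, hb', hbb, hy, rfl⟩
        exact ⟨b', C, y, hb', hbd.trans hbb, hy, rfl⟩
      exact hs x hxE (hRb b₀ hb₀ x (h1 hxR))
    · have h1 : x ∈ algebraicClosure ℚ ℂ := mem_algebraicClosure_iff.2 (hind b hb hbd x hxE hxR)
      exact (Algebra.adjoin QQ {s, s⁻¹}).algebraMap_mem ⟨x, h1⟩
  · push Not at hex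
    refine ⟨1, E.one_mem, 0, ?_, ?_⟩
    · intro b hb x hxE hxR
      have h1 : x ∈ algebraicClosure ℚ ℂ :=
        mem_algebraicClosure_iff.2 (by
          have := hex b hb x hxE hxR
          unfold Transcendental at this
          exact not_not.1 this)
      exact (Algebra.adjoin QQ {1, 1⁻¹}).algebraMap_mem ⟨x, h1⟩
    · intro b hb _ x hxE hxR
      have := hex b hb x hxE hxR
      unfold Transcendental at this
      exact not_not.1 this

end Pool.Agent.SRF
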