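import Pool.Agent.SRF.FAD
import Pool.Agent.SRF.FINS

/-!
# SRF FAE: two regular differentials, subfields of a field
-/

set_option autoImplicit false

namespace Pool.Agent.SRF

open Pool.Agent.SGL IntermediateField Polynomial TensorProduct

/-- two regular differentials, the case of transcendence degree 1 -/
theorem fal1F (F : Type) [Field F] [CharZero F] (K L M : Subfield F) (hK : IsAlgClosed K)
    (hM : IsAlgClosed M) (hKL : K ≤ L) (hKM : K ≤ M) (hd : LDj K L M) (w : F) (hwL : w ∈ L)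
    (hw : ∀ l ∈ L, IsAlgebraic (kS K {w}) l) (k E : Type) [Field k] [IsAlgClosed k]
    [CharZero k] [Field E] [Algebra k E] (φ : E →+* F) (hk : ∀ c : k, φ (algebraMap k E c) ∈ K)
    (hφ : ∀ x, φ x ∈ L ⊔ M) (hE : Cur k E) {ω₁ ω₂ : Ω[E⁄k]} (h₁ : Reg k ω₁) (h₂ : Reg k ω₂)
    (hind : ∀ a b : k, a • ω₁ + b • ω₂ = 0 → a = 0 ∧ b = 0) :
    (∀ y, φ y ∈ L) ∨ ∀ y, φ y ∈ M := by
  let : Algebra K L := (Subfield.inclusion hKL).toAlgebra
  let : Algebra K M := (Subfield.inclusion hKM).toAlgebra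
  let fL : L →ₐ[K] F := { L.subtype with commutes' := fun _ => rfl }
  let fM : M →ₐ[K] F := { M.subtype with commutes' := fun _ => rfl }
  let θ : (L ⊗[K] M) →ₐ[K] F := Algebra.TensorProduct.productMap fL fM
  have hθ : ∀ (l : L) (m : M), θ (l ⊗ₜ[K] m) = (l : F) * m := by
    intro l m
    exact Algebra.TensorProduct.productMap_apply_tmul fL fM l m
  have hinj : Function.Injective θ := SGA_.inj F K L M (fun _ => rfl) hd θ hθ
  have hrange : ∀ t ∈ Rg L M, ∃ t' : L ⊗[K] M, θ t' = t := by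
    intro t ht
    have h1 : Rg L M ≤ θ.toRingHom.range := by
      unfold Rg
      rw [Subring.closure_le]
      rintro s (hs | hs)
      · refine ⟨(⟨s, hs⟩ : L) ⊗ₜ[K] (1 : M), ?_⟩
        show θ _ = _
        rw [hθ]
        show s * ((1 : M) : F) = s
        rw [OneMemClass.coe_one, mul_one]
      · refine ⟨(1 : L) ⊗ₜ[K] (⟨s, hs⟩ : M), ?_⟩
        show θ _ = _
        rw [hθ]
        show ((1 : L) : F) * s = s
        rw [OneMemClass.coe_one, one_mul]
    obtain ⟨t', ht'⟩ := h1 ht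
    exact ⟨t', ht'⟩
  have hmem : ∀ t : L ⊗[K] M, θ t ∈ Rg L M := by
    intro t
    induction t with
    | zero =>
      rw [map_zero]
      exact Subring.zero_mem _
    | tmul l m =>
      rw [hθ]
      exact (Rg L M).mul_mem (mem_Rg_left l.2) (mem_Rg_right m.2)
    | add a b ha hb =>
      rw [map_add]
      exact (Rg L M).add_mem ha hb
  have hsup : ∀ x ∈ Rg L M, x ∈ L ⊔ M := fun x hx => TAA_.Rg_le le_sup_left le_sup_right hx
  -- the tensor product is integrally closed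
  have hIC : IsIntegrallyClosed (Rg L M) := (ic_iff _).1 (nrm LDS_ TWR_ K L M hKL hKM hd)
  have hICT : IsIntegrallyClosed (L ⊗[K] M) := by
    let e : (L ⊗[K] M) ≃+* Rg L M := RingEquiv.ofBijective
      (θ.toRingHom.codRestrict (Rg L M) hmem) (by
        constructor
        · intro a b hab
          exact hinj (congrArg Subtype.val hab)
        · rintro ⟨t, ht⟩
          obtain ⟨t', ht'⟩ := hrange t ht
          exact ⟨t', Subtype.ext ht'⟩)
    exact IsIntegrallyClosed.of_equiv e.symm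
  let g : (L ⊗[K] M) →+* (L ⊔ M : Subfield F) :=
    θ.toRingHom.codRestrict (L ⊔ M : Subfield F) (fun t => hsup _ (hmem t))
  let : Algebra (L ⊗[K] M) (L ⊔ M : Subfield F) := g.toAlgebra
  have hgv : ∀ t : L ⊗[K] M,
      ((algebraMap (L ⊗[K] M) (L ⊔ M : Subfield F) t : (L ⊔ M : Subfield F)) : F) = θ t :=
    fun t => rfl
  have hfaith : FaithfulSMul (L ⊗[K] M) (L ⊔ M : Subfield F) := by
    rw [faithfulSMul_iff_algebraMap_injective]
    intro a b hab
    exact hinj (congrArg Subtype.val hab)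
  have hfrac : IsFractionRing (L ⊗[K] M) (L ⊔ M : Subfield F) := by
    apply IsFractionRing.of_field
    rintro ⟨z, hz⟩
    obtain ⟨q, hq, hq0, hzq⟩ := mem_sup_quot K L M hKL hKM z hz
    obtain ⟨q', hq'⟩ := hrange q hq
    obtain ⟨p', hp'⟩ := hrange _ hzq
    refine ⟨p', q', Subtype.ext ?_⟩
    show z = θ p' / θ q'
    rw [hp', hq', mul_div_cancel_right₀ _ hq0]
  have hchK : CharZero K := charZero_of_injective_algebraMap (algebraMap ℚ K).injective
  have hchM : CharZero M := charZero_of_injective_algebraMap (algebraMap ℚ M).injective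
  let ψ : E →+* (L ⊔ M : Subfield F) := φ.codRestrict (L ⊔ M : Subfield F) hφ
  let κ : k →+* K := (φ.comp (algebraMap k E)).codRestrict K hk
  have hψ : ∀ c : k, ψ (algebraMap k E c) =
      algebraMap (L ⊗[K] M) (L ⊔ M : Subfield F) (algebraMap K (L ⊗[K] M) (κ c)) := by
    intro c
    apply Subtype.ext
    show φ (algebraMap k E c) = θ (algebraMap K (L ⊗[K] M) (κ c))
    rw [θ.commutes]
    rfl
  have hw' : ∀ l : L, IsAlgebraic K⟮(⟨w, hwL⟩ : L)⟯ l := by
    intro l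
    rw [← isAlgebraic_algebraMap_iff (A := F) (algebraMap L F).injective]
    refine alg_range ?_ (hw l l.2)
    intro a
    have h1 : kS K {w} ≤ (algebraMap K⟮(⟨w, hwL⟩ : L)⟯ F).fieldRange := by
      unfold kS
      rw [Subfield.closure_le]
      rintro x (hx | hx)
      · exact ⟨algebraMap K _ ⟨x, hx⟩, rfl⟩
      · rw [Finset.coe_singleton, Set.mem_singleton_iff] at hx
        subst hx
        exact ⟨⟨⟨x, hwL⟩, mem_adjoin_simple_self K _⟩, rfl⟩
    exact h1 a.2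
  rcases fal1 (⟨w, hwL⟩ : L) hw' κ ψ hψ hE h₁ h₂ hind with h | h
  · left
    intro y
    obtain ⟨l, hl⟩ := h y
    have h1 : φ y = θ (l ⊗ₜ[K] (1 : M)) := congrArg Subtype.val hl
    rw [h1, hθ, OneMemClass.coe_one, mul_one]
    exact l.2
  · right
    intro y
    obtain ⟨m, hm⟩ := h y
    have h1 : φ y = θ ((1 : L) ⊗ₜ[K] m) := congrArg Subtype.val hm
    rw [h1, hθ, OneMemClass.coe_one, one_mul]
    exact m.2

/-- intersections of composita -/
theorem inter {F : Type} [Field F] (K₁ L M M₁ : Subfield F) (h1 : K₁ ≤ L) (h2 : K₁ ≤ M₁)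
    (h3 : M ≤ M₁) (hd : LDj K₁ L M₁) (z : F) (hz : z ∈ M₁) (hz2 : z ∈ L ⊔ M) : z ∈ K₁ ⊔ M := by
  classical
  obtain ⟨q, hq, hq0, hzq⟩ := mem_sup_quot K₁ L (K₁ ⊔ M) h1 le_sup_left z
    ((sup_le_sup_left (le_sup_right : M ≤ K₁ ⊔ M) L : L ⊔ M ≤ L ⊔ (K₁ ⊔ M)) hz2)
  have hswap : Rg L (K₁ ⊔ M) = Rg (K₁ ⊔ M) L := by
    unfold Rg
    rw [Set.union_comm]
  rw [hswap] at hq hzq
  obtain ⟨d, b, α, hb, hbI, hα, hx⟩ := (RGE_ F K₁ (K₁ ⊔ M) L le_sup_left h1).2.1 2
    ![q, z * q] (by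
      intro i
      fin_cases i
      · exact hq
      · exact hzq)
  have hx0 : q = ∑ j, α 0 j * b j := hx 0
  have hx1 : z * q = ∑ j, α 1 j * b j := hx 1
  have hBM : K₁ ⊔ M ≤ M₁ := sup_le h2 h3
  have h4 := hd d b (fun j => z * α 0 j - α 1 j) hb
    (fun j => M₁.sub_mem (M₁.mul_mem hz (hBM (hα 0 j))) (hBM (hα 1 j))) hbI (by
      have h5 : ∑ j, b j * (z * α 0 j - α 1 j) =
          z * (∑ j, α 0 j * b j) - ∑ j, α 1 j * b j := by
        rw [Finset.mul_sum, ← Finset.sum_sub_distrib]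
        refine Finset.sum_congr rfl (fun j _ => ?_)
        ring
      rw [h5, ← hx0, ← hx1, sub_self])
  obtain ⟨j, hj⟩ : ∃ j, α 0 j ≠ 0 := by
    by_contra hcon
    push Not at hcon
    apply hq0
    rw [hx0]
    exact Finset.sum_eq_zero (fun j _ => by rw [hcon j, zero_mul])
  have h6 : z * α 0 j - α 1 j = 0 := congrFun h4 j
  rw [eq_div_of_mul_eq hj (sub_eq_zero.1 h6)]
  exact (K₁ ⊔ M).div_mem (hα 1 j) (hα 0 j)

/-- the tower -/
theorem fal_tower (F : Type) [Field F] [IsAlgClosed F] [CharZero F] (K L M : Subfield F)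
    (hK : ∀ x, IsAlgebraic K x → x ∈ K)
    (hL : ∀ x, IsAlgebraic L x → x ∈ L)
    (hKL : K ≤ L) (hKM : K ≤ M) (hd : LDj K L M) (k E : Type) [Field k] [IsAlgClosed k]
    [CharZero k] [Field E] [Algebra k E] (φ : E →+* F) (hk : ∀ c : k, φ (algebraMap k E c) ∈ K)
    (hE : Cur k E) {ω₁ ω₂ : Ω[E⁄k]} (h₁ : Reg k ω₁) (h₂ : Reg k ω₂)
    (hind : ∀ a b : k, a • ω₁ + b • ω₂ = 0 → a = 0 ∧ b = 0) (S : Finset F) :
    (∀ x ∈ S, x ∈ L) → (∀ x, φ x ∈ ac (kS K S) ⊤ ⊔ M) → (∀ y, φ y ∈ L) ∨ ∀ y, φ y ∈ M := by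
  classical
  induction S using Finset.induction_on with
  | empty =>
    intro _ h
    right
    intro y
    have h1 : ac (kS K ∅) ⊤ ⊔ M ≤ M := by
      refine sup_le ?_ le_rfl
      intro x hx
      have h2 : kS K (∅ : Finset F) ≤ K := kS_le le_rfl (by simp)
      exact hKM (hK x (alg_mono h2 x (mem_ac.1 hx).1))
    exact h1 (h y)
  | insert w S hwS ih =>
    intro hSL h
    set K₁ := ac (kS K S) ⊤ with hK₁
    set L' := ac (kS K (insert w S)) ⊤ with hL'
    set M₁ := ac (K₁ ⊔ M) ⊤ with hM₁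
    have hKK₁ : K ≤ K₁ := (K_le_kS K S).trans (SGA_.le_ac F _)
    have hK₁L' : K₁ ≤ L' := SGA_.ac_mono F _ _ (kS_mono K (Finset.subset_insert w S))
    have hL'L : L' ≤ L := by
      intro x hx
      exact hL x (alg_mono (kS_le hKL hSL) x (mem_ac.1 hx).1)
    have hidem : ∀ X : Subfield F, ac (ac X ⊤) ⊤ = ac X ⊤ := by
      intro X
      apply le_antisymm
      · intro x hx
        exact mem_ac.2 ⟨alg_ac X x (mem_ac.1 hx).1, Subfield.mem_top _⟩
      · exact SGA_.le_ac F _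
    have hd' : LDj K L' M := fun d a b ha hb hI hs => hd d a b (fun i => hL'L (ha i)) hb hI hs
    have hd₁ : LDj K₁ L' (K₁ ⊔ M) := TWR_ F K K₁ L' M hKK₁ hK₁L' hKM hd'
    have hd₂ : LDj K₁ L' M₁ := by
      have h1 := LDC_ F K₁ L' (K₁ ⊔ M) hK₁L' le_sup_left hd₁
      rwa [hK₁, hidem, ← hK₁, hL', hidem, ← hL'] at h1
    have hK₁M₁ : K₁ ≤ M₁ := le_sup_left.trans (SGA_.le_ac F _)
    have hMM₁ : M ≤ M₁ := le_sup_right.trans (SGA_.le_ac F _)
    have hφ : ∀ x, φ x ∈ L' ⊔ M₁ := fun x => (sup_le_sup_left hMM₁ L') (h x)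
    have hwL' : w ∈ L' := SGA_.le_ac F _ (Subfield.subset_closure (Or.inr (by simp)))
    have hw : ∀ l ∈ L', IsAlgebraic (kS K₁ {w}) l := by
      intro l hl
      refine alg_mono ?_ l (mem_ac.1 hl).1
      apply kS_le (hKK₁.trans (K_le_kS K₁ {w}))
      intro x hx
      rcases Finset.mem_insert.1 hx with rfl | hx
      · exact Subfield.subset_closure (Or.inr (by simp))
      · exact K_le_kS K₁ {w} (SGA_.le_ac F _ (Subfield.subset_closure (Or.inr hx)))
    rcases fal1F F K₁ L' M₁ (SGA_.isAlgClosed_ac F _) (SGA_.isAlgClosed_ac F _) hK₁L' hK₁M₁ hd₂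
      w hwL' hw k E φ (fun c => hKK₁ (hk c)) hφ hE h₁ h₂ hind with h5 | h5
    · left
      exact fun y => hL'L (h5 y)
    · refine ih (fun x hx => hSL x (Finset.mem_insert_of_mem hx)) ?_
      intro y
      exact inter K₁ L' M M₁ hK₁L' hK₁M₁ hMM₁ hd₂ (φ y) (h5 y) (h y)

end Pool.Agent.SRF
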