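import Pool.Agent.SRF.FAE

/-!
# SRF FAF: rational points on curves of genus at least 2, and the digits of `π`
-/

set_option autoImplicit false

namespace Pool.Agent.SRF

open Pool.Agent.SGL IntermediateField Polynomial Filter

/-- function fields are finitely generated -/
theorem fg_of_cur {k E : Type} [Field k] [Field E] [Algebra k E] (hE : Cur k E) {f : E}
    (hf : Transcendental k f) : ∃ S : Finset E, adjoin k (S : Set E) = ⊤ := by
  classical
  have hfd := hE f hf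
  let b := Module.finBasis k⟮f⟯ E
  refine ⟨insert f (Finset.univ.image b), ?_⟩
  rw [eq_top_iff]
  intro y _
  rw [← b.sum_repr y]
  refine sum_mem (fun i _ => ?_)
  rw [Algebra.smul_def]
  refine mul_mem ?_ ?_
  · have h1 : k⟮f⟯ ≤ adjoin k ((insert f (Finset.univ.image b) : Finset E) : Set E) := by
      rw [adjoin_simple_le_iff]
      exact subset_adjoin k _ (by simp)
    exact h1 (b.repr y i).2
  · exact subset_adjoin k _ (by simp)

/-- the image of an algebraically closed field -/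
theorem map_closed {F F' : Type} [Field F] [Field F'] (ι : F →+* F') (K : Subfield F)
    (hK : IsAlgClosed K) (x : F') (hx : IsAlgebraic (K.map ι) x) : x ∈ K.map ι := by
  let e : K ≃+* K.map ι := RingEquiv.ofBijective
    ((ι.comp K.subtype).codRestrict (K.map ι) (fun l => ⟨l.1, l.2, rfl⟩)) (by
      constructor
      · intro a b hab
        exact Subtype.ext (ι.injective (congrArg Subtype.val hab))
      · rintro ⟨_, z, hz, rfl⟩
        exact ⟨⟨z, hz⟩, rfl⟩)
  have h1 : IsAlgClosed (K.map ι) := IsAlgClosed.of_ringEquiv _ _ e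
  obtain ⟨c, hc⟩ := mem_range_of_alg hx
  rw [← hc]
  exact c.2

/-- **rational points on curves of genus at least 2** -/
theorem falF (F : Type) [Field F] [CharZero F] (K L M : Subfield F) (hK : IsAlgClosed K)
    (hL : IsAlgClosed L) (hKL : K ≤ L) (hKM : K ≤ M) (hd : LDj K L M) (k E : Type) [Field k]
    [IsAlgClosed k] [CharZero k] [Field E] [Algebra k E] (φ : E →+* F)
    (hk : ∀ c : k, φ (algebraMap k E c) ∈ K) (hφ : ∀ x, φ x ∈ L ⊔ M) (hE : Cur k E) {f : E}
    (hf : Transcendental k f) {ω₁ ω₂ : Ω[E⁄k]} (h₁ : Reg k ω₁) (h₂ : Reg k ω₂)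
    (hind : ∀ a b : k, a • ω₁ + b • ω₂ = 0 → a = 0 ∧ b = 0) :
    (∀ y, φ y ∈ L) ∨ ∀ y, φ y ∈ M := by
  classical
  obtain ⟨S₀, hS₀⟩ := fg_of_cur hE hf
  obtain ⟨S, hSL, hS⟩ : ∃ S : Finset F, (∀ x ∈ S, x ∈ L) ∧ ∀ x, φ x ∈ kS K S ⊔ M := by
    have h1 : ∀ s : E, ∃ S : Finset F, (∀ x ∈ S, x ∈ L) ∧ φ s ∈ kS K S ⊔ M := by
      intro s
      obtain ⟨q, hq, hq0, hzq⟩ := mem_sup_quot K M L hKM hKL (φ s) (by
        rw [sup_comm]
        exact hφ s)
      obtain ⟨S₁, hS₁, h2⟩ := fin_mem K M L q hq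
      obtain ⟨S₂, hS₂, h3⟩ := fin_mem K M L _ hzq
      refine ⟨S₁ ∪ S₂, ?_, ?_⟩
      · intro x hx
        rcases Finset.mem_union.1 hx with hx | hx
        · exact hS₁ x hx
        · exact hS₂ x hx
      · have h4 : q ∈ kS K (S₁ ∪ S₂) ⊔ M :=
          TAA_.Rg_le le_sup_right ((kS_mono K Finset.subset_union_left).trans le_sup_left) h2
        have h5 : φ s * q ∈ kS K (S₁ ∪ S₂) ⊔ M :=
          TAA_.Rg_le le_sup_right ((kS_mono K Finset.subset_union_right).trans le_sup_left) h3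
        rw [← mul_div_cancel_right₀ (φ s) hq0]
        exact (kS K (S₁ ∪ S₂) ⊔ M).div_mem h5 h4
    choose T hT hT2 using h1
    refine ⟨S₀.biUnion T, ?_, ?_⟩
    · intro x hx
      obtain ⟨s, _, hs⟩ := Finset.mem_biUnion.1 hx
      exact hT s x hs
    · let X : IntermediateField k E := Subfield.toIntermediateField
        ((kS K (S₀.biUnion T) ⊔ M).comap φ)
        (fun c => (le_sup_left : kS K (S₀.biUnion T) ≤ _) (K_le_kS K _ (hk c)))
      have h2 : adjoin k (S₀ : Set E) ≤ X := by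
        rw [adjoin_le_iff]
        intro s hs
        exact (sup_le_sup_right (kS_mono K (Finset.subset_biUnion_of_mem T hs)) M) (hT2 s)
      rw [hS₀] at h2
      intro x
      exact h2 trivial
  -- extension to the algebraic closure
  let F' := AlgebraicClosure F
  let ι : F →+* F' := algebraMap F F'
  have hchar : CharZero F' := charZero_of_injective_algebraMap (algebraMap F F').injective
  have hmono : ∀ {X Y : Subfield F}, X ≤ Y → X.map ι ≤ Y.map ι :=
    fun h => (Subfield.gc_map_comap ι).monotone_l h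
  have h3 := fal_tower F' (K.map ι) (L.map ι) (M.map ι) (map_closed ι K hK) (map_closed ι L hL)
    (hmono hKL) (hmono hKM) (SGA_.ldj_map _ _ ι K L M hd) k E (ι.comp φ)
    (fun c => ⟨_, hk c, rfl⟩) hE h₁ h₂ hind (S.image ι) (by
      intro x hx
      obtain ⟨y, hy, rfl⟩ := Finset.mem_image.1 hx
      exact ⟨y, hSL y hy, rfl⟩) (by
      intro x
      have h4 : (kS K S).map ι ≤ kS (K.map ι) (S.image ι) := by
        unfold kS
        rw [RingHom.map_field_closure, Set.image_union, Finset.coe_image]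
        exact le_rfl
      have h5 : (kS K S ⊔ M).map ι ≤ ac (kS (K.map ι) (S.image ι)) ⊤ ⊔ M.map ι := by
        rw [Subfield.map_sup]
        exact sup_le_sup_right (h4.trans (SGA_.le_ac F' _)) _
      exact h5 ⟨_, hS x, rfl⟩)
  rcases h3 with h3 | h3
  · left
    intro y
    obtain ⟨l, hl, hl2⟩ := h3 y
    have : l = φ y := ι.injective hl2
    rw [← this]
    exact hl
  · right
    intro y
    obtain ⟨l, hl, hl2⟩ := h3 y
    have : l = φ y := ι.injective hl2
    rw [← this]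
    exact hl

/-- independent differentials and transcendental elements -/
theorem exists_transc {k E : Type} [Field k] [CharZero k] [Field E] [Algebra k E] {ω : Ω[E⁄k]}
    (hω : ω ≠ 0) : ∃ f : E, Transcendental k f := by
  by_contra hcon
  push Not at hcon
  unfold Transcendental at hcon
  push Not at hcon
  apply hω
  obtain ⟨h, hh⟩ := omega_span (f := (0 : E))
    (fun y => IsAlgebraic.tower_top (K := k) (A := E) _ (hcon y)) ω
  rw [hh, map_zero, smul_zero]

/-- the field generated by the algebraic numbers and the elements which are simple in a base which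
is dependent on `b` -/
noncomputable def Fb (N Λ : ℕ → ℕ) (b : ℕ) : IntermediateField QQ ℂ :=
  adjoin QQ {z : ℂ | ∃ (b' C : ℕ) (y : ℝ), 2 ≤ b' ∧ Dep b b' ∧
    (∀ n, SBT.cnt b' y (N n) (Λ n * N n) ≤ C * N n) ∧ z = y}

/-- **Faltings' theorem for the digits of `π`** -/
theorem faltings (N Λ : ℕ → ℕ) (hN : Tendsto N atTop atTop) (hΛ : Tendsto Λ atTop atTop)
    (E : IntermediateField QQ ℂ) (hfg : E.FG)
    (halg : ∀ x ∈ E, IsAlgebraic ℚ⟮(Real.pi : ℂ)⟯ x) :
    (∀ b : ℕ, 2 ≤ b → ∀ ω₁ ω₂ : Ω[(E ⊓ Fb N Λ b : IntermediateField QQ ℂ)⁄QQ],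
      Reg QQ ω₁ → Reg QQ ω₂ → ∃ a₁ a₂ : QQ, ¬ (a₁ = 0 ∧ a₂ = 0) ∧ a₁ • ω₁ + a₂ • ω₂ = 0) ∧
    ∃ b₀ : ℕ, ∀ b : ℕ, 2 ≤ b → ¬ Dep b₀ b → E ⊓ Fb N Λ b = ⊥ := by
  classical
  have hQQ := isAlgClosed_QQ
  obtain ⟨F, _, _, j, L, K, M, hpL, h⟩ := sit N Λ hN hΛ
  have hFb : ∀ b, 2 ≤ b → ∀ x ∈ Fb N Λ b, j x ∈ L ⊔ M b := by
    intro b hb x hx
    obtain ⟨hKc, hMc, hLc, hKL, hKM, hd, hk, hsim, hpM, hdep⟩ := h b hb
    let T : IntermediateField QQ ℂ := Subfield.toIntermediateField ((L ⊔ M b).comap j)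
      (fun c => (le_sup_left : L ≤ L ⊔ M b) (hKL (hk _ (mem_algebraicClosure_iff.1 c.2))))
    have h1 : Fb N Λ b ≤ T := by
      unfold Fb
      rw [adjoin_le_iff]
      rintro z ⟨b', C, y, hb', hbb, hy, rfl⟩
      exact TAA_.Rg_le le_sup_left le_sup_right (hsim b' C y hb' hbb hy)
    exact h1 hx
  constructor
  · intro b hb ω₁ ω₂ h₁ h₂
    by_contra hcon
    push Not at hcon
    have hind : ∀ a₁ a₂ : QQ, a₁ • ω₁ + a₂ • ω₂ = 0 → a₁ = 0 ∧ a₂ = 0 := by
      intro a₁ a₂ h3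
      by_contra h4
      exact hcon a₁ a₂ (fun h5 h6 => h4 ⟨h5, h6⟩) h3
    obtain ⟨hKc, hMc, hLc, hKL, hKM, hd, hk, hsim, hpM, hdep⟩ := h b hb
    have hω₁ : ω₁ ≠ 0 := by
      rintro rfl
      exact one_ne_zero (hind 1 0 (by rw [smul_zero, zero_smul, add_zero])).1
    obtain ⟨f, hf⟩ := exists_transc hω₁
    have hcur : Cur QQ (E ⊓ Fb N Λ b : IntermediateField QQ ℂ) := cur E hfg halg _ inf_le_left
    have hfE : (f : ℂ) ∈ E := f.2.1
    have hft : Transcendental ℚ (f : ℂ) := by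
      intro h3
      apply hf
      have h4 : (f : ℂ) ∈ algebraicClosure ℚ ℂ := mem_algebraicClosure_iff.2 h3
      have h5 : f = algebraMap QQ _ ⟨f, h4⟩ := rfl
      rw [h5]
      exact isAlgebraic_algebraMap _
    rcases falF F (K b) L (M b) hKc hLc hKL hKM hd QQ
      (E ⊓ Fb N Λ b : IntermediateField QQ ℂ) (j.comp (algebraMap _ ℂ))
      (fun c => hk _ (mem_algebraicClosure_iff.1 c.2)) (fun x => hFb b hb x x.2.2) hcur hf h₁ h₂
      hind with h3 | h3
    · exact hpL (pi_down j L (halg f hfE) hft (isAlgebraic_algebraMap (⟨_, h3 f⟩ : L)))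
    · exact hpM (pi_down j (M b) (halg f hfE) hft (isAlgebraic_algebraMap (⟨_, h3 f⟩ : M b)))
  · have hbot : ∀ b, (∀ x ∈ E, x ∈ Fb N Λ b → IsAlgebraic ℚ x) → E ⊓ Fb N Λ b = ⊥ := by
      intro b h3
      rw [eq_bot_iff]
      rintro x ⟨hxE, hxF⟩
      rw [IntermediateField.mem_bot]
      exact ⟨⟨x, mem_algebraicClosure_iff.2 (h3 x hxE hxF)⟩, rfl⟩
    by_cases hex : ∃ b, 2 ≤ b ∧ ∃ v ∈ E, v ∈ Fb N Λ b ∧ Transcendental ℚ v
    · obtain ⟨b₀, hb₀, v, hvE, hvR, hvt⟩ := hex
      obtain ⟨hKc, hMc, hLc, hKL, hKM, hd, hk, hsim, hpM, hdep⟩ := h b₀ hb₀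
      refine ⟨b₀, ?_⟩
      intro b hb hbd
      apply hbot
      intro x hxE hxR
      by_contra hxt
      have h1 := pi_down j (L ⊔ M b) (halg x hxE) hxt (isAlgebraic_algebraMap
        (⟨_, hFb b hb x hxR⟩ : (L ⊔ M b : Subfield F)))
      have h2 := pi_down j (L ⊔ M b₀) (halg v hvE) hvt (isAlgebraic_algebraMap
        (⟨_, hFb b₀ hb₀ v hvR⟩ : (L ⊔ M b₀ : Subfield F)))
      exact hdep b hb hbd h2 h1
    · push Not at hex
      refine ⟨0, ?_⟩
      intro b hb _
      apply hbot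
      intro x hxE hxR
      have := hex b hb x hxE hxR
      unfold Transcendental at this
      exact not_not.1 this

end Pool.Agent.SRF
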