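import Pool.Agent.SRF.FAF

/-!
# SRF FAG: fields with a nonconstant element of the ring
-/

set_option autoImplicit false

namespace Pool.Agent.SRF

open Pool.Agent.SGL IntermediateField Polynomial Filter

theorem Rb_le_Fb (N Λ : ℕ → ℕ) (b : ℕ) {x : ℂ} (hx : x ∈ Rb N Λ b) : x ∈ Fb N Λ b := by
  have h1 := algebra_adjoin_le_adjoin QQ {z : ℂ | ∃ (b' C : ℕ) (y : ℝ), 2 ≤ b' ∧ Dep b b' ∧
    (∀ n, SBT.cnt b' y (N n) (Λ n * N n) ≤ C * N n) ∧ z = y}
  exact h1 hx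

/-- if the ring has a nonconstant element, then the field is a rational function field -/
theorem rational_of_ring (N Λ : ℕ → ℕ) (hN : Tendsto N atTop atTop) (hΛ : Tendsto Λ atTop atTop)
    (E : IntermediateField QQ ℂ) (hfg : E.FG)
    (halg : ∀ x ∈ E, IsAlgebraic ℚ⟮(Real.pi : ℂ)⟯ x) (b : ℕ) (hb : 2 ≤ b) (v : ℂ) (hvE : v ∈ E)
    (hvR : v ∈ Rb N Λ b) (hvt : Transcendental ℚ v) : ∃ s : ℂ, E ⊓ Fb N Λ b = QQ⟮s⟯ := by
  classical
  have hQQ := isAlgClosed_QQ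
  obtain ⟨F, _, _, j, L, K, M, hpL, h⟩ := sit N Λ hN hΛ
  obtain ⟨hKc, hMc, hLc, hKL, hKM, hd, hk, hsim, hpM, hdep⟩ := h b hb
  have hFb : ∀ x ∈ Fb N Λ b, j x ∈ L ⊔ M b := by
    intro x hx
    let T : IntermediateField QQ ℂ := Subfield.toIntermediateField ((L ⊔ M b).comap j)
      (fun c => (le_sup_left : L ≤ L ⊔ M b) (hKL (hk _ (mem_algebraicClosure_iff.1 c.2))))
    have h1 : Fb N Λ b ≤ T := by
      unfold Fb
      rw [adjoin_le_iff]
      rintro z ⟨b', C, y, hb', hbb, hy, rfl⟩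
      exact TAA_.Rg_le le_sup_left le_sup_right (hsim b' C y hb' hbb hy)
    exact h1 hx
  have hRb : ∀ x ∈ Rb N Λ b, j x ∈ Rg L (M b) := by
    intro x hx
    let T : Subalgebra QQ ℂ := { (Rg L (M b)).comap j with
      algebraMap_mem' := fun c => mem_Rg_left (hKL (hk _ (mem_algebraicClosure_iff.1 c.2))) }
    have h1 : Rb N Λ b ≤ T := by
      unfold Rb
      rw [Algebra.adjoin_le_iff]
      rintro z ⟨b', C, y, hb', hbb, hy, rfl⟩
      exact hsim b' C y hb' hbb hy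
    exact h1 hx
  have hcur : Cur QQ (E ⊓ Fb N Λ b : IntermediateField QQ ℂ) := cur E hfg halg _ inf_le_left
  have hv₁ : v ∈ E ⊓ Fb N Λ b := ⟨hvE, Rb_le_Fb N Λ b hvR⟩
  have hvt₁ : Transcendental QQ (⟨v, hv₁⟩ : (E ⊓ Fb N Λ b : IntermediateField QQ ℂ)) := by
    intro h
    apply hvt
    apply alg_of_algQQ
    have := h.algebraMap (A := ℂ)
    exact this
  obtain ⟨s₀, hs₀⟩ : ∃ s : (E ⊓ Fb N Λ b : IntermediateField QQ ℂ), QQ⟮s⟯ = ⊤ := by
    by_contra hcon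
    push Not at hcon
    have h1 := genF F (K b) L (M b) hKc hKL hKM hd QQ (E ⊓ Fb N Λ b : IntermediateField QQ ℂ)
      (j.comp (algebraMap _ ℂ)) (fun c => hk _ (mem_algebraicClosure_iff.1 c.2))
      (fun x => hFb x x.2.2) hcur hcon hvt₁ (hRb v hvR)
    rcases h1 with h1 | h1
    · exact hpL (pi_down j L (halg v hvE) hvt (isAlgebraic_algebraMap (⟨_, h1⟩ : L)))
    · exact hpM (pi_down j (M b) (halg v hvE) hvt (isAlgebraic_algebraMap (⟨_, h1⟩ : M b)))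
  refine ⟨s₀, ?_⟩
  have h1 := congrArg IntermediateField.lift hs₀
  rw [IntermediateField.lift_top, lift_adjoin_simple] at h1
  exact h1.symm

end Pool.Agent.SRF
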