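import Pool.Agent.SRF.FAG

/-!
# SRF FBA: several multiplicatively independent bases
-/

set_option autoImplicit false

namespace Pool.Agent.SRF

open Pool.Agent.SGL Pool.Agent.SBT IntermediateField Polynomial Filter

/-- multiplicatively independent sets of integers -/
def MI (B : Set ℕ) : Prop :=
  ∀ S : Finset ℕ, (S : Set ℕ) ⊆ B → ∀ e : ℕ → ℤ, ∏ b ∈ S, (b : ℚ) ^ e b = 1 → ∀ b ∈ S, e b = 0

theorem MI.ti {B : Set ℕ} (hB : MI B) {A D : Finset ℕ} (hA : (A : Set ℕ) ⊆ B)
    (hD : (D : Set ℕ) ⊆ B) (hB2 : ∀ b ∈ B, 2 ≤ b) (hAD : Disjoint A D) : TI A D := by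
  classical
  intro e f hef
  have h1 : ∏ b ∈ A ∪ D, (b : ℚ) ^ (if b ∈ A then e b else - f b) = 1 := by
    rw [Finset.prod_union hAD]
    have h2 : ∏ b ∈ A, (b : ℚ) ^ (if b ∈ A then e b else - f b) = ∏ b ∈ A, (b : ℚ) ^ e b :=
      Finset.prod_congr rfl (fun b hb => by rw [if_pos hb])
    have h3 : ∏ b ∈ D, (b : ℚ) ^ (if b ∈ A then e b else - f b) =
        (∏ b ∈ D, (b : ℚ) ^ f b)⁻¹ := by
      rw [← Finset.prod_inv_distrib]
      refine Finset.prod_congr rfl (fun b hb => ?_)
      rw [if_neg (fun h => Finset.disjoint_left.1 hAD h hb), zpow_neg]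
    rw [h2, h3, hef, mul_inv_cancel₀]
    rw [Finset.prod_ne_zero_iff]
    intro b hb
    apply zpow_ne_zero
    have := hB2 b (hD hb)
    positivity
  have h4 := hB (A ∪ D) (by
    rw [Finset.coe_union]
    exact Set.union_subset hA hD) _ h1
  apply Finset.prod_eq_one
  intro b hb
  have h5 := h4 b (Finset.mem_union_left D hb)
  rw [if_pos hb] at h5
  rw [h5, zpow_zero]

section

variable {F : Type} [Field F]

/-- the field generated by `L` and the fields `M a`, `a ∈ A` -/
def XA (L : Subfield F) (M : ℕ → Subfield F) (A : Finset ℕ) : Subfield F :=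
  Subfield.closure ((L : Set F) ∪ {x | ∃ a ∈ A, x ∈ M a})

/-- the ring generated by `L` and the fields `M a`, `a ∈ A` -/
def RA (L : Subfield F) (M : ℕ → Subfield F) (A : Finset ℕ) : Subring F :=
  Subring.closure ((L : Set F) ∪ {x | ∃ a ∈ A, x ∈ M a})

variable (L : Subfield F) (M : ℕ → Subfield F)

theorem L_le_XA (A : Finset ℕ) : L ≤ XA L M A := fun _ hx => Subfield.subset_closure (Or.inl hx)

theorem M_le_XA {A : Finset ℕ} {a : ℕ} (ha : a ∈ A) : M a ≤ XA L M A :=
  fun _ hx => Subfield.subset_closure (Or.inr ⟨a, ha, hx⟩)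

theorem XA_le {A : Finset ℕ} {Y : Subfield F} (hL : L ≤ Y) (hM : ∀ a ∈ A, M a ≤ Y) :
    XA L M A ≤ Y := by
  unfold XA
  rw [Subfield.closure_le]
  rintro x (hx | ⟨a, ha, hx⟩)
  · exact hL hx
  · exact hM a ha hx

theorem RA_le {A : Finset ℕ} {Y : Subring F} (hL : ∀ x ∈ L, x ∈ Y)
    (hM : ∀ a ∈ A, ∀ x ∈ M a, x ∈ Y) : RA L M A ≤ Y := by
  unfold RA
  rw [Subring.closure_le]
  rintro x (hx | ⟨a, ha, hx⟩)
  · exact hL x hx
  · exact hM a ha x hx

theorem XA_mono {A A' : Finset ℕ} (h : A ⊆ A') : XA L M A ≤ XA L M A' :=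
  XA_le L M (L_le_XA L M A') (fun _ ha => M_le_XA L M (h ha))

theorem RA_mono {A A' : Finset ℕ} (h : A ⊆ A') : RA L M A ≤ RA L M A' :=
  RA_le L M (fun _ hx => Subring.subset_closure (Or.inl hx))
    (fun a ha _ hx => Subring.subset_closure (Or.inr ⟨a, h ha, hx⟩))

theorem RA_le_XA (A : Finset ℕ) : ∀ x ∈ RA L M A, x ∈ XA L M A := by
  intro x hx
  exact RA_le L M (Y := (XA L M A).toSubring) (fun x hx => L_le_XA L M A hx)
    (fun a ha x hx => M_le_XA L M ha hx) hx

/-- a sum in a ring over `L`, reduction to the first factor -/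
theorem ring_red {L Z X : Subfield F} (hd : LDj L X Z) (R : Subring F)
    (hLR : ∀ x ∈ L, x ∈ R) (hRZ : ∀ x ∈ R, x ∈ Z) (n : ℕ) :
    ∀ (z : F) (r s : Fin n → F), z ∈ Z → (∀ i, r i ∈ R) → (∀ i, s i ∈ X) →
      z = ∑ i, r i * s i → z ∈ R := by
  classical
  induction n with
  | zero =>
    intro z r s _ _ _ h
    rw [h, Finset.univ_eq_empty, Finset.sum_empty]
    exact R.zero_mem
  | succ n ih =>
    intro z r s hz hr hs h
    by_cases hI : Ind L (Fin.cons 1 s : Fin (n + 2) → F)
    · have h1 := hd (n + 2) (Fin.cons 1 s) (Fin.cons (-z) r) (by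
        intro i
        refine Fin.cases ?_ (fun i => ?_) i
        · exact X.one_mem
        · exact hs i) (by
        intro i
        refine Fin.cases ?_ (fun i => ?_) i
        · exact Z.neg_mem hz
        · exact hRZ _ (hr i)) hI (by
        rw [Fin.sum_univ_succ, Fin.cons_zero, Fin.cons_zero, one_mul, h]
        simp only [Fin.cons_succ]
        rw [neg_add_eq_zero]
        exact Finset.sum_congr rfl (fun i _ => mul_comm _ _))
      have h2 : -z = 0 := by
        have := congrFun h1 0
        rwa [Fin.cons_zero] at this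
      rw [neg_eq_zero.1 h2]
      exact R.zero_mem
    · unfold Ind at hI
      push Not at hI
      obtain ⟨κ, hκ, hκ0, hκne⟩ := hI
      rw [Fin.sum_univ_succ, Fin.cons_zero, mul_one] at hκ0
      simp only [Fin.cons_succ] at hκ0
      obtain ⟨j, hj⟩ : ∃ j : Fin (n + 1), κ j.succ ≠ 0 := by
        by_contra hcon
        push Not at hcon
        apply hκne
        funext i
        refine Fin.cases ?_ (fun i => ?_) i
        · rw [Finset.sum_eq_zero (fun i _ => by rw [hcon i, zero_mul]), add_zero] at hκ0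
          exact hκ0
        · exact hcon i
      rw [Fin.sum_univ_succAbove _ j] at hκ0
      have hsj : s j = -((κ j.succ)⁻¹ * κ 0) -
          ∑ i, (κ j.succ)⁻¹ * κ (j.succAbove i).succ * s (j.succAbove i) := by
        have h3 : κ j.succ * s j = -κ 0 - ∑ i, κ (j.succAbove i).succ * s (j.succAbove i) := by
          linear_combination hκ0
        have h4 : s j = (κ j.succ)⁻¹ * (κ j.succ * s j) := by
          rw [← mul_assoc, inv_mul_cancel₀ hj, one_mul]
        rw [h4, h3, mul_sub, mul_neg, Finset.mul_sum]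
        simp only [mul_assoc]
      have hc : ∀ i, (κ j.succ)⁻¹ * κ i ∈ L := fun i => L.mul_mem (L.inv_mem (hκ _)) (hκ _)
      have h5 := ih (z + r j * ((κ j.succ)⁻¹ * κ 0))
        (fun i => r (j.succAbove i) - r j * ((κ j.succ)⁻¹ * κ (j.succAbove i).succ))
        (fun i => s (j.succAbove i))
        (Z.add_mem hz (Z.mul_mem (hRZ _ (hr j)) (hRZ _ (hLR _ (hc 0)))))
        (fun i => R.sub_mem (hr _) (R.mul_mem (hr j) (hLR _ (hc _))))
        (fun i => hs _) (by
          rw [h, Fin.sum_univ_succAbove _ j, hsj, mul_sub, Finset.mul_sum]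
          have h6 : ∀ i, (r (j.succAbove i) - r j * ((κ j.succ)⁻¹ * κ (j.succAbove i).succ)) *
              s (j.succAbove i) = r (j.succAbove i) * s (j.succAbove i) -
              r j * ((κ j.succ)⁻¹ * κ (j.succAbove i).succ * s (j.succAbove i)) := by
            intro i
            ring
          rw [Finset.sum_congr rfl (fun i _ => h6 i), Finset.sum_sub_distrib]
          ring)
      have h7 := R.sub_mem h5 (R.mul_mem (hr j) (hLR _ (hc 0)))
      rwa [add_sub_cancel_right] at h7

/-- elements of a ring generated by two rings -/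
theorem ring_sum {R S T : Subring F} (hT : ∀ x ∈ T, x ∈ Subring.closure ((R : Set F) ∪ S))
    (z : F) (hz : z ∈ T) : ∃ (n : ℕ) (r s : Fin n → F), (∀ i, r i ∈ R) ∧ (∀ i, s i ∈ S) ∧
      z = ∑ i, r i * s i := by
  classical
  -- lists of pairs
  have key : ∀ z ∈ Subring.closure ((R : Set F) ∪ S), ∃ l : List (F × F),
      (∀ p ∈ l, p.1 ∈ R ∧ p.2 ∈ S) ∧ z = (l.map (fun p => p.1 * p.2)).sum := by
    intro z hz
    induction hz using Subring.closure_induction with
    | mem x hx =>
      rcases hx with hx | hx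
      · refine ⟨[(x, 1)], fun p hp => ?_, by simp⟩
        rw [List.mem_singleton] at hp
        subst hp
        exact ⟨hx, S.one_mem⟩
      · refine ⟨[(1, x)], fun p hp => ?_, by simp⟩
        rw [List.mem_singleton] at hp
        subst hp
        exact ⟨R.one_mem, hx⟩
    | zero => exact ⟨[], by simp, by simp⟩
    | one =>
      refine ⟨[(1, 1)], fun p hp => ?_, by simp⟩
      rw [List.mem_singleton] at hp
      subst hp
      exact ⟨R.one_mem, S.one_mem⟩
    | add x y _ _ hx hy =>
      obtain ⟨l, hl, rfl⟩ := hx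
      obtain ⟨l', hl', rfl⟩ := hy
      refine ⟨l ++ l', ?_, by simp⟩
      intro p hp
      rcases List.mem_append.1 hp with hp | hp
      · exact hl p hp
      · exact hl' p hp
    | neg x hx' hx =>
      obtain ⟨l, hl, rfl⟩ := hx
      clear hx'
      refine ⟨l.map (fun p => (-p.1, p.2)), ?_, ?_⟩
      · intro p hp
        obtain ⟨q, hq, rfl⟩ := List.mem_map.1 hp
        exact ⟨R.neg_mem (hl q hq).1, (hl q hq).2⟩
      · rw [List.map_map]
        clear hl
        induction l with
        | nil => simp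
        | cons a l ih =>
          simp only [List.map_cons, List.sum_cons, Function.comp_apply, neg_mul] at ih ⊢
          rw [← ih]
          ring
    | mul x y hx' hy' hx hy =>
      obtain ⟨l, hl, rfl⟩ := hx
      obtain ⟨l', hl', rfl⟩ := hy
      clear hx' hy'
      refine ⟨l.flatMap (fun p => l'.map (fun q => (p.1 * q.1, p.2 * q.2))), ?_, ?_⟩
      · intro p hp
        obtain ⟨p', hp', hp2⟩ := List.mem_flatMap.1 hp
        obtain ⟨q', hq', rfl⟩ := List.mem_map.1 hp2
        exact ⟨R.mul_mem (hl p' hp').1 (hl' q' hq').1, S.mul_mem (hl p' hp').2 (hl' q' hq').2⟩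
      · clear hl hl'
        induction l with
        | nil => simp
        | cons a l ih =>
          simp only [List.map_cons, List.sum_cons, List.flatMap_cons, List.map_append,
            List.sum_append, add_mul]
          rw [← ih, List.map_map]
          congr 1
          clear ih
          induction l' with
          | nil => simp
          | cons b l' ih' =>
            simp only [List.map_cons, List.sum_cons, Function.comp_apply, mul_add]
            rw [← ih']
            congr 1
            ring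
  obtain ⟨l, hl, rfl⟩ := key z (hT z hz)
  refine ⟨l.length, fun i => (l.get i).1, fun i => (l.get i).2, fun i => (hl _ (l.get_mem i)).1,
    fun i => (hl _ (l.get_mem i)).2, ?_⟩
  rw [← List.sum_ofFn]
  congr 1
  rw [List.ofFn_eq_map]
  apply List.ext_get
  · simp
  · intro n h1 h2
    simp

end

end Pool.Agent.SRF
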