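import Pool.Agent.SRF.FBA

/-!
# SRF FBB: the field of a scale, with several bases
-/

set_option autoImplicit false

namespace Pool.Agent.SRF

open Pool.Agent.SGL Pool.Agent.SBT IntermediateField Filter

theorem sitC (N Λ : ℕ → ℕ) (hN : Tendsto N atTop atTop) (hΛ : Tendsto Λ atTop atTop) :
    ∃ (F : Type) (_ : Field F) (_ : IsAlgClosed F) (_ : CharZero F) (j : ℂ →+* F) (L : Subfield F)
      (K M : ℕ → Subfield F), IsAlgClosed L ∧ ¬ IsAlgebraic L (j Real.pi) ∧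
      (∀ c : ℂ, IsAlgebraic ℚ c → j c ∈ L) ∧
      (∀ b : ℕ, 2 ≤ b → IsAlgClosed (K b) ∧ IsAlgClosed (M b) ∧
        K b ≤ L ∧ K b ≤ M b ∧ LDj (K b) L (M b) ∧
        (∀ c : ℂ, IsAlgebraic ℚ c → j c ∈ K b) ∧
        (∀ (b' C : ℕ) (y : ℝ), 2 ≤ b' → Dep b b' →
          (∀ n, cnt b' y (N n) (Λ n * N n) ≤ C * N n) → j y ∈ Rg L (M b)) ∧
        ¬ IsAlgebraic (M b) (j Real.pi)) ∧
      ∀ A D : Finset ℕ, (∀ a ∈ A, 2 ≤ a) → (∀ a ∈ D, 2 ≤ a) → TI A D →
        ∃ YA YD : Subfield F, L ≤ YA ∧ L ≤ YD ∧ (∀ a ∈ A, M a ≤ YA) ∧ (∀ a ∈ D, M a ≤ YD) ∧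
          (∀ x, IsAlgebraic YA x → x ∈ YA) ∧ (∀ x, IsAlgebraic YD x → x ∈ YD) ∧ LDj L YA YD := by
  classical
  have hU : ((hyperfilter ℕ : Ultrafilter ℕ) : Filter ℕ) ≤ atTop := Nat.hyperfilter_le_atTop
  let σ : Sc := ⟨hyperfilter ℕ, fun n => (N n : ℝ),
    (tendsto_natCast_atTop_atTop.comp hN).mono_left hU⟩
  let F := AlgebraicClosure (Om σ)
  let ι : Om σ →+* F := algebraMap (Om σ) F
  have hchar : CharZero F := charZero_of_injective_algebraMap (algebraMap (Om σ) F).injective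
  let instA : Algebra ℝ F := (ι.comp (cst σ)).toAlgebra
  have halg : Algebra.IsAlgebraic ℝ ℂ := Algebra.IsAlgebraic.of_finite ℝ ℂ
  let j : ℂ →ₐ[ℝ] F := IsAlgClosed.lift
  have hj : ∀ y : ℝ, j (y : ℂ) = ι (cst σ y) := fun y => j.commutes y
  have hB : ∀ b : ℕ, 2 ≤ b → ∀ c ∈ ({b} : Finset ℕ), 2 ≤ c := by
    intro b hb c hc
    rw [Finset.mem_singleton] at hc
    omega
  have hmono : ∀ {X Y : Subfield (Om σ)}, X ≤ Y → X.map ι ≤ Y.map ι :=
    fun h => (Subfield.gc_map_comap ι).monotone_l h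
  have hclosed : ∀ (X : Subfield F) (x : F), IsAlgebraic (ac X ⊤) x → x ∈ ac X ⊤ :=
    fun X x hx => mem_ac.2 ⟨alg_ac X x hx, Subfield.mem_top _⟩
  have hQ : ∀ (X : Subfield F) (c : ℂ), IsAlgebraic ℚ c → j.toRingHom c ∈ ac X ⊤ := by
    intro X c hc
    refine mem_ac.2 ⟨?_, Subfield.mem_top _⟩
    exact IsAlgebraic.ringHom_of_comp_eq (f := algebraMap ℚ X)
      (g := j.toRingHom) hc (algebraMap ℚ _).injective (Subsingleton.elim _ _)
  refine ⟨F, inferInstance, inferInstance, hchar, j.toRingHom, ac ((Lf σ).map ι) ⊤,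
    fun b => ac ((Kf σ {b}).map ι) ⊤, fun b => ac ((clo (Kf σ {b})).map ι) ⊤,
    SGA_.isAlgClosed_ac F _, ?_, hQ _, ?_, ?_⟩
  · intro h
    have h1 := alg_ac _ _ h
    have h2 : IsAlgebraic ((Lf σ).map ι) (ι (cst σ Real.pi)) := by
      rw [← hj]
      exact h1
    exact TRL_ σ Real.pi NUP_ (SGA_.alg_down _ _ ι _ _ h2)
  · intro b hb
    have hKL : Kf σ {b} ≤ Lf σ := (KWD_ σ {b} (hB b hb)).1
    have hKL' : (Kf σ {b}).map ι ≤ (Lf σ).map ι := hmono hKL
    have hKM' : (Kf σ {b}).map ι ≤ (clo (Kf σ {b})).map ι := hmono (le_clo _)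
    refine ⟨SGA_.isAlgClosed_ac F _, SGA_.isAlgClosed_ac F _,
      SGA_.ac_mono F _ _ hKL', SGA_.ac_mono F _ _ hKM',
      LDC_ F _ _ _ hKL' hKM' (SGA_.ldj_map _ _ ι _ _ _ (LDK_ σ {b} (hB b hb))), hQ _, ?_, ?_⟩
    · intro b' C y hb' hdep hy
      obtain ⟨i, k, hi, hk, hik⟩ := hdep
      have h1 := MEM_ σ N Λ b' C y hb' (fun _ => rfl) (hΛ.mono_left hU)
        (Eventually.of_forall hy)
      have h2 : cst σ y ∈ Rg (Lf σ) (clo (Kf σ {b})) :=
        Rg_mono le_rfl (TAA_.clo_mono (kfe b b' i k hi hik)) h1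
      show j (y : ℂ) ∈ _
      rw [hj]
      have h3 : Rg (Lf σ) (clo (Kf σ {b})) ≤
          (Rg (ac ((Lf σ).map ι) ⊤) (ac ((clo (Kf σ {b})).map ι) ⊤)).comap ι := by
        conv_lhs => unfold Rg
        rw [Subring.closure_le]
        rintro s (hs | hs)
        · exact mem_Rg_left (SGA_.le_ac F _ ⟨s, hs, rfl⟩)
        · exact mem_Rg_right (SGA_.le_ac F _ ⟨s, hs, rfl⟩)
      exact h3 h2
    · intro h
      have h1 := alg_ac _ _ h
      have h2 : IsAlgebraic ((clo (Kf σ {b})).map ι) (ι (cst σ Real.pi)) := by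
        rw [← hj]
        exact h1
      exact TRK_ σ b hb Real.pi
        transcendental_pi (SGA_.alg_down _ _ ι _ _ h2)
  · intro A D hA hD hTI
    refine ⟨ac ((Lf σ ⊔ clo (Kf σ A)).map ι) ⊤, ac ((Lf σ ⊔ clo (Kf σ D)).map ι) ⊤,
      SGA_.ac_mono F _ _ (hmono le_sup_left), SGA_.ac_mono F _ _ (hmono le_sup_left), ?_, ?_,
      hclosed _, hclosed _, ?_⟩
    · intro a ha
      exact SGA_.ac_mono F _ _ (hmono ((TAA_.clo_mono (TAA_.Kf_mono
        (Finset.singleton_subset_iff.2 ha))).trans le_sup_right))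
    · intro a ha
      exact SGA_.ac_mono F _ _ (hmono ((TAA_.clo_mono (TAA_.Kf_mono
        (Finset.singleton_subset_iff.2 ha))).trans le_sup_right))
    · exact LDC_ F _ _ _ (hmono le_sup_left) (hmono le_sup_left)
        (SGA_.ldj_map _ _ ι _ _ _ (LDE_ σ A D hA hD hTI))

/-- the numbers which are simple in a base which is dependent on an element of `B` -/
def gens (N Λ : ℕ → ℕ) (B : Set ℕ) : Set ℂ :=
  {z : ℂ | ∃ b ∈ B, ∃ (b' C : ℕ) (y : ℝ), 2 ≤ b' ∧ Dep b b' ∧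
    (∀ n, cnt b' y (N n) (Λ n * N n) ≤ C * N n) ∧ z = y}

/-- algebraic elements over a field which contains `π` -/
theorem alg_up {F : Type} [Field F] (j : ℂ →+* F) (X : Subfield F) {x : ℂ}
    (hx : IsAlgebraic ℚ⟮(Real.pi : ℂ)⟯ x) (h : IsAlgebraic X (j Real.pi)) :
    IsAlgebraic X (j x) := by
  have hp : j Real.pi ∈ ac X ⊤ := mem_ac.2 ⟨h, Subfield.mem_top _⟩
  have h1 : IsAlgebraic (ac X ⊤ : Subfield F) (j x) :=
    alg_push j (fun a => ⟨⟨_, map_adjoin j _ hp a a.2⟩, rfl⟩) hx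
  exact alg_ac X _ h1

/-- **the field of a scale for a multiplicatively independent set of bases** -/
theorem sitB (N Λ : ℕ → ℕ) (hN : Tendsto N atTop atTop) (hΛ : Tendsto Λ atTop atTop)
    (B : Set ℕ) (hB2 : ∀ b ∈ B, 2 ≤ b) (hB : MI B) (z : ℂ)
    (hz : z ∈ adjoin QQ (gens N Λ B)) (hza : IsAlgebraic ℚ⟮(Real.pi : ℂ)⟯ z)
    (hzt : Transcendental ℚ z) :
    ∃ (F : Type) (_ : Field F) (_ : CharZero F) (j : ℂ →+* F) (K L M : Subfield F),
      IsAlgClosed K ∧ IsAlgClosed L ∧ IsAlgClosed M ∧ K ≤ L ∧ K ≤ M ∧ LDj K L M ∧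
      (∀ c : ℂ, IsAlgebraic ℚ c → j c ∈ K) ∧
      ¬ IsAlgebraic L (j Real.pi) ∧ ¬ IsAlgebraic M (j Real.pi) ∧
      (∀ x, IsAlgebraic ℚ⟮(Real.pi : ℂ)⟯ x → x ∈ adjoin QQ (gens N Λ B) → j x ∈ L ⊔ M) ∧
      ∀ x, IsAlgebraic ℚ⟮(Real.pi : ℂ)⟯ x → x ∈ Algebra.adjoin QQ (gens N Λ B) →
        j x ∈ Rg L M := by
  classical
  obtain ⟨F, _, _, _, j, L, K, M, hLc, hpL, hQL, h1, h2⟩ := sitC N Λ hN hΛ
  have hQL' : ∀ c : QQ, j (algebraMap QQ ℂ c) ∈ L := fun c =>
    hQL _ (mem_algebraicClosure_iff.1 c.2)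
  have hgen : ∀ x ∈ gens N Λ B, ∃ A : Finset ℕ, (A : Set ℕ) ⊆ B ∧ j x ∈ RA L M A := by
    rintro x ⟨b, hb, b', C, y, hb', hdep, hy, rfl⟩
    refine ⟨{b}, by simpa using hb, ?_⟩
    have h3 := (h1 b (hB2 b hb)).2.2.2.2.2.2.1 b' C y hb' hdep hy
    have h4 : Rg L (M b) ≤ RA L M {b} := by
      unfold Rg
      rw [Subring.closure_le]
      rintro s (hs | hs)
      · exact Subring.subset_closure (Or.inl hs)
      · exact Subring.subset_closure (Or.inr ⟨b, by simp, hs⟩)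
    exact h4 h3
  have hsub : ∀ {A A' : Finset ℕ}, (A : Set ℕ) ⊆ B → (A' : Set ℕ) ⊆ B →
      ((A ∪ A' : Finset ℕ) : Set ℕ) ⊆ B := by
    intro A A' hA hA'
    rw [Finset.coe_union]
    exact Set.union_subset hA hA'
  -- the ring
  have hRS : ∀ x ∈ Algebra.adjoin QQ (gens N Λ B),
      ∃ A : Finset ℕ, (A : Set ℕ) ⊆ B ∧ j x ∈ RA L M A := by
    intro x hx
    induction hx using Algebra.adjoin_induction with
    | mem x hx => exact hgen x hx
    | algebraMap c => exact ⟨∅, by simp, Subring.subset_closure (Or.inl (hQL' c))⟩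
    | add x y _ _ hx hy =>
      obtain ⟨A, hA, h3⟩ := hx
      obtain ⟨A', hA', h4⟩ := hy
      refine ⟨A ∪ A', hsub hA hA', ?_⟩
      rw [map_add]
      exact (RA L M _).add_mem (RA_mono L M Finset.subset_union_left h3)
        (RA_mono L M Finset.subset_union_right h4)
    | mul x y _ _ hx hy =>
      obtain ⟨A, hA, h3⟩ := hx
      obtain ⟨A', hA', h4⟩ := hy
      refine ⟨A ∪ A', hsub hA hA', ?_⟩
      rw [map_mul]
      exact (RA L M _).mul_mem (RA_mono L M Finset.subset_union_left h3)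
        (RA_mono L M Finset.subset_union_right h4)
  -- the field
  have hFS : ∀ x ∈ adjoin QQ (gens N Λ B),
      ∃ A : Finset ℕ, (A : Set ℕ) ⊆ B ∧ j x ∈ XA L M A := by
    intro x hx
    induction hx using IntermediateField.adjoin_induction with
    | mem x hx =>
      obtain ⟨A, hA, h3⟩ := hgen x hx
      exact ⟨A, hA, RA_le_XA L M A _ h3⟩
    | algebraMap c => exact ⟨∅, by simp, L_le_XA L M _ (hQL' c)⟩
    | add x y _ _ hx hy =>
      obtain ⟨A, hA, h3⟩ := hx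
      obtain ⟨A', hA', h4⟩ := hy
      refine ⟨A ∪ A', hsub hA hA', ?_⟩
      rw [map_add]
      exact (XA L M _).add_mem (XA_mono L M Finset.subset_union_left h3)
        (XA_mono L M Finset.subset_union_right h4)
    | inv x _ hx =>
      obtain ⟨A, hA, h3⟩ := hx
      refine ⟨A, hA, ?_⟩
      rw [map_inv₀]
      exact (XA L M _).inv_mem h3
    | mul x y _ _ hx hy =>
      obtain ⟨A, hA, h3⟩ := hx
      obtain ⟨A', hA', h4⟩ := hy
      refine ⟨A ∪ A', hsub hA hA', ?_⟩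
      rw [map_mul]
      exact (XA L M _).mul_mem (XA_mono L M Finset.subset_union_left h3)
        (XA_mono L M Finset.subset_union_right h4)
  -- the smallest set of bases
  let P : ℕ → Prop := fun n => ∃ A : Finset ℕ, A.card = n ∧ (A : Set ℕ) ⊆ B ∧
    IsAlgebraic (XA L M A) (j Real.pi)
  have hP : ∃ n, P n := by
    obtain ⟨A, hA, h3⟩ := hFS z hz
    exact ⟨A.card, A, rfl, hA, pi_down j _ hza hzt (isAlgebraic_algebraMap (⟨_, h3⟩ : XA L M A))⟩
  obtain ⟨A₀, hA₀n, hA₀B, hA₀⟩ := Nat.find_spec hP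
  have hmin : ∀ A : Finset ℕ, A ⊆ A₀ → A ≠ A₀ → ¬ IsAlgebraic (XA L M A) (j Real.pi) := by
    intro A hA hne h3
    have h4 : A.card < A₀.card := Finset.card_lt_card
      (Finset.ssubset_iff_subset_ne.2 ⟨hA, hne⟩)
    rw [hA₀n] at h4
    exact Nat.find_min hP h4 ⟨A, rfl, (Finset.coe_subset.2 hA).trans hA₀B, h3⟩
  have hge : ∀ A : Finset ℕ, (A : Set ℕ) ⊆ B → ∀ a ∈ A, 2 ≤ a := fun A hA a ha => hB2 a (hA ha)
  -- the reduction to the smallest set
  have hred : ∀ x, IsAlgebraic ℚ⟮(Real.pi : ℂ)⟯ x → ∀ A : Finset ℕ, (A : Set ℕ) ⊆ B →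
      (j x ∈ XA L M A → j x ∈ XA L M A₀) ∧ (j x ∈ RA L M A → j x ∈ RA L M A₀) := by
    intro x hx A hA
    have hDB : ((A \ A₀ : Finset ℕ) : Set ℕ) ⊆ B :=
      (Finset.coe_subset.2 Finset.sdiff_subset).trans hA
    obtain ⟨YA, YD, hLA, hLD, hMA, hMD, hcA, hcD, hd⟩ := h2 A₀ (A \ A₀) (hge _ hA₀B) (hge _ hDB)
      (hB.ti hA₀B hDB hB2 Finset.disjoint_sdiff)
    have hXA : XA L M A₀ ≤ YA := XA_le L M hLA hMA
    have hjx : j x ∈ YA := hcA _ (alg_mono hXA _ (alg_up j _ hx hA₀))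
    have hd' : LDj L YD YA := LDS_ F L YA YD hLA hLD hd
    constructor
    · intro h3
      have h4 : XA L M A ≤ YD ⊔ XA L M A₀ := by
        apply XA_le
        · exact hLD.trans le_sup_left
        · intro a ha
          by_cases haA : a ∈ A₀
          · exact (M_le_XA L M haA).trans le_sup_right
          · exact (hMD a (Finset.mem_sdiff.2 ⟨ha, haA⟩)).trans le_sup_left
      have h5 := inter L YD (XA L M A₀) YA hLD hLA hXA hd' (j x) hjx (h4 h3)
      rwa [sup_eq_right.2 (L_le_XA L M A₀)] at h5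
    · intro h3
      obtain ⟨n, r, s, hr, hs, hrs⟩ := ring_sum (R := RA L M A₀) (S := RA L M (A \ A₀))
        (T := RA L M A) (fun y hy => by
          refine RA_le L M (Y := Subring.closure ((RA L M A₀ : Set F) ∪ RA L M (A \ A₀)))
            (fun x hx => Subring.subset_closure (Or.inl (Subring.subset_closure (Or.inl hx))))
            ?_ hy
          intro a ha x hx
          by_cases haA : a ∈ A₀
          · exact Subring.subset_closure (Or.inl (Subring.subset_closure (Or.inr ⟨a, haA, hx⟩)))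
          · exact Subring.subset_closure (Or.inr (Subring.subset_closure
              (Or.inr ⟨a, Finset.mem_sdiff.2 ⟨ha, haA⟩, hx⟩)))) (j x) h3
      refine ring_red hd' (RA L M A₀) (fun y hy => Subring.subset_closure (Or.inl hy))
        (fun y hy => hXA (RA_le_XA L M A₀ y hy)) n (j x) r s hjx hr (fun i => ?_) hrs
      exact RA_le L M (Y := YD.toSubring) (fun y hy => hLD hy) (fun a ha y hy => hMD a ha hy)
        (hs i)
  have hFS' : ∀ x, IsAlgebraic ℚ⟮(Real.pi : ℂ)⟯ x → x ∈ adjoin QQ (gens N Λ B) →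
      j x ∈ XA L M A₀ := by
    intro x hx hxF
    obtain ⟨A, hA, h3⟩ := hFS x hxF
    exact (hred x hx A hA).1 h3
  have hRS' : ∀ x, IsAlgebraic ℚ⟮(Real.pi : ℂ)⟯ x → x ∈ Algebra.adjoin QQ (gens N Λ B) →
      j x ∈ RA L M A₀ := by
    intro x hx hxF
    obtain ⟨A, hA, h3⟩ := hRS x hxF
    exact (hred x hx A hA).2 h3
  have hne : A₀.Nonempty := by
    rw [Finset.nonempty_iff_ne_empty]
    rintro rfl
    apply hpL
    refine alg_mono ?_ _ hA₀
    exact XA_le L M le_rfl (by simp)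
  obtain ⟨b, hb⟩ := hne
  have hbB : b ∈ B := hA₀B hb
  obtain ⟨hKc, hMc, hKL, hKM, hd, hk, hsim, hpM⟩ := h1 b (hB2 b hbB)
  by_cases hA' : A₀.erase b = ∅
  · -- one base
    have hA₀b : A₀ = {b} := by
      rw [← Finset.insert_erase hb, hA']
      rfl
    refine ⟨F, inferInstance, inferInstance, j, K b, L, M b, hKc, hLc, hMc, hKL, hKM, hd, hk, hpL,
      hpM, ?_, ?_⟩
    · intro x hx hxF
      have h3 : XA L M A₀ ≤ L ⊔ M b := by
        apply XA_le L M le_sup_left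
        intro a ha
        rw [hA₀b, Finset.mem_singleton] at ha
        rw [ha]
        exact le_sup_right
      exact h3 (hFS' x hx hxF)
    · intro x hx hxF
      refine RA_le L M (Y := Rg L (M b)) (fun y hy => mem_Rg_left hy) ?_ (hRS' x hx hxF)
      intro a ha y hy
      rw [hA₀b, Finset.mem_singleton] at ha
      rw [ha] at hy
      exact mem_Rg_right hy
  · -- several bases
    set A' := A₀.erase b with hA'def
    have hA'A₀ : A' ⊆ A₀ := Finset.erase_subset b A₀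
    have hA'B : (A' : Set ℕ) ⊆ B := (Finset.coe_subset.2 hA'A₀).trans hA₀B
    have hbA₀ : ({b} : Finset ℕ) ⊆ A₀ := Finset.singleton_subset_iff.2 hb
    have hbB' : (({b} : Finset ℕ) : Set ℕ) ⊆ B := (Finset.coe_subset.2 hbA₀).trans hA₀B
    have hbA' : b ∉ A' := Finset.notMem_erase b A₀
    have hdisj : Disjoint A' {b} := Finset.disjoint_singleton_right.2 hbA'
    obtain ⟨YA, YD, hLA, hLD, hMA, hMD, hcA, hcD, hdY⟩ := h2 A' {b} (hge _ hA'B) (hge _ hbB')
      (hB.ti hA'B hbB' hB2 hdisj)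
    have hpA : ¬ IsAlgebraic (ac (XA L M A') ⊤) (j Real.pi) := by
      intro h3
      refine hmin A' hA'A₀ ?_ (alg_ac _ _ h3)
      intro h4
      rw [h4] at hbA'
      exact hbA' hb
    have hpD : ¬ IsAlgebraic (ac (XA L M {b}) ⊤) (j Real.pi) := by
      intro h3
      refine hmin {b} hbA₀ ?_ (alg_ac _ _ h3)
      intro h4
      apply hA'
      rw [hA'def, ← h4]
      simp
    have hXA' : ac (XA L M A') ⊤ ≤ YA := by
      intro x hx
      exact hcA x (alg_mono (XA_le L M hLA hMA) x (mem_ac.1 hx).1)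
    have hXD' : ac (XA L M {b}) ⊤ ≤ YD := by
      intro x hx
      exact hcD x (alg_mono (XA_le L M hLD hMD) x (mem_ac.1 hx).1)
    have hLXA : L ≤ ac (XA L M A') ⊤ := (L_le_XA L M A').trans (SGA_.le_ac F _)
    have hLXD : L ≤ ac (XA L M {b}) ⊤ := (L_le_XA L M {b}).trans (SGA_.le_ac F _)
    have hcase : ∀ a ∈ A₀, M a ≤ ac (XA L M A') ⊤ ∨ M a ≤ ac (XA L M {b}) ⊤ := by
      intro a ha
      by_cases hab : a = b
      · right
        exact (M_le_XA L M (by rw [hab]; simp)).trans (SGA_.le_ac F _)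
      · left
        exact (M_le_XA L M (Finset.mem_erase.2 ⟨hab, ha⟩)).trans (SGA_.le_ac F _)
    refine ⟨F, inferInstance, inferInstance, j, L, ac (XA L M A') ⊤, ac (XA L M {b}) ⊤, hLc,
      SGA_.isAlgClosed_ac F _, SGA_.isAlgClosed_ac F _, hLXA, hLXD, ?_, hQL, hpA, hpD, ?_, ?_⟩
    · intro d a b ha hb hI hs
      exact hdY d a b (fun i => hXA' (ha i)) (fun i => hXD' (hb i)) hI hs
    · intro x hx hxF
      have h3 : XA L M A₀ ≤ ac (XA L M A') ⊤ ⊔ ac (XA L M {b}) ⊤ := by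
        apply XA_le L M (hLXA.trans le_sup_left)
        intro a ha
        rcases hcase a ha with h4 | h4
        · exact h4.trans le_sup_left
        · exact h4.trans le_sup_right
      exact h3 (hFS' x hx hxF)
    · intro x hx hxF
      refine RA_le L M (Y := Rg (ac (XA L M A') ⊤) (ac (XA L M {b}) ⊤))
        (fun y hy => mem_Rg_left (hLXA hy)) ?_ (hRS' x hx hxF)
      intro a ha y hy
      rcases hcase a ha with h4 | h4
      · exact mem_Rg_left (h4 hy)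
      · exact mem_Rg_right (h4 hy)

end Pool.Agent.SRF
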