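import Pool.Agent.SRF.FBC

/-!
# SRF FBD: the theorems for multiplicatively independent sets of bases
-/

set_option autoImplicit false

namespace Pool.Agent.SRF

open Pool.Agent.SGL IntermediateField Polynomial Filter

theorem adjoin_kappa (κ : IntermediateField ℚ ℂ) (hκ : ∀ x ∈ κ, IsAlgebraic ℚ x) (G : Set ℂ)
    {x : ℂ} (hx : x ∈ Algebra.adjoin κ G) : x ∈ Algebra.adjoin QQ G := by
  let T : Subalgebra κ ℂ := { (Algebra.adjoin QQ G).toSubring with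
    algebraMap_mem' := fun c => (Algebra.adjoin QQ G).algebraMap_mem
      ⟨(c : ℂ), mem_algebraicClosure_iff.2 (hκ c c.2)⟩ }
  have h1 : Algebra.adjoin κ G ≤ T := by
    rw [Algebra.adjoin_le_iff]
    intro z hz
    exact Algebra.subset_adjoin (R := QQ) hz
  exact h1 hx

/-- **Siegel's theorem for the digits of `π`**, over any field of constants and for all
multiplicatively independent sets of bases -/
theorem siegelB (N Λ : ℕ → ℕ) (hN : Tendsto N atTop atTop) (hΛ : Tendsto Λ atTop atTop)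
    (κ : IntermediateField ℚ ℂ) (hκ : ∀ x ∈ κ, IsAlgebraic ℚ x)
    (E : IntermediateField QQ ℂ) (hfg : E.FG)
    (halg : ∀ x ∈ E, IsAlgebraic ℚ⟮(Real.pi : ℂ)⟯ x) (B : Set ℕ) (hB2 : ∀ b ∈ B, 2 ≤ b)
    (hB : MI B) :
    ∃ x ∈ E, ∃ y ∈ E, ∃ c ∈ κ, ∃ δ ∈ κ, c ≠ 0 ∧ δ ≠ 0 ∧ x ^ 2 - δ * y ^ 2 = c ∧
      ∀ z ∈ E, z ∈ Algebra.adjoin κ (gens N Λ B) → z ∈ Algebra.adjoin κ {x, y} := by
  classical
  have hκ' : κ ≤ algebraicClosure ℚ ℂ := fun x hx => mem_algebraicClosure_iff.2 (hκ x hx)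
  let : Algebra κ QQ := (IntermediateField.inclusion hκ').toRingHom.toAlgebra
  have htow : IsScalarTower κ QQ ℂ := IsScalarTower.of_algebraMap_eq (fun _ => rfl)
  have hRR : Algebra.adjoin κ (gens N Λ B) ≤ Algebra.adjoin κ (GC N Λ) := by
    apply Algebra.adjoin_mono
    rintro z ⟨b, _, b', C, y, hb', _, hy, rfl⟩
    exact ⟨b', y, hb', ⟨C, hy⟩, rfl⟩
  by_cases hex : ∃ v ∈ E, v ∈ Algebra.adjoin κ (gens N Λ B) ∧ Transcendental ℚ v
  · obtain ⟨v, hvE, hvR, hvt⟩ := hex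
    obtain ⟨F, _, _, j, K, L, M, hKc, hLc, hMc, hKL, hKM, hd, hk, hpL, hpM, hF, hR⟩ :=
      sitB N Λ hN hΛ B hB2 hB v
        (algebra_adjoin_le_adjoin QQ _ (adjoin_kappa κ hκ _ hvR)) (halg v hvE) hvt
    exact one_baseS N Λ hN hΛ κ (Algebra.adjoin κ (gens N Λ B)) hRR j K L M hKc hKL hKM hd hk
      hpL hpM E hfg (fun x hx hxE => hR x (halg x hxE) (adjoin_kappa κ hκ _ hx)) halg hvE hvt hvR
  · push Not at hex
    refine ⟨1, E.one_mem, 0, E.zero_mem, 1, κ.one_mem, 1, κ.one_mem, one_ne_zero, one_ne_zero,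
      by ring, ?_⟩
    intro z hzE hzR
    have h1 : z ∈ κ := by
      refine algS N Λ hN hΛ κ _ hRR hzR ?_
      have := hex z hzE hzR
      unfold Transcendental at this
      exact not_not.1 this
    exact (Algebra.adjoin κ {1, 0}).algebraMap_mem ⟨z, h1⟩

/-- **Faltings' theorem for the digits of `π`**, for all multiplicatively independent sets of
bases -/
theorem faltingsB (N Λ : ℕ → ℕ) (hN : Tendsto N atTop atTop) (hΛ : Tendsto Λ atTop atTop)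
    (E : IntermediateField QQ ℂ) (hfg : E.FG)
    (halg : ∀ x ∈ E, IsAlgebraic ℚ⟮(Real.pi : ℂ)⟯ x) (B : Set ℕ) (hB2 : ∀ b ∈ B, 2 ≤ b)
    (hB : MI B) :
    (∀ ω₁ ω₂ : Ω[(E ⊓ adjoin QQ (gens N Λ B) : IntermediateField QQ ℂ)⁄QQ],
      Reg QQ ω₁ → Reg QQ ω₂ → ∃ a₁ a₂ : QQ, ¬ (a₁ = 0 ∧ a₂ = 0) ∧ a₁ • ω₁ + a₂ • ω₂ = 0) ∧
    ∀ v ∈ E, v ∈ Algebra.adjoin QQ (gens N Λ B) → Transcendental ℚ v →
      ∃ s : ℂ, E ⊓ adjoin QQ (gens N Λ B) = QQ⟮s⟯ := by
  classical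
  have hQQ := isAlgClosed_QQ
  have hcur : Cur QQ (E ⊓ adjoin QQ (gens N Λ B) : IntermediateField QQ ℂ) :=
    cur E hfg halg _ inf_le_left
  constructor
  · intro ω₁ ω₂ h₁ h₂
    by_contra hcon
    push Not at hcon
    have hind : ∀ a₁ a₂ : QQ, a₁ • ω₁ + a₂ • ω₂ = 0 → a₁ = 0 ∧ a₂ = 0 := by
      intro a₁ a₂ h3
      by_contra h4
      exact hcon a₁ a₂ (fun h5 h6 => h4 ⟨h5, h6⟩) h3
    have hω₁ : ω₁ ≠ 0 := by
      rintro rfl
      exact one_ne_zero (hind 1 0 (by rw [smul_zero, zero_smul, add_zero])).1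
    obtain ⟨f, hf⟩ := exists_transc hω₁
    have hfE : (f : ℂ) ∈ E := f.2.1
    have hft : Transcendental ℚ (f : ℂ) := by
      intro h3
      apply hf
      have h4 : (f : ℂ) ∈ algebraicClosure ℚ ℂ := mem_algebraicClosure_iff.2 h3
      have h5 : f = algebraMap QQ _ ⟨f, h4⟩ := rfl
      rw [h5]
      exact isAlgebraic_algebraMap _
    obtain ⟨F, _, _, j, K, L, M, hKc, hLc, hMc, hKL, hKM, hd, hk, hpL, hpM, hF, hR⟩ :=
      sitB N Λ hN hΛ B hB2 hB (f : ℂ) f.2.2 (halg _ hfE) hft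
    rcases falF F K L M hKc hLc hKL hKM hd QQ
      (E ⊓ adjoin QQ (gens N Λ B) : IntermediateField QQ ℂ) (j.comp (algebraMap _ ℂ))
      (fun c => hk _ (mem_algebraicClosure_iff.1 c.2))
      (fun x => hF x (halg x x.2.1) x.2.2) hcur hf h₁ h₂ hind with h3 | h3
    · exact hpL (pi_down j L (halg f hfE) hft (isAlgebraic_algebraMap (⟨_, h3 f⟩ : L)))
    · exact hpM (pi_down j M (halg f hfE) hft (isAlgebraic_algebraMap (⟨_, h3 f⟩ : M)))
  · intro v hvE hvR hvt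
    have hvF : v ∈ adjoin QQ (gens N Λ B) := algebra_adjoin_le_adjoin QQ _ hvR
    obtain ⟨F, _, _, j, K, L, M, hKc, hLc, hMc, hKL, hKM, hd, hk, hpL, hpM, hF, hR⟩ :=
      sitB N Λ hN hΛ B hB2 hB v hvF (halg v hvE) hvt
    have hv₁ : v ∈ E ⊓ adjoin QQ (gens N Λ B) := ⟨hvE, hvF⟩
    have hvt₁ : Transcendental QQ
        (⟨v, hv₁⟩ : (E ⊓ adjoin QQ (gens N Λ B) : IntermediateField QQ ℂ)) := by
      intro h
      apply hvt
      apply alg_of_algQQ
      have := h.algebraMap (A := ℂ)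
      exact this
    obtain ⟨s₀, hs₀⟩ : ∃ s : (E ⊓ adjoin QQ (gens N Λ B) : IntermediateField QQ ℂ),
        QQ⟮s⟯ = ⊤ := by
      by_contra hcon
      push Not at hcon
      have h1 := genF F K L M hKc hKL hKM hd QQ
        (E ⊓ adjoin QQ (gens N Λ B) : IntermediateField QQ ℂ)
        (j.comp (algebraMap _ ℂ)) (fun c => hk _ (mem_algebraicClosure_iff.1 c.2))
        (fun x => hF x (halg x x.2.1) x.2.2) hcur hcon hvt₁ (hR v (halg v hvE) hvR)
      rcases h1 with h1 | h1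
      · exact hpL (pi_down j L (halg v hvE) hvt (isAlgebraic_algebraMap (⟨_, h1⟩ : L)))
      · exact hpM (pi_down j M (halg v hvE) hvt (isAlgebraic_algebraMap (⟨_, h1⟩ : M)))
    refine ⟨s₀, ?_⟩
    have h1 := congrArg IntermediateField.lift hs₀
    rw [IntermediateField.lift_top, lift_adjoin_simple] at h1
    exact h1.symm

end Pool.Agent.SRF
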