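import Pool.Agent.SRF.FBD

/-!
# SRF FBE: the elements of the ring are Laurent polynomials in a generator of the field
-/

set_option autoImplicit false

namespace Pool.Agent.SRF

open Pool.Agent.SGL IntermediateField Polynomial Filter

theorem ringB (N Λ : ℕ → ℕ) (hN : Tendsto N atTop atTop) (hΛ : Tendsto Λ atTop atTop)
    (E : IntermediateField QQ ℂ) (hfg : E.FG)
    (halg : ∀ x ∈ E, IsAlgebraic ℚ⟮(Real.pi : ℂ)⟯ x) (B : Set ℕ) (hB2 : ∀ b ∈ B, 2 ≤ b)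
    (hB : MI B) {v : ℂ} (hvE : v ∈ E) (hvR : v ∈ Algebra.adjoin QQ (gens N Λ B))
    (hvt : Transcendental ℚ v) :
    ∃ s : ℂ, E ⊓ adjoin QQ (gens N Λ B) = QQ⟮s⟯ ∧
      ∀ x ∈ E, x ∈ Algebra.adjoin QQ (gens N Λ B) → x ∈ Algebra.adjoin QQ {s, s⁻¹} := by
  classical
  have hQQ := isAlgClosed_QQ
  have hRF : ∀ x ∈ Algebra.adjoin QQ (gens N Λ B), x ∈ adjoin QQ (gens N Λ B) :=
    fun x hx => algebra_adjoin_le_adjoin QQ _ hx
  obtain ⟨F, _, _, j, K, L, M, hKc, hLc, hMc, hKL, hKM, hd, hk, hpL, hpM, hF, hR⟩ :=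
    sitB N Λ hN hΛ B hB2 hB v (hRF v hvR) (halg v hvE) hvt
  have hkQ : ∀ c : QQ, j (algebraMap QQ ℂ c) ∈ K := fun c => hk _ (mem_algebraicClosure_iff.1 c.2)
  set E₁ : IntermediateField QQ ℂ := E ⊓ adjoin QQ (gens N Λ B) with hE₁
  have hcur : Cur QQ E₁ := cur E hfg halg _ inf_le_left
  have hv₁ : v ∈ E₁ := ⟨hvE, hRF v hvR⟩
  have hvt₁ : Transcendental QQ (⟨v, hv₁⟩ : E₁) := by
    intro h
    apply hvt
    apply alg_of_algQQ
    have := h.algebraMap (A := ℂ)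
    exact this
  let φ : E₁ →+* F := j.comp (algebraMap E₁ ℂ)
  have hφ : ∀ x : E₁, φ x ∈ L ⊔ M := fun x => hF x (halg x x.2.1) x.2.2
  have hnt : ∀ (N : Subfield F), ¬ IsAlgebraic N (j Real.pi) → ∀ z ∈ E, Transcendental ℚ z →
      ¬ IsAlgebraic N (j z) := fun N hN z hz hzt h => hN (pi_down j N (halg z hz) hzt h)
  obtain ⟨s₀, hs₀⟩ : ∃ s : E₁, QQ⟮s⟯ = ⊤ := by
    by_contra hcon
    push Not at hcon
    have h1 := genF F K L M hKc hKL hKM hd QQ E₁ φ (fun c => hkQ c) hφ hcur hcon hvt₁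
      (hR v (halg v hvE) hvR)
    rcases h1 with h1 | h1
    · exact hnt L hpL v hvE hvt (isAlgebraic_algebraMap (⟨_, h1⟩ : L))
    · exact hnt M hpM v hvE hvt (isAlgebraic_algebraMap (⟨_, h1⟩ : M))
  have hs₀t : Transcendental QQ s₀ := by
    intro h
    apply hvt₁
    have h1 : (⟨v, hv₁⟩ : E₁) ∈ QQ⟮s₀⟯ := by
      rw [hs₀]
      trivial
    have h2 : Algebra.IsAlgebraic QQ QQ⟮s₀⟯ := isAlgebraic_adjoin_simple h.isIntegral
    have h3 := h2.isAlgebraic (⟨_, h1⟩ : QQ⟮s₀⟯)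
    exact h3.algebraMap (A := E₁)
  have hs₀t' : Transcendental ℚ (s₀ : ℂ) := by
    intro h
    apply hs₀t
    have h1 : (s₀ : ℂ) ∈ algebraicClosure ℚ ℂ := mem_algebraicClosure_iff.2 h
    have h2 : s₀ = algebraMap QQ E₁ ⟨s₀, h1⟩ := rfl
    rw [h2]
    exact isAlgebraic_algebraMap _
  let : Algebra QQ F := (j.comp (algebraMap QQ ℂ)).toAlgebra
  let ε : RatFunc QQ →ₐ[QQ] E₁ :=
    (QQ⟮s₀⟯.val).comp (RatFunc.algEquivOfTranscendental s₀ hs₀t).toAlgHom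
  have hεX : ε RatFunc.X = s₀ := RatFunc.algEquivOfTranscendental_X s₀ hs₀t
  have hεs : Function.Surjective ε := by
    intro x
    have h1 : x ∈ QQ⟮s₀⟯ := by
      rw [hs₀]
      trivial
    obtain ⟨r, hr⟩ := (RatFunc.algEquivOfTranscendental s₀ hs₀t).surjective ⟨_, h1⟩
    refine ⟨r, ?_⟩
    show ((RatFunc.algEquivOfTranscendental s₀ hs₀t r : QQ⟮s₀⟯) : E₁) = _
    rw [hr]
  let jj : E₁ →ₐ[QQ] F := { φ with commutes' := fun _ => rfl }
  let Φ : RatFunc QQ →ₐ[QQ] F := jj.comp ε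
  have hΦX : Φ RatFunc.X = j (s₀ : ℂ) := by
    show j ((ε RatFunc.X : E₁) : ℂ) = _
    rw [hεX]
  obtain ⟨s, hst, hstop, hs⟩ := lau2 K L M hKc hKL hKM hd (fun c => hkQ c) Φ
    (by rw [hΦX]; exact hnt L hpL _ s₀.2.1 hs₀t')
    (by rw [hΦX]; exact hnt M hpM _ s₀.2.1 hs₀t')
    (fun r => hφ (ε r))
    (by
      obtain ⟨r, hr⟩ := hεs ⟨v, hv₁⟩
      refine ⟨r, ?_, ?_⟩
      · show j ((ε r : E₁) : ℂ) ∈ _
        rw [hr]
        exact hR v (halg v hvE) hvR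
      · rintro c rfl
        rw [AlgHom.commutes] at hr
        apply hvt₁
        rw [← hr]
        exact isAlgebraic_algebraMap _)
  have hgen : QQ⟮ε s⟯ = ⊤ := by
    rw [eq_top_iff]
    intro w _
    obtain ⟨r, rfl⟩ := hεs w
    have h1 : r ∈ QQ⟮s⟯ := by
      rw [hstop]
      trivial
    have h2 : QQ⟮s⟯ ≤ QQ⟮ε s⟯.comap ε := by
      rw [adjoin_simple_le_iff]
      exact mem_adjoin_simple_self QQ (ε s)
    exact h2 h1
  refine ⟨(ε s : E₁), ?_, ?_⟩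
  · have h1 := congrArg IntermediateField.lift hgen
    rw [IntermediateField.lift_top, lift_adjoin_simple] at h1
    exact h1.symm
  · intro x hxE hxR
    have hx₁ : x ∈ E₁ := ⟨hxE, hRF x hxR⟩
    obtain ⟨r, hr⟩ := hεs ⟨x, hx₁⟩
    have h1 := hs r (by
      show j ((ε r : E₁) : ℂ) ∈ _
      rw [hr]
      exact hR x (halg x hxE) hxR)
    let ε' : RatFunc QQ →ₐ[QQ] ℂ := (E₁.val).comp ε
    have h2 : ε' r ∈ (Algebra.adjoin QQ {s, s⁻¹}).map ε' := ⟨r, h1, rfl⟩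
    rw [AlgHom.map_adjoin, Set.image_pair, map_inv₀] at h2
    have h3 : ε' r = x := by
      show ((ε r : E₁) : ℂ) = x
      rw [hr]
    rw [h3] at h2
    exact h2

end Pool.Agent.SRF
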