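import Pool.Agent.SRF.HOB
import Pool.Agent.SGL.Main

/-!
# SRF GEN: integral points over `L ⊗ M` on curves of positive genus
-/

set_option autoImplicit false

namespace Pool.Agent.SRF

open IntermediateField Polynomial TensorProduct

section

variable {k E : Type} [Field k] [Field E] [Algebra k E]

/-- a primitive relation -/
theorem rel_prim_aux {f y : E} (l : k) (hfl : f - algebraMap k E l ≠ 0) (n N : ℕ) :
    ∀ p : ℕ → k[X], ∑ i ∈ Finset.range (n + 1), aeval f (p i) * y ^ i = 0 →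
      (∃ i ≤ n, p i ≠ 0 ∧ (p i).natDegree ≤ N) →
      ∃ q : ℕ → k[X], ∑ i ∈ Finset.range (n + 1), aeval f (q i) * y ^ i = 0 ∧
        ∃ i ≤ n, (q i).eval l ≠ 0 := by
  induction N with
  | zero =>
    rintro p hp ⟨i, hi, h0, hd⟩
    refine ⟨p, hp, i, hi, ?_⟩
    rw [eq_C_of_natDegree_le_zero hd, eval_C]
    intro h1
    apply h0
    rw [eq_C_of_natDegree_le_zero hd, h1, C_0]
  | succ N ih =>
    rintro p hp ⟨i, hi, h0, hd⟩
    by_cases hex : ∃ i ≤ n, (p i).eval l ≠ 0
    · exact ⟨p, hp, hex⟩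
    push Not at hex
    have h1 : ∀ i, ∃ q : k[X], i ≤ n → p i = (X - C l) * q := by
      intro i
      by_cases hi : i ≤ n
      · obtain ⟨q, hq⟩ := dvd_iff_isRoot.2 (hex i hi)
        exact ⟨q, fun _ => hq⟩
      · exact ⟨0, fun h => absurd h hi⟩
    choose q hq using h1
    apply ih q
    · have h2 : (f - algebraMap k E l) * ∑ i ∈ Finset.range (n + 1), aeval f (q i) * y ^ i = 0 := by
        rw [← hp, Finset.mul_sum]
        refine Finset.sum_congr rfl (fun i hi => ?_)
        rw [Finset.mem_range] at hi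
        rw [hq i (by omega), map_mul, map_sub, aeval_X, aeval_C]
        ring
      rcases mul_eq_zero.1 h2 with h3 | h3
      · exact absurd h3 hfl
      · exact h3
    · have hqi : q i ≠ 0 := by
        intro h
        apply h0
        rw [hq i hi, h, mul_zero]
      refine ⟨i, hi, hqi, ?_⟩
      have h3 := hd
      rw [hq i hi, natDegree_mul (X_sub_C_ne_zero l) hqi, natDegree_X_sub_C] at h3
      omega

/-- a relation over `k[f]` with a unit coefficient -/
theorem rel_prim [CharZero k] {V : ValuationSubring E} (hV : ∀ c : k, algebraMap k E c ∈ V)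
    {f y : E} (hf : Transcendental k f) (l : k) (hfl : V.valuation (f - algebraMap k E l) < 1)
    (hy : IsAlgebraic k⟮f⟯ y) :
    ∃ (n : ℕ) (a : ℕ → E), (∀ i, a i ∈ Algebra.adjoin k {f}) ∧
      (∃ i ≤ n, V.valuation (a i) = 1) ∧ ∑ i ∈ Finset.range (n + 1), a i * y ^ i = 0 := by
  obtain ⟨n, p, h1, h2⟩ := rel_exists hy
  have hfl0 : f - algebraMap k E l ≠ 0 := by
    intro h
    apply hf
    rw [sub_eq_zero.1 h]
    exact isAlgebraic_algebraMap l
  have hfV : f ∈ V := by
    have h3 := V.add_mem _ _ ((V.valuation_le_one_iff _).1 hfl.le) (hV l)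
    rwa [sub_add_cancel] at h3
  have hex : ∃ i ≤ n, p i ≠ 0 := by
    by_contra hcon
    push Not at hcon
    apply h2
    apply Finset.sum_eq_zero
    intro i hi
    rw [Finset.mem_range] at hi
    rw [hcon i (by omega), map_zero, zero_mul]
  obtain ⟨i, hi, h0⟩ := hex
  obtain ⟨q, hq, j, hj, hqj⟩ := rel_prim_aux l hfl0 n (p i).natDegree p h1 ⟨i, hi, h0, le_rfl⟩
  refine ⟨n, fun i => aeval f (q i), fun i => ?_, ⟨j, hj, ?_⟩, hq⟩
  · rw [Algebra.adjoin_singleton_eq_range_aeval]
    exact ⟨q i, rfl⟩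
  · have h3 : aeval f (q j) = algebraMap k E ((q j).eval l) +
        (f - algebraMap k E l) * aeval f (q j /ₘ (X - C l)) := by
      have h4 := modByMonic_add_div (q j) (X - C l)
      rw [modByMonic_X_sub_C_eq_C_eval] at h4
      conv_lhs => rw [← h4]
      rw [map_add, map_mul, aeval_C, map_sub, aeval_X, aeval_C]
    simp only
    rw [h3, Valuation.map_add_eq_of_lt_left, val_const hV hqj]
    rw [val_const hV hqj, map_mul]
    calc V.valuation (f - algebraMap k E l) * V.valuation (aeval f (q j /ₘ (X - C l)))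
        ≤ V.valuation (f - algebraMap k E l) * 1 :=
          mul_le_mul_right ((V.valuation_le_one_iff _).2 (Ox_aeval f _ V hV hfV)) _
      _ < 1 := by rw [mul_one]; exact hfl

end

section

theorem int_range {R Q : Type} [CommRing R] [Field Q] (φ : R →+* Q) (z : Q)
    (h : IsIntegral φ.range z) : φ.IsIntegralElem z := by
  obtain ⟨P, hP, hPz⟩ := h
  obtain ⟨S, hS, _, hSm⟩ := Polynomial.lifts_and_degree_eq_and_monic
    (f := φ.rangeRestrict) (p := P)
    (by
      rw [Polynomial.lifts_iff_coeff_lifts]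
      intro n
      obtain ⟨c, hc⟩ := (P.coeff n).2
      exact ⟨c, Subtype.ext hc⟩) hP
  refine ⟨S, hSm, ?_⟩
  rw [← hS, Polynomial.eval₂_map] at hPz
  exact hPz

/-- an integrally closed domain is the intersection of valuation rings -/
theorem T_of_val {T Q : Type} [CommRing T] [Field Q] [Algebra T Q] [IsFractionRing T Q]
    [IsIntegrallyClosed T] (z : Q)
    (h : ∀ W : ValuationSubring Q, (∀ t : T, algebraMap T Q t ∈ W) → z ∈ W) :
    ∃ t : T, algebraMap T Q t = z := by
  have h1 := int_of_val (algebraMap T Q).range z (fun W hW => h W (fun t => hW ⟨t, rfl⟩))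
  have h2 : IsIntegral T z := int_range _ z h1
  exact IsIntegrallyClosed.isIntegral_iff.1 h2

theorem comap_lt {E Q : Type} [Field E] [Field Q] (ψ : E →+* Q) (W : ValuationSubring Q) (a : E) :
    (W.comap ψ).valuation a < 1 ↔ W.valuation (ψ a) < 1 := by
  by_cases ha : a = 0
  · rw [ha, map_zero, map_zero, map_zero]
    exact ⟨fun _ => zero_lt_one, fun _ => zero_lt_one⟩
  have hψa : ψ a ≠ 0 := (_root_.map_ne_zero ψ).2 ha
  have h1 : ∀ {F : Type} [Field F] (V : ValuationSubring F) (b : F), b ≠ 0 →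
      (V.valuation b < 1 ↔ b⁻¹ ∉ V) := by
    intro F _ V b hb
    rw [← V.valuation_le_one_iff, map_inv₀, not_le]
    exact (one_lt_inv₀ (zero_lt_iff.2 ((_root_.map_ne_zero V.valuation).2 hb))).symm
  rw [h1 _ a ha, h1 _ _ hψa, ← map_inv₀]
  rfl

theorem comap_mem {E Q : Type} [Field E] [Field Q] (ψ : E →+* Q) (W : ValuationSubring Q) (a : E) :
    a ∈ W.comap ψ ↔ ψ a ∈ W := Iff.rfl

variable {k E K L M Q : Type} [Field k] [Field E] [Algebra k E] [Field K] [Field L] [Field M]
  [Algebra K L] [Algebra K M] [Field Q] [Algebra (L ⊗[K] M) Q] [IsFractionRing (L ⊗[K] M) Q]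

omit [IsFractionRing (L ⊗[K] M) Q] in
theorem aev (κ : k →+* K) (ψ : E →+* Q)
    (hψ : ∀ c : k, ψ (algebraMap k E c) = algebraMap (L ⊗[K] M) Q (algebraMap K (L ⊗[K] M) (κ c)))
    {f : E} {fT : L ⊗[K] M} (hf : algebraMap (L ⊗[K] M) Q fT = ψ f) (p : k[X]) :
    algebraMap (L ⊗[K] M) Q (aeval fT (p.map κ)) = ψ (aeval f p) := by
  rw [aeval_def, aeval_def, eval₂_map, hom_eval₂, hom_eval₂, hf]
  congr 1
  ext c
  exact (hψ c).symm

/-- derivations commute with the map -/
theorem dlift [CharZero k] (κ : k →+* K) (ψ : E →+* Q)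
    (hψ : ∀ c : k, ψ (algebraMap k E c) = algebraMap (L ⊗[K] M) Q (algebraMap K (L ⊗[K] M) (κ c)))
    {f : E} {fT : L ⊗[K] M} (hf : algebraMap (L ⊗[K] M) Q fT = ψ f)
    (D : Derivation k E E) (hD : D f = 1) (D' : Derivation K (L ⊗[K] M) (L ⊗[K] M))
    {y : E} (hyalg : IsAlgebraic k⟮f⟯ y) {yT : L ⊗[K] M}
    (hy : algebraMap (L ⊗[K] M) Q yT = ψ y) :
    algebraMap (L ⊗[K] M) Q (D' yT) = ψ (D y) * algebraMap (L ⊗[K] M) Q (D' fT) := by
  obtain ⟨n, p, h1, h2⟩ := rel_exists hyalg
  have h3 := bivar D f y n p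
  rw [h1, map_zero, hD] at h3
  have hz : ∑ i ∈ Finset.range (n + 1), aeval fT ((p i).map κ) * yT ^ i = 0 := by
    apply IsFractionRing.injective (L ⊗[K] M) Q
    rw [map_zero, map_sum, ← map_zero ψ, ← h1, map_sum]
    refine Finset.sum_congr rfl (fun i _ => ?_)
    rw [map_mul, map_mul, map_pow, map_pow, aev κ ψ hψ hf, hy]
  have h4 := bivar D' fT yT n (fun i => (p i).map κ)
  rw [hz, map_zero] at h4
  have h5 := congrArg (algebraMap (L ⊗[K] M) Q) h4
  rw [map_zero, map_add, smul_eq_mul, smul_eq_mul, map_mul, map_mul] at h5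
  have hA : algebraMap (L ⊗[K] M) Q (∑ i ∈ Finset.range (n + 1),
      aeval fT (derivative ((p i).map κ)) * yT ^ i) =
      ψ (∑ i ∈ Finset.range (n + 1), aeval f (derivative (p i)) * y ^ i) := by
    rw [map_sum, map_sum]
    refine Finset.sum_congr rfl (fun i _ => ?_)
    rw [derivative_map, map_mul, map_mul, map_pow, map_pow, aev κ ψ hψ hf, hy]
  have hB : algebraMap (L ⊗[K] M) Q (∑ i ∈ Finset.range (n + 1),
      aeval fT ((p i).map κ) * (i * yT ^ (i - 1))) =
      ψ (∑ i ∈ Finset.range (n + 1), aeval f (p i) * (i * y ^ (i - 1))) := by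
    rw [map_sum, map_sum]
    refine Finset.sum_congr rfl (fun i _ => ?_)
    rw [map_mul, map_mul, map_mul, map_mul, map_pow, map_pow, aev κ ψ hψ hf, hy, map_natCast,
      map_natCast]
  rw [hA, hB] at h5
  have h6 := congrArg ψ h3
  rw [map_zero, map_add, smul_eq_mul, smul_eq_mul, mul_one, map_mul] at h6
  have h7 : ψ (∑ i ∈ Finset.range (n + 1), aeval f (p i) * (i * y ^ (i - 1))) ≠ 0 :=
    (_root_.map_ne_zero ψ).2 h2
  apply mul_left_cancel₀ h7
  linear_combination algebraMap (L ⊗[K] M) Q (D' fT) * h6 - h5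

theorem map_Ox (κ : k →+* K) (ψ : E →+* Q) [IsIntegrallyClosed (L ⊗[K] M)]
    (hψ : ∀ c : k, ψ (algebraMap k E c) = algebraMap (L ⊗[K] M) Q (algebraMap K (L ⊗[K] M) (κ c)))
    {f : E} {fT : L ⊗[K] M} (hf : algebraMap (L ⊗[K] M) Q fT = ψ f) {y : E} (hy : y ∈ Ox k f) :
    ∃ yT : L ⊗[K] M, algebraMap (L ⊗[K] M) Q yT = ψ y := by
  apply T_of_val
  intro W hW
  have h1 : y ∈ W.comap ψ := by
    apply hy
    · intro c
      rw [comap_mem, hψ]
      exact hW _
    · rw [comap_mem, ← hf]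
      exact hW _
  exact h1

open scoped algebraAdjoinAdjoin in
theorem frac_Ox {f y : E} (hy : IsAlgebraic k⟮f⟯ y) :
    ∃ a b : E, a ∈ Ox k f ∧ b ∈ Ox k f ∧ b ≠ 0 ∧ y = a / b := by
  have h1 : IsAlgebraic (Algebra.adjoin k {f}) y :=
    (IsFractionRing.isAlgebraic_iff (Algebra.adjoin k {f}) k⟮f⟯ E).2 hy
  obtain ⟨b, hb, hb2⟩ := h1.exists_integral_multiple
  have hb0 : (b : E) ≠ 0 := fun h => hb (Subtype.ext h)
  have h2 : IsIntegral (Algebra.adjoin k {f}) (algebraMap (Algebra.adjoin k {f}) E b) :=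
    isIntegral_algebraMap
  refine ⟨(b : E) * y, b, int_Ox.1 hb2, int_Ox.1 h2, hb0, ?_⟩
  rw [mul_div_cancel_left₀ _ hb0]

/-- the derivation is bounded at a valuation ring -/
theorem wbound [CharZero k] [IsIntegrallyClosed (L ⊗[K] M)] (κ : k →+* K) (ψ : E →+* Q)
    (hψ : ∀ c : k, ψ (algebraMap k E c) = algebraMap (L ⊗[K] M) Q (algebraMap K (L ⊗[K] M) (κ c)))
    (hE : Cur k E) {f : E} (hft : Transcendental k f) {fT : L ⊗[K] M}
    (hf : algebraMap (L ⊗[K] M) Q fT = ψ f)
    (D : Derivation k E E) (hD : D f = 1) (D' : Derivation K (L ⊗[K] M) (L ⊗[K] M))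
    (W : ValuationSubring Q)
    (hW : ∀ z, W.valuation (algebraMap (L ⊗[K] M) Q (D' z)) ≤
      W.valuation (algebraMap (L ⊗[K] M) Q z)) (y : E) :
    W.valuation (ψ (D y) * algebraMap (L ⊗[K] M) Q (D' fT)) ≤ W.valuation (ψ y) := by
  have hfd := hE f hft
  have halg : ∀ y : E, IsAlgebraic k⟮f⟯ y := fun y => Algebra.IsAlgebraic.isAlgebraic y
  obtain ⟨a, b, ha, hb, hb0, rfl⟩ := frac_Ox (halg y)
  obtain ⟨aT, haT⟩ := map_Ox κ ψ hψ hf ha
  obtain ⟨bT, hbT⟩ := map_Ox κ ψ hψ hf hb
  have h1 := dlift κ ψ hψ hf D hD D' (halg a) haT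
  have h2 := dlift κ ψ hψ hf D hD D' (halg b) hbT
  have h3 := hW aT
  have h4 := hW bT
  rw [h1, haT] at h3
  rw [h2, hbT] at h4
  set d := algebraMap (L ⊗[K] M) Q (D' fT) with hd
  have hψb : ψ b ≠ 0 := (_root_.map_ne_zero ψ).2 hb0
  have hvb : 0 < W.valuation (ψ b) := zero_lt_iff.2 ((_root_.map_ne_zero W.valuation).2 hψb)
  have h5 : D (a / b) = (b * D a - a * D b) / b ^ 2 := by
    rw [Derivation.leibniz_div]
    simp only [smul_eq_mul]
    field_simp
  have h6 : ψ (D (a / b)) * d = (ψ b * (ψ (D a) * d) - ψ a * (ψ (D b) * d)) / ψ b ^ 2 := by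
    rw [h5, map_div₀, map_sub, map_mul, map_mul, map_pow]
    ring
  rw [h6, map_div₀, map_div₀, map_pow, map_div₀]
  rw [div_le_div_iff₀ (pow_pos hvb 2) hvb]
  have h7 : W.valuation (ψ b * (ψ (D a) * d) - ψ a * (ψ (D b) * d)) ≤
      W.valuation (ψ a) * W.valuation (ψ b) := by
    apply Valuation.map_sub_le
    · rw [map_mul, mul_comm]
      exact mul_le_mul_left h3 _
    · rw [map_mul]
      exact mul_le_mul_right h4 _
  calc W.valuation (ψ b * (ψ (D a) * d) - ψ a * (ψ (D b) * d)) * W.valuation (ψ b)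
      ≤ (W.valuation (ψ a) * W.valuation (ψ b)) * W.valuation (ψ b) := mul_le_mul_left h7 _
    _ = W.valuation (ψ a) * W.valuation (ψ b) ^ 2 := by rw [sq, mul_assoc]

/-- the derivation maps valuation rings over the tensor product to themselves -/
theorem wint [IsAlgClosed k] [CharZero k] [IsIntegrallyClosed (L ⊗[K] M)] (κ : k →+* K)
    (ψ : E →+* Q)
    (hψ : ∀ c : k, ψ (algebraMap k E c) = algebraMap (L ⊗[K] M) Q (algebraMap K (L ⊗[K] M) (κ c)))
    (hE : Cur k E) {f : E} (hft : Transcendental k f) {fT : L ⊗[K] M}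
    (hf : algebraMap (L ⊗[K] M) Q fT = ψ f)
    (D : Derivation k E E) (hD : D f = 1) (D' : Derivation K (L ⊗[K] M) (L ⊗[K] M))
    (W : ValuationSubring Q) (hW : ∀ t, algebraMap (L ⊗[K] M) Q t ∈ W)
    (hV : W.comap ψ ≠ ⊤) {y : E} (hy : y ∈ W.comap ψ) :
    ψ (D y) * algebraMap (L ⊗[K] M) Q (D' fT) ∈ W := by
  have hfd := hE f hft
  have halg : ∀ y : E, IsAlgebraic k⟮f⟯ y := fun y => Algebra.IsAlgebraic.isAlgebraic y
  set V := W.comap ψ with hVdef
  have hVc : ∀ c : k, algebraMap k E c ∈ V := by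
    intro c
    rw [hVdef, comap_mem, hψ]
    exact hW _
  have hfV : f ∈ V := by
    rw [hVdef, comap_mem, ← hf]
    exact hW _
  obtain ⟨l, hl⟩ := residue hE ⟨hVc, hV⟩ ((V.valuation_le_one_iff _).2 hfV)
  obtain ⟨n, a, ha, hex, h0⟩ := rel_prim hVc hft l hl (halg y)
  obtain ⟨z, hz, hzy, hz1⟩ := denom (Algebra.adjoin k {f}).toSubring V
    (fun a ha => adjoin_le_W hVc hfV a ha) y ((V.valuation_le_one_iff _).2 hy) n a
    (fun i _ => ha i) hex h0
  have hz' : z ∈ Ox k f := int_Ox.1 hz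
  have hzy' : z * y ∈ Ox k f := int_Ox.1 hzy
  obtain ⟨zT, hzT⟩ := map_Ox κ ψ hψ hf hz'
  obtain ⟨wT, hwT⟩ := map_Ox κ ψ hψ hf hzy'
  have h1 := dlift κ ψ hψ hf D hD D' (halg z) hzT
  have h2 := dlift κ ψ hψ hf D hD D' (halg (z * y)) hwT
  set d := algebraMap (L ⊗[K] M) Q (D' fT) with hd
  have hz0 : z ≠ 0 := by
    intro h
    rw [h, map_zero] at hz1
    exact zero_ne_one hz1
  have hψz : ψ z ≠ 0 := (_root_.map_ne_zero ψ).2 hz0
  have hzi : (ψ z)⁻¹ ∈ W := by
    have h3 : z⁻¹ ∈ V := by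
      rw [← V.valuation_le_one_iff, map_inv₀, hz1, inv_one]
    rw [← map_inv₀]
    exact h3
  have h3 : ψ (D y) * d = (ψ z)⁻¹ * (algebraMap (L ⊗[K] M) Q (D' wT) -
      ψ y * algebraMap (L ⊗[K] M) Q (D' zT)) := by
    rw [h1, h2, Derivation.leibniz, smul_eq_mul, smul_eq_mul, map_add, map_mul, map_mul]
    field_simp
    ring
  rw [h3]
  refine W.mul_mem _ _ hzi ?_
  exact sub_mem (hW _) (W.mul_mem _ _ hy (hW _))

/-- **integral points on a curve of positive genus** -/
theorem gen [IsAlgClosed k] [CharZero k] [IsAlgClosed K] [CharZero K]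
    [IsIntegrallyClosed (L ⊗[K] M)] (κ : k →+* K) (ψ : E →+* Q)
    (hψ : ∀ c : k, ψ (algebraMap k E c) = algebraMap (L ⊗[K] M) Q (algebraMap K (L ⊗[K] M) (κ c)))
    (hE : Cur k E) (hne : ∀ s : E, k⟮s⟯ ≠ ⊤) {f : E} (hft : Transcendental k f) {fT : L ⊗[K] M}
    (hf : algebraMap (L ⊗[K] M) Q fT = ψ f) :
    (∃ l : L, fT = l ⊗ₜ[K] (1 : M)) ∨ ∃ m : M, fT = (1 : L) ⊗ₜ[K] m := by
  by_contra hcon
  push Not at hcon
  obtain ⟨hcL, hcM⟩ := hcon
  obtain ⟨D, c, hD, hc0, hc⟩ := hol_exists hE hne hft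
  obtain ⟨𝒲, h𝒲1, h𝒲2, h𝒲3⟩ := Pool.Agent.SGL.PLC_ K L M Q
  have hψc : ψ c ≠ 0 := (_root_.map_ne_zero ψ).2 hc0
  obtain ⟨l, hl⟩ := Pool.Agent.SGL.CST_ K L M fT (by
    intro DM D' hDM
    set d := algebraMap (L ⊗[K] M) Q (D' fT) with hd
    -- the contraction is regular
    obtain ⟨zT, hzT⟩ : ∃ zT : L ⊗[K] M, algebraMap (L ⊗[K] M) Q zT = ψ c * d := by
      apply T_of_val
      intro W hW
      by_cases hV : W.comap ψ = ⊤
      · refine W.mul_mem _ _ ?_ (hW _)
        have : c ∈ W.comap ψ := by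
          rw [hV]
          exact ValuationSubring.mem_top c
        exact this
      · have hVc : ∀ a : k, algebraMap k E a ∈ W.comap ψ := by
          intro a
          rw [comap_mem, hψ]
          exact hW _
        obtain ⟨t, ht, ht2⟩ := hc (W.comap ψ) ⟨hVc, hV⟩
        have hDt : D t ≠ 0 := by
          intro h
          rw [h, map_zero] at ht2
          exact hc0 ((_root_.map_eq_zero _).1 (le_antisymm ht2 zero_le))
        have h1 := wint κ ψ hψ hE hft hf D hD D' W hW hV
          (((W.comap ψ).valuation_le_one_iff _).1 ht.le)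
        have h2 : c / D t ∈ W.comap ψ := by
          rw [← ValuationSubring.valuation_le_one_iff, map_div₀, div_le_one₀ (zero_lt_iff.2
            ((_root_.map_ne_zero _).2 hDt))]
          exact ht2
        have h3 : ψ c * d = ψ (c / D t) * (ψ (D t) * d) := by
          rw [map_div₀]
          have : ψ (D t) ≠ 0 := (_root_.map_ne_zero ψ).2 hDt
          field_simp
        rw [h3]
        exact W.mul_mem _ _ h2 h1
    -- the bounds at the places of `L`
    have hbd : ∀ W ∈ 𝒲, W.valuation (ψ c * d) ≤ 1 ∧ (W.comap ψ ≠ ⊤ →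
        W.valuation (ψ c * d) < 1) := by
      intro W hW
      have hb := wbound κ ψ hψ hE hft hf D hD D' W (fun z => h𝒲3 DM D' hDM W hW z)
      by_cases hV : W.comap ψ = ⊤
      · refine ⟨?_, fun h => absurd hV h⟩
        have h1 : W.valuation (ψ c) ≤ 1 := by
          rw [W.valuation_le_one_iff]
          have : c ∈ W.comap ψ := by
            rw [hV]
            exact ValuationSubring.mem_top c
          exact this
        have h2 := hb f
        rw [hD, map_one, one_mul] at h2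
        have h3 : W.valuation (ψ f) ≤ 1 := by
          rw [W.valuation_le_one_iff]
          have : f ∈ W.comap ψ := by
            rw [hV]
            exact ValuationSubring.mem_top f
          exact this
        rw [map_mul]
        exact mul_le_one' h1 (h2.trans h3)
      · have hVc : ∀ a : k, algebraMap k E a ∈ W.comap ψ := by
          intro a
          rw [comap_mem, hψ]
          by_cases ha : a = 0
          · rw [ha, map_zero, map_zero, map_zero]
            exact W.zero_mem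
          have h1 := h𝒲1 W hW (algebraMap K M (κ a)) (by
            rw [Ne, map_eq_zero, map_eq_zero]
            exact ha)
          have h2 : algebraMap K (L ⊗[K] M) (κ a) = (1 : L) ⊗ₜ[K] algebraMap K M (κ a) := by
            rw [Algebra.TensorProduct.algebraMap_apply, Algebra.algebraMap_eq_smul_one,
              Algebra.algebraMap_eq_smul_one, TensorProduct.smul_tmul]
          rw [h2, ← W.valuation_le_one_iff, h1]
        obtain ⟨t, ht, ht2⟩ := hc (W.comap ψ) ⟨hVc, hV⟩
        have hDt : D t ≠ 0 := by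
          intro h
          rw [h, map_zero] at ht2
          exact hc0 ((_root_.map_eq_zero _).1 (le_antisymm ht2 zero_le))
        have h2 : c / D t ∈ W.comap ψ := by
          rw [← ValuationSubring.valuation_le_one_iff, map_div₀, div_le_one₀ (zero_lt_iff.2
            ((_root_.map_ne_zero _).2 hDt))]
          exact ht2
        have h3 : ψ c * d = ψ (c / D t) * (ψ (D t) * d) := by
          rw [map_div₀]
          have : ψ (D t) ≠ 0 := (_root_.map_ne_zero ψ).2 hDt
          field_simp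
        have h4 : W.valuation (ψ c * d) < 1 := by
          rw [h3, map_mul]
          calc W.valuation (ψ (c / D t)) * W.valuation (ψ (D t) * d)
              ≤ 1 * W.valuation (ψ t) := mul_le_mul' ((W.valuation_le_one_iff _).2 h2) (hb t)
            _ < 1 := by
              rw [one_mul]
              exact (comap_lt ψ W t).1 ht
        exact ⟨h4.le, fun _ => h4⟩
    obtain ⟨m₀, hm₀⟩ := h𝒲2 zT (fun W hW => by
      rw [hzT, ← W.valuation_le_one_iff]
      exact (hbd W hW).1)
    -- a place where `f` has a pole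
    obtain ⟨W, hW, hfW⟩ : ∃ W ∈ 𝒲, algebraMap (L ⊗[K] M) Q fT ∉ W := by
      by_contra h
      push Not at h
      obtain ⟨m, hm⟩ := h𝒲2 fT h
      exact hcM m hm
    have hV : W.comap ψ ≠ ⊤ := by
      intro h
      apply hfW
      rw [hf]
      have : f ∈ W.comap ψ := by
        rw [h]
        exact ValuationSubring.mem_top f
      exact this
    have h1 := (hbd W hW).2 hV
    have hm0 : m₀ = 0 := by
      by_contra hm0
      rw [← hzT, hm₀, h𝒲1 W hW m₀ hm0] at h1
      exact lt_irrefl _ h1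
    rw [hm0, tmul_zero] at hm₀
    rw [hm₀, map_zero] at hzT
    have hd0 : d = 0 := by
      rcases mul_eq_zero.1 hzT.symm with h | h
      · exact absurd h hψc
      · exact h
    apply IsFractionRing.injective (L ⊗[K] M) Q
    rw [map_zero, ← hd, hd0])
  exact hcL l hl

end

end Pool.Agent.SRF
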