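import Pool.Agent.SRF.NC
import Pool.Agent.SGL.Main

/-!
# SRF LAU: rational functions with values in a ring generated by two linearly disjoint fields
-/

set_option autoImplicit false

namespace Pool.Agent.SRF

open Pool.Agent.SGL IntermediateField

section

variable {F : Type} [Field F]

/-- an equation with a unit as leading coefficient -/
theorem int_of_unit (B : Subring F) (N : ℕ) (a : ℕ → F) (y : F) (ha : ∀ j ≤ N, a j ∈ B)
    (h0 : a N ≠ 0) (h1 : (a N)⁻¹ ∈ B) (h2 : ∑ j ∈ Finset.range (N + 1), a j * y ^ j = 0) :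
    IsIntegral B y := by
  let f : Fin N → B := fun j => ⟨(a N)⁻¹ * a j, B.mul_mem h1 (ha j (by omega))⟩
  refine ⟨Polynomial.X ^ N + ∑ i : Fin N, Polynomial.C (f i) * Polynomial.X ^ (i : ℕ),
    Polynomial.monic_X_pow_add (Polynomial.degree_sum_fin_lt f), ?_⟩
  rw [Polynomial.eval₂_add, Polynomial.eval₂_pow, Polynomial.eval₂_X, Polynomial.eval₂_finsetSum]
  have h3 : ∀ i : Fin N, Polynomial.eval₂ (algebraMap B F) y
      (Polynomial.C (f i) * Polynomial.X ^ (i : ℕ)) = (a N)⁻¹ * (a i * y ^ (i : ℕ)) := by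
    intro i
    rw [Polynomial.eval₂_mul, Polynomial.eval₂_C, Polynomial.eval₂_pow, Polynomial.eval₂_X]
    show (a N)⁻¹ * a i * y ^ (i : ℕ) = _
    ring
  rw [Finset.sum_congr rfl (fun i _ => h3 i), ← Finset.mul_sum]
  rw [Finset.sum_range_succ, Finset.sum_range] at h2
  have h4 : ∑ i : Fin N, a i * y ^ (i : ℕ) = - (a N * y ^ N) := by
    linear_combination h2
  rw [h4]
  have h5 : (a N)⁻¹ * a N = 1 := inv_mul_cancel₀ h0
  linear_combination (-(y ^ N)) * h5

variable {k : Type} [Field k] [Algebra k F]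

theorem aeval_mem (B : Subring F) (hk : ∀ c : k, algebraMap k F c ∈ B) {y : F} (hy : y ∈ B)
    (p : Polynomial k) : Polynomial.aeval y p ∈ B := by
  rw [Polynomial.aeval_eq_sum_range]
  refine Subring.sum_mem _ (fun i _ => ?_)
  rw [Algebra.smul_def]
  exact B.mul_mem (hk _) (B.pow_mem hy i)

/-- a pole at infinity -/
theorem pole_inf (B : Subring F) (hk : ∀ c : k, algebraMap k F c ∈ B) (y w : F) (hw : w ∈ B)
    (p q : Polynomial k) (h : Polynomial.aeval y p = w * Polynomial.aeval y q)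
    (hd : q.natDegree < p.natDegree) : IsIntegral B y := by
  have hp0 : p ≠ 0 := by
    rintro rfl
    simp at hd
  refine int_of_unit B p.natDegree
    (fun j => algebraMap k F (p.coeff j) - w * algebraMap k F (q.coeff j)) y ?_ ?_ ?_ ?_
  · intro j _
    exact B.sub_mem (hk _) (B.mul_mem hw (hk _))
  · show algebraMap k F (p.coeff p.natDegree) - w * algebraMap k F (q.coeff p.natDegree) ≠ 0
    rw [Polynomial.coeff_eq_zero_of_natDegree_lt hd, map_zero, mul_zero, sub_zero]
    exact (map_ne_zero (algebraMap k F)).2 (Polynomial.leadingCoeff_ne_zero.2 hp0)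
  · show (algebraMap k F (p.coeff p.natDegree) - w * algebraMap k F (q.coeff p.natDegree))⁻¹ ∈ B
    rw [Polynomial.coeff_eq_zero_of_natDegree_lt hd, map_zero, mul_zero, sub_zero, ← map_inv₀]
    exact hk _
  · rw [Polynomial.aeval_eq_sum_range, Polynomial.aeval_eq_sum_range' (n := p.natDegree + 1)
      (by omega)] at h
    simp only [Algebra.smul_def] at h
    simp only [sub_mul]
    rw [Finset.sum_sub_distrib, h, Finset.mul_sum]
    apply sub_eq_zero_of_eq
    refine Finset.sum_congr rfl (fun i _ => ?_)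
    ring

/-- a pole at a finite point -/
theorem pole_fin (B : Subring F) (hk : ∀ c : k, algebraMap k F c ∈ B) (y w : F) (hw : w ∈ B)
    (p q : Polynomial k) (h : Polynomial.aeval y p = w * Polynomial.aeval y q) (c : k)
    (hp : p.eval c ≠ 0) (hq : q.eval c = 0) (hy : y - algebraMap k F c ≠ 0) :
    IsIntegral B (y - algebraMap k F c)⁻¹ := by
  set u : F := y - algebraMap k F c with hu
  set P : Polynomial k := p.comp (Polynomial.X + Polynomial.C c) with hP
  set Q : Polynomial k := q.comp (Polynomial.X + Polynomial.C c) with hQ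
  have hcomp : ∀ f : Polynomial k, Polynomial.aeval u (f.comp (Polynomial.X + Polynomial.C c)) =
      Polynomial.aeval y f := by
    intro f
    rw [Polynomial.aeval_comp]
    congr 1
    rw [map_add, Polynomial.aeval_X, Polynomial.aeval_C, hu]
    ring_nf
  have hc0 : ∀ f : Polynomial k, (f.comp (Polynomial.X + Polynomial.C c)).coeff 0 = f.eval c := by
    intro f
    rw [Polynomial.coeff_zero_eq_eval_zero, Polynomial.eval_comp]
    simp
  set N : ℕ := max P.natDegree Q.natDegree with hN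
  set a : ℕ → F := fun j => algebraMap k F (P.coeff j) - w * algebraMap k F (Q.coeff j) with ha
  have hsum : ∑ j ∈ Finset.range (N + 1), a j * u ^ j = 0 := by
    have h1 : Polynomial.aeval u P = w * Polynomial.aeval u Q := by
      rw [hP, hQ, hcomp, hcomp]
      exact h
    rw [Polynomial.aeval_eq_sum_range' (n := N + 1) (by omega),
      Polynomial.aeval_eq_sum_range' (n := N + 1) (by omega)] at h1
    simp only [Algebra.smul_def] at h1
    simp only [ha, sub_mul]
    rw [Finset.sum_sub_distrib, h1, Finset.mul_sum]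
    apply sub_eq_zero_of_eq
    refine Finset.sum_congr rfl (fun i _ => ?_)
    ring
  refine int_of_unit B N (fun j => a (N - j)) u⁻¹ ?_ ?_ ?_ ?_
  · intro j _
    exact B.sub_mem (hk _) (B.mul_mem hw (hk _))
  · show a (N - N) ≠ 0
    rw [Nat.sub_self]
    show algebraMap k F (P.coeff 0) - w * algebraMap k F (Q.coeff 0) ≠ 0
    rw [hP, hQ, hc0, hc0, hq, map_zero, mul_zero, sub_zero]
    exact (map_ne_zero (algebraMap k F)).2 hp
  · show (a (N - N))⁻¹ ∈ B
    rw [Nat.sub_self]
    show (algebraMap k F (P.coeff 0) - w * algebraMap k F (Q.coeff 0))⁻¹ ∈ B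
    rw [hP, hQ, hc0, hc0, hq, map_zero, mul_zero, sub_zero, ← map_inv₀]
    exact hk _
  · have h2 : ∑ j ∈ Finset.range (N + 1), a (N - j) * u⁻¹ ^ j =
        u⁻¹ ^ N * ∑ j ∈ Finset.range (N + 1), a j * u ^ j := by
      rw [Finset.mul_sum, ← Finset.sum_range_reflect]
      refine Finset.sum_congr rfl (fun j hj => ?_)
      rw [Finset.mem_range] at hj
      have e1 : N - (N + 1 - 1 - j) = j := by omega
      have e2 : N + 1 - 1 - j = N - j := by omega
      rw [e1, e2]
      have e3 : u⁻¹ ^ N = u⁻¹ ^ (N - j) * u⁻¹ ^ j := by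
        rw [← pow_add]
        congr 1
        omega
      have e4 : u⁻¹ ^ j * u ^ j = 1 := by
        rw [← mul_pow, inv_mul_cancel₀ hy, one_pow]
      rw [e3]
      linear_combination (-(a j * u⁻¹ ^ (N - j))) * e4
    rw [h2, hsum, mul_zero]

/-- elements of a simple transcendental extension -/
theorem mem_adjoin_coprime (s : RatFunc k) (hs : Transcendental k s) (r : RatFunc k)
    (hr : r ∈ k⟮s⟯) : ∃ p q : Polynomial k, IsCoprime p q ∧ q ≠ 0 ∧
      r = Polynomial.aeval s p / Polynomial.aeval s q := by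
  let e := RatFunc.algEquivOfTranscendental s hs
  let u : RatFunc k := e.symm ⟨r, hr⟩
  refine ⟨u.num, u.denom, u.isCoprime_num_denom, u.denom_ne_zero, ?_⟩
  have h1 : e u = ⟨r, hr⟩ := e.apply_symm_apply _
  have h2 := RatFunc.algEquivOfTranscendental_apply (K := k) s hs u
  rw [show RatFunc.algEquivOfTranscendental s hs = e from rfl, h1] at h2
  exact h2

theorem mem_sup_quot (K L M : Subfield F) (hKL : K ≤ L) (hKM : K ≤ M) (x : F)
    (hx : x ∈ L ⊔ M) : ∃ q ∈ Rg L M, q ≠ 0 ∧ x * q ∈ Rg L M := by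
  obtain ⟨q, hq, hq0, h⟩ := (RGE_ F K L M hKL hKM).2.2.1 1 (fun _ => x) (fun _ => hx)
  exact ⟨q, hq, hq0, by rw [mul_comm]; exact h 0⟩

/-- three points -/
theorem three [CharZero F] (K L M : Subfield F) (hK : IsAlgClosed K) (hKL : K ≤ L) (hKM : K ≤ M)
    (hd : LDj K L M) (y : F) (hy : y ∈ Rg L M) (a b : F) (ha : a ∈ K) (hb : b ∈ K) (hab : a ≠ b)
    (hya : y - a ≠ 0) (hyb : y - b ≠ 0)
    (h1 : (y - a)⁻¹ ∈ Rg L M) (h2 : (y - b)⁻¹ ∈ Rg L M) : y ∈ L ∨ y ∈ M := by
  let f : Polynomial K := (Polynomial.X - Polynomial.C ⟨a, ha⟩) *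
    (Polynomial.X - Polynomial.C ⟨b, hb⟩)
  have hab' : (⟨a, ha⟩ : K) ≠ ⟨b, hb⟩ := fun h => hab (congrArg Subtype.val h)
  have hsq : Squarefree f := by
    apply Polynomial.Separable.squarefree
    refine Polynomial.Separable.mul (Polynomial.separable_X_sub_C) (Polynomial.separable_X_sub_C) ?_
    exact Polynomial.isCoprime_X_sub_C_of_isUnit_sub (sub_ne_zero.2 hab').isUnit
  have hdeg : f.natDegree = 2 := by
    show ((Polynomial.X - Polynomial.C (⟨a, ha⟩ : K)) *
      (Polynomial.X - Polynomial.C (⟨b, hb⟩ : K))).natDegree = 2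
    rw [Polynomial.natDegree_mul (Polynomial.X_sub_C_ne_zero _) (Polynomial.X_sub_C_ne_zero _),
      Polynomial.natDegree_X_sub_C, Polynomial.natDegree_X_sub_C]
  have hev : Polynomial.aeval y f = (y - a) * (y - b) := by
    show Polynomial.aeval y ((Polynomial.X - Polynomial.C (⟨a, ha⟩ : K)) *
      (Polynomial.X - Polynomial.C (⟨b, hb⟩ : K))) = _
    rw [map_mul, map_sub, map_sub, Polynomial.aeval_X, Polynomial.aeval_C, Polynomial.aeval_C]
    rfl
  refine (SGB_.upst ST3_ STH_ F K L M hK hKL hKM hd f hsq y hy).1 hdeg.ge ?_ ?_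
  · rw [hev]
    exact mul_ne_zero hya hyb
  · rw [hev, mul_inv]
    exact (Rg L M).mul_mem h1 h2

/-- Rational functions whose values lie in the ring generated by two linearly disjoint fields are
Laurent polynomials in one rational function. -/
theorem lau [CharZero F] [IsAlgClosed k] (K L M : Subfield F) (hK : IsAlgClosed K) (hKL : K ≤ L)
    (hKM : K ≤ M) (hd : LDj K L M) (hk : ∀ c : k, algebraMap k F c ∈ K) (Φ : RatFunc k →ₐ[k] F)
    (hxL : ¬ IsAlgebraic L (Φ RatFunc.X)) (hxM : ¬ IsAlgebraic M (Φ RatFunc.X)) :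
    ∃ s : RatFunc k, ∀ r : RatFunc k, Φ r ∈ Rg L M → r ∈ Algebra.adjoin k {s, s⁻¹} := by
  classical
  have hΦ : Function.Injective Φ := Φ.toRingHom.injective
  have hIC : IC (Rg L M) := nrm LDS_ TWR_ K L M hKL hKM hd
  have hkR : ∀ c : k, algebraMap k F c ∈ Rg L M := fun c => mem_Rg_left (hKL (hk c))
  have hsup : ∀ x ∈ Rg L M, x ∈ L ⊔ M := fun x hx => TAA_.Rg_le le_sup_left le_sup_right hx
  have hint : ∀ x ∈ L ⊔ M, IsIntegral (Rg L M) x → x ∈ Rg L M := by
    intro x hx hi
    obtain ⟨q, hq, hq0, h⟩ := mem_sup_quot K L M hKL hKM x hx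
    exact hIC x (x * q) q h hq hq0 rfl hi
  let FF : IntermediateField k F := Subfield.toIntermediateField (L ⊔ M)
    (fun c => hsup _ (hkR c))
  set E : IntermediateField k (RatFunc k) := FF.comap Φ with hE
  have hmemE : ∀ r, r ∈ E ↔ Φ r ∈ L ⊔ M := fun r => Iff.rfl
  -- elements of `E` in terms of a generator
  have hrep : ∀ s : RatFunc k, Transcendental k s → ∀ r ∈ k⟮s⟯, ∃ p q : Polynomial k,
      IsCoprime p q ∧ q ≠ 0 ∧ r = Polynomial.aeval s p / Polynomial.aeval s q ∧
      Polynomial.aeval (Φ s) q ≠ 0 ∧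
      Polynomial.aeval (Φ s) p = Φ r * Polynomial.aeval (Φ s) q := by
    intro s hs r hr
    obtain ⟨p, q, hpq, hq, h⟩ := mem_adjoin_coprime s hs r hr
    have h1 : Polynomial.aeval s q ≠ 0 := fun h0 => hq ((transcendental_iff.1 hs) q h0)
    have h2 : Polynomial.aeval (Φ s) q ≠ 0 := by
      rw [Polynomial.aeval_algHom_apply]
      exact (map_ne_zero Φ).2 h1
    refine ⟨p, q, hpq, hq, h, h2, ?_⟩
    rw [Polynomial.aeval_algHom_apply, Polynomial.aeval_algHom_apply, ← map_mul, h,
      div_mul_cancel₀ _ h1]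
  have hpole : ∀ s : RatFunc k, Transcendental k s → Φ s ∈ L ⊔ M → ∀ p q : Polynomial k,
      IsCoprime p q → ∀ w ∈ Rg L M, Polynomial.aeval (Φ s) p = w * Polynomial.aeval (Φ s) q →
      (q.natDegree < p.natDegree → Φ s ∈ Rg L M) ∧
      ∀ c : k, q.eval c = 0 → (Φ s - algebraMap k F c)⁻¹ ∈ Rg L M := by
    intro s hs hsE p q hpq w hw h
    refine ⟨fun hdeg => hint _ hsE (pole_inf _ hkR _ w hw p q h hdeg), fun c hc => ?_⟩
    have hpc : p.eval c ≠ 0 := by
      intro h0
      obtain ⟨a, b, hab⟩ := hpq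
      have := congrArg (Polynomial.eval c) hab
      rw [Polynomial.eval_add, Polynomial.eval_mul, Polynomial.eval_mul, h0, hc] at this
      simp at this
    have hne : Φ s - algebraMap k F c ≠ 0 := by
      intro h0
      apply hs
      have h1 : Φ (s - algebraMap k (RatFunc k) c) = 0 := by
        rw [map_sub, AlgHom.commutes]
        exact h0
      have h2 : s - algebraMap k (RatFunc k) c = 0 := hΦ (by rw [h1, map_zero])
      rw [sub_eq_zero.1 h2]
      exact isAlgebraic_algebraMap c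
    refine hint _ ?_ (pole_fin _ hkR _ w hw p q h c hpc hc hne)
    exact (L ⊔ M).inv_mem ((L ⊔ M).sub_mem hsE (hsup _ (hkR c)))
  by_cases hall : ∀ r : RatFunc k, Φ r ∈ Rg L M → r ∈ Set.range (algebraMap k (RatFunc k))
  · refine ⟨1, fun r hr => ?_⟩
    obtain ⟨c, rfl⟩ := hall r hr
    exact Subalgebra.algebraMap_mem _ c
  push Not at hall
  obtain ⟨r₀, hr₀, hr₀c⟩ := hall
  have hEbot : E ≠ ⊥ := by
    intro h
    have h1 : r₀ ∈ E := (hmemE r₀).2 (hsup _ hr₀)
    rw [h] at h1
    exact hr₀c h1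
  -- a generator whose value lies in the ring
  obtain ⟨s₁, hs₁t, hs₁E, hs₁R⟩ : ∃ s₁ : RatFunc k, Transcendental k s₁ ∧ E = k⟮s₁⟯ ∧
      Φ s₁ ∈ Rg L M := by
    set s₀ : RatFunc k := RatFunc.Luroth.generator E with hs₀
    have hs₀t : Transcendental k s₀ := RatFunc.Luroth.transcendental_generator hEbot
    have hs₀E : E = k⟮s₀⟯ := RatFunc.Luroth.eq_adjoin_generator
    have hs₀m : Φ s₀ ∈ L ⊔ M := (hmemE s₀).1 RatFunc.Luroth.generator_mem
    have hr₀E : r₀ ∈ k⟮s₀⟯ := by
      rw [← hs₀E]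
      exact (hmemE r₀).2 (hsup _ hr₀)
    obtain ⟨p, q, hpq, hq0, hr, hqy, hrel⟩ := hrep s₀ hs₀t r₀ hr₀E
    have hP := hpole s₀ hs₀t hs₀m p q hpq _ hr₀ hrel
    by_cases hqd : q.natDegree = 0
    · refine ⟨s₀, hs₀t, hs₀E, hP.1 ?_⟩
      rw [hqd]
      by_contra hpd
      apply hr₀c
      have hpd' : p.natDegree = 0 := by omega
      rw [Polynomial.eq_C_of_natDegree_eq_zero hpd', Polynomial.eq_C_of_natDegree_eq_zero hqd,
        Polynomial.aeval_C, Polynomial.aeval_C, ← map_div₀] at hr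
      exact ⟨_, hr.symm⟩
    · obtain ⟨c, hc⟩ := IsAlgClosed.exists_root q (by
        intro h
        apply hqd
        exact Polynomial.natDegree_eq_of_degree_eq_some h)
      refine ⟨(s₀ - algebraMap k (RatFunc k) c)⁻¹, ?_, ?_, ?_⟩
      · intro h
        apply hs₀t
        have h1 := h.inv
        rw [inv_inv] at h1
        have h2 := h1.add (isAlgebraic_algebraMap (A := RatFunc k) c)
        rwa [sub_add_cancel] at h2
      · rw [hs₀E]
        apply le_antisymm
        · rw [adjoin_simple_le_iff]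
          have h1 : (s₀ - algebraMap k (RatFunc k) c)⁻¹ ∈
              k⟮(s₀ - algebraMap k (RatFunc k) c)⁻¹⟯ := mem_adjoin_simple_self k _
          have h2 := inv_mem h1
          rw [inv_inv] at h2
          have h3 := add_mem h2 (IntermediateField.algebraMap_mem
            k⟮(s₀ - algebraMap k (RatFunc k) c)⁻¹⟯ c)
          rwa [sub_add_cancel] at h3
        · rw [adjoin_simple_le_iff]
          exact inv_mem (sub_mem (mem_adjoin_simple_self k s₀)
            (IntermediateField.algebraMap_mem _ c))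
      · rw [map_inv₀, map_sub, AlgHom.commutes]
        exact hP.2 c hc
  -- the generator does not lie in one of the fields
  have hnot : ∀ N : Subfield F, (∀ c : k, algebraMap k F c ∈ N) →
      ¬ IsAlgebraic N (Φ RatFunc.X) → Φ s₁ ∉ N := by
    intro N hkN hN hmem
    apply hN
    have hNc : ¬ ∃ c, s₁ = RatFunc.C c := by
      rintro ⟨c, hc⟩
      apply hs₁t
      rw [hc]
      exact isAlgebraic_algebraMap (A := RatFunc k) c
    have h1 := RatFunc.isAlgebraic_adjoin_simple_X s₁ hNc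
    let NN : IntermediateField k F := Subfield.toIntermediateField N hkN
    have h2 : k⟮s₁⟯ ≤ NN.comap Φ := by
      rw [adjoin_simple_le_iff]
      exact hmem
    let f : k⟮s₁⟯ →+* N := RingHom.codRestrict (Φ.toRingHom.comp (algebraMap k⟮s₁⟯ (RatFunc k))) N
      (fun z => h2 z.2)
    refine IsAlgebraic.ringHom_of_comp_eq (f := f) (g := Φ.toRingHom) h1 f.injective ?_
    apply RingHom.ext
    intro z
    rfl
  have hnL := hnot L (fun c => hKL (hk c)) hxL
  have hnM := hnot M (fun c => hKM (hk c)) hxM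
  have hne : ∀ c : k, Φ s₁ - algebraMap k F c ≠ 0 := by
    intro c h0
    apply hnL
    rw [sub_eq_zero.1 h0]
    exact hKL (hk c)
  have huniq : ∀ c c' : k, (Φ s₁ - algebraMap k F c)⁻¹ ∈ Rg L M →
      (Φ s₁ - algebraMap k F c')⁻¹ ∈ Rg L M → c = c' := by
    intro c c' h1 h2
    by_contra hcc
    have h3 : algebraMap k F c ≠ algebraMap k F c' := fun h => hcc ((algebraMap k F).injective h)
    rcases three K L M hK hKL hKM hd (Φ s₁) hs₁R _ _ (hk c) (hk c') h3 (hne c) (hne c') h1 h2 with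
      h | h
    · exact hnL h
    · exact hnM h
  -- the Laurent polynomials
  have key : ∀ (s : RatFunc k) (c₀ : k), s₁ = s + algebraMap k (RatFunc k) c₀ →
      (∀ c : k, (Φ s₁ - algebraMap k F c)⁻¹ ∈ Rg L M → c = c₀) →
      ∀ r : RatFunc k, Φ r ∈ Rg L M → r ∈ Algebra.adjoin k {s, s⁻¹} := by
    intro s c₀ hs hc₀ r hr
    have hrE : r ∈ k⟮s₁⟯ := by
      rw [← hs₁E]
      exact (hmemE r).2 (hsup _ hr)
    obtain ⟨p, q, hpq, hq0, hrr, hqy, hrel⟩ := hrep s₁ hs₁t r hrE
    have hP := hpole s₁ hs₁t (hsup _ hs₁R) p q hpq _ hr hrel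
    have hroots : ∀ c ∈ q.roots, c = c₀ := by
      intro c hc
      exact hc₀ c (hP.2 c ((Polynomial.mem_roots hq0).1 hc))
    have hsm : s ∈ Algebra.adjoin k {s, s⁻¹} := Algebra.subset_adjoin (by simp)
    have hsm' : s⁻¹ ∈ Algebra.adjoin k {s, s⁻¹} := Algebra.subset_adjoin (by simp)
    have hs₁m : s₁ ∈ Algebra.adjoin k {s, s⁻¹} := by
      rw [hs]
      exact Subalgebra.add_mem _ hsm (Subalgebra.algebraMap_mem _ c₀)
    have hpm : Polynomial.aeval s₁ p ∈ Algebra.adjoin k {s, s⁻¹} := by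
      rw [Polynomial.aeval_eq_sum_range]
      exact Subalgebra.sum_mem _ (fun i _ => Subalgebra.smul_mem _ (Subalgebra.pow_mem _ hs₁m i) _)
    have hqm : (Polynomial.aeval s₁ q)⁻¹ ∈ Algebra.adjoin k {s, s⁻¹} := by
      have h1 := (IsAlgClosed.splits q).eq_prod_roots
      rw [h1, map_mul, Polynomial.aeval_C, mul_inv, ← map_inv₀]
      refine Subalgebra.mul_mem _ (Subalgebra.algebraMap_mem _ _) ?_
      have h2 : q.roots = Multiset.replicate (Multiset.card q.roots) c₀ :=
        Multiset.eq_replicate_card.2 hroots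
      rw [h2, Multiset.map_replicate, Multiset.prod_replicate, map_pow, map_sub,
        Polynomial.aeval_X, Polynomial.aeval_C, hs, add_sub_cancel_right, ← inv_pow]
      exact Subalgebra.pow_mem _ hsm' _
    rw [hrr, div_eq_mul_inv]
    exact Subalgebra.mul_mem _ hpm hqm
  by_cases hex : ∃ c : k, (Φ s₁ - algebraMap k F c)⁻¹ ∈ Rg L M
  · obtain ⟨c₀, hc₀⟩ := hex
    exact ⟨s₁ - algebraMap k (RatFunc k) c₀, key _ c₀ (sub_add_cancel _ _).symm (fun c hc => huniq c c₀ hc hc₀)⟩
  · push Not at hex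
    refine ⟨s₁, key s₁ 0 (by rw [map_zero, add_zero]) (fun c hc => absurd hc (hex c))⟩

end

end Pool.Agent.SRF
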