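import Pool.Agent.SRF.GEN
import Pool.Agent.SRF.LAU

/-!
# SRF GENF: integral points over the ring generated by two linearly disjoint fields
-/

set_option autoImplicit false

namespace Pool.Agent.SRF

open Pool.Agent.SGL IntermediateField Polynomial TensorProduct

/-- **integral points on a curve of positive genus** -/
theorem genF (F : Type) [Field F] [CharZero F] (K L M : Subfield F) (hK : IsAlgClosed K)
    (hKL : K ≤ L) (hKM : K ≤ M) (hd : LDj K L M) (k E : Type) [Field k] [IsAlgClosed k]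
    [CharZero k] [Field E] [Algebra k E] (φ : E →+* F) (hk : ∀ c : k, φ (algebraMap k E c) ∈ K)
    (hφ : ∀ x, φ x ∈ L ⊔ M) (hE : Cur k E) (hne : ∀ s : E, k⟮s⟯ ≠ ⊤) {f : E}
    (hft : Transcendental k f) (hf : φ f ∈ Rg L M) : φ f ∈ L ∨ φ f ∈ M := by
  let : Algebra K L := (Subfield.inclusion hKL).toAlgebra
  let : Algebra K M := (Subfield.inclusion hKM).toAlgebra
  let fL : L →ₐ[K] F := { L.subtype with commutes' := fun _ => rfl }
  let fM : M →ₐ[K] F := { M.subtype with commutes' := fun _ => rfl }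
  let θ : (L ⊗[K] M) →ₐ[K] F := Algebra.TensorProduct.productMap fL fM
  have hθ : ∀ (l : L) (m : M), θ (l ⊗ₜ[K] m) = (l : F) * m := by
    intro l m
    exact Algebra.TensorProduct.productMap_apply_tmul fL fM l m
  have hinj : Function.Injective θ := SGA_.inj F K L M (fun _ => rfl) hd θ hθ
  have hrange : ∀ t ∈ Rg L M, ∃ t' : L ⊗[K] M, θ t' = t := by
    intro t ht
    have h1 : Rg L M ≤ θ.toRingHom.range := by
      unfold Rg
      rw [Subring.closure_le]
      rintro s (hs | hs)
      · refine ⟨(⟨s, hs⟩ : L) ⊗ₜ[K] (1 : M), ?_⟩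
        show θ _ = _
        rw [hθ]
        show s * ((1 : M) : F) = s
        rw [OneMemClass.coe_one, mul_one]
      · refine ⟨(1 : L) ⊗ₜ[K] (⟨s, hs⟩ : M), ?_⟩
        show θ _ = _
        rw [hθ]
        show ((1 : L) : F) * s = s
        rw [OneMemClass.coe_one, one_mul]
    obtain ⟨t', ht'⟩ := h1 ht
    exact ⟨t', ht'⟩
  have hmem : ∀ t : L ⊗[K] M, θ t ∈ Rg L M := by
    intro t
    induction t with
    | zero =>
      rw [map_zero]
      exact Subring.zero_mem _
    | tmul l m =>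
      rw [hθ]
      exact (Rg L M).mul_mem (mem_Rg_left l.2) (mem_Rg_right m.2)
    | add a b ha hb =>
      rw [map_add]
      exact (Rg L M).add_mem ha hb
  have hsup : ∀ x ∈ Rg L M, x ∈ L ⊔ M := fun x hx => TAA_.Rg_le le_sup_left le_sup_right hx
  -- the tensor product is integrally closed
  have hIC : IsIntegrallyClosed (Rg L M) := (ic_iff _).1 (nrm LDS_ TWR_ K L M hKL hKM hd)
  have hICT : IsIntegrallyClosed (L ⊗[K] M) := by
    let e : (L ⊗[K] M) ≃+* Rg L M := RingEquiv.ofBijective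
      (θ.toRingHom.codRestrict (Rg L M) hmem) (by
        constructor
        · intro a b hab
          exact hinj (congrArg Subtype.val hab)
        · rintro ⟨t, ht⟩
          obtain ⟨t', ht'⟩ := hrange t ht
          exact ⟨t', Subtype.ext ht'⟩)
    exact IsIntegrallyClosed.of_equiv e.symm
  let g : (L ⊗[K] M) →+* (L ⊔ M : Subfield F) :=
    θ.toRingHom.codRestrict (L ⊔ M : Subfield F) (fun t => hsup _ (hmem t))
  let : Algebra (L ⊗[K] M) (L ⊔ M : Subfield F) := g.toAlgebra
  have hgv : ∀ t : L ⊗[K] M,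
      ((algebraMap (L ⊗[K] M) (L ⊔ M : Subfield F) t : (L ⊔ M : Subfield F)) : F) = θ t :=
    fun t => rfl
  have hfaith : FaithfulSMul (L ⊗[K] M) (L ⊔ M : Subfield F) := by
    rw [faithfulSMul_iff_algebraMap_injective]
    intro a b hab
    exact hinj (congrArg Subtype.val hab)
  have hfrac : IsFractionRing (L ⊗[K] M) (L ⊔ M : Subfield F) := by
    apply IsFractionRing.of_field
    rintro ⟨z, hz⟩
    obtain ⟨q, hq, hq0, hzq⟩ := mem_sup_quot K L M hKL hKM z hz
    obtain ⟨q', hq'⟩ := hrange q hq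
    obtain ⟨p', hp'⟩ := hrange _ hzq
    refine ⟨p', q', Subtype.ext ?_⟩
    show z = θ p' / θ q'
    rw [hp', hq', mul_div_cancel_right₀ _ hq0]
  have hchK : CharZero K := charZero_of_injective_algebraMap (algebraMap ℚ K).injective
  let ψ : E →+* (L ⊔ M : Subfield F) := φ.codRestrict (L ⊔ M : Subfield F) hφ
  let κ : k →+* K := (φ.comp (algebraMap k E)).codRestrict K hk
  have hψ : ∀ c : k, ψ (algebraMap k E c) =
      algebraMap (L ⊗[K] M) (L ⊔ M : Subfield F) (algebraMap K (L ⊗[K] M) (κ c)) := by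
    intro c
    apply Subtype.ext
    show φ (algebraMap k E c) = θ (algebraMap K (L ⊗[K] M) (κ c))
    rw [θ.commutes]
    rfl
  obtain ⟨fT, hfT⟩ := hrange _ hf
  have hfT' : algebraMap (L ⊗[K] M) (L ⊔ M : Subfield F) fT = ψ f := Subtype.ext hfT
  rcases gen κ ψ hψ hE hne hft hfT' with ⟨l, hl⟩ | ⟨m, hm⟩
  · left
    rw [← hfT, hl, hθ, OneMemClass.coe_one, mul_one]
    exact l.2
  · right
    rw [← hfT, hm, hθ, OneMemClass.coe_one, one_mul]
    exact m.2

end Pool.Agent.SRF
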