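import Pool.Agent.SRF.RDB
import Pool.Agent.SGL.DEV

/-!
# SRF HOA: regular differentials (1)
-/

set_option autoImplicit false

namespace Pool.Agent.SRF

open IntermediateField Polynomial

section

variable {k E : Type} [Field k] [Field E] [Algebra k E]

/-- the differential `c dx`, where `D x = 1`, is regular at all places -/
def Hol (k : Type) {E : Type} [Field k] [Field E] [Algebra k E] (D : Derivation k E E)
    (c : E) : Prop :=
  c ≠ 0 ∧ ∀ V : ValuationSubring E, Pl k V →
    ∃ t : E, V.valuation t < 1 ∧ V.valuation c ≤ V.valuation (D t)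

theorem int_Sx {V : ValuationSubring E} (hV : ∀ c : k, algebraMap k E c ∈ V) {ξ : E}
    (hξ : Transcendental k ξ) (hξV : 1 < V.valuation ξ) {Kx : IntermediateField k E}
    (hK : Kx = k⟮ξ⟯) {y : E} (hy : IsIntegral (B0 Kx V) y) : y ∈ Sx k ξ := by
  intro W hW hξW
  apply val_of_int _ y hy W
  intro z hz
  obtain ⟨h1, h2⟩ := mem_B0.1 hz
  by_cases hz0 : z = 0
  · rw [hz0]
    exact W.zero_mem
  rw [hK] at h2
  obtain ⟨n, hn⟩ := ldeg hξ h2 hz0
  rw [← V.valuation_le_one_iff, hn V hV hξV] at h1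
  have h3 : n ≤ 0 := by
    by_contra hcon
    push Not at hcon
    exact absurd h1 (not_le.2 (one_lt_zpow₀ hξV hcon))
  show z ∈ W
  rw [← W.valuation_le_one_iff, hn W hW hξW]
  exact zpow_le_one_of_nonpos₀ hξW.le h3

theorem caseA [IsAlgClosed k] [CharZero k] (hE : Cur k E) {x : E} (hx : Transcendental k x)
    (D : Derivation k E E) (hD : D x = 1)
    (e : Fin (Module.finrank k⟮x⟯ E) → E) (a : Fin (Module.finrank k⟮x⟯ E) → ℕ)
    (he : Spn k x e) (ha : ∀ j, (x ^ a j)⁻¹ * e j ∈ Sx k x)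
    (hr : ∀ l : Fin (Module.finrank k⟮x⟯ E) → k,
        x * ∑ j, algebraMap k E (l j) * ((x ^ a j)⁻¹ * e j) ∈ Sx k x → ∀ j, l j = 0)
    (i : Fin (Module.finrank k⟮x⟯ E)) (hi : 2 ≤ a i) : ∃ c : E, Hol k D c := by
  classical
  have hfd := hE x hx
  have hx0 : x ≠ 0 := by
    rintro rfl
    exact hx isAlgebraic_zero
  have hchE : CharZero k⟮x⟯ := charZero_of_injective_algebraMap (algebraMap k k⟮x⟯).injective
  have hsep : Algebra.IsSeparable k⟮x⟯ E := inferInstance
  have hli := li_of_span hE hx he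
  have hne : Nonempty (Fin (Module.finrank k⟮x⟯ E)) := ⟨i⟩
  let b : Module.Basis (Fin (Module.finrank k⟮x⟯ E)) k⟮x⟯ E :=
    basisOfLinearIndependentOfCardEqFinrank hli (by rw [Fintype.card_fin])
  have hb : ∀ j, b j = e j := fun j => by
    rw [coe_basisOfLinearIndependentOfCardEqFinrank]
  let c : E := b.traceDual i
  have hcb : ∀ j, Algebra.trace k⟮x⟯ E (c * e j) = if j = i then 1 else 0 := by
    intro j
    rw [← hb j]
    exact b.trace_traceDual_mul i j
  have htr : ∀ y : E, Algebra.trace k⟮x⟯ E (c * y) = b.repr y i := by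
    intro y
    have h1 : c * y = ∑ j, b.repr y j • (c * e j) := by
      conv_lhs => rw [← b.sum_repr y]
      rw [Finset.mul_sum]
      refine Finset.sum_congr rfl (fun j _ => ?_)
      rw [hb, mul_smul_comm]
    rw [h1, map_sum]
    simp only [map_smul, hcb]
    simp
  have hsum : ∀ y : E, ∑ j, ((b.repr y j : k⟮x⟯) : E) * e j = y := by
    intro y
    conv_rhs => rw [← b.sum_repr y]
    refine Finset.sum_congr rfl (fun j _ => ?_)
    rw [hb]
    rfl
  have hc : c ≠ 0 := by
    intro h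
    have h1 := hcb i
    rw [h, zero_mul, map_zero, if_pos rfl] at h1
    exact zero_ne_one h1
  refine ⟨c, hc, ?_⟩
  intro V hV
  rcases le_or_gt (V.valuation x) 1 with hxV | hxV
  · obtain ⟨l, hl⟩ := residue hE hV hxV
    set τ := x - algebraMap k E l with hτ
    have hτ0 : τ ≠ 0 := by
      intro h
      apply hx
      have h' : x - algebraMap k E l = 0 := h
      rw [sub_eq_zero.1 h']
      exact isAlgebraic_algebraMap l
    have hvτ : 0 < V.valuation τ := zero_lt_iff.2 ((_root_.map_ne_zero V.valuation).2 hτ0)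
    have hK : k⟮τ⟯ = k⟮x⟯ := by
      apply le_antisymm
      · rw [adjoin_simple_le_iff]
        exact sub_mem (mem_adjoin_simple_self k x) (k⟮x⟯.algebraMap_mem l)
      · rw [adjoin_simple_le_iff]
        have h2 := add_mem (mem_adjoin_simple_self k τ) (k⟮τ⟯.algebraMap_mem l)
        rwa [hτ, sub_add_cancel] at h2
    have hDτ : D τ = 1 := by
      rw [hτ, map_sub, hD, Derivation.map_algebraMap, sub_zero]
    have hξV : 1 < V.valuation τ⁻¹ := by
      rw [map_inv₀]
      exact (one_lt_inv₀ hvτ).2 hl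
    apply loc hE hV k⟮x⟯ hl hτ0 hK D hDτ hc
    intro y hy
    rw [htr]
    have h1 : y ∈ Sx k τ⁻¹ := int_Sx hV.1 (transc_inv_sub hx l) hξV (adjoin_inv_sub x l).symm hy
    have h2 := fin_prop hE hx he l (fun j => ((b.repr y j : k⟮x⟯) : E)) (fun j => (b.repr y j).2)
      (by
        rw [hsum]
        exact h1) i
    exact h2 V hV.1 hξV
  · have hvx : 0 < V.valuation x := zero_lt_one.trans hxV
    have hτ : V.valuation x⁻¹ < 1 := by
      rw [map_inv₀]
      exact inv_lt_one_of_one_lt₀ hxV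
    have hK : k⟮x⁻¹⟯ = k⟮x⟯ := by
      apply le_antisymm
      · rw [adjoin_simple_le_iff]
        exact inv_mem (mem_adjoin_simple_self k x)
      · rw [adjoin_simple_le_iff]
        have := inv_mem (mem_adjoin_simple_self k x⁻¹)
        rwa [inv_inv] at this
    let D' : Derivation k E E := (-x ^ 2) • D
    have hD' : ∀ y, D' y = -x ^ 2 * D y := fun y => rfl
    have hDτ : D' x⁻¹ = 1 := by
      rw [hD', Derivation.leibniz_inv, hD]
      simp only [smul_eq_mul]
      field_simp
    have hc' : -x ^ 2 * c ≠ 0 := mul_ne_zero (neg_ne_zero.2 (pow_ne_zero _ hx0)) hc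
    obtain ⟨t, ht, ht2⟩ := loc hE hV k⟮x⟯ hτ (inv_ne_zero hx0) hK D' hDτ hc' (by
      intro y hy
      have h0 : Algebra.trace k⟮x⟯ E (-x ^ 2 * c * y) =
          (-(⟨x, mem_adjoin_simple_self k x⟩ : k⟮x⟯) ^ 2) * b.repr y i := by
        have h4 : -x ^ 2 * c * y = (-(⟨x, mem_adjoin_simple_self k x⟩ : k⟮x⟯) ^ 2) • (c * y) := by
          rw [Algebra.smul_def]
          show -x ^ 2 * c * y = -x ^ 2 * (c * y)
          ring
        rw [h4, map_smul, htr, smul_eq_mul]
      rw [h0]
      show -x ^ 2 * ((b.repr y i : k⟮x⟯) : E) ∈ V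
      have h1 : y ∈ Sx k x := int_Sx hV.1 hx hxV rfl hy
      have h2 := inf_prop hx ha hr (fun j => ((b.repr y j : k⟮x⟯) : E))
        (fun j => (b.repr y j).2) (by
        rw [hsum]
        exact h1) i
      have h3 := h2 V hV.1 hxV
      rw [← V.valuation_le_one_iff, map_mul, map_pow] at h3
      rw [← V.valuation_le_one_iff, map_mul, Valuation.map_neg, map_pow]
      refine le_trans ?_ h3
      apply mul_le_mul_left
      exact pow_le_pow_right₀ hxV.le hi)
    refine ⟨t, ht, ?_⟩
    rw [hD', map_mul, map_mul, Valuation.map_neg, map_pow] at ht2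
    exact (mul_le_mul_iff_right₀ (pow_pos hvx 2)).1 ht2

end

end Pool.Agent.SRF
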