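import Pool.Agent.SRF.DEG

/-!
# SRF HOB: regular differentials (2)
-/

set_option autoImplicit false

namespace Pool.Agent.SRF

open IntermediateField Polynomial

section

variable {k E : Type} [Field k] [Field E] [Algebra k E]

/-- the derivative of a polynomial relation -/
theorem bivar {B N : Type} [CommRing B] [Algebra k B] [AddCommGroup N] [Module B N] [Module k N]
    (δ : Derivation k B N) (f y : B) (n : ℕ) (p : ℕ → k[X]) :
    δ (∑ i ∈ Finset.range (n + 1), aeval f (p i) * y ^ i) =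
      (∑ i ∈ Finset.range (n + 1), aeval f (derivative (p i)) * y ^ i) • δ f +
      (∑ i ∈ Finset.range (n + 1), aeval f (p i) * (i * y ^ (i - 1))) • δ y := by
  rw [map_sum, Finset.sum_smul, Finset.sum_smul, ← Finset.sum_add_distrib]
  refine Finset.sum_congr rfl (fun i _ => ?_)
  rw [Derivation.leibniz, Derivation.leibniz_pow, Derivation.map_aeval]
  rw [add_comm, smul_smul, ← Nat.cast_smul_eq_nsmul B i (y ^ (i - 1) • δ y), smul_smul, smul_smul,
    mul_comm (y ^ i), mul_assoc]

theorem frac_rep {f z : E} (hz : z ∈ k⟮f⟯) : ∃ a b : k[X], aeval f b ≠ 0 ∧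
    z * aeval f b = aeval f a := by
  rw [mem_adjoin_simple_iff] at hz
  obtain ⟨a, b, rfl⟩ := hz
  by_cases hb : aeval f b = 0
  · refine ⟨0, 1, by simp, ?_⟩
    rw [hb, div_zero, zero_mul, map_zero]
  · exact ⟨a, b, hb, div_mul_cancel₀ _ hb⟩

theorem rel_exists [CharZero k] {f y : E} (hy : IsAlgebraic k⟮f⟯ y) :
    ∃ (n : ℕ) (p : ℕ → k[X]), ∑ i ∈ Finset.range (n + 1), aeval f (p i) * y ^ i = 0 ∧
      ∑ i ∈ Finset.range (n + 1), aeval f (p i) * (i * y ^ (i - 1)) ≠ 0 := by
  classical
  have hchE : CharZero k⟮f⟯ := charZero_of_injective_algebraMap (algebraMap k k⟮f⟯).injective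
  set μ := minpoly k⟮f⟯ y with hμ
  set n := μ.natDegree with hn
  have hsep : aeval y (derivative μ) ≠ 0 :=
    Separable.aeval_derivative_ne_zero (minpoly.irreducible hy.isIntegral).separable
      (minpoly.aeval _ _)
  choose a b hb hab using fun i => frac_rep (k := k) (f := f) (μ.coeff i).2
  set β : E := ∏ j ∈ Finset.range (n + 1), aeval f (b j) with hβ
  have hβ0 : β ≠ 0 := Finset.prod_ne_zero_iff.2 (fun j _ => hb j)
  let p : ℕ → k[X] := fun i => a i * ∏ j ∈ (Finset.range (n + 1)).erase i, b j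
  have hp : ∀ i ∈ Finset.range (n + 1), aeval f (p i) = ((μ.coeff i : k⟮f⟯) : E) * β := by
    intro i hi
    show aeval f (a i * ∏ j ∈ (Finset.range (n + 1)).erase i, b j) = _
    rw [map_mul, ← hab, map_prod, hβ, ← Finset.mul_prod_erase _ _ hi]
    ring
  refine ⟨n, p, ?_, ?_⟩
  · have h1 : ∑ i ∈ Finset.range (n + 1), aeval f (p i) * y ^ i = β * aeval y μ := by
      rw [aeval_eq_sum_range, ← hn, Finset.mul_sum]
      refine Finset.sum_congr rfl (fun i hi => ?_)
      rw [hp i hi, Algebra.smul_def]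
      show ((μ.coeff i : k⟮f⟯) : E) * β * y ^ i = β * (((μ.coeff i : k⟮f⟯) : E) * y ^ i)
      ring
    rw [h1, minpoly.aeval, mul_zero]
  · have h1 : ∑ i ∈ Finset.range (n + 1), aeval f (p i) * (i * y ^ (i - 1)) =
        β * aeval y (derivative μ) := by
      have h2 : derivative μ = ∑ i ∈ Finset.range (n + 1), C (μ.coeff i * i) * X ^ (i - 1) := by
        rw [derivative_apply, sum_over_range _ (by simp)]
      rw [h2, map_sum, Finset.mul_sum]
      refine Finset.sum_congr rfl (fun i hi => ?_)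
      rw [hp i hi, map_mul, aeval_C, map_pow, aeval_X, map_mul, map_natCast]
      show ((μ.coeff i : k⟮f⟯) : E) * β * (i * y ^ (i - 1)) =
        β * (((μ.coeff i : k⟮f⟯) : E) * i * y ^ (i - 1))
      ring
    rw [h1]
    exact mul_ne_zero hβ0 hsep

theorem der_ne_zero [CharZero k] (hE : Cur k E) (D : Derivation k E E) {x : E} (hD : D x ≠ 0)
    {f : E} (hf : Transcendental k f) : D f ≠ 0 := by
  intro h0
  have hfd := hE f hf
  obtain ⟨n, p, h1, h2⟩ := rel_exists (Algebra.IsAlgebraic.isAlgebraic (R := k⟮f⟯) x)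
  have h3 := bivar D f x n p
  rw [h1, map_zero, h0, smul_zero, zero_add, smul_eq_mul] at h3
  rcases mul_eq_zero.1 h3.symm with h4 | h4
  · exact h2 h4
  · exact hD h4

/-- **a regular differential** -/
theorem hol_exists [IsAlgClosed k] [CharZero k] (hE : Cur k E)
    (hne : ∀ s : E, k⟮s⟯ ≠ ⊤) {f : E} (hf : Transcendental k f) :
    ∃ (D : Derivation k E E) (c : E), D f = 1 ∧ Hol k D c := by
  classical
  -- an element of minimal degree
  let P : ℕ → Prop := fun N => ∃ x : E, Transcendental k x ∧ Module.finrank k⟮x⟯ E = N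
  have hP : ∃ N, P N := ⟨_, f, hf, rfl⟩
  obtain ⟨x, hx, hxN⟩ := Nat.find_spec hP
  have hmin : ∀ h : E, Transcendental k h → Module.finrank k⟮x⟯ E ≤ Module.finrank k⟮h⟯ E := by
    intro h hh
    rw [hxN]
    exact Nat.find_min' hP ⟨h, hh, rfl⟩
  have hfd := hE x hx
  have hx0 : x ≠ 0 := by
    rintro rfl
    exact hx isAlgebraic_zero
  have hn1 : Module.finrank k⟮x⟯ E ≠ 1 := by
    intro h
    apply hne x
    rw [eq_top_iff]
    intro z _
    have h1 : (⊥ : Subalgebra k⟮x⟯ E) = ⊤ := Subalgebra.bot_eq_top_of_finrank_eq_one h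
    have h2 : z ∈ (⊥ : Subalgebra k⟮x⟯ E) := by
      rw [h1]
      trivial
    obtain ⟨y, hy⟩ := Algebra.mem_bot.1 h2
    rw [← hy]
    exact y.2
  have hn2 : 2 ≤ Module.finrank k⟮x⟯ E := by
    have : 0 < Module.finrank k⟮x⟯ E := Module.finrank_pos
    omega
  -- the derivation
  obtain ⟨D₀, hD₀⟩ := Pool.Agent.SGL.DEV_.main k E x hx
  let D₁ : Derivation k E E := (D₀ x)⁻¹ • D₀
  have hD₁' : ∀ y, D₁ y = (D₀ x)⁻¹ * D₀ y := fun y => rfl
  have hD₁ : D₁ x = 1 := by
    rw [hD₁', inv_mul_cancel₀ hD₀]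
  obtain ⟨e, a, he, ha, hr⟩ := rbasis hE hx
  have key : ∃ c : E, Hol k D₁ c := by
    by_cases hex : ∃ i, 2 ≤ a i
    · obtain ⟨i, hi⟩ := hex
      exact caseA hE hx D₁ hD₁ e a he ha hr i hi
    · exfalso
      push Not at hex
      have hli := li_of_span hE hx he
      obtain ⟨i, hi⟩ : ∃ i, e i ∉ k⟮x⟯ := by
        by_contra hcon
        push Not at hcon
        let i₀ : Fin (Module.finrank k⟮x⟯ E) := ⟨0, by omega⟩
        let i₁ : Fin (Module.finrank k⟮x⟯ E) := ⟨1, by omega⟩
        have h01 : i₀ ≠ i₁ := by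
          intro h
          have := congrArg Fin.val h
          simp [i₀, i₁] at this
        have h1 := li_zero hli (fun j => if j = i₀ then e i₁ else if j = i₁ then -e i₀ else 0)
          (fun j => by
            split_ifs
            · exact hcon i₁
            · exact neg_mem (hcon i₀)
            · exact zero_mem _) (by
            rw [← Finset.add_sum_erase _ _ (Finset.mem_univ i₀),
              ← Finset.add_sum_erase _ _ (Finset.mem_erase.2 ⟨h01.symm, Finset.mem_univ i₁⟩)]
            rw [Finset.sum_eq_zero]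
            · rw [if_pos rfl, if_neg h01.symm, if_pos rfl]
              ring
            · intro j hj
              rw [Finset.mem_erase, Finset.mem_erase] at hj
              rw [if_neg hj.2.1, if_neg hj.1, zero_mul]) i₀
        rw [if_pos rfl] at h1
        exact hli.ne_zero i₁ h1
      have hS : x⁻¹ * e i ∈ Sx k x := by
        have h1 := hex i
        have h2 := ha i
        intro W hW hxW
        have h3 := h2 W hW hxW
        rcases Nat.eq_zero_or_pos (a i) with h4 | h4
        · rw [h4, pow_zero, inv_one, one_mul] at h3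
          refine W.mul_mem _ _ ?_ h3
          rw [← W.valuation_le_one_iff, map_inv₀]
          exact (inv_lt_one_of_one_lt₀ hxW).le
        · have h5 : a i = 1 := by omega
          rw [h5, pow_one] at h3
          exact h3
      obtain ⟨h, hh, hlt⟩ := deg_drop hE hx (he.1 i) hS hi
      exact absurd (hmin h hh) (not_le.2 hlt)
  obtain ⟨c, hc0, hc⟩ := key
  have hDf : D₁ f ≠ 0 := der_ne_zero hE D₁ (x := x) (by rw [hD₁]; exact one_ne_zero) hf
  refine ⟨(D₁ f)⁻¹ • D₁, (D₁ f)⁻¹ * c, ?_, mul_ne_zero (inv_ne_zero hDf) hc0, ?_⟩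
  · show (D₁ f)⁻¹ * D₁ f = 1
    rw [inv_mul_cancel₀ hDf]
  · intro V hV
    obtain ⟨t, ht, ht2⟩ := hc V hV
    refine ⟨t, ht, ?_⟩
    show V.valuation ((D₁ f)⁻¹ * c) ≤ V.valuation ((D₁ f)⁻¹ * D₁ t)
    rw [map_mul, map_mul]
    exact mul_le_mul_right ht2 _

end

end Pool.Agent.SRF
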