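import Mathlib

/-!
# SRF TRC: the trace form modulo a prime, and denominators in valuation rings
-/

set_option autoImplicit false

namespace Pool.Agent.SRF

open IsLocalRing

section

attribute [local instance] Ideal.Quotient.field

/-- an element which is orthogonal to everything modulo the prime is nilpotent modulo the prime -/
theorem trc (R K E : Type) [CommRing R] [IsDomain R] [IsDiscreteValuationRing R] [Field K]
    [Algebra R K] [IsFractionRing R K] [Field E] [Algebra K E] [FiniteDimensional K E] [CharZero K]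
    [Algebra R E] [IsScalarTower R K E] (hchar : CharZero (R ⧸ maximalIdeal R)) (z : E)
    (hz : IsIntegral R z) (h : ∀ y : E, IsIntegral R y →
      ∃ r ∈ maximalIdeal R, Algebra.trace K E (z * y) = algebraMap R K r) :
    ∃ (N : ℕ) (ϖ : R) (w : E), ϖ ∈ maximalIdeal R ∧ IsIntegral R w ∧
      z ^ N = algebraMap R E ϖ * w := by
  classical
  let S := integralClosure R E
  have hsep : Algebra.IsSeparable K E := inferInstance
  have hfin : Module.Finite R S := IsIntegralClosure.finite R K E S
  have hfree : Module.Free R S := by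
    have : Module.IsTorsionFree R E := by
      have h1 : Function.Injective (algebraMap R E) := by
        rw [IsScalarTower.algebraMap_eq R K E]
        exact (algebraMap K E).injective.comp (IsFractionRing.injective R K)
      exact Module.isTorsionFree_iff_algebraMap_injective.2 h1
    exact IsIntegralClosure.module_free R K E S
  have hloc : IsLocalization (Algebra.algebraMapSubmonoid S (nonZeroDivisors R)) E :=
    IsIntegralClosure.isLocalization R K E S
  let z' : S := ⟨z, hz⟩
  have htr : ∀ y : S, Algebra.trace R S (z' * y) ∈ maximalIdeal R := by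
    intro y
    obtain ⟨r, hr, h1⟩ := h y y.2
    have h2 := Algebra.trace_localization (Rₘ := K) (Sₘ := E) R (nonZeroDivisors R) (z' * y)
    have h3 : algebraMap R K r = algebraMap R K (Algebra.trace R S (z' * y)) := by
      rw [← h1, ← h2]
      rfl
    rw [← IsFractionRing.injective R K h3]
    exact hr
  set pS : Ideal S := (maximalIdeal R).map (algebraMap R S) with hpS
  have hfinB : Module.Finite (R ⧸ maximalIdeal R) (S ⧸ pS) := inferInstance
  have hart : IsArtinianRing (S ⧸ pS) := IsArtinianRing.of_finite (R ⧸ maximalIdeal R) (S ⧸ pS)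
  set zb : S ⧸ pS := Ideal.Quotient.mk pS z' with hzb
  have htr0 : ∀ y : S ⧸ pS, Algebra.trace (R ⧸ maximalIdeal R) (S ⧸ pS) (zb * y) = 0 := by
    intro y
    obtain ⟨y, rfl⟩ := Ideal.Quotient.mk_surjective y
    rw [hzb, ← map_mul, Algebra.trace_quotient_mk]
    exact Ideal.Quotient.eq_zero_iff_mem.2 (htr y)
  obtain ⟨n, y, hy⟩ := IsArtinian.exists_pow_succ_smul_dvd zb (1 : S ⧸ pS)
  simp only [smul_eq_mul, mul_one] at hy
  -- the idempotent
  have h1 : ∀ j : ℕ, zb ^ (n + 1) * (zb * y) ^ j = zb ^ (n + 1) := by
    intro j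
    induction j with
    | zero => rw [pow_zero, mul_one]
    | succ j ih =>
      rw [pow_succ (zb * y) j, ← mul_assoc, ih]
      have : zb ^ (n + 1) * (zb * y) = zb * (zb ^ n.succ * y) := by
        rw [Nat.succ_eq_add_one]
        ring
      rw [this, hy, ← pow_succ']
  set e : S ⧸ pS := (zb * y) ^ (n + 1) with he
  have hee : e * e = e := by
    have : e * e = (zb ^ (n + 1) * (zb * y) ^ (n + 1)) * y ^ (n + 1) := by
      rw [he, mul_pow zb y]
      ring
    rw [this, h1, ← mul_pow]
  have he0 : e = 0 := by
    have h2 : Algebra.trace (R ⧸ maximalIdeal R) (S ⧸ pS) e = 0 := by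
      have : e = zb * (y * (zb * y) ^ n) := by
        rw [he]
        ring
      rw [this]
      exact htr0 _
    rw [Algebra.trace_apply] at h2
    have hid : IsIdempotentElem (LinearMap.mulLeft (R ⧸ maximalIdeal R) e) := by
      show (LinearMap.mulLeft (R ⧸ maximalIdeal R) e) * (LinearMap.mulLeft _ e) =
        LinearMap.mulLeft _ e
      apply LinearMap.ext
      intro x
      show e * (e * x) = e * x
      rw [← mul_assoc, hee]
    have h3 := (LinearMap.IsIdempotentElem.trace_eq_zero_iff hid).1 h2
    have h4 := congrArg (fun f : (S ⧸ pS) →ₗ[R ⧸ maximalIdeal R] (S ⧸ pS) => f 1) h3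
    simpa using h4
  have hz0 : zb ^ (n + 1) = 0 := by
    rw [← h1 (n + 1), ← he, he0, mul_zero]
  have hmem : z' ^ (n + 1) ∈ pS := by
    rw [← Ideal.Quotient.eq_zero_iff_mem, map_pow]
    exact hz0
  obtain ⟨ϖ, hϖ⟩ := IsPrincipalIdealRing.principal (maximalIdeal R)
  have hϖ' : maximalIdeal R = Ideal.span {ϖ} := hϖ
  rw [hpS, hϖ', Ideal.map_span, Set.image_singleton, Ideal.mem_span_singleton] at hmem
  obtain ⟨w, hw⟩ := hmem
  refine ⟨n + 1, ϖ, w, ?_, w.2, ?_⟩
  · rw [hϖ']
    exact Ideal.mem_span_singleton_self ϖ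
  · exact congrArg Subtype.val hw

end

section

variable {E : Type} [Field E]

theorem int_of_val (B : Subring E) (z : E)
    (h : ∀ V : ValuationSubring E, B ≤ V.toSubring → z ∈ V) : IsIntegral B z := by
  by_contra hz
  have h1 : z ∉ (integralClosure B E).toSubring := hz
  obtain ⟨V, hV, hzV⟩ := Subring.exists_le_valuationSubring_of_isIntegrallyClosedIn h1
  apply hzV
  apply h V
  intro b hb
  apply hV
  exact isIntegral_algebraMap (R := B) (x := (⟨b, hb⟩ : B))

theorem val_of_int (B : Subring E) (z : E) (h : IsIntegral B z) (V : ValuationSubring E)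
    (hV : B ≤ V.toSubring) : z ∈ V := by
  have h1 : IsIntegral V z := by
    obtain ⟨P, hP, hPz⟩ := h
    let f : B →+* V := Subring.inclusion hV
    refine ⟨P.map f, hP.map f, ?_⟩
    rw [Polynomial.eval₂_map]
    exact hPz
  obtain ⟨y, hy⟩ := IsIntegrallyClosed.isIntegral_iff.1 h1
  rw [← hy]
  exact y.2

/-- a denominator which is prime to the valuation -/
theorem denom (B : Subring E) (V : ValuationSubring E) (hB : B ≤ V.toSubring) (y : E)
    (hy : V.valuation y ≤ 1) (n : ℕ) (a : ℕ → E) (ha : ∀ i ≤ n, a i ∈ B)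
    (hex : ∃ i ≤ n, V.valuation (a i) = 1)
    (h0 : ∑ i ∈ Finset.range (n + 1), a i * y ^ i = 0) :
    ∃ z : E, IsIntegral B z ∧ IsIntegral B (z * y) ∧ V.valuation z = 1 := by
  classical
  have haV : ∀ i ≤ n, V.valuation (a i) ≤ 1 := fun i hi =>
    (V.valuation_le_one_iff _).2 (hB (ha i hi))
  -- the last coefficient which is a unit
  let P : ℕ → Prop := fun i => i ≤ n ∧ V.valuation (a i) = 1
  obtain ⟨i₁, hi₁, hi₁'⟩ := hex
  let s := Nat.findGreatest P n
  have hs : P s := Nat.findGreatest_spec (P := P) hi₁ ⟨hi₁, hi₁'⟩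
  have hgt : ∀ i, s < i → i ≤ n → V.valuation (a i) < 1 := by
    intro i hi hin
    refine lt_of_le_of_ne (haV i hin) (fun h => ?_)
    exact absurd (Nat.le_findGreatest (P := P) hin ⟨hin, h⟩) (not_le.2 hi)
  let z : E := ∑ i ∈ Finset.range (n + 1 - s), a (s + i) * y ^ i
  have hzy : z * y ^ s = - ∑ i ∈ Finset.range s, a i * y ^ i := by
    have h1 := Finset.sum_range_add_sum_Ico (fun i => a i * y ^ i) (show s ≤ n + 1 from by
      have := hs.1
      omega)
    rw [h0, Finset.sum_Ico_eq_sum_range] at h1
    have h2 : z * y ^ s = ∑ i ∈ Finset.range (n + 1 - s), a (s + i) * y ^ (s + i) := by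
      show (∑ i ∈ Finset.range (n + 1 - s), a (s + i) * y ^ i) * y ^ s = _
      rw [Finset.sum_mul]
      refine Finset.sum_congr rfl (fun i _ => ?_)
      rw [pow_add]
      ring
    rw [h2]
    linear_combination h1
  have hzV : V.valuation z = 1 := by
    have h1 : n + 1 - s = (n - s) + 1 := by
      have := hs.1
      omega
    show V.valuation (∑ i ∈ Finset.range (n + 1 - s), a (s + i) * y ^ i) = 1
    rw [h1, Finset.sum_range_succ', pow_zero, mul_one, add_zero]
    rw [Valuation.map_add_eq_of_lt_right, hs.2]
    rw [hs.2]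
    apply Valuation.map_sum_lt _ one_ne_zero
    intro i hi
    rw [Finset.mem_range] at hi
    rw [map_mul, map_pow]
    calc V.valuation (a (s + (i + 1))) * V.valuation y ^ (i + 1) ≤
        V.valuation (a (s + (i + 1))) * 1 := mul_le_mul_right (pow_le_one' hy _) _
      _ < 1 := by
        rw [mul_one]
        exact hgt _ (by omega) (by omega)
  have hboth : ∀ W : ValuationSubring E, B ≤ W.toSubring → z ∈ W ∧ z * y ∈ W := by
    intro W hW
    have haW : ∀ i ≤ n, a i ∈ W := fun i hi => hW (ha i hi)
    rcases W.mem_or_inv_mem y with h1 | h1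
    · have h2 : z ∈ W := by
        refine sum_mem (fun i hi => ?_)
        rw [Finset.mem_range] at hi
        exact mul_mem (haW _ (by omega)) (pow_mem h1 i)
      exact ⟨h2, mul_mem h2 h1⟩
    · by_cases hy0 : y = 0
      · have h2 : z ∈ W := by
          refine sum_mem (fun i hi => ?_)
          rw [Finset.mem_range] at hi
          exact mul_mem (haW _ (by omega)) (pow_mem (by rw [hy0]; exact W.zero_mem) i)
        exact ⟨h2, by rw [hy0, mul_zero]; exact W.zero_mem⟩
      have hs1 : 1 ≤ s := by
        by_contra hcon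
        have hs0 : s = 0 := by omega
        rw [hs0] at hzy
        simp only [pow_zero, mul_one, Finset.range_zero, Finset.sum_empty, neg_zero] at hzy
        rw [hzy, map_zero] at hzV
        exact zero_ne_one hzV
      have h3 : z * y = - ∑ i ∈ Finset.range s, a i * (y⁻¹) ^ (s - 1 - i) := by
        have h4 : z * y * y ^ (s - 1) = (- ∑ i ∈ Finset.range s, a i * (y⁻¹) ^ (s - 1 - i)) *
            y ^ (s - 1) := by
          rw [mul_assoc, ← pow_succ', Nat.sub_add_cancel hs1, hzy, neg_mul, Finset.sum_mul]
          congr 1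
          refine Finset.sum_congr rfl (fun i hi => ?_)
          rw [Finset.mem_range] at hi
          have h5 : y ^ (s - 1) = y ^ (s - 1 - i) * y ^ i := by
            rw [← pow_add]
            congr 1
            omega
          have h6 : (y⁻¹) ^ (s - 1 - i) * y ^ (s - 1 - i) = 1 := by
            rw [← mul_pow, inv_mul_cancel₀ hy0, one_pow]
          rw [h5]
          linear_combination (-(a i * y ^ i)) * h6
        exact mul_right_cancel₀ (pow_ne_zero _ hy0) h4
      have h7 : z * y ∈ W := by
        rw [h3]
        refine neg_mem (sum_mem (fun i hi => ?_))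
        rw [Finset.mem_range] at hi
        exact mul_mem (haW _ (by have := hs.1; omega)) (pow_mem h1 _)
      refine ⟨?_, h7⟩
      have h8 := mul_mem h7 h1
      rwa [mul_assoc, mul_inv_cancel₀ hy0, mul_one] at h8
  exact ⟨z, int_of_val B z (fun W hW => (hboth W hW).1),
    int_of_val B _ (fun W hW => (hboth W hW).2), hzV⟩

end

end Pool.Agent.SRF
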