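import Pool.Agent.SRF.PLA
import Pool.Agent.SRF.TRC

/-!
# SRF LOC: the local condition for differentials
-/

set_option autoImplicit false

namespace Pool.Agent.SRF

open IntermediateField Polynomial IsLocalRing

section

variable {k E : Type} [Field k] [Field E] [Algebra k E]

/-- the elements of the subfield which lie in the valuation ring -/
def B0 (Kx : IntermediateField k E) (V : ValuationSubring E) : Subring E :=
  V.toSubring ⊓ Kx.toSubfield.toSubring

theorem mem_B0 {Kx : IntermediateField k E} {V : ValuationSubring E} {z : E} :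
    z ∈ B0 Kx V ↔ z ∈ V ∧ z ∈ Kx := Iff.rfl

theorem val_pow_of_mem [IsAlgClosed k] {V : ValuationSubring E}
    (hV : ∀ c : k, algebraMap k E c ∈ V) {τ : E}
    (hτ : V.valuation τ < 1) (hτ0 : τ ≠ 0) {z : E} (hz : z ∈ k⟮τ⟯) (hz0 : z ≠ 0)
    (hz1 : V.valuation z ≤ 1) : ∃ m : ℕ, V.valuation z = V.valuation τ ^ m := by
  have hvτ : 0 < V.valuation τ := zero_lt_iff.2 ((map_ne_zero V.valuation).2 hτ0)
  have hx : 1 < V.valuation τ⁻¹ := by
    rw [map_inv₀]
    exact (one_lt_inv₀ hvτ).2 hτ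
  have hz' : z ∈ k⟮τ⁻¹⟯ := by
    have h1 : k⟮τ⟯ ≤ k⟮τ⁻¹⟯ := by
      rw [adjoin_simple_le_iff]
      have := inv_mem (mem_adjoin_simple_self k τ⁻¹)
      rwa [inv_inv] at this
    exact h1 hz
  obtain ⟨n, c, hc, h⟩ := lead τ⁻¹ (transc_of_one_lt hV hx) z hz' hz0
  have h2 := val_of_lead hV hx hc (h V hV hx)
  rw [h2] at hz1
  have hn : n ≤ 0 := by
    by_contra hcon
    push Not at hcon
    exact absurd hz1 (not_le.2 (one_lt_zpow₀ hx hcon))
  obtain ⟨m, hm⟩ := Int.eq_ofNat_of_zero_le (show 0 ≤ -n by omega)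
  refine ⟨m, ?_⟩
  rw [h2, map_inv₀, inv_zpow, ← zpow_neg, hm, zpow_natCast]

theorem dvr [IsAlgClosed k] {V : ValuationSubring E}
    (hV : ∀ c : k, algebraMap k E c ∈ V) (Kx : IntermediateField k E) {τ : E}
    (hτ : V.valuation τ < 1) (hτ0 : τ ≠ 0) (hK : k⟮τ⟯ = Kx) :
    IsDiscreteValuationRing (V.comap (algebraMap Kx E)) := by
  classical
  set V0 : ValuationSubring Kx := V.comap (algebraMap Kx E) with hV0
  have hmem : ∀ z : Kx, z ∈ V0 ↔ V.valuation (z : E) ≤ 1 := by
    intro z
    rw [V.valuation_le_one_iff]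
    exact Iff.rfl
  have hτK : τ ∈ Kx := by
    rw [← hK]
    exact mem_adjoin_simple_self k τ
  have hvτ : 0 < V.valuation τ := zero_lt_iff.2 ((map_ne_zero V.valuation).2 hτ0)
  let p : V0 := ⟨⟨τ, hτK⟩, (hmem _).2 hτ.le⟩
  have hunit : ∀ a : V0, V.valuation ((a : Kx) : E) = 1 → IsUnit a := by
    intro a ha
    rw [isUnit_iff_exists_inv]
    have ha0 : (a : Kx) ≠ 0 := by
      intro h
      rw [h] at ha
      simp at ha
    refine ⟨⟨(a : Kx)⁻¹, (hmem _).2 ?_⟩, ?_⟩
    · show V.valuation (((a : Kx)⁻¹ : Kx) : E) ≤ 1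
      rw [IntermediateField.coe_inv, map_inv₀, ha, inv_one]
    · apply Subtype.ext
      exact mul_inv_cancel₀ ha0
  have hpow : ∀ a : V0, a ≠ 0 → ∃ m : ℕ, V.valuation ((a : Kx) : E) = V.valuation τ ^ m := by
    intro a ha
    refine val_pow_of_mem hV hτ hτ0 ?_ ?_ ((hmem a).1 a.2)
    · rw [hK]
      exact (a : Kx).2
    · intro h
      exact ha (Subtype.ext (Subtype.ext h))
  have hirr : Irreducible p := by
    constructor
    · intro hu
      obtain ⟨b, hb⟩ := isUnit_iff_exists_inv.1 hu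
      have h1 : V.valuation τ * V.valuation ((b : Kx) : E) = 1 := by
        rw [← map_mul]
        have h2 : τ * ((b : Kx) : E) = 1 := congrArg (fun w : V0 => ((w : Kx) : E)) hb
        rw [h2, map_one]
      have h3 : V.valuation τ * V.valuation ((b : Kx) : E) < 1 := by
        calc V.valuation τ * V.valuation ((b : Kx) : E) ≤ V.valuation τ * 1 :=
              mul_le_mul_right ((hmem b).1 b.2) _
          _ < 1 := by rw [mul_one]; exact hτ
      exact absurd h1 h3.ne
    · intro a b hab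
      have h2 : τ = ((a : Kx) : E) * ((b : Kx) : E) := congrArg (fun w : V0 => ((w : Kx) : E)) hab
      have ha0 : a ≠ 0 := by
        rintro rfl
        rw [h2] at hτ0
        simp at hτ0
      have hb0 : b ≠ 0 := by
        rintro rfl
        rw [h2] at hτ0
        simp at hτ0
      obtain ⟨i, hi⟩ := hpow a ha0
      obtain ⟨j, hj⟩ := hpow b hb0
      have h3 : V.valuation τ = V.valuation τ ^ (i + j) := by
        conv_lhs => rw [h2]
        rw [map_mul, hi, hj, pow_add]
      rcases Nat.eq_zero_or_pos i with h4 | h4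
      · left
        apply hunit
        rw [hi, h4, pow_zero]
      rcases Nat.eq_zero_or_pos j with h5 | h5
      · right
        apply hunit
        rw [hj, h5, pow_zero]
      exfalso
      have h6 : V.valuation τ ^ (i + j) < V.valuation τ ^ 1 :=
        pow_lt_pow_right_of_lt_one₀ hvτ hτ (by omega)
      rw [← h3, pow_one] at h6
      exact lt_irrefl _ h6
  apply IsDiscreteValuationRing.ofHasUnitMulPowIrreducibleFactorization
  refine ⟨p, hirr, ?_⟩
  intro a ha
  obtain ⟨m, hm⟩ := hpow a ha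
  refine ⟨m, ?_⟩
  have hτm : τ ^ m ≠ 0 := pow_ne_zero _ hτ0
  have hu : V.valuation (((a : Kx) : E) / τ ^ m) = 1 := by
    rw [map_div₀, map_pow, hm, div_self (pow_pos hvτ m).ne']
  let u : V0 := ⟨(a : Kx) / (⟨τ, hτK⟩ : Kx) ^ m, (hmem _).2 (by
    have : (((a : Kx) / (⟨τ, hτK⟩ : Kx) ^ m : Kx) : E) = ((a : Kx) : E) / τ ^ m := by
      push_cast
      rfl
    rw [this, hu])⟩
  have huu : IsUnit u := by
    apply hunit
    have : (((u : V0) : Kx) : E) = ((a : Kx) : E) / τ ^ m := by
      show (((a : Kx) / (⟨τ, hτK⟩ : Kx) ^ m : Kx) : E) = _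
      push_cast
      rfl
    rw [this, hu]
  obtain ⟨u', hu'⟩ := huu
  refine ⟨u', ?_⟩
  rw [hu']
  apply Subtype.ext
  apply Subtype.ext
  show τ ^ m * (((a : Kx) / (⟨τ, hτK⟩ : Kx) ^ m : Kx) : E) = ((a : Kx) : E)
  push_cast
  show τ ^ m * (((a : Kx) : E) / τ ^ m) = ((a : Kx) : E)
  rw [mul_div_cancel₀ _ hτm]

theorem int_B0 {Kx : IntermediateField k E} {V : ValuationSubring E} {y : E} :
    IsIntegral (V.comap (algebraMap Kx E)) y ↔ IsIntegral (B0 Kx V) y := by
  constructor
  · rintro ⟨P, hP, hPy⟩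
    let f : (V.comap (algebraMap Kx E)) →+* B0 Kx V :=
      { toFun := fun a => ⟨((a : Kx) : E), mem_B0.2 ⟨a.2, (a : Kx).2⟩⟩
        map_one' := rfl
        map_mul' := fun _ _ => rfl
        map_zero' := rfl
        map_add' := fun _ _ => rfl }
    refine ⟨P.map f, hP.map f, ?_⟩
    rw [Polynomial.eval₂_map]
    exact hPy
  · rintro ⟨P, hP, hPy⟩
    let f : B0 Kx V →+* (V.comap (algebraMap Kx E)) :=
      { toFun := fun a => ⟨⟨(a : E), (mem_B0.1 a.2).2⟩, (mem_B0.1 a.2).1⟩
        map_one' := rfl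
        map_mul' := fun _ _ => rfl
        map_zero' := rfl
        map_add' := fun _ _ => rfl }
    refine ⟨P.map f, hP.map f, ?_⟩
    rw [Polynomial.eval₂_map]
    exact hPy

/-- scaling an algebraic relation -/
theorem scale_rel {Kx : IntermediateField k E} {V : ValuationSubring E} {y : E}
    (hy : IsAlgebraic Kx y) : ∃ (n : ℕ) (a : ℕ → E), (∀ i ≤ n, a i ∈ B0 Kx V) ∧
      (∃ i ≤ n, V.valuation (a i) = 1) ∧ ∑ i ∈ Finset.range (n + 1), a i * y ^ i = 0 := by
  classical
  obtain ⟨P, hP, hPy⟩ := hy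
  obtain ⟨i₀, hi₀, hmax⟩ := Finset.exists_max_image (Finset.range (P.natDegree + 1))
    (fun i => V.valuation ((P.coeff i : Kx) : E)) ⟨0, by simp⟩
  rw [Finset.mem_range] at hi₀
  have hlc : V.valuation ((P.coeff P.natDegree : Kx) : E) ≠ 0 := by
    intro h
    have h1 : ((P.coeff P.natDegree : Kx) : E) = 0 := (map_eq_zero V.valuation).1 h
    have h2 : P.coeff P.natDegree = 0 := Subtype.ext h1
    exact hP (leadingCoeff_eq_zero.1 h2)
  have h0 : 0 < V.valuation ((P.coeff i₀ : Kx) : E) := by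
    refine lt_of_lt_of_le (zero_lt_iff.2 hlc) (hmax _ (by simp))
  have h0E : ((P.coeff i₀ : Kx) : E) ≠ 0 := by
    intro h
    rw [h, map_zero] at h0
    exact lt_irrefl _ h0
  refine ⟨P.natDegree, fun i => ((P.coeff i : Kx) : E) / ((P.coeff i₀ : Kx) : E), ?_, ?_, ?_⟩
  · intro i hi
    refine mem_B0.2 ⟨?_, div_mem (P.coeff i).2 (P.coeff i₀).2⟩
    rw [← V.valuation_le_one_iff, map_div₀, div_le_one₀ h0]
    exact hmax i (Finset.mem_range.2 (by omega))
  · refine ⟨i₀, by omega, ?_⟩
    simp only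
    rw [div_self h0E, map_one]
  · have h1 : ∑ i ∈ Finset.range (P.natDegree + 1), ((P.coeff i : Kx) : E) /
        ((P.coeff i₀ : Kx) : E) * y ^ i = (∑ i ∈ Finset.range (P.natDegree + 1),
        ((P.coeff i : Kx) : E) * y ^ i) / ((P.coeff i₀ : Kx) : E) := by
      rw [Finset.sum_div]
      refine Finset.sum_congr rfl (fun i _ => ?_)
      ring
    rw [h1]
    have h2 : ∑ i ∈ Finset.range (P.natDegree + 1), ((P.coeff i : Kx) : E) * y ^ i = 0 := by
      rw [← hPy, aeval_eq_sum_range]
      refine Finset.sum_congr rfl (fun i _ => ?_)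
      rw [Algebra.smul_def]
      rfl
    rw [h2, zero_div]

/-- **the local condition** -/
theorem loc [IsAlgClosed k] [CharZero k] (hE : Cur k E) {V : ValuationSubring E} (hV : Pl k V)
    (Kx : IntermediateField k E) {τ : E} (hτ : V.valuation τ < 1) (hτ0 : τ ≠ 0)
    (hK : k⟮τ⟯ = Kx) (D : Derivation k E E) (hD : D τ = 1) {c : E} (hc : c ≠ 0)
    (htr : ∀ y : E, IsIntegral (B0 Kx V) y → ((Algebra.trace Kx E (c * y) : Kx) : E) ∈ V) :
    ∃ t : E, V.valuation t < 1 ∧ V.valuation c ≤ V.valuation (D t) := by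
  classical
  have hvτ : 0 < V.valuation τ := zero_lt_iff.2 ((map_ne_zero V.valuation).2 hτ0)
  have hvc : 0 < V.valuation c := zero_lt_iff.2 ((map_ne_zero V.valuation).2 hc)
  by_contra hcon
  push Not at hcon
  have hchE : CharZero E := charZero_of_injective_algebraMap (algebraMap k E).injective
  have htt : Transcendental k τ := by
    intro h
    obtain ⟨a, ha⟩ := mem_range_of_alg h
    rw [← ha, val_const hV.1] at hτ
    · exact lt_irrefl _ hτ
    · rintro rfl
      rw [map_zero] at ha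
      exact hτ0 ha.symm
  have hfd : FiniteDimensional Kx E := by
    rw [← hK]
    exact hE τ htt
  let δ : Derivation k E E := c⁻¹ • D
  have hδ' : ∀ y, δ y = c⁻¹ * D y := fun y => rfl
  have hδ : ∀ y : E, V.valuation y ≤ 1 → V.valuation (δ y) < 1 := by
    intro y hy
    obtain ⟨a, ha⟩ := residue hE hV hy
    have h1 : δ y = c⁻¹ * D (y - algebraMap k E a) := by
      rw [hδ', map_sub, Derivation.map_algebraMap, sub_zero]
    rw [h1, map_mul, map_inv₀]
    have h2 := hcon _ ha
    rw [inv_mul_lt_one₀ hvc]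
    exact h2
  have h1 := logder hE hV δ hδ hτ
  rw [hδ', hD, mul_one] at h1
  set d : E := (c * τ)⁻¹ with hd
  have hd1 : V.valuation d ≤ 1 := by
    rw [hd, mul_inv, map_mul, map_inv₀ _ τ]
    calc V.valuation c⁻¹ * (V.valuation τ)⁻¹ ≤ V.valuation τ * (V.valuation τ)⁻¹ :=
          mul_le_mul_left h1 _
      _ = 1 := mul_inv_cancel₀ hvτ.ne'
  obtain ⟨n, a, ha, hex, h0⟩ := scale_rel (V := V) (Algebra.IsAlgebraic.isAlgebraic (R := Kx) d)
  obtain ⟨z, hz, hzd, hz1⟩ := denom (B0 Kx V) V inf_le_left d hd1 n a ha hex h0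
  have hdvr := dvr hV.1 Kx hτ hτ0 hK
  have hτK : τ ∈ Kx := by
    rw [← hK]
    exact mem_adjoin_simple_self k τ
  have hchar : CharZero ((V.comap (algebraMap Kx E)) ⧸ maximalIdeal (V.comap (algebraMap Kx E))) := by
    let f : k →+* (V.comap (algebraMap Kx E)) :=
      { toFun := fun a => ⟨algebraMap k Kx a, hV.1 a⟩
        map_one' := Subtype.ext (map_one _)
        map_mul' := fun _ _ => Subtype.ext (map_mul _ _ _)
        map_zero' := Subtype.ext (map_zero _)
        map_add' := fun _ _ => Subtype.ext (map_add _ _ _) }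
    exact charZero_of_injective_ringHom (f := (Ideal.Quotient.mk _).comp f)
      (RingHom.injective _)
  have hmax : ∀ r : V.comap (algebraMap Kx E), V.valuation ((r : Kx) : E) < 1 →
      r ∈ maximalIdeal (V.comap (algebraMap Kx E)) := by
    intro r hr
    rw [mem_maximalIdeal, mem_nonunits_iff]
    intro hu
    obtain ⟨b, hb⟩ := isUnit_iff_exists_inv.1 hu
    have h1 : V.valuation ((r : Kx) : E) * V.valuation ((b : Kx) : E) = 1 := by
      rw [← map_mul]
      have h2 : ((r : Kx) : E) * ((b : Kx) : E) = 1 :=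
        congrArg (fun w : V.comap (algebraMap Kx E) => ((w : Kx) : E)) hb
      rw [h2, map_one]
    have h3 : V.valuation ((r : Kx) : E) * V.valuation ((b : Kx) : E) < 1 := by
      calc V.valuation ((r : Kx) : E) * V.valuation ((b : Kx) : E) ≤
            V.valuation ((r : Kx) : E) * 1 :=
            mul_le_mul_right ((V.valuation_le_one_iff _).2 b.2) _
        _ < 1 := by rw [mul_one]; exact hr
    exact absurd h1 h3.ne
  have hmax' : ∀ r : V.comap (algebraMap Kx E),
      r ∈ maximalIdeal (V.comap (algebraMap Kx E)) → V.valuation ((r : Kx) : E) < 1 := by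
    intro r hr
    rw [mem_maximalIdeal, mem_nonunits_iff] at hr
    have h2 : V.valuation ((r : Kx) : E) ≤ 1 := (V.valuation_le_one_iff _).2 r.2
    refine lt_of_le_of_ne h2 (fun h => hr ?_)
    rw [isUnit_iff_exists_inv]
    have ha0 : (r : Kx) ≠ 0 := by
      intro h'
      rw [h'] at h
      simp at h
    refine ⟨⟨(r : Kx)⁻¹, ?_⟩, ?_⟩
    · show (((r : Kx)⁻¹ : Kx) : E) ∈ V
      rw [← V.valuation_le_one_iff, IntermediateField.coe_inv, map_inv₀, h, inv_one]
    · apply Subtype.ext
      exact mul_inv_cancel₀ ha0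
  have hfr : IsFractionRing (V.comap (algebraMap Kx E)) Kx := inferInstance
  obtain ⟨N, ϖ, w, hϖ, hw, hzN⟩ := trc (V.comap (algebraMap Kx E)) Kx E hchar z
    (int_B0.2 hz) (by
      intro y hy
      have hy' : IsIntegral (B0 Kx V) (z * d * y) := hzd.mul (int_B0.1 hy)
      have h2 := htr _ hy'
      have h3 : Algebra.trace Kx E (z * y) = (⟨τ, hτK⟩ : Kx) *
          Algebra.trace Kx E (c * (z * d * y)) := by
        have h4 : z * y = (⟨τ, hτK⟩ : Kx) • (c * (z * d * y)) := by
          rw [Algebra.smul_def]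
          show z * y = τ * (c * (z * d * y))
          rw [hd]
          field_simp
        rw [h4, map_smul, smul_eq_mul]
      refine ⟨⟨Algebra.trace Kx E (z * y), ?_⟩, ?_, rfl⟩
      · show ((Algebra.trace Kx E (z * y) : Kx) : E) ∈ V
        rw [h3]
        exact V.mul_mem _ _ ((V.valuation_le_one_iff _).1 hτ.le) h2
      · apply hmax
        show V.valuation ((Algebra.trace Kx E (z * y) : Kx) : E) < 1
        rw [h3]
        show V.valuation (τ * ((Algebra.trace Kx E (c * (z * d * y)) : Kx) : E)) < 1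
        rw [map_mul]
        calc V.valuation τ * V.valuation ((Algebra.trace Kx E (c * (z * d * y)) : Kx) : E)
            ≤ V.valuation τ * 1 := mul_le_mul_right ((V.valuation_le_one_iff _).2 h2) _
          _ < 1 := by rw [mul_one]; exact hτ)
  have h5 : V.valuation (z ^ N) < 1 := by
    rw [hzN, map_mul]
    have h6 : V.valuation w ≤ 1 :=
      (V.valuation_le_one_iff _).2 (val_of_int (B0 Kx V) w (int_B0.1 hw) V inf_le_left)
    have h7 : V.valuation (algebraMap (V.comap (algebraMap Kx E)) E ϖ) < 1 := hmax' ϖ hϖ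
    calc V.valuation (algebraMap (V.comap (algebraMap Kx E)) E ϖ) * V.valuation w
        ≤ V.valuation (algebraMap (V.comap (algebraMap Kx E)) E ϖ) * 1 :=
          mul_le_mul_right h6 _
      _ < 1 := by rw [mul_one]; exact h7
  rw [map_pow, hz1, one_pow] at h5
  exact lt_irrefl _ h5

end

end Pool.Agent.SRF
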