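import Pool.Agent.SRF.FINS
import Pool.Agent.SBT.MainK

/-!
# SRF MOB: fractional linear transforms of `π`
-/

set_option autoImplicit false

namespace Pool.Agent.SRF

open Pool.Agent.SGL IntermediateField Filter

/-- the number `y` is simple in base `b` -/
def Smp (N Λ : ℕ → ℕ) (b : ℕ) (y : ℝ) : Prop :=
  ∃ C : ℕ, ∀ n, SBT.cnt b y (N n) (Λ n * N n) ≤ C * N n

/-- linear disjointness of the real algebraic numbers and the simple numbers -/
theorem wkfa (N Λ : ℕ → ℕ) (hN : Tendsto N atTop atTop) (hΛ : Tendsto Λ atTop atTop)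
    (m : ℕ) (x β : Fin m → ℝ)
    (hx : ∀ i, x i ∈ Algebra.adjoin ℚ {y : ℝ | ∃ b : ℕ, 2 ≤ b ∧ Smp N Λ b y})
    (hβ : ∀ i, IsAlgebraic ℚ (β i)) (hli : LinearIndependent ℚ x) (hsum : ∑ i, β i * x i = 0) :
    ∀ i, β i = 0 := by
  classical
  set F : Filter ℕ := map N atTop with hF
  have hne : F.NeBot := inferInstance
  have hFle : F ≤ atTop := hN
  set G : Set ℝ := {y : ℝ | ∃ b : ℕ, 2 ≤ b ∧ Smp N Λ b y} with hG
  have hGD : ∀ y ∈ G, SBT.Des F y := by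
    rintro y ⟨b, hb, C, hy⟩
    apply SBT.KLC_ b C y F hb hFle
    intro lam
    rw [hF, eventually_map]
    filter_upwards [hΛ.eventually_ge_atTop lam] with n hn
    calc SBT.cnt b y (N n) (lam * N n) ≤ SBT.cnt b y (N n) (Λ n * N n) := by
          unfold SBT.cnt
          apply Set.ncard_le_ncard
          · rintro w ⟨i, hi, hw⟩
            exact ⟨i, lt_of_lt_of_le hi (Nat.mul_le_mul_right _ hn), hw⟩
          · have hf : (Set.pi Set.univ (fun _ : Fin (N n) => Set.Ico (0 : ℤ) (b : ℤ))).Finite :=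
              Set.Finite.pi (fun _ => Set.finite_Ico _ _)
            apply hf.subset
            rintro w ⟨i, _, hi⟩
            intro j _
            rw [hi j]
            exact SBT.KFA_.dig_mem hb y _
      _ ≤ C * N n := hy n
  have hdes : ∀ i, SBT.Des F (x i) := fun i => SBT.KRG_ F G hFle hGD _ (hx i)
  choose s B hB hdes' using hdes
  set s' : ℕ := ∑ i, s i with hs'
  set B' : ℝ := ∑ i, B i with hB'
  have hB'0 : 0 ≤ B' := Finset.sum_nonneg (fun i _ => hB i)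
  set K : IntermediateField ℚ ℝ := IntermediateField.adjoin ℚ (Set.range β) with hK
  have hfd : FiniteDimensional ℚ K := by
    have : Finite (Set.range β) := Set.finite_range β
    apply IntermediateField.finiteDimensional_adjoin
    rintro y ⟨i, rfl⟩
    exact (hβ i).isIntegral
  have hβK : ∀ i, β i ∈ K := fun i => IntermediateField.subset_adjoin ℚ _ ⟨i, rfl⟩
  intro i₀
  by_contra hi₀
  have hne0 : (⟨β i₀, hβK i₀⟩ : K) ≠ 0 := by
    intro h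
    exact hi₀ (congrArg Subtype.val h)
  obtain ⟨lam, hlam⟩ : ∃ lam : K →ₗ[ℚ] ℚ, lam ⟨β i₀, hβK i₀⟩ ≠ 0 := by
    by_contra hcon
    push Not at hcon
    exact hne0 ((Module.forall_dual_apply_eq_zero_iff ℚ _).1 hcon)
  obtain ⟨Λ₀, hΛ₀⟩ := SBT.KCR_ K m s' x (fun i => ⟨β i, hβK i⟩) lam B' hB'0 hsum
  have hU : ((Ultrafilter.of F : Ultrafilter ℕ) : Filter ℕ) ≤ F := Ultrafilter.of_le F
  have hT : Tendsto (fun n : ℕ => (n : ℝ)) ((Ultrafilter.of F : Ultrafilter ℕ) : Filter ℕ) atTop :=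
    tendsto_natCast_atTop_atTop.mono_left (hU.trans hFle)
  have happ : ∀ i, SBT.Apr (Ultrafilter.of F) (fun n : ℕ => (n : ℝ)) s' B' Λ₀ (x i) := by
    intro i
    refine (SBT.KAP_ (Ultrafilter.of F) (fun n : ℕ => (n : ℝ)) hT).1 (s i) s' (B i) B' Λ₀ Λ₀ _
      ?_ ?_ le_rfl (hdes' i _ Λ₀ hU)
    · exact Finset.single_le_sum (f := s) (fun j _ => Nat.zero_le _) (Finset.mem_univ i)
    · exact Finset.single_le_sum (f := B) (fun j _ => hB j) (Finset.mem_univ i)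
  have hfin := hΛ₀ (Ultrafilter.of F) (fun n : ℕ => (n : ℝ)) Λ₀ hT le_rfl happ
  have hfin2 : ∑ i, (lam ⟨β i, hβK i⟩ : ℚ) • x i = 0 := by
    rw [← hfin]
    refine Finset.sum_congr rfl (fun i _ => ?_)
    rw [Rat.smul_def]
  exact hlam (Fintype.linearIndependent_iff.1 hli _ hfin2 i₀)

/-- fractional linear transforms of `π` with real algebraic coefficients -/
def Fam (y : ℝ) : Prop :=
  ∃ α β γ δ : ℝ, IsAlgebraic ℚ α ∧ IsAlgebraic ℚ β ∧ IsAlgebraic ℚ γ ∧ IsAlgebraic ℚ δ ∧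
    α * δ ≠ β * γ ∧ y = (α * Real.pi + β) / (γ * Real.pi + δ)

theorem pi_lin {γ δ : ℝ} (hγ : IsAlgebraic ℚ γ) (hδ : IsAlgebraic ℚ δ)
    (h : γ * Real.pi + δ = 0) : γ = 0 ∧ δ = 0 := by
  have h1 : γ = 0 := by
    by_contra hne
    apply transcendental_pi
    have h2 : Real.pi = -δ * γ⁻¹ := by
      field_simp
      linarith
    rw [h2]
    exact hδ.neg.mul hγ.inv
  refine ⟨h1, ?_⟩
  rw [h1, zero_mul, zero_add] at h
  exact h

theorem Fam.transc {y : ℝ} (h : Fam y) : Transcendental ℚ y := by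
  obtain ⟨α, β, γ, δ, hα, hβ, hγ, hδ, hdet, rfl⟩ := h
  intro hy
  set y := (α * Real.pi + β) / (γ * Real.pi + δ) with hydef
  have h0 : γ * Real.pi + δ ≠ 0 := by
    intro h
    obtain ⟨h1, h2⟩ := pi_lin hγ hδ h
    rw [h1, h2] at hdet
    simp at hdet
  have h1 : (α - y * γ) * Real.pi + (β - y * δ) = 0 := by
    have : y * (γ * Real.pi + δ) = α * Real.pi + β := div_mul_cancel₀ _ h0
    linear_combination -this
  obtain ⟨h2, h3⟩ := pi_lin (hα.sub (hy.mul hγ)) (hβ.sub (hy.mul hδ)) h1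
  apply hdet
  linear_combination δ * h2 - γ * h3

/-- two members of the family satisfy a bilinear relation -/
theorem Fam.rel {y₁ y₂ : ℝ} (h₁ : Fam y₁) (h₂ : Fam y₂) :
    ∃ a b c d : ℝ, IsAlgebraic ℚ a ∧ IsAlgebraic ℚ b ∧ IsAlgebraic ℚ c ∧ IsAlgebraic ℚ d ∧
      a * d ≠ b * c ∧ y₂ * (c * y₁ + d) = a * y₁ + b := by
  obtain ⟨α₁, β₁, γ₁, δ₁, hα₁, hβ₁, hγ₁, hδ₁, hd₁, he₁⟩ := h₁
  obtain ⟨α₂, β₂, γ₂, δ₂, hα₂, hβ₂, hγ₂, hδ₂, hd₂, he₂⟩ := h₂
  have h01 : γ₁ * Real.pi + δ₁ ≠ 0 := by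
    intro h
    obtain ⟨h1, h2⟩ := pi_lin hγ₁ hδ₁ h
    rw [h1, h2] at hd₁
    simp at hd₁
  have h02 : γ₂ * Real.pi + δ₂ ≠ 0 := by
    intro h
    obtain ⟨h1, h2⟩ := pi_lin hγ₂ hδ₂ h
    rw [h1, h2] at hd₂
    simp at hd₂
  have e1 : y₁ * (γ₁ * Real.pi + δ₁) = α₁ * Real.pi + β₁ := by
    rw [he₁, div_mul_cancel₀ _ h01]
  have e2 : y₂ * (γ₂ * Real.pi + δ₂) = α₂ * Real.pi + β₂ := by
    rw [he₂, div_mul_cancel₀ _ h02]
  refine ⟨α₂ * δ₁ - β₂ * γ₁, β₂ * α₁ - α₂ * β₁, γ₂ * δ₁ - δ₂ * γ₁, δ₂ * α₁ - γ₂ * β₁,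
    (hα₂.mul hδ₁).sub (hβ₂.mul hγ₁), (hβ₂.mul hα₁).sub (hα₂.mul hβ₁),
    (hγ₂.mul hδ₁).sub (hδ₂.mul hγ₁), (hδ₂.mul hα₁).sub (hγ₂.mul hβ₁), ?_, ?_⟩
  · intro h
    have h1 : (α₁ * δ₁ - β₁ * γ₁) * (α₂ * δ₂ - β₂ * γ₂) = 0 := by linear_combination h
    rcases mul_eq_zero.1 h1 with h2 | h2
    · exact hd₁ (by linarith)
    · exact hd₂ (by linarith)
  · apply mul_right_cancel₀ h01
    linear_combination (y₂ * (γ₂ * δ₁ - δ₂ * γ₁) - (α₂ * δ₁ - β₂ * γ₁)) * e1 +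
      (α₁ * δ₁ - β₁ * γ₁) * e2

theorem Fam.sub {y : ℝ} (h : Fam y) (q : ℚ) : Fam (y - q) := by
  obtain ⟨α, β, γ, δ, hα, hβ, hγ, hδ, hdet, he⟩ := h
  have h0 : γ * Real.pi + δ ≠ 0 := by
    intro h
    obtain ⟨h1, h2⟩ := pi_lin hγ hδ h
    rw [h1, h2] at hdet
    simp at hdet
  have hq : IsAlgebraic ℚ (q : ℝ) := by
    have := isAlgebraic_algebraMap (A := ℝ) (R := ℚ) q
    simpa using this
  refine ⟨α - q * γ, β - q * δ, γ, δ, hα.sub (hq.mul hγ), hβ.sub (hq.mul hδ), hγ, hδ, ?_, ?_⟩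
  · intro h
    apply hdet
    linear_combination h
  · rw [he, eq_div_iff h0, sub_mul, div_mul_cancel₀ _ h0]
    ring

/-- two simple members of the family -/
theorem Fam.pair (N Λ : ℕ → ℕ) (hN : Tendsto N atTop atTop) (hΛ : Tendsto Λ atTop atTop)
    {y₁ y₂ : ℝ} (h₁ : Fam y₁) (h₂ : Fam y₂) (hs₁ : ∃ b, 2 ≤ b ∧ Smp N Λ b y₁)
    (hs₂ : ∃ b, 2 ≤ b ∧ Smp N Λ b y₂) :
    ∃ q c : ℚ, q ≠ 0 ∧ (y₂ = q * y₁ + c ∨ ∃ e : ℚ, y₂ = q / (y₁ - e) + c) := by
  obtain ⟨a, b, c, d, ha, hb, hc, hd, hdet, hrel⟩ := h₁.rel h₂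
  have ht₁ := h₁.transc
  have ht₂ := h₂.transc
  have hirr : ∀ {y : ℝ}, Transcendental ℚ y → ∀ q : ℚ, y ≠ q := by
    intro y hy q h
    apply hy
    rw [h]
    have := isAlgebraic_algebraMap (A := ℝ) (R := ℚ) q
    simpa using this
  set G : Set ℝ := {y : ℝ | ∃ b : ℕ, 2 ≤ b ∧ Smp N Λ b y} with hG
  have hm₁ : y₁ ∈ Algebra.adjoin ℚ G := Algebra.subset_adjoin hs₁
  have hm₂ : y₂ ∈ Algebra.adjoin ℚ G := Algebra.subset_adjoin hs₂
  have hdep : ¬ LinearIndependent ℚ ![1, y₁, y₂, y₁ * y₂] := by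
    intro hli
    have h1 := wkfa N Λ hN hΛ 4 ![1, y₁, y₂, y₁ * y₂] ![-b, -a, d, c] (by
      intro i
      fin_cases i
      · exact Subalgebra.one_mem _
      · exact hm₁
      · exact hm₂
      · exact Subalgebra.mul_mem _ hm₁ hm₂) (by
      intro i
      fin_cases i
      · exact hb.neg
      · exact ha.neg
      · exact hd
      · exact hc) hli (by
      rw [Fin.sum_univ_four]
      show -b * 1 + -a * y₁ + d * y₂ + c * (y₁ * y₂) = 0
      linear_combination hrel)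
    have h2 : -b = 0 := h1 0
    have h3 : -a = 0 := h1 1
    apply hdet
    have h4 : b = 0 := by linarith
    have h5 : a = 0 := by linarith
    rw [h4, h5, zero_mul, zero_mul]
  rw [Fintype.not_linearIndependent_iff] at hdep
  obtain ⟨r, hr, i, hi⟩ := hdep
  rw [Fin.sum_univ_four] at hr
  simp only [Rat.smul_def] at hr
  have hr' : (r 0 : ℝ) + r 1 * y₁ + r 2 * y₂ + r 3 * (y₁ * y₂) = 0 := by
    have : (r 0 : ℝ) * 1 + r 1 * y₁ + r 2 * y₂ + r 3 * (y₁ * y₂) = 0 := hr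
    linear_combination this
  by_cases h3 : r 3 = 0
  · -- an affine relation
    rw [h3, Rat.cast_zero, zero_mul, add_zero] at hr'
    have h2 : r 2 ≠ 0 := by
      intro h2
      rw [h2, Rat.cast_zero, zero_mul, add_zero] at hr'
      by_cases h1 : r 1 = 0
      · rw [h1, Rat.cast_zero, zero_mul, add_zero] at hr'
        have h0 : r 0 = 0 := by exact_mod_cast hr'
        apply hi
        fin_cases i
        · exact h0
        · exact h1
        · exact h2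
        · exact h3
      · apply hirr ht₁ (-r 0 / r 1)
        have h1' : (r 1 : ℝ) ≠ 0 := by exact_mod_cast h1
        push_cast
        rw [eq_div_iff h1']
        linear_combination hr'
    have h2' : (r 2 : ℝ) ≠ 0 := by exact_mod_cast h2
    have h1 : r 1 ≠ 0 := by
      intro h1
      rw [h1, Rat.cast_zero, zero_mul, add_zero] at hr'
      apply hirr ht₂ (-r 0 / r 2)
      push_cast
      rw [eq_div_iff h2']
      linear_combination hr'
    refine ⟨-r 1 / r 2, -r 0 / r 2, div_ne_zero (neg_ne_zero.2 h1) h2, Or.inl ?_⟩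
    push_cast
    field_simp
    linear_combination hr'
  · have h3' : (r 3 : ℝ) ≠ 0 := by exact_mod_cast h3
    have h4 : (y₁ + r 2 / r 3) * (y₂ + r 1 / r 3) = (r 1 * r 2 - r 0 * r 3) / (r 3 * r 3) := by
      field_simp
      linear_combination (r 3 : ℝ) * hr'
    have h5 : y₁ + (r 2 : ℝ) / r 3 ≠ 0 := by
      intro h
      apply hirr ht₁ (-(r 2 / r 3))
      push_cast
      linear_combination h
    have h6 : y₂ + (r 1 : ℝ) / r 3 ≠ 0 := by
      intro h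
      apply hirr ht₂ (-(r 1 / r 3))
      push_cast
      linear_combination h
    refine ⟨(r 1 * r 2 - r 0 * r 3) / (r 3 * r 3), -(r 1 / r 3), ?_, Or.inr ⟨-(r 2 / r 3), ?_⟩⟩
    · intro h
      have h7 : (r 1 * r 2 - r 0 * r 3 : ℝ) / (r 3 * r 3) = 0 := by
        have := congrArg (fun q : ℚ => (q : ℝ)) h
        simpa using this
      rw [h7] at h4
      rcases mul_eq_zero.1 h4 with h8 | h8
      · exact h5 h8
      · exact h6 h8
    · push_cast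
      rw [← h4, sub_neg_eq_add, mul_div_cancel_left₀ _ h5]
      ring

/-- all simple members of the family, one class of bases -/
theorem mob_aux (N Λ : ℕ → ℕ) (hN : Tendsto N atTop atTop) (hΛ : Tendsto Λ atTop atTop) :
    ∃ y₀ : ℝ, Fam y₀ ∧ ∀ y : ℝ, Fam y → (∃ b, 2 ≤ b ∧ Smp N Λ b y) →
      ∃ q c : ℚ, q ≠ 0 ∧ (y = q * y₀ + c ∨ y = q / y₀ + c) := by
  classical
  obtain ⟨F, _, _, j, L, K, M, hpL, h⟩ := sit N Λ hN hΛ
  have hFpi : Fam Real.pi := ⟨1, 0, 0, 1, isAlgebraic_one, isAlgebraic_zero, isAlgebraic_zero,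
    isAlgebraic_one, by norm_num, by simp⟩
  by_cases hex : ∃ y₁ : ℝ, Fam y₁ ∧ ∃ b, 2 ≤ b ∧ Smp N Λ b y₁
  swap
  · exact ⟨Real.pi, hFpi, fun y hy hs => absurd ⟨y, hy, hs⟩ hex⟩
  obtain ⟨y₁, hF₁, b₁, hb₁, hs₁⟩ := hex
  obtain ⟨hKc, hMc, hLc, hKL, hKM, hd, hk, hsim, hpM, hdepb⟩ := h b₁ hb₁
  -- elements of the family over the field
  have hdown : ∀ (y : ℝ), Fam y → ∀ S : Subfield F, IsAlgebraic S (j y) →
      IsAlgebraic S (j Real.pi) := by
    intro y hy S hS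
    have ht : Transcendental ℚ ((y : ℝ) : ℂ) := by
      intro hcon
      exact hy.transc ((isAlgebraic_algebraMap_iff (A := ℂ) (algebraMap ℝ ℂ).injective).1 hcon)
    refine pi_down j S ?_ ht hS
    obtain ⟨α, β, γ, δ, hα, hβ, hγ, hδ, hdet, he⟩ := hy
    have hup : ∀ a : ℝ, IsAlgebraic ℚ a → IsAlgebraic ℚ⟮(Real.pi : ℂ)⟯ (a : ℂ) := by
      intro a ha
      have h1 : IsAlgebraic ℚ (a : ℂ) := ha.algebraMap (A := ℂ)
      exact h1.tower_top _
    have hpi : IsAlgebraic ℚ⟮(Real.pi : ℂ)⟯ (Real.pi : ℂ) :=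
      isAlgebraic_algebraMap (⟨_, mem_adjoin_simple_self ℚ (Real.pi : ℂ)⟩ : ℚ⟮(Real.pi : ℂ)⟯)
    have h2 : (y : ℂ) = ((α : ℂ) * (Real.pi : ℂ) + (β : ℂ)) *
        ((γ : ℂ) * (Real.pi : ℂ) + (δ : ℂ))⁻¹ := by
      rw [he]
      push_cast
      rw [div_eq_mul_inv]
    rw [h2]
    exact (((hup α hα).mul hpi).add (hup β hβ)).mul (((hup γ hγ).mul hpi).add (hup δ hδ)).inv
  -- all simple members are simple in the class of the first base
  have hmem : ∀ y : ℝ, Fam y → (∃ b, 2 ≤ b ∧ Smp N Λ b y) → j y ∈ Rg L (M b₁) := by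
    rintro y hy ⟨b, hb, C, hC⟩
    by_cases hbd : Dep b₁ b
    · exact hsim b C y hb hbd hC
    · exfalso
      obtain ⟨_, _, _, _, _, _, _, hsim', _, _⟩ := h b hb
      have h1 : j y ∈ L ⊔ M b := TAA_.Rg_le le_sup_left le_sup_right
        (hsim' b C y hb ⟨1, 1, le_rfl, le_rfl, rfl⟩ hC)
      obtain ⟨C₁, hC₁⟩ := hs₁
      have h2 : j y₁ ∈ L ⊔ M b₁ := TAA_.Rg_le le_sup_left le_sup_right
        (hsim b₁ C₁ y₁ hb₁ ⟨1, 1, le_rfl, le_rfl, rfl⟩ hC₁)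
      exact hdepb b hb hbd
        (hdown y₁ hF₁ _ (isAlgebraic_algebraMap (⟨_, h2⟩ : (L ⊔ M b₁ : Subfield F))))
        (hdown y hy _ (isAlgebraic_algebraMap (⟨_, h1⟩ : (L ⊔ M b : Subfield F))))
  have hm₁ := hmem y₁ hF₁ ⟨b₁, hb₁, hs₁⟩
  have hjq : ∀ q : ℚ, j ((q : ℝ) : ℂ) ∈ K b₁ := by
    intro q
    apply hk
    have := isAlgebraic_algebraMap (A := ℂ) (R := ℚ) q
    simpa using this
  have hirr : ∀ {y : ℝ}, Fam y → ∀ q : ℚ, y - q ≠ 0 := by
    intro y hy q h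
    apply hy.transc
    rw [sub_eq_zero.1 h]
    have := isAlgebraic_algebraMap (A := ℝ) (R := ℚ) q
    simpa using this
  -- a pole
  have hpole : ∀ (y : ℝ) (q c e : ℚ), q ≠ 0 → Fam y → (∃ b, 2 ≤ b ∧ Smp N Λ b y) →
      y = q / (y₁ - e) + c → (j y₁ - j ((e : ℝ) : ℂ))⁻¹ ∈ Rg L (M b₁) := by
    intro y q c e hq hy hs he
    have h1 := hmem y hy hs
    have hq' : (q : ℝ) ≠ 0 := by exact_mod_cast hq
    have h2 : (j y₁ - j ((e : ℝ) : ℂ))⁻¹ = j ((q⁻¹ : ℚ) : ℝ) * (j y - j ((c : ℝ) : ℂ)) := by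
      rw [← map_sub, ← map_sub, ← map_mul, ← map_inv₀]
      congr 1
      have h3 : (y₁ - e)⁻¹ = ((q⁻¹ : ℚ) : ℝ) * (y - c) := by
        rw [he]
        push_cast
        have := hirr hF₁ e
        field_simp
        ring
      have h4 := congrArg (fun t : ℝ => (t : ℂ)) h3
      push_cast at h4 ⊢
      exact h4
    rw [h2]
    exact (Rg L (M b₁)).mul_mem (mem_Rg_left (hKL (hjq _)))
      ((Rg L (M b₁)).sub_mem h1 (mem_Rg_left (hKL (hjq _))))
  by_cases hex2 : ∃ (y : ℝ) (q c e : ℚ), q ≠ 0 ∧ Fam y ∧ (∃ b, 2 ≤ b ∧ Smp N Λ b y) ∧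
      y = q / (y₁ - e) + c
  · obtain ⟨y', q', c', e, hq', hF', hs', he'⟩ := hex2
    refine ⟨y₁ - e, hF₁.sub e, ?_⟩
    intro y hy hs
    obtain ⟨q, c, hq, hqc⟩ := Fam.pair N Λ hN hΛ hF₁ hy ⟨b₁, hb₁, hs₁⟩ hs
    rcases hqc with h1 | ⟨e₂, h1⟩
    · refine ⟨q, q * e + c, hq, Or.inl ?_⟩
      rw [h1]
      push_cast
      ring
    · by_cases hee : e₂ = e
      · refine ⟨q, c, hq, Or.inr ?_⟩
        rw [h1, hee]
      · exfalso
        have hne : j ((e₂ : ℝ) : ℂ) ≠ j ((e : ℝ) : ℂ) := by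
          intro h2
          apply hee
          have h3 := j.injective h2
          exact_mod_cast h3
        have hya : j y₁ - j ((e₂ : ℝ) : ℂ) ≠ 0 := by
          rw [← map_sub, Ne, map_eq_zero]
          intro h2
          apply hirr hF₁ e₂
          exact_mod_cast h2
        have hyb : j y₁ - j ((e : ℝ) : ℂ) ≠ 0 := by
          rw [← map_sub, Ne, map_eq_zero]
          intro h2
          apply hirr hF₁ e
          exact_mod_cast h2
        rcases three (K b₁) L (M b₁) hKc hKL hKM hd (j y₁) hm₁ _ _ (hjq e₂) (hjq e) hne hya hyb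
          (hpole y q c e₂ hq hy hs h1) (hpole y' q' c' e hq' hF' hs' he') with h2 | h2
        · exact hpL (hdown y₁ hF₁ L (isAlgebraic_algebraMap (⟨_, h2⟩ : L)))
        · exact hpM (hdown y₁ hF₁ (M b₁) (isAlgebraic_algebraMap (⟨_, h2⟩ : M b₁)))
  · refine ⟨y₁, hF₁, ?_⟩
    intro y hy hs
    obtain ⟨q, c, hq, hqc⟩ := Fam.pair N Λ hN hΛ hF₁ hy ⟨b₁, hb₁, hs₁⟩ hs
    rcases hqc with h1 | ⟨e₂, h1⟩
    · exact ⟨q, c, hq, Or.inl h1⟩
    · exact absurd ⟨y, q, c, e₂, hq, hy, hs, h1⟩ hex2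

end Pool.Agent.SRF
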