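import Mathlib

/-!
# SRF NA: integral closedness of algebraic base changes, and of rational function base changes
-/

set_option autoImplicit false

namespace Pool.Agent.SRF

open IntermediateField

/-- the algebraic step -/
theorem na_alg (k B E Ω : Type) [Field k] [CommRing B] [IsDomain B] [IsIntegrallyClosed B]
    [Field E] [Algebra B E] [IsFractionRing B E] [Field Ω] [CharZero E] [Algebra E Ω] [Algebra B Ω]
    [IsScalarTower B E Ω] [Algebra k B] [Algebra k E] [IsScalarTower k B E] [Algebra k Ω]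
    [IsScalarTower k B Ω] [IsScalarTower k E Ω] (θ : Ω)
    (hθ : IsIntegral k θ) (z : Ω) (hz : z ∈ E⟮θ⟯) (hzB : IsIntegral B z) :
    z ∈ Algebra.adjoin B {θ} := by
  have hθE : IsIntegral E θ := hθ.tower_top
  have t1 : IsScalarTower k E⟮θ⟯ Ω := IsScalarTower.of_algebraMap_eq' rfl
  have t2 : IsScalarTower B E⟮θ⟯ Ω := IsScalarTower.of_algebraMap_eq' rfl
  have t3 : IsScalarTower k B E⟮θ⟯ := by
    apply IsScalarTower.of_algebraMap_eq'
    apply RingHom.ext
    intro x
    apply (algebraMap E⟮θ⟯ Ω).injective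
    rw [← IsScalarTower.algebraMap_apply, RingHom.comp_apply, ← IsScalarTower.algebraMap_apply,
      ← IsScalarTower.algebraMap_apply]
  have hfd : FiniteDimensional E E⟮θ⟯ := adjoin.finiteDimensional hθE
  let pb : PowerBasis E E⟮θ⟯ := adjoin.powerBasis hθE
  have hgen : pb.gen = AdjoinSimple.gen E θ := adjoin.powerBasis_gen hθE
  have hgk : IsIntegral k pb.gen := by
    rw [hgen]
    have h1 : IsIntegral k (algebraMap E⟮θ⟯ Ω (AdjoinSimple.gen E θ)) := by
      rw [AdjoinSimple.algebraMap_gen]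
      exact hθ
    exact (isIntegral_algebraMap_iff (algebraMap E⟮θ⟯ Ω).injective).1 h1
  have hgB : IsIntegral B pb.gen := hgk.tower_top
  let z' : E⟮θ⟯ := ⟨z, hz⟩
  have hz' : IsIntegral B z' :=
    (isIntegral_algebraMap_iff (A := E⟮θ⟯) (B := Ω) (algebraMap E⟮θ⟯ Ω).injective).1 hzB
  have h2 := Algebra.discr_mul_isIntegral_mem_adjoin (K := E) (L := E⟮θ⟯) (B := pb) hgB hz'
  set d : E := Algebra.discr E pb.basis with hd
  have hd0 : d ≠ 0 := Algebra.discr_not_zero_of_basis E pb.basis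
  have hdk : IsIntegral k d := by
    apply Algebra.discr_isIntegral (K := E) (L := E⟮θ⟯) (R := k)
    intro i
    rw [pb.basis_eq_pow]
    exact hgk.pow _
  have hdi : IsIntegral k d⁻¹ := hdk.inv
  obtain ⟨b, hb⟩ := IsIntegrallyClosed.isIntegral_iff.1 (hdi.tower_top (A := B))
  have h3 : z' = b • (d • z') := by
    rw [← algebraMap_smul E b, hb, smul_smul, inv_mul_cancel₀ hd0, one_smul]
  have h4 : z' ∈ Algebra.adjoin B {pb.gen} := by
    rw [h3]
    exact Subalgebra.smul_mem _ h2 b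
  have h5 : (IsScalarTower.toAlgHom B E⟮θ⟯ Ω) z' ∈
      (Algebra.adjoin B {pb.gen}).map (IsScalarTower.toAlgHom B E⟮θ⟯ Ω) :=
    Subalgebra.mem_map.2 ⟨z', h4, rfl⟩
  rw [AlgHom.map_adjoin, Set.image_singleton, hgen] at h5
  exact h5

end Pool.Agent.SRF
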