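import Pool.Agent.SRF.NA

/-!
# SRF NB: integrally closed subrings of a field
-/

set_option autoImplicit false

namespace Pool.Agent.SRF

section

variable {F : Type} [Field F]

/-- integral quotients belong to the ring -/
def IC (B : Subring F) : Prop :=
  ∀ x p q : F, p ∈ B → q ∈ B → q ≠ 0 → x * q = p → IsIntegral B x → x ∈ B

theorem inj_alg (B : Subring F) : Function.Injective (algebraMap B F) := Subtype.val_injective

theorem ic_iff (B : Subring F) : IC B ↔ IsIntegrallyClosed B := by
  have hinj : Function.Injective (Algebra.ofId B F) := inj_alg B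
  let φ : FractionRing B →ₐ[B] F := IsFractionRing.liftAlgHom (K := FractionRing B) hinj
  have hφ : Function.Injective φ := φ.toRingHom.injective
  have hφB : ∀ b : B, φ (algebraMap B (FractionRing B) b) = b := fun b => φ.commutes b
  constructor
  · intro h
    rw [isIntegrallyClosed_iff (FractionRing B)]
    intro x hx
    obtain ⟨p, q, hq, rfl⟩ := IsFractionRing.div_surjective (A := B) x
    have hq0 : (q : F) ≠ 0 := by
      intro h0
      exact nonZeroDivisors.ne_zero hq (Subtype.ext h0)
    have h1 : IsIntegral B (φ (algebraMap B (FractionRing B) p / algebraMap B (FractionRing B) q)) :=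
      hx.map φ
    have h2 : φ (algebraMap B (FractionRing B) p / algebraMap B (FractionRing B) q) ∈ B := by
      refine h _ (p : F) (q : F) p.2 q.2 hq0 ?_ h1
      rw [map_div₀, hφB, hφB, div_mul_cancel₀ _ hq0]
    refine ⟨⟨_, h2⟩, hφ ?_⟩
    rw [hφB]
  · intro h x p q hp hq hq0 hx hxi
    have hq1 : algebraMap B (FractionRing B) ⟨q, hq⟩ ≠ 0 := by
      intro h0
      rw [map_eq_zero_iff _ (IsFractionRing.injective B (FractionRing B))] at h0
      exact hq0 (congrArg Subtype.val h0)
    have h1 : φ (algebraMap B (FractionRing B) ⟨p, hp⟩ / algebraMap B (FractionRing B) ⟨q, hq⟩) =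
        x := by
      rw [map_div₀, hφB, hφB]
      exact (eq_div_of_mul_eq hq0 hx).symm
    rw [← h1] at hxi
    have h2 := (isIntegral_algHom_iff φ hφ).1 hxi
    obtain ⟨y, hy⟩ := IsIntegrallyClosed.isIntegral_iff.1 h2
    rw [← h1, ← hy, hφB]
    exact y.2

/-- the algebraic step -/
theorem stepA [CharZero F] (k : Subfield F) (B : Subring F) (hk : ∀ x ∈ k, x ∈ B)
    (hB : IC B) (θ : F) (hθ : IsAlgebraic k θ) (B' : Subring F) (hBB : B ≤ B') (hθB : θ ∈ B')
    (hB' : ∀ x ∈ B', x ∈ Subring.closure ((B : Set F) ∪ {θ})) : IC B' := by
  have := (ic_iff B).1 hB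
  let : Algebra k B := (RingHom.codRestrict (algebraMap k F) B (fun x => hk _ x.2)).toAlgebra
  have : IsScalarTower k B F := IsScalarTower.of_algebraMap_eq' rfl
  have : FaithfulSMul B F := (faithfulSMul_iff_algebraMap_injective B F).2 (inj_alg B)
  let : Algebra (FractionRing B) F := FractionRing.liftAlgebra B F
  have : IsScalarTower B (FractionRing B) F := FractionRing.isScalarTower_liftAlgebra B F
  have : CharZero B := ⟨fun a b h => by
    have h1 : ((a : B) : F) = ((b : B) : F) := congrArg Subtype.val h
    simpa using h1⟩
  have : CharZero (FractionRing B) := charZero_of_injective_algebraMap (R := B)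
    (IsFractionRing.injective B (FractionRing B))
  have : IsScalarTower k (FractionRing B) F := by
    apply IsScalarTower.of_algebraMap_eq'
    apply RingHom.ext
    intro x
    rw [RingHom.comp_apply, IsScalarTower.algebraMap_apply k B (FractionRing B),
      ← IsScalarTower.algebraMap_apply B (FractionRing B) F, ← IsScalarTower.algebraMap_apply k B F]
  intro x p q hp hq hq0 hx hxi
  have hθi : IsIntegral k θ := hθ.isIntegral
  have hθB2 : IsIntegral B θ := hθi.tower_top
  -- everything is integral over `B`
  have hint : ∀ y ∈ B', IsIntegral B y := by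
    intro y hy
    have h1 := hB' y hy
    have h2 : Subring.closure ((B : Set F) ∪ {θ}) ≤ (integralClosure B F).toSubring := by
      rw [Subring.closure_le]
      rintro z (hz | hz)
      · exact isIntegral_algebraMap (R := B) (x := (⟨z, hz⟩ : B))
      · rw [Set.mem_singleton_iff] at hz
        rw [hz]
        exact hθB2
    exact h2 h1
  have hxB : IsIntegral B x := by
    obtain ⟨P, hP, hPx⟩ := hxi
    let f : B' →+* integralClosure B F :=
      RingHom.codRestrict (algebraMap B' F) (integralClosure B F) (fun y => hint _ y.2)
    have h3 : IsIntegral (integralClosure B F) x := by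
      refine ⟨P.map f, hP.map f, ?_⟩
      rw [Polynomial.eval₂_map]
      exact hPx
    exact isIntegral_trans (A := integralClosure B F) x h3
  have hcl : ∀ y ∈ Subring.closure ((B : Set F) ∪ {θ}),
      y ∈ IntermediateField.adjoin (FractionRing B) {θ} := by
    intro y hy
    have h2 : Subring.closure ((B : Set F) ∪ {θ}) ≤
        (IntermediateField.adjoin (FractionRing B) {θ}).toSubfield.toSubring := by
      rw [Subring.closure_le]
      rintro z (hz | hz)
      · have h4 : z = algebraMap (FractionRing B) F (algebraMap B (FractionRing B) ⟨z, hz⟩) := by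
          rw [← IsScalarTower.algebraMap_apply]
          rfl
        rw [h4]
        exact (IntermediateField.adjoin (FractionRing B) {θ}).algebraMap_mem _
      · rw [Set.mem_singleton_iff] at hz
        rw [hz]
        exact IntermediateField.mem_adjoin_simple_self _ θ
    exact h2 hy
  have hxE : x ∈ IntermediateField.adjoin (FractionRing B) {θ} := by
    rw [eq_div_of_mul_eq hq0 hx]
    exact div_mem (hcl p (hB' p hp)) (hcl q (hB' q hq))
  have h5 := na_alg k B (FractionRing B) F θ hθi x hxE hxB
  have h6 : ∀ y ∈ Algebra.adjoin B {θ}, y ∈ B' := by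
    intro y hy
    induction hy using Algebra.adjoin_induction with
    | mem y hy =>
      rw [Set.mem_singleton_iff] at hy
      rw [hy]
      exact hθB
    | algebraMap r => exact hBB r.2
    | add y z _ _ h1 h2 => exact B'.add_mem h1 h2
    | mul y z _ _ h1 h2 => exact B'.mul_mem h1 h2
  exact h6 x h5

end

end Pool.Agent.SRF
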