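import Pool.Agent.SRF.NB
import Pool.Agent.SGL.Stmts3
import Pool.Agent.SGL.TAA

/-!
# SRF NC: the ring generated by two linearly disjoint fields is integrally closed
-/

set_option autoImplicit false

namespace Pool.Agent.SRF

open Pool.Agent.SGL

section

variable {F : Type} [Field F]

/-- the transcendental step -/
theorem stepB (k : Subfield F) (B : Subring F) (hk : ∀ x ∈ k, x ∈ B) (hB : IC B) (a : F)
    (ha : ∀ P : Polynomial B, Polynomial.aeval a P = 0 → P = 0) (k' : Subfield F)
    (hk' : k' = Subfield.closure ((k : Set F) ∪ {a})) (B' : Subring F) (hBB : B ≤ B')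
    (hkB : ∀ x ∈ k', x ∈ B') (hB' : ∀ x ∈ B', x ∈ Subring.closure ((B : Set F) ∪ k')) : IC B' := by
  have hIC := (ic_iff B).1 hB
  let ψ : Polynomial B →+* F := (Polynomial.aeval (R := B) a).toRingHom
  have hψ : Function.Injective ψ := (injective_iff_map_eq_zero ψ).2 ha
  have hak : a ∈ k' := by
    rw [hk']
    exact Subfield.subset_closure (Or.inr rfl)
  have hkk : k ≤ k' := by
    rw [hk']
    intro x hx
    exact Subfield.subset_closure (Or.inl hx)
  set A : Subring F := ψ.range with hA
  have hAB : A ≤ B' := by
    rintro _ ⟨P, rfl⟩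
    show Polynomial.aeval a P ∈ B'
    rw [Polynomial.aeval_eq_sum_range]
    refine Subring.sum_mem _ (fun i _ => ?_)
    rw [Algebra.smul_def]
    exact B'.mul_mem (hBB (P.coeff i).2) (B'.pow_mem (hkB a hak) i)
  have hBA : ∀ x ∈ B, x ∈ A := by
    intro x hx
    refine ⟨Polynomial.C ⟨x, hx⟩, ?_⟩
    show Polynomial.aeval a (Polynomial.C (⟨x, hx⟩ : B)) = x
    rw [Polynomial.aeval_C]
    rfl
  have haA : a ∈ A := by
    refine ⟨Polynomial.X, ?_⟩
    show Polynomial.aeval a (Polynomial.X : Polynomial B) = a
    rw [Polynomial.aeval_X]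
  let e : Polynomial B ≃+* A := RingEquiv.ofBijective ψ.rangeRestrict
    ⟨fun x y hxy => hψ (congrArg Subtype.val hxy), ψ.rangeRestrict_surjective⟩
  have hAic : IsIntegrallyClosed A := IsIntegrallyClosed.of_equiv e
  let inst : Algebra A B' := (Subring.inclusion hAB).toAlgebra
  have hval : ∀ x : A, ((algebraMap A B' x : B') : F) = x := fun x => rfl
  let S : Submonoid A :=
    { carrier := {x | (x : F) ≠ 0 ∧ (x : F) ∈ k'}
      one_mem' := ⟨one_ne_zero, k'.one_mem⟩
      mul_mem' := by
        rintro x y ⟨h1, h2⟩ ⟨h3, h4⟩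
        exact ⟨mul_ne_zero h1 h3, k'.mul_mem h2 h4⟩ }
  -- numerators and denominators
  have hnum : ∀ y ∈ Subring.closure ((k : Set F) ∪ {a}), y ∈ A ∧ y ∈ k' := by
    intro y hy
    have h1 : Subring.closure ((k : Set F) ∪ {a}) ≤ A ⊓ k'.toSubring := by
      rw [Subring.closure_le]
      rintro z (hz | hz)
      · exact ⟨hBA z (hk z hz), hkk hz⟩
      · rw [Set.mem_singleton_iff] at hz
        rw [hz]
        exact ⟨haA, hak⟩
    exact h1 hy
  have hsurj : ∀ y ∈ Subring.closure ((B : Set F) ∪ k'), ∃ s : A, s ∈ S ∧ y * s ∈ A := by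
    intro y hy
    induction hy using Subring.closure_induction with
    | mem y hy =>
      rcases hy with hy | hy
      · exact ⟨1, S.one_mem, by
          rw [show ((1 : A) : F) = 1 from rfl, mul_one]
          exact hBA y hy⟩
      · have hy' : y ∈ Subfield.closure ((k : Set F) ∪ {a}) := by rw [← hk']; exact hy
        rw [Subfield.mem_closure_iff] at hy'
        obtain ⟨u, hu, v, hv, huv⟩ := hy'
        by_cases hv0 : v = 0
        · refine ⟨1, S.one_mem, ?_⟩
          rw [← huv, hv0, div_zero, zero_mul]
          exact A.zero_mem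
        · refine ⟨⟨v, (hnum v hv).1⟩, ⟨hv0, (hnum v hv).2⟩, ?_⟩
          show y * v ∈ A
          rw [← huv, div_mul_cancel₀ _ hv0]
          exact (hnum u hu).1
    | zero => exact ⟨1, S.one_mem, by rw [zero_mul]; exact A.zero_mem⟩
    | one => exact ⟨1, S.one_mem, by rw [one_mul]; exact A.one_mem⟩
    | add y z _ _ h1 h2 =>
      obtain ⟨s, hs, h3⟩ := h1
      obtain ⟨t, ht, h4⟩ := h2
      refine ⟨s * t, S.mul_mem hs ht, ?_⟩
      have h5 : (y + z) * ((s * t : A) : F) = (y * s) * t + (z * t) * s := by
        show (y + z) * ((s : F) * t) = _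
        ring
      rw [h5]
      exact A.add_mem (A.mul_mem h3 t.2) (A.mul_mem h4 s.2)
    | neg y _ h1 =>
      obtain ⟨s, hs, h3⟩ := h1
      refine ⟨s, hs, ?_⟩
      rw [neg_mul]
      exact A.neg_mem h3
    | mul y z _ _ h1 h2 =>
      obtain ⟨s, hs, h3⟩ := h1
      obtain ⟨t, ht, h4⟩ := h2
      refine ⟨s * t, S.mul_mem hs ht, ?_⟩
      have h5 : (y * z) * ((s * t : A) : F) = (y * s) * (z * t) := by
        show (y * z) * ((s : F) * t) = _
        ring
      rw [h5]
      exact A.mul_mem h3 h4
  have hloc : IsLocalization S B' := by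
    refine ⟨?_, ?_, ?_⟩
    · rintro ⟨y, hy1, hy2⟩
      rw [isUnit_iff_exists_inv]
      refine ⟨⟨(y : F)⁻¹, hkB _ (k'.inv_mem hy2)⟩, ?_⟩
      apply Subtype.ext
      exact mul_inv_cancel₀ hy1
    · intro z
      obtain ⟨s, hs, h1⟩ := hsurj z (hB' z z.2)
      refine ⟨(⟨z * s, h1⟩, ⟨s, hs⟩), ?_⟩
      apply Subtype.ext
      rfl
    · intro x y hxy
      refine ⟨1, ?_⟩
      have h1 : (x : F) = y := congrArg (fun w : B' => (w : F)) hxy
      rw [Subtype.ext h1]
  have hS : S ≤ nonZeroDivisors A := by
    rintro x ⟨hx, -⟩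
    apply mem_nonZeroDivisors_of_ne_zero
    intro h
    exact hx (congrArg Subtype.val h)
  rw [ic_iff]
  exact isIntegrallyClosed_of_isLocalization B' S hS

theorem Rg_mono {A B A' B' : Subfield F} (h1 : A ≤ A') (h2 : B ≤ B') : Rg A B ≤ Rg A' B' := by
  unfold Rg
  apply Subring.closure_mono
  exact Set.union_subset_union h1 h2

theorem mem_Rg_left {A B : Subfield F} {x : F} (h : x ∈ A) : x ∈ Rg A B :=
  Subring.subset_closure (Or.inl h)

theorem mem_Rg_right {A B : Subfield F} {x : F} (h : x ∈ B) : x ∈ Rg A B :=
  Subring.subset_closure (Or.inr h)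

/-- the field generated by finitely many elements -/
noncomputable def kS (K : Subfield F) (S : Finset F) : Subfield F :=
  Subfield.closure ((K : Set F) ∪ (S : Set F))

theorem kS_mono (K : Subfield F) {S T : Finset F} (h : S ⊆ T) : kS K S ≤ kS K T :=
  Subfield.closure_mono (Set.union_subset_union_right _ (Finset.coe_subset.2 h))

theorem K_le_kS (K : Subfield F) (S : Finset F) : K ≤ kS K S := fun _ hx =>
  Subfield.subset_closure (Or.inl hx)

theorem kS_le {K M : Subfield F} (h : K ≤ M) {S : Finset F} (hS : ∀ x ∈ S, x ∈ M) :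
    kS K S ≤ M := by
  unfold kS
  rw [Subfield.closure_le]
  rintro x (hx | hx)
  · exact h hx
  · exact hS x hx

theorem ic_fin [CharZero F] (hLDS : Stmt_LDS) (hTWR : Stmt_TWR) (K L M : Subfield F)
    (hKL : K ≤ L) (hKM : K ≤ M) (h : LDj K L M) (S : Finset F) (hS : ∀ x ∈ S, x ∈ M) :
    IC (Rg L (kS K S)) := by
  classical
  induction S using Finset.induction_on with
  | empty =>
    have h1 : kS K (∅ : Finset F) ≤ L := kS_le hKL (by simp)
    intro x p q hp hq hq0 hx _
    have hp' : p ∈ L := TAA_.Rg_le le_rfl h1 hp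
    have hq' : q ∈ L := TAA_.Rg_le le_rfl h1 hq
    apply mem_Rg_left
    rw [eq_div_of_mul_eq hq0 hx]
    exact L.div_mem hp' hq'
  | insert a S haS ih =>
    have hS' : ∀ x ∈ S, x ∈ M := fun x hx => hS x (Finset.mem_insert_of_mem hx)
    have haM : a ∈ M := hS a (Finset.mem_insert_self a S)
    have ih' := ih hS'
    have hkM : kS K S ≤ M := kS_le hKM hS'
    have hk' : kS K (insert a S) = Subfield.closure ((kS K S : Set F) ∪ {a}) := by
      apply le_antisymm
      · unfold kS
        rw [Subfield.closure_le]
        rintro x (hx | hx)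
        · exact Subfield.subset_closure (Or.inl (Subfield.subset_closure (Or.inl hx)))
        · rw [Finset.coe_insert, Set.mem_insert_iff] at hx
          rcases hx with hx | hx
          · exact Subfield.subset_closure (Or.inr hx)
          · exact Subfield.subset_closure (Or.inl (Subfield.subset_closure (Or.inr hx)))
      · rw [Subfield.closure_le]
        rintro x (hx | hx)
        · exact kS_mono K (Finset.subset_insert a S) hx
        · rw [Set.mem_singleton_iff] at hx
          rw [hx]
          exact Subfield.subset_closure (Or.inr (by simp))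
    have hak : a ∈ kS K (insert a S) := Subfield.subset_closure (Or.inr (by simp))
    have hBB : Rg L (kS K S) ≤ Rg L (kS K (insert a S)) :=
      Rg_mono le_rfl (kS_mono K (Finset.subset_insert a S))
    by_cases hal : IsAlgebraic (kS K S) a
    · refine stepA (kS K S) (Rg L (kS K S)) (fun x hx => mem_Rg_right hx) ih' a hal _ hBB
        (mem_Rg_right hak) ?_
      intro x hx
      have h2 : Rg L (kS K (insert a S)) ≤ Subring.closure ((Rg L (kS K S) : Set F) ∪ {a}) := by
        have h3 : ∀ y ∈ kS K (insert a S),
            y ∈ Subring.closure ((Rg L (kS K S) : Set F) ∪ {a}) := by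
          intro y hy
          rw [hk'] at hy
          have h4 : Subfield.closure ((kS K S : Set F) ∪ {a}) ≤
              (IntermediateField.adjoin (kS K S) {a}).toSubfield := by
            rw [Subfield.closure_le]
            rintro z (hz | hz)
            · exact (IntermediateField.adjoin (kS K S) {a}).algebraMap_mem (⟨z, hz⟩ : kS K S)
            · rw [Set.mem_singleton_iff] at hz
              rw [hz]
              exact IntermediateField.mem_adjoin_simple_self _ a
          have h5 : y ∈ IntermediateField.adjoin (kS K S) {a} := h4 hy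
          have h6 : y ∈ Algebra.adjoin (kS K S) {a} := by
            rw [← IntermediateField.adjoin_simple_toSubalgebra_of_isAlgebraic hal]
            exact h5
          have h7 : ∀ w ∈ Algebra.adjoin (kS K S) {a},
              w ∈ Subring.closure ((Rg L (kS K S) : Set F) ∪ {a}) := by
            intro w hw
            induction hw using Algebra.adjoin_induction with
            | mem z hz => exact Subring.subset_closure (Or.inr hz)
            | algebraMap r => exact Subring.subset_closure (Or.inl (mem_Rg_right r.2))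
            | add y z _ _ h1 h2 => exact Subring.add_mem _ h1 h2
            | mul y z _ _ h1 h2 => exact Subring.mul_mem _ h1 h2
          exact h7 y h6
        unfold Rg
        rw [Subring.closure_le]
        rintro y (hy | hy)
        · exact Subring.subset_closure (Or.inl (mem_Rg_left hy))
        · exact h3 y hy
      exact h2 hx
    · have hld : LDj (kS K S) M (kS K S ⊔ L) :=
        hTWR F K (kS K S) M L (K_le_kS K S) hkM hKL (hLDS F K L M hKL hKM h)
      refine stepB (kS K S) (Rg L (kS K S)) (fun x hx => mem_Rg_right hx) ih' a ?_ _ hk' _ hBB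
        (fun x hx => mem_Rg_right hx) ?_
      · intro P hP
        have hind : Ind (kS K S) (fun i : Fin (P.natDegree + 1) => a ^ (i : ℕ)) := by
          intro κ hκ hsum
          by_contra hne
          apply hal
          let Q : Polynomial (kS K S) := ∑ i : Fin (P.natDegree + 1),
            Polynomial.C (⟨κ i, hκ i⟩ : kS K S) * Polynomial.X ^ (i : ℕ)
          have hcoef : ∀ i : Fin (P.natDegree + 1), Q.coeff i = ⟨κ i, hκ i⟩ := by
            intro i
            show (∑ j : Fin (P.natDegree + 1),
              Polynomial.C (⟨κ j, hκ j⟩ : kS K S) * Polynomial.X ^ (j : ℕ)).coeff i = _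
            rw [Polynomial.finsetSum_coeff]
            simp only [Polynomial.coeff_C_mul, Polynomial.coeff_X_pow]
            rw [Finset.sum_eq_single i]
            · simp
            · intro j _ hj
              have : (i : ℕ) ≠ j := fun h => hj (Fin.ext h.symm)
              simp [this]
            · simp
          refine ⟨Q, ?_, ?_⟩
          · intro hQ
            apply hne
            funext i
            have := hcoef i
            rw [hQ, Polynomial.coeff_zero] at this
            exact (congrArg Subtype.val this).symm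
          · show Polynomial.aeval a (∑ j : Fin (P.natDegree + 1),
              Polynomial.C (⟨κ j, hκ j⟩ : kS K S) * Polynomial.X ^ (j : ℕ)) = 0
            rw [map_sum]
            simp only [map_mul, Polynomial.aeval_C, map_pow, Polynomial.aeval_X]
            exact hsum
        have h2 := hld (P.natDegree + 1) (fun i => a ^ (i : ℕ))
          (fun i => ((P.coeff i : Rg L (kS K S)) : F)) (fun i => M.pow_mem haM i)
          (fun i => TAA_.Rg_le le_sup_right le_sup_left (P.coeff i).2) hind (by
            have h3 := hP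
            rw [Polynomial.aeval_eq_sum_range, Finset.sum_range] at h3
            rw [← h3]
            refine Finset.sum_congr rfl (fun i _ => ?_)
            rw [Algebra.smul_def, mul_comm]
            rfl)
        ext i
        rw [Polynomial.coeff_zero]
        by_cases hi : i < P.natDegree + 1
        · exact congrFun h2 ⟨i, hi⟩
        · rw [Polynomial.coeff_eq_zero_of_natDegree_lt (by omega)]
      · intro x hx
        have h2 : Rg L (kS K (insert a S)) ≤
            Subring.closure ((Rg L (kS K S) : Set F) ∪ kS K (insert a S)) := by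
          unfold Rg
          apply Subring.closure_mono
          apply Set.union_subset_union_left
          intro y hy
          exact mem_Rg_left hy
        exact h2 hx

theorem fin_mem (K L M : Subfield F) (x : F) (hx : x ∈ Rg L M) :
    ∃ S : Finset F, (∀ y ∈ S, y ∈ M) ∧ x ∈ Rg L (kS K S) := by
  classical
  unfold Rg at hx
  induction hx using Subring.closure_induction with
  | mem y hy =>
    rcases hy with hy | hy
    · exact ⟨∅, by simp, mem_Rg_left hy⟩
    · refine ⟨{y}, by simpa using hy, mem_Rg_right ?_⟩
      exact Subfield.subset_closure (Or.inr (by simp))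
  | zero => exact ⟨∅, by simp, Subring.zero_mem _⟩
  | one => exact ⟨∅, by simp, Subring.one_mem _⟩
  | add y z _ _ h1 h2 =>
    obtain ⟨S, hS, h3⟩ := h1
    obtain ⟨T, hT, h4⟩ := h2
    refine ⟨S ∪ T, ?_, Subring.add_mem _ (Rg_mono le_rfl (kS_mono K Finset.subset_union_left) h3)
      (Rg_mono le_rfl (kS_mono K Finset.subset_union_right) h4)⟩
    intro w hw
    rcases Finset.mem_union.1 hw with hw | hw
    · exact hS w hw
    · exact hT w hw
  | neg y _ h1 =>
    obtain ⟨S, hS, h3⟩ := h1
    exact ⟨S, hS, Subring.neg_mem _ h3⟩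
  | mul y z _ _ h1 h2 =>
    obtain ⟨S, hS, h3⟩ := h1
    obtain ⟨T, hT, h4⟩ := h2
    refine ⟨S ∪ T, ?_, Subring.mul_mem _ (Rg_mono le_rfl (kS_mono K Finset.subset_union_left) h3)
      (Rg_mono le_rfl (kS_mono K Finset.subset_union_right) h4)⟩
    intro w hw
    rcases Finset.mem_union.1 hw with hw | hw
    · exact hS w hw
    · exact hT w hw

/-- The ring generated by two linearly disjoint fields is integrally closed. -/
theorem nrm [CharZero F] (hLDS : Stmt_LDS) (hTWR : Stmt_TWR) (K L M : Subfield F)
    (hKL : K ≤ L) (hKM : K ≤ M) (h : LDj K L M) : IC (Rg L M) := by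
  classical
  intro x p q hp hq hq0 hx hxi
  obtain ⟨P, hP, hPx⟩ := hxi
  have h1 : ∀ c : Rg L M, ∃ S : Finset F, (∀ y ∈ S, y ∈ M) ∧ (c : F) ∈ Rg L (kS K S) := fun c =>
    fin_mem K L M c c.2
  choose T hT hTc using h1
  let S : Finset F := (Finset.range (P.natDegree + 1)).biUnion (fun i => T (P.coeff i)) ∪
    (T ⟨p, hp⟩ ∪ T ⟨q, hq⟩)
  have hS : ∀ y ∈ S, y ∈ M := by
    intro y hy
    rcases Finset.mem_union.1 hy with hy | hy
    · obtain ⟨i, _, hi⟩ := Finset.mem_biUnion.1 hy
      exact hT _ y hi
    · rcases Finset.mem_union.1 hy with hy | hy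
      · exact hT _ y hy
      · exact hT _ y hy
  have hpS : p ∈ Rg L (kS K S) := Rg_mono le_rfl (kS_mono K
    (Finset.subset_union_left.trans Finset.subset_union_right)) (hTc ⟨p, hp⟩)
  have hqS : q ∈ Rg L (kS K S) := Rg_mono le_rfl (kS_mono K
    (Finset.subset_union_right.trans Finset.subset_union_right)) (hTc ⟨q, hq⟩)
  have hcS : ∀ i, (P.coeff i : F) ∈ Rg L (kS K S) := by
    intro i
    by_cases hi : i ∈ Finset.range (P.natDegree + 1)
    · refine Rg_mono le_rfl (kS_mono K ?_) (hTc (P.coeff i))
      exact (Finset.subset_biUnion_of_mem (fun i => T (P.coeff i)) hi).trans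
        Finset.subset_union_left
    · rw [Polynomial.coeff_eq_zero_of_natDegree_lt (by
        rw [Finset.mem_range] at hi
        omega)]
      exact Subring.zero_mem _
  have hic := ic_fin hLDS hTWR K L M hKL hKM h S hS
  have hxi' : IsIntegral (Rg L (kS K S)) x := by
    have h2 : P.map (algebraMap (Rg L M) F) ∈
        Polynomial.lifts (algebraMap (Rg L (kS K S)) F) := by
      rw [Polynomial.lifts_iff_coeff_lifts]
      intro i
      rw [Polynomial.coeff_map]
      exact ⟨⟨_, hcS i⟩, rfl⟩
    obtain ⟨Q, hQ1, _, hQ2⟩ := Polynomial.lifts_and_natDegree_eq_and_monic h2 (hP.map _)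
    refine ⟨Q, hQ2, ?_⟩
    rw [← Polynomial.eval_map, hQ1, Polynomial.eval_map]
    exact hPx
  have h3 := hic x p q hpS hqS hq0 hx hxi'
  exact Rg_mono le_rfl (kS_le hKM hS) h3

end

end Pool.Agent.SRF
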