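import Mathlib

/-!
# SRF PLA: places of a function field of one variable
-/

set_option autoImplicit false

namespace Pool.Agent.SRF

open IntermediateField Polynomial

section

variable (k : Type) {E : Type} [Field k] [Field E] [Algebra k E]

/-- a place: a nontrivial valuation ring which contains the constants -/
def Pl (V : ValuationSubring E) : Prop := (∀ c : k, algebraMap k E c ∈ V) ∧ V ≠ ⊤

variable (E) in
/-- function field of one variable -/
def Cur : Prop := ∀ x : E, Transcendental k x → FiniteDimensional k⟮x⟯ E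

variable {k}

theorem val_const {V : ValuationSubring E} (hV : ∀ c : k, algebraMap k E c ∈ V) {c : k}
    (hc : c ≠ 0) : V.valuation (algebraMap k E c) = 1 := by
  apply le_antisymm ((V.valuation_le_one_iff _).2 (hV c))
  have h1 := (V.valuation_le_one_iff _).2 (hV c⁻¹)
  rw [map_inv₀, map_inv₀] at h1
  have h2 : V.valuation (algebraMap k E c) ≠ 0 :=
    (map_ne_zero V.valuation).2 ((map_ne_zero (algebraMap k E)).2 hc)
  exact (inv_le_one₀ (zero_lt_iff.2 h2)).1 h1

theorem val_const_le {V : ValuationSubring E} (hV : ∀ c : k, algebraMap k E c ∈ V) (c : k) :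
    V.valuation (algebraMap k E c) ≤ 1 := (V.valuation_le_one_iff _).2 (hV c)

/-- polynomials of small degree -/
theorem val_poly_lt {V : ValuationSubring E} (hV : ∀ c : k, algebraMap k E c ∈ V) {x : E}
    (hx : 1 < V.valuation x) (p : k[X]) (d : ℕ) (hd : p.degree < d) :
    V.valuation (aeval x p) < V.valuation x ^ d := by
  have hx0 : (0 : V.ValueGroup) < V.valuation x := zero_lt_one.trans hx
  by_cases hp : p = 0
  · rw [hp, map_zero, map_zero]
    exact pow_pos hx0 d
  rw [aeval_eq_sum_range' (n := d) ((natDegree_lt_iff_degree_lt hp).2 hd)]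
  apply Valuation.map_sum_lt
  · exact (pow_pos hx0 d).ne'
  intro i hi
  rw [Finset.mem_range] at hi
  rw [Algebra.smul_def, map_mul, map_pow]
  calc V.valuation (algebraMap k E (p.coeff i)) * V.valuation x ^ i
      ≤ 1 * V.valuation x ^ i := mul_le_mul_left (val_const_le hV _) _
    _ = V.valuation x ^ i := one_mul _
    _ < V.valuation x ^ d := pow_lt_pow_right₀ hx hi

/-- the leading term of a polynomial -/
theorem val_poly_lead {V : ValuationSubring E} (hV : ∀ c : k, algebraMap k E c ∈ V) {x : E}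
    (hx : 1 < V.valuation x) (p : k[X]) (hp : p ≠ 0) :
    V.valuation (aeval x p / x ^ p.natDegree - algebraMap k E p.leadingCoeff) < 1 := by
  have hx0 : (0 : V.ValueGroup) < V.valuation x := zero_lt_one.trans hx
  have hxE : x ≠ 0 := by
    rintro rfl
    rw [map_zero] at hx0
    exact lt_irrefl _ hx0
  have h1 : aeval x p = aeval x p.eraseLead + algebraMap k E p.leadingCoeff * x ^ p.natDegree := by
    conv_lhs => rw [← p.eraseLead_add_C_mul_X_pow]
    rw [map_add, map_mul, aeval_C, map_pow, aeval_X]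
  have h2 : aeval x p / x ^ p.natDegree - algebraMap k E p.leadingCoeff =
      aeval x p.eraseLead / x ^ p.natDegree := by
    rw [h1, add_div, mul_div_cancel_right₀ _ (pow_ne_zero _ hxE), add_sub_cancel_right]
  rw [h2, map_div₀, map_pow, div_lt_one₀ (pow_pos hx0 _)]
  apply val_poly_lt hV hx
  rw [← degree_eq_natDegree hp]
  exact degree_eraseLead_lt hp

/-- the leading term of a rational function -/
theorem lead (x : E) (hx : Transcendental k x) (z : E) (hz : z ∈ k⟮x⟯) (hz0 : z ≠ 0) :
    ∃ (n : ℤ) (c : k), c ≠ 0 ∧ ∀ V : ValuationSubring E, (∀ c : k, algebraMap k E c ∈ V) →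
      1 < V.valuation x → V.valuation (x ^ (-n) * z - algebraMap k E c) < 1 := by
  rw [mem_adjoin_simple_iff] at hz
  obtain ⟨p, q, rfl⟩ := hz
  have hp : p ≠ 0 := by
    rintro rfl
    simp at hz0
  have hq : q ≠ 0 := by
    rintro rfl
    simp at hz0
  refine ⟨p.natDegree - q.natDegree, p.leadingCoeff / q.leadingCoeff,
    div_ne_zero (leadingCoeff_ne_zero.2 hp) (leadingCoeff_ne_zero.2 hq), ?_⟩
  intro V hV hxV
  have hx0 : (0 : V.ValueGroup) < V.valuation x := zero_lt_one.trans hxV
  have hxE : x ≠ 0 := by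
    rintro rfl
    rw [map_zero] at hx0
    exact lt_irrefl _ hx0
  set P := aeval x p / x ^ p.natDegree with hP
  set Q := aeval x q / x ^ q.natDegree with hQ
  set a := algebraMap k E p.leadingCoeff with ha
  set b := algebraMap k E q.leadingCoeff with hb
  have h1 : V.valuation (P - a) < 1 := val_poly_lead hV hxV p hp
  have h2 : V.valuation (Q - b) < 1 := val_poly_lead hV hxV q hq
  have hva : V.valuation a = 1 := val_const hV (leadingCoeff_ne_zero.2 hp)
  have hvb : V.valuation b = 1 := val_const hV (leadingCoeff_ne_zero.2 hq)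
  have hb0 : b ≠ 0 := by
    intro h
    rw [h, map_zero] at hvb
    exact zero_ne_one hvb
  have hvQ : V.valuation Q = 1 := by
    have h3 : Q = b + (Q - b) := by ring
    rw [h3, Valuation.map_add_eq_of_lt_left _ (by rw [hvb]; exact h2), hvb]
  have hQ0 : Q ≠ 0 := by
    intro h
    rw [h, map_zero] at hvQ
    exact zero_ne_one hvQ
  have h4 : x ^ (-((p.natDegree : ℤ) - q.natDegree)) * (aeval x p / aeval x q) = P / Q := by
    have hqx : aeval x q ≠ 0 := fun h => hq ((transcendental_iff.1 hx) q h)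
    rw [hP, hQ, neg_sub, zpow_sub₀ hxE, zpow_natCast, zpow_natCast]
    field_simp
  rw [h4, map_div₀, ← ha, ← hb]
  have h5 : P / Q - a / b = (b * (P - a) - a * (Q - b)) / (b * Q) := by
    field_simp
    ring
  rw [h5, map_div₀, map_mul, hvb, hvQ, one_mul, div_one]
  apply Valuation.map_sub_lt
  · rw [map_mul, hvb, one_mul]
    exact h1
  · rw [map_mul, hva, one_mul]
    exact h2

theorem val_of_lead {V : ValuationSubring E} (hV : ∀ c : k, algebraMap k E c ∈ V) {x z : E}
    (hx : 1 < V.valuation x) {n : ℤ} {c : k} (hc : c ≠ 0)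
    (h : V.valuation (x ^ (-n) * z - algebraMap k E c) < 1) :
    V.valuation z = V.valuation x ^ n := by
  have hx0 : (0 : V.ValueGroup) < V.valuation x := zero_lt_one.trans hx
  have h1 : V.valuation (x ^ (-n) * z) = 1 := by
    have h3 : x ^ (-n) * z = algebraMap k E c + (x ^ (-n) * z - algebraMap k E c) := by ring
    rw [h3, Valuation.map_add_eq_of_lt_left _ (by rw [val_const hV hc]; exact h), val_const hV hc]
  rw [map_mul, map_zpow₀, zpow_neg] at h1
  have h2 : V.valuation x ^ n ≠ 0 := zpow_ne_zero _ hx0.ne'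
  exact (inv_mul_eq_one₀ h2).1 h1 |>.symm

theorem mem_range_of_alg [IsAlgClosed k] {x : E} (h : IsAlgebraic k x) :
    x ∈ Set.range (algebraMap k E) :=
  minpoly.mem_range_of_degree_eq_one k x
    (IsAlgClosed.degree_eq_one_of_irreducible k (minpoly.irreducible h.isIntegral))

/-- there are no elements of `k` with a pole -/
theorem transc_of_one_lt [IsAlgClosed k] {V : ValuationSubring E}
    (hV : ∀ c : k, algebraMap k E c ∈ V) {x : E} (hx : 1 < V.valuation x) :
    Transcendental k x := by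
  intro h
  have h1 : x ∈ Set.range (algebraMap k E) := by
    exact mem_range_of_alg h
  obtain ⟨c, rfl⟩ := h1
  exact absurd (val_const_le hV c) (not_le.2 hx)

theorem exists_pole {V : ValuationSubring E} (hV : Pl k V) : ∃ x : E, 1 < V.valuation x := by
  by_contra h
  push Not at h
  apply hV.2
  rw [eq_top_iff]
  intro x _
  exact (V.valuation_le_one_iff x).1 (h x)

/-- rank one -/
theorem rank_one [IsAlgClosed k] (hE : Cur k E) {V : ValuationSubring E}
    (hV : ∀ c : k, algebraMap k E c ∈ V) {x : E} (hx : 1 < V.valuation x) {t : E}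
    (ht : V.valuation t < 1) :
    V.valuation (x * t ^ Module.finrank k⟮x⟯ E) ≤ 1 := by
  classical
  have hxt := transc_of_one_lt hV hx
  have hfd := hE x hxt
  set n := Module.finrank k⟮x⟯ E with hn
  by_contra hcon
  push Not at hcon
  have hx0 : (0 : V.ValueGroup) < V.valuation x := zero_lt_one.trans hx
  have hn0 : n ≠ 0 := (Module.finrank_pos (R := k⟮x⟯) (M := E)).ne'
  have ht0 : V.valuation t ≠ 0 := by
    intro h
    rw [map_mul, map_pow, h, zero_pow hn0, mul_zero] at hcon
    exact not_lt_of_ge zero_le hcon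
  have hli : ¬ LinearIndependent k⟮x⟯ (fun i : Fin (n + 1) => t ^ (i : ℕ)) := by
    intro h
    have h1 := h.fintype_card_le_finrank
    rw [Fintype.card_fin] at h1
    omega
  rw [Fintype.not_linearIndependent_iff] at hli
  obtain ⟨g, hg, i₁, hi₁⟩ := hli
  let T : Fin (n + 1) → E := fun i => (g i : E) * t ^ (i : ℕ)
  have hsum : ∑ i, T i = 0 := by
    rw [← hg]
    refine Finset.sum_congr rfl (fun i _ => ?_)
    rw [Algebra.smul_def]
    rfl
  obtain ⟨i₀, _, hi₀⟩ := Finset.exists_max_image (Finset.univ : Finset (Fin (n + 1)))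
    (fun i => V.valuation (T i)) ⟨i₁, Finset.mem_univ i₁⟩
  have hval : ∀ i, g i ≠ 0 → ∃ a : ℤ, V.valuation (T i) = V.valuation x ^ a *
      V.valuation t ^ (i : ℕ) := by
    intro i hi
    have hi' : (g i : E) ≠ 0 := fun h => hi (Subtype.ext h)
    obtain ⟨a, c, hc, h⟩ := lead x hxt (g i) (g i).2 hi'
    refine ⟨a, ?_⟩
    show V.valuation ((g i : E) * t ^ (i : ℕ)) = _
    rw [map_mul, map_pow, val_of_lead hV hx hc (h V hV hx)]
  have hT1 : T i₁ ≠ 0 := by
    refine mul_ne_zero (fun h => hi₁ (Subtype.ext h)) (pow_ne_zero _ ?_)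
    rintro rfl
    exact ht0 (map_zero _)
  have hT0 : V.valuation (T i₀) ≠ 0 := by
    intro h
    have h1 := hi₀ i₁ (Finset.mem_univ _)
    simp only [h] at h1
    exact hT1 ((map_eq_zero V.valuation).1 (le_antisymm h1 zero_le))
  have hg0 : ∀ i, V.valuation (T i) ≠ 0 → g i ≠ 0 := by
    intro i h h1
    apply h
    show V.valuation ((g i : E) * t ^ (i : ℕ)) = 0
    rw [h1]
    simp
  -- the terms have different values
  have hdist : ∀ i j : Fin (n + 1), (i : ℕ) < j → V.valuation (T i) ≠ 0 →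
      V.valuation (T i) = V.valuation (T j) → False := by
    intro i j hij h0 hEq
    obtain ⟨a, ha⟩ := hval i (hg0 i h0)
    obtain ⟨b, hb⟩ := hval j (hg0 j (by rw [← hEq]; exact h0))
    rw [ha, hb] at hEq
    have hji : (j : ℕ) = i + (j - i) := by omega
    rw [hji, pow_add, ← mul_assoc, mul_comm (V.valuation x ^ b), mul_assoc, mul_comm] at hEq
    have h1 : V.valuation x ^ a = V.valuation x ^ b * V.valuation t ^ ((j : ℕ) - i) :=
      mul_left_cancel₀ (pow_ne_zero _ ht0) hEq
    have h2 : V.valuation t ^ ((j : ℕ) - i) < 1 := pow_lt_one₀ zero_le ht (by omega)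
    have h3 : V.valuation x ^ a < V.valuation x ^ b := by
      rw [h1]
      calc V.valuation x ^ b * V.valuation t ^ ((j : ℕ) - i) <
          V.valuation x ^ b * 1 := by
            apply mul_lt_mul_of_pos_left h2
            exact zpow_pos hx0 _
        _ = V.valuation x ^ b := mul_one _
    have h4 : a < b := (zpow_lt_zpow_iff_right₀ hx).1 h3
    have h5 : V.valuation x * V.valuation x ^ a ≤ V.valuation x ^ b := by
      rw [mul_comm, ← zpow_add_one₀ hx0.ne']
      exact zpow_le_zpow_right₀ hx.le (by omega)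
    have h6 : V.valuation t ^ n ≤ V.valuation t ^ ((j : ℕ) - i) :=
      pow_le_pow_right_of_le_one' ht.le (by omega)
    have h7 : V.valuation x ^ a < V.valuation x ^ a := by
      calc V.valuation x ^ a = V.valuation x ^ a * 1 := (mul_one _).symm
        _ < V.valuation x ^ a * (V.valuation x * V.valuation t ^ n) := by
            apply mul_lt_mul_of_pos_left _ (zpow_pos hx0 _)
            rw [map_mul, map_pow] at hcon
            exact hcon
        _ = (V.valuation x * V.valuation x ^ a) * V.valuation t ^ n := by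
            rw [← mul_assoc, mul_comm (V.valuation x ^ a)]
        _ ≤ V.valuation x ^ b * V.valuation t ^ ((j : ℕ) - i) := mul_le_mul' h5 h6
        _ = V.valuation x ^ a := h1.symm
    exact lt_irrefl _ h7
  have hlt : ∀ i, i ≠ i₀ → V.valuation (T i) < V.valuation (T i₀) := by
    intro i hi
    refine lt_of_le_of_ne (hi₀ i (Finset.mem_univ i)) ?_
    intro h
    rcases lt_trichotomy (i : ℕ) i₀ with h1 | h1 | h1
    · exact hdist i i₀ h1 (by rw [h]; exact hT0) h
    · exact hi (Fin.ext h1)
    · exact hdist i₀ i h1 hT0 h.symm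
  have h8 : V.valuation (∑ i, T i) = V.valuation (T i₀) := by
    rw [← Finset.add_sum_erase _ _ (Finset.mem_univ i₀)]
    apply Valuation.map_add_eq_of_lt_left
    apply Valuation.map_sum_lt _ hT0
    intro i hi
    exact hlt i (Finset.ne_of_mem_erase hi)
  rw [hsum, map_zero] at h8
  exact hT0 h8.symm

theorem root_of_small [IsAlgClosed k] {V : ValuationSubring E}
    (hV : ∀ c : k, algebraMap k E c ∈ V) {t : E} (h : ∀ c : k, 1 ≤ V.valuation
    (t - algebraMap k E c)) (n : ℕ) : ∀ Q : k[X], Q ≠ 0 → Q.natDegree = n →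
    1 ≤ V.valuation (aeval t Q) := by
  induction n with
  | zero =>
    intro Q hQ hd
    rw [eq_C_of_natDegree_eq_zero hd, aeval_C, val_const hV]
    intro h0
    apply hQ
    rw [eq_C_of_natDegree_eq_zero hd, h0, C_0]
  | succ n ih =>
    intro Q hQ hd
    obtain ⟨c, hc⟩ := IsAlgClosed.exists_root Q (by
      intro h0
      have h1 : Q.natDegree = 0 := natDegree_eq_of_degree_eq_some h0
      omega)
    obtain ⟨R, hR⟩ := dvd_iff_isRoot.2 hc
    have hR0 : R ≠ 0 := by
      rintro rfl
      rw [mul_zero] at hR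
      exact hQ hR
    have hRd : R.natDegree = n := by
      rw [hR, natDegree_mul (X_sub_C_ne_zero c) hR0, natDegree_X_sub_C] at hd
      omega
    rw [hR, map_mul, map_sub, aeval_X, aeval_C, map_mul]
    exact one_le_mul (h c) (ih R hR0 hRd)

/-- the residue field is `k` -/
theorem residue [IsAlgClosed k] (hE : Cur k E) {V : ValuationSubring E} (hV : Pl k V) {t : E}
    (ht : V.valuation t ≤ 1) : ∃ c : k, V.valuation (t - algebraMap k E c) < 1 := by
  classical
  obtain ⟨x, hx⟩ := exists_pole hV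
  have hxt := transc_of_one_lt hV.1 hx
  have hfd := hE x hxt
  have hx0 : (0 : V.ValueGroup) < V.valuation x := zero_lt_one.trans hx
  set n := Module.finrank k⟮x⟯ E with hn
  have hli : ¬ LinearIndependent k⟮x⟯ (fun i : Fin (n + 1) => t ^ (i : ℕ)) := by
    intro h
    have h1 := h.fintype_card_le_finrank
    rw [Fintype.card_fin] at h1
    omega
  rw [Fintype.not_linearIndependent_iff] at hli
  obtain ⟨g, hg, i₁, hi₁⟩ := hli
  have hlead : ∀ i, ∃ (a : ℤ) (c : k), g i ≠ 0 → c ≠ 0 ∧
      V.valuation (x ^ (-a) * (g i : E) - algebraMap k E c) < 1 := by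
    intro i
    by_cases hi : g i = 0
    · exact ⟨0, 0, fun h => absurd hi h⟩
    · obtain ⟨a, c, hc, h⟩ := lead x hxt (g i) (g i).2 (fun h => hi (Subtype.ext h))
      exact ⟨a, c, fun _ => ⟨hc, h V hV.1 hx⟩⟩
  choose a c hac using hlead
  obtain ⟨i₀, hi₀, hmax⟩ := Finset.exists_max_image
    (Finset.univ.filter (fun i => g i ≠ 0)) a ⟨i₁, by simpa using hi₁⟩
  rw [Finset.mem_filter] at hi₀
  by_contra hcon
  push Not at hcon
  let q : Fin (n + 1) → k := fun i => if g i ≠ 0 ∧ a i = a i₀ then c i else 0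
  let Q : k[X] := ∑ i : Fin (n + 1), C (q i) * X ^ (i : ℕ)
  have hcoef : Q.coeff i₀ = q i₀ := by
    show (∑ i : Fin (n + 1), C (q i) * X ^ (i : ℕ)).coeff i₀ = q i₀
    rw [finsetSum_coeff, Finset.sum_eq_single i₀]
    · simp
    · intro j _ hj
      have : (i₀ : ℕ) ≠ j := fun h => hj (Fin.ext h.symm)
      simp [this]
    · simp
  have hQ : Q ≠ 0 := by
    intro h
    rw [h, coeff_zero] at hcoef
    have h1 : q i₀ = c i₀ := if_pos ⟨hi₀.2, rfl⟩
    rw [h1] at hcoef
    exact (hac i₀ hi₀.2).1 hcoef.symm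
  have h1 := root_of_small hV.1 hcon Q.natDegree Q hQ rfl
  have h2 : aeval t Q = - ∑ i : Fin (n + 1), (x ^ (-a i₀) * (g i : E) - algebraMap k E (q i)) *
      t ^ (i : ℕ) := by
    show aeval t (∑ i : Fin (n + 1), C (q i) * X ^ (i : ℕ)) = _
    rw [map_sum]
    simp only [map_mul, aeval_C, map_pow, aeval_X, sub_mul]
    rw [Finset.sum_sub_distrib]
    have h3 : ∑ i : Fin (n + 1), x ^ (-a i₀) * (g i : E) * t ^ (i : ℕ) = 0 := by
      have h4 : ∑ i : Fin (n + 1), (g i : E) * t ^ (i : ℕ) = 0 := by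
        rw [← hg]
        refine Finset.sum_congr rfl (fun i _ => ?_)
        rw [Algebra.smul_def]
        rfl
      simp only [mul_assoc]
      rw [← Finset.mul_sum, h4, mul_zero]
    rw [h3]
    ring
  rw [h2, Valuation.map_neg] at h1
  apply absurd h1
  rw [not_le]
  apply Valuation.map_sum_lt _ one_ne_zero
  intro i _
  rw [map_mul, map_pow]
  have h5 : V.valuation (x ^ (-a i₀) * (g i : E) - algebraMap k E (q i)) < 1 := by
    by_cases hgi : g i = 0
    · have : q i = 0 := if_neg (fun h => h.1 hgi)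
      rw [this, hgi]
      simp
    · by_cases hai : a i = a i₀
      · have : q i = c i := if_pos ⟨hgi, hai⟩
        rw [this, ← hai]
        exact (hac i hgi).2
      · have : q i = 0 := if_neg (fun h => hai h.2)
        have h6 : a i < a i₀ := lt_of_le_of_ne (hmax i (by simpa using hgi)) hai
        rw [this, map_zero, sub_zero, map_mul, val_of_lead hV.1 hx (hac i hgi).1 (hac i hgi).2,
          map_zpow₀, ← zpow_add₀ hx0.ne']
        exact zpow_lt_one_of_neg₀ hx (by omega)
  calc V.valuation (x ^ (-a i₀) * (g i : E) - algebraMap k E (q i)) * V.valuation t ^ (i : ℕ)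
      ≤ V.valuation (x ^ (-a i₀) * (g i : E) - algebraMap k E (q i)) * 1 :=
        mul_le_mul_right (pow_le_one' ht _) _
    _ < 1 := by rw [mul_one]; exact h5

/-- a uniformizer -/
theorem unif [IsAlgClosed k] (hE : Cur k E) {V : ValuationSubring E} (hV : Pl k V) {τ : E}
    (hτ : V.valuation τ < 1) (hτ0 : τ ≠ 0) : ∃ (t w : E) (j : ℕ), V.valuation t < 1 ∧
    V.valuation w = 1 ∧ τ = t ^ j * w ∧ ∀ s : E, V.valuation s < 1 →
      V.valuation s ≤ V.valuation t := by
  classical
  set v := V.valuation with hv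
  have hvτ : 0 < v τ := zero_lt_iff.2 ((map_ne_zero v).2 hτ0)
  have hx : 1 < V.valuation τ⁻¹ := by
    rw [map_inv₀]
    exact (one_lt_inv₀ hvτ).2 hτ
  set n := Module.finrank k⟮τ⁻¹⟯ E with hn
  have hbound : ∀ t : E, v t < 1 → v t ^ n ≤ v τ := by
    intro t ht
    have h1 := rank_one hE hV.1 hx ht
    rw [← hn, map_mul, map_inv₀, map_pow, ← hv] at h1
    calc v t ^ n = v τ * ((v τ)⁻¹ * v t ^ n) := by rw [mul_inv_cancel_left₀ hvτ.ne']
      _ ≤ v τ * 1 := mul_le_mul_right h1 _
      _ = v τ := mul_one _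
  -- possible exponents
  have hP : ∀ j : ℕ, (∃ t : E, v t < 1 ∧ v τ ≤ v t ^ j) → j ≤ n := by
    rintro j ⟨t, ht, hj⟩
    by_contra hcon
    push Not at hcon
    have h1 := hbound t ht
    have ht0 : 0 < v t := by
      rw [zero_lt_iff]
      intro h
      rw [h, zero_pow (by omega)] at hj
      exact absurd hj (not_le.2 hvτ)
    have h2 : v t ^ j < v t ^ n := pow_lt_pow_right_of_lt_one₀ ht0 ht hcon
    exact absurd (h1.trans hj) (not_le.2 h2)
  have hex : ∃ j : ℕ, (∃ t : E, v t < 1 ∧ v τ ≤ v t ^ j) ∧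
      ∀ i : ℕ, (∃ t : E, v t < 1 ∧ v τ ≤ v t ^ i) → i ≤ j := by
    have hne : ∃ j : ℕ, ∃ t : E, v t < 1 ∧ v τ ≤ v t ^ j := ⟨1, τ, hτ, by rw [pow_one]⟩
    refine ⟨Nat.findGreatest (fun j => ∃ t : E, v t < 1 ∧ v τ ≤ v t ^ j) n, ?_, ?_⟩
    · obtain ⟨j, hj⟩ := hne
      exact Nat.findGreatest_spec (P := fun j => ∃ t : E, v t < 1 ∧ v τ ≤ v t ^ j) (hP j hj) hj
    · intro i hi
      exact Nat.le_findGreatest (hP i hi) hi
  obtain ⟨j, ⟨t, ht, hjt⟩, hmax⟩ := hex
  have hj1 : 1 ≤ j := hmax 1 ⟨τ, hτ, by rw [pow_one]⟩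
  have ht0 : v t ≠ 0 := by
    intro h
    rw [h, zero_pow (by omega)] at hjt
    exact absurd hjt (not_le.2 hvτ)
  have htE : t ≠ 0 := fun h => ht0 (by rw [h, map_zero])
  have huni : ∀ s : E, v s < 1 → v s ≤ v t := by
    intro s hs
    by_contra hcon
    push Not at hcon
    have hs0 : 0 < v s := zero_lt_iff.2 (fun h => by
      rw [h] at hcon
      exact absurd hcon (not_lt.2 zero_le))
    -- `t = s r`
    set r : E := t / s with hr
    have hvr : v r < 1 := by
      rw [hr, map_div₀, div_lt_one₀ hs0]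
      exact hcon
    have hts : v t = v s * v r := by
      rw [hr, map_div₀, mul_div_cancel₀ _ hs0.ne']
    rcases le_total (v r) (v s) with h1 | h1
    · have h2 := hmax (2 * j) ⟨s, hs, by
        calc v τ ≤ v t ^ j := hjt
          _ = v s ^ j * v r ^ j := by rw [hts, mul_pow]
          _ ≤ v s ^ j * v s ^ j := mul_le_mul_right (pow_le_pow_left₀ zero_le h1 j) _
          _ = v s ^ (2 * j) := by rw [← pow_add]; congr 1; ring⟩
      omega
    · have h2 := hmax (2 * j) ⟨r, hvr, by
        calc v τ ≤ v t ^ j := hjt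
          _ = v s ^ j * v r ^ j := by rw [hts, mul_pow]
          _ ≤ v r ^ j * v r ^ j := mul_le_mul_left (pow_le_pow_left₀ zero_le h1 j) _
          _ = v r ^ (2 * j) := by rw [← pow_add]; congr 1; ring⟩
      omega
  refine ⟨t, τ / t ^ j, j, ht, ?_, ?_, huni⟩
  · have h1 : v (τ / t ^ j) ≤ 1 := by
      rw [map_div₀, map_pow, div_le_one₀ (pow_pos (zero_lt_iff.2 ht0) j)]
      exact hjt
    refine le_antisymm h1 ?_
    by_contra hcon
    push Not at hcon
    have h2 := huni _ hcon
    have h3 := hmax (j + 1) ⟨t, ht, by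
      calc v τ = v t ^ j * v (τ / t ^ j) := by
            rw [map_div₀, map_pow, mul_div_cancel₀ _ (pow_ne_zero _ ht0)]
        _ ≤ v t ^ j * v t := mul_le_mul_right h2 _
        _ = v t ^ (j + 1) := (pow_succ _ _).symm⟩
    omega
  · rw [mul_div_cancel₀ _ (pow_ne_zero _ htE)]

/-- derivations which map the valuation ring to its maximal ideal -/
theorem logder [IsAlgClosed k] (hE : Cur k E) {V : ValuationSubring E} (hV : Pl k V)
    (δ : Derivation k E E) (hδ : ∀ y : E, V.valuation y ≤ 1 → V.valuation (δ y) < 1) {τ : E}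
    (hτ : V.valuation τ < 1) : V.valuation (δ τ) ≤ V.valuation τ := by
  by_cases hτ0 : τ = 0
  · rw [hτ0, map_zero]
  obtain ⟨t, w, j, ht, hw, hτj, hu⟩ := unif hE hV hτ hτ0
  set v := V.valuation with hv
  rcases Nat.eq_zero_or_pos j with hj | hj
  · exfalso
    rw [hτj, hj, pow_zero, one_mul, hw] at hτ
    exact lt_irrefl _ hτ
  have h1 : v (δ t) ≤ v t := hu _ (hδ t ht.le)
  have h2 : v (δ w) ≤ 1 := (hδ w hw.le).le
  have h3 : δ τ = t ^ j * δ w + w * (j * (t ^ (j - 1) * δ t)) := by
    rw [hτj, Derivation.leibniz, Derivation.leibniz_pow]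
    simp only [smul_eq_mul, nsmul_eq_mul]
  have h4 : v τ = v t ^ j := by rw [hτj, map_mul, map_pow, hw, mul_one]
  rw [h3, h4]
  apply Valuation.map_add_le
  · rw [map_mul, map_pow]
    calc v t ^ j * v (δ w) ≤ v t ^ j * 1 := mul_le_mul_right h2 _
      _ = v t ^ j := mul_one _
  · rw [map_mul, map_mul, map_mul, map_pow, hw, one_mul]
    have h5 : v (j : E) ≤ 1 := by
      have := val_const_le hV.1 (j : k)
      rwa [map_natCast] at this
    calc v (j : E) * (v t ^ (j - 1) * v (δ t)) ≤ 1 * (v t ^ (j - 1) * v t) :=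
          mul_le_mul' h5 (mul_le_mul_right h1 _)
      _ = v t ^ j := by rw [one_mul, ← pow_succ]; congr 1; omega

end

end Pool.Agent.SRF
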