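import Pool.Agent.SRF.RED

/-!
# SRF RDB: reduced bases (2)
-/

set_option autoImplicit false

namespace Pool.Agent.SRF

open IntermediateField Polynomial

section

variable {k E : Type} [Field k] [Field E] [Algebra k E]

theorem adjoin_le_W {x : E} {W : ValuationSubring E} (hW : ∀ c : k, algebraMap k E c ∈ W)
    (hx : x ∈ W) : ∀ a ∈ Algebra.adjoin k {x}, a ∈ W := by
  intro a ha
  rw [Algebra.adjoin_singleton_eq_range_aeval] at ha
  obtain ⟨p, rfl⟩ := ha
  exact Ox_aeval x p W hW hx

theorem int_Ox {x y : E} : IsIntegral (Algebra.adjoin k {x}) y ↔ y ∈ Ox k x := by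
  have hconv : IsIntegral (Algebra.adjoin k {x}) y ↔
      IsIntegral (Algebra.adjoin k {x}).toSubring y := Iff.rfl
  rw [hconv]
  constructor
  · intro h W hW hx
    exact val_of_int _ y h W (fun a ha => adjoin_le_W hW hx a ha)
  · intro h
    apply int_of_val
    intro W hW
    apply h W
    · intro c
      exact hW ((Algebra.adjoin k {x}).algebraMap_mem c)
    · exact hW (Algebra.self_mem_adjoin_singleton k x)

open scoped algebraAdjoinAdjoin in
/-- a basis of the integral closure of `k[x]` -/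
theorem obasis [CharZero k] (hE : Cur k E) {x : E} (hx : Transcendental k x) :
    ∃ e : Fin (Module.finrank k⟮x⟯ E) → E, (∀ j, e j ∈ Ox k x) ∧
      LinearIndependent k⟮x⟯ e ∧
      ∀ y ∈ Ox k x, ∃ h : Fin (Module.finrank k⟮x⟯ E) → k[X], y = ∑ j, aeval x (h j) * e j := by
  classical
  have hfd := hE x hx
  have hchE : CharZero k⟮x⟯ := charZero_of_injective_algebraMap (algebraMap k k⟮x⟯).injective
  have hsep : Algebra.IsSeparable k⟮x⟯ E := inferInstance
  have hpir : IsPrincipalIdealRing (Algebra.adjoin k {x}) := by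
    let f : k[X] →+* Algebra.adjoin k {x} :=
      ((aeval x).codRestrict (Algebra.adjoin k {x}) (by
        intro p
        rw [Algebra.adjoin_singleton_eq_range_aeval]
        exact ⟨p, rfl⟩)).toRingHom
    apply IsPrincipalIdealRing.of_surjective f
    rintro ⟨a, ha⟩
    have ha' := ha
    rw [Algebra.adjoin_singleton_eq_range_aeval] at ha'
    obtain ⟨p, hp⟩ := ha'
    exact ⟨p, Subtype.ext hp⟩
  have htf : Module.IsTorsionFree (Algebra.adjoin k {x}) E := by
    exact Module.isTorsionFree_iff_algebraMap_injective.2 Subtype.val_injective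
  let A := Algebra.adjoin k {x}
  let S := integralClosure A E
  have hfree : Module.Free A S := IsIntegralClosure.module_free A k⟮x⟯ E S
  have hfin : Module.Finite A S := IsIntegralClosure.finite A k⟮x⟯ E S
  have hrank : Module.finrank A S = Module.finrank k⟮x⟯ E := IsIntegralClosure.rank A k⟮x⟯ E S
  let b := Module.finBasisOfFinrankEq A S hrank
  refine ⟨fun j => ((b j : S) : E), ?_, ?_, ?_⟩
  · intro j
    exact int_Ox.1 (b j).2
  · rw [← LinearIndependent.iff_fractionRing A]
    exact b.linearIndependent.map' (S.val.toLinearMap) (LinearMap.ker_eq_bot.2 Subtype.val_injective)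
  · intro y hy
    let y' : S := ⟨y, int_Ox.2 hy⟩
    have h1 : ∀ a : A, ∃ p : k[X], aeval x p = (a : E) := by
      intro a
      have ha : (a : E) ∈ Algebra.adjoin k {x} := a.2
      rw [Algebra.adjoin_singleton_eq_range_aeval] at ha
      obtain ⟨p, hp⟩ := ha
      exact ⟨p, hp⟩
    choose g hg using h1
    refine ⟨fun j => g (b.repr y' j), ?_⟩
    have h2 := b.sum_repr y'
    have h3 : y = ((∑ j, b.repr y' j • b j : S) : E) := by
      rw [h2]
    rw [h3]
    rw [AddSubmonoidClass.coe_finsetSum]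
    refine Finset.sum_congr rfl (fun j _ => ?_)
    rw [hg]
    rfl

/-- families which span the integral closure of `k[x]` -/
def Spn (k : Type) {E : Type} [Field k] [Field E] [Algebra k E] (x : E) {m : ℕ}
    (e : Fin m → E) : Prop :=
  (∀ j, e j ∈ Ox k x) ∧ ∀ y ∈ Ox k x, ∃ h : Fin m → k[X], y = ∑ j, aeval x (h j) * e j

theorem aeval_mem_adj (x : E) (p : k[X]) : aeval x p ∈ k⟮x⟯ :=
  algebra_adjoin_le_adjoin k {x} (by
    rw [Algebra.adjoin_singleton_eq_range_aeval]
    exact ⟨p, rfl⟩)

theorem li_of_span [CharZero k] (hE : Cur k E) {x : E} (hx : Transcendental k x)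
    {e : Fin (Module.finrank k⟮x⟯ E) → E} (he : Spn k x e) : LinearIndependent k⟮x⟯ e := by
  classical
  have hfd := hE x hx
  obtain ⟨e₀, he₀, hli, -⟩ := obasis hE hx
  apply linearIndependent_of_top_le_span_of_card_eq_finrank
  · have h1 : Submodule.span k⟮x⟯ (Set.range e₀) = ⊤ :=
      hli.span_eq_top_of_card_eq_finrank' (by rw [Fintype.card_fin])
    rw [← h1, Submodule.span_le]
    rintro _ ⟨j, rfl⟩
    obtain ⟨h, hh⟩ := he.2 _ (he₀ j)
    rw [hh]
    refine Submodule.sum_mem _ (fun i _ => ?_)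
    have : aeval x (h i) * e i = (⟨aeval x (h i), aeval_mem_adj x (h i)⟩ : k⟮x⟯) • e i := rfl
    rw [this]
    exact Submodule.smul_mem _ _ (Submodule.subset_span ⟨i, rfl⟩)
  · rw [Fintype.card_fin]

/-- uniqueness of coordinates -/
theorem li_zero {x : E} {m : ℕ} {e : Fin m → E} (h : LinearIndependent k⟮x⟯ e) (f : Fin m → E)
    (hf : ∀ j, f j ∈ k⟮x⟯) (h0 : ∑ j, f j * e j = 0) : ∀ j, f j = 0 := by
  intro j
  have h1 := Fintype.linearIndependent_iff.1 h (fun j => ⟨f j, hf j⟩) (by
    rw [← h0]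
    rfl) j
  exact congrArg Subtype.val h1

theorem spn_update {x : E} {m : ℕ} {e : Fin m → E} (he : Spn k x e) (i₀ : Fin m)
    (r : Fin m → k[X]) (l : k) (hl : l ≠ 0) (hr : r i₀ = C l) :
    Spn k x (Function.update e i₀ (∑ j, aeval x (r j) * e j)) := by
  classical
  constructor
  · intro j
    by_cases hj : j = i₀
    · rw [hj, Function.update_self]
      exact Subring.sum_mem _ (fun i _ => (Ox k x).mul_mem (Ox_aeval x _) (he.1 i))
    · rw [Function.update_of_ne hj]
      exact he.1 j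
  · intro y hy
    obtain ⟨h, hh⟩ := he.2 y hy
    have hl' : algebraMap k E l ≠ 0 := (_root_.map_ne_zero _).2 hl
    set R : E := ∑ j ∈ Finset.univ.erase i₀, aeval x (r j) * e j with hR
    have he' : ∑ j, aeval x (r j) * e j = algebraMap k E l * e i₀ + R := by
      rw [← Finset.add_sum_erase _ _ (Finset.mem_univ i₀), hr, aeval_C]
    refine ⟨fun j => if j = i₀ then C l⁻¹ * h i₀ else h j - C l⁻¹ * h i₀ * r j, ?_⟩
    have h1 : ∑ j, aeval x (if j = i₀ then C l⁻¹ * h i₀ else
        h j - C l⁻¹ * h i₀ * r j) * Function.update e i₀ (∑ j, aeval x (r j) * e j) j =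
        algebraMap k E l⁻¹ * aeval x (h i₀) * (∑ j, aeval x (r j) * e j) +
        ∑ j ∈ Finset.univ.erase i₀, (aeval x (h j) * e j -
        algebraMap k E l⁻¹ * aeval x (h i₀) * (aeval x (r j) * e j)) := by
      rw [← Finset.add_sum_erase _ _ (Finset.mem_univ i₀), if_pos rfl, Function.update_self,
        map_mul, aeval_C]
      congr 1
      refine Finset.sum_congr rfl (fun j hj => ?_)
      have hj' := Finset.ne_of_mem_erase hj
      rw [if_neg hj', Function.update_of_ne hj', map_sub, map_mul, map_mul, aeval_C]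
      ring
    rw [h1, Finset.sum_sub_distrib, ← Finset.mul_sum, ← hR, he', hh,
      ← Finset.add_sum_erase _ _ (Finset.mem_univ i₀), map_inv₀]
    field_simp
    ring

theorem exists_pole_of_tr [IsAlgClosed k] {x : E} (hx : Transcendental k x) :
    ∃ W : ValuationSubring E, (∀ c : k, algebraMap k E c ∈ W) ∧ 1 < W.valuation x := by
  by_contra hcon
  push Not at hcon
  obtain ⟨c, hc⟩ := mem_k (y := x) (fun W hW => (W.valuation_le_one_iff x).1 (hcon W hW))
  apply hx
  rw [← hc]
  exact isAlgebraic_algebraMap c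

/-- **a reduced basis** -/
theorem rbasis [IsAlgClosed k] [CharZero k] (hE : Cur k E) {x : E} (hx : Transcendental k x) :
    ∃ (e : Fin (Module.finrank k⟮x⟯ E) → E) (a : Fin (Module.finrank k⟮x⟯ E) → ℕ),
      Spn k x e ∧ (∀ j, (x ^ a j)⁻¹ * e j ∈ Sx k x) ∧
      ∀ l : Fin (Module.finrank k⟮x⟯ E) → k,
        x * ∑ j, algebraMap k E (l j) * ((x ^ a j)⁻¹ * e j) ∈ Sx k x → ∀ j, l j = 0 := by
  classical
  have hfd := hE x hx
  have hx0 : x ≠ 0 := by
    rintro rfl
    exact hx isAlgebraic_zero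
  let P : ℕ → Prop := fun N => ∃ (e : Fin (Module.finrank k⟮x⟯ E) → E)
    (a : Fin (Module.finrank k⟮x⟯ E) → ℕ), Spn k x e ∧ (∀ j, (x ^ a j)⁻¹ * e j ∈ Sx k x) ∧
    ∑ j, a j = N
  have hP : ∃ N, P N := by
    obtain ⟨e, he, -, he2⟩ := obasis hE hx
    choose a ha using fun j => bdd_inf hx (Algebra.IsAlgebraic.isAlgebraic (R := k⟮x⟯) (e j))
    exact ⟨∑ j, a j, e, a, ⟨he, he2⟩, ha, rfl⟩
  obtain ⟨e, a, he, ha, hsum⟩ := Nat.find_spec hP
  refine ⟨e, a, he, ha, ?_⟩
  intro l hl
  by_contra hcon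
  push Not at hcon
  obtain ⟨i₁, hi₁⟩ := hcon
  obtain ⟨i₀, hi₀, hmax⟩ := Finset.exists_max_image
    (Finset.univ.filter (fun i => l i ≠ 0)) a ⟨i₁, by simpa using hi₁⟩
  rw [Finset.mem_filter] at hi₀
  have hl0 := hi₀.2
  let r : Fin (Module.finrank k⟮x⟯ E) → k[X] := fun j => C (l j) * X ^ (a i₀ - a j)
  have hr : r i₀ = C (l i₀) := by
    show C (l i₀) * X ^ (a i₀ - a i₀) = C (l i₀)
    rw [Nat.sub_self, pow_zero, mul_one]
  set e' : E := ∑ j, aeval x (r j) * e j with he'
  have hee : e' = x ^ a i₀ * ∑ j, algebraMap k E (l j) * ((x ^ a j)⁻¹ * e j) := by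
    rw [he', Finset.mul_sum]
    refine Finset.sum_congr rfl (fun j _ => ?_)
    show aeval x (C (l j) * X ^ (a i₀ - a j)) * e j = _
    rw [map_mul, aeval_C, map_pow, aeval_X]
    by_cases hj : l j = 0
    · rw [hj, map_zero]
      ring
    have h1 : a i₀ = (a i₀ - a j) + a j := by
      have := hmax j (by simpa using hj)
      omega
    have h2 : x ^ a i₀ = x ^ (a i₀ - a j) * x ^ a j := by
      rw [← pow_add, ← h1]
    rw [h2]
    have h3 : x ^ a j ≠ 0 := pow_ne_zero _ hx0
    field_simp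
  have hspn := spn_update he i₀ r (l i₀) hl0 hr
  rw [← he'] at hspn
  have hxe : x * (x ^ a i₀)⁻¹ * e' ∈ Sx k x := by
    rw [hee]
    have h3 : x ^ a i₀ ≠ 0 := pow_ne_zero _ hx0
    rw [show x * (x ^ a i₀)⁻¹ * (x ^ a i₀ * ∑ j, algebraMap k E (l j) * ((x ^ a j)⁻¹ * e j)) =
      x * ∑ j, algebraMap k E (l j) * ((x ^ a j)⁻¹ * e j) by field_simp]
    exact hl
  rcases Nat.eq_zero_or_pos (a i₀) with h0 | h0
  · rw [h0, pow_zero, inv_one, mul_one] at hxe
    have heO : e' ∈ Ox k x := by
      have := hspn.1 i₀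
      rwa [Function.update_self] at this
    obtain ⟨c, hc⟩ := mem_k (y := e') (by
      intro W hW
      rcases le_or_gt (W.valuation x) 1 with h1 | h1
      · exact heO W hW ((W.valuation_le_one_iff x).1 h1)
      · have h2 : e' = x⁻¹ * (x * e') := by
          rw [inv_mul_cancel_left₀ hx0]
        rw [h2]
        refine W.mul_mem _ _ ?_ (hxe W hW h1)
        rw [← W.valuation_le_one_iff, map_inv₀]
        exact (inv_lt_one_of_one_lt₀ h1).le)
    have hc0 : c = 0 := by
      by_contra hc0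
      obtain ⟨W, hW, hxW⟩ := exists_pole_of_tr hx
      have h1 := hxe W hW hxW
      rw [← hc, ← W.valuation_le_one_iff, map_mul, val_const hW hc0, mul_one] at h1
      exact absurd h1 (not_le.2 hxW)
    rw [hc0, map_zero] at hc
    have h1 := li_zero (li_of_span hE hx he) (fun j => aeval x (r j))
      (fun j => aeval_mem_adj x _) (by rw [← he', hc]) i₀
    rw [hr, aeval_C, map_eq_zero] at h1
    exact hl0 h1
  · apply Nat.find_min hP (m := ∑ j, Function.update a i₀ (a i₀ - 1) j)
    · rw [← hsum, ← Finset.add_sum_erase _ _ (Finset.mem_univ i₀),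
        ← Finset.add_sum_erase _ a (Finset.mem_univ i₀), Function.update_self]
      have h1 : ∑ j ∈ Finset.univ.erase i₀, Function.update a i₀ (a i₀ - 1) j =
          ∑ j ∈ Finset.univ.erase i₀, a j := by
        refine Finset.sum_congr rfl (fun j hj => ?_)
        rw [Function.update_of_ne (Finset.ne_of_mem_erase hj)]
      rw [h1]
      omega
    · refine ⟨Function.update e i₀ e', Function.update a i₀ (a i₀ - 1), hspn, ?_, rfl⟩
      intro j
      by_cases hj : j = i₀
      · rw [hj, Function.update_self, Function.update_self]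
        have h1 : (x ^ (a i₀ - 1))⁻¹ = x * (x ^ a i₀)⁻¹ := by
          have h2 : x ^ a i₀ = x ^ (a i₀ - 1) * x := by
            rw [← pow_succ]
            congr 1
            omega
          rw [h2]
          field_simp
        rw [h1]
        exact hxe
      · rw [Function.update_of_ne hj, Function.update_of_ne hj]
        exact ha j

/-- the property at infinity -/
theorem inf_prop {x : E} (hx : Transcendental k x) {m : ℕ} {e : Fin m → E} {a : Fin m → ℕ}
    (ha : ∀ j, (x ^ a j)⁻¹ * e j ∈ Sx k x)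
    (hr : ∀ l : Fin m → k, x * ∑ j, algebraMap k E (l j) * ((x ^ a j)⁻¹ * e j) ∈ Sx k x →
      ∀ j, l j = 0) (f : Fin m → E) (hf : ∀ j, f j ∈ k⟮x⟯)
    (hy : ∑ j, f j * e j ∈ Sx k x) : ∀ j, x ^ a j * f j ∈ Sx k x := by
  by_contra hcon
  push Not at hcon
  have hx0 : x ≠ 0 := by
    rintro rfl
    exact hx isAlgebraic_zero
  obtain ⟨l, ⟨j, hj⟩, hl⟩ := redu hx (fun j => (x ^ a j)⁻¹ * e j) ha (fun j => x ^ a j * f j)
    (fun j => mul_mem (pow_mem (mem_adjoin_simple_self k x) _) (hf j)) (by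
      have : ∑ j, x ^ a j * f j * ((x ^ a j)⁻¹ * e j) = ∑ j, f j * e j := by
        refine Finset.sum_congr rfl (fun j _ => ?_)
        have h3 : x ^ a j ≠ 0 := pow_ne_zero _ hx0
        field_simp
      rw [this]
      exact hy) hcon
  exact hj (hr l hl j)

theorem transc_inv_sub {x : E} (hx : Transcendental k x) (c : k) :
    Transcendental k (x - algebraMap k E c)⁻¹ := by
  intro h
  apply hx
  have h1 : IsAlgebraic k (x - algebraMap k E c) := by
    have := h.inv
    rwa [inv_inv] at this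
  have h2 := h1.add (isAlgebraic_algebraMap c)
  rwa [sub_add_cancel] at h2

theorem adjoin_inv_sub (x : E) (c : k) : k⟮(x - algebraMap k E c)⁻¹⟯ = k⟮x⟯ := by
  apply le_antisymm
  · rw [adjoin_simple_le_iff]
    exact inv_mem (sub_mem (mem_adjoin_simple_self k x) (k⟮x⟯.algebraMap_mem c))
  · rw [adjoin_simple_le_iff]
    have h1 := inv_mem (mem_adjoin_simple_self k (x - algebraMap k E c)⁻¹)
    rw [inv_inv] at h1
    have h2 := add_mem h1 (k⟮(x - algebraMap k E c)⁻¹⟯.algebraMap_mem c)
    rwa [sub_add_cancel] at h2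

theorem Ox_le_Sx {x : E} (c : k) {y : E} (hy : y ∈ Ox k x) :
    y ∈ Sx k (x - algebraMap k E c)⁻¹ := by
  intro W hW h
  apply hy W hW
  have h1 : x - algebraMap k E c ∈ W := by
    rw [← W.valuation_le_one_iff]
    rw [map_inv₀] at h
    have h2 : 0 < W.valuation (x - algebraMap k E c) := by
      rw [zero_lt_iff]
      intro h0
      rw [h0, inv_zero] at h
      exact absurd h (not_lt.2 zero_le_one)
    exact ((one_lt_inv₀ h2).1 h).le
  have h2 := W.add_mem _ _ h1 (hW c)
  rwa [sub_add_cancel] at h2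

/-- the property at finite places -/
theorem fin_prop [CharZero k] (hE : Cur k E) {x : E} (hx : Transcendental k x)
    {e : Fin (Module.finrank k⟮x⟯ E) → E} (he : Spn k x e) (c : k)
    (f : Fin (Module.finrank k⟮x⟯ E) → E) (hf : ∀ j, f j ∈ k⟮x⟯)
    (hy : ∑ j, f j * e j ∈ Sx k (x - algebraMap k E c)⁻¹) :
    ∀ j, f j ∈ Sx k (x - algebraMap k E c)⁻¹ := by
  classical
  by_contra hcon
  push Not at hcon
  set ξ := (x - algebraMap k E c)⁻¹ with hξ
  have hxc : x - algebraMap k E c ≠ 0 := by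
    intro h
    apply hx
    rw [sub_eq_zero.1 h]
    exact isAlgebraic_algebraMap c
  obtain ⟨l, ⟨j, hj⟩, hl⟩ := redu (ξ := ξ) (transc_inv_sub hx c) e
    (fun j => Ox_le_Sx c (he.1 j)) f (fun j => by
      rw [hξ, adjoin_inv_sub]
      exact hf j) hy hcon
  have hO : ξ * ∑ j, algebraMap k E (l j) * e j ∈ Ox k x := by
    intro W hW hxW
    rcases le_or_gt (W.valuation ξ) 1 with h1 | h1
    · refine W.mul_mem _ _ ((W.valuation_le_one_iff _).1 h1) ?_
      exact sum_mem (fun j _ => W.mul_mem _ _ (hW _) (he.1 j W hW hxW))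
    · exact hl W hW h1
  obtain ⟨h, hh⟩ := he.2 _ hO
  have h1 := li_zero (li_of_span hE hx he) (fun j => ξ * algebraMap k E (l j) - aeval x (h j))
    (fun j => sub_mem (mul_mem (by
      have := mem_adjoin_simple_self k ξ
      rwa [hξ, adjoin_inv_sub, ← hξ] at this) (k⟮x⟯.algebraMap_mem _)) (aeval_mem_adj x _)) (by
    have : ∑ j, (ξ * algebraMap k E (l j) - aeval x (h j)) * e j =
        ξ * ∑ j, algebraMap k E (l j) * e j - ∑ j, aeval x (h j) * e j := by
      rw [Finset.mul_sum, ← Finset.sum_sub_distrib]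
      refine Finset.sum_congr rfl (fun j _ => ?_)
      ring
    rw [this, hh, sub_self]) j
  have h2 : aeval x (C (l j) - (X - C c) * h j) = 0 := by
    rw [map_sub, map_mul, map_sub, aeval_C, aeval_C, aeval_X]
    have h3 : ξ * (x - algebraMap k E c) = 1 := by
      rw [hξ, inv_mul_cancel₀ hxc]
    linear_combination (x - algebraMap k E c) * h1 - algebraMap k E (l j) * h3
  have h3 := (transcendental_iff.1 hx) _ h2
  have h4 := congrArg (Polynomial.eval c) h3
  simp at h4
  exact hj h4

end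

end Pool.Agent.SRF
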