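import Pool.Agent.SRF.LOCS

/-!
# SRF RED: reduced bases
-/

set_option autoImplicit false

namespace Pool.Agent.SRF

open IntermediateField Polynomial

section

variable {k E : Type} [Field k] [Field E] [Algebra k E]

/-- the intersection of the valuation rings over the pole of `ξ` -/
def Sx (k : Type) {E : Type} [Field k] [Field E] [Algebra k E] (ξ : E) : Subring E where
  carrier := {y | ∀ W : ValuationSubring E, (∀ c : k, algebraMap k E c ∈ W) →
    1 < W.valuation ξ → y ∈ W}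
  one_mem' := fun W _ _ => W.one_mem
  mul_mem' := fun ha hb W h1 h2 => W.mul_mem _ _ (ha W h1 h2) (hb W h1 h2)
  zero_mem' := fun W _ _ => W.zero_mem
  add_mem' := fun ha hb W h1 h2 => W.add_mem _ _ (ha W h1 h2) (hb W h1 h2)
  neg_mem' := fun ha W h1 h2 => W.neg_mem _ (ha W h1 h2)

theorem mem_Sx {ξ y : E} : y ∈ Sx k ξ ↔ ∀ W : ValuationSubring E,
    (∀ c : k, algebraMap k E c ∈ W) → 1 < W.valuation ξ → y ∈ W := Iff.rfl

/-- the intersection of the valuation rings which contain `x` -/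
def Ox (k : Type) {E : Type} [Field k] [Field E] [Algebra k E] (x : E) : Subring E where
  carrier := {y | ∀ W : ValuationSubring E, (∀ c : k, algebraMap k E c ∈ W) → x ∈ W → y ∈ W}
  one_mem' := fun W _ _ => W.one_mem
  mul_mem' := fun ha hb W h1 h2 => W.mul_mem _ _ (ha W h1 h2) (hb W h1 h2)
  zero_mem' := fun W _ _ => W.zero_mem
  add_mem' := fun ha hb W h1 h2 => W.add_mem _ _ (ha W h1 h2) (hb W h1 h2)
  neg_mem' := fun ha W h1 h2 => W.neg_mem _ (ha W h1 h2)

theorem mem_Ox {x y : E} : y ∈ Ox k x ↔ ∀ W : ValuationSubring E,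
    (∀ c : k, algebraMap k E c ∈ W) → x ∈ W → y ∈ W := Iff.rfl

theorem Sx_const (ξ : E) (c : k) : algebraMap k E c ∈ Sx k ξ := fun _ h _ => h c

theorem Ox_const (x : E) (c : k) : algebraMap k E c ∈ Ox k x := fun _ h _ => h c

theorem Ox_aeval (x : E) (p : k[X]) : aeval x p ∈ Ox k x := by
  intro W hW hx
  rw [aeval_eq_sum_range]
  refine sum_mem (fun i _ => ?_)
  rw [Algebra.smul_def]
  exact mul_mem (hW _) (pow_mem hx i)

theorem ldeg {x : E} (hx : Transcendental k x) {z : E} (hz : z ∈ k⟮x⟯) (hz0 : z ≠ 0) :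
    ∃ n : ℤ, ∀ V : ValuationSubring E, (∀ c : k, algebraMap k E c ∈ V) →
      1 < V.valuation x → V.valuation z = V.valuation x ^ n := by
  obtain ⟨n, c, hc, h⟩ := lead x hx z hz hz0
  exact ⟨n, fun V hV hxV => val_of_lead hV hxV hc (h V hV hxV)⟩

/-- an element of all valuation rings is constant -/
theorem mem_k [IsAlgClosed k] {y : E} (h : ∀ W : ValuationSubring E,
    (∀ c : k, algebraMap k E c ∈ W) → y ∈ W) : y ∈ Set.range (algebraMap k E) := by
  apply mem_range_of_alg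
  have h1 := int_of_val (algebraMap k E).range y (fun V hV => h V (fun c => hV ⟨c, rfl⟩))
  have h2 : IsIntegral k y := by
    obtain ⟨P, hP, hPy⟩ := h1
    obtain ⟨Q, hQ, _, hQm⟩ := Polynomial.lifts_and_degree_eq_and_monic
      (f := (algebraMap k E).rangeRestrict) (p := P)
      (by
        rw [Polynomial.lifts_iff_coeff_lifts]
        intro n
        obtain ⟨c, hc⟩ := (P.coeff n).2
        exact ⟨c, Subtype.ext hc⟩) hP
    refine ⟨Q, hQm, ?_⟩
    rw [← hQ, Polynomial.eval₂_map] at hPy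
    exact hPy
  exact h2.isAlgebraic

/-- the constant term at the pole of `ξ` -/
theorem resx {ξ : E} (hξ : Transcendental k ξ) {z : E} (hz : z ∈ k⟮ξ⟯) (hzS : z ∈ Sx k ξ) :
    ∃ c : k, ξ * (z - algebraMap k E c) ∈ Sx k ξ := by
  by_cases hz0 : z = 0
  · refine ⟨0, ?_⟩
    rw [hz0, map_zero, sub_zero, mul_zero]
    exact (Sx k ξ).zero_mem
  obtain ⟨n, c, hc, h⟩ := lead ξ hξ z hz hz0
  rcases eq_or_ne n 0 with hn | hn
  · refine ⟨c, ?_⟩
    rw [hn] at h
    by_cases hzc : z - algebraMap k E c = 0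
    · rw [hzc, mul_zero]
      exact (Sx k ξ).zero_mem
    have hmem : z - algebraMap k E c ∈ k⟮ξ⟯ := sub_mem hz (k⟮ξ⟯.algebraMap_mem c)
    obtain ⟨m, hm⟩ := ldeg hξ hmem hzc
    intro W hW hξW
    have h1 := h W hW hξW
    rw [neg_zero, zpow_zero, one_mul, hm W hW hξW] at h1
    have h2 : m < 0 := by
      by_contra hcon
      push Not at hcon
      exact absurd h1 (not_lt.2 (one_le_zpow₀ hξW.le hcon))
    rw [← W.valuation_le_one_iff, map_mul, hm W hW hξW]
    have hξ0 : W.valuation ξ ≠ 0 := (zero_lt_one.trans hξW).ne'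
    rw [← zpow_one_add₀ hξ0]
    exact zpow_le_one_of_nonpos₀ hξW.le (by omega)
  · refine ⟨0, ?_⟩
    rw [map_zero, sub_zero]
    intro W hW hξW
    have h1 := val_of_lead hW hξW hc (h W hW hξW)
    have h2 := (W.valuation_le_one_iff _).2 (hzS W hW hξW)
    rw [h1] at h2
    have h3 : n < 0 := by
      by_contra hcon
      push Not at hcon
      exact absurd h2 (not_le.2 (one_lt_zpow₀ hξW (by omega)))
    rw [← W.valuation_le_one_iff, map_mul, h1]
    have hξ0 : W.valuation ξ ≠ 0 := (zero_lt_one.trans hξW).ne'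
    rw [← zpow_one_add₀ hξ0]
    exact zpow_le_one_of_nonpos₀ hξW.le (by omega)

/-- reduction of a relation -/
theorem redu {ι : Type} [Fintype ι] {ξ : E} (hξ : Transcendental k ξ) (e : ι → E)
    (he : ∀ j, e j ∈ Sx k ξ) (f : ι → E) (hf : ∀ j, f j ∈ k⟮ξ⟯)
    (hy : ∑ j, f j * e j ∈ Sx k ξ) (hne : ∃ j, f j ∉ Sx k ξ) :
    ∃ l : ι → k, (∃ j, l j ≠ 0) ∧ ξ * ∑ j, algebraMap k E (l j) * e j ∈ Sx k ξ := by
  classical
  have hex : ∀ j, ∃ n : ℤ, f j ≠ 0 → ∀ V : ValuationSubring E,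
      (∀ c : k, algebraMap k E c ∈ V) → 1 < V.valuation ξ →
      V.valuation (f j) = V.valuation ξ ^ n := by
    intro j
    by_cases hj : f j = 0
    · exact ⟨0, fun h => absurd hj h⟩
    · obtain ⟨n, hn⟩ := ldeg hξ (hf j) hj
      exact ⟨n, fun _ => hn⟩
  choose n hn using hex
  obtain ⟨j₁, hj₁⟩ := hne
  have hfj₁ : f j₁ ≠ 0 := by
    intro h
    rw [h] at hj₁
    exact hj₁ (Sx k ξ).zero_mem
  obtain ⟨j₀, hj₀, hmax⟩ := Finset.exists_max_image
    (Finset.univ.filter (fun j => f j ≠ 0)) n ⟨j₁, by simpa using hfj₁⟩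
  rw [Finset.mem_filter] at hj₀
  have hf0 := hj₀.2
  have hn0 : 1 ≤ n j₀ := by
    rw [mem_Sx] at hj₁
    push Not at hj₁
    obtain ⟨W, hW, hξW, h1⟩ := hj₁
    rw [← W.valuation_le_one_iff, hn j₁ hfj₁ W hW hξW, not_le] at h1
    have h2 : 0 < n j₁ := by
      by_contra hcon
      push Not at hcon
      exact absurd h1 (not_lt.2 (zpow_le_one_of_nonpos₀ hξW.le hcon))
    have := hmax j₁ (by simpa using hfj₁)
    omega
  have hg : ∀ j, f j / f j₀ ∈ Sx k ξ := by
    intro j W hW hξW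
    by_cases hj : f j = 0
    · rw [hj, zero_div]
      exact W.zero_mem
    have hξ0 : W.valuation ξ ≠ 0 := (zero_lt_one.trans hξW).ne'
    rw [← W.valuation_le_one_iff, map_div₀, hn j hj W hW hξW, hn j₀ hf0 W hW hξW,
      ← zpow_sub₀ hξ0]
    have := hmax j (by simpa using hj)
    exact zpow_le_one_of_nonpos₀ hξW.le (by omega)
  have hres : ∀ j, ∃ c : k, ξ * (f j / f j₀ - algebraMap k E c) ∈ Sx k ξ := fun j =>
    resx hξ (div_mem (hf j) (hf j₀)) (hg j)
  choose c hc using hres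
  refine ⟨fun j => if j = j₀ then 1 else c j, ⟨j₀, by simp⟩, ?_⟩
  have h1 : ξ * ∑ j, algebraMap k E (if j = j₀ then 1 else c j) * e j =
      (ξ / f j₀) * (∑ j, f j * e j) - ∑ j, (ξ * (f j / f j₀ - algebraMap k E
        (if j = j₀ then 1 else c j))) * e j := by
    rw [Finset.mul_sum, Finset.mul_sum, ← Finset.sum_sub_distrib]
    refine Finset.sum_congr rfl (fun j _ => ?_)
    ring
  rw [h1]
  refine (Sx k ξ).sub_mem ((Sx k ξ).mul_mem ?_ hy) (Subring.sum_mem _ (fun j _ => ?_))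
  · intro W hW hξW
    have hξ0 : W.valuation ξ ≠ 0 := (zero_lt_one.trans hξW).ne'
    rw [← W.valuation_le_one_iff, map_div₀, hn j₀ hf0 W hW hξW]
    nth_rewrite 1 [← zpow_one (W.valuation ξ)]
    rw [← zpow_sub₀ hξ0]
    exact zpow_le_one_of_nonpos₀ hξW.le (by omega)
  · refine (Sx k ξ).mul_mem ?_ (he j)
    by_cases hj : j = j₀
    · rw [if_pos hj, hj, div_self hf0, map_one, sub_self, mul_zero]
      exact (Sx k ξ).zero_mem
    · rw [if_neg hj]
      exact hc j

/-- boundedness at infinity -/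
theorem bdd_inf {x : E} (hx : Transcendental k x) {y : E} (hy : IsAlgebraic k⟮x⟯ y) :
    ∃ N : ℕ, (x ^ N)⁻¹ * y ∈ Sx k x := by
  classical
  obtain ⟨P, hP, hPy⟩ := hy
  set m := P.natDegree with hm
  have hlc : ((P.coeff m : k⟮x⟯) : E) ≠ 0 := by
    intro h
    have h2 : P.coeff P.natDegree = 0 := Subtype.ext h
    exact hP (leadingCoeff_eq_zero.1 h2)
  let b : ℕ → E := fun i => ((P.coeff i : k⟮x⟯) : E) / ((P.coeff m : k⟮x⟯) : E)
  have hb : ∀ i, b i ∈ k⟮x⟯ := fun i => div_mem (P.coeff i).2 (P.coeff m).2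
  have hex : ∀ i, ∃ n : ℤ, b i ≠ 0 → ∀ V : ValuationSubring E,
      (∀ c : k, algebraMap k E c ∈ V) → 1 < V.valuation x →
      V.valuation (b i) = V.valuation x ^ n := by
    intro i
    by_cases hi : b i = 0
    · exact ⟨0, fun h => absurd hi h⟩
    · obtain ⟨n, hn⟩ := ldeg hx (hb i) hi
      exact ⟨n, fun _ => hn⟩
  choose n hn using hex
  obtain ⟨N, hN⟩ : ∃ N : ℕ, ∀ i < m, n i ≤ N := by
    refine ⟨∑ i ∈ Finset.range m, (n i).toNat, fun i hi => ?_⟩
    have h1 := Finset.single_le_sum (f := fun i => (n i).toNat) (fun _ _ => Nat.zero_le _)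
      (Finset.mem_range.2 hi)
    have h2 := Int.self_le_toNat (n i)
    push_cast
    have h3 : ((n i).toNat : ℤ) ≤ ((∑ i ∈ Finset.range m, (n i).toNat : ℕ) : ℤ) := by
      exact_mod_cast h1
    push_cast at h3
    omega
  refine ⟨N, ?_⟩
  intro W hW hxW
  have hx0 : 0 < W.valuation x := zero_lt_one.trans hxW
  rw [← W.valuation_le_one_iff, map_mul, map_inv₀, map_pow, inv_mul_le_one₀ (pow_pos hx0 N)]
  by_contra hcon
  push Not at hcon
  have hx1 : 1 ≤ W.valuation x ^ N := one_le_pow₀ hxW.le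
  have hy1 : 1 < W.valuation y := lt_of_le_of_lt hx1 hcon
  have hy0 : 0 < W.valuation y := zero_lt_one.trans hy1
  have hrel : y ^ m = - ∑ i ∈ Finset.range m, b i * y ^ i := by
    have h2 : ∑ i ∈ Finset.range (m + 1), ((P.coeff i : k⟮x⟯) : E) * y ^ i = 0 := by
      rw [← hPy, aeval_eq_sum_range, ← hm]
      refine Finset.sum_congr rfl (fun i _ => ?_)
      rw [Algebra.smul_def]
      rfl
    rw [Finset.sum_range_succ] at h2
    have h3 : (((P.coeff m : k⟮x⟯) : E)) * (∑ i ∈ Finset.range m, b i * y ^ i) =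
        ∑ i ∈ Finset.range m, ((P.coeff i : k⟮x⟯) : E) * y ^ i := by
      rw [Finset.mul_sum]
      refine Finset.sum_congr rfl (fun i _ => ?_)
      show ((P.coeff m : k⟮x⟯) : E) * (((P.coeff i : k⟮x⟯) : E) / ((P.coeff m : k⟮x⟯) : E) * y ^ i) = _
      field_simp
    apply mul_left_cancel₀ hlc
    linear_combination h2 + h3
  rcases Nat.eq_zero_or_pos m with hm0 | hm0
  · rw [hm0] at hrel
    simp at hrel
  have h4 : W.valuation (y ^ m) < W.valuation (y ^ m) := by
    conv_lhs => rw [hrel]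
    rw [Valuation.map_neg]
    apply Valuation.map_sum_lt
    · rw [map_pow]
      exact (pow_pos hy0 m).ne'
    intro i hi
    rw [Finset.mem_range] at hi
    by_cases hbi : b i = 0
    · rw [hbi, zero_mul, map_zero, map_pow]
      exact pow_pos hy0 m
    rw [map_mul, map_pow, map_pow, hn i hbi W hW hxW]
    have h5 : W.valuation x ^ n i ≤ W.valuation x ^ (N : ℤ) :=
      zpow_le_zpow_right₀ hxW.le (hN i hi)
    rw [zpow_natCast] at h5
    calc W.valuation x ^ n i * W.valuation y ^ i < W.valuation y * W.valuation y ^ i := by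
          apply mul_lt_mul_of_pos_right (lt_of_le_of_lt h5 hcon) (pow_pos hy0 i)
      _ = W.valuation y ^ (i + 1) := (pow_succ' _ _).symm
      _ ≤ W.valuation y ^ m := pow_le_pow_right₀ hy1.le (by omega)
  exact lt_irrefl _ h4

end

end Pool.Agent.SRF
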